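import Pool.Agent.MP_20d318_ag.CB.Ct

/-! Row ENDB1: an orthogonal system of integral classes, by the Gram-Schmidt process. -/

set_option autoImplicit false

namespace Pool.Agent.MP_20d318_ag.CB

namespace EndB1

variable {ι κ : Type} [Fintype ι] [Fintype κ] {Λ : Ld ι κ}

/-- The orthogonal of a class. -/
def perp (B : ι → ι → ℤ) (r : ι → ℝ) : Submodule ℝ (ι → ℝ) where
  carrier := {v | ip B v r = 0}
  add_mem' {a b} ha hb := by
    simp only [Set.mem_ofPred_eq] at *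
    rw [ip_add_left, ha, hb, add_zero]
  zero_mem' := ip_zero_left r
  smul_mem' c a ha := by
    simp only [Set.mem_ofPred_eq] at *
    rw [ip_smul_left, ha, mul_zero]

/-- Orthogonal systems in the orthogonal of `F`. -/
structure Good (Λ : Ld ι κ) (Y : Finset (ι → ℤ)) : Prop where
  neg : ∀ x ∈ Y, ip Λ.B x x < 0
  orth : ∀ x ∈ Y, ∀ x' ∈ Y, x ≠ x' → ip Λ.B x x' = 0
  ver : ∀ x ∈ Y, ip Λ.B x Λ.F = 0

omit [Fintype κ] in
theorem gs (Y : Finset (ι → ℤ)) (hY : Good Λ Y) (s : ι → ℝ) : ∃ (n : ℝ) (s' : ι → ℝ), n ≠ 0 ∧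
    (∀ y ∈ Y, ip Λ.B s' (toR y) = 0) ∧
    (∀ U : Submodule ℝ (ι → ℝ), (∀ y ∈ Y, toR y ∈ U) → s' - n • s ∈ U) ∧
    (s ∈ Set.range toR → s' ∈ Set.range toR) := by
  classical
  induction Y using Finset.induction_on with
  | empty => exact ⟨1, s, one_ne_zero, by simp, fun U _ => by simp, id⟩
  | insert y Y hy ih =>
    have m : ∀ z ∈ Y, z ∈ insert y Y := fun z => Finset.mem_insert_of_mem
    have my := Finset.mem_insert_self y Y
    obtain ⟨n, t, h1, h2, h3, h4⟩ := ih ⟨fun x a => hY.neg x (m x a),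
      fun x a x' b => hY.orth x (m x a) x' (m x' b), fun x a => hY.ver x (m x a)⟩
    have hn : ((ip Λ.B y y : ℤ) : ℝ) ≠ 0 := Int.cast_ne_zero.2 (hY.neg y my).ne
    refine ⟨(ip Λ.B y y : ℤ) * n, ((ip Λ.B y y : ℤ) : ℝ) • t - ip Λ.B t (toR y) • toR y,
      mul_ne_zero hn h1, fun z hz => ?_, fun U hU => ?_, fun hs => ?_⟩
    · rw [ip_sub_left, ip_smul_left, ip_smul_left, ip_toR]
      rcases Finset.mem_insert.1 hz with rfl | hz
      · ring
      · rw [h2 z hz, hY.orth y my z (m z hz) fun e => hy (e ▸ hz)]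
        simp
    · have := U.sub_mem (U.smul_mem ((ip Λ.B y y : ℤ) : ℝ) (h3 U fun z a => hU z (m z a)))
        (U.smul_mem (ip Λ.B t (toR y)) (hU y my))
      convert this using 1
      module
    · obtain ⟨a, rfl⟩ := h4 hs
      exact ⟨ip Λ.B y y • a - ip Λ.B a y • y, by rw [toR_sub, toR_zsmul, toR_zsmul, ip_toR]⟩

theorem ext (hN : NS Λ) (hL : L1 Λ) {Y : Finset (ι → ℤ)} (hY : Good Λ Y) (S : Finset (ι → ℤ))
    (hS : ∀ s ∈ S, ip Λ.B s Λ.F = 0) : ∃ Z : Finset (ι → ℤ), Y ⊆ Z ∧ Good Λ Z ∧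
      (∀ U : Submodule ℝ (ι → ℝ), (∀ y ∈ Y, toR y ∈ U) → (∀ s ∈ S, toR s ∈ U) →
        ∀ z ∈ Z, toR z ∈ U) ∧
      ∀ U : Submodule ℝ (ι → ℝ), toR Λ.F ∈ U → (∀ z ∈ Z, toR z ∈ U) → ∀ s ∈ S, toR s ∈ U := by
  classical
  induction S using Finset.induction_on with
  | empty => exact ⟨Y, subset_rfl, hY, fun U a _ => a, by simp⟩
  | insert s S _ ih =>
    have m : ∀ z ∈ S, z ∈ insert s S := fun z => Finset.mem_insert_of_mem
    have ms := Finset.mem_insert_self s S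
    obtain ⟨Z, z1, z2, z3, z4⟩ := ih fun t a => hS t (m t a)
    obtain ⟨n, t, h1, h2, h3, h4⟩ := gs Z z2 (toR s)
    obtain ⟨a, rfl⟩ := h4 ⟨s, rfl⟩
    have back : ∀ U : Submodule ℝ (ι → ℝ), (∀ z ∈ Z, toR z ∈ U) → toR a ∈ U → toR s ∈ U :=
      fun U b c => (U.smul_mem_iff h1).1 (by simpa using U.sub_mem c (h3 U b))
    have hF : ip Λ.B (toR a) (toR Λ.F) = 0 := by
      have : ip Λ.B (toR a - n • toR s) (toR Λ.F) = 0 := h3 (perp Λ.B (toR Λ.F)) fun y hy =>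
        show ip Λ.B _ _ = 0 by rw [ip_toR, z2.ver y hy, Int.cast_zero]
      rw [ip_sub_left, ip_smul_left, ip_toR Λ.B s, hS s ms] at this
      simpa using this
    rcases (hL.hz _ hF).1.lt_or_eq with h | h
    · simp only [ip_toR, Int.cast_eq_zero, Int.cast_lt_zero] at h h2 hF
      refine ⟨insert a Z, z1.trans (Finset.subset_insert _ _), ⟨?_, ?_, ?_⟩, ?_, ?_⟩
      · exact Finset.forall_mem_insert _ _ _ |>.2 ⟨h, z2.neg⟩
      · intro x hx x' hx' e
        rcases Finset.mem_insert.1 hx with rfl | h5 <;>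
          rcases Finset.mem_insert.1 hx' with rfl | h6
        exacts [absurd rfl e, h2 _ h6, (ip_comm hN.sym _ _).trans (h2 _ h5), z2.orth _ h5 _ h6 e]
      · exact Finset.forall_mem_insert _ _ _ |>.2 ⟨hF, z2.ver⟩
      · intro U b c
        have e := z3 U b fun t a => c t (m t a)
        exact Finset.forall_mem_insert _ _ _ |>.2
          ⟨by simpa using U.add_mem (h3 U e) (U.smul_mem n (c s ms)), e⟩
      · intro U b c
        have e : ∀ z ∈ Z, toR z ∈ U := fun z hz => c z (Finset.mem_insert_of_mem hz)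
        exact Finset.forall_mem_insert _ _ _ |>.2
          ⟨back U e (c a (Finset.mem_insert_self _ _)), z4 U b e⟩
    · obtain ⟨q, hq, -⟩ := (hL.hz _ hF).2 h
      exact ⟨Z, z1, z2, fun U b c => z3 U b fun t a => c t (m t a), fun U b c =>
        Finset.forall_mem_insert _ _ _ |>.2 ⟨back U c (hq ▸ U.smul_mem q b), z4 U b c⟩⟩

end EndB1

open EndB1 in
theorem endB1_stmt : EndB1Stmt := by
  classical
  intro ι κ _ _ Λ hN hH hL h0
  have hP : Λ.F ∈ Λ.P := hN.memC _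
  have hh := hN.hpos _ hP
  have fin : {c | c ∈ Λ.P ∧ ip Λ.B c Λ.F = 0}.Finite := by
    refine (hH.fin Λ.h (ip Λ.B Λ.h Λ.F + 4) hL.hh).subset fun c hc => ?_
    have a := hL.efn Λ.h (fun c hc => (hN.hpos c hc).le) _ (hN.fib h0 c hc.1 hc.2)
    have b := hN.hpos c hc.1
    rw [ip_sub_right] at a
    refine ⟨by rw [ip_comm hN.sym, abs_of_pos b]; omega, ?_⟩
    by_contra e
    rcases hL.neg c hc.1 (by omega) with ⟨_, _, _, e, _⟩ | ⟨_, e, _⟩ | ⟨_, e, _⟩ <;> omega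
  refine ⟨fin, ?_⟩
  have hV : toR Λ.F ∈ Λ.V := Submodule.subset_span ⟨_, ⟨hP, h0⟩, rfl⟩
  obtain ⟨Y, -, y2, y3, y4⟩ := ext hN hL (Y := ∅) ⟨by simp, by simp, by simp⟩ fin.toFinset
    fun s hs => (fin.mem_toFinset.1 hs).2
  replace y3 := y3 Λ.V (by simp) fun s hs => Submodule.subset_span ⟨s, fin.mem_toFinset.1 hs, rfl⟩
  obtain ⟨Z, z1, z2, -, z4⟩ := ext hN hL y2 (Finset.univ.image fun i =>
    ip Λ.B Λ.h Λ.F • Pi.single i 1 - ip Λ.B (Pi.single i 1) Λ.F • Λ.h) fun s hs => by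
      obtain ⟨i, -, rfl⟩ := Finset.mem_image.1 hs
      rw [ip_sub_left, ip_smul_left, ip_smul_left]
      ring
  have sd : ∀ x ∈ Z \ Y, x ∈ Z := fun x hx => (Finset.mem_sdiff.1 hx).1
  refine ⟨Z \ Y, fun x a => z2.neg x (sd x a), fun x a x' b => z2.orth x (sd x a) x' (sd x' b),
    fun x hx v hv => ?_, fun r hr hx => ?_⟩
  · refine (Submodule.span_le (p := perp Λ.B (toR x))).2 ?_ hv
    rintro _ ⟨c, hc, rfl⟩
    refine y4 _ ?_ (fun y hy => ?_) c (fin.mem_toFinset.2 hc) <;> change ip Λ.B _ _ = 0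
    · rw [ip_toR, ip_comm hN.sym, z2.ver x (sd x hx), Int.cast_zero]
    · rw [ip_toR, z2.orth y (z1 hy) x (sd x hx) fun e => (Finset.mem_sdiff.1 hx).2 (e ▸ hy),
        Int.cast_zero]
  · obtain ⟨n, t, h1, h2, h3, -⟩ := gs Y y2 r
    have key : ∀ w : ι → ℤ, (∀ y ∈ Y, ip Λ.B y w = 0) → ip Λ.B r (toR w) = 0 →
        ip Λ.B t (toR w) = 0 := fun w a b => by
      have : ip Λ.B (t - n • r) (toR w) = 0 := h3 (perp Λ.B (toR w)) fun y hy =>
        show ip Λ.B _ _ = 0 by rw [ip_toR, a y hy, Int.cast_zero]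
      rwa [ip_sub_left, ip_smul_left, b, mul_zero, sub_zero] at this
    have tF := key Λ.F y2.ver hr
    have hS := z4 (perp Λ.B t) ((ip_comm hN.sym _ _).trans tF) fun z hz =>
      (ip_comm hN.sym _ _).trans (by
        by_cases e : z ∈ Y
        · exact h2 z e
        · exact key z (fun y hy => z2.orth y (z1 hy) z hz fun e' => e (e' ▸ hy))
            (hx z (Finset.mem_sdiff.2 ⟨hz, e⟩)))
    have one : ∀ i, toR (Pi.single i 1 : ι → ℤ) = Pi.single i 1 := fun i => by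
      funext j
      simp [toR, Pi.single_apply]
    have ex : ∀ w, ip Λ.B t w = ∑ i, t i * ip Λ.B (Pi.single i 1) w := fun w => by
      conv_lhs => rw [pi_eq_sum_univ' t, ip_sum_left]
      simp only [ip_smul_left]
    have tt : ((ip Λ.B Λ.h Λ.F : ℤ) : ℝ) * ip Λ.B t t =
        ip Λ.B t (toR Λ.F) * ip Λ.B (toR Λ.h) t := by
      rw [ex t, ex (toR Λ.F), Finset.mul_sum, Finset.sum_mul]
      refine Finset.sum_congr rfl fun i _ => ?_
      have : ip Λ.B _ t = 0 := hS _ (Finset.mem_image_of_mem _ (Finset.mem_univ i))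
      rw [toR_sub, toR_zsmul, toR_zsmul, ip_sub_left, ip_smul_left, ip_smul_left,
        ← ip_toR Λ.B (Pi.single i 1), one] at this
      linear_combination t i * this
    rw [tF, zero_mul] at tt
    obtain ⟨q, hq, -⟩ := (hL.hz t tF).2
      ((mul_eq_zero.1 tt).resolve_left (Int.cast_ne_zero.2 hh.ne'))
    have := Λ.V.sub_mem (show t ∈ Λ.V from hq ▸ Λ.V.smul_mem q hV) (h3 _ y3)
    rw [sub_sub_cancel] at this
    exact (Λ.V.smul_mem_iff h1).1 this

end Pool.Agent.MP_20d318_ag.CB
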