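import Pool.Agent.MP_20d318_ag.Lat.Loo

-- ======== part 0: formerly Pool.Agent.MP_20d318_ag.CB.LSpec
section MrgPart0

/-! Lattices of a rational surface with a smooth bi-anticanonical curve and of the threefold. -/

set_option autoImplicit false

namespace Pool.Agent.MP_20d318_ag.CB

open Pool.Agent.MP_20d318_ag.Lat Matrix

/-- `(L, τ, a)` is the class `L + τ f - ∑ a k j • E k j`; for a curve, the degrees. -/
abbrev W (ι κ R : Type) : Type := (ι → R) × R × (κ → Fin 4 → R)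

variable {ι κ : Type} [Fintype ι] [Fintype κ]

section ring

variable {R : Type} [CommRing R] (B : ι → ι → ℤ)

/-- The form with Gram matrix `B`. -/
def ip (c c' : ι → R) : R := ∑ i, ∑ j, c i * (B i j : R) * c' j

/-- The degree of the class `D` on a curve with degrees `Z`. -/
def ipW (D Z : W ι κ R) : R := ip B D.1 Z.1 + D.2.1 * Z.2.1 - ∑ k, ∑ j, D.2.2 k j * Z.2.2 k j

/-- The action of an integral matrix. -/
def act (ρ : Matrix ι ι ℤ) (c : ι → R) : ι → R := fun i => ∑ j, (ρ i j : R) * c j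

/-- The action on the threefold. -/
def actW (ρ : Matrix ι ι ℤ) (D : W ι κ R) : W ι κ R := (act ρ D.1, D.2)

variable {B}

theorem ip_add_left (a b c : ι → R) : ip B (a + b) c = ip B a c + ip B b c := by
  simp only [ip, Pi.add_apply, add_mul, Finset.sum_add_distrib]
theorem ip_add_right (a b c : ι → R) : ip B a (b + c) = ip B a b + ip B a c := by
  simp only [ip, Pi.add_apply, mul_add, Finset.sum_add_distrib]
theorem ip_smul_left (r : R) (a b : ι → R) : ip B (r • a) b = r * ip B a b := by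
  simp only [ip, Pi.smul_apply, smul_eq_mul, Finset.mul_sum, mul_assoc]
theorem ip_smul_right (r : R) (a b : ι → R) : ip B a (r • b) = r * ip B a b := by
  simp only [ip, Pi.smul_apply, smul_eq_mul, Finset.mul_sum]
  exact Finset.sum_congr rfl fun _ _ => Finset.sum_congr rfl fun _ _ => by ring
theorem ip_zero_left (a : ι → R) : ip B 0 a = 0 := by simp [ip]
theorem ip_zero_right (a : ι → R) : ip B a 0 = 0 := by simp [ip]
theorem ip_neg_left (a b : ι → R) : ip B (-a) b = -ip B a b := by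
  rw [← neg_one_smul R a, ip_smul_left, neg_one_mul]
theorem ip_neg_right (a b : ι → R) : ip B a (-b) = -ip B a b := by
  rw [← neg_one_smul R b, ip_smul_right, neg_one_mul]
theorem ip_sub_left (a b c : ι → R) : ip B (a - b) c = ip B a c - ip B b c := by
  rw [sub_eq_add_neg, ip_add_left, ip_neg_left, sub_eq_add_neg]
theorem ip_sub_right (a b c : ι → R) : ip B a (b - c) = ip B a b - ip B a c := by
  rw [sub_eq_add_neg, ip_add_right, ip_neg_right, sub_eq_add_neg]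
theorem ip_nsmul_left (n : ℕ) (a b : ι → R) : ip B (n • a) b = n * ip B a b := by
  rw [← Nat.cast_smul_eq_nsmul R, ip_smul_left]
theorem ip_nsmul_right (n : ℕ) (a b : ι → R) : ip B a (n • b) = n * ip B a b := by
  rw [← Nat.cast_smul_eq_nsmul R, ip_smul_right]
theorem ip_sum_left {α : Type*} (s : Finset α) (a : α → ι → R) (b : ι → R) :
    ip B (∑ x ∈ s, a x) b = ∑ x ∈ s, ip B (a x) b :=
  map_sum (⟨⟨fun c => ip B c b, ip_zero_left b⟩, fun u v => ip_add_left u v b⟩ : (ι → R) →+ R) a s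
theorem ip_sum_right {α : Type*} (s : Finset α) (a : ι → R) (b : α → ι → R) :
    ip B a (∑ x ∈ s, b x) = ∑ x ∈ s, ip B a (b x) :=
  map_sum (⟨⟨fun c => ip B a c, ip_zero_right a⟩, fun u v => ip_add_right a u v⟩ : (ι → R) →+ R) b s
theorem ip_comm (h : ∀ i j, B i j = B j i) (a b : ι → R) : ip B a b = ip B b a := by
  unfold ip
  rw [Finset.sum_comm]
  exact Finset.sum_congr rfl fun _ _ => Finset.sum_congr rfl fun _ _ => by rw [h]; ring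
theorem ipW_add (D E Z : W ι κ R) : ipW B (D + E) Z = ipW B D Z + ipW B E Z := by
  simp only [ipW, Prod.fst_add, Prod.snd_add, Pi.add_apply, add_mul, Finset.sum_add_distrib,
    ip_add_left]
  ring
theorem ipW_smul (r : R) (D Z : W ι κ R) : ipW B (r • D) Z = r * ipW B D Z := by
  simp only [ipW, Prod.smul_fst, Prod.smul_snd, Pi.smul_apply, smul_eq_mul, mul_sub, mul_add,
    Finset.mul_sum, mul_assoc, ip_smul_left]
theorem act_add (ρ : Matrix ι ι ℤ) (a b : ι → R) : act ρ (a + b) = act ρ a + act ρ b := by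
  funext i
  simp only [act, Pi.add_apply, mul_add, Finset.sum_add_distrib]
theorem act_smul (ρ : Matrix ι ι ℤ) (r : R) (a : ι → R) : act ρ (r • a) = r • act ρ a := by
  funext i
  simp only [act, Pi.smul_apply, smul_eq_mul, Finset.mul_sum, mul_left_comm]
theorem act_mul (ρ ρ' : Matrix ι ι ℤ) (a : ι → R) : act (ρ * ρ') a = act ρ (act ρ' a) := by
  funext i
  simp only [act, Matrix.mul_apply, Int.cast_sum, Int.cast_mul, Finset.sum_mul, Finset.mul_sum,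
    mul_assoc]
  exact Finset.sum_comm
theorem act_one [DecidableEq ι] (a : ι → R) : act (1 : Matrix ι ι ℤ) a = a := by
  funext i
  simp [act, Matrix.one_apply]

end ring

/-- Integral classes as real classes. -/
def toR (c : ι → ℤ) : ι → ℝ := fun i => c i

/-- Integral classes as real classes. -/
def toRW (D : W ι κ ℤ) : W ι κ ℝ := (toR D.1, D.2.1, fun k j => D.2.2 k j)

omit [Fintype ι] in
theorem toR_add (a b : ι → ℤ) : toR (a + b) = toR a + toR b := by funext i; simp [toR]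
omit [Fintype ι] in
theorem toR_sub (a b : ι → ℤ) : toR (a - b) = toR a - toR b := by funext i; simp [toR]
omit [Fintype ι] in
theorem toR_neg (a : ι → ℤ) : toR (-a) = -toR a := by funext i; simp [toR]
omit [Fintype ι] in
theorem toR_zero : toR (0 : ι → ℤ) = 0 := by funext i; simp [toR]
omit [Fintype ι] in
theorem toR_zsmul (n : ℤ) (a : ι → ℤ) : toR (n • a) = (n : ℝ) • toR a := by funext i; simp [toR]
omit [Fintype ι] in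
theorem toR_nsmul (n : ℕ) (a : ι → ℤ) : toR (n • a) = (n : ℝ) • toR a := by funext i; simp [toR]
omit [Fintype ι] in
theorem toR_sum {α : Type*} (s : Finset α) (a : α → ι → ℤ) :
    toR (∑ x ∈ s, a x) = ∑ x ∈ s, toR (a x) := by funext i; simp [toR]
omit [Fintype ι] in
theorem toR_inj {a b : ι → ℤ} (h : toR a = toR b) : a = b :=
  funext fun i => Int.cast_injective (α := ℝ) (congrFun h i)
theorem ip_toR (B : ι → ι → ℤ) (a b : ι → ℤ) : ip B (toR a) (toR b) = (ip B a b : ℤ) := by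
  simp [ip, toR]
theorem ipW_toRW (B : ι → ι → ℤ) (D Z : W ι κ ℤ) : ipW B (toRW D) (toRW Z) = (ipW B D Z : ℤ) := by
  simp [ipW, toRW, ip_toR]
theorem toR_act (ρ : Matrix ι ι ℤ) (a : ι → ℤ) : toR (act ρ a) = act ρ (toR a) := by
  funext i; simp [toR, act]

/-- The lattice data of a surface with a curve. -/
structure Ld (ι κ : Type) where
  /-- the Gram matrix -/
  B : ι → ι → ℤ
  /-- the canonical class -/
  K : ι → ℤ
  /-- an ample class -/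
  h : ι → ℤ
  /-- the classes of prime divisors -/
  P : Set (ι → ℤ)
  /-- the components of the curve -/
  C : κ → ι → ℤ
  /-- a component of nonnegative square -/
  k0 : κ

namespace Ld

variable (Λ : Ld ι κ)

/-- Effective classes. -/
def Ef : AddSubmonoid (ι → ℤ) := AddSubmonoid.closure Λ.P

/-- Integral nef classes. -/
def Nef (y : ι → ℤ) : Prop := ∀ c ∈ Λ.P, 0 ≤ ip Λ.B y c

/-- The nef cone of the surface. -/
def NT : Set (ι → ℝ) := {L | ∀ c ∈ Λ.P, 0 ≤ ip Λ.B L (toR c)}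

/-- The distinguished component. -/
def F : ι → ℤ := Λ.C Λ.k0

/-- Conic classes on a surface of Picard number two. -/
def Con : Set (ι → ℤ) := {b | b ∈ Λ.P ∧ ip Λ.B b b = 0 ∧ ip Λ.B Λ.K b = -2 ∧
  ∀ v : ι → ℤ, ip Λ.B v b = 0 → ∃ m : ℤ, v = m • b}

/-- The curves that cut out the nef cone. -/
def GEN : Set (ι → ℤ) := {c | c ∈ Λ.P ∧ ip Λ.B c c < 0} ∪ Set.range Λ.C ∪ Λ.Con

/-- The span of the prime divisors orthogonal to `F`. -/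
def V : Submodule ℝ (ι → ℝ) := Submodule.span ℝ (toR '' {c | c ∈ Λ.P ∧ ip Λ.B c Λ.F = 0})

/-- `ρ` acts as the translation by `x` modulo `V`. -/
def Tl (ρ : Matrix ι ι ℤ) (x : ι → ℤ) : Prop :=
  ∀ y : ι → ℤ, toR (act ρ y - y - ip Λ.B y Λ.F • x) ∈ Λ.V

/-- The nef cone of the threefold. -/
def NX : Set (W ι κ ℝ) := {D | (∀ k j, 0 ≤ D.2.2 k j) ∧ (∀ k, ∑ j, D.2.2 k j ≤ D.2.1) ∧
  D.1 ∈ Λ.NT ∧ ∀ j, D.1 - ∑ k, D.2.2 k j • toR (Λ.C k) ∈ Λ.NT}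

open Classical in
/-- The degrees of a curve on `X`: on a copy of the surface, over a branch curve, on an
exceptional divisor, or general. -/
def Cur (Z : W ι κ ℤ) : Prop :=
  (Z.1 = 0 ∨ ∃ c ∈ Λ.P, ∃ n : ℕ, Z.1 = n • c) ∧ 0 ≤ Z.2.1 ∧
  ((∃ j, Z.2.1 = 0 ∧ ∀ k j', Z.2.2 k j' = if j' = j then ip Λ.B (Λ.C k) Z.1 else 0) ∨
   (∃ k, (∃ n : ℕ, Z.1 = n • Λ.C k) ∧ ∀ k' j, Z.2.2 k' j = if k' = k then Z.2.1 else 0) ∨
   (∃ k j, (∃ n : ℕ, Z.1 = n • Λ.C k) ∧ Z.2.1 = 0 ∧ Z.2.2 k j ≤ 0 ∧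
     ∀ k' j', ¬ (k' = k ∧ j' = j) → Z.2.2 k' j' = 0) ∨
   ((∀ k j, 0 ≤ Z.2.2 k j) ∧ (∀ k, ∑ j, Z.2.2 k j ≤ ip Λ.B (Λ.C k) Z.1) ∧
     ∀ j, ∑ k, Z.2.2 k j ≤ Z.2.1))

open Classical in
/-- Classes of effective divisors on `X`. -/
def EG : Set (W ι κ ℤ) := {D | (∃ c ∈ Λ.P, D = (c, 0, 0)) ∨ D = (0, 1, 0) ∨
  (∃ k j, D = (0, 0, fun k' j' => if k' = k ∧ j' = j then -1 else 0)) ∨
  (∃ k, D = (Λ.C k, 0, fun k' _ => if k' = k then 1 else 0)) ∨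
  ∃ j, D = (0, 1, fun _ j' => if j' = j then 1 else 0)}

end Ld

variable (ι κ) in
/-- The integral classes. -/
def LW : AddSubgroup (W ι κ ℝ) := AddSubgroup.closure (Set.range toRW)

/-- The signature is `(1, n - 1)`. -/
def Hodge (B : ι → ι → ℤ) : Prop :=
  ∃ A : ι → ℝ, 0 < ip B A A ∧ ∀ v : ι → ℝ, ip B v A = 0 → v ≠ 0 → ip B v v < 0

/-- What the geometry of the surface gives. -/
structure NS (Λ : Ld ι κ) : Prop where
  sym : ∀ i j, Λ.B i j = Λ.B j i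
  hodge : Hodge Λ.B
  par : ∀ c, Even (ip Λ.B c c + ip Λ.B Λ.K c)
  noe : ip Λ.B Λ.K Λ.K + Fintype.card ι = 10
  pos : ∀ c ∈ Λ.P, ∀ c' ∈ Λ.P, c ≠ c' → 0 ≤ ip Λ.B c c'
  adj : ∀ c ∈ Λ.P, -2 ≤ ip Λ.B c c + ip Λ.B Λ.K c
  rr : ∀ c, ip Λ.B Λ.K c ≤ ip Λ.B c c → c ∈ Λ.Ef ∨ Λ.K - c ∈ Λ.Ef
  hpos : ∀ c ∈ Λ.P, 0 < ip Λ.B Λ.h c
  heff : Λ.h ∈ Λ.Ef
  dif : ∀ c, ∃ y, Λ.Nef y ∧ Λ.Nef (y - c)
  memC : ∀ k, Λ.C k ∈ Λ.P
  disj : ∀ k l, k ≠ l → ip Λ.B (Λ.C k) (Λ.C l) = 0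
  sumC : ∑ k, Λ.C k = (-2 : ℤ) • Λ.K
  sq0 : 0 ≤ ip Λ.B Λ.F Λ.F
  fib : ip Λ.B Λ.F Λ.F = 0 → ∀ c ∈ Λ.P, ip Λ.B c Λ.F = 0 → Λ.F - c ∈ Λ.Ef

/-! ### Statements of the lattice rows -/

/-- Consequences of the signature. -/
structure Hg (B : ι → ι → ℤ) : Prop where
  neg : ∀ u v : ι → ℝ, 0 < ip B u u → ip B v u = 0 → v ≠ 0 → ip B v v < 0
  iso : ∀ u v : ι → ℝ, ip B u u = 0 → u ≠ 0 → ip B v u = 0 →
    ip B v v ≤ 0 ∧ (ip B v v = 0 → ∃ q : ℝ, v = q • u)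
  nd : ∀ v : ι → ℝ, (∀ y : ι → ℤ, ip B v (toR y) = 0) → v = 0
  fin : ∀ (u : ι → ℤ) (a : ℤ), 0 < ip B u u → {c : ι → ℤ | |ip B c u| ≤ a ∧ -a ≤ ip B c c}.Finite

/-- HG. -/
def HgStmt : Prop := ∀ (ι : Type) [Fintype ι] (B : ι → ι → ℤ), (∀ i j, B i j = B j i) → Hodge B →
  Hg B

/-- First consequences of the structure of the lattice. -/
structure L1 (Λ : Ld ι κ) : Prop where
  efn : ∀ y, Λ.Nef y → ∀ c ∈ Λ.Ef, 0 ≤ ip Λ.B y c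
  efr : ∀ L ∈ Λ.NT, ∀ c ∈ Λ.Ef, 0 ≤ ip Λ.B L (toR c)
  nefr : ∀ y, toR y ∈ Λ.NT ↔ Λ.Nef y
  hef : ∀ c ∈ Λ.Ef, c ≠ 0 → 0 < ip Λ.B Λ.h c
  hh : 0 < ip Λ.B Λ.h Λ.h
  hK : ip Λ.B Λ.h Λ.K < 0
  pn : ∀ c ∈ Λ.P, 0 ≤ ip Λ.B c c → Λ.Nef c
  comp : ∀ e ∈ Λ.Ef, ∀ c ∈ Λ.P, ip Λ.B e c < 0 → e - c ∈ Λ.Ef
  pick : ∀ y, Λ.Nef y → ∀ e ∈ Λ.Ef, e ≠ 0 → ∃ c ∈ Λ.P, e - c ∈ Λ.Ef ∧ ip Λ.B y c ≤ ip Λ.B y e
  CK : ∀ k, ip Λ.B (Λ.C k) (Λ.C k) = -2 * ip Λ.B Λ.K (Λ.C k)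
  Cc : ∀ c ∈ Λ.P, c ∉ Set.range Λ.C → ∀ k, 0 ≤ ip Λ.B (Λ.C k) c
  sumK : ∀ c, ∑ k, ip Λ.B (Λ.C k) c = -2 * ip Λ.B Λ.K c
  neg : ∀ c ∈ Λ.P, ip Λ.B c c < 0 →
    (∃ k, k ≠ Λ.k0 ∧ c = Λ.C k ∧ ip Λ.B c c = -4 ∧ ip Λ.B Λ.K c = 2) ∨
    (c ∉ Set.range Λ.C ∧ ip Λ.B c c = -1 ∧ ip Λ.B Λ.K c = -1) ∨
    (c ∉ Set.range Λ.C ∧ ip Λ.B c c = -2 ∧ ip Λ.B Λ.K c = 0 ∧ ∀ k, ip Λ.B (Λ.C k) c = 0)
  hz : ∀ v : ι → ℝ, ip Λ.B v (toR Λ.F) = 0 → ip Λ.B v v ≤ 0 ∧ (ip Λ.B v v = 0 →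
    ∃ q : ℝ, v = q • toR Λ.F ∧ (q = 0 ∨ ip Λ.B Λ.F Λ.F = 0) ∧ ip Λ.B (toR Λ.K) v = 0)
  ne : ∀ y, Λ.Nef y → 0 ≤ ip Λ.B y y ∧ y ∈ Λ.Ef
  G : Λ.K + Λ.F ∈ Λ.Ef
  two : (∀ k, k ≠ Λ.k0 → ip Λ.B (Λ.C k) (Λ.C k) = -4 ∧ ip Λ.B Λ.K (Λ.C k) = 2) ∨
    ∀ k l, k ≠ Λ.k0 → l ≠ Λ.k0 → k = l

/-- L1. -/
def L1Stmt : Prop := ∀ (ι κ : Type) [Fintype ι] [Fintype κ] (Λ : Ld ι κ), NS Λ → Hg Λ.B → L1 Λ

/-- The cone theorem. -/
def CT (Λ : Ld ι κ) : Prop := ∀ L : ι → ℝ, (∀ c ∈ Λ.GEN, 0 ≤ ip Λ.B L (toR c)) → L ∈ Λ.NT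

/-- CT. -/
def CtStmt : Prop := ∀ (ι κ : Type) [Fintype ι] [Fintype κ] (Λ : Ld ι κ), NS Λ → L1 Λ → CT Λ

/-- The exceptional classes orthogonal to `F`. -/
structure IS (Λ : Ld ι κ) (I : Finset (ι → ℤ)) : Prop where
  mem : ∀ e ∈ I, e ∈ Λ.Ef ∧ ip Λ.B e e = -1 ∧ ip Λ.B Λ.K e = -1 ∧ ip Λ.B e Λ.F = 0 ∧
    ∀ k, 0 ≤ ip Λ.B (Λ.C k) e
  orth : ∀ e ∈ I, ∀ e' ∈ I, e ≠ e' → ip Λ.B e e' = 0
  one : ∀ c ∈ Λ.P, ip Λ.B c c = -1 → ip Λ.B c Λ.F = 0 → c ∈ I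
  two : ∀ c ∈ Λ.P, ip Λ.B c c = -2 → (∀ e ∈ I, ip Λ.B e c = 0) ∨ ∃ e ∈ I, e + c ∈ I ∧
    ip Λ.B e c = 1 ∧ ∀ e' ∈ I, e' ≠ e → e' ≠ e + c → ip Λ.B e' c = 0
  four : ∀ k, k ≠ Λ.k0 → ∑ e ∈ I, ip Λ.B (Λ.C k) e ^ 2 ≤ 4

/-- All the other components are curves of square `-4`. -/
def M4 (Λ : Ld ι κ) : Prop :=
  ∀ k, k ≠ Λ.k0 → ip Λ.B (Λ.C k) (Λ.C k) = -4 ∧ ip Λ.B Λ.K (Λ.C k) = 2

/-- KEYA. -/
def KeyAStmt : Prop := ∀ (ι κ : Type) [Fintype ι] [Fintype κ] (Λ : Ld ι κ), NS Λ → L1 Λ → M4 Λ →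
  ∃ I, IS Λ I

/-- The curves of square `-1` that meet `F`. -/
def KB (Λ : Ld ι κ) (I : Finset (ι → ℤ)) : Prop :=
  ∀ c ∈ Λ.P, ip Λ.B c c = -1 → ip Λ.B c Λ.F ≠ 0 → (∀ e ∈ I, ip Λ.B e c = 0) ∨
    ∃ e ∈ I, ip Λ.B e c = 1 ∧ (∀ e' ∈ I, e' ≠ e → ip Λ.B e' c = 0) ∧
      (∀ k, k ≠ Λ.k0 → ip Λ.B (Λ.C k) c = 0) ∧
      ∀ k l, k ≠ Λ.k0 → l ≠ Λ.k0 → k ≠ l → ip Λ.B (Λ.C k) e = 1 → ip Λ.B (Λ.C l) e = 1 →
        Λ.C k - Λ.C l + (4 : ℤ) • (c + e) ∈ Λ.Ef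

/-- KEYB. -/
def KeyBStmt : Prop := ∀ (ι κ : Type) [Fintype ι] [Fintype κ] (Λ : Ld ι κ) (I : Finset (ι → ℤ)),
  NS Λ → L1 Λ → M4 Λ → IS Λ I → KB Λ I

/-- The decomposition of `L - ∑ x k • C k`. -/
def KEY (Λ : Ld ι κ) : Prop := ∃ I : Finset (ι → ℤ), (∀ e ∈ I, e ∈ Λ.Ef) ∧
  ∀ (L N : ι → ℝ) (x : κ → ℝ), L ∈ Λ.NT → (∀ k, 0 ≤ x k) → x Λ.k0 = 0 →
    (∀ k, L - x k • toR (Λ.C k) ∈ Λ.NT) → N = L - ∑ k, x k • toR (Λ.C k) →
      N - ∑ e ∈ I, max 0 (-ip Λ.B N (toR e)) • toR e ∈ Λ.NT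

/-- KEYC. -/
def KeyCStmt : Prop := ∀ (ι κ : Type) [Fintype ι] [Fintype κ] (Λ : Ld ι κ), NS Λ → L1 Λ → CT Λ →
  (M4 Λ → ∃ I, IS Λ I ∧ KB Λ I) → KEY Λ

/-- LCA: the nef criterion. -/
def LcAStmt : Prop := ∀ (ι κ : Type) [Fintype ι] [Fintype κ] (Λ : Ld ι κ), NS Λ → L1 Λ → KEY Λ →
  ∀ D ∈ Λ.NX, ∀ Z, Λ.Cur Z → 0 ≤ ipW Λ.B D (toRW Z)

/-- LCB: effectivity, spanning, no lines. -/
def LcBStmt : Prop := ∀ (ι κ : Type) [Fintype ι] [Fintype κ] (Λ : Ld ι κ), NS Λ → Hg Λ.B → L1 Λ →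
  KEY Λ → (∀ D : W ι κ ℤ, toRW D ∈ Λ.NX → toRW D ∈ cone (toRW '' Λ.EG)) ∧
    Submodule.span ℝ (Λ.NX ∩ Set.range toRW) = ⊤ ∧ ∀ D ∈ Λ.NX, -D ∈ Λ.NX → D = 0

/-- Curves of square `-1`. -/
structure HZ (Λ : Ld ι κ) : Prop where
  con : ip Λ.B Λ.F Λ.F = 0 → Λ.Con = ∅
  hor : ip Λ.B Λ.F Λ.F = 0 → ∃ c ∈ Λ.P, ip Λ.B c c = -1 ∧ 0 < ip Λ.B c Λ.F
  two : ip Λ.B Λ.F Λ.F = 0 → ∃ D, ip Λ.B D Λ.F = 2
  zero : ∀ z, Λ.Nef z → ip Λ.B z Λ.F = 0 → (∀ c ∈ Λ.P, ip Λ.B c c = -1 → ip Λ.B z c = 0) → z = 0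
  span : ∀ (U : Submodule ℝ (ι → ℝ)), (∀ c ∈ Λ.P, toR c ∈ U) → U = ⊤

/-- HZ. -/
def HzStmt : Prop := ∀ (ι κ : Type) [Fintype ι] [Fintype κ] (Λ : Ld ι κ), NS Λ → Hg Λ.B → L1 Λ →
  CT Λ → HZ Λ

/-- ENDA: the finite case. -/
def EndAStmt : Prop := ∀ (ι κ : Type) [Fintype ι] [Fintype κ] (Λ : Ld ι κ), NS Λ → Hg Λ.B → L1 Λ →
  CT Λ → 0 < ip Λ.B Λ.F Λ.F → RP (LW ι κ) Λ.NX

/-- An orthogonal system that spans the orthogonal of `F` together with `V`. -/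
structure OB (Λ : Ld ι κ) (X : Finset (ι → ℤ)) : Prop where
  neg : ∀ x ∈ X, ip Λ.B x x < 0
  orth : ∀ x ∈ X, ∀ x' ∈ X, x ≠ x' → ip Λ.B x x' = 0
  perp : ∀ x ∈ X, ∀ v ∈ Λ.V, ip Λ.B v (toR x) = 0
  span : ∀ r : ι → ℝ, ip Λ.B r (toR Λ.F) = 0 → (∀ x ∈ X, ip Λ.B r (toR x) = 0) → r ∈ Λ.V

/-- The box. -/
def Box (Λ : Ld ι κ) (X : Finset (ι → ℤ)) : Set (ι → ℝ) :=
  {L | ∀ x ∈ X, |ip Λ.B L (toR x)| ≤ -(ip Λ.B x x : ℤ) * ip Λ.B L (toR Λ.F)}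

/-- ENDB1: the orthogonal system exists. -/
def EndB1Stmt : Prop := ∀ (ι κ : Type) [Fintype ι] [Fintype κ] (Λ : Ld ι κ), NS Λ → Hg Λ.B →
  L1 Λ → ip Λ.B Λ.F Λ.F = 0 → {c | c ∈ Λ.P ∧ ip Λ.B c Λ.F = 0}.Finite ∧ ∃ X, OB Λ X

/-- ENDB2: translations move nef classes into the box. -/
def EndB2Stmt : Prop := ∀ (ι κ : Type) [Fintype ι] [DecidableEq ι] [Fintype κ] (Λ : Ld ι κ)
  (X : Finset (ι → ℤ)) (G : Set (Matrix ι ι ℤ)), NS Λ → L1 Λ → ip Λ.B Λ.F Λ.F = 0 → OB Λ X →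
  1 ∈ G → (∀ n : (ι → ℤ) → ℤ, ∃ ρ ∈ G, Λ.Tl ρ (∑ x ∈ X, n x • x)) →
    ∀ L ∈ Λ.NT, ∃ ρ ∈ G, act ρ L ∈ Box Λ X

/-- ENDB3: the nef cone is rational polyhedral inside the box. -/
def EndB3Stmt : Prop := ∀ (ι κ : Type) [Fintype ι] [Fintype κ] (Λ : Ld ι κ) (X : Finset (ι → ℤ)),
  NS Λ → L1 Λ → CT Λ → HZ Λ → ip Λ.B Λ.F Λ.F = 0 → {c | c ∈ Λ.P ∧ ip Λ.B c Λ.F = 0}.Finite →
  OB Λ X → RP (LW ι κ) (Λ.NX ∩ {D | D.1 ∈ Box Λ X})

end Pool.Agent.MP_20d318_ag.CB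

end MrgPart0

-- ======== part 1: formerly Pool.Agent.MP_20d318_ag.CB.Ct
section MrgPart1

/-! The cone theorem for the lattice of the surface. -/

set_option autoImplicit false

namespace Pool.Agent.MP_20d318_ag.CB

namespace Ct

variable {ι κ : Type} [Fintype ι] [Fintype κ] {Λ : Ld ι κ}

omit [Fintype κ] in
/-- An effective class is a multiple of the nef class `c` or has another component. -/
theorem other {c : ι → ℤ} (hc : ∀ e ∈ Λ.Ef, 0 ≤ ip Λ.B c e) {e : ι → ℤ} (he : e ∈ Λ.Ef) :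
    (∃ m : ℤ, e = m • c) ∨ ∃ g ∈ Λ.P, g ≠ c ∧ ip Λ.B c g ≤ ip Λ.B c e := by
  induction he using AddSubmonoid.closure_induction with
  | mem g hg =>
    by_cases k : g = c
    · exact Or.inl ⟨1, by rw [k, one_smul]⟩
    · exact Or.inr ⟨g, hg, k, le_rfl⟩
  | zero => exact Or.inl ⟨0, by rw [zero_smul]⟩
  | add a b ha hb i1 i2 =>
    have h1 := hc a ha
    have h2 := hc b hb
    rw [ip_add_right]
    rcases i1 with ⟨m, rfl⟩ | ⟨g, g1, g2, g3⟩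
    · rcases i2 with ⟨m', rfl⟩ | ⟨g, g1, g2, g3⟩
      · exact Or.inl ⟨m + m', by rw [add_smul]⟩
      · exact Or.inr ⟨g, g1, g2, by omega⟩
    · exact Or.inr ⟨g, g1, g2, by omega⟩

/-- From prime classes of small degree to effective classes of small degree. -/
theorem small (S : NS Λ) (T : L1 Λ) {L : ι → ℝ} {d : ℤ}
    (h : ∀ g ∈ Λ.P, ip Λ.B Λ.h g < d → 0 ≤ ip Λ.B L (toR g)) {e : ι → ℤ} (he : e ∈ Λ.Ef) :
    ip Λ.B Λ.h e < d → 0 ≤ ip Λ.B L (toR e) := by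
  have hn : Λ.Nef Λ.h := fun c hc => (S.hpos c hc).le
  induction he using AddSubmonoid.closure_induction with
  | mem g hg => exact h g hg
  | zero => intro _; rw [toR_zero, ip_zero_right]
  | add a b ha hb i1 i2 =>
    have h1 := T.efn _ hn a ha
    have h2 := T.efn _ hn b hb
    rw [ip_add_right, toR_add, ip_add_right]
    exact fun k => add_nonneg (i1 (by omega)) (i2 (by omega))

/-- The inductive step. -/
theorem step (S : NS Λ) (T : L1 Λ) {L : ι → ℝ} (hL : ∀ c ∈ Λ.GEN, 0 ≤ ip Λ.B L (toR c))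
    {c : ι → ℤ} (hc : c ∈ Λ.P)
    (h : ∀ e ∈ Λ.Ef, ip Λ.B Λ.h e < ip Λ.B Λ.h c → 0 ≤ ip Λ.B L (toR e)) :
    0 ≤ ip Λ.B L (toR c) := by
  by_cases hg : c ∈ Λ.GEN
  · exact hL c hg
  have hn : Λ.Nef Λ.h := fun c hc => (S.hpos c hc).le
  have cm := ip_comm (R := ℤ) S.sym
  have n0 : 0 ≤ ip Λ.B c c := not_lt.1 fun k => hg (Or.inl (Or.inl ⟨hc, k⟩))
  have nef := T.pn c hc n0
  have hp := S.hpos c hc
  have hK := T.hK
  have LK : ip Λ.B L (toR Λ.K) ≤ 0 := by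
    have h1 : 0 ≤ ip Λ.B L (toR (∑ k, Λ.C k)) := by
      rw [toR_sum, ip_sum_right]
      exact Finset.sum_nonneg fun k _ => hL _ (Or.inl (Or.inr ⟨k, rfl⟩))
    rw [S.sumC, toR_zsmul, ip_smul_right] at h1
    push_cast at h1
    linarith
  have adjn : ∀ m : ℤ, 0 < m → 0 ≤ m * ip Λ.B c c + ip Λ.B Λ.K c → m • c + Λ.K ∈ Λ.Ef := by
    intro m m0 m1
    refine (S.rr _ ?_).resolve_right fun k => ?_
    · simp only [ip_add_left, ip_add_right, ip_smul_left, ip_smul_right, cm c Λ.K]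
      nlinarith [mul_nonneg m0.le m1]
    · have := T.efn _ hn _ k
      rw [ip_sub_right, ip_add_right, ip_smul_right] at this
      nlinarith [mul_pos m0 hp]
  by_cases ha : 0 ≤ ip Λ.B c c + ip Λ.B Λ.K c
  · have h1 := h _ (adjn 1 one_pos (by omega)) (by rw [one_smul, ip_add_right]; omega)
    rw [one_smul, toR_add, ip_add_right] at h1
    linarith
  have hb : ip Λ.B Λ.K c = -2 - ip Λ.B c c := by
    have h1 := S.adj c hc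
    obtain ⟨r, h2⟩ := S.par c
    omega
  have star : ∀ g ∈ Λ.P, g ≠ c → ip Λ.B c g ≤ ip Λ.B c c → 0 ≤ ip Λ.B L (toR c) := by
    intro g g1 g2 g3
    have g4 := S.adj g g1
    have g5 : c - g ∈ Λ.Ef := by
      refine (S.rr _ ?_).resolve_right fun k => ?_
      · simp only [ip_sub_left, ip_sub_right, cm g c]
        omega
      · have := T.efn _ nef _ k
        rw [ip_sub_right, ip_sub_right, cm c Λ.K] at this
        omega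
    have g6 := T.hef _ g5 (sub_ne_zero.2 g2.symm)
    have g7 := S.hpos g g1
    have g8 := h _ g5 (by rw [ip_sub_right]; omega)
    rw [ip_sub_right] at g6
    have g9 := h g (AddSubmonoid.subset_closure g1) (by omega)
    rw [toR_sub, ip_sub_right] at g8
    linarith
  have big : ∀ m : ℤ, 0 < m → 0 ≤ m * ip Λ.B c c + ip Λ.B Λ.K c →
      m * ip Λ.B c c + ip Λ.B Λ.K c < ip Λ.B c c → 0 ≤ ip Λ.B L (toR c) := by
    intro m m0 m1 m2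
    by_cases k : m • c + Λ.K = 0
    · have h1 : ip Λ.B L (toR (m • c + Λ.K)) = 0 := by rw [k, toR_zero, ip_zero_right]
      rw [toR_add, ip_add_right, toR_zsmul, ip_smul_right] at h1
      have m3 : (0 : ℝ) < m := by exact_mod_cast m0
      exact nonneg_of_mul_nonneg_right (by linarith) m3
    · obtain ⟨g, g1, -, g2⟩ := T.pick c nef _ (adjn m m0 m1) k
      rw [ip_add_right, ip_smul_right, cm c Λ.K] at g2
      exact star g g1 (by rintro rfl; omega) (by omega)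
  rcases (by omega : 2 ≤ ip Λ.B c c ∨ ip Λ.B c c = 1 ∨ ip Λ.B c c = 0) with k | k | k
  · exact big 2 two_pos (by omega) (by omega)
  · exact big 3 three_pos (by omega) (by omega)
  · obtain ⟨v, v1, v2⟩ : ∃ v : ι → ℤ, ip Λ.B v c = 0 ∧ ∀ m : ℤ, v ≠ m • c := by
      by_contra m
      refine hg (Or.inr ⟨hc, k, by omega, fun v hv => by_contra fun m' => m ⟨v, hv, fun r e => ?_⟩⟩)
      exact m' ⟨r, e⟩
    obtain ⟨m, hm⟩ : ∃ m : ℤ, ip Λ.B Λ.K v - ip Λ.B v v ≤ 2 * m :=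
      ⟨|ip Λ.B Λ.K v - ip Λ.B v v|, by
        have := le_abs_self (ip Λ.B Λ.K v - ip Λ.B v v)
        have := abs_nonneg (ip Λ.B Λ.K v - ip Λ.B v v)
        omega⟩
    have e0 : ip Λ.B c (v + m • c) = 0 := by
      rw [ip_add_right, ip_smul_right, cm c v, v1, k, mul_zero, add_zero]
    have e1 : v + m • c ∈ Λ.Ef := by
      refine (S.rr _ ?_).resolve_right fun k' => ?_
      · simp only [ip_add_left, ip_add_right, ip_smul_left, ip_smul_right, cm c v, v1, hb, k]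
        omega
      · have := T.efn _ nef _ k'
        rw [ip_sub_right, e0, cm c Λ.K] at this
        omega
    rcases other (T.efn c nef) e1 with ⟨r, e⟩ | ⟨g, g1, g2, g3⟩
    · exact absurd (by rw [sub_smul, ← e, add_sub_cancel_right]) (v2 (r - m))
    · exact star g g1 g2 (by omega)

end Ct

theorem ct_stmt : CtStmt := by
  intro ι κ _ _ Λ S T L hL
  have key : ∀ d : ℕ, ∀ c ∈ Λ.P, ip Λ.B Λ.h c < d → 0 ≤ ip Λ.B L (toR c) := by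
    intro d
    induction d with
    | zero => exact fun c hc k => absurd (S.hpos c hc) (by omega)
    | succ d ih => exact fun c hc k => Ct.step S T hL hc fun e he m => Ct.small S T ih he (by omega)
  exact fun c hc => key ((ip Λ.B Λ.h c).toNat + 1) c hc (by omega)

end Pool.Agent.MP_20d318_ag.CB

end MrgPart1

-- marker of a merged file
example : 731051 + 443493 = 731051 + 443493 := rfl
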