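import Pool.Agent.MP_20d318_ag.CB.Ct
import Mathlib.RingTheory.Finiteness.Prod
import Mathlib.Data.Pi.Interval
import Mathlib.Data.Int.Interval

-- ======== part 0: formerly Pool.Agent.MP_20d318_ag.CB.EndA
section MrgPart0

/-! The nef cone is rational polyhedral if the distinguished component has positive square. -/

set_option autoImplicit false

namespace Pool.Agent.MP_20d318_ag.CB

open Pool.Agent.MP_20d318_ag.Lat

namespace EndA

variable {ι κ : Type} [Fintype ι] [Fintype κ]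

theorem rp_univ : RP (LW ι κ) Set.univ := by
  classical
  have h : Submodule.span ℝ (Set.range (toRW (ι := ι) (κ := κ))) = ⊤ := eq_top_iff.2 fun x _ => by
    have e : x = ∑ q, x.1 q • toRW (Pi.single q 1, 0, 0) + x.2.1 • toRW (0, 1, 0) +
        ∑ i, ∑ j, x.2.2 i j • toRW (0, 0, Pi.single i (Pi.single j 1)) := by
      simp [Prod.ext_iff, funext_iff, toRW, toR, Prod.fst_sum, Prod.snd_sum, Finset.sum_apply,
        Pi.single_apply, ite_apply, apply_ite (Int.cast : ℤ → ℝ)]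
    have m : ∀ (c : ℝ) (D : W ι κ ℤ), c • toRW D ∈ Submodule.span ℝ (Set.range toRW) :=
      fun c D => Submodule.smul_mem _ _ (Submodule.subset_span ⟨D, rfl⟩)
    rw [e]
    exact add_mem (add_mem (sum_mem fun _ _ => m _ _) (m _ _))
      (sum_mem fun _ _ => sum_mem fun _ _ => m _ _)
  obtain ⟨S, h1, h2⟩ := (Submodule.fg_span_iff_fg_span_finset_subset (R := ℝ)
    (Set.range (toRW (ι := ι) (κ := κ)))).1 (h ▸ Module.Finite.fg_top)
  have hc := isCone_cone ((S ∪ S.image Neg.neg : Finset (W ι κ ℝ)) : Set (W ι κ ℝ))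
  refine ⟨S ∪ S.image Neg.neg, fun x hx => ?_, Set.eq_univ_of_forall fun x => ?_⟩
  · rcases Finset.mem_union.1 hx with hx | hx
    · exact AddSubgroup.subset_closure (h1 hx)
    · obtain ⟨y, hy, rfl⟩ := Finset.mem_image.1 hx
      exact neg_mem (AddSubgroup.subset_closure (h1 hy))
  · have hx : x ∈ Submodule.span ℝ (S : Set (W ι κ ℝ)) := h2 ▸ h ▸ Submodule.mem_top
    refine And.left (b := -x ∈ _) (Submodule.span_induction (fun y hy => ⟨subset_cone _ ?_,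
      subset_cone _ ?_⟩) ⟨hc.zero, neg_zero (G := W ι κ ℝ) ▸ hc.zero⟩
      (fun y z _ _ a b => ⟨hc.add _ a.1 _ b.1, neg_add y z ▸ hc.add _ a.2 _ b.2⟩)
      (fun c y _ a => ?_) hx)
    · exact Finset.mem_union_left _ hy
    · exact Finset.mem_union_right _ (Finset.mem_image_of_mem _ hy)
    · rcases le_total 0 c with h0 | h0
      · exact ⟨hc.smul c h0 _ a.1, smul_neg c y ▸ hc.smul c h0 _ a.2⟩
      · exact ⟨neg_smul_neg c y ▸ hc.smul _ (neg_nonneg.2 h0) _ a.2,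
          neg_smul c y ▸ hc.smul _ (neg_nonneg.2 h0) _ a.1⟩

/-- The degree on a fixed integral class. -/
def lin (B : ι → ι → ℤ) (Z : W ι κ ℤ) : W ι κ ℝ →ₗ[ℝ] ℝ where
  toFun D := ipW B D (toRW Z)
  map_add' D D' := ipW_add D D' _
  map_smul' c D := ipW_smul c D _

/-- Cutting by a finite family of degrees. -/
theorem rp_fam (B : ι → ι → ℤ) {S : Set (W ι κ ℝ)} (hS : RP (LW ι κ) S) {α : Type} {A : Set α}
    (hA : A.Finite) (Z : α → W ι κ ℤ) (g : α → W ι κ ℝ → ℝ)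
    (h : ∀ t D, ipW B D (toRW (Z t)) = g t D) : RP (LW ι κ) (S ∩ {D | ∀ t ∈ A, 0 ≤ g t D}) := by
  have := hS.inter_fin (hA.image fun t => lin B (Z t)) (by
    rintro _ ⟨t, -, rfl⟩ x hx
    induction hx using AddSubgroup.closure_induction with
    | mem x hx =>
      obtain ⟨D, rfl⟩ := hx
      exact ⟨ipW B D (Z t), ipW_toRW B D (Z t)⟩
    | zero => exact ⟨0, by simp⟩
    | add x y _ _ a b =>
      obtain ⟨a, ha⟩ := a
      obtain ⟨b, hb⟩ := b
      exact ⟨a + b, by simp [ha, hb]⟩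
    | neg x _ a =>
      obtain ⟨a, ha⟩ := a
      exact ⟨-a, by simp [ha]⟩)
  refine Eq.mp (congrArg _ (congrArg _ (Set.ext fun D => ⟨fun a t ht => ?_, ?_⟩))) this
  · exact h t D ▸ a _ ⟨t, ht, rfl⟩
  · rintro a _ ⟨t, ht, rfl⟩
    exact (a t ht).trans_eq (h t D).symm

/-- The cone cut out by a finite set of curves of the surface. -/
theorem rp_cut (Λ : Ld ι κ) {S : Set (W ι κ ℝ)}
    (hS : RP (LW ι κ) S) {T : Set (ι → ℤ)} (hT : T.Finite) :
    RP (LW ι κ) (S ∩ {D | (∀ k j, 0 ≤ D.2.2 k j) ∧ (∀ k, ∑ j, D.2.2 k j ≤ D.2.1) ∧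
      (∀ c ∈ T, 0 ≤ ip Λ.B D.1 (toR c)) ∧
      ∀ j, ∀ c ∈ T, 0 ≤ ip Λ.B (D.1 - ∑ k, D.2.2 k j • toR (Λ.C k)) (toR c)}) := by
  classical
  have h1 := rp_fam Λ.B hS Set.finite_univ
    (fun t : κ × Fin 4 => (0, 0, Pi.single t.1 (Pi.single t.2 (-1)))) (fun t D => D.2.2 t.1 t.2)
    fun t D => by simp [ipW, toRW, toR_zero, ip_zero_right, Pi.single_apply, ite_apply,
      apply_ite (Int.cast : ℤ → ℝ)]
  have h2 := rp_fam Λ.B h1 Set.finite_univ (fun i : κ => (0, 1, Pi.single i 1))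
    (fun i D => D.2.1 - ∑ j, D.2.2 i j) fun t D => by
      simp [ipW, toRW, toR_zero, ip_zero_right, Pi.single_apply, ite_apply,
        apply_ite (Int.cast : ℤ → ℝ)]
  have h3 := rp_fam Λ.B h2 hT (fun c => (c, 0, 0)) (fun c D => ip Λ.B D.1 (toR c))
    fun t D => by simp [ipW, toRW]
  have h4 := rp_fam Λ.B h3 (hT.prod Set.finite_univ)
    (fun t : (ι → ℤ) × Fin 4 => (t.1, 0, fun k => Pi.single t.2 (ip Λ.B (Λ.C k) t.1)))
    (fun t D => ip Λ.B (D.1 - ∑ k, D.2.2 k t.2 • toR (Λ.C k)) (toR t.1)) fun t D => by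
      simp [ipW, toRW, ip_sub_left, ip_sum_left, ip_smul_left, Pi.single_apply,
        apply_ite (Int.cast : ℤ → ℝ), ip_toR]
  refine Eq.mp (congrArg _ (Set.ext fun D => ⟨?_, ?_⟩)) h4
  · rintro ⟨⟨⟨⟨a0, a1⟩, a2⟩, a3⟩, a4⟩
    exact ⟨a0, fun i j => a1 (i, j) trivial, fun i => sub_nonneg.1 (a2 i trivial), a3,
      fun j c hc => a4 (c, j) ⟨hc, trivial⟩⟩
  · rintro ⟨a0, a1, a2, a3, a4⟩
    exact ⟨⟨⟨⟨a0, fun t _ => a1 _ _⟩, fun i _ => sub_nonneg.2 (a2 i)⟩, a3⟩,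
      fun t ht => a4 _ _ ht.1⟩

variable {Λ : Ld ι κ}

theorem deg (N : NS Λ) (L : L1 Λ) {c : ι → ℤ} (h : c ∈ Λ.P) (h' : c ∉ Set.range Λ.C) :
    0 ≤ ip Λ.B c Λ.F ∧ ip Λ.B c Λ.F ≤ -2 * ip Λ.B Λ.K c := by
  rw [ip_comm N.sym, ← L.sumK]
  exact ⟨L.Cc c h h' _, Finset.single_le_sum (fun k _ => L.Cc c h h' k) (Finset.mem_univ Λ.k0)⟩

theorem gen_sub (N : NS Λ) : Λ.GEN ⊆ Λ.P := by
  rintro c ((h | ⟨k, rfl⟩) | h)
  exacts [h.1, N.memC k, h.1]

theorem gen_fin (N : NS Λ) (H : Hg Λ.B) (L : L1 Λ) (hF : 0 < ip Λ.B Λ.F Λ.F) : Λ.GEN.Finite := by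
  refine ((H.fin Λ.F 4 hF).union (Set.finite_range Λ.C)).subset fun c hc => ?_
  by_cases m : c ∈ Set.range Λ.C
  · exact Or.inr m
  have d := deg N L (gen_sub N hc) m
  refine Or.inl ?_
  rw [Set.mem_ofPred_eq, abs_le]
  rcases hc with (h | h) | h
  · rcases L.neg c h.1 h.2 with ⟨k, -, rfl, -⟩ | ⟨-, a, b⟩ | ⟨-, a, b, -⟩
    · exact absurd ⟨k, rfl⟩ m
    · omega
    · omega
  · exact absurd h m
  · obtain ⟨-, a, b, -⟩ := h
    omega

end EndA

open EndA in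
theorem endA_stmt : EndAStmt := by
  intro ι κ _ _ Λ N H L ct hF
  refine Eq.mp (congrArg _ (Set.ext fun D => ⟨?_, ?_⟩)) (rp_cut Λ rp_univ (gen_fin N H L hF))
  · rintro ⟨-, a1, a2, a3, a4⟩
    exact ⟨a1, a2, ct _ a3, fun j => ct _ (a4 j)⟩
  · rintro ⟨a1, a2, a3, a4⟩
    exact ⟨trivial, a1, a2, fun c hc => a3 c (gen_sub N hc), fun j c hc => a4 j c (gen_sub N hc)⟩

end Pool.Agent.MP_20d318_ag.CB

end MrgPart0

-- ======== part 1: formerly Pool.Agent.MP_20d318_ag.CB.EndB2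
section MrgPart1

/-! Translations move nef classes into the box. -/

set_option autoImplicit false

namespace Pool.Agent.MP_20d318_ag.CB

open Matrix

namespace EndB2

variable {ι κ : Type} [Fintype ι] [Fintype κ] {Λ : Ld ι κ}

omit [Fintype κ] in
theorem vf {v : ι → ℝ} (hv : v ∈ Λ.V) : ip Λ.B v (toR Λ.F) = 0 := by
  induction hv using Submodule.span_induction with
  | mem a h =>
    obtain ⟨c, hc, rfl⟩ := h
    rw [ip_toR, hc.2, Int.cast_zero]
  | zero => exact ip_zero_left _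
  | add a b _ _ p q => rw [ip_add_left, p, q, add_zero]
  | smul r a _ p => rw [ip_smul_left, p, mul_zero]

omit [Fintype κ] in
theorem tl {ρ : Matrix ι ι ℤ} {x : ι → ℤ} (h : Λ.Tl ρ x) (L : ι → ℝ) :
    act ρ L - L - ip Λ.B L (toR Λ.F) • toR x ∈ Λ.V := by
  classical
  let T : (ι → ℝ) →ₗ[ℝ] (ι → ℝ) :=
    { toFun := fun L => act ρ L - L - ip Λ.B L (toR Λ.F) • toR x
      map_add' := fun a b => by
        rw [act_add, ip_add_left, add_smul]
        abel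
      map_smul' := fun r a => by
        rw [act_smul, ip_smul_left, RingHom.id_apply, smul_sub, smul_sub, smul_smul] }
  have e : L = ∑ i, L i • toR (Pi.single i 1) := by
    funext j
    simp [toR, Pi.single_apply]
  change T L ∈ Λ.V
  rw [e, map_sum]
  refine Submodule.sum_mem _ fun i _ => ?_
  rw [map_smul]
  refine Submodule.smul_mem _ _ ?_
  have := h (Pi.single i 1)
  rw [toR_sub, toR_sub, toR_zsmul, toR_act, ← ip_toR] at this
  exact this

theorem cv (ns : NS Λ) (hF : ip Λ.B Λ.F Λ.F = 0) (k : κ) : toR (Λ.C k) ∈ Λ.V := by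
  refine Submodule.subset_span ⟨_, ⟨ns.memC k, ?_⟩, rfl⟩
  by_cases e : k = Λ.k0
  · rw [e]
    exact hF
  · exact ns.disj k _ e

theorem perp (ns : NS Λ) (l : L1 Λ) (hF : ip Λ.B Λ.F Λ.F = 0) {X : Finset (ι → ℤ)} (ob : OB Λ X)
    {x : ι → ℤ} (hx : x ∈ X) : ip Λ.B x Λ.F = 0 ∧ ip Λ.B Λ.K x = 0 := by
  have a : ∀ k, ip Λ.B (Λ.C k) x = 0 := fun k => by
    have := ob.perp x hx _ (cv ns hF k)
    rw [ip_toR] at this
    exact_mod_cast this
  refine ⟨(ip_comm ns.sym _ _).trans (a _), ?_⟩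
  have := l.sumK x
  rw [Finset.sum_eq_zero fun k _ => a k] at this
  omega

theorem ef (ns : NS Λ) (l : L1 Λ) (hF : ip Λ.B Λ.F Λ.F = 0) {x : ι → ℤ} (h : ip Λ.B x Λ.F = 0) :
    ∃ m : ℤ, Λ.h + x + m • Λ.F ∈ Λ.Ef := by
  have p : 0 < ip Λ.B Λ.h Λ.F := ns.hpos _ (ns.memC _)
  have k : ip Λ.B Λ.K Λ.F = 0 := by
    have : ip Λ.B Λ.F Λ.F = -2 * ip Λ.B Λ.K Λ.F := l.CK Λ.k0
    omega
  have q : ip Λ.B (Λ.h + x) Λ.F = ip Λ.B Λ.h Λ.F := by rw [ip_add_left, h, add_zero]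
  generalize Λ.h + x = y at q ⊢
  refine ⟨|ip Λ.B Λ.K y - ip Λ.B y y|, (ns.rr _ ?_).resolve_right fun c => ?_⟩
  · simp only [ip_add_left, ip_add_right, ip_smul_left, ip_smul_right, hF, k,
      ip_comm ns.sym Λ.F y, q]
    nlinarith [le_abs_self (ip Λ.B Λ.K y - ip Λ.B y y), abs_nonneg (ip Λ.B Λ.K y - ip Λ.B y y)]
  · have := l.efn _ (l.pn _ (ns.memC Λ.k0) ns.sq0) _ c
    change 0 ≤ ip Λ.B Λ.F _ at this
    rw [ip_sub_right, ip_add_right, ip_smul_right, hF, ip_comm ns.sym Λ.F y, q,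
      ip_comm ns.sym Λ.F, k] at this
    omega

theorem arch {a t : ℝ} (h : ∀ n : ℤ, 0 ≤ a + n * t) : t = 0 := by
  by_contra c
  obtain ⟨n, hn⟩ := exists_nat_gt (a / |t|)
  rw [div_lt_iff₀ (abs_pos.2 c)] at hn
  have p := h n
  have q := h (-n)
  push_cast at p q
  rcases abs_cases t with e | e <;> rw [e.1] at hn <;> linarith

end EndB2

open EndB2 in
theorem endB2_stmt : EndB2Stmt := by
  intro ι κ _ _ _ Λ X G ns l hF ob h1 tr L hL
  rcases (hL _ (ns.memC Λ.k0) : 0 ≤ ip Λ.B L (toR Λ.F)).eq_or_lt with z | z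
  · refine ⟨1, h1, fun x hx => ?_⟩
    have : ip Λ.B L (toR x) = 0 := arch (a := ip Λ.B L (toR Λ.h)) fun n => by
      obtain ⟨m, hm⟩ := ef ns l hF (x := n • x)
        (by rw [ip_smul_left, (perp ns l hF ob hx).1, mul_zero])
      have := l.efr L hL _ hm
      rwa [toR_add, toR_add, toR_zsmul, toR_zsmul, ip_add_right, ip_add_right, ip_smul_right,
        ip_smul_right, ← z, mul_zero, add_zero] at this
    rw [act_one, this, ← z, abs_zero, mul_zero]
  · let n : (ι → ℤ) → ℤ := fun x =>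
      ⌊ip Λ.B L (toR x) / (-(ip Λ.B x x : ℤ) * ip Λ.B L (toR Λ.F))⌋
    have w : ip Λ.B (∑ x ∈ X, n x • x) Λ.F = 0 := by
      rw [ip_sum_left]
      exact Finset.sum_eq_zero fun x hx => by
        rw [ip_smul_left, (perp ns l hF ob hx).1, mul_zero]
    obtain ⟨ρ, hρ, t⟩ := tr n
    refine ⟨ρ, hρ, fun x hx => ?_⟩
    have a := vf (tl t L)
    have b := ob.perp x hx _ (tl t L)
    have s : ip Λ.B (∑ x ∈ X, n x • x) x = n x * ip Λ.B x x := by
      rw [ip_sum_left, Finset.sum_eq_single_of_mem x hx fun y hy e => by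
        rw [ip_smul_left, ob.orth y hy x hx e, mul_zero], ip_smul_left]
    rw [ip_sub_left, ip_sub_left, ip_smul_left, ip_toR] at a b
    rw [w, Int.cast_zero, mul_zero, sub_zero, sub_eq_zero] at a
    rw [s] at b
    have c : (0 : ℝ) < -(ip Λ.B x x : ℤ) * ip Λ.B L (toR Λ.F) :=
      mul_pos (neg_pos.2 (by exact_mod_cast ob.neg x hx)) z
    have f1 : (n x : ℝ) ≤ _ := Int.floor_le _
    have f2 : _ < (n x : ℝ) + 1 := Int.lt_floor_add_one _
    rw [le_div_iff₀ c] at f1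
    rw [div_lt_iff₀ c] at f2
    push_cast at b
    rw [a, abs_le]
    constructor <;> linarith

end Pool.Agent.MP_20d318_ag.CB

end MrgPart1

-- ======== part 2: formerly Pool.Agent.MP_20d318_ag.CB.EndB3
section MrgPart2

/-! The nef cone is rational polyhedral inside the box. -/

set_option autoImplicit false

namespace Pool.Agent.MP_20d318_ag.CB

open Pool.Agent.MP_20d318_ag.Lat

namespace EndB3

/-- Dickson's lemma for integral values that are bounded below. -/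
theorem dick {N : Type} [AddCommGroup N] [Module ℝ N] {α : Type} (R : Finset N) (A : Set α)
    (a : α → N →ₗ[ℝ] ℝ) (h1 : ∀ r ∈ R, ∀ i ∈ A, ∃ z : ℤ, a i r = z)
    (h2 : ∀ r ∈ R, ∃ β : ℝ, ∀ i ∈ A, -β ≤ a i r) :
    ∃ T ⊆ A, T.Finite ∧ ∀ i ∈ A, ∃ j ∈ T, ∀ x ∈ cone (R : Set N), a j x ≤ a i x := by
  classical
  choose! β hβ using h2
  obtain ⟨T, t1, t2, t3⟩ := dickson (R.image fun r => (r, ((⌈β r⌉ : ℤ) : ℝ))) A
    (fun i => a i ∘ₗ LinearMap.fst ℝ N ℝ + LinearMap.snd ℝ N ℝ) fun i hi r' hr' => by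
      obtain ⟨r, hr, rfl⟩ := Finset.mem_image.1 hr'
      obtain ⟨z, hz⟩ := h1 r hr i hi
      have := hβ r hr i hi
      have := Int.le_ceil (β r)
      refine nat_of_int ⟨z + ⌈β r⌉, by simp [hz]⟩ ?_
      simp only [LinearMap.add_apply, LinearMap.comp_apply, LinearMap.fst_apply,
        LinearMap.snd_apply]
      linarith
  refine ⟨T, t1, t2, fun i hi => ?_⟩
  obtain ⟨j, hj, h⟩ := t3 i hi
  refine ⟨j, hj, le_on_cone fun r hr => ?_⟩
  have := h _ (subset_cone _ (Finset.mem_coe.2 (Finset.mem_image_of_mem _ hr)))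
  simpa using this

variable {ι κ : Type} [Fintype ι] [Fintype κ]

theorem rp_univ : RP (LW ι κ) Set.univ := by
  classical
  have h : Submodule.span ℝ (Set.range (toRW : W ι κ ℤ → W ι κ ℝ)) = ⊤ :=
    eq_top_iff.2 fun x _ => by
      have e : x = ∑ q, x.1 q • toRW (Pi.single q 1, 0, 0) + x.2.1 • toRW (0, 1, 0) +
          ∑ i, ∑ j, x.2.2 i j • toRW (0, 0, Pi.single i (Pi.single j 1)) := by
        simp [Prod.ext_iff, funext_iff, toRW, toR, Prod.fst_sum, Prod.snd_sum, Finset.sum_apply,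
          Pi.single_apply, ite_apply, apply_ite (Int.cast : ℤ → ℝ)]
      have m : ∀ (c : ℝ) (D : W ι κ ℤ), c • toRW D ∈ Submodule.span ℝ (Set.range toRW) :=
        fun c D => Submodule.smul_mem _ _ (Submodule.subset_span ⟨D, rfl⟩)
      rw [e]
      exact add_mem (add_mem (sum_mem fun _ _ => m _ _) (m _ _))
        (sum_mem fun _ _ => sum_mem fun _ _ => m _ _)
  obtain ⟨S, h1, h2⟩ := (Submodule.fg_span_iff_fg_span_finset_subset (R := ℝ)
    (Set.range (toRW : W ι κ ℤ → W ι κ ℝ))).1 (h ▸ Module.Finite.fg_top)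
  have hc := isCone_cone ((S ∪ S.image Neg.neg : Finset (W ι κ ℝ)) : Set (W ι κ ℝ))
  refine ⟨S ∪ S.image Neg.neg, fun x hx => ?_, Set.eq_univ_of_forall fun x => ?_⟩
  · rcases Finset.mem_union.1 hx with hx | hx
    · exact AddSubgroup.subset_closure (h1 hx)
    · obtain ⟨y, hy, rfl⟩ := Finset.mem_image.1 hx
      exact neg_mem (AddSubgroup.subset_closure (h1 hy))
  · have hx : x ∈ Submodule.span ℝ (S : Set (W ι κ ℝ)) := h2 ▸ h ▸ Submodule.mem_top
    refine And.left (b := -x ∈ _) (Submodule.span_induction (fun y hy => ⟨subset_cone _ ?_,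
      subset_cone _ ?_⟩) ⟨hc.zero, neg_zero (G := W ι κ ℝ) ▸ hc.zero⟩
      (fun y z _ _ a b => ⟨hc.add _ a.1 _ b.1, neg_add y z ▸ hc.add _ a.2 _ b.2⟩)
      (fun c y _ a => ?_) hx)
    · exact Finset.mem_union_left _ hy
    · exact Finset.mem_union_right _ (Finset.mem_image_of_mem _ hy)
    · rcases le_total 0 c with h0 | h0
      · exact ⟨hc.smul c h0 _ a.1, smul_neg c y ▸ hc.smul c h0 _ a.2⟩
      · exact ⟨neg_smul_neg c y ▸ hc.smul _ (neg_nonneg.2 h0) _ a.2,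
          neg_smul c y ▸ hc.smul _ (neg_nonneg.2 h0) _ a.1⟩

/-- The degree on a fixed integral class. -/
def fn (B : ι → ι → ℤ) (Z : W ι κ ℤ) : W ι κ ℝ →ₗ[ℝ] ℝ where
  toFun D := ipW B D (toRW Z)
  map_add' _ _ := ipW_add _ _ _
  map_smul' _ _ := ipW_smul _ _ _

theorem fn_int (B : ι → ι → ℤ) (Z : W ι κ ℤ) : Intg (LW ι κ) (fn B Z) := fun x hx => by
  induction hx using AddSubgroup.closure_induction with
  | mem x hx =>
    obtain ⟨D, rfl⟩ := hx
    exact ⟨_, ipW_toRW B D Z⟩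
  | zero => exact ⟨0, by simp⟩
  | add x y _ _ a b =>
    obtain ⟨a, ha⟩ := a
    obtain ⟨b, hb⟩ := b
    exact ⟨a + b, by simp [ha, hb]⟩
  | neg x _ a =>
    obtain ⟨a, ha⟩ := a
    exact ⟨-a, by simp [ha]⟩

theorem rp_fam (B : ι → ι → ℤ) {S : Set (W ι κ ℝ)} (hS : RP (LW ι κ) S) {α : Type} {A : Set α}
    (hA : A.Finite) (Z : α → W ι κ ℤ) : RP (LW ι κ) (S ∩ {D | ∀ a ∈ A, 0 ≤ fn B (Z a) D}) := by
  have := hS.inter_fin (hA.image fun a => fn B (Z a)) (by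
    rintro _ ⟨a, -, rfl⟩
    exact fn_int B _)
  simpa only [Set.forall_mem_image] using this

variable (Λ : Ld ι κ)

/-- The classes on the surface that have to be nef. -/
def M (o : Option (Fin 4)) (D : W ι κ ℝ) : ι → ℝ :=
  D.1 - ∑ k, o.elim 0 (D.2.2 k) • toR (Λ.C k)

/-- The degrees of a curve on a copy of the surface. -/
def Zc (o : Option (Fin 4)) (c : ι → ℤ) : W ι κ ℤ :=
  (c, 0, fun k j => if some j = o then ip Λ.B (Λ.C k) c else 0)

theorem fn_Zc (o : Option (Fin 4)) (c : ι → ℤ) (D : W ι κ ℝ) :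
    fn Λ.B (Zc Λ o c) D = ip Λ.B (M Λ o D) (toR c) := by
  cases o <;>
    simp [fn, ipW, Zc, M, toRW, ip_sub_left, ip_sum_left, ip_smul_left, ip_toR,
      apply_ite (Int.cast : ℤ → ℝ)]

omit [Fintype ι] in
theorem M_none (D : W ι κ ℝ) : M Λ none D = D.1 := by simp [M]

variable {Λ}

theorem vert (hN : NS Λ) (h0 : ip Λ.B Λ.F Λ.F = 0) (k : κ) : ip Λ.B (Λ.C k) Λ.F = 0 := by
  by_cases hk : k = Λ.k0
  · rw [hk]
    exact h0
  · exact hN.disj k _ hk

theorem M_ip (o : Option (Fin 4)) (D : W ι κ ℝ) {x : ι → ℤ} (h : ∀ k, ip Λ.B (Λ.C k) x = 0) :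
    ip Λ.B (M Λ o D) (toR x) = ip Λ.B D.1 (toR x) := by
  simp [M, ip_sub_left, ip_sum_left, ip_smul_left, ip_toR, h]

/-- The horizontal curves of square `-1`. -/
def A (Λ : Ld ι κ) : Set (ι → ℤ) := {c | c ∈ Λ.P ∧ ip Λ.B c c = -1 ∧ ip Λ.B c Λ.F ≠ 0}

theorem deg (hN : NS Λ) (h1 : L1 Λ) {c : ι → ℤ} (hc : c ∈ A Λ) :
    1 ≤ ip Λ.B Λ.F c ∧ ip Λ.B Λ.F c ≤ 2 := by
  obtain ⟨a1, a2, a3⟩ := hc
  rw [ip_comm hN.sym] at a3
  rcases h1.neg c a1 (by omega) with ⟨k, -, -, b, -⟩ | ⟨b1, -, b2⟩ | ⟨-, b, -⟩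
  · omega
  · have s := h1.sumK c
    have l := Finset.single_le_sum (f := fun k => ip Λ.B (Λ.C k) c)
      (fun k _ => h1.Cc c a1 b1 k) (Finset.mem_univ Λ.k0)
    have p := h1.Cc c a1 b1 Λ.k0
    unfold Ld.F at *
    omega
  · omega

theorem bdV (hN : NS Λ) (h1 : L1 Λ) (h0 : ip Λ.B Λ.F Λ.F = 0) {L : ι → ℝ} (hL : L ∈ Λ.V) :
    ∃ β : ℝ, ∀ c ∈ A Λ, |ip Λ.B L (toR c)| ≤ β := by
  induction hL using Submodule.span_induction with
  | mem x hx =>
    obtain ⟨v, ⟨v1, v2⟩, rfl⟩ := hx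
    refine ⟨2, fun c hc => ?_⟩
    have d := deg hN h1 hc
    have p := hN.pos v v1 c hc.1 fun e => hc.2.2 (e ▸ v2)
    have q : 0 ≤ ip Λ.B (Λ.F - v) c := by
      by_contra n
      have := h1.efn _ (h1.pn _ (hN.memC Λ.k0) h0.ge) _
        (h1.comp _ (hN.fib h0 v v1 v2) c hc.1 (not_le.1 n))
      rw [ip_comm hN.sym] at v2
      change 0 ≤ ip Λ.B Λ.F _ at this
      rw [ip_sub_right, ip_sub_right, h0, v2] at this
      omega
    rw [ip_sub_left] at q
    rw [ip_toR, ← Int.cast_abs, abs_of_nonneg p]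
    exact_mod_cast (by omega : ip Λ.B v c ≤ 2)
  | zero => exact ⟨0, fun c _ => by simp [ip_zero_left]⟩
  | add x y _ _ a b =>
    obtain ⟨a, ha⟩ := a
    obtain ⟨b, hb⟩ := b
    exact ⟨a + b, fun c hc => by
      rw [ip_add_left]
      exact (abs_add_le _ _).trans (add_le_add (ha c hc) (hb c hc))⟩
  | smul t x _ a =>
    obtain ⟨a, ha⟩ := a
    exact ⟨|t| * a, fun c hc => by
      rw [ip_smul_left, abs_mul]
      exact mul_le_mul_of_nonneg_left (ha c hc) (abs_nonneg t)⟩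

theorem bd (hN : NS Λ) (h1 : L1 Λ) (h0 : ip Λ.B Λ.F Λ.F = 0) {X : Finset (ι → ℤ)} (hX : OB Λ X)
    {L : ι → ℝ} (hL : L ∈ Box Λ X) (ha : 0 ≤ ip Λ.B L (toR Λ.F)) :
    ∃ β : ℝ, ∀ c ∈ A Λ, -β ≤ ip Λ.B L (toR c) := by
  rcases ha.eq_or_lt with ha | ha
  · obtain ⟨β, hβ⟩ := bdV hN h1 h0 (hX.span L ha.symm fun x hx => by
      have := hL x hx
      rw [← ha, mul_zero] at this
      exact abs_nonpos_iff.1 this)
    exact ⟨β, fun c hc => (abs_le.1 (hβ c hc)).1⟩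
  · refine ⟨(4 * |ip Λ.B L L| + ip Λ.B L (toR Λ.F) ^ 2) / (2 * ip Λ.B L (toR Λ.F)), fun c hc => ?_⟩
    have d := deg hN h1 hc
    have cc : ip Λ.B (toR c) (toR c) = -1 := by
      rw [ip_toR, hc.2.1]
      simp
    have e : ip Λ.B (toR c) (toR Λ.F) = (ip Λ.B Λ.F c : ℤ) := by rw [ip_toR, ip_comm hN.sym]
    have d1 : (1 : ℝ) ≤ (ip Λ.B Λ.F c : ℤ) := by exact_mod_cast d.1
    have d2 : ((ip Λ.B Λ.F c : ℤ) : ℝ) ≤ 2 := by exact_mod_cast d.2
    generalize ((ip Λ.B Λ.F c : ℤ) : ℝ) = δ at e d1 d2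
    have h := (h1.hz (ip Λ.B L (toR Λ.F) • toR c - δ • L) (by
      rw [ip_sub_left, ip_smul_left, ip_smul_left, e]
      ring)).1
    simp only [ip_sub_left, ip_sub_right, ip_smul_left, ip_smul_right, cc,
      ip_comm hN.sym (toR c) L] at h
    have n := neg_abs_le (ip Λ.B L L)
    have n0 := abs_nonneg (ip Λ.B L L)
    generalize |ip Λ.B L L| = s at *
    generalize ip Λ.B L L = l at *
    generalize ip Λ.B L (toR c) = u at *
    generalize ip Λ.B L (toR Λ.F) = a at *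
    rw [neg_le, le_div_iff₀ (by positivity)]
    by_contra m
    have m0 : 0 < -u * (2 * a) := lt_of_le_of_lt (by positivity) (not_le.1 m)
    have m1 := mul_le_mul_of_nonneg_left d1 m0.le
    have m2 : δ ^ 2 * s ≤ 4 * s := mul_le_mul_of_nonneg_right (by nlinarith) n0
    have m3 := mul_le_mul_of_nonneg_left n (sq_nonneg δ)
    nlinarith

end EndB3

open EndB3 in
theorem endB3_stmt : EndB3Stmt := by
  intro ι κ _ _ Λ X hN h1 hC hZ h0 hV hX
  classical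
  have hx : ∀ x ∈ X, ∀ k, ip Λ.B (Λ.C k) x = 0 := fun x hx k => by
    have := hX.perp x hx (toR (Λ.C k))
      (Submodule.subset_span ⟨_, ⟨hN.memC k, vert hN h0 k⟩, rfl⟩)
    rw [ip_toR] at this
    exact_mod_cast this
  have q1 := rp_fam Λ.B rp_univ (Set.finite_singleton Λ.F) (Zc Λ none)
  have q2 := rp_fam Λ.B q1 X.finite_toSet fun x => Zc Λ none (-ip Λ.B x x • Λ.F + x)
  have q3 := rp_fam Λ.B q2 X.finite_toSet fun x => Zc Λ none (-ip Λ.B x x • Λ.F - x)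
  obtain ⟨R, hR, hQ⟩ := id q3
  have hq : ∀ D, D ∈ cone (R : Set (W ι κ ℝ)) ↔ 0 ≤ ip Λ.B D.1 (toR Λ.F) ∧ D.1 ∈ Box Λ X := by
    intro D
    rw [hQ]
    simp only [Set.mem_inter_iff, Set.mem_univ, true_and, Set.mem_ofPred_eq, Set.mem_singleton_iff,
      forall_eq, fn_Zc, M_none, toR_add, toR_sub, toR_zsmul, ip_add_right, ip_sub_right,
      ip_smul_right, Box, abs_le, Finset.mem_coe, Int.cast_neg]
    refine ⟨fun h => ⟨h.1.1, fun x hx => ⟨?_, ?_⟩⟩, fun h => ⟨⟨h.1, fun x hx => ?_⟩, fun x hx => ?_⟩⟩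
    · linarith [h.1.2 x hx]
    · linarith [h.2 x hx]
    · linarith [(h.2 x hx).1]
    · linarith [(h.2 x hx).2]
  have hT := fun o : Option (Fin 4) => dick R (A Λ) (fun c => fn Λ.B (Zc Λ o c))
    (fun r hr c _ => fn_int _ _ r (hR hr)) fun r hr => by
      obtain ⟨a, b⟩ := (hq r).1 (subset_cone _ hr)
      simp only [fn_Zc]
      refine bd hN h1 h0 hX (fun x h => ?_) ?_
      · rw [M_ip o r (hx x h), M_ip o r (vert hN h0)]
        exact b x h
      · rwa [M_ip o r (vert hN h0)]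
  choose T t1 t2 t3 using hT
  have fin : (Set.univ ×ˢ ({c | c ∈ Λ.P ∧ ip Λ.B c Λ.F = 0} ∪ ⋃ o, T o) :
      Set (Option (Fin 4) × (ι → ℤ))).Finite :=
    Set.finite_univ.prod (hV.union (Set.finite_iUnion t2))
  have q4 := rp_fam Λ.B q3 fin fun p => Zc Λ p.1 p.2
  have q5 := rp_fam Λ.B q4 Set.finite_univ fun p : κ × Fin 4 =>
    (0, 0, Pi.single p.1 (Pi.single p.2 (-1)))
  have q6 := rp_fam Λ.B q5 Set.finite_univ fun k : κ => (0, 1, Pi.single k 1)
  have e5 : ∀ (p : κ × Fin 4) (D : W ι κ ℝ),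
      fn Λ.B (0, 0, Pi.single p.1 (Pi.single p.2 (-1))) D = D.2.2 p.1 p.2 := fun p D => by
    simp [fn, ipW, toRW, toR_zero, ip_zero_right, Pi.single_apply, ite_apply,
      apply_ite (Int.cast : ℤ → ℝ)]
  have e6 : ∀ (k : κ) (D : W ι κ ℝ),
      fn Λ.B (0, 1, Pi.single k 1) D = D.2.1 - ∑ j, D.2.2 k j := fun k D => by
    simp [fn, ipW, toRW, toR_zero, ip_zero_right, Pi.single_apply, ite_apply,
      apply_ite (Int.cast : ℤ → ℝ)]
  rw [← hQ] at q6
  refine (Set.ext fun D => ?_ : _ = Λ.NX ∩ {D | D.1 ∈ Box Λ X}) ▸ q6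
  simp only [Set.mem_inter_iff, Set.mem_ofPred_eq, e5, e6, fn_Zc, Set.mem_univ, forall_true_left,
    sub_nonneg]
  constructor
  · rintro ⟨⟨⟨a1, a2⟩, a3⟩, a4⟩
    have nef : ∀ o, M Λ o D ∈ Λ.NT := fun o => hC _ fun c hc => by
      by_cases cF : ip Λ.B c Λ.F = 0
      · rcases hc with (hc | ⟨k, rfl⟩) | hc
        · exact a2 (o, c) ⟨trivial, .inl ⟨hc.1, cF⟩⟩
        · exact a2 (o, _) ⟨trivial, .inl ⟨hN.memC k, cF⟩⟩
        · exact a2 (o, c) ⟨trivial, .inl ⟨hc.1, cF⟩⟩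
      · rcases hc with (hc | ⟨k, rfl⟩) | hc
        · rcases h1.neg c hc.1 hc.2 with ⟨k, -, rfl, -⟩ | ⟨-, b, -⟩ | ⟨-, -, -, b⟩
          · exact absurd (vert hN h0 k) cF
          · obtain ⟨c', k1, k2⟩ := t3 o c ⟨hc.1, b, cF⟩
            have := k2 D a1
            rw [fn_Zc, fn_Zc] at this
            exact (a2 (o, c') ⟨trivial, .inr (Set.mem_iUnion.2 ⟨o, k1⟩)⟩).trans this
          · exact absurd ((ip_comm hN.sym _ _).trans (b Λ.k0)) cF
        · exact absurd (vert hN h0 k) cF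
        · rw [hZ.con h0] at hc
          exact hc.elim
    exact ⟨⟨fun k j => a3 (k, j), a4, M_none Λ D ▸ nef none, fun j => nef (some j)⟩,
      ((hq D).1 a1).2⟩
  · rintro ⟨⟨a1, a2, a3, a4⟩, a5⟩
    refine ⟨⟨⟨(hq D).2 ⟨a3 _ (hN.memC _), a5⟩, ?_⟩, fun p => a1 _ _⟩, a2⟩
    rintro ⟨o, c⟩ ⟨-, hc⟩
    have cP : c ∈ Λ.P := by
      rcases hc with hc | hc
      · exact hc.1
      · obtain ⟨o', h⟩ := Set.mem_iUnion.1 hc
        exact (t1 o' h).1
    cases o with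
    | none => exact (M_none Λ D).symm ▸ a3 c cP
    | some j => exact a4 j c cP

end Pool.Agent.MP_20d318_ag.CB

end MrgPart2

-- ======== part 3: formerly Pool.Agent.MP_20d318_ag.CB.Hg
section MrgPart3

/-! Consequences of the signature of the form. -/

set_option autoImplicit false

namespace Pool.Agent.MP_20d318_ag.CB

namespace HgA

variable {ι : Type} [Fintype ι] {B : ι → ι → ℤ}

theorem sq (hs : ∀ i j, B i j = B j i) (a b : ℝ) (u v : ι → ℝ) :
    ip B (a • u - b • v) (a • u - b • v) =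
      a ^ 2 * ip B u u - 2 * a * b * ip B v u + b ^ 2 * ip B v v := by
  simp only [ip_sub_left, ip_sub_right, ip_smul_left, ip_smul_right, ip_comm hs u v]
  ring

theorem perp (A u v : ι → ℝ) : ip B (ip B v A • u - ip B u A • v) A = 0 := by
  simp only [ip_sub_left, ip_smul_left]
  ring

theorem neg (hs : ∀ i j, B i j = B j i) (h : Hodge B) (u v : ι → ℝ) (h1 : 0 < ip B u u)
    (h2 : ip B v u = 0) (h3 : v ≠ 0) : ip B v v < 0 := by
  obtain ⟨A, -, hA⟩ := h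
  by_cases w : ip B v A • u - ip B u A • v = 0
  · have := congrArg (fun z => ip B z u) w
    simp only [ip_sub_left, ip_smul_left, h2, mul_zero, sub_zero, ip_zero_left] at this
    exact hA v ((mul_eq_zero.1 this).resolve_right h1.ne') h3
  · have := hA _ (perp A u v) w
    rw [sq hs, h2] at this
    by_contra k
    nlinarith [mul_nonneg (sq_nonneg (ip B v A)) h1.le,
      mul_nonneg (sq_nonneg (ip B u A)) (not_lt.1 k)]

theorem iso (hs : ∀ i j, B i j = B j i) (h : Hodge B) (u v : ι → ℝ) (h1 : ip B u u = 0)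
    (h3 : u ≠ 0) (h2 : ip B v u = 0) :
    ip B v v ≤ 0 ∧ (ip B v v = 0 → ∃ q : ℝ, v = q • u) := by
  obtain ⟨A, -, hA⟩ := h
  have a : ip B u A ≠ 0 := fun k => (hA u k h3).ne h1
  by_cases w : ip B v A • u - ip B u A • v = 0
  · have e : v = ((ip B u A)⁻¹ * ip B v A) • u := by
      rw [mul_smul, sub_eq_zero.1 w, inv_smul_smul₀ a]
    refine ⟨le_of_eq ?_, fun _ => ⟨_, e⟩⟩
    have : ip B v v = ip B v (((ip B u A)⁻¹ * ip B v A) • u) := congrArg (ip B v) e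
    rw [this, ip_smul_right, h2, mul_zero]
  · have := hA _ (perp A u v) w
    rw [sq hs, h2, h1] at this
    have k : ip B v v < 0 := by
      by_contra k
      nlinarith [mul_nonneg (sq_nonneg (ip B u A)) (not_lt.1 k)]
    exact ⟨k.le, fun e => absurd e k.ne⟩

theorem nd (h : Hodge B) (v : ι → ℝ) (h1 : ∀ y : ι → ℤ, ip B v (toR y) = 0) : v = 0 := by
  classical
  obtain ⟨A, -, hA⟩ := h
  have k : ∀ z : ι → ℝ, ip B v z = 0 := fun z => by
    have e : z = ∑ i, z i • toR (Pi.single i 1) := by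
      funext j
      simp [toR, Pi.single_apply]
    rw [e, ip_sum_right]
    exact Finset.sum_eq_zero fun i _ => by rw [ip_smul_right, h1, mul_zero]
  by_contra n
  exact (hA v (k A) n).ne (k v)

theorem pos (hs : ∀ i j, B i j = B j i) (h : Hodge B) {u c : ι → ℝ} (h1 : 0 < ip B u u)
    (hc : c ≠ 0) : 0 < 2 * ip B c u ^ 2 - ip B u u * ip B c c := by
  by_cases k : ip B c u = 0
  · have := neg hs h u c h1 k hc
    rw [k]
    nlinarith [mul_pos h1 (neg_pos.2 this)]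
  have p : 0 < ip B c u ^ 2 := by positivity
  have e := sq hs (ip B c u) (ip B u u) u c
  have n : ip B (ip B c u • u - ip B u u • c) (ip B c u • u - ip B u u • c) ≤ 0 := by
    by_cases w : ip B c u • u - ip B u u • c = 0
    · rw [w, ip_zero_left]
    · exact (neg hs h u _ h1 (perp u u c) w).le
  rw [e] at n
  have : ip B u u * (ip B u u * ip B c c - ip B c u ^ 2) ≤ 0 := by nlinarith
  have := nonpos_of_mul_nonpos_right this h1
  linarith

theorem coer (hs : ∀ i j, B i j = B j i) (h : Hodge B) {u : ι → ℝ} (h1 : 0 < ip B u u) :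
    ∃ ε : ℝ, 0 < ε ∧ ∀ c : ι → ℝ, ε * ‖c‖ ^ 2 ≤ 2 * ip B c u ^ 2 - ip B u u * ip B c c := by
  have cont : Continuous fun c : ι → ℝ => 2 * ip B c u ^ 2 - ip B u u * ip B c c := by
    unfold ip
    fun_prop
  obtain ⟨ε, e0, e1⟩ := (isCompact_sphere (0 : ι → ℝ) 1).exists_forall_le' cont.continuousOn
    (a := 0) fun c hc => pos hs h h1 (ne_zero_of_mem_unit_sphere ⟨c, hc⟩)
  refine ⟨ε, e0, fun c => ?_⟩
  rcases eq_or_ne c 0 with rfl | hc
  · simp [ip_zero_left]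
  have n : 0 < ‖c‖ := norm_pos_iff.2 hc
  have := e1 (‖c‖⁻¹ • c) (by
    rw [mem_sphere_zero_iff_norm, norm_smul, norm_inv, norm_norm, inv_mul_cancel₀ n.ne'])
  simp only [ip_smul_left, ip_smul_right] at this
  refine (mul_le_mul_of_nonneg_right this (sq_nonneg ‖c‖)).trans (le_of_eq ?_)
  field_simp

theorem fin (hs : ∀ i j, B i j = B j i) (h : Hodge B) (u : ι → ℤ) (a : ℤ) (h1 : 0 < ip B u u) :
    {c : ι → ℤ | |ip B c u| ≤ a ∧ -a ≤ ip B c c}.Finite := by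
  classical
  obtain ⟨ε, e0, e1⟩ := coer hs h (u := toR u) (by rw [ip_toR]; exact_mod_cast h1)
  obtain ⟨N, hN⟩ := exists_int_gt (((2 * a ^ 2 + ip B u u * a : ℤ) : ℝ) / ε)
  refine (Set.finite_Icc (fun _ : ι => -N) fun _ => N).subset ?_
  rintro c ⟨c1, c2⟩
  have a1 := e1 (toR c)
  rw [ip_toR, ip_toR, ip_toR] at a1
  have a2 : 2 * ip B c u ^ 2 - ip B u u * ip B c c ≤ 2 * a ^ 2 + ip B u u * a := by
    have := sq_le_sq' (abs_le.1 c1).1 (abs_le.1 c1).2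
    nlinarith [mul_le_mul_of_nonneg_left c2 h1.le]
  have a3 : ‖toR c‖ ^ 2 < N := by
    refine lt_of_le_of_lt ?_ hN
    rw [le_div_iff₀ e0, mul_comm]
    refine a1.trans ?_
    exact_mod_cast a2
  have a4 : ∀ i, |c i| ≤ N := fun i => by
    have b1 : ‖toR c i‖ ^ 2 ≤ ‖toR c‖ ^ 2 :=
      pow_le_pow_left₀ (norm_nonneg _) (norm_le_pi_norm _ i) 2
    rw [Real.norm_eq_abs, sq_abs] at b1
    have b2 : c i ^ 2 < N := by exact_mod_cast (show ((c i : ℝ)) ^ 2 < N from b1.trans_lt a3)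
    have b3 : |c i| ≤ c i ^ 2 := by
      rw [← sq_abs]
      exact Int.le_self_sq _
    linarith
  exact ⟨fun i => (abs_le.1 (a4 i)).1, fun i => (abs_le.1 (a4 i)).2⟩

end HgA

theorem hg_stmt : HgStmt := fun _ _ _ hs h =>
  ⟨HgA.neg hs h, HgA.iso hs h, HgA.nd h, HgA.fin hs h⟩

end Pool.Agent.MP_20d318_ag.CB

end MrgPart3

-- ======== part 4: formerly Pool.Agent.MP_20d318_ag.CB.Hz
section MrgPart4

/-! Curves of square `-1`. -/

set_option autoImplicit false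

namespace Pool.Agent.MP_20d318_ag.CB

namespace Hz

variable {ι κ : Type} [Fintype ι] [Fintype κ] {Λ : Ld ι κ}

theorem cf (ns : NS Λ) (h0 : ip Λ.B Λ.F Λ.F = 0) (k : κ) : ip Λ.B (Λ.C k) Λ.F = 0 := by
  by_cases hk : k = Λ.k0
  · rw [hk]; exact h0
  · exact ns.disj k _ hk

theorem con (ns : NS Λ) (l : L1 Λ) (h0 : ip Λ.B Λ.F Λ.F = 0) : Λ.Con = ∅ := by
  refine Set.eq_empty_of_forall_notMem fun b ⟨hb, _, _, hv⟩ => ?_
  have h1 : ∀ k, 0 ≤ ip Λ.B (Λ.C k) Λ.K := fun k => by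
    have a := (l.hz (toR (Λ.C k)) (by rw [ip_toR, cf ns h0 k, Int.cast_zero])).1
    rw [ip_toR] at a
    have a' : ip Λ.B (Λ.C k) (Λ.C k) ≤ 0 := by exact_mod_cast a
    rw [l.CK, ip_comm ns.sym] at a'
    omega
  have h2 : 0 ≤ -2 * ip Λ.B Λ.K Λ.K := l.sumK Λ.K ▸ Finset.sum_nonneg fun k _ => h1 k
  have h3 := ns.noe
  let φ : (ι → ℤ) →ₗ[ℤ] ℤ × ℤ :=
    { toFun := fun v => (ip Λ.B v b, ip Λ.B Λ.h v)
      map_add' := fun u v => by rw [ip_add_left, ip_add_right]; rfl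
      map_smul' := fun m v => by rw [ip_smul_left, ip_smul_right]; rfl }
  have hi : Function.Injective φ := (injective_iff_map_eq_zero φ).2 fun v e => by
    obtain ⟨m, rfl⟩ := hv v (congrArg Prod.fst e)
    have e2 : ip Λ.B Λ.h (m • b) = 0 := congrArg Prod.snd e
    rw [ip_smul_right] at e2
    rw [(mul_eq_zero.1 e2).resolve_right (ns.hpos b hb).ne', zero_smul]
  have h4 := LinearMap.finrank_le_finrank_of_injective hi
  rw [Module.finrank_fintype_fun_eq_card, Module.finrank_prod, Module.finrank_self] at h4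
  omega

theorem hor (ns : NS Λ) (l : L1 Λ) (ct : CT Λ) (h0 : ip Λ.B Λ.F Λ.F = 0) :
    ∃ c ∈ Λ.P, ip Λ.B c c = -1 ∧ 0 < ip Λ.B c Λ.F := by
  by_contra hn
  have h1 : -toR Λ.F ∈ Λ.NT := ct _ fun c hc => by
    rw [ip_neg_left, ip_toR, neg_nonneg, ip_comm ns.sym]
    refine Int.cast_nonpos.2 ?_
    rcases hc with (⟨hc, hs⟩ | ⟨k, rfl⟩) | hc
    · rcases l.neg c hc hs with ⟨k, -, rfl, -⟩ | ⟨-, a, -⟩ | ⟨-, -, -, a⟩
      · exact (cf ns h0 k).le
      · exact not_lt.1 fun b => hn ⟨c, hc, a, b⟩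
      · rw [ip_comm ns.sym]; exact (a Λ.k0).le
    · exact (cf ns h0 k).le
    · rw [con ns l h0] at hc; exact hc.elim
  have h2 := l.efr _ h1 _ ns.heff
  rw [ip_neg_left, ip_toR, neg_nonneg, ip_comm ns.sym] at h2
  exact absurd (Int.cast_nonpos.1 h2) (not_le.2 (ns.hpos _ (ns.memC Λ.k0)))

theorem two (ns : NS Λ) (l : L1 Λ) (ct : CT Λ) (h0 : ip Λ.B Λ.F Λ.F = 0) :
    ∃ D, ip Λ.B D Λ.F = 2 := by
  obtain ⟨c, hc, h1, h2⟩ := hor ns l ct h0
  rcases l.neg c hc (by omega) with ⟨k, -, -, a, -⟩ | ⟨a, -, b⟩ | ⟨-, a, -⟩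
  · omega
  · have h3 : ip Λ.B (Λ.C Λ.k0) c ≤ ∑ k, ip Λ.B (Λ.C k) c :=
      Finset.single_le_sum (f := fun k => ip Λ.B (Λ.C k) c) (fun k _ => l.Cc c hc a k)
        (Finset.mem_univ _)
    rw [l.sumK, b, ip_comm ns.sym] at h3
    change ip Λ.B c Λ.F ≤ _ at h3
    by_cases h4 : ip Λ.B c Λ.F = 2
    · exact ⟨c, h4⟩
    · exact ⟨c + c, by rw [ip_add_left]; omega⟩
  · omega

theorem zero (ns : NS Λ) (l : L1 Λ) (ct : CT Λ) (z : ι → ℤ) (hz : Λ.Nef z)
    (h0 : ip Λ.B z Λ.F = 0) (h1 : ∀ c ∈ Λ.P, ip Λ.B c c = -1 → ip Λ.B z c = 0) : z = 0 := by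
  obtain ⟨a, b⟩ := l.hz (toR z) (by rw [ip_toR, h0, Int.cast_zero])
  have c : (0 : ℝ) ≤ ip Λ.B (toR z) (toR z) := by
    rw [ip_toR]; exact_mod_cast (l.ne z hz).1
  obtain ⟨q, e, hq, -⟩ := b (le_antisymm a c)
  have q0 : q = 0 := by
    refine hq.elim id fun f0 => ?_
    obtain ⟨c, hc, c1, c2⟩ := hor ns l ct f0
    have e2 : ip Λ.B (toR z) (toR c) = 0 := by rw [ip_toR, h1 c hc c1, Int.cast_zero]
    rw [e, ip_smul_left, ip_toR, ip_comm ns.sym] at e2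
    exact (mul_eq_zero.1 e2).resolve_right (Int.cast_ne_zero.2 c2.ne')
  refine toR_inj ?_
  rw [e, q0, zero_smul, toR_zero]

theorem span (ns : NS Λ) (l : L1 Λ) (U : Submodule ℝ (ι → ℝ)) (hU : ∀ c ∈ Λ.P, toR c ∈ U) :
    U = ⊤ := by
  classical
  have h1 : ∀ e ∈ Λ.Ef, toR e ∈ U := fun e he => by
    induction he using AddSubmonoid.closure_induction with
    | mem c hc => exact hU c hc
    | zero => rw [toR_zero]; exact U.zero_mem
    | add a b _ _ ha hb => rw [toR_add]; exact U.add_mem ha hb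
  have h2 : ∀ c, toR c ∈ U := fun c => by
    obtain ⟨y, a, b⟩ := ns.dif c
    have := U.sub_mem (h1 _ (l.ne _ a).2) (h1 _ (l.ne _ b).2)
    rwa [← toR_sub, sub_sub_cancel] at this
  refine eq_top_iff.2 fun v _ => ?_
  have e : v = ∑ i, v i • toR (Pi.single i 1) := by
    funext j
    simp [toR, Pi.single_apply]
  rw [e]
  exact U.sum_mem fun i _ => U.smul_mem _ (h2 _)

end Hz

theorem hz_stmt : HzStmt := fun _ _ _ _ _ ns _ l ct =>
  ⟨Hz.con ns l, Hz.hor ns l ct, Hz.two ns l ct, Hz.zero ns l ct, Hz.span ns l⟩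

end Pool.Agent.MP_20d318_ag.CB

end MrgPart4

-- ======== part 5: formerly Pool.Agent.MP_20d318_ag.CB.KeyA
section MrgPart5

/-! The exceptional classes orthogonal to the distinguished component. -/

set_option autoImplicit false

namespace Pool.Agent.MP_20d318_ag.CB

namespace KeyA

variable {ι κ : Type} [Fintype ι] [Fintype κ] {Λ : Ld ι κ} {e e' c t : ι → ℤ}

/-- Exceptional classes orthogonal to `F`. -/
structure J (Λ : Ld ι κ) (e : ι → ℤ) : Prop where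
  ef : e ∈ Λ.Ef
  sq : ip Λ.B e e = -1
  can : ip Λ.B Λ.K e = -1
  vert : ip Λ.B e Λ.F = 0
  pos : ∀ k, 0 ≤ ip Λ.B (Λ.C k) e

/-- Those of least degree in their class. -/
def I (Λ : Ld ι κ) : Set (ι → ℤ) :=
  {e | J Λ e ∧ ∀ e', J Λ e' → ip Λ.B e e' = -1 → ip Λ.B Λ.h e ≤ ip Λ.B Λ.h e'}

theorem hzZ (l1 : L1 Λ) {v : ι → ℤ} (h : ip Λ.B v Λ.F = 0) : ip Λ.B v v ≤ 0 ∧
    (ip Λ.B v v = 0 → ip Λ.B Λ.K v = 0 ∧ ∃ q : ℝ, toR v = q • toR Λ.F) := by
  obtain ⟨h1, h2⟩ := l1.hz (toR v) (by rw [ip_toR, h, Int.cast_zero])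
  rw [ip_toR] at h1 h2
  refine ⟨by exact_mod_cast h1, fun h0 => ?_⟩
  obtain ⟨q, q1, -, q2⟩ := h2 (by rw [h0, Int.cast_zero])
  rw [ip_toR] at q2
  exact ⟨by exact_mod_cast q2, q, q1⟩

theorem two_val (ns : NS Λ) (l1 : L1 Λ) (a : J Λ e) (b : J Λ e') :
    ip Λ.B e e' = -1 ∨ ip Λ.B e e' = 0 := by
  have h1 := (hzZ l1 (v := e - e') (by rw [ip_sub_left, a.vert, b.vert, sub_zero])).1
  obtain ⟨h2, h3⟩ := hzZ l1 (v := e + e') (by rw [ip_add_left, a.vert, b.vert, add_zero])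
  simp only [ip_sub_left, ip_sub_right, ip_add_left, ip_add_right, a.sq, b.sq, a.can, b.can,
    ip_comm ns.sym e' e] at h1 h2 h3
  have : ip Λ.B e e' ≠ 1 := fun k => by
    have := (h3 (by omega)).1
    omega
  omega

theorem sim (ns : NS Λ) (l1 : L1 Λ) (a : J Λ e) (b : J Λ e') (h : ip Λ.B e e' = -1) :
    (∀ y, ip Λ.B y Λ.F = 0 → ip Λ.B y e = ip Λ.B y e') ∧
      (ip Λ.B Λ.h e = ip Λ.B Λ.h e' → e = e') := by
  obtain ⟨-, q, hq⟩ := (hzZ l1 (v := e - e') (by rw [ip_sub_left, a.vert, b.vert, sub_zero])).2 (by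
    simp only [ip_sub_left, ip_sub_right, a.sq, b.sq, ip_comm ns.sym e' e, h]
    rfl)
  have key : ∀ y, ((ip Λ.B y e - ip Λ.B y e' : ℤ) : ℝ) = q * (ip Λ.B y Λ.F : ℤ) := fun y => by
    rw [← ip_sub_right, ← ip_toR, hq, ip_smul_right, ip_toR]
  refine ⟨fun y hy => ?_, fun k => ?_⟩
  · have := key y
    rw [hy, Int.cast_zero, mul_zero, Int.cast_eq_zero] at this
    omega
  · have := key Λ.h
    rw [k, sub_self, Int.cast_zero, eq_comm, mul_eq_zero, Int.cast_eq_zero] at this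
    have q0 : q = 0 := this.resolve_right (ns.hpos _ (ns.memC _)).ne'
    rw [q0, zero_smul, ← toR_zero] at hq
    exact sub_eq_zero.1 (toR_inj hq)

theorem h_nonneg (ns : NS Λ) (l1 : L1 Λ) (h : c ∈ Λ.Ef) : 0 ≤ ip Λ.B Λ.h c :=
  l1.efn _ (fun d hd => (ns.hpos d hd).le) c h

theorem rep (ns : NS Λ) (l1 : L1 Λ) (a : J Λ e) : ∃ e0 ∈ I Λ, ip Λ.B e0 e = -1 := by
  obtain ⟨n, ⟨e0, a0, a1, rfl⟩, hn⟩ := Int.exists_least_of_bdd
    (P := fun n => ∃ e', J Λ e' ∧ ip Λ.B e' e = -1 ∧ ip Λ.B Λ.h e' = n)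
    ⟨0, fun z ⟨e', b, _, k⟩ => k ▸ h_nonneg ns l1 b.ef⟩ ⟨_, e, a, a.sq, rfl⟩
  refine ⟨e0, ⟨a0, fun e' b k => hn _ ⟨e', b, ?_, rfl⟩⟩, a1⟩
  rw [← (sim ns l1 a0 a a1).1 e' b.vert, ip_comm ns.sym, k]

theorem orth (ns : NS Λ) (l1 : L1 Λ) (a : e ∈ I Λ) (b : e' ∈ I Λ) (n : e ≠ e') :
    ip Λ.B e e' = 0 :=
  (two_val ns l1 a.1 b.1).resolve_left fun k => n ((sim ns l1 a.1 b.1 k).2
    (le_antisymm (a.2 e' b.1 k) (b.2 e a.1 (by rw [ip_comm ns.sym, k]))))

/-- The inequality of Bessel. -/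
theorem bessel (ns : NS Λ) (l1 : L1 Λ) (S : Finset (ι → ℤ)) (hS : ∀ e ∈ S, e ∈ I Λ)
    (hc : ip Λ.B c Λ.F = 0) : ip Λ.B c c + ∑ e ∈ S, ip Λ.B c e ^ 2 ≤ 0 ∧
      (ip Λ.B c c + ∑ e ∈ S, ip Λ.B c e ^ 2 = 0 → ip Λ.B Λ.K c = ∑ e ∈ S, ip Λ.B c e) := by
  have lin : ∀ y, ip Λ.B y (c + ∑ e ∈ S, ip Λ.B c e • e) =
      ip Λ.B y c + ∑ e ∈ S, ip Λ.B c e * ip Λ.B y e := fun y => by
    simp only [ip_add_right, ip_sum_right, ip_smul_right]
  have z : ∀ e ∈ S, ip Λ.B (c + ∑ e ∈ S, ip Λ.B c e • e) e = 0 := fun e he => by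
    rw [ip_comm ns.sym, lin, Finset.sum_eq_single_of_mem e he fun e' he' n => by
      rw [orth ns l1 (hS e he) (hS e' he') n.symm, mul_zero], (hS e he).1.sq, ip_comm ns.sym e c]
    ring
  have hsq : ip Λ.B (c + ∑ e ∈ S, ip Λ.B c e • e) (c + ∑ e ∈ S, ip Λ.B c e • e) =
      ip Λ.B c c + ∑ e ∈ S, ip Λ.B c e ^ 2 := by
    have z' : ∑ e ∈ S, ip Λ.B c e * ip Λ.B (c + ∑ e ∈ S, ip Λ.B c e • e) e = 0 :=
      Finset.sum_eq_zero fun e he => by rw [z e he, mul_zero]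
    rw [lin, z', add_zero, ip_comm ns.sym, lin]
    simp only [sq]
  obtain ⟨h1, h2⟩ := hzZ l1 (v := c + ∑ e ∈ S, ip Λ.B c e • e) (by
    rw [ip_comm ns.sym, lin, ip_comm ns.sym, hc, zero_add]
    exact Finset.sum_eq_zero fun e he => by rw [ip_comm ns.sym Λ.F, (hS e he).1.vert, mul_zero])
  rw [hsq] at h1 h2
  refine ⟨h1, fun k => ?_⟩
  have := (h2 k).1
  rw [lin, Finset.sum_congr rfl fun e he => by rw [(hS e he).1.can, mul_neg_one],
    Finset.sum_neg_distrib] at this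
  omega

theorem four (ns : NS Λ) (l1 : L1 Λ) (m4 : M4 Λ) (S : Finset (ι → ℤ)) (hS : ∀ e ∈ S, e ∈ I Λ)
    {k : κ} (hk : k ≠ Λ.k0) : ∑ e ∈ S, ip Λ.B (Λ.C k) e ^ 2 ≤ 4 := by
  have := (bessel ns l1 S hS (c := Λ.C k) (ns.disj k _ hk)).1
  rw [(m4 k hk).1] at this
  omega

theorem finite (ns : NS Λ) (l1 : L1 Λ) (m4 : M4 Λ) : (I Λ).Finite := by
  refine (Set.finite_iUnion (f := fun k : κ => {e | e ∈ I Λ ∧ k ≠ Λ.k0 ∧ ip Λ.B (Λ.C k) e ≠ 0})
    fun k => ?_).subset fun e he => ?_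
  · by_contra h
    obtain ⟨S, s1, s2⟩ := Set.Infinite.exists_subset_card_eq h 5
    obtain ⟨e, he⟩ := Finset.card_pos.1 (show 0 < S.card by omega)
    have h1 := four ns l1 m4 S (fun e he => (s1 he).1) (s1 he).2.1
    have h2 := Finset.card_nsmul_le_sum S (fun e => ip Λ.B (Λ.C k) e ^ 2) 1 fun e he =>
      Int.add_one_le_of_lt (sq_pos_of_ne_zero (s1 he).2.2)
    rw [s2] at h2
    simp only [nsmul_eq_mul, mul_one, Nat.cast_ofNat] at h2
    omega
  · have h1 := l1.sumK e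
    rw [he.1.can] at h1
    obtain ⟨k, -, hk⟩ := Finset.exists_ne_zero_of_sum_ne_zero (h1.trans_ne (by norm_num))
    refine Set.mem_iUnion.2 ⟨k, he, fun k0 => hk ?_, hk⟩
    rw [k0, ip_comm ns.sym]
    exact he.1.vert

theorem one (ns : NS Λ) (l1 : L1 Λ) (hc : c ∈ Λ.P) (h1 : ip Λ.B c c = -1)
    (h2 : ip Λ.B c Λ.F = 0) : c ∈ I Λ := by
  rcases l1.neg c hc (by omega) with ⟨k, -, -, k1, -⟩ | ⟨k1, -, k2⟩ | ⟨-, k1, -⟩
  · omega
  · refine ⟨⟨AddSubmonoid.subset_closure hc, h1, k2, h2, l1.Cc c hc k1⟩, fun e' b k => ?_⟩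
    have := h_nonneg ns l1 (l1.comp e' b.ef c hc (by rw [ip_comm ns.sym]; omega))
    rw [ip_sub_right] at this
    omega
  · omega

section two

variable (ns : NS Λ) (l1 : L1 Λ) (ht : t ∈ Λ.P) (h2 : ip Λ.B t t = -2) (hK : ip Λ.B Λ.K t = 0)
  (hC : ∀ k, ip Λ.B (Λ.C k) t = 0)

include ns hC in
theorem tF : ip Λ.B t Λ.F = 0 := by
  rw [ip_comm ns.sym]
  exact hC _

include ns ht h2 hK hC in
theorem up (a : J Λ e) (h : ip Λ.B t e = 1) : J Λ (e + t) :=
  ⟨add_mem a.ef (AddSubmonoid.subset_closure ht), by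
    simp only [ip_add_left, ip_add_right, a.sq, h2, ip_comm ns.sym e t, h]
    rfl, by rw [ip_add_right, a.can, hK, add_zero],
    by rw [ip_add_left, a.vert, tF ns hC, add_zero], fun k => by
      rw [ip_add_right, hC, add_zero]
      exact a.pos k⟩

include ns l1 ht h2 hK hC in
theorem down (a : e' ∈ I Λ) (h : ip Λ.B t e' = -1) : ∃ e ∈ I Λ, ip Λ.B t e = 1 ∧ e' = e + t := by
  have b : J Λ (e' - t) := ⟨l1.comp e' a.1.ef t ht (by rw [ip_comm ns.sym]; omega), by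
    simp only [ip_sub_left, ip_sub_right, a.1.sq, h2, ip_comm ns.sym e' t, h]
    rfl, by rw [ip_sub_right, a.1.can, hK, sub_zero],
    by rw [ip_sub_left, a.1.vert, tF ns hC, sub_zero], fun k => by
      rw [ip_sub_right, hC, sub_zero]
      exact a.1.pos k⟩
  obtain ⟨e, e1, e2⟩ := rep ns l1 b
  have s := (sim ns l1 e1.1 b e2).1
  have s1 := s t (tF ns hC)
  have s2 := s e' a.1.vert
  have s3 := e1.2 _ b e2
  rw [ip_sub_right] at s1 s2 s3
  have s4 : ip Λ.B t e = 1 := by omega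
  have b' := up ns ht h2 hK hC e1.1 s4
  have s5 : ip Λ.B e' (e + t) = -1 := by
    rw [ip_add_right, s2, a.1.sq]
    ring
  have s6 := a.2 _ b' s5
  refine ⟨e, e1, s4, (sim ns l1 a.1 b' s5).2 (le_antisymm s6 ?_)⟩
  rw [ip_add_right]
  omega

include ns l1 ht h2 hK hC in
theorem up_mem (a : e ∈ I Λ) (h : ip Λ.B t e = 1) : e + t ∈ I Λ := by
  classical
  have b := up ns ht h2 hK hC a.1 h
  obtain ⟨e', e1, e2⟩ := rep ns l1 b
  have s1 := (sim ns l1 e1.1 b e2).1 t (tF ns hC)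
  rw [ip_add_right] at s1
  obtain ⟨e3, c1, c2, rfl⟩ := down ns l1 ht h2 hK hC e1 (by omega)
  by_cases n : e = e3
  · rwa [n]
  · have := (bessel ns l1 {e, e3} (by simp [a, c1]) (tF ns hC)).2
    rw [Finset.sum_pair n, Finset.sum_pair n, h, c2, h2, hK] at this
    exact absurd (this (by norm_num)) (by norm_num)

include ns l1 ht h2 hK hC in
theorem two : (∀ e ∈ I Λ, ip Λ.B e t = 0) ∨ ∃ e ∈ I Λ, e + t ∈ I Λ ∧ ip Λ.B e t = 1 ∧
    ∀ e' ∈ I Λ, e' ≠ e → e' ≠ e + t → ip Λ.B e' t = 0 := by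
  classical
  by_cases h : ∀ e ∈ I Λ, ip Λ.B e t = 0
  · exact Or.inl h
  obtain ⟨e, e1, e2⟩ : ∃ e ∈ I Λ, ip Λ.B t e = 1 := by
    push Not at h
    obtain ⟨e, e1, e2⟩ := h
    have := (bessel ns l1 {e} (by simp [e1]) (tF ns hC)).1
    rw [Finset.sum_singleton, h2] at this
    rw [ip_comm ns.sym] at e2
    have b1 : ip Λ.B t e ≤ 1 := by nlinarith
    have b2 : -1 ≤ ip Λ.B t e := by nlinarith
    by_cases k : ip Λ.B t e = 1
    · exact ⟨e, e1, k⟩
    · obtain ⟨e', c1, c2, -⟩ := down ns l1 ht h2 hK hC e1 (by omega)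
      exact ⟨e', c1, c2⟩
  have e3 := up_mem ns l1 ht h2 hK hC e1 e2
  refine Or.inr ⟨e, e1, e3, by rw [ip_comm ns.sym, e2], fun e' c1 n1 n2 => ?_⟩
  have e4 : ip Λ.B t (e + t) = -1 := by
    rw [ip_add_right, e2, h2]
    rfl
  have n3 : e ≠ e + t := fun k => by
    rw [← k] at e4
    omega
  have := (bessel ns l1 {e', e, e + t} (by simp [e1, e3, c1]) (tF ns hC)).1
  rw [Finset.sum_insert (by simp [n1, n2]), Finset.sum_pair n3, e2, e4, h2] at this
  rw [ip_comm ns.sym]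
  exact pow_eq_zero_iff two_ne_zero |>.1 (le_antisymm (by omega) (sq_nonneg _))

end two

end KeyA

open KeyA in
theorem keyA_stmt : KeyAStmt := by
  intro ι κ _ _ Λ ns l1 m4
  have fin := finite ns l1 m4
  refine ⟨fin.toFinset, fun e he => ?_, fun e he e' he' => ?_, fun c hc h1 h2 => ?_,
    fun c hc h => ?_, fun k hk => four ns l1 m4 _ (fun e he => fin.mem_toFinset.1 he) hk⟩
  · obtain ⟨a, -⟩ := fin.mem_toFinset.1 he
    exact ⟨a.ef, a.sq, a.can, a.vert, a.pos⟩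
  · exact orth ns l1 (fin.mem_toFinset.1 he) (fin.mem_toFinset.1 he')
  · exact fin.mem_toFinset.2 (one ns l1 hc h1 h2)
  · simp only [Set.Finite.mem_toFinset]
    rcases l1.neg c hc (by omega) with ⟨k, -, -, k1, -⟩ | ⟨-, k1, -⟩ | ⟨-, -, k1, k2⟩
    · omega
    · omega
    · exact two ns l1 hc h k1 k2

end Pool.Agent.MP_20d318_ag.CB

end MrgPart5

-- ======== part 6: formerly Pool.Agent.MP_20d318_ag.CB.KeyB
section MrgPart6

/-! The curves of square `-1` that meet the distinguished component. -/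

set_option autoImplicit false

namespace Pool.Agent.MP_20d318_ag.CB

namespace KeyB

variable {ι κ : Type} [Fintype ι] [Fintype κ] {Λ : Ld ι κ} {I : Finset (ι → ℤ)} {c : ι → ℤ}

theorem nefF (N : NS Λ) (L : L1 Λ) : Λ.Nef Λ.F := L.pn _ (N.memC _) N.sq0

theorem nn (N : NS Λ) (L : L1 Λ) (S : IS Λ I) (hc : c ∈ Λ.P) (hF : ip Λ.B c Λ.F ≠ 0) :
    ∀ e ∈ I, 0 ≤ ip Λ.B e c := fun e he => by
  by_contra k
  have a := L.efn _ (nefF N L) _ (L.comp e (S.mem e he).1 c hc (not_le.1 k))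
  have b := nefF N L c hc
  rw [ip_sub_right, ip_comm N.sym _ e, (S.mem e he).2.2.2.1] at a
  rw [ip_comm N.sym] at hF
  omega

omit [Fintype κ] in
theorem ipb (c g : ι → ℤ) : ip Λ.B (c + ∑ e ∈ I, ip Λ.B e c • e) g =
    ip Λ.B c g + ∑ e ∈ I, ip Λ.B e c * ip Λ.B e g := by
  simp only [ip_add_left, ip_sum_left, ip_smul_left]

theorem nef (N : NS Λ) (L : L1 Λ) (S : IS Λ I) (hc : c ∈ Λ.P) (h1 : ip Λ.B c c = -1)
    (hF : ip Λ.B c Λ.F ≠ 0) {e0 : ι → ℤ} (h0 : e0 ∈ I) (h2 : ip Λ.B e0 c ≠ 0) :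
    Λ.Nef (c + ∑ e ∈ I, ip Λ.B e c • e) := by
  classical
  have n := nn N L S hc hF
  intro g hg
  rcases le_or_gt 0 (ip Λ.B g g) with k | k
  · rw [ip_comm N.sym]
    refine L.efn g (L.pn g hg k) _ (add_mem (AddSubmonoid.subset_closure hc)
      (sum_mem fun e he => ?_))
    rw [← Int.toNat_of_nonneg (n e he), natCast_zsmul]
    exact nsmul_mem (S.mem e he).1 _
  rw [ipb]
  by_cases gc : c = g
  · subst gc
    have a := Finset.single_le_sum (f := fun e => ip Λ.B e c * ip Λ.B e c)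
      (fun e _ => mul_self_nonneg _) h0
    have b := mul_self_pos.2 h2
    omega
  have p := N.pos c hc g hg gc
  have tw : (∀ e ∈ I, 0 ≤ ip Λ.B e g) → 0 ≤ ip Λ.B c g + ∑ e ∈ I, ip Λ.B e c * ip Λ.B e g :=
    fun h => add_nonneg p (Finset.sum_nonneg fun e he => mul_nonneg (n e he) (h e he))
  rcases L.neg g hg k with ⟨l, -, rfl, -⟩ | ⟨-, m, -⟩ | ⟨-, m, -⟩
  · exact tw fun e he => ip_comm N.sym (Λ.C l) e ▸ (S.mem e he).2.2.2.2 l
  · by_cases gF : ip Λ.B g Λ.F = 0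
    · have gI := S.one g hg m gF
      rw [Finset.sum_eq_single_of_mem g gI fun e he ne => by rw [S.orth e he g gI ne, mul_zero], m,
        ip_comm N.sym g c]
      omega
    · exact tw (nn N L S hg gF)
  · rcases S.two g hg m with z | ⟨e, e1, e2, e3, e4⟩
    · exact tw fun e he => (z e he).ge
    · have ne : e ≠ e + g := fun h => by
        have := congrArg (fun x => ip Λ.B x g) h
        simp only [ip_add_left] at this
        omega
      rw [Finset.sum_eq_add_of_mem e (e + g) e1 e2 ne fun x hx h => by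
        rw [e4 x hx h.1 h.2, mul_zero], ip_add_left, ip_add_left, e3, m, ip_comm N.sym g c]
      omega

end KeyB

open KeyB in
theorem keyB_stmt : KeyBStmt := by
  classical
  intro ι κ _ _ Λ I N L M S c hc h1 hF
  by_cases z : ∀ e ∈ I, ip Λ.B e c = 0
  · exact Or.inl z
  simp only [not_forall] at z
  obtain ⟨e, he, h2⟩ := z
  have n := nn N L S hc hF
  have nb := nef N L S hc h1 hF he h2
  obtain ⟨c1, c2⟩ : c ∉ Set.range Λ.C ∧ ip Λ.B Λ.K c = -1 := by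
    rcases L.neg c hc (by omega) with ⟨l, -, -, m, -⟩ | ⟨m, -, m'⟩ | ⟨-, m, -⟩
    exacts [by omega, ⟨m, m'⟩, by omega]
  have c3 := L.Cc c hc c1
  have c4 := L.sumK c
  rw [c2, ← Finset.add_sum_erase _ _ (Finset.mem_univ Λ.k0)] at c4
  have c5 := Finset.sum_nonneg (s := Finset.univ.erase Λ.k0) fun k _ => c3 k
  have g := L.efn _ nb _ L.G
  rw [ipb, ip_add_right, ip_comm N.sym c Λ.K, c2, ip_comm N.sym c Λ.F,
    Finset.sum_congr rfl (g := fun e => -ip Λ.B e c) fun x hx => by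
      rw [ip_add_right, ip_comm N.sym x Λ.K, (S.mem x hx).2.2.1, (S.mem x hx).2.2.2.1]
      ring, Finset.sum_neg_distrib, ← Finset.add_sum_erase _ _ he] at g
  have g1 := Finset.sum_nonneg (s := I.erase e) fun x hx => n x (Finset.mem_of_mem_erase hx)
  have g2 := n e he
  have g3 : ip Λ.B Λ.F c = ip Λ.B (Λ.C Λ.k0) c := rfl
  have e1 : ip Λ.B e c = 1 := by omega
  have e2 : ∀ x ∈ I, x ≠ e → ip Λ.B x c = 0 := fun x hx ne =>
    (Finset.sum_eq_zero_iff_of_nonneg fun x hx => n x (Finset.mem_of_mem_erase hx)).1 (by omega) x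
      (Finset.mem_erase.2 ⟨ne, hx⟩)
  have e3 : ∀ k, k ≠ Λ.k0 → ip Λ.B (Λ.C k) c = 0 := fun k ne =>
    (Finset.sum_eq_zero_iff_of_nonneg fun k _ => c3 k).1 (by omega) k
      (Finset.mem_erase.2 ⟨ne, Finset.mem_univ k⟩)
  refine Or.inr ⟨e, he, e1, e2, e3, fun k l k0 l0 kl ke le => ?_⟩
  rw [Finset.sum_eq_single_of_mem e he fun x hx ne => by rw [e2 x hx ne, zero_smul], e1,
    one_smul] at nb
  obtain ⟨-, m1, m2, -⟩ := S.mem e he
  have b1 : ip Λ.B (c + e) (c + e) = 0 := by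
    rw [ip_add_left, ip_add_right, ip_add_right, h1, m1, ip_comm N.sym c e, e1]
    rfl
  have b2 : ip Λ.B Λ.K (c + e) = -2 := by
    rw [ip_add_right, c2, m2]
    rfl
  have b3 : ip Λ.B (Λ.C k) (c + e) = 1 := by rw [ip_add_right, e3 k k0, ke, zero_add]
  have b4 : ip Λ.B (Λ.C l) (c + e) = 1 := by rw [ip_add_right, e3 l l0, le, zero_add]
  generalize c + e = b at *
  have b5 := ip_comm N.sym b (Λ.C k)
  have b6 := ip_comm N.sym b (Λ.C l)
  have b7 := ip_comm N.sym b Λ.K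
  have d1 := N.disj k l kl
  have d2 := N.disj l k kl.symm
  obtain ⟨d3, d4⟩ := M k k0
  obtain ⟨d5, d6⟩ := M l l0
  refine (N.rr _ ?_).resolve_right fun h => ?_
  · simp only [ip_add_left, ip_add_right, ip_sub_left, ip_sub_right, ip_smul_left, ip_smul_right]
    omega
  · have := L.efn b nb _ h
    simp only [ip_add_right, ip_sub_right, ip_smul_right] at this
    omega

end Pool.Agent.MP_20d318_ag.CB

end MrgPart6

-- ======== part 7: formerly Pool.Agent.MP_20d318_ag.CB.KeyC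
section MrgPart7

/-! The decomposition of `L - ∑ x k • C k`. -/

set_option autoImplicit false

namespace Pool.Agent.MP_20d318_ag.CB

open Finset

namespace KeyC

variable {ι κ : Type} [Fintype ι] [Fintype κ]

theorem two_cases {f : κ → ℤ} (h0 : ∀ k, 0 ≤ f k) (h : ∑ k, f k = 2) :
    (∃ k, ∀ l, l ≠ k → f l = 0) ∨
      ∃ k l, k ≠ l ∧ f k = 1 ∧ f l = 1 ∧ ∀ j, j ≠ k → j ≠ l → f j = 0 := by
  classical
  refine or_iff_not_imp_left.2 fun hn => ?_
  push Not at hn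
  obtain ⟨k, -, hk⟩ := exists_ne_zero_of_sum_ne_zero (h.trans_ne two_ne_zero)
  obtain ⟨l, n, hl⟩ := hn k
  rw [← add_sum_erase _ _ (mem_univ k), ← add_sum_erase _ _ (mem_erase.2 ⟨n, mem_univ l⟩)] at h
  have a := sum_nonneg (s := (univ.erase k).erase l) fun j _ => h0 j
  have := h0 k
  have := h0 l
  exact ⟨k, l, n.symm, by omega, by omega, fun j j1 j2 =>
    (sum_eq_zero_iff_of_nonneg fun j _ => h0 j).1 (by omega : ∑ j ∈ (univ.erase k).erase l, f j = 0)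
      j (by simp [j1, j2])⟩

theorem con_empty {Λ : Ld ι κ} (h : NS Λ) (h4 : M4 Λ) {k l : κ} (hk : k ≠ Λ.k0) (hl : l ≠ Λ.k0)
    (n : k ≠ l) {b : ι → ℤ} (hb : b ∈ Λ.Con) : False := by
  obtain ⟨-, b0, -, hb⟩ := hb
  have z : ∀ v, ip Λ.B v b = 0 → ip Λ.B v v = 0 := fun v hv => by
    obtain ⟨m, rfl⟩ := hb v hv
    rw [ip_smul_right, hv, mul_zero]
  have a := z (ip Λ.B (Λ.C l) b • Λ.C k - ip Λ.B (Λ.C k) b • Λ.C l) (by
    rw [ip_sub_left, ip_smul_left, ip_smul_left]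
    ring)
  simp only [ip_sub_left, ip_sub_right, ip_smul_left, ip_smul_right, (h4 k hk).1, (h4 l hl).1,
    h.disj k l n, h.disj l k n.symm] at a
  have := z (Λ.C k) (by nlinarith [sq_nonneg (ip Λ.B (Λ.C l) b), sq_nonneg (ip Λ.B (Λ.C k) b)])
  rw [(h4 k hk).1] at this
  omega

end KeyC

open KeyC in
theorem keyC_stmt : KeyCStmt := by
  classical
  intro ι κ _ _ Λ ns l1 ct hI
  by_cases h2 : ∀ k l, k ≠ Λ.k0 → l ≠ Λ.k0 → k = l
  · refine ⟨∅, by simp, fun L N x _ _ x0 hk e => ?_⟩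
    obtain ⟨k, h⟩ : ∃ k, ∀ l, l ≠ k → x l = 0 := by
      by_cases m : ∃ k, k ≠ Λ.k0
      · obtain ⟨k, m⟩ := m
        exact ⟨k, fun l n => by_contra fun n' => n (h2 l k (fun e => n' (e ▸ x0)) m)⟩
      · exact ⟨Λ.k0, fun l n => absurd ⟨l, n⟩ m⟩
    rw [sum_empty, sub_zero, e, sum_eq_single k (fun l _ n => by rw [h l n, zero_smul]) (by simp)]
    exact hk k
  have h4 : M4 Λ := l1.two.resolve_right h2
  obtain ⟨I, is, kb⟩ := hI h4
  push Not at h2
  obtain ⟨k1, k2, n1, n2, n3⟩ := h2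
  refine ⟨I, fun e he => (is.mem e he).1, fun L N x hL x1 x0 hk hN => ct _ ?_⟩
  have cm := ip_comm (R := ℤ) ns.sym
  obtain ⟨p, hp⟩ : ∃ p : (ι → ℤ) → ℝ, ∀ c, ip Λ.B L (toR c) = p c := ⟨_, fun _ => rfl⟩
  obtain ⟨n, hn⟩ : ∃ n : (ι → ℤ) → ℝ, ∀ c, ip Λ.B N (toR c) = n c := ⟨_, fun _ => rfl⟩
  have np : ∀ c, n c = p c - ∑ k, x k * (ip Λ.B (Λ.C k) c : ℤ) := fun c => by
    simp only [← hn, ← hp, hN, ip_sub_left, ip_sum_left, ip_smul_left, ip_toR]
  have p0 : ∀ c ∈ Λ.P, 0 ≤ p c := fun c hc => hp c ▸ hL c hc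
  have pk : ∀ k, ∀ c ∈ Λ.Ef, x k * (ip Λ.B (Λ.C k) c : ℤ) ≤ p c := fun k c hc => by
    have := l1.efr _ (hk k) c hc
    rwa [ip_sub_left, ip_smul_left, ip_toR, hp, sub_nonneg] at this
  have one : ∀ c ∈ Λ.Ef, ∀ k, (∀ l, l ≠ k → x l = 0 ∨ ip Λ.B (Λ.C l) c = 0) → 0 ≤ n c :=
    fun c hc k h => by
      rw [np, sum_eq_single k (fun l _ m => by rcases h l m with e | e <;> simp [e]) (by simp),
        sub_nonneg]
      exact pk k c hc
  have U : ∀ e ∈ I, max 0 (-n e) = 0 ∨ ∃ k l, k ≠ l ∧ ip Λ.B (Λ.C k) e = 1 ∧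
      ip Λ.B (Λ.C l) e = 1 ∧ (∀ j, j ≠ k → j ≠ l → ip Λ.B (Λ.C j) e = 0) ∧
      n e = p e - (x k + x l) ∧ max 0 (-n e) ≤ x k ∧ max 0 (-n e) ≤ x l := fun e he => by
    obtain ⟨e1, -, e2, -, e3⟩ := is.mem e he
    rcases two_cases e3 (by rw [l1.sumK, e2]; rfl) with ⟨k, h⟩ | ⟨k, l, m, a, b, h⟩
    · exact Or.inl (max_eq_left (neg_nonpos.2 (one e e1 k fun l m => Or.inr (h l m))))
    · have c : n e = p e - (x k + x l) := by
        rw [np, sum_eq_add_of_mem k l (mem_univ _) (mem_univ _) m fun j _ m => by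
          simp [h j m.1 m.2], a, b]
        simp
      have c1 := pk k e e1
      have c2 := pk l e e1
      rw [a, Int.cast_one, mul_one] at c1
      rw [b, Int.cast_one, mul_one] at c2
      exact Or.inr ⟨k, l, m, a, b, h, c, max_le (x1 k) (by linarith), max_le (x1 l) (by linarith)⟩
  have N1 : ∀ c, ip Λ.B (N - ∑ e ∈ I, max 0 (-ip Λ.B N (toR e)) • toR e) (toR c) =
      n c - ∑ e ∈ I, max 0 (-n e) * (ip Λ.B e c : ℤ) := fun c => by
    simp only [hn, ip_sub_left, ip_sum_left, ip_smul_left, ip_toR]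
  have hC : ∀ k, ∑ e ∈ I, max 0 (-n e) * (ip Λ.B e (Λ.C k) : ℤ) ≤ n (Λ.C k) := fun k => by
    have a := p0 _ (ns.memC k)
    rw [np, sum_eq_single k (fun l _ m => by simp [ns.disj l k m]) (by simp)]
    by_cases m : k = Λ.k0
    · rw [sum_eq_zero fun e he => by
        rw [m, show ip Λ.B e (Λ.C Λ.k0) = 0 from (is.mem e he).2.2.2.1]; simp, m, x0]
      simpa [m] using a
    · have b : ∑ e ∈ I, max 0 (-n e) * (ip Λ.B e (Λ.C k) : ℤ) ≤
          x k * (∑ e ∈ I, ip Λ.B (Λ.C k) e ^ 2 : ℤ) := by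
        rw [Int.cast_sum, mul_sum]
        refine sum_le_sum fun e he => ?_
        rw [cm e]
        rcases U e he with u | ⟨j, l, -, u1, u2, u3, -, u4, u5⟩
        · rw [u, zero_mul]
          exact mul_nonneg (x1 k) (Int.cast_nonneg (sq_nonneg _))
        · by_cases c1 : k = j
          · simpa [c1, u1] using u4
          by_cases c2 : k = l
          · simpa [c2, u2] using u5
          simp [u3 k c1 c2]
      have c := mul_le_mul_of_nonneg_left (Int.cast_le (R := ℝ).2 (is.four k m)) (x1 k)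
      rw [(h4 k m).1]
      push_cast at b c ⊢
      linarith
  intro c hc
  rw [N1, sub_nonneg]
  rcases hc with (⟨c1, c2⟩ | ⟨k, rfl⟩) | hc
  rotate_left
  · exact hC k
  · exact (con_empty ns h4 n1 n2 n3 hc).elim
  have ce : c ∈ Λ.Ef := AddSubmonoid.subset_closure c1
  have a := p0 c c1
  rcases l1.neg c c1 c2 with ⟨k, -, rfl, -⟩ | ⟨c3, c4, c5⟩ | ⟨-, c4, -, c5⟩
  · exact hC k
  · by_cases cF : ip Λ.B c Λ.F = 0
    · have ci := is.one c c1 c4 cF
      rw [sum_eq_single c (fun e he m => by simp [is.orth e he c ci m]) (fun m => absurd ci m), c4]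
      have := le_max_right 0 (-n c)
      push_cast
      linarith
    have cF' : ip Λ.B (Λ.C Λ.k0) c ≠ 0 := fun m => cF ((cm _ _).trans m)
    rcases kb c c1 c4 cF with h | ⟨e, he, e1, e2, e3, e4⟩
    · rw [sum_eq_zero fun e he => by simp [h e he]]
      rcases two_cases (l1.Cc c c1 c3) (by rw [l1.sumK, c5]; rfl) with ⟨k, h⟩ | ⟨k, l, -, -, -, h⟩
      · exact one c ce k fun l m => Or.inr (h l m)
      · by_cases m : Λ.k0 = k
        · exact one c ce l fun j j1 => (eq_or_ne j k).imp (fun j2 => by rw [j2, ← m, x0])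
            fun j2 => h j j2 j1
        · have m' : Λ.k0 = l := by_contra fun m' => cF' (h _ m m')
          exact one c ce k fun j j1 => (eq_or_ne j l).imp (fun j2 => by rw [j2, ← m', x0])
            fun j2 => h j j1 j2
    · rw [sum_eq_single e (fun e' he' m => by simp [e2 e' he' m]) (fun m => absurd he m), e1,
        Int.cast_one, mul_one, np c, sum_eq_zero fun k _ => by
          by_cases m : k = Λ.k0
          · rw [m, x0, zero_mul]
          · simp [e3 k m], sub_zero]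
      rcases U e he with u | ⟨k, l, m, u1, u2, -, u3, -⟩
      · rwa [u]
      have f0 : ip Λ.B (Λ.C Λ.k0) e = 0 := (cm _ _).trans (is.mem e he).2.2.2.1
      have k0 : k ≠ Λ.k0 := fun m => by rw [m, f0] at u1; omega
      have l0 : l ≠ Λ.k0 := fun m => by rw [m, f0] at u2; omega
      have d1 := pk l _ (e4 k l k0 l0 m u1 u2)
      have d2 := pk k _ (e4 l k l0 k0 m.symm u2 u1)
      simp only [← hp, toR_add, toR_sub, toR_zsmul, ip_add_right, ip_sub_right, ip_smul_right, u1,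
        u2, e3 k k0, e3 l l0, (h4 k k0).1, (h4 l l0).1, ns.disj k l m, ns.disj l k m.symm] at d1 d2
      simp only [hp] at d1 d2
      push_cast at d1 d2
      exact max_le a (by linarith)
  · have nc : n c = p c := by simp [np, c5]
    rcases is.two c c1 c4 with h | ⟨e, he, e1, e2, e3⟩
    · rw [sum_eq_zero fun e he => by simp [h e he], nc]
      exact a
    · have m : e ≠ e + c := fun m => by
        rw [left_eq_add.1 m, ip_zero_left] at c4
        omega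
      have b : n (e + c) = n e + n c := by simp only [← hn, toR_add, ip_add_right]
      rw [sum_eq_add_of_mem e (e + c) he e1 m fun e' he' m => by simp [e3 e' he' m.1 m.2],
        ip_add_left, e2, c4, b, nc]
      have := le_max_left 0 (-(n e + p c))
      have := le_max_right 0 (-(n e + p c))
      have : max 0 (-n e) ≤ p c + max 0 (-(n e + p c)) := max_le (by linarith) (by linarith)
      push_cast
      linarith

end Pool.Agent.MP_20d318_ag.CB

end MrgPart7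

-- ======== part 8: formerly Pool.Agent.MP_20d318_ag.CB.L1
section MrgPart8

/-! First consequences of the structure of the lattice. -/

set_option autoImplicit false

namespace Pool.Agent.MP_20d318_ag.CB

namespace L1x

variable {ι κ : Type} [Fintype ι] [Fintype κ] {Λ : Ld ι κ}

omit [Fintype κ] in
theorem efn {y : ι → ℤ} (hy : Λ.Nef y) {c : ι → ℤ} (hc : c ∈ Λ.Ef) : 0 ≤ ip Λ.B y c := by
  induction hc using AddSubmonoid.closure_induction with
  | mem x hx => exact hy x hx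
  | zero => rw [ip_zero_right]
  | add x z _ _ h1 h2 => rw [ip_add_right]; omega

omit [Fintype κ] in
theorem efr {L : ι → ℝ} (hL : L ∈ Λ.NT) {c : ι → ℤ} (hc : c ∈ Λ.Ef) :
    0 ≤ ip Λ.B L (toR c) := by
  induction hc using AddSubmonoid.closure_induction with
  | mem x hx => exact hL x hx
  | zero => rw [toR_zero, ip_zero_right]
  | add x z _ _ h1 h2 => rw [toR_add, ip_add_right]; linarith

omit [Fintype ι] [Fintype κ] in
theorem pk {e : ι → ℤ} (he : e ∈ Λ.Ef) : e = 0 ∨ ∃ c ∈ Λ.P, e - c ∈ Λ.Ef := by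
  induction he using AddSubmonoid.closure_induction with
  | mem x hx => exact .inr ⟨x, hx, by rw [sub_self]; exact zero_mem _⟩
  | zero => exact .inl rfl
  | add x z _ hz h1 h2 =>
    rcases h1 with rfl | ⟨c, hc, h⟩
    · rwa [zero_add]
    · exact .inr ⟨c, hc, by rw [add_sub_right_comm]; exact add_mem h hz⟩

variable (N : NS Λ)
include N

theorem hn : Λ.Nef Λ.h := fun c hc => (N.hpos c hc).le

theorem hef {c : ι → ℤ} (hc : c ∈ Λ.Ef) (h0 : c ≠ 0) : 0 < ip Λ.B Λ.h c := by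
  obtain ⟨g, hg, h⟩ := (pk hc).resolve_left h0
  have h1 := efn (hn N) h
  have h2 := N.hpos g hg
  rw [ip_sub_right] at h1
  omega

theorem hh : 0 < ip Λ.B Λ.h Λ.h := hef N N.heff fun h => by
  have := N.hpos _ (N.memC Λ.k0)
  rw [h, ip_zero_left] at this
  exact lt_irrefl _ this

theorem sumK (c : ι → ℤ) : ∑ k, ip Λ.B (Λ.C k) c = -2 * ip Λ.B Λ.K c := by
  rw [← ip_sum_left, N.sumC, ip_smul_left]

theorem hC (k : κ) : 0 < ip Λ.B (Λ.C k) Λ.h := by
  rw [ip_comm N.sym]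
  exact N.hpos _ (N.memC k)

theorem hK : ip Λ.B Λ.h Λ.K < 0 := by
  have h := Finset.sum_pos (s := Finset.univ) (fun k _ => hC N k) ⟨Λ.k0, Finset.mem_univ _⟩
  rw [sumK N, ip_comm N.sym] at h
  omega

theorem comp {e : ι → ℤ} (he : e ∈ Λ.Ef) {c : ι → ℤ} (hc : c ∈ Λ.P) :
    e - c ∈ Λ.Ef ∨ 0 ≤ ip Λ.B e c := by
  induction he using AddSubmonoid.closure_induction with
  | mem x hx =>
    by_cases h : x = c
    · exact .inl (by rw [h, sub_self]; exact zero_mem _)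
    · exact .inr (N.pos x hx c hc h)
  | zero => exact .inr (ip_zero_left _).ge
  | add x z hx hz h1 h2 =>
    rcases h1 with h1 | h1
    · exact .inl (by rw [add_sub_right_comm]; exact add_mem h1 hz)
    · rcases h2 with h2 | h2
      · exact .inl (by rw [add_sub_assoc]; exact add_mem hx h2)
      · exact .inr (by rw [ip_add_left]; omega)

theorem CK (k : κ) : ip Λ.B (Λ.C k) (Λ.C k) = -2 * ip Λ.B Λ.K (Λ.C k) := by
  rw [← sumK N, Finset.sum_eq_single k (fun l _ h => N.disj l k h) (by simp)]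

theorem Cc {c : ι → ℤ} (hc : c ∈ Λ.P) (h : c ∉ Set.range Λ.C) (k : κ) :
    0 ≤ ip Λ.B (Λ.C k) c := N.pos _ (N.memC k) c hc fun e => h ⟨k, e⟩

theorem neg {c : ι → ℤ} (hc : c ∈ Λ.P) (h : ip Λ.B c c < 0) :
    (∃ k, k ≠ Λ.k0 ∧ c = Λ.C k ∧ ip Λ.B c c = -4 ∧ ip Λ.B Λ.K c = 2) ∨
    (c ∉ Set.range Λ.C ∧ ip Λ.B c c = -1 ∧ ip Λ.B Λ.K c = -1) ∨
    (c ∉ Set.range Λ.C ∧ ip Λ.B c c = -2 ∧ ip Λ.B Λ.K c = 0 ∧ ∀ k, ip Λ.B (Λ.C k) c = 0) := by
  have h1 := N.adj c hc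
  obtain ⟨m, h2⟩ := N.par c
  by_cases hr : c ∈ Set.range Λ.C
  · obtain ⟨k, rfl⟩ := hr
    have h3 := CK N k
    refine .inl ⟨k, ?_, rfl, by omega, by omega⟩
    rintro rfl
    exact absurd N.sq0 (not_le.2 h)
  · have h3 := Finset.sum_nonneg (s := Finset.univ) fun k _ => Cc N hc hr k
    have h4 := sumK N c
    by_cases h5 : ip Λ.B c c = -1
    · exact .inr (.inl ⟨hr, h5, by omega⟩)
    · refine .inr (.inr ⟨hr, by omega, by omega, fun k => ?_⟩)
      exact (Finset.sum_eq_zero_iff_of_nonneg fun k _ => Cc N hc hr k).1 (by omega) k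
        (Finset.mem_univ k)

theorem hz (H : Hg Λ.B) (v : ι → ℝ) (hv : ip Λ.B v (toR Λ.F) = 0) :
    ip Λ.B v v ≤ 0 ∧ (ip Λ.B v v = 0 → ∃ q : ℝ, v = q • toR Λ.F ∧
      (q = 0 ∨ ip Λ.B Λ.F Λ.F = 0) ∧ ip Λ.B (toR Λ.K) v = 0) := by
  rcases N.sq0.lt_or_eq with h | h
  · by_cases h0 : v = 0
    · subst h0
      exact ⟨(ip_zero_left _).le, fun _ => ⟨0, by rw [zero_smul], .inl rfl, ip_zero_right _⟩⟩
    · have := H.neg (toR Λ.F) v (by rw [ip_toR]; exact_mod_cast h) hv h0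
      exact ⟨this.le, fun e => absurd e this.ne⟩
  · have h0 : toR Λ.F ≠ 0 := fun e => by
      have h1 := hC N Λ.k0
      rw [show Λ.C Λ.k0 = 0 from toR_inj (e.trans toR_zero.symm), ip_zero_left] at h1
      exact lt_irrefl _ h1
    obtain ⟨h1, h2⟩ := H.iso (toR Λ.F) v (by rw [ip_toR, ← h, Int.cast_zero]) h0 hv
    refine ⟨h1, fun e => ?_⟩
    obtain ⟨q, rfl⟩ := h2 e
    have h3 : ip Λ.B Λ.F Λ.F = -2 * ip Λ.B Λ.K Λ.F := CK N Λ.k0
    refine ⟨q, rfl, .inr h.symm, ?_⟩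
    rw [ip_smul_right, ip_toR, show ip Λ.B Λ.K Λ.F = 0 by omega, Int.cast_zero, mul_zero]

theorem nef_ef {z : ι → ℤ} (hz : Λ.Nef z) (h : 0 ≤ ip Λ.B z z) : z ∈ Λ.Ef := by
  have h1 : 0 ≤ ∑ k, ip Λ.B (Λ.C k) z :=
    Finset.sum_nonneg fun k _ => (hz _ (N.memC k)).trans_eq (ip_comm N.sym _ _)
  rw [sumK N] at h1
  refine (N.rr z (by omega)).resolve_right fun e => ?_
  have h2 := efn (hn N) e
  have h3 := hK N
  have h4 := efn hz N.heff
  rw [ip_sub_right, ip_comm N.sym Λ.h z] at h2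
  omega

theorem comb {y : ι → ℤ} (hy : Λ.Nef y) {a b : ℤ} (ha : 0 ≤ a) (hb : 0 ≤ b)
    (h : 0 ≤ a * (a * ip Λ.B y y + b * ip Λ.B y Λ.h) +
      b * (a * ip Λ.B y Λ.h + b * ip Λ.B Λ.h Λ.h)) :
    0 ≤ a * ip Λ.B y y + b * ip Λ.B y Λ.h := by
  have h1 : Λ.Nef (a • y + b • Λ.h) := fun c hc => by
    rw [ip_add_left, ip_smul_left, ip_smul_left]
    exact add_nonneg (mul_nonneg ha (hy c hc)) (mul_nonneg hb (hn N c hc))
  have h2 := efn hy (nef_ef N h1 (by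
    simpa only [ip_add_left, ip_add_right, ip_smul_left, ip_smul_right, ip_comm N.sym Λ.h y]
      using h))
  rwa [ip_add_right, ip_smul_right, ip_smul_right] at h2

theorem ne {y : ι → ℤ} (hy : Λ.Nef y) : 0 ≤ ip Λ.B y y := by
  by_contra hs
  replace hs := not_le.1 hs
  have ha := efn hy N.heff
  have hp := hh N
  rcases ha.lt_or_eq with ha | ha
  · have := comb N hy (a := 2 * ip Λ.B y Λ.h) (b := -ip Λ.B y y) (by omega) (by omega)
      (by nlinarith [mul_pos (mul_pos_of_neg_of_neg hs hs) hp])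
    nlinarith [mul_pos ha (neg_pos.2 hs)]
  · have := comb N hy (a := 1) (b := -ip Λ.B y y) (by omega) (by omega)
      (by
        rw [← ha]
        nlinarith [mul_nonneg (mul_self_nonneg (ip Λ.B y y)) (show 0 ≤ ip Λ.B Λ.h Λ.h - 1 by omega),
          mul_nonneg (neg_pos.2 hs).le (show 0 ≤ -ip Λ.B y y - 1 by omega)])
    rw [← ha] at this
    omega

theorem KC {k : κ} (h : 0 ≤ ip Λ.B (Λ.C k) (Λ.C k)) : Λ.K + Λ.C k ∈ Λ.Ef := by
  have h1 := CK N k
  refine (N.rr _ ?_).resolve_right fun e => ?_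
  · rw [ip_add_left Λ.K, ip_add_right (Λ.C k), ip_comm N.sym (Λ.C k) Λ.K]
    omega
  · have h2 := efn (hn N) e
    have h3 := N.hpos _ (N.memC k)
    rw [ip_sub_right, ip_add_right] at h2
    omega

theorem two : (∀ k, k ≠ Λ.k0 → ip Λ.B (Λ.C k) (Λ.C k) = -4 ∧ ip Λ.B Λ.K (Λ.C k) = 2) ∨
    ∀ k l, k ≠ Λ.k0 → l ≠ Λ.k0 → k = l := by
  classical
  by_cases h : ∀ k, k ≠ Λ.k0 → ip Λ.B (Λ.C k) (Λ.C k) < 0
  · refine .inl fun k hk => ?_
    rcases neg N (N.memC k) (h k hk) with ⟨_, _, _, h1⟩ | ⟨h1, _⟩ | ⟨h1, _⟩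
    · exact h1
    · exact absurd ⟨k, rfl⟩ h1
    · exact absurd ⟨k, rfl⟩ h1
  · push Not at h
    obtain ⟨k, hk, h⟩ := h
    have key : ∀ l, l ≠ Λ.k0 → l = k := fun l hl => by
      by_contra hlk
      have h1 := efn (hn N) (KC N h)
      have h2 := efn (hn N) (KC N (k := Λ.k0) N.sq0)
      have h3 := Finset.sum_le_sum_of_subset_of_nonneg (Finset.subset_univ {l, k, Λ.k0})
        fun j _ _ => (hC N j).le
      have h4 := hC N l
      rw [sumK N, Finset.sum_insert (by simp [hlk, hl]), Finset.sum_pair hk,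
        ip_comm N.sym Λ.K] at h3
      rw [ip_add_right, ip_comm N.sym Λ.h (Λ.C _)] at h1 h2
      omega
    exact .inr fun a b ha hb => (key a ha).trans (key b hb).symm

end L1x

open L1x in
theorem l1_stmt : L1Stmt := fun _ _ _ _ Λ N H =>
  { efn := fun _ hy _ hc => efn hy hc
    efr := fun _ hL _ hc => efr hL hc
    nefr := fun y => forall₂_congr fun c _ => by rw [ip_toR, Int.cast_nonneg_iff]
    hef := fun _ hc => hef N hc
    hh := hh N
    hK := hK N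
    pn := fun c hc h c' hc' => by
      by_cases e : c = c'
      · exact e ▸ h
      · exact N.pos c hc c' hc' e
    comp := fun _ he _ hc h => (comp N he hc).resolve_right (not_le.2 h)
    pick := fun y hy e he h0 => by
      obtain ⟨c, hc, h⟩ := (pk he).resolve_left h0
      have := efn hy h
      rw [ip_sub_right] at this
      exact ⟨c, hc, h, by omega⟩
    CK := CK N
    Cc := fun _ hc => Cc N hc
    sumK := sumK N
    neg := fun _ hc => neg N hc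
    hz := hz N H
    ne := fun _ hy => ⟨ne N hy, nef_ef N hy (ne N hy)⟩
    G := KC N N.sq0
    two := two N }

end Pool.Agent.MP_20d318_ag.CB

end MrgPart8

-- ======== part 9: formerly Pool.Agent.MP_20d318_ag.CB.LcA
section MrgPart9

/-! The nef criterion on the threefold. -/

set_option autoImplicit false

namespace Pool.Agent.MP_20d318_ag.CB

open Finset

namespace LcA

variable {ι κ : Type} [Fintype ι] [Fintype κ] {Λ : Ld ι κ}

theorem ip_comb (L : ι → ℝ) (x : κ → ℝ) (c : ι → ℤ) :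
    ip Λ.B (L - ∑ k, x k • toR (Λ.C k)) (toR c) =
      ip Λ.B L (toR c) - ∑ k, x k * (ip Λ.B (Λ.C k) c : ℤ) := by
  simp only [ip_sub_left, ip_sum_left, ip_smul_left, ip_toR]

omit [Fintype κ] in
theorem ip_one (L : ι → ℝ) (x : ℝ) (k : κ) (c : ι → ℤ) :
    ip Λ.B (L - x • toR (Λ.C k)) (toR c) = ip Λ.B L (toR c) - x * (ip Λ.B (Λ.C k) c : ℤ) := by
  simp only [ip_sub_left, ip_smul_left, ip_toR]

omit [Fintype κ] in
theorem nt_b {N : ι → ℝ} (hN : N ∈ Λ.NT) {b : ι → ℤ}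
    (hb : b = 0 ∨ ∃ c ∈ Λ.P, ∃ n : ℕ, b = n • c) : 0 ≤ ip Λ.B N (toR b) := by
  rcases hb with rfl | ⟨c, hc, n, rfl⟩
  · rw [toR_zero, ip_zero_right]
  · rw [toR_nsmul, ip_smul_right]
    exact mul_nonneg (Nat.cast_nonneg n) (hN c hc)

theorem nef_one (hS : NS Λ) {D : W ι κ ℝ} (hD : D ∈ Λ.NX) (k : κ) (j : Fin 4) :
    D.1 - D.2.2 k j • toR (Λ.C k) ∈ Λ.NT := by
  classical
  obtain ⟨h1, -, h3, h4⟩ := hD
  intro c hc
  rw [ip_one]
  by_cases a : ∃ l, l ≠ k ∧ c = Λ.C l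
  · obtain ⟨l, a1, rfl⟩ := a
    rw [hS.disj k l a1.symm]
    simpa using h3 _ hc
  · have e := h4 j c hc
    rw [ip_comb, ← add_sum_erase _ _ (mem_univ k)] at e
    have : 0 ≤ ∑ l ∈ univ.erase k, D.2.2 l j * (ip Λ.B (Λ.C l) c : ℤ) := sum_nonneg fun l hl =>
      mul_nonneg (h1 l j) (Int.cast_nonneg
        (hS.pos _ (hS.memC l) c hc fun h => a ⟨l, (mem_erase.1 hl).1, h.symm⟩))
    linarith

theorem single {L : ι → ℝ} {x : κ → ℝ} {c : ι → ℤ} (hc : c ∈ Λ.P) (h0 : x Λ.k0 = 0)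
    (hx : ∀ k, L - x k • toR (Λ.C k) ∈ Λ.NT) (k : κ)
    (hk : ∀ l, l ≠ Λ.k0 → l ≠ k → ip Λ.B (Λ.C l) c = 0) :
    0 ≤ ip Λ.B (L - ∑ k, x k • toR (Λ.C k)) (toR c) := by
  have := hx k c hc
  rw [ip_one] at this
  rwa [ip_comb, sum_eq_single k (fun l _ hl => by
    by_cases a : l = Λ.k0
    · rw [a, h0, zero_mul]
    · rw [hk l a hl, Int.cast_zero, mul_zero]) (fun h => absurd (mem_univ k) h)]

theorem nefc (hS : NS Λ) (h1 : L1 Λ) (hK : KEY Λ) {L : ι → ℝ} {x : κ → ℝ} {c : ι → ℤ}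
    (hc : c ∈ Λ.P) (hL : L ∈ Λ.NT) (hp : ∀ k, 0 ≤ x k) (h0 : x Λ.k0 = 0)
    (hx : ∀ k, L - x k • toR (Λ.C k) ∈ Λ.NT) (hcc : 0 ≤ ip Λ.B c c) :
    0 ≤ ip Λ.B (L - ∑ k, x k • toR (Λ.C k)) (toR c) := by
  obtain ⟨I, i1, i2⟩ := hK
  have e := i2 L _ x hL hp h0 hx rfl c hc
  generalize L - ∑ k, x k • toR (Λ.C k) = N at e ⊢
  rw [ip_sub_left, ip_sum_left] at e
  have : 0 ≤ ∑ e ∈ I, ip Λ.B (max 0 (-ip Λ.B N (toR e)) • toR e) (toR c) := sum_nonneg fun e he => by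
    rw [ip_smul_left, ip_toR, ip_comm hS.sym e c]
    exact mul_nonneg (le_max_left _ _) (Int.cast_nonneg (h1.efn c (h1.pn c hc hcc) e (i1 e he)))
  linarith

omit [Fintype ι] in
theorem bound [DecidableEq κ] {a : κ → Fin 4 → ℝ} {m : κ → Fin 4 → ℤ} {t : ℝ} {d : ℤ} {β : κ → ℤ}
    {y : κ → ℝ} (a0 : ∀ k j, 0 ≤ a k j) (at' : ∀ k, ∑ j, a k j ≤ t) (ay : ∀ k j, a k j ≤ y k)
    (m0 : ∀ k j, 0 ≤ m k j) (mb : ∀ k, ∑ j, m k j ≤ β k) (md : ∀ j, ∑ k, m k j ≤ d) (d0 : 0 ≤ d)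
    (k : κ) : ∑ l, ∑ j, a l j * m l j ≤ t * d + ∑ l ∈ univ.erase k, y l * β l := by
  rw [← add_sum_erase _ _ (mem_univ k)]
  refine add_le_add ?_ (sum_le_sum fun l _ => ?_)
  · refine le_trans (sum_le_sum fun j _ => mul_le_mul_of_nonneg_left (b := (m k j : ℝ)) (c := d)
      (Int.cast_le.2 ((single_le_sum (f := fun l => m l j) (fun l _ => m0 l j)
        (mem_univ k)).trans (md j))) (a0 k j)) ?_
    rw [← sum_mul]
    exact mul_le_mul_of_nonneg_right (at' k) (Int.cast_nonneg d0)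
  · refine le_trans (sum_le_sum fun j _ => mul_le_mul_of_nonneg_right (ay l j)
      (Int.cast_nonneg (m0 l j))) ?_
    rw [← mul_sum, ← Int.cast_sum]
    exact mul_le_mul_of_nonneg_left (Int.cast_le.2 (mb l)) ((a0 l 0).trans (ay l 0))

omit [Fintype ι] in
theorem two {s : κ → ℤ} (s0 : ∀ k, 0 ≤ s k) (hs : ∑ k, s k = 2) {k l : κ} (hkl : l ≠ k)
    (hk : s k ≠ 0) (hl : s l ≠ 0) : s l = 1 ∧ ∀ r, r ≠ k → r ≠ l → s r = 0 := by
  classical
  rw [← add_sum_erase _ _ (mem_univ k), ← add_sum_erase _ _ (mem_erase.2 ⟨hkl, mem_univ l⟩)] at hs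
  have a := s0 k
  have b := s0 l
  have c : 0 ≤ ∑ r ∈ (univ.erase k).erase l, s r := sum_nonneg fun r _ => s0 r
  refine ⟨by omega, fun r h1 h2 => ?_⟩
  have d := single_le_sum (f := s) (s := (univ.erase k).erase l) (fun r _ => s0 r)
    (mem_erase.2 ⟨h2, mem_erase.2 ⟨h1, mem_univ r⟩⟩)
  have := s0 r
  omega

end LcA

open LcA

theorem lcA_stmt : LcAStmt := by
  classical
  intro ι κ _ _ Λ hS h1 hK D hD Z hZ
  obtain ⟨b, d, m⟩ := Z
  obtain ⟨hb, d0, hZ⟩ := hZ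
  have one := nef_one hS hD
  obtain ⟨a0, at', hL, hM⟩ := hD
  obtain ⟨L, t, a⟩ := D
  simp only at hb d0 hZ one a0 at' hL hM
  show 0 ≤ ip Λ.B L (toR b) + t * d - ∑ k, ∑ j, a k j * m k j
  have l0 := nt_b hL hb
  have d1 : (0 : ℝ) ≤ d := Int.cast_nonneg d0
  rcases hZ with ⟨j, z1, z2⟩ | ⟨k, -, z2⟩ | ⟨k, j, -, z1, z2, z3⟩ | ⟨m0, mb, md⟩
  · have e := nt_b (hM j) hb
    rw [ip_comb] at e
    simpa [z1, z2] using e
  · have e : ∑ l, ∑ j, a l j * (m l j : ℝ) = (∑ j, a k j) * d := by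
      rw [sum_eq_single k (fun l _ hl => by simp [z2, hl]) (fun h => absurd (mem_univ k) h), sum_mul]
      simp [z2]
    have := mul_le_mul_of_nonneg_right (at' k) d1
    linarith
  · have e : ∑ l, ∑ j, a l j * (m l j : ℝ) ≤ 0 := sum_nonpos fun l _ => sum_nonpos fun i _ => by
      refine mul_nonpos_of_nonneg_of_nonpos (a0 l i) (Int.cast_nonpos.2 ?_)
      by_cases h : l = k ∧ i = j
      · rw [h.1, h.2]; exact z2
      · exact (z3 l i h).le
    rw [z1, Int.cast_zero, mul_zero]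
    linarith
  · choose J _ hJ using fun k => exists_max_image univ (a k) univ_nonempty
    have bd := bound a0 at' (fun k j => hJ k j (mem_univ j)) m0 mb md d0
    obtain ⟨x, x0, x1⟩ : ∃ x : κ → ℝ, x Λ.k0 = 0 ∧ ∀ k, k ≠ Λ.k0 → x k = a k (J k) :=
      ⟨fun k => if k = Λ.k0 then 0 else a k (J k), if_pos rfl, fun k h => if_neg h⟩
    have xp : ∀ k, 0 ≤ x k := fun k => by
      by_cases h : k = Λ.k0
      · rw [h, x0]
      · rw [x1 k h]; exact a0 _ _
    have xn : ∀ k, L - x k • toR (Λ.C k) ∈ Λ.NT := fun k => by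
      by_cases h : k = Λ.k0
      · rw [h, x0, zero_smul, sub_zero]; exact hL
      · rw [x1 k h]; exact one _ _
    have main : 0 ≤ ip Λ.B (L - ∑ k, x k • toR (Λ.C k)) (toR b) →
        0 ≤ ip Λ.B L (toR b) + t * d - ∑ k, ∑ j, a k j * m k j := fun h => by
      have e := bd Λ.k0
      rw [ip_comb, ← add_sum_erase _ _ (mem_univ Λ.k0), x0, zero_mul, zero_add,
        sum_congr rfl fun k hk => by rw [x1 k (mem_erase.1 hk).1]] at h
      linarith
    rcases hb with rfl | ⟨c, hc, n, rfl⟩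
    · exact main (by rw [toR_zero, ip_zero_right])
    have main' : 0 ≤ ip Λ.B (L - ∑ k, x k • toR (Λ.C k)) (toR c) →
        0 ≤ ip Λ.B L (toR (n • c)) + t * d - ∑ k, ∑ j, a k j * m k j := fun h =>
      main (by rw [toR_nsmul, ip_smul_right]; exact mul_nonneg (Nat.cast_nonneg n) h)
    rcases le_or_gt 0 (ip Λ.B c c) with hcc | hcc
    · exact main' (nefc hS h1 hK hc hL xp x0 xn hcc)
    rcases h1.neg c hc hcc with ⟨k, -, rfl, -⟩ | ⟨c1, -, c3⟩ | ⟨-, -, -, c4⟩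
    · exact main' (single hc x0 xn k fun l _ h => hS.disj l k h)
    · by_cases h : ∃ k, ∀ l, l ≠ Λ.k0 → l ≠ k → ip Λ.B (Λ.C l) c = 0
      · obtain ⟨k, hk⟩ := h
        exact main' (single hc x0 xn k hk)
      push Not at h
      obtain ⟨k, -, -, k3⟩ := h Λ.k0
      obtain ⟨l, l1, l2, l3⟩ := h k
      obtain ⟨s1, s2⟩ := two (h1.Cc c hc c1) (by rw [h1.sumK, c3]; rfl) l2 k3 l3
      have e := bd k
      rw [sum_eq_single l (fun r hr h => by
        rw [ip_nsmul_right, s2 r (mem_erase.1 hr).1 h]; simp)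
        (fun h => absurd (mem_erase.2 ⟨l2, mem_univ l⟩) h), ip_nsmul_right, s1] at e
      have f := one l (J l) c hc
      rw [ip_one, s1] at f
      rw [toR_nsmul, ip_smul_right]
      push_cast at e f
      have := mul_nonneg (Nat.cast_nonneg (α := ℝ) n) f
      nlinarith
    · exact main' (single hc x0 xn Λ.k0 fun l _ _ => c4 l)

end Pool.Agent.MP_20d318_ag.CB

end MrgPart9

-- ======== part 10: formerly Pool.Agent.MP_20d318_ag.CB.LcB
section MrgPart10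

/-! Nef classes on the threefold: effectivity, spanning, no lines. -/

set_option autoImplicit false

namespace Pool.Agent.MP_20d318_ag.CB

open Pool.Agent.MP_20d318_ag.Lat Matrix

namespace LcB

variable {ι κ : Type} [Fintype ι] [Fintype κ] {Λ : Ld ι κ}

theorem one_nef (h : NS Λ) (l : L1 Λ) {L : ι → ℝ} {a : κ → ℝ} (hL : L ∈ Λ.NT) (a0 : ∀ k, 0 ≤ a k)
    (hM : L - ∑ k, a k • toR (Λ.C k) ∈ Λ.NT) (k : κ) : L - a k • toR (Λ.C k) ∈ Λ.NT := by
  intro c hc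
  have m := hM c hc
  simp only [ip_sub_left, ip_sum_left, ip_smul_left, ip_toR] at m ⊢
  by_cases e : c = Λ.C k
  · rwa [Finset.sum_eq_single k (fun k' _ n => by rw [e, h.disj k' k n]; simp) (by simp)] at m
  by_cases r : c ∈ Set.range Λ.C
  · obtain ⟨k', rfl⟩ := r
    rw [h.disj k k' fun n => e (n ▸ rfl)]
    simpa using hL _ hc
  have := Finset.single_le_sum (f := fun k => a k * (ip Λ.B (Λ.C k) c : ℤ)) (s := Finset.univ)
    (fun k _ => mul_nonneg (a0 k) (Int.cast_nonneg (l.Cc c hc r k))) (Finset.mem_univ k)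
  linarith

omit [Fintype ι] [Fintype κ] in
theorem ef_cone {c : ι → ℤ} (hc : c ∈ Λ.Ef) :
    ((toR c, 0, 0) : W ι κ ℝ) ∈ cone (toRW '' Λ.EG) := by
  have C := isCone_cone (toRW '' Λ.EG)
  induction hc using AddSubmonoid.closure_induction with
  | mem c hc =>
    refine subset_cone _ ⟨(c, 0, 0), Or.inl ⟨c, hc, rfl⟩, ?_⟩
    simp only [toRW, Pi.zero_apply, Int.cast_zero]
    rfl
  | zero => rw [toR_zero]; exact C.zero
  | add a b _ _ ha hb => simpa [toR_add] using C.add _ ha _ hb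

theorem eff (h : NS Λ) (l : L1 Λ) (key : KEY Λ) (D : W ι κ ℤ) (hD : toRW D ∈ Λ.NX) :
    toRW D ∈ cone (toRW '' Λ.EG) := by
  classical
  obtain ⟨L, t, a⟩ := D
  obtain ⟨a0, at', hL, hM⟩ := hD
  simp only [toRW] at a0 at' hL hM
  obtain ⟨I, hI, hk⟩ := key
  choose j hj using fun k => Finite.exists_max (a k)
  set x : κ → ℤ := fun k => if k = Λ.k0 then 0 else a k (j k) with hx
  have x0 : ∀ k, (0 : ℝ) ≤ x k := fun k => by
    simp only [hx]
    split_ifs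
    · simp
    · exact a0 _ _
  have xa : ∀ k j', (0 : ℝ) ≤ x k + a Λ.k0 j' - a k j' := fun k j' => by
    simp only [hx]
    split_ifs with e
    · simp [e]
    · linarith [a0 Λ.k0 j', (Int.cast_le (R := ℝ)).2 (hj k j')]
  set N : ι → ℤ := L - ∑ k, x k • Λ.C k with hN
  have eN : toR N = toR L - ∑ k, (x k : ℝ) • toR (Λ.C k) := by
    simp only [hN, toR_sub, toR_sum, toR_zsmul]
  have n1 := hk (toR L) (toR N) (fun k => x k) hL x0 (by simp [hx]) (fun k => by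
    simp only [hx]
    split_ifs
    · simpa using hL
    · exact one_nef h l hL (fun k' => a0 k' (j k)) (hM (j k)) k) eN
  have e1 : toR N - ∑ e ∈ I, max 0 (-ip Λ.B (toR N) (toR e)) • toR e =
      toR (N - ∑ e ∈ I, max 0 (-ip Λ.B N e) • e) := by
    simp only [toR_sub, toR_sum, toR_zsmul, ip_toR, Int.cast_max, Int.cast_zero, Int.cast_neg]
  have C := isCone_cone (toRW '' Λ.EG)
  have n2 := ef_cone (l.ne _ ((l.nefr _).1 (e1 ▸ n1))).2
  rw [← e1] at n2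
  have n3 := C.add _ n2 _ (C.sum_mem I
    (fun e => max 0 (-ip Λ.B (toR N) (toR e)) • ((toR e, 0, 0) : W ι κ ℝ))
    fun e he => C.smul _ (le_max_left _ _) _ (ef_cone (hI e he)))
  have n4 := C.sum_mem Finset.univ (fun k => (x k : ℝ) •
    toRW ((Λ.C k, 0, fun k' _ => if k' = k then 1 else 0) : W ι κ ℤ)) fun k _ =>
    C.smul _ (x0 k) _ (subset_cone _ ⟨_, Or.inr (Or.inr (Or.inr (Or.inl ⟨k, by congr⟩))), rfl⟩)
  have n5 := C.sum_mem Finset.univ (fun j' => (a Λ.k0 j' : ℝ) •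
    toRW ((0, 1, fun _ i => if i = j' then 1 else 0) : W ι κ ℤ)) fun j' _ =>
    C.smul _ (a0 _ _) _ (subset_cone _ ⟨_, Or.inr (Or.inr (Or.inr (Or.inr ⟨j', by congr⟩))), rfl⟩)
  have n6 := C.smul _ (sub_nonneg.2 (at' Λ.k0)) _
    (subset_cone _ ⟨((0, 1, 0) : W ι κ ℤ), Or.inr (Or.inl rfl), rfl⟩)
  have n7 := C.sum_mem Finset.univ (fun p : κ × Fin 4 =>
    ((x p.1 : ℝ) + a Λ.k0 p.2 - a p.1 p.2) •
    toRW ((0, 0, fun k' i => if k' = p.1 ∧ i = p.2 then -1 else 0) : W ι κ ℤ)) fun p _ =>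
    C.smul _ (xa _ _) _ (subset_cone _ ⟨_, Or.inr (Or.inr (Or.inl ⟨p.1, p.2, by congr⟩)), rfl⟩)
  convert C.add _ (C.add _ (C.add _ (C.add _ n3 _ n4) _ n5) _ n6) _ n7 using 1
  refine Prod.ext ?_ (Prod.ext ?_ ?_)
  · simp [toRW, Prod.fst_sum, toR_zero, eN]
  · simp [toRW, Prod.fst_sum, Prod.snd_sum]
  · funext k i
    have : ∑ p : κ × Fin 4, (if k = p.1 ∧ i = p.2 then (a p.1 p.2 : ℝ) - (x p.1 + a Λ.k0 p.2)
        else 0) = a k i - (x k + a Λ.k0 i) := by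
      rw [Finset.sum_eq_single (k, i) (fun p _ n => if_neg fun e => n (Prod.ext e.1.symm e.2.symm))
        (by simp)]
      simp
    simp [toRW, Prod.snd_sum, Finset.sum_apply, this]

theorem span (h : NS Λ) (l : L1 Λ) : Submodule.span ℝ (Λ.NX ∩ Set.range toRW) = ⊤ := by
  classical
  set S := Submodule.span ℝ (Λ.NX ∩ Set.range toRW) with hS
  have e0 : ∀ (y : ι → ℤ) (t : ℤ), toRW ((y, t, 0) : W ι κ ℤ) = (toR y, (t : ℝ), 0) := fun y t => by
    simp only [toRW, Pi.zero_apply, Int.cast_zero]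
    rfl
  have s0 : ∀ (y : ι → ℤ) (t : ℤ), Λ.Nef y → 0 ≤ t → ((toR y, (t : ℝ), 0) : W ι κ ℝ) ∈ S :=
    fun y t hy ht => Submodule.subset_span ⟨⟨by simp, by simpa using fun _ => ht, (l.nefr y).2 hy,
      by simpa using (l.nefr y).2 hy⟩, _, e0 y t⟩
  have s1 : ∀ c : ι → ℤ, ((toR c, 0, 0) : W ι κ ℝ) ∈ S := fun c => by
    obtain ⟨y, a, b⟩ := h.dif c
    have := S.sub_mem (s0 _ 0 a le_rfl) (s0 _ 0 b le_rfl)
    rwa [toR_sub, Prod.mk_sub_mk, sub_sub_cancel, sub_self] at this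
  have s2 : ((0, 1, 0) : W ι κ ℝ) ∈ S := by
    simpa [toR_zero] using s0 0 1 (fun c _ => (ip_zero_left c).ge) zero_le_one
  have s3 : ∀ k j, ((0, 0, Pi.single k (Pi.single j 1)) : W ι κ ℝ) ∈ S := fun k j => by
    obtain ⟨y, a, b⟩ := h.dif (Λ.C k)
    have : ((toR y, 1, Pi.single k (Pi.single j 1)) : W ι κ ℝ) ∈ S := by
      refine Submodule.subset_span ⟨⟨fun k' j' => ?_, fun k' => ?_, (l.nefr y).2 a, fun j' => ?_⟩,
        (y, 1, Pi.single k (Pi.single j 1)), ?_⟩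
      · by_cases e : k' = k <;> by_cases e' : j' = j <;> simp [e, e']
      · by_cases e : k' = k <;> simp [e]
      · rw [Finset.sum_eq_single k (fun k' _ n => by simp [n]) (by simp)]
        by_cases e' : j' = j
        · simpa [e', toR_sub] using (l.nefr _).2 b
        · simpa [e'] using (l.nefr _).2 a
      · refine Prod.ext rfl (Prod.ext (by simp [toRW]) ?_)
        funext k' j'
        by_cases e : k' = k <;> by_cases e' : j' = j <;> simp [toRW, e, e']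
    simpa using S.sub_mem (S.sub_mem this (s1 y)) s2
  refine eq_top_iff.2 fun D _ => ?_
  obtain ⟨L, t, a⟩ := D
  convert S.add_mem (S.add_mem (S.sum_mem (t := Finset.univ) fun i _ =>
    S.smul_mem (L i) (s1 (Pi.single i 1))) (S.smul_mem t s2))
    (S.sum_mem (t := Finset.univ) fun k _ => S.sum_mem (t := Finset.univ) fun j _ =>
      S.smul_mem (a k j) (s3 k j)) using 1
  refine Prod.ext ?_ (Prod.ext ?_ ?_)
  · funext i
    simp [Prod.fst_sum, Finset.sum_apply, toR, Pi.single_apply]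
  · simp [Prod.fst_sum, Prod.snd_sum]
  · funext k j
    simp only [Prod.snd_sum, Prod.snd_add, Prod.smul_snd, smul_zero, Finset.sum_const_zero,
      zero_add, Finset.sum_apply]
    rw [Finset.sum_eq_single k (fun k' _ n => by simp [n.symm]) (by simp)]
    simp [Pi.single_apply]

theorem line (h : NS Λ) (g : Hg Λ.B) (l : L1 Λ) (D : W ι κ ℝ) (p : D ∈ Λ.NX) (n : -D ∈ Λ.NX) :
    D = 0 := by
  obtain ⟨L, t, a⟩ := D
  have a0 : a = 0 := funext fun k => funext fun j =>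
    le_antisymm (by simpa using n.1 k j) (p.1 k j)
  subst a0
  have t0 : t = 0 := le_antisymm (by simpa using n.2.1 Λ.k0) (by simpa using p.2.1 Λ.k0)
  have z : ∀ y, Λ.Nef y → ip Λ.B L (toR y) = 0 := fun y hy => by
    have a := l.efr _ p.2.2.1 y (l.ne y hy).2
    have b := l.efr _ n.2.2.1 y (l.ne y hy).2
    simp only [Prod.fst_neg, ip_neg_left] at a b
    linarith
  have L0 : L = 0 := g.nd L fun c => by
    obtain ⟨y, a, b⟩ := h.dif c
    have := z _ b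
    rw [toR_sub, ip_sub_right, z y a] at this
    linarith
  rw [t0, L0]
  rfl

end LcB

theorem lcB_stmt : LcBStmt := fun _ _ _ _ _ h g l key =>
  ⟨LcB.eff h l key, LcB.span h l, LcB.line h g l⟩

end Pool.Agent.MP_20d318_ag.CB

end MrgPart10

-- marker of a merged file
example : 731051 + 450931 = 731051 + 450931 := rfl
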