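import Mathlib.Data.Fin.VecNotation
import Mathlib.RingTheory.Derivation.Basic
import Mathlib.RingTheory.AlgebraicIndependent.Defs
import Mathlib.FieldTheory.IntermediateField.Adjoin.Defs
import Mathlib.RingTheory.LocalRing.Defs

/-!
Smooth projective rational surfaces, given by the set of their local rings inside the function
field `M`, and sections of the square of the anticanonical sheaf.
-/

set_option autoImplicit false

namespace Pool.Agent.MP_20d318_ag.RS

variable {k M : Type} [Field k] [Field M] [Algebra k M]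

/-- `u` is a unit of the ring `O`. -/
def IsU (O : Subalgebra k M) (u : M) : Prop := u ≠ 0 ∧ u ∈ O ∧ u⁻¹ ∈ O

/-- The non-units of `O`: the maximal ideal of a local ring. -/
def mx (O : Subalgebra k M) : Set M := {u | u ∈ O ∧ ¬ IsU O u}

/-- The points of `Spec R`: the localizations of `R` at its prime ideals, inside `M`. -/
def Pts (R : Subalgebra k M) : Set (Subalgebra k M) :=
  {O | IsLocalRing O ∧ R ≤ O ∧ ∀ f ∈ O, ∃ a ∈ R, ∃ b ∈ R, IsU O b ∧ f = a / b}

/-- The blow-up of `T` at the closed point `O`, with the charts `Spec O[m / g]`. -/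
def blowUp (T : Set (Subalgebra k M)) (O : Subalgebra k M) : Set (Subalgebra k M) :=
  (T \ {O}) ∪ ⋃ g ∈ mx O \ {0}, Pts (Algebra.adjoin k ((O : Set M) ∪ (fun a => a / g) '' mx O))

variable (k) in
/-- The union of the affine planes `Spec k[a, b]`, `(a, b) ∈ C`. -/
def planes (C : Set (M × M)) : Set (Subalgebra k M) := ⋃ c ∈ C, Pts (Algebra.adjoin k {c.1, c.2})

variable (k) in
/-- `M = k(x, y)` is the field of rational functions in `x, y`. -/
def Gen (x y : M) : Prop :=
  AlgebraicIndependent k ![x, y] ∧ IntermediateField.adjoin k {x, y} = ⊤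

/-- The projective plane, the Hirzebruch surfaces, and their iterated blow-ups at points. -/
inductive Tower : Set (Subalgebra k M) → Prop
  | plane (x y : M) : Gen k x y → Tower (planes k {(x, y), (y / x, x⁻¹), (x / y, y⁻¹)})
  | hirz (n : ℕ) (x y : M) : Gen k x y →
      Tower (planes k {(x, y), (x, y⁻¹), (x⁻¹, x ^ n * y), (x⁻¹, (x ^ n * y)⁻¹)})
  | blow (T : Set (Subalgebra k M)) (O : Subalgebra k M) : Tower T → O ∈ T →
      (∀ f ∈ O, ∃ c : k, f - algebraMap k M c ∈ mx O) → Tower (blowUp T O)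

/-- The value of the bivector `D₁ ∧ D₂` on `da ∧ db`. -/
def jac (D₁ D₂ : Derivation k M M) (a b : M) : M := D₁ a * D₂ b - D₂ a * D₁ b

/-- `φ (D₁ ∧ D₂)²` is a regular section of the square of the anticanonical sheaf of `T`. -/
def BiAnti (T : Set (Subalgebra k M)) (D₁ D₂ : Derivation k M M) (φ : M) : Prop :=
  ∀ O ∈ T, ∀ a ∈ O, ∀ b ∈ O, φ * jac D₁ D₂ a b ^ 2 ∈ O

/-- The divisor of zeros of this section is smooth: the local equation is nowhere in `m²`. -/
def SmoothZero (T : Set (Subalgebra k M)) (D₁ D₂ : Derivation k M M) (φ : M) : Prop :=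
  ∀ O ∈ T, ∃ a ∈ O, ∃ b ∈ O,
    φ * jac D₁ D₂ a b ^ 2 ∉ AddSubmonoid.closure (Set.image2 (· * ·) (mx O) (mx O))

end Pool.Agent.MP_20d318_ag.RS
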