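import Pool.Agent.MP_20d318_ag.CB.XCls
import Pool.Agent.MP_20d318_ag.BV.XPl
import Pool.Agent.MP_20d318_ag.BV.SigX

-- ======== part 0: formerly Pool.Agent.MP_20d318_ag.CB.Pb
section MrgPart0

/-! The components of the curve are smooth and disjoint. -/

set_option autoImplicit false

namespace Pool.Agent.MP_20d318_ag.CB

open Pool.Agent.MP_79c67d_ag Pool.Agent.MP_20d318_ag.AG Pool.Agent.MP_20d318_ag.BV MvPolynomial
open Pool.Agent.MP_20d318_ag.RS (jac)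
open scoped IntermediateField

namespace Pb

variable {k M : Type} [Field k] [Field M] [Algebra k M] {O : Subalgebra k M} {a b s : M}

theorem mx2_of (ha : a ∈ mx O) (hb : b ∈ mx O) : a * b ∈ mx2 O :=
  AddSubmonoid.subset_closure ⟨a, ha, b, hb, rfl⟩

theorem mx2_mul (ha : a ∈ O) (hb : b ∈ mx2 O) : a * b ∈ mx2 O := by
  induction hb using AddSubmonoid.closure_induction with
  | mem x hx =>
    obtain ⟨c, hc, d, hd, rfl⟩ := hx
    exact mul_assoc a c d ▸ mx2_of (mx_mul_left ha hc) hd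
  | zero => rw [mul_zero]; exact zero_mem _
  | add x y _ _ hx hy => rw [mul_add]; exact add_mem hx hy

/-- An irreducible polynomial does not divide all its derivatives. -/
theorem not_dvd [CharZero k] {q : MvPolynomial (Fin 2) k} (hq : Irreducible q) :
    ∃ i, ¬ q ∣ pderiv i q := by
  by_contra hn
  rw [not_exists] at hn
  have h0 : ∀ i, pderiv i q = 0 := fun i => by
    by_contra h
    obtain ⟨m, hm, e⟩ := Finset.exists_mem_eq_sup _ (support_nonempty.2 h)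
      fun s : Fin 2 →₀ ℕ => s.sum fun _ e => e
    have h1 := totalDegree_le_of_dvd_of_isDomain (not_not.1 (hn i)) h
    have h2 := mem_support_iff.1 hm
    rw [coeff_pderiv] at h2
    have h3 := le_totalDegree (mem_support_iff.2 (left_ne_zero_of_mul h2))
    rw [Finsupp.sum_add_index' (fun _ => rfl) (fun _ _ _ => rfl),
      Finsupp.sum_single_index rfl] at h3
    have h4 : (pderiv i q).totalDegree = m.sum fun _ e => e := e
    omega
  have h1 : q = C (coeff 0 q) := by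
    ext m
    by_cases hm : m = 0
    · simp [hm]
    obtain ⟨i, hi⟩ := Finsupp.ne_iff.1 hm
    have := coeff_pderiv (i := i) q (m - Finsupp.single i 1)
    rw [h0, coeff_zero,
      tsub_add_cancel_of_le (Finsupp.single_le_iff.2 (Nat.one_le_iff_ne_zero.2 hi))] at this
    rw [coeff_C, if_neg (Ne.symm hm)]
    exact (mul_eq_zero.1 this.symm).resolve_right (Nat.cast_add_one_ne_zero _)
  by_cases hc : coeff 0 q = 0
  · exact hq.ne_zero (by rw [h1, hc, C_0])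
  · exact hq.not_isUnit (h1 ▸ (Ne.isUnit hc).map C)

theorem swap (h : Cht O a b) : Cht O b a := ⟨h.1.swap, Set.pair_comm a b ▸ h.2⟩

theorem aeval_in (h : Cht O a b) (q : MvPolynomial (Fin 2) k) : aeval ![a, b] q ∈ O :=
  h.2.2.1 (mem_adjoin_pair.2 ⟨q, rfl⟩)

/-- The maximal ideal is generated by centered coordinates. -/
theorem gen (h : Cht O a b) (ha : a ∈ mx O) (hb : b ∈ mx O) (hs : s ∈ mx O) :
    ∃ p ∈ O, ∃ q ∈ O, s = p * a + q * b := by
  have key : ∀ f ∈ Algebra.adjoin k {a, b}, ∃ c : k, ∃ p ∈ O, ∃ q ∈ O,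
      f = algebraMap k M c + p * a + q * b := by
    intro f hf
    induction hf using Algebra.adjoin_induction with
    | mem g hg =>
      rcases hg with rfl | rfl
      · exact ⟨0, 1, O.one_mem, 0, O.zero_mem, by simp⟩
      · exact ⟨0, 0, O.zero_mem, 1, O.one_mem, by simp⟩
    | algebraMap c => exact ⟨c, 0, O.zero_mem, 0, O.zero_mem, by simp⟩
    | add f g _ _ hf hg =>
      obtain ⟨c, p, hp, q, hq, e⟩ := hf
      obtain ⟨c', p', hp', q', hq', e'⟩ := hg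
      exact ⟨c + c', p + p', O.add_mem hp hp', q + q', O.add_mem hq hq', by
        rw [map_add]; linear_combination e + e'⟩
    | mul f g _ hg' hf hg =>
      obtain ⟨c, p, hp, q, hq, e⟩ := hf
      obtain ⟨c', p', hp', q', hq', e'⟩ := hg
      have hc := O.algebraMap_mem c
      exact ⟨c * c', _, O.add_mem (O.mul_mem hc hp') (O.mul_mem hp (h.2.2.1 hg')),
        _, O.add_mem (O.mul_mem hc hq') (O.mul_mem hq (h.2.2.1 hg')), by
        rw [map_mul]; linear_combination g * e + algebraMap k M c * e'⟩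
  obtain ⟨n, hn, d, -, hd, rfl⟩ := h.2.2.2 s hs.1
  obtain ⟨c, p, hp, q, hq, e⟩ := key n hn
  have h1 := mx_sub' h.2.1 (mx_sub' h.2.1 (mx_mul_right hs hd.mem) (mx_mul_left hp ha))
    (mx_mul_left hq hb)
  rw [div_mul_cancel₀ _ hd.ne, show n - p * a - q * b = algebraMap k M c by linear_combination e,
    const_mem_mx] at h1
  refine ⟨_, hd.div_mem hp, _, hd.div_mem hq, ?_⟩
  rw [e, h1, map_zero]
  ring

variable [CharZero k] [IsAlgClosed k]

theorem der (hP : PlaneStmt) (h : Cht O a b) (i : Fin 2) : ∃ D : Derivation k M M,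
    (∀ f ∈ O, D f ∈ O) ∧ ∀ q : MvPolynomial (Fin 2) k,
      D (aeval ![a, b] q) = aeval ![a, b] (pderiv i q) := by
  obtain ⟨D, hD⟩ := (hP k M a b h.1).der i
  refine ⟨D, der_pres h.2 D fun g hg => ?_, hD⟩
  obtain ⟨q, rfl⟩ := mem_adjoin_pair.1 (Algebra.subset_adjoin (R := k) hg)
  rw [hD]
  exact aeval_in h _

theorem crd_aux (hP : PlaneStmt) (h : Cht O a b) (ha : a ∈ mx O) (hb : b ∈ mx O) {p q : M}
    (hp : IsU O p) (hq : q ∈ O) : Crd O (p * a + q * b) := fun _ => by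
  obtain ⟨D, hD, hD'⟩ := der hP h 0
  have h1 : D a = 1 := by simpa using hD' (X 0)
  have h2 : D b = 0 := by simpa using hD' (X 1)
  refine ⟨D, hD, ?_⟩
  have := hp.add_mx h.2.1 (mx_add h.2.1 (mx_mul_right ha (hD p hp.mem))
    (mx_mul_right hb (hD q hq)))
  rwa [map_add, Derivation.leibniz, Derivation.leibniz, h1, h2, smul_zero, zero_add, smul_eq_mul,
    smul_eq_mul, smul_eq_mul, mul_one, add_assoc]

theorem crd_pt (hP : PlaneStmt) (h : Cht O a b) (ha : a ∈ mx O) (hb : b ∈ mx O)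
    (hs : s ∉ mx2 O) : Crd O s := fun hm => by
  obtain ⟨p, hp, q, hq, rfl⟩ := gen h ha hb hm
  rcases isU_or_mx hp with h1 | h1
  · exact crd_aux hP h ha hb h1 hq hm
  rcases isU_or_mx hq with h2 | h2
  · rw [add_comm] at hm ⊢
    exact crd_aux hP (swap h) hb ha h2 hp hm
  · exact (hs (add_mem (mx2_of h1 ha) (mx2_of h2 hb))).elim

theorem crd_pl (hP : PlaneStmt) {P : Place k M} (h : Cht (plO P) a b) (hs : P.ord s = 1) :
    Crd (plO P) s := by
  obtain ⟨q, hq⟩ := (hP k M a b h.1).plof P h.2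
  obtain ⟨i, hi⟩ := not_dvd hq.irr
  obtain ⟨D, hD, hD'⟩ := der hP h i
  have h0 := h.1.aeval_ne hq.irr.ne_zero
  have h1 : s ≠ 0 := fun e => by simp [e] at hs
  have h2 : Crd (plO P) (aeval ![a, b] q) := fun _ => ⟨D, hD, by
    rw [hD']
    exact isU_of_not_mx (aeval_in h _) fun hm => hi ((hq.mem _).1 hm)⟩
  have := h2.of_unit h.2.1 (aeval_in h q) ((isU_plO' P).2 ⟨div_ne_zero h1 h0, by
    rw [P.ord_div h1 h0, hs, hq.ord, sub_self]⟩)
  rwa [div_mul_cancel₀ _ h0] at this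

variable {I κ : Type} [Fintype I] [Fintype κ] {p : Pd k M I κ}

omit [CharZero k] [IsAlgClosed k]

theorem s_mem (h : PairA p) (hO : O ∈ p.T) (i : κ) : p.s i O ∈ O :=
  (h.prm i).elim fun P hP => h.all.a1.pmem _ _ P hP O hO

theorem eqn (h : PairA p) (hO : O ∈ p.T) (hc : Cht O a b) :
    ∃ u, IsU O u ∧ p.φ * p.j a b ^ 2 = u * ∏ i, p.s i O := by
  have hu := h.chart O hO a b hc
  have h0 := (div_ne_zero_iff.1 hu.ne).2
  refine ⟨_, hu.pow 2, ?_⟩
  rw [← h.eqn O hO]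
  field_simp

theorem prod_not (h : PairA p) (hO : O ∈ p.T) : ∏ i, p.s i O ∉ mx2 O := fun hm => by
  obtain ⟨c, hc, d, hd, hn⟩ := h.smo O hO
  obtain ⟨a, b, hab⟩ := h.all.a1.chart O hO
  obtain ⟨J, hJ, e⟩ := h.all.jc.jacM O a b hab c hc d hd
  obtain ⟨u, hu, e'⟩ := eqn h hO hab
  have e1 : p.j c d = J * p.j a b := e _ _
  refine hn ?_
  rw [e1, show p.φ * (J * p.j a b) ^ 2 = J ^ 2 * u * ∏ i, p.s i O by linear_combination J ^ 2 * e']
  exact mx2_mul (O.mul_mem (O.pow_mem hJ 2) hu.mem) hm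

theorem s_not (h : PairA p) (hO : O ∈ p.T) (i : κ) : p.s i O ∉ mx2 O := fun hm => by
  classical
  refine prod_not h hO ?_
  rw [← Finset.prod_erase_mul _ _ (Finset.mem_univ i)]
  exact mx2_mul (O.prod_mem fun j _ => s_mem h hO j) hm

theorem one (h : PairA p) (hO : O ∈ p.T) {i i' : κ} (hi : p.s i O ∈ mx O)
    (hi' : p.s i' O ∈ mx O) : i = i' := by
  classical
  by_contra hn
  refine prod_not h hO ?_
  rw [← Finset.prod_erase_mul _ _ (Finset.mem_univ i), ← Finset.prod_erase_mul _ _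
    (Finset.mem_erase.2 ⟨Ne.symm hn, Finset.mem_univ i'⟩), mul_assoc]
  exact mx2_mul (O.prod_mem fun j _ => s_mem h hO j) (mx2_of hi' hi)

theorem disj (h : PairA p) {i i' : κ} (hn : i ≠ i') : ip p.B (p.C i) (p.C i') = 0 := by
  obtain ⟨P, hP⟩ := h.prm i
  obtain ⟨P', hP'⟩ := h.prm i'
  have key : ∀ R ∈ p.T, R ≤ plO P' → IsU R (p.s i R) := fun R hR hle =>
    isU_of_not_mx (s_mem h hR i) fun hm =>
      hn (one h hR hm ((h.all.a1.pmx _ _ _ hP' R hR).2 hle))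
  exact (h.all.a2.nn _ _ _ hP' _ _ (h.all.a1.pmem _ _ _ hP) (key _ hP'.2.1 le_rfl)).2.2 key

theorem loc2 (h : PairA p) (hO : O ∈ p.T) (hcrd : ∀ i, Crd O (p.s i O)) (hr : RatPt O) :
    ∃ c ∈ mx O, ∃ d ∈ mx O, c ≠ 0 ∧ d ≠ 0 ∧
      (IsU O (p.φ * p.j c d ^ 2) ∨ IsU O (p.φ * p.j c d ^ 2 / c)) := by
  classical
  obtain ⟨a, ha, b, hb, hc⟩ := h.all.a1.cen O hO hr
  have ha0 : a ≠ 0 := by simpa using hc.1.x_ne 0
  have hb0 : b ≠ 0 := by simpa using hc.1.y_ne 0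
  obtain ⟨u, hu, e⟩ := eqn h hO hc
  by_cases hs : ∀ i, IsU O (p.s i O)
  · exact ⟨a, ha, b, hb, ha0, hb0, Or.inl (e ▸ hu.mul (isU_prod fun i _ => hs i))⟩
  obtain ⟨i, hi⟩ := not_forall.1 hs
  have hm : p.s i O ∈ mx O := ⟨s_mem h hO i, hi⟩
  have h0 : p.s i O ≠ 0 := fun e0 => s_not h hO i (e0 ▸ zero_mem _)
  have hr : IsU O (∏ j ∈ Finset.univ.erase i, p.s j O) := isU_prod fun j hj =>
    isU_of_not_mx (s_mem h hO j) fun hj' => (Finset.mem_erase.1 hj).1 (one h hO hj' hm)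
  rw [← Finset.prod_erase_mul _ _ (Finset.mem_univ i)] at e
  have key : ∀ d v, IsU O v → p.j (p.s i O) d = v * p.j a b →
      IsU O (p.φ * p.j (p.s i O) d ^ 2 / p.s i O) := fun d v hv e1 => by
    rw [e1, show p.φ * (v * p.j a b) ^ 2 = v ^ 2 * (u * ∏ j ∈ Finset.univ.erase i, p.s j O) *
      p.s i O by linear_combination v ^ 2 * e, mul_div_cancel_right₀ _ h0]
    exact (hv.pow 2).mul (hu.mul hr)
  obtain ⟨v, hv, w, hw, e2⟩ := h.all.jc.mem O a b hc _ hm.1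
  obtain ⟨D, hD, hD'⟩ := hcrd i hm
  rcases isU_or_mx hv with h1 | h1
  · refine ⟨_, hm, b, hb, h0, hb0, Or.inr (key b v h1 ?_)⟩
    simp only [Pd.j, jac, e2]
    ring
  rcases isU_or_mx hw with h2 | h2
  · refine ⟨_, hm, a, ha, h0, ha0, Or.inr (key a (-w) h2.neg ?_)⟩
    simp only [Pd.j, jac, e2]
    ring
  · exact (hD'.not_mx (e2 D ▸ mx_add hc.2.1 (mx_mul_right h1 (hD a ha.1))
      (mx_mul_right h2 (hD b hb.1)))).elim

end Pb

theorem pb_stmt : PbStmt := fun hP k M I κ _ _ _ _ _ _ _ p h => by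
  have crd : ∀ O ∈ p.T, ∀ i, Crd O (p.s i O) := fun O hO i => by
    rcases h.all.a1.tri O hO with rfl | hr | ⟨P, rfl⟩
    · exact fun hm => (Pb.s_not h hO i (mem_mx_top.1 hm ▸ zero_mem _)).elim
    · obtain ⟨a, ha, b, hb, hc⟩ := h.all.a1.cen O hO hr
      exact Pb.crd_pt hP hc ha hb (Pb.s_not h hO i)
    · obtain ⟨a, b, hc⟩ := h.all.a1.chart _ hO
      obtain ⟨Q, hQ⟩ := h.prm i
      intro hm
      obtain rfl := h.all.a1.peq _ _ _ hQ P hO hm
      exact Pb.crd_pl hP hc ((hQ.2.2 P hO).trans (if_pos rfl)) hm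
  exact ⟨fun O hO _ _ => Pb.one h hO, crd, fun O hO => Pb.loc2 h hO (crd O hO),
    fun _ _ => Pb.disj h⟩

end Pool.Agent.MP_20d318_ag.CB

end MrgPart0

-- ======== part 1: formerly Pool.Agent.MP_20d318_ag.CB.XLoc
section MrgPart1

/-! XLOC: the charts of the threefold `X`. -/

set_option autoImplicit false
set_option linter.unusedSectionVars false

namespace Pool.Agent.MP_20d318_ag.CB

open Pool.Agent.MP_79c67d_ag Pool.Agent.MP_20d318_ag.AG Pool.Agent.MP_20d318_ag.BV MvPolynomial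

namespace XLocR

variable {k M K I κ : Type} [Field k] [Field M] [Field K] [Algebra k M] [Algebra k K] [Fintype I]
  [Fintype κ] {p : Pd k M I κ} {ι : M →ₐ[k] K} {l : k} {ζ w : K} {O B : Subalgebra k K}

theorem z_ne (he : Ext p ι l ζ w) (c : k) : ζ - algebraMap k K c ≠ 0 := by
  have := he.tr.ne (algebraMap k M c)
  rw [AlgHom.commutes] at this
  exact sub_ne_zero.2 this

theorem z0 (he : Ext p ι l ζ w) : ζ ≠ 0 := by simpa using z_ne he 0

theorem z1 (he : Ext p ι l ζ w) : ζ - 1 ≠ 0 := by simpa using z_ne he 1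

theorem up_ne {m : M} (h : m ≠ 0) : ι m ≠ 0 := (map_ne_zero ι).2 h

theorem w_ne (ht : Pair0 p) (he : Ext p ι l ζ w) : w ≠ 0 := fun h => by
  have h1 := he.eq
  rw [h, zero_pow two_ne_zero] at h1
  exact mul_ne_zero (up_ne ht.φne)
    (mul_ne_zero (mul_ne_zero (z0 he) (z1 he)) (z_ne he l)) h1.symm

theorem eta_ne (he : Ext p ι l ζ w) (O : Subalgebra k K) : eta ζ O ≠ 0 := by
  unfold eta
  split_ifs
  · exact one_ne_zero
  · exact z0 he

theorem tau_ne (he : Ext p ι l ζ w) (O : Subalgebra k K) (j : Fin 4) : tau l ζ j O ≠ 0 := by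
  refine div_ne_zero ?_ (eta_ne he O)
  fin_cases j
  · exact z0 he
  · exact z1 he
  · exact z_ne he l
  · exact one_ne_zero

theorem ind (ht : Pair0 p) (he : Ext p ι l ζ w) :
    AlgebraicIndependent k ![ι p.x, ι p.y, ζ] := by
  let _ : Algebra M K := (ι : M →+* K).toAlgebra
  have : IsScalarTower k M K := IsScalarTower.of_algebraMap_eq fun c => (ι.commutes c).symm
  have h1 : Transcendental M ζ := transcendental_iff.2 fun q hq => he.tr q hq
  have h2 := ht.gen.ind.sumElim_comp (algebraicIndependent_iff_transcendental.2 h1)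
  have h3 := h2.comp (![Sum.inr 0, Sum.inr 1, Sum.inl 0] : Fin 3 → Fin 1 ⊕ Fin 2) (by decide)
  have h4 : (![ι p.x, ι p.y, ζ] : Fin 3 → K) = Sum.elim ![ζ] (algebraMap M K ∘ ![p.x, p.y]) ∘
      (![Sum.inr 0, Sum.inr 1, Sum.inl 0] : Fin 3 → Fin 1 ⊕ Fin 2) := by
    funext i
    fin_cases i <;> rfl
  rw [h4]
  exact h3

theorem tp (he : Ext p ι l ζ w) (O : Subalgebra k K) : ∃ α β : Fin 4 → k,
    (∀ j, tau l ζ j O = algebraMap k K (α j) * zc ζ O + algebraMap k K (β j)) ∧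
    ∀ j j', j ≠ j' → α j * β j' ≠ α j' * β j := by
  have h0 := he.l0
  have h1 := he.l1
  have h1' := h1.symm
  have hz := z0 he
  by_cases h : ζ ∈ O
  · refine ⟨![1, 1, 1, 0], ![0, -1, -l, 1], fun j => ?_, fun j j' hj => ?_⟩
    · fin_cases j <;> simp [tau, eta, zc, h, sub_eq_add_neg]
    · fin_cases j <;> fin_cases j' <;> simp_all
  · refine ⟨![0, -1, -l, 1], ![1, 1, 1, 0], fun j => ?_, fun j j' hj => ?_⟩
    · fin_cases j <;> simp [tau, eta, zc, h, hz, div_eq_mul_inv, sub_mul] <;> ring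
    · fin_cases j <;> fin_cases j' <;> simp_all

/-- The product of the four equations is a polynomial in the coordinate. -/
theorem prod_tau (he : Ext p ι l ζ w) (O : Subalgebra k K) : ∃ g : Polynomial k,
    g.coeff 1 ≠ 0 ∧ ∏ j, tau l ζ j O = Polynomial.aeval (zc ζ O) g := by
  have h0 := he.l0
  have hz := z0 he
  by_cases h : ζ ∈ O
  · refine ⟨Polynomial.X ^ 3 - Polynomial.C (l + 1) * Polynomial.X ^ 2 + Polynomial.C l * Polynomial.X,
      by simpa [Polynomial.coeff_X_pow, Polynomial.coeff_C_mul, -map_add] using h0, ?_⟩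
    simp [Fin.prod_univ_four, tau, eta, zc, h]
    ring
  · refine ⟨Polynomial.C l * Polynomial.X ^ 3 - Polynomial.C (l + 1) * Polynomial.X ^ 2 + Polynomial.X,
      by simp [Polynomial.coeff_X_pow, Polynomial.coeff_C_mul, -map_add], ?_⟩
    simp [Fin.prod_univ_four, tau, eta, zc, h]
    field_simp
    ring

theorem prod_eq (O : Subalgebra k K) :
    ∏ j, tau l ζ j O = ζ * (ζ - 1) * (ζ - algebraMap k K l) / eta ζ O ^ 4 := by
  simp only [Fin.prod_univ_four, tau]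
  simp only [Matrix.cons_val_zero, Matrix.cons_val_one, Matrix.cons_val]
  ring

theorem eta_cases (ζ : K) (O : Subalgebra k K) :
    (eta ζ O = 1 ∧ zc ζ O = ζ) ∨ (eta ζ O = ζ ∧ zc ζ O = ζ⁻¹) := by
  by_cases h : ζ ∈ O
  · exact Or.inl ⟨if_pos h, if_pos h⟩
  · exact Or.inr ⟨if_neg h, if_neg h⟩

theorem s_ne (ht : Pair0 p) {R : Subalgebra k M} (hR : R ∈ p.T) (i : κ) : p.s i R ≠ 0 := by
  obtain ⟨P, hP⟩ := ht.prm i
  exact mul_ne_zero hP.1 (p.toSd.lb_ne (ht.all.a1.gne R hR) _)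

theorem s_mem (ht : Pair0 p) {R : Subalgebra k M} (hR : R ∈ p.T) (i : κ) : p.s i R ∈ R := by
  obtain ⟨P, hP⟩ := ht.prm i
  exact ht.all.a1.pmem _ _ _ hP R hR

theorem j_ne (ht : Pair0 p) {R : Subalgebra k M} (hR : R ∈ p.T) : p.jj R ≠ 0 :=
  mul_ne_zero ht.ωne (p.toSd.lb_ne (ht.all.a1.gne R hR) _)

variable (p ι ζ) in
/-- The common factor of the family defining the blow-up. -/
noncomputable def NN (O : Subalgebra k K) : K := ι (gn p.U (pr ι p.T O)) * eta ζ O ^ 2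

section loc

variable (ht : Pair0 p) (he : Ext p ι l ζ w) (hR : pr ι p.T O ∈ p.T)

include ht he hR

theorem N_ne : NN p ι ζ O ≠ 0 :=
  mul_ne_zero (up_ne (ht.gU _ hR).ne) (pow_ne_zero _ (eta_ne he O))

theorem A_ne : AA p ι ζ w O ≠ 0 :=
  div_ne_zero (w_ne ht he)
    (mul_ne_zero (up_ne (mul_ne_zero ht.φne (j_ne ht hR))) (pow_ne_zero _ (eta_ne he O)))

theorem eqn : AA p ι ζ w O ^ 2 * ∏ i, sX p ι i O = ∏ j, tau l ζ j O := by
  have h1 : ∏ i, sX p ι i O = ι p.φ * ι (p.jj (pr ι p.T O)) ^ 2 := by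
    rw [← map_pow, ← map_mul, ht.eqn _ hR, map_prod]
    rfl
  have h3 := eta_ne he O
  have h4 : ι (p.jj (pr ι p.T O)) ≠ 0 := up_ne (j_ne ht hR)
  have h5 : ι p.φ ≠ 0 := up_ne ht.φne
  rw [prod_eq, h1]
  simp only [AA, up, map_mul, div_pow]
  rw [he.eq]
  field_simp

theorem w_eq (m : M) : w * ι m = NN p ι ζ O * AA p ι ζ w O *
    ι (m / (gn p.U (pr ι p.T O) / (p.φ * p.jj (pr ι p.T O)))) := by
  have h3 := eta_ne he O
  have h4 : ι (p.jj (pr ι p.T O)) ≠ 0 := up_ne (j_ne ht hR)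
  have h5 : ι p.φ ≠ 0 := up_ne ht.φne
  have h6 : ι (gn p.U (pr ι p.T O)) ≠ 0 := up_ne (ht.gU _ hR).ne
  simp only [NN, AA, up, map_mul, map_div₀]
  field_simp

theorem v_eq (m : M) (c : K) : ι m * c = NN p ι ζ O *
    (ι (m / gn p.U (pr ι p.T O)) * (c / eta ζ O ^ 2)) := by
  have h3 := eta_ne he O
  have h6 : ι (gn p.U (pr ι p.T O)) ≠ 0 := up_ne (ht.gU _ hR).ne
  simp only [NN, map_div₀]
  field_simp

theorem SI_mem (hB : ∀ a ∈ pr ι p.T O, ι a ∈ B) (hz : zc ζ O ∈ B) :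
    ∀ c ∈ SI p ι ζ w, ∃ b ∈ B, c = NN p ι ζ O * AA p ι ζ w O * b ∨ c = NN p ι ζ O * b := by
  have g := (ht.gU' _ hR).1
  have g' := (ht.gU _ hR).1
  have hz0 := z0 he
  have p1 : 1 / eta ζ O ^ 2 ∈ B := by
    rcases eta_cases ζ O with ⟨h1, h2⟩ | ⟨h1, h2⟩
    · rw [h1]; simp
    · rw [h1, one_div, ← inv_pow, ← h2]; exact pow_mem hz 2
  have p2 : ζ ^ 2 / eta ζ O ^ 2 ∈ B := by
    rcases eta_cases ζ O with ⟨h1, h2⟩ | ⟨h1, h2⟩
    · rw [h1, one_pow, div_one, ← h2]; exact pow_mem hz 2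
    · rw [h1, div_self (pow_ne_zero _ hz0)]; exact B.one_mem
  have key : ∀ m ∈ p.U, ∀ c : K, c / eta ζ O ^ 2 ∈ B → ∃ b ∈ B,
      ι m * c = NN p ι ζ O * AA p ι ζ w O * b ∨ ι m * c = NN p ι ζ O * b :=
    fun m hm c hc => ⟨_, mul_mem (hB _ (g' m hm)) hc, Or.inr (v_eq ht he hR m c)⟩
  rintro c (⟨m, hm, rfl⟩ | ⟨m, hm, rfl⟩ | ⟨m, hm, rfl⟩)
  · exact ⟨_, hB _ (g m hm), Or.inl (w_eq ht he hR m)⟩
  · simpa using key m hm 1 p1
  · exact key m hm _ p2

theorem SI_one : ∃ u, IsU (pr ι p.T O) u ∧ NN p ι ζ O * AA p ι ζ w O * ι u ∈ SI p ι ζ w := by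
  obtain ⟨m, hm, hu⟩ := (ht.gU' _ hR).2
  refine ⟨_, hu, ?_⟩
  rw [← w_eq ht he hR]
  exact Or.inl ⟨m, hm, rfl⟩

theorem SI_two : ∃ u, IsU (pr ι p.T O) u ∧ NN p ι ζ O * ι u ∈ SI p ι ζ w := by
  obtain ⟨m, hm, hu⟩ := (ht.gU _ hR).2
  refine ⟨_, hu, ?_⟩
  have h1 := v_eq ht he hR m (eta ζ O ^ 2)
  rw [div_self (pow_ne_zero _ (eta_ne he O)), mul_one] at h1
  rw [← h1]
  rcases eta_cases ζ O with ⟨h2, -⟩ | ⟨h2, -⟩ <;> rw [h2]
  · exact Or.inr (Or.inl ⟨m, hm, by simp⟩)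
  · exact Or.inr (Or.inr ⟨m, hm, rfl⟩)

theorem chart_SI (hB : ∀ a ∈ pr ι p.T O, ι a ∈ B) (hz : zc ζ O ∈ B)
    (ha : AA p ι ζ w O ∈ B ∨ (AA p ι ζ w O)⁻¹ ∈ B) :
    ∃ b ∈ SI p ι ζ w, b ≠ 0 ∧ ∀ c ∈ SI p ι ζ w, c / b ∈ B := by
  have hN := N_ne ht he hR
  have hA := A_ne ht he hR
  rcases ha with ha | ha
  · obtain ⟨u, hu, h⟩ := SI_two ht he hR
    have h0 : ι u ≠ 0 := up_ne hu.ne
    have h1 : (ι u)⁻¹ ∈ B := by simpa using hB _ hu.inv_mem
    refine ⟨_, h, mul_ne_zero hN h0, fun c hc => ?_⟩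
    obtain ⟨b, hb, rfl | rfl⟩ := SI_mem ht he hR hB hz c hc
    · exact Set.mem_of_eq_of_mem (by field_simp) (mul_mem (mul_mem ha hb) h1)
    · exact Set.mem_of_eq_of_mem (by field_simp) (mul_mem hb h1)
  · obtain ⟨u, hu, h⟩ := SI_one ht he hR
    have h0 : ι u ≠ 0 := up_ne hu.ne
    have h1 : (ι u)⁻¹ ∈ B := by simpa using hB _ hu.inv_mem
    refine ⟨_, h, mul_ne_zero (mul_ne_zero hN hA) h0, fun c hc => ?_⟩
    obtain ⟨b, hb, rfl | rfl⟩ := SI_mem ht he hR hB hz c hc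
    · exact Set.mem_of_eq_of_mem (by field_simp) (mul_mem hb h1)
    · exact Set.mem_of_eq_of_mem (by field_simp) (mul_mem (mul_mem ha hb) h1)

theorem aa_of (hB : ∀ a ∈ pr ι p.T O, ι a ∈ B) (hz : zc ζ O ∈ B)
    (hp : Prin (SI p ι ζ w) B) : AA p ι ζ w O ∈ B ∨ (AA p ι ζ w O)⁻¹ ∈ B := by
  have hN := N_ne ht he hR
  have hA := A_ne ht he hR
  obtain ⟨c, hc, hg⟩ := hp.exists_mem
  have hc0 := hg.ne
  obtain ⟨b, hb, rfl | rfl⟩ := SI_mem ht he hR hB hz c hc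
  · obtain ⟨u, hu, h⟩ := SI_two ht he hR
    have h0 : ι u ≠ 0 := up_ne hu.ne
    have h1 : (ι u)⁻¹ ∈ B := by simpa using hB _ hu.inv_mem
    have hb0 := right_ne_zero_of_mul hc0
    right
    exact Set.mem_of_eq_of_mem (by field_simp) (mul_mem (mul_mem (hg.1 _ h) hb) h1)
  · obtain ⟨u, hu, h⟩ := SI_one ht he hR
    have h0 : ι u ≠ 0 := up_ne hu.ne
    have h1 : (ι u)⁻¹ ∈ B := by simpa using hB _ hu.inv_mem
    have hb0 := right_ne_zero_of_mul hc0
    left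
    exact Set.mem_of_eq_of_mem (by field_simp) (mul_mem (mul_mem (hg.1 _ h) hb) h1)

end loc

section glob

variable (ht : Pair0 p) (he : Ext p ι l ζ w)

include ht he

theorem fam : Fam k (famX p ι ζ w) where
  fin := by
    rintro (_ | b)
    · exact (ht.all.s.fam.fin ()).image ι
    · cases b
      · exact Set.toFinite ({ζ, 1} : Set K)
      · exact (ht.fU'.image _).union ((ht.fU.image _).union (ht.fU.image _))
  ne := by
    rintro (_ | b)
    · exact (ht.all.s.fam.ne ()).image ι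
    · cases b
      · exact ⟨ζ, Or.inl rfl⟩
      · obtain ⟨m, hm, -⟩ := (ht.gU _ ht.all.a1.nice.toFine.top).2
        exact ⟨ι m, Or.inr (Or.inl ⟨m, hm, rfl⟩)⟩
  nz := by
    rintro (_ | b) a ha
    · obtain ⟨m, hm, rfl⟩ := ha
      exact up_ne (ht.all.s.fam.nz () m hm)
    · cases b
      · rcases ha with rfl | rfl
        · exact z0 he
        · exact one_ne_zero
      · rcases ha with ⟨m, hm, rfl⟩ | ⟨m, hm, rfl⟩ | ⟨m, hm, rfl⟩
        · exact mul_ne_zero (w_ne ht he) (up_ne (ht.nU' m hm))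
        · exact up_ne (ht.nU m hm)
        · exact mul_ne_zero (up_ne (ht.nU m hm)) (pow_ne_zero _ (z0 he))
  top := by
    have h1 : (⊤ : IntermediateField k M) ≤ (IntermediateField.adjoin k
        {f | ∃ l, ∃ a ∈ famX p ι ζ w l, ∃ b ∈ famX p ι ζ w l, f = a / b}).comap ι := by
      rw [← ht.all.s.fam.top, IntermediateField.adjoin_le_iff]
      rintro _ ⟨o, a, ha, b, hb, rfl⟩
      exact IntermediateField.subset_adjoin _ _
        ⟨none, ι a, ⟨a, ha, rfl⟩, ι b, ⟨b, hb, rfl⟩, map_div₀ ι a b⟩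
    rw [eq_top_iff, ← he.top, IntermediateField.adjoin_le_iff]
    rintro f (⟨m, h⟩ | h | h)
    · exact h ▸ h1 (IntermediateField.mem_top (x := m))
    · exact IntermediateField.subset_adjoin _ _
        ⟨some false, ζ, Or.inl rfl, 1, Or.inr rfl, by simpa using h⟩
    · obtain ⟨m, hm, -⟩ := (ht.gU _ ht.all.a1.nice.toFine.top).2
      obtain ⟨m', hm', -⟩ := (ht.gU' _ ht.all.a1.nice.toFine.top).2
      have h2 : ι m ≠ 0 := up_ne (ht.nU m hm)
      have h3 : ι m' ≠ 0 := up_ne (ht.nU' m' hm')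
      have e : f = w * ι m' / ι m * ι (m / m') := by
        rw [map_div₀, show f = w from h]
        field_simp
      rw [e]
      exact mul_mem (IntermediateField.subset_adjoin _ _ ⟨some true, w * ι m', Or.inl ⟨m', hm', rfl⟩,
        ι m, Or.inr (Or.inl ⟨m, hm, rfl⟩), rfl⟩) (h1 (IntermediateField.mem_top (x := m / m')))

theorem maps : Maps ι (XX p ι ζ w) p.T := fun O hO => by
  refine exists_mp_dom (S := fun _ : Unit => p.H) (isLocalRing_comap ι (mp_loc hO)) fun _ => ?_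
  obtain ⟨_, ⟨b, -, rfl⟩, hg⟩ := (mp_prin (fam ht he) hO none).exists_mem
  exact ((gn_map ι).1 hg).prin

variable (hO : O ∈ XX p ι ζ w)

include hO

theorem zm : zc ζ O ∈ O := by
  unfold zc
  split_ifs with h
  · exact h
  · rcases Prin.pair (mp_prin (fam ht he) hO (some false)) with h1 | h1
    · exact absurd (by simpa using h1) h
    · simpa using h1

theorem gZ : Gn {ζ, 1} O (eta ζ O) := by
  have hz := zm ht he hO
  rcases eta_cases ζ O with ⟨h1, h2⟩ | ⟨h1, h2⟩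
  · rw [h1]
    exact gn_right one_ne_zero (by rw [div_one, ← h2]; exact hz)
  · rw [h1]
    exact gn_left (z0 he) (by rw [one_div, ← h2]; exact hz)

theorem aa : AA p ι ζ w O ∈ O ∨ (AA p ι ζ w O)⁻¹ ∈ O :=
  aa_of ht he ((maps ht he).mem hO) (fun _ ha => (maps ht he).mem_up hO ha) (zm ht he hO)
    (mp_prin (fam ht he) hO (some true))

theorem pts (a : K) (ha : a ∈ O) (h : a = AA p ι ζ w O ∨ a = (AA p ι ζ w O)⁻¹) :
    O ∈ Pts (Algebra.adjoin k (ι '' pr ι p.T O ∪ {zc ζ O, a})) := by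
  have hm := maps ht he
  have hB : ∀ b ∈ pr ι p.T O,
      ι b ∈ Algebra.adjoin k (ι '' pr ι p.T O ∪ {zc ζ O, a}) := fun b hb =>
    Algebra.subset_adjoin (Or.inl ⟨b, hb, rfl⟩)
  have hz : zc ζ O ∈ Algebra.adjoin k (ι '' pr ι p.T O ∪ {zc ζ O, a}) :=
    Algebra.subset_adjoin (Or.inr (Or.inl rfl))
  have ha' : a ∈ Algebra.adjoin k (ι '' pr ι p.T O ∪ {zc ζ O, a}) :=
    Algebra.subset_adjoin (Or.inr (Or.inr rfl))
  refine mp_chart (fam ht he) hO ?_ ?_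
  · rw [Algebra.adjoin_le_iff]
    rintro _ (⟨b, hb, rfl⟩ | rfl | rfl)
    · exact hm.mem_up hO hb
    · exact zm ht he hO
    · exact ha
  · rintro (_ | b)
    · obtain ⟨b, hb, hg⟩ := (mp_prin ht.all.s.fam (hm.mem hO) ()).exists_mem
      refine ⟨ι b, ⟨b, hb, rfl⟩, ?_⟩
      rintro _ ⟨c, hc, rfl⟩
      rw [← map_div₀]
      exact le_fr (hB _ (hg.1 c hc))
    · cases b
      · have hz0 := z0 he
        rcases eta_cases ζ O with ⟨-, h2⟩ | ⟨-, h2⟩
        · refine ⟨1, Or.inr rfl, fun c hc => le_fr ?_⟩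
          rcases hc with hc | hc <;> rw [hc, div_one]
          · exact Set.mem_of_eq_of_mem h2.symm hz
          · exact one_mem _
        · refine ⟨ζ, Or.inl rfl, fun c hc => le_fr ?_⟩
          rcases hc with hc | hc <;> rw [hc]
          · rw [div_self hz0]
            exact one_mem _
          · rw [one_div]
            exact Set.mem_of_eq_of_mem h2.symm hz
      · obtain ⟨b, hb, -, h1⟩ := chart_SI ht he (hm.mem hO) hB hz
          (h.imp (fun h => Set.mem_of_eq_of_mem h.symm ha') fun h => Set.mem_of_eq_of_mem h.symm ha')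
        exact ⟨b, hb, fun c hc => le_fr (h1 c hc)⟩

theorem tm (j : Fin 4) : tau l ζ j O ∈ O := by
  obtain ⟨α, β, h, -⟩ := tp he O
  rw [h]
  exact add_mem (mul_mem (O.algebraMap_mem _) (zm ht he hO)) (O.algebraMap_mem _)

theorem sm (i : κ) : sX p ι i O ∈ O :=
  (maps ht he).mem_up hO (s_mem ht ((maps ht he).mem hO) i)

omit ht in
theorem t1 (j j' : Fin 4) (h : tau l ζ j O ∈ mx O) (h' : tau l ζ j' O ∈ mx O) : j = j' := by
  by_contra hn
  obtain ⟨α, β, h1, h2⟩ := tp he O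
  have h3 := mx_sub' (mp_loc hO) (mx_mul_left (O.algebraMap_mem (α j)) h')
    (mx_mul_left (O.algebraMap_mem (α j')) h)
  have h4 : algebraMap k K (α j) * tau l ζ j' O - algebraMap k K (α j') * tau l ζ j O =
      algebraMap k K (α j * β j' - α j' * β j) := by
    rw [h1, h1, map_sub, map_mul, map_mul]
    ring
  rw [h4, const_mem_mx, sub_eq_zero] at h3
  exact h2 j j' hn h3

theorem s1 (i i' : κ) (h : sX p ι i O ∈ mx O) (h' : sX p ι i' O ∈ mx O) : i = i' := by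
  have hm := maps ht he
  have hR := hm.mem hO
  exact ht.one _ hR i i' ((hm.mx_up hO (s_mem ht hR i)).1 h) ((hm.mx_up hO (s_mem ht hR i')).1 h')

theorem ss_mem (u : K) : ∏ i, sX p ι i O ∈ Algebra.adjoin k (ι '' pr ι p.T O ∪ {u}) :=
  prod_mem fun i _ => Algebra.subset_adjoin (Or.inl ⟨_, s_mem ht ((maps ht he).mem hO) i, rfl⟩)

/-- The coordinate on the line is algebraic over the rest. -/
theorem algZ : AlgM O (Algebra.adjoin k (ι '' pr ι p.T O ∪ {AA p ι ζ w O})) (zc ζ O) := by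
  obtain ⟨g, h1, h2⟩ := prod_tau he O
  have hA : AA p ι ζ w O ∈ Algebra.adjoin k (ι '' pr ι p.T O ∪ {AA p ι ζ w O}) :=
    Algebra.subset_adjoin (Or.inr rfl)
  refine ⟨g.map (algebraMap k K) -
    Polynomial.C (AA p ι ζ w O ^ 2 * (∏ i, sX p ι i O)), fun i => ?_, ⟨1, ?_⟩, ?_⟩
  · rw [Polynomial.coeff_sub, Polynomial.coeff_map, Polynomial.coeff_C]
    refine sub_mem (Subalgebra.algebraMap_mem _ _) ?_
    split_ifs
    · exact mul_mem (pow_mem hA 2) (ss_mem ht he hO _)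
    · exact zero_mem _
  · rw [Polynomial.coeff_sub, Polynomial.coeff_map, Polynomial.coeff_C, if_neg one_ne_zero, sub_zero]
    exact isU_const h1
  · rw [Polynomial.eval_sub, Polynomial.eval_C, eqn ht he ((maps ht he).mem hO), h2,
      Polynomial.eval_map_algebraMap, sub_self]
    exact zero_mem_mx

/-- Away from the branch curves the fibre coordinate is algebraic over the rest. -/
theorem algA (hs : ∀ i, IsU O (sX p ι i O)) :
    AlgM O (Algebra.adjoin k (ι '' pr ι p.T O ∪ {zc ζ O})) (AA p ι ζ w O) := by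
  obtain ⟨g, -, h2⟩ := prod_tau he O
  have hz : zc ζ O ∈ Algebra.adjoin k (ι '' pr ι p.T O ∪ {zc ζ O}) :=
    Algebra.subset_adjoin (Or.inr rfl)
  refine ⟨Polynomial.monomial 2 (∏ i, sX p ι i O) -
    Polynomial.C (∏ j, tau l ζ j O), fun i => ?_, ⟨2, ?_⟩, ?_⟩
  · rw [Polynomial.coeff_sub, Polynomial.coeff_monomial, Polynomial.coeff_C]
    refine sub_mem ?_ ?_ <;> split_ifs
    · exact ss_mem ht he hO _
    · exact zero_mem _
    · rw [h2]
      exact Polynomial.aeval_mem_adjoin_singleton k _ |> (Algebra.adjoin_le (by simpa using hz))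
    · exact zero_mem _
  · rw [Polynomial.coeff_sub, Polynomial.coeff_monomial, Polynomial.coeff_C, if_pos rfl,
      if_neg two_ne_zero, sub_zero]
    exact isU_prod fun i _ => hs i
  · rw [Polynomial.eval_sub, Polynomial.eval_C, Polynomial.eval_monomial,
      ← eqn ht he ((maps ht he).mem hO), mul_comm, sub_self]
    exact zero_mem_mx

variable (hD : DimUpStmt) {n : ℕ} (hn : Dim (pr ι p.T O) n)

include hD hn

theorem upA (ha : AA p ι ζ w O ∈ O) : Dim O (n + 1) ∧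
    (AlgM O ((pr ι p.T O).map ι) (AA p ι ζ w O) → Dim O n) :=
  hD k M K ι _ O _ (zc ζ O) n ((maps ht he).dom hO)
    (by rw [Set.pair_comm]; exact pts ht he hO _ ha (Or.inl rfl)) hn (algZ ht he hO)

theorem upZ (a : K) (ha : a ∈ mx O) (h : a = AA p ι ζ w O ∨ a = (AA p ι ζ w O)⁻¹) :
    Dim O (n + 1) ∧ (AlgM O ((pr ι p.T O).map ι) (zc ζ O) → Dim O n) :=
  hD k M K ι _ O _ a n ((maps ht he).dom hO) (pts ht he hO a ha.1 h) hn
    (algM_of_mx (c := 0) (by simpa using ha))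

omit hD hn in
theorem inv_mx (h : AA p ι ζ w O ∉ O) : (AA p ι ζ w O)⁻¹ ∈ mx O :=
  ⟨(aa ht he hO).resolve_left h, fun h1 => h (by simpa using h1.inv_mem)⟩

theorem dim : Dim O (n + 1) := by
  by_cases h : AA p ι ζ w O ∈ O
  · exact (upA ht he hO hD hn h).1
  · exact (upZ ht he hO hD hn _ (inv_mx ht he hO h) (Or.inr rfl)).1

theorem dimZ (h1 : AlgM O ((pr ι p.T O).map ι) (zc ζ O))
    (h2 : ¬ (IsU O (AA p ι ζ w O) ∧ ∃ i, sX p ι i O ∈ mx O)) : Dim O n := by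
  by_cases h : AA p ι ζ w O ∈ O
  · rcases isU_or_mx h with h3 | h3
    · exact (hD k M K ι _ O _ _ n ((maps ht he).dom hO) (pts ht he hO _ h (Or.inl rfl)) hn
        (algA ht he hO fun i => isU_of_not_mx (sm ht he hO i) fun h4 => h2 ⟨h3, i, h4⟩)).2 h1
    · exact (upZ ht he hO hD hn _ h3 (Or.inl rfl)).2 h1
  · exact (upZ ht he hO hD hn _ (inv_mx ht he hO h) (Or.inr rfl)).2 h1

end glob

end XLocR

open XLocR in
theorem xLoc_stmt : XLocStmt := fun hD _ _ _ _ _ _ _ _ _ _ _ _ _ _ _ _ _ _ _ ht he =>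
  { fam := fam ht he
    fine := fine_mp (fam ht he)
    maps := maps ht he
    ind := ind ht he
    wne := w_ne ht he
    tne := tau_ne he
    zm := fun _ => zm ht he
    gZ := fun _ => gZ ht he
    tp := tp he
    sne := fun _ hO i => up_ne (s_ne ht ((maps ht he).mem hO) i)
    ane := fun _ hO => A_ne ht he ((maps ht he).mem hO)
    aa := fun _ => aa ht he
    eqn := fun _ hO => eqn ht he ((maps ht he).mem hO)
    pts := fun _ => pts ht he
    prin := fun _ _ h ha hz => by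
      obtain ⟨h1, h2⟩ := pr_spec h
      obtain ⟨b, hb, h0, h3⟩ := chart_SI ht he h1 (fun _ hc => h2.1 hc) hz ha
      exact (gn_of_mem hb h0 h3).prin
    tm := fun _ => tm ht he
    sm := fun _ => sm ht he
    t1 := fun _ => t1 he
    s1 := fun _ => s1 ht he
    dim := fun _ hO _ hn => dim ht he hO hD hn
    dimZ := fun _ hO _ hn => dimZ ht he hO hD hn
    dimA := fun _ hO _ hn hu => (upA ht he hO hD hn hu.mem).2 }

end Pool.Agent.MP_20d318_ag.CB

end MrgPart1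

-- ======== part 2: formerly Pool.Agent.MP_20d318_ag.CB.XPl
section MrgPart2

/-! The prime divisors of the threefold. -/

set_option autoImplicit false

namespace Pool.Agent.MP_20d318_ag.CB

open Pool.Agent.MP_79c67d_ag Pool.Agent.MP_20d318_ag.AG Pool.Agent.MP_20d318_ag.BV MvPolynomial
open Pool.Agent.MP_20d318_ag.BV.XPlAux (ext0 ext1 ext3 le_pu self_pu eta_congr zc_congr tau_congr
  zeta_of_units gen_cases zc_eq)

namespace XPlA

variable {k M K I κ : Type} [Field k] [Field M] [Field K] [Algebra k M] [Algebra k K] [Fintype I]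
  [Fintype κ] {p : Pd k M I κ} {ι : M →ₐ[k] K} {l : k} {ζ w : K} {O O' : Subalgebra k K}

omit [Fintype κ] in
theorem sX_congr (hR : pr ι p.T O' = pr ι p.T O) (i : κ) :
    sX p ι i O' = sX p ι i O := by
  unfold sX up; rw [hR]

omit [Fintype κ] in
theorem AA_congr (h : ζ ∈ O ↔ ζ ∈ O') (hR : pr ι p.T O' = pr ι p.T O) :
    AA p ι ζ w O' = AA p ι ζ w O := by
  unfold AA up; rw [eta_congr h, hR]

/-- The branch point decides the chart of the line. -/
theorem zeta_mem (hL : XLoc p ι l ζ w) (hO : O ∈ XX p ι ζ w) {j : Fin 4}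
    (ht : tau l ζ j O ∈ mx O) : ζ ∈ O ↔ j ≠ 3 := by
  constructor
  · rintro hz rfl
    exact one_not_mem_mx (by simpa [tau, eta, hz] using ht)
  · intro hj
    by_contra hz
    have h1 : ζ⁻¹ ∈ O := by simpa [zc, hz] using hL.zm O hO
    have h2 : tau l ζ 3 O ∈ mx O := by
      have e : tau l ζ 3 O = ζ⁻¹ := by simp [tau, eta, hz]
      rw [e]
      exact ⟨h1, fun hu => hz (by simpa using hu.2.2)⟩
    exact hj (hL.t1 O hO j 3 ht h2)

theorem zc_const (hL : XLoc p ι l ζ w) {j : Fin 4} (ht : tau l ζ j O ∈ mx O) :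
    ∃ c e : k, zc ζ O - algebraMap k K c = algebraMap k K e * tau l ζ j O := by
  obtain ⟨α, β, h1, h2⟩ := hL.tp O
  have ha : α j ≠ 0 := fun ha => by
    rw [h1 j, ha, map_zero, zero_mul, zero_add, const_mem_mx] at ht
    obtain ⟨j', hj⟩ := exists_ne j
    exact h2 j j' hj.symm (by rw [ha, ht, zero_mul, mul_zero])
  refine ⟨-β j / α j, (α j)⁻¹, ?_⟩
  have : algebraMap k K (α j) ≠ 0 := by simpa using ha
  rw [h1 j, map_div₀, map_neg, map_inv₀]
  field_simp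
  ring

theorem algM_zc (hL : XLoc p ι l ζ w) {j : Fin 4} (ht : tau l ζ j O ∈ mx O)
    (B : Subalgebra k K) : AlgM O B (zc ζ O) := by
  obtain ⟨c, e, h⟩ := zc_const hL ht
  exact algM_of_mx (c := c) (h ▸ mx_mul_left (O.algebraMap_mem e) ht)

theorem map_le (hL : XLoc p ι l ζ w) (hO : O ∈ XX p ι ζ w) :
    (pr ι p.T O).map ι ≤ O := by
  rintro _ ⟨a, ha, rfl⟩
  exact hL.maps.mem_up hO ha

theorem map_le' (hL : XLoc p ι l ζ w) (hO' : O' ∈ XX p ι ζ w)
    (hR : pr ι p.T O' = pr ι p.T O) : (pr ι p.T O).map ι ≤ O' :=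
  hR ▸ map_le hL hO'

theorem map_mx (hL : XLoc p ι l ζ w) (hO : O ∈ XX p ι ζ w) (hO' : O' ∈ XX p ι ζ w)
    (hR : pr ι p.T O' = pr ι p.T O) :
    ∀ s ∈ (pr ι p.T O).map ι, s ∈ mx O ↔ s ∈ mx O' := by
  rintro _ ⟨a, ha, rfl⟩
  change ι a ∈ mx O ↔ ι a ∈ mx O'
  rw [hL.maps.mx_up hO ha, hL.maps.mx_up hO' (hR ▸ ha), hR]

theorem s_mem (h : XAll p ι l ζ w) {R : Subalgebra k M} (hR : R ∈ p.T) (i : κ) : p.s i R ∈ R :=
  (h.t.prm i).elim fun Q hQ => h.t.all.a1.pmem _ _ Q hQ R hR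

theorem sX_mx (h : XAll p ι l ζ w) (hO : O ∈ XX p ι ζ w) (i : κ) :
    sX p ι i O ∈ mx O ↔ p.s i (pr ι p.T O) ∈ mx (pr ι p.T O) :=
  h.loc.maps.mx_up hO (s_mem h (h.loc.maps.mem hO) i)

theorem sX_top (h : XAll p ι l ζ w) (hO : O ∈ XX p ι ζ w) (hR : pr ι p.T O = ⊤)
    (i : κ) : IsU O (sX p ι i O) := by
  refine isU_of_not_mx (h.loc.sm O hO i) fun hm => h.loc.sne O hO i ?_
  have h1 := (sX_mx h hO i).1 hm
  unfold sX up
  rw [hR] at h1 ⊢
  rw [mem_mx_top.1 h1, map_zero]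

theorem prod_tau_mx (hL : XLoc p ι l ζ w) (hO : O ∈ XX p ι ζ w) {j : Fin 4}
    (ht : tau l ζ j O ∈ mx O) : ∏ j, tau l ζ j O ∈ mx O := by
  rw [← Finset.mul_prod_erase _ _ (Finset.mem_univ j)]
  exact mx_mul_right ht (O.prod_mem fun j' _ => hL.tm O hO j')

theorem eqn_inv (hL : XLoc p ι l ζ w) (hO : O ∈ XX p ι ζ w) :
    ∏ i, sX p ι i O = (AA p ι ζ w O)⁻¹ ^ 2 * ∏ j, tau l ζ j O := by
  have := hL.ane O hO
  rw [← hL.eqn O hO]
  field_simp

theorem ss_mx (hL : XLoc p ι l ζ w) (hO : O ∈ XX p ι ζ w) {i : κ}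
    (hs : sX p ι i O ∈ mx O) : ∏ i, sX p ι i O ∈ mx O := by
  classical
  rw [← Finset.mul_prod_erase _ _ (Finset.mem_univ i)]
  exact mx_mul_right hs (O.prod_mem fun i' _ => hL.sm O hO i')

/-- On the ramification divisors over the branch points `A` vanishes. -/
theorem A_mx (hL : XLoc p ι l ζ w) (hO : O ∈ XX p ι ζ w) {j : Fin 4}
    (ht : tau l ζ j O ∈ mx O) (hs : ∀ i, IsU O (sX p ι i O)) : AA p ι ζ w O ∈ mx O := by
  have h1 := prod_tau_mx hL hO ht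
  have hu : IsU O (∏ i, sX p ι i O) := isU_prod fun i _ => hs i
  rcases hL.aa O hO with hA | hA
  · rw [← hL.eqn O hO] at h1
    exact mx_of_pow hA ((mx_or_of_mul (O.pow_mem hA 2) hu.mem h1).resolve_right hu.not_mx)
  · exact absurd (eqn_inv hL hO ▸ mx_mul_left (O.pow_mem hA 2) h1) hu.not_mx

/-- On the ramification divisors over the branch curves `1 / A` vanishes. -/
theorem Ainv_mx (hL : XLoc p ι l ζ w) (hO : O ∈ XX p ι ζ w) {i : κ}
    (hs : sX p ι i O ∈ mx O) (ht : ∀ j, IsU O (tau l ζ j O)) :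
    (AA p ι ζ w O)⁻¹ ∈ mx O := by
  have h1 := ss_mx hL hO hs
  have hu : IsU O (∏ j, tau l ζ j O) := isU_prod fun j _ => ht j
  rcases hL.aa O hO with hA | hA
  · exact absurd (hL.eqn O hO ▸ mx_mul_left (O.pow_mem hA 2) h1) hu.not_mx
  · rw [eqn_inv hL hO] at h1
    exact mx_of_pow hA ((mx_or_of_mul (O.pow_mem hA 2) hu.mem h1).resolve_right hu.not_mx)

theorem A_unit (hL : XLoc p ι l ζ w) (hO : O ∈ XX p ι ζ w)
    (hs : ∀ i, IsU O (sX p ι i O)) (ht : ∀ j, IsU O (tau l ζ j O)) :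
    IsU O (AA p ι ζ w O) := by
  have hu : IsU O (∏ j, tau l ζ j O) := isU_prod fun j _ => ht j
  have hv : IsU O (∏ i, sX p ι i O) := isU_prod fun i _ => hs i
  rcases hL.aa O hO with hA | hA
  · rw [← hL.eqn O hO] at hu
    exact IsU.of_pow hA two_ne_zero (IsU.of_mul (O.pow_mem hA 2) hv.mem hu)
  · rw [eqn_inv hL hO] at hv
    simpa using (IsU.of_pow hA two_ne_zero (IsU.of_mul (O.pow_mem hA 2) hu.mem hv)).inv

variable {P P' : Place k K}

theorem not_dim (hH : HtOneStmt) (hL : XLoc p ι l ζ w) (hP : plO P ∈ XX p ι ζ w) :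
    ¬ Dim (plO P) 1 := by
  obtain ⟨G, h1, h2, h3⟩ := hL.fine.chart hP
  exact hH k K G 1 ![ι p.x, ι p.y, ζ] P h1 h2 hL.ind h3

theorem pl (hH : HtOneStmt) (h : XAll p ι l ζ w) (hP : plO P ∈ XX p ι ζ w) :
    pr ι p.T (plO P) = ⊤ ∨ ∃ P₀ : Place k M, pr ι p.T (plO P) = plO P₀ := by
  rcases h.t.all.a1.tri _ (h.loc.maps.mem hP) with h1 | h1 | ⟨P₀, h1⟩
  · exact Or.inl h1
  · exact absurd (h.loc.dim _ hP 0 h1.dim) (not_dim hH h.loc hP)
  · exact Or.inr ⟨P₀, h1.symm⟩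

theorem dim_pr (h : XAll p ι l ζ w) (hO : O ∈ XX p ι ζ w) {P₀ : Place k M}
    (hR : pr ι p.T O = plO P₀) : Dim (pr ι p.T O) 1 := by
  have := h.loc.maps.mem hO
  rw [hR] at this ⊢
  exact (h.t.all.a1.dim P₀ this).2

theorem top (hH : HtOneStmt) (h : XAll p ι l ζ w) {j : Fin 4} (hP : plO P ∈ XX p ι ζ w)
    (ht : tau l ζ j (plO P) ∈ mx (plO P)) (hs : ∀ i, IsU (plO P) (sX p ι i (plO P))) :
    pr ι p.T (plO P) = ⊤ := by
  refine (pl hH h hP).resolve_right fun ⟨P₀, hR⟩ => not_dim hH h.loc hP ?_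
  exact h.loc.dimZ _ hP 1 (dim_pr h hP hR) (algM_zc h.loc ht _) fun ⟨_, i, hi⟩ => (hs i).not_mx hi

/-- The exceptional divisors lie over the branch curves, and `A` is a coordinate on the fibres. -/
theorem exc (hH : HtOneStmt) (h : XAll p ι l ζ w) {i : κ} {j : Fin 4} {Q : Place k M}
    (hQ : p.Prm (p.C i) (p.ψ i) Q) (hP : plO P ∈ XX p ι ζ w)
    (hs : sX p ι i (plO P) ∈ mx (plO P)) (ht : tau l ζ j (plO P) ∈ mx (plO P)) :
    pr ι p.T (plO P) = plO Q ∧ IsU (plO P) (AA p ι ζ w (plO P)) ∧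
      ¬ AlgM (plO P) ((pr ι p.T (plO P)).map ι) (AA p ι ζ w (plO P)) := by
  obtain ⟨P₀, hR⟩ := (pl hH h hP).resolve_left fun h1 => (sX_top h hP h1 i).not_mx hs
  have h1 := (sX_mx h hP i).1 hs
  have h2 := h.loc.maps.mem hP
  have hd := dim_pr h hP hR
  rw [hR] at h1 h2
  have h3 : P₀ = Q := h.t.all.a1.peq _ _ _ hQ P₀ h2 h1
  have h4 : IsU (plO P) (AA p ι ζ w (plO P)) := by
    by_contra hn
    exact not_dim hH h.loc hP (h.loc.dimZ _ hP 1 hd (algM_zc h.loc ht _) fun h5 => hn h5.1)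
  exact ⟨h3 ▸ hR, h4, fun h5 => not_dim hH h.loc hP (h.loc.dimA _ hP 1 hd h4 h5)⟩

theorem uE (hH : HtOneStmt) (h : XAll p ι l ζ w) {i : κ} {j : Fin 4}
    (hP : plO P ∈ XX p ι ζ w) (hP' : plO P' ∈ XX p ι ζ w)
    (hs : sX p ι i (plO P) ∈ mx (plO P)) (ht : tau l ζ j (plO P) ∈ mx (plO P))
    (hs' : sX p ι i (plO P') ∈ mx (plO P')) (ht' : tau l ζ j (plO P') ∈ mx (plO P')) :
    P = P' := by
  obtain ⟨Q, hQ⟩ := h.t.prm i
  obtain ⟨h1, h2, h3⟩ := exc hH h hQ hP hs ht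
  obtain ⟨h1', h2', h3'⟩ := exc hH h hQ hP' hs' ht'
  have hR := h1'.trans h1.symm
  have hz := (zeta_mem h.loc hP ht).trans (zeta_mem h.loc hP' ht').symm
  have p1 := h.loc.pts _ hP _ h2.mem (Or.inl rfl)
  have p2 := h.loc.pts _ hP' _ h2'.mem (Or.inl rfl)
  rw [AA_congr hz hR] at h2' h3' p2
  rw [hR] at h3' p2
  rw [zc_congr hz] at p2
  rw [tau_congr hz] at ht'
  obtain ⟨c, e, hc⟩ := zc_const h.loc ht
  refine plO_inj (ext1 p1 p2 (map_le h.loc hP) (map_le' h.loc hP' hR) (map_mx h.loc hP hP' hR)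
    h2.mem h2'.mem h3 h3' fun g hg => ?_).le
  rcases gen_cases hg with hg | rfl | rfl
  · exact ⟨g, le_pu hg, by simpa using zero_mem_mx, by simpa using zero_mem_mx⟩
  · exact ⟨_, Subalgebra.algebraMap_mem _ c, hc ▸ mx_mul_left (Subalgebra.algebraMap_mem _ e) ht,
      hc ▸ mx_mul_left (Subalgebra.algebraMap_mem _ e) ht'⟩
  · exact ⟨_, self_pu, by simpa using zero_mem_mx, by simpa using zero_mem_mx⟩

theorem uT (h : XAll p ι l ζ w) {j : Fin 4}
    (hO : O ∈ XX p ι ζ w) (hO' : O' ∈ XX p ι ζ w)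
    (ht : tau l ζ j O ∈ mx O) (h1 : pr ι p.T O = ⊤)
    (ht' : tau l ζ j O' ∈ mx O') (h1' : pr ι p.T O' = ⊤) : O = O' := by
  have hR := h1'.trans h1.symm
  have hz := (zeta_mem h.loc hO ht).trans (zeta_mem h.loc hO' ht').symm
  have h2 := A_mx h.loc hO ht (sX_top h hO h1)
  have h2' := A_mx h.loc hO' ht' (sX_top h hO' h1')
  have p1 := h.loc.pts _ hO _ h2.1 (Or.inl rfl)
  have p2 := h.loc.pts _ hO' _ h2'.1 (Or.inl rfl)
  rw [AA_congr hz hR] at h2' p2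
  rw [hR, zc_congr hz] at p2
  rw [tau_congr hz] at ht'
  obtain ⟨c, e, hc⟩ := zc_const h.loc ht
  refine ext0 p1 p2 (map_le h.loc hO) (map_le' h.loc hO' hR) (map_mx h.loc hO hO' hR)
    fun g hg => ?_
  rcases gen_cases hg with hg | rfl | rfl
  · exact ⟨g, hg, by simpa using zero_mem_mx, by simpa using zero_mem_mx⟩
  · exact ⟨_, Subalgebra.algebraMap_mem _ c, hc ▸ mx_mul_left (Subalgebra.algebraMap_mem _ e) ht,
      hc ▸ mx_mul_left (Subalgebra.algebraMap_mem _ e) ht'⟩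
  · exact ⟨0, Subalgebra.zero_mem _, by simpa using h2, by simpa using h2'⟩

theorem not_algM (hH : HtOneStmt) (h : XAll p ι l ζ w) {P₀ : Place k M}
    (hP : plO P ∈ XX p ι ζ w) (ht : ∀ j, IsU (plO P) (tau l ζ j (plO P)))
    (hR : pr ι p.T (plO P) = plO P₀) :
    ¬ AlgM (plO P) ((pr ι p.T (plO P)).map ι) ζ := fun ha => by
  refine not_dim hH h.loc hP (h.loc.dimZ _ hP 1 (dim_pr h hP hR)
    ((zc_eq (zeta_of_units ht)).symm ▸ ha) fun ⟨h1, i, hi⟩ => ?_)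
  exact h1.inv.not_mx (Ainv_mx h.loc hP hi ht)

theorem uV (hH : HtOneStmt) (h : XAll p ι l ζ w) {P₀ : Place k M}
    (hP : plO P ∈ XX p ι ζ w) (hP' : plO P' ∈ XX p ι ζ w)
    (ht : ∀ j, IsU (plO P) (tau l ζ j (plO P))) (ht' : ∀ j, IsU (plO P') (tau l ζ j (plO P')))
    (h1 : pr ι p.T (plO P) = plO P₀) (h1' : pr ι p.T (plO P') = plO P₀) :
    P = P' := by
  have hR := h1'.trans h1.symm
  have z1 := zeta_of_units ht
  have z2 := zeta_of_units ht'
  have hz : ζ ∈ plO P ↔ ζ ∈ plO P' := iff_of_true z1 z2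
  have n1 := not_algM hH h hP ht h1
  have n2 := not_algM hH h hP' ht' h1'
  rw [hR] at n2
  have hm := map_mx h.loc hP hP' hR
  have hsS : ∀ i, sX p ι i (plO P) ∈ (pr ι p.T (plO P)).map ι := fun i =>
    ⟨_, s_mem h (h.loc.maps.mem hP) i, rfl⟩
  refine plO_inj (le_of_eq ?_)
  by_cases hs : ∃ i, sX p ι i (plO P) ∈ mx (plO P)
  · obtain ⟨i, hi⟩ := hs
    have hi' : sX p ι i (plO P') ∈ mx (plO P') := sX_congr hR i ▸ (hm _ (hsS i)).1 hi
    have h2 := Ainv_mx h.loc hP hi ht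
    have h2' := Ainv_mx h.loc hP' hi' ht'
    have p1 := h.loc.pts _ hP _ h2.1 (Or.inr rfl)
    have p2 := h.loc.pts _ hP' _ h2'.1 (Or.inr rfl)
    rw [AA_congr hz hR] at h2' p2
    rw [hR, zc_eq z2] at p2
    rw [zc_eq z1] at p1
    refine ext1 p1 p2 (map_le h.loc hP) (map_le' h.loc hP' hR) hm z1 z2 n1 n2 fun g hg => ?_
    rcases gen_cases hg with hg | rfl | rfl
    · exact ⟨g, le_pu hg, by simpa using zero_mem_mx, by simpa using zero_mem_mx⟩
    · exact ⟨_, self_pu, by simpa using zero_mem_mx, by simpa using zero_mem_mx⟩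
    · exact ⟨0, Subalgebra.zero_mem _, by simpa using h2, by simpa using h2'⟩
  · have hu : ∀ i, IsU (plO P) (sX p ι i (plO P)) := fun i =>
      isU_of_not_mx (h.loc.sm _ hP i) fun hi => hs ⟨i, hi⟩
    have hu' : ∀ i, IsU (plO P') (sX p ι i (plO P')) := fun i =>
      isU_of_not_mx (h.loc.sm _ hP' i) fun hi =>
        (hu i).not_mx ((hm _ (hsS i)).2 (sX_congr hR i ▸ hi))
    have p1 := h.loc.pts _ hP _ (A_unit h.loc hP hu ht).mem (Or.inl rfl)
    have p2 := h.loc.pts _ hP' _ (A_unit h.loc hP' hu' ht').mem (Or.inl rfl)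
    rw [AA_congr hz hR, hR, zc_eq z2, ← Subalgebra.coe_map] at p2
    rw [zc_eq z1, ← Subalgebra.coe_map] at p1
    have hS : ∀ i, IsU ((pr ι p.T (plO P)).map ι) (sX p ι i (plO P)) := fun i => by
      have h3 : IsU (pr ι p.T (plO P)) (p.s i (pr ι p.T (plO P))) :=
        isU_of_not_mx (s_mem h (h.loc.maps.mem hP) i) fun h4 =>
          (hu i).not_mx ((sX_mx h hP i).2 h4)
      exact ⟨(hu i).1, hsS i, _, h3.inv_mem, map_inv₀ ι _⟩
    refine ext3 p1 p2 hm n1 n2 (isU_prod (s := Finset.univ) fun i _ => hS i).inv l ?_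
    have e1 := h.loc.eqn _ hP
    have e2 : ∏ j, tau l ζ j (plO P) = ζ * (ζ - 1) * (ζ - algebraMap k K l) := by
      simp [tau, eta, z1, Fin.prod_univ_four]
    rw [← e2, ← e1, mul_comm (AA p ι ζ w (plO P) ^ 2),
      inv_mul_cancel_left₀ (Finset.prod_ne_zero_iff.2 fun i _ => (hu i).1)]

end XPlA

theorem xPl_stmt : XPlStmt := fun hH _ _ _ _ _ _ _ _ _ _ _ _ _ _ _ _ _ _ _ h =>
  { uE := fun _ _ _ _ => XPlA.uE hH h
    top := fun _ _ => XPlA.top hH h
    uT := fun _ _ _ hP hP' ht h1 ht' h1' => plO_inj (XPlA.uT h hP hP' ht h1 ht' h1').le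
    pl := fun _ => XPlA.pl hH h
    uV := fun _ _ _ => XPlA.uV hH h }

end Pool.Agent.MP_20d318_ag.CB

end MrgPart2

-- ======== part 3: formerly Pool.Agent.MP_20d318_ag.CB.XSm
section MrgPart3

/-! The threefold is smooth and normal, and its canonical sheaf is trivial. -/

set_option autoImplicit false

namespace Pool.Agent.MP_20d318_ag.CB

open Pool.Agent.MP_79c67d_ag Pool.Agent.MP_20d318_ag.AG Pool.Agent.MP_20d318_ag.BV MvPolynomial
open Pool.Agent.MP_20d318_ag.RS (jac)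
open Pool.Agent.MP_20d318_ag.BV.XSm (Out core crd_unit map_pair ind3 der_zc)

namespace XSmA

variable {k M K I κ : Type} [Field k] [Field M] [Field K] [Algebra k M] [Algebra k K] [Fintype I]
  [Fintype κ] {p : Pd k M I κ} {ι : M →ₐ[k] K} {l : k} {ζ w : K}

theorem smem (H : Pair0 p) {R : Subalgebra k M} (hR : R ∈ p.T) (i : κ) : p.s i R ∈ R :=
  (H.prm i).elim fun P h => H.all.a1.pmem _ _ P h R hR

theorem crd (H : Pair0 p) {R : Subalgebra k M} (hR : R ∈ p.T) (hl : IsLocalRing R) :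
    Crd R (∏ i, p.s i R) := fun hm => by
  classical
  obtain ⟨i, hi⟩ : ∃ i, p.s i R ∈ mx R := by_contra fun hn => hm.2 (isU_prod fun i _ =>
    isU_of_not_mx (smem H hR i) fun h => hn ⟨i, h⟩)
  have := (H.crd R hR i).of_unit hl (smem H hR i) (isU_prod (s := Finset.univ.erase i)
    fun j hj => isU_of_not_mx (smem H hR j) fun h =>
      Finset.ne_of_mem_erase hj (H.one R hR j i h hi))
  rw [Finset.prod_erase_mul _ _ (Finset.mem_univ i)] at this
  exact this hm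

theorem prod_sX (O : Subalgebra k K) : ∏ i, sX p ι i O = ι (∏ i, p.s i (pr ι p.T O)) :=
  (map_prod ι _ _).symm

/-- The local statement. -/
theorem loc [CharZero k] (hE : EtStmt) (hN : EtNStmt) (H : XAll p ι l ζ w) {O : Subalgebra k K}
    (hO : O ∈ XX p ι ζ w) : ∃ a b : M, Cht (pr ι p.T O) a b ∧
      Out O ![ι a, ι b, zc ζ O] (AA p ι ζ w O * ∏ i, sX p ι i O) := by
  have L := H.loc
  have hR := L.maps.mem hO
  obtain ⟨a, b, hg, hP⟩ := H.t.all.a1.chart _ hR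
  have hS : ∏ i, p.s i (pr ι p.T O) ∈ pr ι p.T O :=
    Subalgebra.prod_mem _ fun i _ => smem H.t hR i
  have hc := crd H.t hR hP.1
  obtain ⟨N, hN', U, hU', hU, e⟩ := hP.2.2 _ hS
  obtain ⟨n, rfl⟩ := mem_adjoin_pair.1 hN'
  obtain ⟨u, rfl⟩ := mem_adjoin_pair.1 hU'
  have e' : aeval ![a, b] n = aeval ![a, b] u * ∏ i, p.s i (pr ι p.T O) := by
    rw [e, mul_div_cancel₀ _ hU.1]
  obtain ⟨α, β, hτ, hab⟩ := L.tp O
  refine ⟨a, b, ⟨hg, hP⟩, core hE hN (L.fine.frac hO) (mp_loc hO) n u α β (fun j => tau l ζ j O) hτ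
    hab (L.tm O hO) (L.t1 O hO) (ind3 ι L.ind hg O) (map_pair ι a b u ▸ L.maps.isU_up hO hU) ?_
    (O.prod_mem fun i _ => L.sm O hO i) (L.ane O hO) (L.aa O hO) (L.eqn O hO) ?_ ?_⟩
  · rw [← map_pair, ← map_pair, e', map_mul, prod_sX]
  · intro t ht h
    have := Pts_up ι hP (L.pts O hO t ht h)
    rwa [Set.image_pair] at this
  · intro h
    rw [prod_sX, L.maps.mx_up hO hS] at h
    have := crd_unit hP n (e' ▸ hc.of_unit hP.1 hS hU) (e' ▸ mx_mul_left hU.2.1 h)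
    rw [← map_pair, ← map_pair]
    exact this.imp (L.maps.isU_up hO) (L.maps.isU_up hO)

end XSmA

open XSmA in
theorem xSm_stmt : XSmStmt := by
  intro hE hN k M K I κ _ _ _ _ _ _ _ _ _ p ι l ζ w H
  refine ⟨fun O hO => ?_, fun O hO => ?_, fun D hD O hO => ?_⟩
  · obtain ⟨a, b, -, h⟩ := loc hE hN H hO
    exact h.1
  · obtain ⟨a, b, -, h⟩ := loc hE hN H hO
    exact h.2.1
  obtain ⟨a, b, hC, h⟩ := loc hE hN H hO
  obtain ⟨c, h1, h2, u, hu, h3⟩ := h.2.2 D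
  refine ⟨c, h1, h2, ?_⟩
  have L := H.loc
  have hR := L.maps.mem hO
  have ja := H.t.all.jc.chain p.D₁ p.D₂ p.x p.y H.t.gen H.t.jne K ι D a
  have jb := H.t.all.jc.chain p.D₁ p.D₂ p.x p.y H.t.gen H.t.jne K ι D b
  obtain ⟨ε, hε, jz⟩ := der_zc D ζ O
  have d0 : D (ι p.x) = Pi.single 0 1 := hD 0
  have d1 : D (ι p.y) = Pi.single 1 1 := hD 1
  have d2 : D ζ = Pi.single 2 1 := hD 2
  have n0 : jac p.D₁ p.D₂ p.x p.y ≠ 0 := H.t.jne
  have hJ : jac p.D₁ p.D₂ a p.y / jac p.D₁ p.D₂ p.x p.y *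
      (jac p.D₁ p.D₂ p.x b / jac p.D₁ p.D₂ p.x p.y) - jac p.D₁ p.D₂ p.x a / jac p.D₁ p.D₂ p.x p.y *
      (jac p.D₁ p.D₂ b p.y / jac p.D₁ p.D₂ p.x p.y) = p.j a b / p.j p.x p.y := by
    unfold Pd.j
    field_simp
    unfold jac
    ring
  have hdet : (Matrix.of fun i => D (![ι a, ι b, zc ζ O] i)).det =
      ι (p.j a b / p.j p.x p.y) * (ε / eta ζ O ^ 2) := by
    rw [← hJ, map_sub, map_mul, map_mul]
    generalize ι (jac p.D₁ p.D₂ a p.y / jac p.D₁ p.D₂ p.x p.y) = r₁ at ja ⊢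
    generalize ι (jac p.D₁ p.D₂ p.x a / jac p.D₁ p.D₂ p.x p.y) = r₂ at ja ⊢
    generalize ι (jac p.D₁ p.D₂ b p.y / jac p.D₁ p.D₂ p.x p.y) = r₃ at jb ⊢
    generalize ι (jac p.D₁ p.D₂ p.x b / jac p.D₁ p.D₂ p.x p.y) = r₄ at jb ⊢
    simp [Matrix.det_fin_three, ja, jb, jz, d0, d1, d2]
    ring
  have hU := L.maps.isU_up hO (H.t.chart _ hR a b hC)
  have n1 : eta ζ O ≠ 0 := (L.gZ O hO).ne
  have n2 : ι (p.jj (pr ι p.T O)) ≠ 0 := fun h => hU.1 (by rw [map_div₀, h, div_zero])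
  have n3 : ι p.φ ≠ 0 := (map_ne_zero ι).2 H.t.φne
  have n4 : ι (p.j p.x p.y) ≠ 0 := (map_ne_zero ι).2 H.t.jne
  have e2 : AA p ι ζ w O = w / (ι (p.φ * p.jj (pr ι p.T O)) * eta ζ O ^ 2) := rfl
  rw [hdet, prod_sX, ← H.t.eqn _ hR, e2, map_mul, map_mul, map_pow, map_div₀] at h3
  have e3 : w * ι (p.j p.x p.y) * (Matrix.of fun i => D (c i)).det =
      u * ε * ι (p.j a b / p.jj (pr ι p.T O)) := by
    rw [map_div₀]
    field_simp at h3 ⊢
    linear_combination h3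
  exact e3 ▸ (hu.mul hε).mul hU

end Pool.Agent.MP_20d318_ag.CB

end MrgPart3

-- ======== part 4: formerly Pool.Agent.MP_20d318_ag.CB.XTest
section MrgPart4

/-! ROW XTEST: the test curves on the threefold. -/

set_option autoImplicit false

namespace Pool.Agent.MP_20d318_ag.CB

open Pool.Agent.MP_79c67d_ag Pool.Agent.MP_20d318_ag.AG Pool.Agent.MP_20d318_ag.BV MvPolynomial
open Pool.Agent.MP_20d318_ag.BV.XTst (tb tb_form tr_tb mem_of_dom zor mem_of_sub tau_eq tau_unit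
  val_mx)
open Classical

namespace XTs

variable {k M K I κ : Type} [Field k] [Field M] [Field K] [Algebra k M] [Algebra k K] [Fintype I]
  [Fintype κ] {p : Pd k M I κ} {ι : M →ₐ[k] K} {l : k} {ζ w : K} {O V : Subalgebra k K}
  {R : Subalgebra k M}

variable (h : XAll p ι l ζ w)
include h

theorem z_ne : ζ ≠ 0 := by simpa using h.ext.tr.ne 0

theorem lift (hR : R ∈ p.T) (hV : IsVal V) (hd : Dom R (V.comap ι)) :
    ∃ O ∈ XX p ι ζ w, Dom O V ∧ pr ι p.T O = R := by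
  obtain ⟨O, hO, hOV⟩ := h.loc.fine.cpl V hV
  exact ⟨O, hO, hOV, h.t.all.a1.nice.sep _ (h.loc.maps.mem hO) _ hR _
    (isLocalRing_comap ι hV.isLocalRing) ((h.loc.maps.dom hO).trans (hOV.comap ι)) hd⟩

theorem s_ne (hR : R ∈ p.T) (i : κ) : p.s i R ≠ 0 :=
  mul_ne_zero (h.t.prm i).choose_spec.1 (p.lb_ne (h.t.all.a1.gne R hR) _)

theorem s_mem (hR : R ∈ p.T) (i : κ) : p.s i R ∈ R :=
  h.t.all.a1.pmem _ _ _ (h.t.prm i).choose_spec R hR

theorem ss_mx (hO : O ∈ XX p ι ζ w) {i : κ} (hi : sX p ι i O ∈ mx O) :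
    ∏ i, sX p ι i O ∈ mx O := by
  rw [← Finset.mul_prod_erase _ _ (Finset.mem_univ i)]
  exact mx_mul_right hi (O.prod_mem fun j _ => h.loc.sm O hO j)

theorem A_not (hO : O ∈ XX p ι ζ w) (hu : ∀ j, IsU O (tau l ζ j O)) {i : κ}
    (hi : sX p ι i O ∈ mx O) : AA p ι ζ w O ∉ O := fun hA => by
  have := mx_mul_left (O.pow_mem hA 2) (ss_mx h hO hi)
  rw [h.loc.eqn O hO] at this
  exact this.2 (isU_prod fun j _ => hu j)

variable [CharZero k] [IsAlgClosed k]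

omit [CharZero k] in
theorem nd0 (hO : O ∈ XX p ι ζ w) {P : Place k M} (hP : plO P ∈ p.T)
    (he : pr ι p.T O = plO P) : ¬ Dim O 0 := fun hd =>
  (h.t.all.a1.dim P hP).1 ((rat_iff (h.t.all.a1.nice.loc _ hP)).2
    (he ▸ hd.comap (h.loc.maps.dom hO)))

theorem rat_pt (i : κ) : ∃ R ∈ p.T, RatPt R ∧ p.s i R ∈ mx R := by
  obtain ⟨P, hP⟩ := h.t.prm i
  obtain ⟨ν, hν, -⟩ := h.t.all.a1.cur P hP.2.1
  obtain ⟨Q⟩ := exists_pl ν
  exact ⟨ν.pt Q, ν.pt_mem Q, pt_rat ν Q,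
    (h.t.all.a1.pmx _ _ _ hP _ (ν.pt_mem Q)).2 (hν ▸ ν.pt_le Q)⟩

variable (hU : UpStmt) (hC : CurveStmt) (hc : XCur p ι l ζ w)
include hU hC hc

theorem tG (c : I → ℤ) (hm : c ∈ p.PP) : ∃ ν : Curve (XX p ι ζ w), ∃ n : ℕ, 0 < n ∧
    ZZ p ι l ζ ν = (n • c, 0, 0) := by
  obtain ⟨φ, P, hP⟩ := hm
  obtain ⟨c0, h0⟩ := Infinite.exists_notMem_finset ({0, 1, l} : Finset k)
  simp only [Finset.mem_insert, Finset.mem_singleton, not_or] at h0
  obtain ⟨V, hV, hd, hv⟩ := (hU k M K ι (plO P) ζ (h.t.all.a1.nice.loc _ hP.2.1) h.ext.tr).1 c0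
  obtain ⟨O, hO, hOV, he⟩ := lift h hP.2.1 hV hd
  have hl := h.loc.fine.loc O hO
  have hz : ζ ∈ O := mem_of_dom hOV (zor (h.loc.zm O hO)) (mem_of_sub hv.1)
  have hv' : ζ - algebraMap k K c0 ∈ mx O :=
    mx_of_le hOV.1 (O.sub_mem hz (O.algebraMap_mem _)) hv
  have hu : ∀ j, IsU O (tau l ζ j O) := tau_unit hz fun c hc => by
    have hne : c0 - c ≠ 0 := sub_ne_zero.2 (by rcases hc with rfl | rfl | rfl <;> tauto)
    have := (isU_const (O := O) hne).add_mx hl hv'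
    rwa [map_sub, sub_add_sub_cancel'] at this
  have h1 : Dim O 1 := h.loc.dimZ O hO 1 (he ▸ (h.t.all.a1.dim P hP.2.1).2)
    (algM_of_mx (c := c0) (by rwa [zc, if_pos hz]))
    fun ⟨hA, i, hi⟩ => A_not h hO hu hi hA.mem
  obtain ⟨ν, rfl⟩ := hC k K _ h.loc.fine.toGood O hO h1 (nd0 h hO hP.2.1 he)
  obtain ⟨n, hn, e1⟩ := hc.c1 ν c φ P hP he
  exact ⟨ν, n, hn, Prod.ext e1 (hc.cG ν c0 h0.1 h0.2.1 h0.2.2 hv')⟩

theorem tT (c : I → ℤ) (hm : c ∈ p.PP) (j : Fin 4) :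
    ∃ ν : Curve (XX p ι ζ w), ∃ n : ℕ, 0 < n ∧
      ZZ p ι l ζ ν = (n • c, 0, fun i j' => if j' = j then ip p.B (p.C i) (n • c) else 0) := by
  obtain ⟨φ, P, hP⟩ := hm
  have hR := hP.2.1
  have hs : ∏ i, p.s i (plO P) ≠ 0 := Finset.prod_ne_zero_iff.2 fun i _ => s_ne h hR i
  have hs' : ι (∏ i, p.s i (plO P)) ≠ 0 := (map_ne_zero ι).2 hs
  obtain ⟨V, hV, hd, hv⟩ := (hU k M K ι (plO P) _ (h.t.all.a1.nice.loc _ hR)
    (tr_tb (l := l) h.ext.tr j hs)).1 0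
  rw [map_zero, sub_zero] at hv
  obtain ⟨O, hO, hOV, he⟩ := lift h hR hV hd
  have ht : tb l ζ j ∈ mx V := by
    have := mx_mul_right (b := ι (∏ i, p.s i (plO P))) hv
      (hd.1 ((plO P).prod_mem fun i _ => s_mem h hR i))
    rwa [div_mul_cancel₀ _ hs'] at this
  obtain ⟨e0, c0, e1⟩ := tau_eq (z_ne h) (h.loc.zm O hO) hOV ht
  have ht' : tau l ζ j O ∈ mx O := mx_of_le hOV.1 (h.loc.tm O hO j) (e0 ▸ ht)
  have hA : AA p ι ζ w O ∈ mx V := by
    refine val_mx hV ?_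
    have e := h.loc.eqn O hO
    rw [← Finset.mul_prod_erase _ _ (Finset.mem_univ j), e0] at e
    simp only [sX, up, he, ← map_prod] at e
    rw [eq_div_of_mul_eq hs' e, ← div_mul_eq_mul_div]
    exact mx_mul_right hv (hOV.1 (O.prod_mem fun j' _ => h.loc.tm O hO j'))
  have hA' : AA p ι ζ w O ∈ mx O :=
    mx_of_le hOV.1 (mem_of_dom hOV (h.loc.aa O hO) hA.1) hA
  have h1 : Dim O 1 := h.loc.dimZ O hO 1 (he ▸ (h.t.all.a1.dim P hR).2)
    (algM_of_mx (c := c0) (by rwa [e1, ← e0])) fun hh => hA'.2 hh.1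
  obtain ⟨ν, rfl⟩ := hC k K _ h.loc.fine.toGood O hO h1 (nd0 h hO hR he)
  obtain ⟨n, hn, e2⟩ := hc.c1 ν c φ P hP he
  obtain ⟨e3, e4⟩ := hc.cA ν j hA' ht'
  exact ⟨ν, n, hn, Prod.ext e2 (Prod.ext e3 (funext₂ fun i j' => by rw [e4, e2]))⟩

theorem tC (i : κ) : ∃ ν : Curve (XX p ι ζ w), ∃ n : ℤ, 0 < n ∧
    ZZ p ι l ζ ν = (0, n, fun i' _ => if i' = i then n else 0) := by
  obtain ⟨R, hR, hr, hs⟩ := rat_pt h i
  obtain ⟨V, hV, hd, hv⟩ := (hU k M K ι R ζ (h.t.all.a1.nice.loc R hR) h.ext.tr).2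
  obtain ⟨O, hO, hOV, he⟩ := lift h hR hV hd
  have hz : ζ ∈ O := mem_of_dom hOV (zor (h.loc.zm O hO)) (hv.1 0)
  have hu : ∀ c : k, IsU O (ζ - algebraMap k K c) := fun c =>
    hOV.2 _ (O.sub_mem hz (O.algebraMap_mem _)) (ind_one hv c)
  have hs' : sX p ι i O ∈ mx O := by
    rw [sX, up, h.loc.maps.mx_up hO (he ▸ hs.1), he]
    exact hs
  have hA := A_not h hO (tau_unit hz fun c _ => hu c) hs'
  have hA' : (AA p ι ζ w O)⁻¹ ∈ mx O :=
    ⟨(h.loc.aa O hO).resolve_left hA, fun hh => hA (by simpa using hh.inv_mem)⟩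
  obtain ⟨ν, rfl⟩ := hC k K _ h.loc.fine.toGood O hO (h.loc.dim O hO 0 (he ▸ hr.dim))
    (not_dim_zero (h.loc.fine.loc O hO) hz fun c => (hu c).not_mx)
  refine ⟨ν, (ZZ p ι l ζ ν).2.1, ?_, Prod.ext (hc.c0 ν (he ▸ hr))
    (Prod.ext rfl (funext₂ (hc.cB ν i hA' hs')))⟩
  have e := deg_gn_pair ν (h.loc.gZ _ hO) (fun P => h.loc.gZ _ (ν.pt_mem P)) one_ne_zero
    (by rwa [div_one])
  have : (ZZ p ι l ζ ν).2.1 = pdeg k (ν.ev ζ) := by
    rw [div_one] at e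
    simp only [ZZ, e, neg_neg]
  rw [this]
  exact pdeg_pos (ev_transcendental ν hz fun c => (hu c).not_mx)

theorem tE (i : κ) (j : Fin 4) : ∃ ν : Curve (XX p ι ζ w), ∃ n : ℤ, 0 < n ∧
    ZZ p ι l ζ ν = (0, 0, fun i' j' => if i' = i ∧ j' = j then -n else 0) := by
  obtain ⟨R, hR, hr, hs⟩ := rat_pt h i
  have hs0 : ι (p.s i R) ≠ 0 := by simpa using s_ne h hR i
  obtain ⟨V, hV, hd, hv⟩ := (hU k M K ι R _ (h.t.all.a1.nice.loc R hR)
    (tr_tb (l := l) h.ext.tr j (s_ne h hR i))).2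
  obtain ⟨O, hO, hOV, he⟩ := lift h hR hV hd
  have ht : tb l ζ j ∈ mx V := by
    have := mx_mul_left (hv.1 0) ((mem_mx_comap ι).1 (hd.mx hs))
    rwa [Matrix.cons_val_zero, div_mul_cancel₀ _ hs0] at this
  obtain ⟨e0, -⟩ := tau_eq (z_ne h) (h.loc.zm O hO) hOV ht
  have ht' : tau l ζ j O ∈ mx O := mx_of_le hOV.1 (h.loc.tm O hO j) (e0 ▸ ht)
  have es : sX p ι i O = ι (p.s i R) := by rw [sX, up, he]
  have hs' : sX p ι i O ∈ mx O := by
    rw [es, h.loc.maps.mx_up hO (he ▸ hs.1), he]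
    exact hs
  have g0 : Gn {tb l ζ j, ι (p.s i R)} O (EE p ι l ζ i j O) := by
    have := h.div.gE O hO i j
    rwa [es, e0, Set.pair_comm] at this
  have hy : tb l ζ j / ι (p.s i R) ∈ O :=
    mem_of_dom hOV (g0.prin.pair.imp_right fun hh => by rwa [inv_div]) (hv.1 0)
  have hu : ∀ c : k, tb l ζ j / ι (p.s i R) - algebraMap k K c ∉ mx O := fun c hh =>
    (ind_one hv c).not_mx (hOV.mx hh)
  obtain ⟨ν, rfl⟩ := hC k K _ h.loc.fine.toGood O hO (h.loc.dim O hO 0 (he ▸ hr.dim))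
    (not_dim_zero (h.loc.fine.loc O hO) hy hu)
  have g1 : ∀ P, Gn {tb l ζ j, ι (p.s i R)} (ν.pt P) (EE p ι l ζ i j (ν.pt P)) := by
    intro P
    have hP := ν.pt_mem P
    have hz := zor (h.loc.zm _ hP)
    have hm : tb l ζ j ∈ mx (ν.pt P) := by
      rw [e0] at ht'
      obtain ⟨c, ⟨h1, -⟩ | ⟨h1, -⟩⟩ := tb_form l ζ j
      · rw [h1] at ht' ⊢
        exact mem_pt_of_const ν P ht' hz
      · rw [h1] at ht' ⊢
        exact mem_pt_of_const ν P ht' (by simpa using hz.symm)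
    have := h.div.gE _ hP i j
    rwa [(tau_eq (z_ne h) (h.loc.zm _ hP) (Dom.refl _) hm).1, sX, up,
      pr_pt h.t.all.a1.nice.toGood h.loc.fine.toGood h.loc.maps ν (he ▸ hr) P, he,
      Set.pair_comm] at this
  have e := deg_gn_pair ν g0 g1 hs0 hy
  obtain ⟨e1, e2⟩ := hc.cX ν i j hs' ht'
  refine ⟨ν, _, pdeg_pos (ev_transcendental ν hy hu), Prod.ext (hc.c0 ν (he ▸ hr))
    (Prod.ext e1 (funext₂ fun i' j' => ?_))⟩
  dsimp only
  split_ifs with hh
  · obtain ⟨rfl, rfl⟩ := hh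
    exact e
  · exact e2 i' j' hh

end XTs

theorem xTest_stmt : XTestStmt := fun hU hC _ _ _ _ _ _ _ _ _ _ _ _ _ _ _ _ _ _ _ h hc =>
  ⟨XTs.tE h hU hC hc, XTs.tC h hU hC hc, XTs.tT h hU hC hc, XTs.tG h hU hC hc⟩

end Pool.Agent.MP_20d318_ag.CB

end MrgPart4

-- ======== part 5: formerly Pool.Agent.MP_20d318_ag.CB.TSpec
section MrgPart5

/-! The minimal rational surfaces and the blow-up of a point. -/

set_option autoImplicit false

namespace Pool.Agent.MP_20d318_ag.CB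

open Pool.Agent.MP_79c67d_ag Pool.Agent.MP_20d318_ag.AG Pool.Agent.MP_20d318_ag.BV MvPolynomial
open Pool.Agent.MP_20d318_ag.RS (jac)

section general

variable {k M I : Type} [Field k] [Field M] [Algebra k M] [Fintype I] (S : Sd k M I)

/-- The degrees on prime divisors. -/
def Dg : Prop := ∀ c φ P, S.Prm c φ P → ∀ ν : Curve S.T, ν.gen = plO P → ∀ c',
  ν.deg (S.lb c') = nu ν * ip S.B c' c

/-- Adjunction for the contracted curves. -/
def Adj : Prop := ∀ c φ P, S.Prm c φ P → 0 < ip S.B S.A c ∨ (ip S.B c c + ip S.B S.K c = -2 ∧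
  ∀ O ∈ S.T, Crd O (φ * S.lb c O))

/-- Differences of globally generated classes. -/
def Dif : Prop := ∀ c, ∃ c', S.GG c' ∧ S.GG (c' + c)

variable {S}

theorem gg_zero : S.GG 0 :=
  ⟨{1}, Set.finite_singleton _, by simp, fun O _ => by
    rw [Sd.lb_zero, inv_one]; exact gn_one (by simp) ⟨1, rfl, isU_one⟩⟩

theorem gg_add (h0 : ∀ O ∈ S.T, ∀ i, S.g i O ≠ 0) {c c' : I → ℤ} (h : S.GG c) (h' : S.GG c') :
    S.GG (c + c') := by
  obtain ⟨U, f, n, g⟩ := h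
  obtain ⟨U', f', n', g'⟩ := h'
  refine ⟨Set.image2 (· * ·) U U', f.image2 _ f', ?_, fun O hO => ⟨?_, ?_⟩⟩
  · rintro _ ⟨a, ha, b, hb, rfl⟩
    exact mul_ne_zero (n a ha) (n' b hb)
  · rintro _ ⟨a, ha, b, hb, rfl⟩
    rw [S.lb_add (h0 O hO), mul_inv, mul_div_mul_comm]
    exact O.mul_mem ((g O hO).1 a ha) ((g' O hO).1 b hb)
  · obtain ⟨a, ha, u⟩ := (g O hO).2
    obtain ⟨b, hb, v⟩ := (g' O hO).2
    refine ⟨_, ⟨a, ha, b, hb, rfl⟩, ?_⟩
    rw [S.lb_add (h0 O hO), mul_inv, mul_div_mul_comm]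
    exact u.mul v

theorem gg_nsmul (h0 : ∀ O ∈ S.T, ∀ i, S.g i O ≠ 0) {c : I → ℤ} (h : S.GG c) (n : ℕ) :
    S.GG (n • c) := by
  induction n with
  | zero => simpa using gg_zero
  | succ n ih => rw [succ_nsmul]; exact gg_add h0 ih h

end general

/-- Functions on the affine plane. -/
structure Aff (k M : Type) [Field k] [Field M] [Algebra k M] : Prop where
  mem : ∀ a b r : M, GenP k a b → (∀ P : Place k M, Cht (plO P) a b → P.Ge 0 r) →
    ∃ p : MvPolynomial (Fin 2) k, aeval ![a, b] p = r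
  const : ∀ a b r : M, GenP k a b → r ≠ 0 → (∀ P : Place k M, Cht (plO P) a b → P.ord r = 0) →
    ∃ c : k, r = algebraMap k M c
  g0 : ∀ (P : Place k M) (u w : M), P.ord u = -1 → Ind (plO P) ![w] →
    ∀ p : MvPolynomial (Fin 2) k, p ≠ 0 → P.ord (aeval ![u, w] p) = -p.degreeOf 0
  g1 : ∀ (P : Place k M) (u w : M), P.ord u = -1 → Ind (plO P) ![w] →
    ∀ p : MvPolynomial (Fin 2) k, p ≠ 0 → P.ord (aeval ![w, u] p) = -p.degreeOf 1

/-- AFF. -/
def AffStmt : Prop := PlaneStmt → ∀ (k M : Type) [Field k] [CharZero k] [IsAlgClosed k] [Field M]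
  [Algebra k M], Aff k M

/-! ### The blow-up -/

/-- The class `π^* c + m E`. -/
def pb {I R : Type} (c : I → R) (m : R) : Option I → R := fun o => o.elim m c

section blow

variable {k M I : Type} [Field k] [Field M] [Algebra k M] [Fintype I] (S : Sd k M I)
  (O₀ : Subalgebra k M) (a b : M) (H' : Set M) (e : Subalgebra k M → M)

/-- The point of the surface below `O`. -/
noncomputable def Sd.bt (O : Subalgebra k M) : Subalgebra k M := pr (AlgHom.id k M) S.T O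

/-- The data of the blow-up, with embedding `H'` and exceptional curve `e`. -/
noncomputable def Sd.blow : Sd k M (Option I) where
  H := H'
  g o := o.elim e fun i O => S.g i (S.bt O)
  B o o' := o.elim (o'.elim (-1) fun _ => 0) fun i => o'.elim 0 fun j => S.B i j
  K := pb S.K 1
  h := pb ((2 : ℤ) • S.h) (-1)
  A := pb S.A 0
  f := pb S.f 0

omit [Fintype I] in
theorem pb_eta {R : Type} (c : Option I → R) : c = pb (fun i => c (some i)) (c none) := by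
  funext o; cases o <;> rfl

omit [Fintype I] in
theorem exists_pb {R : Type} (c : Option I → R) : ∃ c₀ m, c = pb c₀ m := ⟨_, _, pb_eta c⟩

omit [Fintype I] in
theorem pb_add {R : Type} [Add R] (c c' : I → R) (m m' : R) :
    pb c m + pb c' m' = pb (c + c') (m + m') := by funext o; cases o <;> rfl

omit [Fintype I] in
theorem pb_neg {R : Type} [Neg R] (c : I → R) (m : R) : -pb c m = pb (-c) (-m) := by
  funext o; cases o <;> rfl

omit [Fintype I] in
theorem pb_smul {R : Type} [Mul R] (r : R) (c : I → R) (m : R) :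
    r • pb c m = pb (r • c) (r * m) := by funext o; cases o <;> rfl

theorem ip_pb {R : Type} [CommRing R] (c c' : I → R) (m m' : R) :
    ip (S.blow H' e).B (pb c m) (pb c' m') = ip S.B c c' - m * m' := by
  simp [ip, Sd.blow, pb, Fintype.sum_option]
  ring

theorem lb_pb (c : I → ℤ) (m : ℤ) (O : Subalgebra k M) :
    (S.blow H' e).lb (pb c m) O = S.lb c (S.bt O) * e O ^ m := by
  simp [Sd.lb, Sd.blow, pb, Fintype.prod_option, mul_comm]

omit [Fintype I] in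
theorem up_id (f : Subalgebra k M → M) : up (AlgHom.id k M) S.T f = fun O => f (S.bt O) := rfl

/-- A surface with a point and coordinates centered at the point. -/
structure Ctr : Prop where
  s : Surf S
  a1 : A1 S
  jc : Jc k M
  mem : O₀ ∈ S.T
  rat : RatPt O₀
  ma : a ∈ mx O₀
  mb : b ∈ mx O₀
  cht : Cht O₀ a b

/-- The construction of the blow-up. -/
structure Bl0 : Prop extends Ctr S O₀ a b where
  eq : (S.blow H' e).T = RS.blowUp S.T O₀
  fam : Fam k fun _ : Unit => H'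
  cases : ∀ O ∈ (S.blow H' e).T, (O ∈ S.T ∧ O ≠ O₀) ∨ Dom O₀ O
  off : ∀ O ∈ S.T, O ≠ O₀ → O ∈ (S.blow H' e).T ∧ S.bt O = O ∧ IsU O (e O)
  ov : ∀ O ∈ (S.blow H' e).T, Dom O₀ O → S.bt O = O₀ ∧ Gn {a, b} O (e O)
  cart : IsCart (S.blow H' e).T e
  gH : ∀ O ∈ (S.blow H' e).T, Gn H' O ((S.blow H' e).lb (S.blow H' e).h O)⁻¹

/-- The charts of the blow-up. -/
structure Bl1 : Prop extends Bl0 S O₀ a b H' e where
  maps : Maps (AlgHom.id k M) (S.blow H' e).T S.T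
  g1 : GenP k (a / b) b
  g2 : GenP k (b / a) a
  c1 : ∀ O ∈ (S.blow H' e).T, Dom O₀ O → a / b ∈ O → Cht O (a / b) b ∧ IsU O (e O / b)
  c2 : ∀ O ∈ (S.blow H' e).T, Dom O₀ O → b / a ∈ O → Cht O (b / a) a ∧ IsU O (e O / a)
  c12 : ∀ O ∈ (S.blow H' e).T, Dom O₀ O → a / b ∈ O ∨ b / a ∈ O
  in1 : ∀ O : Subalgebra k M, Cht O (a / b) b → b ∈ mx O → O ∈ (S.blow H' e).T ∧ Dom O₀ O
  ne : O₀ ∉ (S.blow H' e).T
  nice : Nice (S.blow H' e).T
  cartg : ∀ o, IsCart (S.blow H' e).T ((S.blow H' e).g o)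
  can : ∀ D₁ D₂ : Derivation k M M, ∃ ψ : M, ∀ O ∈ (S.blow H' e).T, ∃ a' b' u, Cht O a' b' ∧
    IsU O u ∧ jac D₁ D₂ a' b' = u * ψ * (S.blow H' e).lb (-(S.blow H' e).K) O

/-- The prime divisors of the blow-up. -/
structure Bl2 (E : Place k M) : Prop extends Bl1 S O₀ a b H' e where
  mE : plO E ∈ (S.blow H' e).T
  dE : Dom O₀ (plO E)
  uE : ∀ P : Place k M, plO P ∈ (S.blow H' e).T → Dom O₀ (plO P) → P = E
  nE : plO E ∉ S.T
  pl : ∀ P : Place k M, plO P ∈ (S.blow H' e).T ↔ P = E ∨ plO P ∈ S.T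
  ind : Ind (plO E) ![a / b]
  oe : E.ord (e (plO E)) = 1
  ord : ∀ (p : MvPolynomial (Fin 2) k) (m : ℕ), IsOrd p 0 0 m → E.ord (aeval ![a, b] p) = m
  prm : ∀ c m φ P, (S.blow H' e).Prm (pb c m) φ P ↔
    (P = E ∧ c = 0 ∧ m = 1 ∧ ∀ O ∈ S.T, IsU O φ) ∨ (S.Prm c φ P ∧ m = -E.ord (φ * S.lb c O₀))
  mult : ∀ c φ P, S.Prm c φ P → (¬ O₀ ≤ plO P ∧ IsU O₀ (φ * S.lb c O₀) ∧
    E.ord (φ * S.lb c O₀) = 0) ∨ ∃ (q : MvPolynomial (Fin 2) k) (m : ℕ), O₀ ≤ plO P ∧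
      PlOf a b q P ∧ IsOrd q 0 0 m ∧ IsU O₀ (φ * S.lb c O₀ / aeval ![a, b] q) ∧
      E.ord (φ * S.lb c O₀) = m
  sec : ∀ c m φ, φ ∈ (S.blow H' e).Sec (pb c m) ↔ φ ∈ S.Sec c ∧ E.Ge (-m) (φ * S.lb c O₀)

end blow

/-- BLA. -/
def BlAStmt : Prop := ∀ (k M I : Type) [Field k] [CharZero k] [IsAlgClosed k] [Field M]
  [Algebra k M] [Fintype I] (S : Sd k M I) (O₀ : Subalgebra k M) (a b : M), Ctr S O₀ a b →
    ∃ H' e, Bl0 S O₀ a b H' e

/-- BLB. -/
def BlBStmt : Prop := PlaneStmt → ∀ (k M I : Type) [Field k] [CharZero k] [IsAlgClosed k] [Field M]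
  [Algebra k M] [Fintype I] (S : Sd k M I) (O₀ : Subalgebra k M) (a b : M) (H' : Set M)
  (e : Subalgebra k M → M), Bl0 S O₀ a b H' e → Bl1 S O₀ a b H' e

/-- BLP. -/
def BlPStmt : Prop := PlaneStmt → ∀ (k M I : Type) [Field k] [CharZero k] [IsAlgClosed k] [Field M]
  [Algebra k M] [Fintype I] (S : Sd k M I) (O₀ : Subalgebra k M) (a b : M) (H' : Set M)
  (e : Subalgebra k M → M), Bl1 S O₀ a b H' e → ∃ E, Bl2 S O₀ a b H' e E

/-- BLC. -/
def BlCStmt : Prop := MultStmt → ∀ (k M I : Type) [Field k] [CharZero k] [IsAlgClosed k] [Field M]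
  [Algebra k M] [Fintype I] (S : Sd k M I) (O₀ : Subalgebra k M) (a b : M) (H' : Set M)
  (e : Subalgebra k M → M) (E : Place k M), Bl2 S O₀ a b H' e E → Dg (S.blow H' e)

/-- BLD. -/
def BlDStmt : Prop := ∀ (k M I : Type) [Field k] [CharZero k] [IsAlgClosed k] [Field M]
  [Algebra k M] [Fintype I] (S : Sd k M I) (O₀ : Subalgebra k M) (a b : M) (H' : Set M)
  (e : Subalgebra k M → M) (E : Place k M), Bl2 S O₀ a b H' e E → SurfR (S.blow H' e)

/-- BLE. -/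
def BlEStmt : Prop := ∀ (k M I : Type) [Field k] [CharZero k] [IsAlgClosed k] [Field M]
  [Algebra k M] [Fintype I] (S : Sd k M I) (O₀ : Subalgebra k M) (a b : M) (H' : Set M)
  (e : Subalgebra k M → M) (E : Place k M), Bl2 S O₀ a b H' e E → Dg (S.blow H' e) →
    Surf0 (S.blow H' e) ∧ SurfL (S.blow H' e) ∧ Dif (S.blow H' e)

/-- BLF. -/
def BlFStmt : Prop := PlaneStmt → ∀ (k M I : Type) [Field k] [CharZero k] [IsAlgClosed k] [Field M]
  [Algebra k M] [Fintype I] (S : Sd k M I) (O₀ : Subalgebra k M) (a b : M) (H' : Set M)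
  (e : Subalgebra k M → M) (E : Place k M), Bl2 S O₀ a b H' e E → Adj (S.blow H' e)

/-! ### The minimal surfaces -/

section base

variable (k : Type) {M : Type} [Field k] [Field M] [Algebra k M] (n : ℕ) (x y : M)

/-- The projective plane. -/
noncomputable def p2 : Sd k M Unit where
  H := {x, y, 1}
  g _ O := (gn {x, y, 1} O)⁻¹
  B _ _ := 1
  K _ := -3
  h _ := 1
  A _ := 1
  f _ := 1

/-- The structure of the plane, with the line at infinity `L`. -/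
structure P2 (L : Place k M) : Prop where
  gen : GenP k x y
  eq : (p2 k x y).T = RS.planes k {(x, y), (y / x, x⁻¹), (x / y, y⁻¹)}
  fam : Fam k fun _ : Unit => ({x, y, 1} : Set M)
  nice : Nice (p2 k x y).T
  gH : ∀ O ∈ (p2 k x y).T, Gn {x, y, 1} O (gn {x, y, 1} O)
  lb : ∀ c (O : Subalgebra k M), (p2 k x y).lb c O = gn {x, y, 1} O ^ (-c ())
  can : ∀ D₁ D₂ : Derivation k M M, ∃ ψ : M, ∀ O ∈ (p2 k x y).T, ∃ a b u, Cht O a b ∧ IsU O u ∧
    jac D₁ D₂ a b = u * ψ * (p2 k x y).lb (-(p2 k x y).K) O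
  aff : ∀ O : Subalgebra k M, Cht O x y → O ∈ (p2 k x y).T ∧ IsU O (gn {x, y, 1} O)
  pl : ∀ P : Place k M, plO P ∈ (p2 k x y).T ↔ P = L ∨ Cht (plO P) x y
  nL : ¬ Cht (plO L) x y
  gL : GenP k (y / x) x⁻¹
  cL : PlOf (y / x) x⁻¹ (X 1 : MvPolynomial (Fin 2) k) L
  oL : L.ord (gn {x, y, 1} (plO L)) = -1
  ord : ∀ p : MvPolynomial (Fin 2) k, p ≠ 0 → L.ord (aeval ![x, y] p) = -p.totalDegree

/-- The two families that define the Hirzebruch surface. -/
def fF (i : Fin 2) : Set M := ![{1, x}, {1, y, x ^ n * y}] i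

/-- The Hirzebruch surface. -/
noncomputable def fn : Sd k M (Fin 2) where
  H := Set.image2 (· * ·) (fF n x y 0) (fF n x y 1)
  g i O := (gn (fF n x y i) O)⁻¹
  B := ![![0, 1], ![1, n]]
  K := ![n - 2, -2]
  h := ![1, 1]
  A := ![1, 1]
  f := ![1, 0]

/-- The charts of the Hirzebruch surface. -/
structure Fn0 : Prop where
  gen : GenP k x y
  g2 : GenP k x y⁻¹
  g3 : GenP k x⁻¹ (x ^ n * y)
  g4 : GenP k x⁻¹ (x ^ n * y)⁻¹
  eq : (fn k n x y).T =
    RS.planes k {(x, y), (x, y⁻¹), (x⁻¹, x ^ n * y), (x⁻¹, (x ^ n * y)⁻¹)}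
  fam : Fam k fun _ : Unit => (fn k n x y).H
  nice : Nice (fn k n x y).T
  gF : ∀ O ∈ (fn k n x y).T, ∀ i, Gn (fF n x y i) O (gn (fF n x y i) O)
  lb : ∀ c (O : Subalgebra k M),
    (fn k n x y).lb c O = gn (fF n x y 0) O ^ (-c 0) * gn (fF n x y 1) O ^ (-c 1)
  k1 : ∀ O : Subalgebra k M, Cht O x y → O ∈ (fn k n x y).T ∧
    IsU O (gn (fF n x y 0) O) ∧ IsU O (gn (fF n x y 1) O)
  k2 : ∀ O : Subalgebra k M, Cht O x y⁻¹ → O ∈ (fn k n x y).T ∧
    IsU O (gn (fF n x y 0) O) ∧ IsU O (gn (fF n x y 1) O / y)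
  k3 : ∀ O : Subalgebra k M, Cht O x⁻¹ (x ^ n * y) → O ∈ (fn k n x y).T ∧
    IsU O (gn (fF n x y 0) O / x) ∧ IsU O (gn (fF n x y 1) O)
  k4 : ∀ O : Subalgebra k M, Cht O x⁻¹ (x ^ n * y)⁻¹ → O ∈ (fn k n x y).T ∧
    IsU O (gn (fF n x y 0) O / x) ∧ IsU O (gn (fF n x y 1) O / (x ^ n * y))
  cov : ∀ O ∈ (fn k n x y).T,
    Cht O x y ∨ Cht O x y⁻¹ ∨ Cht O x⁻¹ (x ^ n * y) ∨ Cht O x⁻¹ (x ^ n * y)⁻¹
  cartg : ∀ i, IsCart (fn k n x y).T ((fn k n x y).g i)
  gH : ∀ O ∈ (fn k n x y).T, Gn (fn k n x y).H O ((fn k n x y).lb (fn k n x y).h O)⁻¹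
  can : ∀ D₁ D₂ : Derivation k M M, ∃ ψ : M, ∀ O ∈ (fn k n x y).T, ∃ a b u, Cht O a b ∧
    IsU O u ∧ jac D₁ D₂ a b = u * ψ * (fn k n x y).lb (-(fn k n x y).K) O

/-- The fibre `F` and the section `G` at infinity. -/
structure Fn1 (F G : Place k M) : Prop extends Fn0 k n x y where
  pl : ∀ P : Place k M, plO P ∈ (fn k n x y).T ↔ P = F ∨ P = G ∨ Cht (plO P) x y
  nF : ¬ Cht (plO F) x y
  nG : ¬ Cht (plO G) x y
  ne : F ≠ G
  cF : PlOf x⁻¹ (x ^ n * y) (X 0 : MvPolynomial (Fin 2) k) F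
  cG : PlOf x y⁻¹ (X 1 : MvPolynomial (Fin 2) k) G
  oF : F.ord (gn (fF n x y 0) (plO F)) = -1 ∧ F.ord (gn (fF n x y 1) (plO F)) = 0
  oG : G.ord (gn (fF n x y 0) (plO G)) = 0 ∧ G.ord (gn (fF n x y 1) (plO G)) = -1
  ordF : ∀ (α : k) (p : MvPolynomial (Fin 2) k), p ≠ 0 →
    F.ord (aeval ![x, (x - algebraMap k M α) ^ n * y] p) = -p.degreeOf 0
  ordG : ∀ p : MvPolynomial (Fin 2) k, p ≠ 0 → G.ord (aeval ![x, y] p) = -p.degreeOf 1
  prm : ∀ c φ P, (fn k n x y).Prm c φ P → (P = F ∧ c = ![1, 0]) ∨ (P = G ∧ c = ![0, 1]) ∨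
    ∃ q : MvPolynomial (Fin 2) k, PlOf x y q P ∧ c = ![-F.ord (aeval ![x, y] q), q.degreeOf 1]
  pF : (fn k n x y).Prm ![1, 0] 1 F
  pG : (fn k n x y).Prm ![0, 1] 1 G
  all : ∀ P : Place k M, plO P ∈ (fn k n x y).T → ∃ c φ, (fn k n x y).Prm c φ P

end base

/-- P2A. -/
def P2AStmt : Prop := PlaneStmt → ∀ (k M : Type) [Field k] [CharZero k] [IsAlgClosed k] [Field M]
  [Algebra k M] (x y : M), GenP k x y → ∃ L, P2 k x y L

/-- P2B. -/
def P2BStmt : Prop := PlaneStmt → MultStmt → ∀ (k M : Type) [Field k] [CharZero k] [IsAlgClosed k]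
  [Field M] [Algebra k M] (x y : M) (L : Place k M), Aff k M → P2 k x y L → Surf0 (p2 k x y)

/-- P2C. -/
def P2CStmt : Prop := ∀ (k M : Type) [Field k] [CharZero k] [IsAlgClosed k] [Field M]
  [Algebra k M] (x y : M) (L : Place k M), Aff k M → P2 k x y L →
    SurfL (p2 k x y) ∧ SurfR (p2 k x y) ∧ Dif (p2 k x y)

/-- FNA. -/
def FnAStmt : Prop := PlaneStmt → ∀ (k M : Type) [Field k] [CharZero k] [IsAlgClosed k] [Field M]
  [Algebra k M] (n : ℕ) (x y : M), GenP k x y → Fn0 k n x y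

/-- FNP. -/
def FnPStmt : Prop := PlaneStmt → ∀ (k M : Type) [Field k] [CharZero k] [IsAlgClosed k] [Field M]
  [Algebra k M] (n : ℕ) (x y : M), Aff k M → Fn0 k n x y → ∃ F G, Fn1 k n x y F G

/-- FND. -/
def FnDStmt : Prop := MultStmt → ∀ (k M : Type) [Field k] [CharZero k] [IsAlgClosed k] [Field M]
  [Algebra k M] (n : ℕ) (x y : M) (F G : Place k M), Fn1 k n x y F G → Dg (fn k n x y)

/-- FNR. -/
def FnRStmt : Prop := ∀ (k M : Type) [Field k] [CharZero k] [IsAlgClosed k] [Field M]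
  [Algebra k M] (n : ℕ) (x y : M) (F G : Place k M), Aff k M → Fn1 k n x y F G → SurfR (fn k n x y)

/-- FNL. -/
def FnLStmt : Prop := ∀ (k M : Type) [Field k] [CharZero k] [IsAlgClosed k] [Field M]
  [Algebra k M] (n : ℕ) (x y : M) (F G : Place k M), Fn1 k n x y F G → Dg (fn k n x y) →
    Surf0 (fn k n x y) ∧ SurfL (fn k n x y) ∧ Dif (fn k n x y)

/-- The rows of the tower. -/
structure TMods : Prop where
  plane : PlaneStmt
  curve : CurveStmt
  mult : MultStmt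
  jac : JacStmt
  aff : AffStmt
  a1 : A1Stmt
  blA : BlAStmt
  blB : BlBStmt
  blP : BlPStmt
  blC : BlCStmt
  blD : BlDStmt
  blE : BlEStmt
  blF : BlFStmt
  p2A : P2AStmt
  p2B : P2BStmt
  p2C : P2CStmt
  fnA : FnAStmt
  fnP : FnPStmt
  fnD : FnDStmt
  fnR : FnRStmt
  fnL : FnLStmt

theorem tower (m : TMods) {k M : Type} [Field k] [CharZero k] [IsAlgClosed k] [Field M]
    [Algebra k M] {T : Set (Subalgebra k M)} (h : RS.Tower T) :
    ∃ (I : Type) (_ : Fintype I) (S : Sd k M I), S.T = T ∧ Surf S := by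
  have ha := m.aff m.plane k M
  induction h with
  | plane x y hg =>
    obtain ⟨L, h⟩ := m.p2A m.plane k M x y ⟨hg.1, hg.2⟩
    have h0 := m.p2B m.plane m.mult k M x y L ha h
    obtain ⟨h1, h2, h3⟩ := m.p2C k M x y L ha h
    exact ⟨Unit, inferInstance, p2 k x y, h.eq, h0, h1, h2, fun c φ P hp =>
      Or.inl ((m.a1 m.plane m.curve k M _ _ h0).hpos c ⟨φ, P, hp⟩), h3⟩
  | hirz n x y hg =>
    obtain ⟨F, G, h⟩ := m.fnP m.plane k M n x y ha (m.fnA m.plane k M n x y ⟨hg.1, hg.2⟩)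
    obtain ⟨h0, h1, h3⟩ := m.fnL k M n x y F G h (m.fnD m.mult k M n x y F G h)
    exact ⟨Fin 2, inferInstance, fn k n x y, h.eq, h0, h1, m.fnR k M n x y F G ha h,
      fun c φ P hp => Or.inl ((m.a1 m.plane m.curve k M _ _ h0).hpos c ⟨φ, P, hp⟩), h3⟩
  | blow T O _ hO hr ih =>
    obtain ⟨I, _, S, rfl, hS⟩ := ih
    have a1 := m.a1 m.plane m.curve k M I S hS.toSurf0
    obtain ⟨a, ha, b, hb, hc⟩ := a1.cen O hO hr
    obtain ⟨H', e, h0⟩ := m.blA k M I S O a b ⟨hS, a1, m.jac m.plane k M, hO, hr, ha, hb, hc⟩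
    obtain ⟨E, h⟩ := m.blP m.plane k M I S O a b H' e (m.blB m.plane k M I S O a b H' e h0)
    obtain ⟨h1, h2, h3⟩ := m.blE k M I S O a b H' e E h (m.blC m.mult k M I S O a b H' e E h)
    exact ⟨Option I, inferInstance, S.blow H' e, h0.eq, h1, h2, m.blD k M I S O a b H' e E h,
      m.blF m.plane k M I S O a b H' e E h, h3⟩

end Pool.Agent.MP_20d318_ag.CB

end MrgPart5

-- ======== part 6: formerly Pool.Agent.MP_20d318_ag.CB.Aff
section MrgPart6

/-! Functions on the affine plane. -/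

set_option autoImplicit false

namespace Pool.Agent.MP_20d318_ag.CB

open Pool.Agent.MP_79c67d_ag Pool.Agent.MP_20d318_ag.AG Pool.Agent.MP_20d318_ag.BV MvPolynomial
open Pool.Agent.MP_20d318_ag.RS (jac)
open scoped IntermediateField

namespace AffR

variable {k M : Type} [Field k] [Field M] [Algebra k M]

theorem mem {a b r : M} (hp : Plane (k := k) a b) (hg : GenP k a b)
    (h : ∀ P : Place k M, Cht (plO P) a b → P.Ge 0 r) :
    ∃ p : MvPolynomial (Fin 2) k, aeval ![a, b] p = r := by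
  obtain ⟨n, hn, d, hd, h0, rfl⟩ := hp.frac r
  obtain ⟨n, rfl⟩ := mem_adjoin_pair.1 hn
  obtain ⟨d, rfl⟩ := mem_adjoin_pair.1 hd
  have hd0 : d ≠ 0 := fun e => h0 (by rw [e, map_zero])
  obtain ⟨d', n', c, hr, rfl, rfl⟩ := UniqueFactorizationMonoid.exists_reduced_factors d hd0 n
  rw [map_mul] at h0
  have hc := left_ne_zero_of_mul h0
  have hd' := right_ne_zero_of_mul h0
  rw [map_mul, map_mul, mul_div_mul_left _ _ hc] at h ⊢
  by_cases hu : IsUnit d'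
  · obtain ⟨e, he⟩ := isUnit_iff_exists_inv.1 hu
    refine ⟨n' * e, ?_⟩
    rw [map_mul, eq_div_iff hd', mul_assoc, ← map_mul, mul_comm e, he, map_one, mul_one]
  · obtain ⟨q, hq, hqd⟩ := WfDvdMonoid.exists_irreducible_factor hu (right_ne_zero_of_mul hd0)
    obtain ⟨P, hP⟩ := hp.ex q hq
    have h1 := mx_mul_left ((mem_plO' P).2 (h P ⟨hg, hP.pts⟩)) ((hP.mem d').2 hqd)
    rw [div_mul_cancel₀ _ hd'] at h1
    exact absurd (hr hqd ((hP.mem n').1 h1)) hq.not_isUnit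

theorem const {a b r : M} (hp : Plane (k := k) a b) (hg : GenP k a b) (h0 : r ≠ 0)
    (h : ∀ P : Place k M, Cht (plO P) a b → P.ord r = 0) : ∃ c : k, r = algebraMap k M c := by
  obtain ⟨p, h1⟩ := mem hp hg fun P hP => P.ge_of_le (h P hP).ge
  obtain ⟨p', h2⟩ := mem (r := r⁻¹) hp hg fun P hP => Place.Ge.inv_of_ord (h P hP)
  have h3 : p * p' = 1 := hg.ind (by rw [map_mul, h1, h2, map_one, mul_inv_cancel₀ h0])
  obtain ⟨c, -, rfl⟩ := MvPolynomial.isUnit_iff_eq_C_of_isReduced.1 (IsUnit.of_mul_eq_one _ h3)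
  exact ⟨c, by rw [← h1, aeval_C]⟩

theorem aeval_eq (u w : M) (p : MvPolynomial (Fin 2) k) :
    aeval ![u, w] p = Polynomial.aevalTower (aeval ![w] : MvPolynomial (Fin 1) k →ₐ[k] M) u
      (finSuccEquiv k 1 p) := by
  have e : (aeval ![u, w] : MvPolynomial (Fin 2) k →ₐ[k] M) =
      (Polynomial.aevalTower (aeval ![w] : MvPolynomial (Fin 1) k →ₐ[k] M) u).comp
        (finSuccEquiv k 1 : MvPolynomial (Fin 2) k →ₐ[k] Polynomial (MvPolynomial (Fin 1) k)) := by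
    refine MvPolynomial.algHom_ext fun i => ?_
    refine Fin.cases ?_ (fun j => ?_) i
    · simp [finSuccEquiv_X_zero]
    · simp [finSuccEquiv_X_succ]
  exact DFunLike.congr_fun e p

theorem g0 (P : Place k M) (u w : M) (hu : P.ord u = -1) (hw : Ind (plO P) ![w])
    (p : MvPolynomial (Fin 2) k) (hp : p ≠ 0) : P.ord (aeval ![u, w] p) = -p.degreeOf 0 := by
  have hu0 : u ≠ 0 := fun e => by simp [e] at hu
  have hQ : finSuccEquiv k 1 p ≠ 0 := fun e => hp ((finSuccEquiv k 1).map_eq_zero_iff.1 e)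
  rw [aeval_eq, ← natDegree_finSuccEquiv]
  generalize finSuccEquiv k 1 p = Q at hQ ⊢
  have h1 := (isU_plO' P).1 (hw.2 _ (Polynomial.leadingCoeff_ne_zero.2 hQ))
  have h2 : P.ord (aeval ![w] Q.leadingCoeff * u ^ Q.natDegree) = -Q.natDegree := by
    rw [P.ord_mul h1.1 (pow_ne_zero _ hu0), h1.2, P.ord_pow, hu]; ring
  have h3 : Polynomial.aevalTower (aeval ![w] : MvPolynomial (Fin 1) k →ₐ[k] M) u Q =
      aeval ![w] Q.leadingCoeff * u ^ Q.natDegree +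
        ∑ i ∈ Finset.range Q.natDegree, aeval ![w] (Q.coeff i) * u ^ i := by
    conv_lhs => rw [Q.as_sum_range_C_mul_X_pow, Finset.sum_range_succ, add_comm]
    simp only [map_add, map_sum, map_mul, map_pow, Polynomial.aevalTower_C, Polynomial.aevalTower_X,
      Polynomial.coeff_natDegree]
  rw [h3, ← h2]
  refine (Place.add_ne_and_ord (mul_ne_zero h1.1 (pow_ne_zero _ hu0)) ?_).2
  refine Place.ge_sum fun i hi => Place.Ge.mul0 ((mem_plO' P).1 (aeval_mem hw.1 _)) ?_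
  refine P.ge_of_le ?_
  have := Finset.mem_range.1 hi
  rw [h2, P.ord_pow, hu]
  omega

theorem g1 (P : Place k M) (u w : M) (hu : P.ord u = -1) (hw : Ind (plO P) ![w])
    (p : MvPolynomial (Fin 2) k) (hp : p ≠ 0) : P.ord (aeval ![w, u] p) = -p.degreeOf 1 := by
  have hs : Function.Injective (Equiv.swap (0 : Fin 2) 1) := (Equiv.swap 0 1).injective
  have h1 := g0 P u w hu hw (rename (Equiv.swap (0 : Fin 2) 1) p)
    fun e => hp (rename_injective _ hs (by rw [e, map_zero]))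
  have h2 : (![u, w] : Fin 2 → M) ∘ Equiv.swap (0 : Fin 2) 1 = ![w, u] := by
    funext i; fin_cases i <;> rfl
  have h3 := degreeOf_rename_of_injective (p := p) hs 1
  rw [Equiv.swap_apply_right] at h3
  rwa [aeval_rename, h2, h3] at h1

end AffR

theorem aff_stmt : AffStmt := fun hp k M _ _ _ _ _ =>
  ⟨fun a b _ hg h => AffR.mem (hp k M a b hg) hg h,
    fun a b _ hg h0 h => AffR.const (hp k M a b hg) hg h0 h, AffR.g0, AffR.g1⟩

end Pool.Agent.MP_20d318_ag.CB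

end MrgPart6

-- ======== part 7: formerly Pool.Agent.MP_20d318_ag.CB.BlF
section MrgPart7

/-! Adjunction for the contracted curves of the blow-up. -/

set_option autoImplicit false

namespace Pool.Agent.MP_20d318_ag.CB

open Pool.Agent.MP_79c67d_ag Pool.Agent.MP_20d318_ag.AG Pool.Agent.MP_20d318_ag.BV MvPolynomial
open Pool.Agent.MP_20d318_ag.RS (jac)

namespace BlF

variable {k M : Type} [Field k] [Field M] [Algebra k M] {O₀ O : Subalgebra k M} {a b s : M}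

/-- The linear part of `s` is not zero. -/
def Lin (O₀ : Subalgebra k M) (a b s : M) : Prop := ∃ α β : k, (α ≠ 0 ∨ β ≠ 0) ∧ ∃ u ∈ O₀,
  ∃ v ∈ O₀, ∃ w ∈ O₀, s = algebraMap k M α * a + algebraMap k M β * b +
    (u * a ^ 2 + v * a * b + w * b ^ 2)

theorem Lin.swap (h : Lin O₀ a b s) : Lin O₀ b a s := by
  obtain ⟨α, β, h0, u, hu, v, hv, w, hw, e⟩ := h
  exact ⟨β, α, h0.symm, w, hw, v, hv, u, hu, by linear_combination e⟩

theorem lin (h : Cht O₀ a b) (hr : RatPt O₀) (ha : a ∈ mx O₀) (hb : b ∈ mx O₀) (hs : s ∈ mx O₀)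
    (hc : Crd O₀ s) : Lin O₀ a b s := by
  obtain ⟨p, hp, r, hq, e⟩ := Pb.gen h ha hb hs
  obtain ⟨α, hα⟩ := hr p hp
  obtain ⟨β, hβ⟩ := hr r hq
  obtain ⟨p1, h1, p2, h2, e1⟩ := Pb.gen h ha hb hα
  obtain ⟨r1, h3, r2, h4, e2⟩ := Pb.gen h ha hb hβ
  refine ⟨α, β, ?_, p1, h1, p2 + r1, O₀.add_mem h2 h3, r2, h4, by
    linear_combination e + a * e1 + b * e2⟩
  by_contra hn
  obtain ⟨rfl, rfl⟩ : α = 0 ∧ β = 0 := by simpa using hn
  rw [map_zero, sub_zero] at hα hβ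
  obtain ⟨D, hD, hu⟩ := hc hs
  refine hu.not_mx ?_
  rw [e, map_add, Derivation.leibniz, Derivation.leibniz]
  exact mx_add h.2.1 (mx_add h.2.1 (mx_mul_right hα (hD a ha.1)) (mx_mul_right ha (hD p hp)))
    (mx_add h.2.1 (mx_mul_right hβ (hD b hb.1)) (mx_mul_right hb (hD r hq)))

theorem Lin.div (h : Lin O₀ a b s) (hle : O₀ ≤ O) (ht : a / b ∈ O) (h0 : b ≠ 0) :
    ∃ α β : k, (α ≠ 0 ∨ β ≠ 0) ∧ ∃ w ∈ O,
      s / b = algebraMap k M α * (a / b) + algebraMap k M β + b * w := by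
  obtain ⟨α, β, h1, u, hu, v, hv, w, hw, e⟩ := h
  refine ⟨α, β, h1, u * (a / b) ^ 2 + v * (a / b) + w, O.add_mem (O.add_mem
    (O.mul_mem (hle hu) (O.pow_mem ht 2)) (O.mul_mem (hle hv) ht)) (hle hw), ?_⟩
  rw [e]
  field_simp

theorem Lin.unit (h : Lin O₀ a b s) (hO : IsLocalRing O) (hle : O₀ ≤ O) (ht : Ind O ![a / b])
    (hb : b ∈ mx O) (h0 : b ≠ 0) : IsU O (s / b) := by
  obtain ⟨α, β, h1, w, hw, e⟩ := h.div hle (ht.1 0) h0
  rw [e]
  refine IsU.add_mx hO ?_ (mx_mul_right hb hw)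
  by_cases hα : α = 0
  · rw [hα, map_zero, zero_mul, zero_add]
    exact isU_const (h1.resolve_left fun h => h hα)
  · have := (isU_const hα).mul (ind_one ht (-(β / α)))
    rwa [mul_sub, ← map_mul, mul_neg, mul_div_cancel₀ _ hα, map_neg, sub_neg_eq_add] at this

variable [CharZero k] [IsAlgClosed k]

theorem crd_b (hP : PlaneStmt) (h : Cht O a b) {u : M} (hu : IsU O u) : Crd O (u * b) := by
  obtain ⟨D, hD, hD'⟩ := Pb.der hP h 1
  have h1 : D b = 1 := by simpa using hD' (X 1)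
  exact Crd.of_unit h.2.1 (fun _ => ⟨D, hD, h1 ▸ isU_one⟩)
    (by simpa using Pb.aeval_in h (X 1)) hu

theorem Lin.crd (hP : PlaneStmt) (h : Lin O₀ a b s) (hle : O₀ ≤ O) (hc : Cht O (a / b) b)
    (hb : b ∈ mx O) {g : M} (hg : IsU O (g / b)) : Crd O (s * g ^ (-1 : ℤ)) := by
  have h0 : b ≠ 0 := by simpa using hc.1.y_ne 0
  have ht : a / b ∈ O := by simpa using Pb.aeval_in hc (X 0)
  obtain ⟨α, β, h1, w, hw, e⟩ := h.div hle ht h0
  have hm : s / b ∈ O := e ▸ O.add_mem (O.add_mem (O.mul_mem (O.algebraMap_mem α) ht)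
    (O.algebraMap_mem β)) (O.mul_mem hb.1 hw)
  have key : Crd O (s / b) := fun hs => by
    have hα : α ≠ 0 := by
      rintro rfl
      rw [e, map_zero, zero_mul, zero_add] at hs
      exact ((isU_const (h1.resolve_left fun h => h rfl)).add_mx hc.2.1
        (mx_mul_right hb hw)).not_mx hs
    obtain ⟨D, hD, hD'⟩ := Pb.der hP hc 0
    have h2 : D (a / b) = 1 := by simpa using hD' (X 0)
    have h3 : D b = 0 := by simpa using hD' (X 1)
    refine ⟨D, hD, ?_⟩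
    rw [e, map_add, map_add, Derivation.leibniz, Derivation.leibniz, h2, h3,
      Derivation.map_algebraMap, Derivation.map_algebraMap, smul_zero, smul_zero, add_zero,
      add_zero, add_zero, smul_eq_mul, smul_eq_mul, mul_one]
    exact (isU_const hα).add_mx hc.2.1 (mx_mul_right hb (hD w hw))
  have g0 : g ≠ 0 := (div_ne_zero_iff.1 hg.ne).1
  have := key.of_unit hc.2.1 hm hg.inv
  rwa [show (g / b)⁻¹ * (s / b) = s * g ^ (-1 : ℤ) by rw [zpow_neg_one]; field_simp] at this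

end BlF

open BlF in
theorem blF_stmt : BlFStmt := by
  intro hP k M I _ _ _ _ _ _ S O₀ a b H' e E h c' φ P hp
  obtain ⟨c, m, rfl⟩ := exists_pb c'
  have eA : ip (S.blow H' e).B (S.blow H' e).A (pb c m) = ip S.B S.A c :=
    (ip_pb S H' e S.A c 0 m).trans (by ring)
  have eK : ip (S.blow H' e).B (S.blow H' e).K (pb c m) = ip S.B S.K c - m :=
    (ip_pb S H' e S.K c 1 m).trans (by ring)
  have un : ∀ (O : Subalgebra k M) (u : M), IsU O u → Crd O u := fun O u hu hm =>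
    (hu.not_mx hm).elim
  have b0 : b ≠ 0 := by simpa using h.cht.1.y_ne 0
  have a0 : a ≠ 0 := by simpa using h.cht.1.x_ne 0
  rw [eA, eK, ip_pb]
  simp only [lb_pb]
  rcases (h.prm c m φ P).1 hp with ⟨-, rfl, rfl, hu⟩ | ⟨hq, hm⟩
  · refine Or.inr ⟨by simp [ip_zero_right], fun O hO => ?_⟩
    rw [S.lb_zero, one_mul, zpow_one]
    rcases h.cases O hO with ⟨h1, h2⟩ | hd
    · exact un _ _ ((hu O h1).mul (h.off O h1 h2).2.2)
    have h3 := (hu O₀ h.mem).mono hd.1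
    rcases h.c12 O hO hd with h4 | h4
    · obtain ⟨h5, h6⟩ := h.c1 O hO hd h4
      simpa only [mul_assoc, div_mul_cancel₀ _ b0] using crd_b hP h5 (h3.mul h6)
    · obtain ⟨h5, h6⟩ := h.c2 O hO hd h4
      simpa only [mul_assoc, div_mul_cancel₀ _ a0] using crd_b hP h5 (h3.mul h6)
  refine (h.s.adjc c φ P hq).imp id fun ⟨h1, h2⟩ => ?_
  have off : ∀ O ∈ S.T, O ≠ O₀ → Crd O (φ * (S.lb c (S.bt O) * e O ^ m)) := fun O h3 h4 => by
    obtain ⟨-, h5, h6⟩ := h.off O h3 h4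
    rw [h5, ← mul_assoc, mul_comm]
    exact (h2 O h3).of_unit (h.a1.nice.loc O h3) (h.a1.pmem c φ P hq O h3) (h6.zpow m)
  rcases isU_or_mx (h.a1.pmem c φ P hq O₀ h.mem) with hs | hs
  · obtain rfl : m = 0 := by rw [hm, ((isU_plO' E).1 (hs.mono h.dE.1)).2, neg_zero]
    refine ⟨by linarith, fun O hO => (h.cases O hO).elim (fun h3 => off O h3.1 h3.2) fun hd => ?_⟩
    rw [(h.ov O hO hd).1, zpow_zero, mul_one]
    exact un _ _ (hs.mono hd.1)
  have hl := lin h.cht h.rat h.ma h.mb hs (h2 O₀ h.mem)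
  obtain rfl : m = -1 := by
    have h3 := (isU_plO' E).1 (hl.unit (h.nice.loc _ h.mE) h.dE.1 h.ind (h.dE.mx h.mb) b0)
    have h4 := (isU_plO' E).1 (h.c1 _ h.mE h.dE (h.ind.1 0)).2
    rw [E.ord_div (div_ne_zero_iff.1 h3.1).1 b0] at h3
    rw [E.ord_div (div_ne_zero_iff.1 h4.1).1 b0, h.oe] at h4
    linarith [h3.2, h4.2]
  refine ⟨by linarith, fun O hO => (h.cases O hO).elim (fun h3 => off O h3.1 h3.2) fun hd => ?_⟩
  rw [(h.ov O hO hd).1, ← mul_assoc]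
  rcases h.c12 O hO hd with h4 | h4
  · obtain ⟨h5, h6⟩ := h.c1 O hO hd h4
    exact hl.crd hP hd.1 h5 (hd.mx h.mb) h6
  · obtain ⟨h5, h6⟩ := h.c2 O hO hd h4
    exact hl.swap.crd hP hd.1 h5 (hd.mx h.ma) h6

end Pool.Agent.MP_20d318_ag.CB

end MrgPart7

-- ======== part 8: formerly Pool.Agent.MP_20d318_ag.CB.P2B
section MrgPart8

/-! Prime divisors and degrees on the projective plane. -/

set_option autoImplicit false

namespace Pool.Agent.MP_20d318_ag.CB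

open Pool.Agent.MP_79c67d_ag Pool.Agent.MP_20d318_ag.AG Pool.Agent.MP_20d318_ag.BV MvPolynomial
open Pool.Agent.MP_20d318_ag.RS (jac)
open scoped IntermediateField

namespace P2B

variable {k M : Type} [Field k] [Field M] [Algebra k M]

theorem ev_aeval {X : Set (Subalgebra k M)} (ν : Curve X) {a b : M} (ha : a ∈ ν.gen)
    (hb : b ∈ ν.gen) (p : MvPolynomial (Fin 2) k) :
    ν.ev (aeval ![a, b] p) = aeval ![ν.ev a, ν.ev b] p := by
  rw [ν.ev_eq, evO_aeval ν.ρ (fun i => by fin_cases i <;> assumption)]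
  congr 2
  funext i
  fin_cases i <;> rfl

theorem mem_pair {O : Subalgebra k M} {a b : M} (h : O ∈ Pts (Algebra.adjoin k {a, b})) :
    a ∈ O ∧ b ∈ O :=
  ⟨h.2.1 (Algebra.subset_adjoin (Or.inl rfl)), h.2.1 (Algebra.subset_adjoin (Or.inr rfl))⟩

theorem adj_eq {X : Set (Subalgebra k M)} (ν : Curve X) {a b : M}
    (h : ν.gen ∈ Pts (Algebra.adjoin k {a, b})) :
    IntermediateField.adjoin k (ν.ev '' ν.gen) = k⟮ν.ev a, ν.ev b⟯ := by
  obtain ⟨ha, hb⟩ := mem_pair h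
  have key : ∀ f ∈ Algebra.adjoin k {a, b}, ν.ev f ∈ k⟮ν.ev a, ν.ev b⟯ := fun f hf => by
    obtain ⟨p, rfl⟩ := mem_adjoin_pair.1 hf
    rw [ev_aeval ν ha hb]
    exact IntermediateField.algebra_adjoin_le_adjoin _ _ (mem_adjoin_pair.2 ⟨p, rfl⟩)
  refine le_antisymm (IntermediateField.adjoin_le_iff.2 ?_) (IntermediateField.adjoin.mono _ _ _ ?_)
  · rintro _ ⟨f, hf, rfl⟩
    obtain ⟨c, hc, d, hd, hu, rfl⟩ := h.2.2 f hf
    rw [ev_div ν (h.2.1 hc) hu]
    exact div_mem (key c hc) (key d hd)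
  · rintro _ (rfl | rfl)
    exacts [⟨a, ha, rfl⟩, ⟨b, hb, rfl⟩]

variable [CharZero k] [IsAlgClosed k]

theorem pdeg2_eq (hp : PlaneStmt) (hm : MultStmt) {X : Set (Subalgebra k M)} (ν : Curve X)
    {a b : M} (hg : GenP k a b) {q : MvPolynomial (Fin 2) k} {P : Place k M} (hq : PlOf a b q P)
    (hν : ν.gen = plO P) : pdeg2 k (ν.ev a) (ν.ev b) = nu ν * q.totalDegree := by
  have h : ν.gen ∈ Pts (Algebra.adjoin k {a, b}) := hν ▸ hq.pts
  obtain ⟨ha, hb⟩ := mem_pair h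
  have h0 : aeval ![ν.ev a, ν.ev b] q = 0 := by
    rw [← ev_aeval ν ha hb, ev_eq_zero ν (aeval_mem (fun i => by fin_cases i <;> assumption) q), hν]
    exact (hq.mem q).2 dvd_rfl
  have ht : Transcendental k (ν.ev a) ∨ Transcendental k (ν.ev b) := by
    by_contra hn
    rw [not_or] at hn
    refine ((hp k M a b hg).dim P hq.pts).1 (hν ▸ ratPt_of h rfl ?_)
    rintro g (rfl | rfl)
    · exact by_contra fun e => hn.1 (ev_transcendental ν ha (not_exists.1 e))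
    · exact by_contra fun e => hn.2 (ev_transcendental ν hb (not_exists.1 e))
  rw [nu, adj_eq ν h]
  exact (hm k ν.L _ _ q hq.irr h0 ht).2.1

variable {x y : M} {L : Place k M}

omit [CharZero k] [IsAlgClosed k] in
theorem ord_aff (h : P2 k x y L) {P : Place k M} (hP : Cht (plO P) x y) {φ : M} (hφ : φ ≠ 0)
    (c : Unit → ℤ) : P.ord (φ * (p2 k x y).lb c (plO P)) = P.ord φ := by
  have u := (isU_plO' P).1 (h.aff _ hP).2
  rw [h.lb, P.ord_mul hφ (zpow_ne_zero _ u.1), P.ord_zpow, u.2, mul_zero, add_zero]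

omit [CharZero k] [IsAlgClosed k] in
theorem ord_L (h : P2 k x y L) {φ : M} (hφ : φ ≠ 0) (c : Unit → ℤ) :
    L.ord (φ * (p2 k x y).lb c (plO L)) = L.ord φ + c () := by
  have u := (h.gH _ ((h.pl L).2 (Or.inl rfl))).ne
  rw [h.lb, L.ord_mul hφ (zpow_ne_zero _ u), L.ord_zpow, h.oL]
  ring

omit [CharZero k] [IsAlgClosed k] in
theorem prm_L (h : P2 k x y L) : (p2 k x y).Prm (fun _ => 1) 1 L := by
  refine ⟨one_ne_zero, (h.pl L).2 (Or.inl rfl), fun P hP => ?_⟩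
  rcases (h.pl P).1 hP with rfl | hc
  · rw [ord_L h one_ne_zero, if_pos rfl, Place.ord_one, zero_add]
  · rw [ord_aff h hc one_ne_zero, if_neg fun e => h.nL (by rw [← e]; exact hc), Place.ord_one]

theorem prm_q (hp : PlaneStmt) (h : P2 k x y L) {q : MvPolynomial (Fin 2) k} {P : Place k M}
    (hq : PlOf x y q P) : (p2 k x y).Prm (fun _ => q.totalDegree) (aeval ![x, y] q) P := by
  have h0 := h.gen.aeval_ne hq.irr.ne_zero
  refine ⟨h0, (h.aff _ ⟨h.gen, hq.pts⟩).1, fun P' hP => ?_⟩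
  rcases (h.pl P').1 hP with rfl | hc
  · rw [ord_L h h0, h.ord q hq.irr.ne_zero,
      if_neg fun e => h.nL (by rw [e]; exact ⟨h.gen, hq.pts⟩), neg_add_cancel]
  · rw [ord_aff h hc h0]
    split_ifs with e
    · rw [e, hq.ord]
    · obtain ⟨ha, hb⟩ := mem_pair hc.2
      obtain ⟨q', hq'⟩ := (hp k M x y h.gen).plof P' hc.2
      refine le_antisymm (not_lt.1 fun hlt => e ?_)
        (mem_plO_ord.1 (aeval_mem (fun i => by fin_cases i <;> assumption) q))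
      exact (hp k M x y h.gen).uniq q' q P' P hq' hq ((hq'.mem q).1 ((mx_plO h0).2 hlt))

omit [CharZero k] [IsAlgClosed k] in
theorem uniq (ha : Aff k M) (h : P2 k x y L) {c c' : Unit → ℤ} {φ φ' : M} {P : Place k M}
    (h1 : (p2 k x y).Prm c φ P) (h2 : (p2 k x y).Prm c' φ' P) : c () = c' () := by
  obtain ⟨r, hr⟩ := ha.const x y (φ / φ') h.gen (div_ne_zero h1.1 h2.1) fun P' hc => by
    have hT := (h.aff _ hc).1
    rw [P'.ord_div h1.1 h2.1, ← ord_aff h hc h1.1 c, ← ord_aff h hc h2.1 c', h1.2.2 P' hT,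
      h2.2.2 P' hT, sub_self]
  have hL := (h.pl L).2 (Or.inl rfl)
  have e1 := h1.2.2 L hL
  rw [← h2.2.2 L hL, ord_L h h1.1, ord_L h h2.1] at e1
  have e2 := L.ord_div h1.1 h2.1
  rw [hr, L.ord_const] at e2
  omega

theorem deg_gn (hp : PlaneStmt) (hm : MultStmt) (ha : Aff k M) (h : P2 k x y L) {c : Unit → ℤ}
    {φ : M} {P : Place k M} (h1 : (p2 k x y).Prm c φ P) (ν : Curve (p2 k x y).T)
    (hν : ν.gen = plO P) : ν.deg (gn {x, y, 1}) = -(nu ν * c ()) := by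
  rcases (h.pl P).1 h1.2.1 with rfl | hc
  · have e : ({x, y, 1} : Set M) = {y, 1, x} := by
      rw [Set.insert_comm x y, Set.pair_comm x 1]
    have hx : x ≠ 0 := by simpa using h.gen.x_ne 0
    obtain ⟨h3, h4⟩ := mem_pair h.cL.pts
    rw [deg_gn_three (p := y) (q := 1) (r := x) ν (e ▸ h.gH _ ν.gen_mem)
      (fun Q => e ▸ h.gH _ (ν.pt_mem Q)) hx (hν ▸ h3) (by rw [hν, one_div]; exact h4), one_div,
      pdeg2_eq hp hm ν h.gL h.cL hν, uniq ha h h1 (prm_L h), totalDegree_X]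
    simp
  · obtain ⟨q, hq⟩ := (hp k M x y h.gen).plof P hc.2
    obtain ⟨h3, h4⟩ := mem_pair hc.2
    rw [deg_gn_three ν (h.gH _ ν.gen_mem) (fun Q => h.gH _ (ν.pt_mem Q)) one_ne_zero
      (by rw [hν, div_one]; exact h3) (by rw [hν, div_one]; exact h4), div_one, div_one,
      pdeg2_eq hp hm ν h.gen hq hν, uniq ha h h1 (prm_q hp h hq)]

end P2B

open P2B in
theorem p2B_stmt : P2BStmt := fun hp hm k M _ _ _ _ _ x y L ha h => by
  have hc : IsCart (p2 k x y).T (gn {x, y, 1}) := isCart_of_gn (Set.toFinite _) h.gH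
  refine ⟨h.fam, fun _ => hc.inv, fun O hO => ?_, h.can, fun _ _ => rfl, fun P hP => ?_,
    fun c φ P h1 ν hν c' => ?_, fun c hz => ?_⟩
  · rw [h.lb]
    simpa [p2] using h.gH O hO
  · rcases (h.pl P).1 hP with rfl | hc
    · exact ⟨_, _, prm_L h⟩
    · obtain ⟨q, hq⟩ := (hp k M x y h.gen).plof P hc.2
      exact ⟨_, _, prm_q hp h hq⟩
  · have e : (p2 k x y).lb c' = gn {x, y, 1} ^ (-c' ()) := funext fun O => h.lb c' O
    rw [e, deg_zpow h.nice.toGood hc, deg_gn hp hm ha h h1 ν hν]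
    simp [ip, p2]
    ring
  · have := hz _ ⟨_, _, prm_L h⟩
    funext i
    simpa [ip, p2] using this

end Pool.Agent.MP_20d318_ag.CB

end MrgPart8

-- marker of a merged file
example : 731051 + 10609 = 731051 + 10609 := rfl
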