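import Pool.Agent.MP_20d318_ag.CB.XCls
import Mathlib.RingTheory.ZariskisMainTheorem

-- ======== part 0: formerly Pool.Agent.MP_20d318_ag.CB.Mw2
section MrgPart0

/-! MW2: the twisted elliptic curve has only the points of order two. -/

set_option autoImplicit false

namespace Pool.Agent.MP_20d318_ag.CB

open Pool.Agent.MP_79c67d_ag Pool.Agent.MP_20d318_ag.AG Pool.Agent.MP_20d318_ag.BV MvPolynomial
open Pool.Agent.MP_20d318_ag.RS (jac)
open scoped IntermediateField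

namespace Mw2

variable {k M : Type} [Field k] [Field M] [Algebra k M]

theorem jac_inv (D₁ D₂ : Derivation k M M) (a d : M) :
    jac D₁ D₂ a⁻¹ d = -(a⁻¹ ^ 2) * jac D₁ D₂ a d := by
  simp only [jac, Derivation.leibniz_inv, smul_eq_mul]
  ring

theorem not_ind_one {V : Subalgebra k M} : ¬ Ind V ![(1 : M)] := fun h =>
  (ind_one h 1).ne (by simp)

theorem cub_mem {V : Subalgebra k M} {a : M} (ha : a ∈ V) (l : k) :
    a * (a - 1) * (a - algebraMap k M l) ∈ V :=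
  V.mul_mem (V.mul_mem ha (V.sub_mem ha V.one_mem)) (V.sub_mem ha (V.algebraMap_mem l))

theorem cub_unit {V : Subalgebra k M} {a : M} (h : Ind V ![a]) (l : k) :
    IsU V (a * (a - 1) * (a - algebraMap k M l)) := by
  have h0 := ind_one h 0
  have h1 := ind_one h 1
  rw [map_zero, sub_zero] at h0
  rw [map_one] at h1
  exact (h0.mul h1).mul (ind_one h l)

variable {I κ : Type} [Fintype I] [Fintype κ] {p : Pd k M I κ}

theorem s_mem (H : Pair0 p) (i : κ) {O : Subalgebra k M} (hO : O ∈ p.T) : p.s i O ∈ O := by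
  obtain ⟨P, hP⟩ := H.prm i
  exact H.all.a1.pmem _ _ _ hP O hO

/-- The equation of the curve has odd order along the distinguished component. -/
theorem ord_odd (H : Pair0 p) {P : Place k M} (hP : p.Prm (p.C p.k0) (p.ψ p.k0) P) :
    Odd (P.ord p.φ) := by
  classical
  have hT := hP.2.1
  have hg := H.all.a1.gne _ hT
  have hs : ∀ i, p.s i (plO P) ≠ 0 := fun i => by
    obtain ⟨Q, hQ⟩ := H.prm i
    exact mul_ne_zero hQ.1 (p.toSd.lb_ne hg _)
  have h0 : P.ord (p.s p.k0 (plO P)) = 1 := by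
    have := hP.2.2 P hT
    rwa [if_pos rfl] at this
  have h1 : ∀ i, i ≠ p.k0 → P.ord (p.s i (plO P)) = 0 := fun i hi => by
    rcases isU_or_mx (s_mem H i hT) with h | h
    · exact ((isU_plO' P).1 h).2
    · exact absurd (H.one _ hT i p.k0 h ((mx_plO (hs _)).2 (by omega))) hi
  have hj : p.jj (plO P) ≠ 0 := mul_ne_zero H.ωne (p.toSd.lb_ne hg _)
  have e := congrArg P.ord (H.eqn _ hT)
  rw [P.ord_mul H.φne (pow_ne_zero _ hj), P.ord_pow, P.ord_prod _ _ fun i _ => hs i,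
    Finset.sum_eq_single p.k0 (fun i _ hi => h1 i hi) (by simp), h0] at e
  exact ⟨-P.ord (p.jj (plO P)), by push_cast at e; omega⟩

end Mw2

open Mw2 in
theorem mw2_stmt : Mw2Stmt := by
  intro hRes hDiv k M I κ _ _ _ _ _ _ _ p l H E hVF L Z hMW a b heq
  by_contra hb
  have A1 := H.all.a1
  have A2 := H.all.a2
  have hcub : a * (a - 1) * (a - algebraMap k M l) ≠ 0 := fun h => by
    rw [h, mul_zero] at heq
    exact hb (pow_eq_zero_iff two_ne_zero |>.1 heq)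
  have ha : a ≠ 0 := fun h => hcub (by rw [h]; simp)
  obtain ⟨v, hv⟩ := H.all.jc.lin p.D₁ p.D₂ a (p.φ / b)
  have hreg : ∀ O ∈ p.T, ∀ f ∈ O, v f ∈ O := fun O hO f hf => by
    rw [hv]; exact hMW a b hb heq O hO f hf
  have key : ∀ d, p.φ * p.j a d ^ 2 = v d ^ 2 * (a * (a - 1) * (a - algebraMap k M l)) := by
    intro d
    have hb2 : b ^ 2 ≠ 0 := pow_ne_zero _ hb
    rw [hv, mul_pow, div_pow, div_mul_eq_mul_div, div_mul_eq_mul_div, eq_div_iff hb2, heq]
    unfold Pd.j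
    ring
  obtain ⟨P₀, hP₀⟩ := H.prm p.k0
  have hodd : P₀.ord (a * (a - 1) * (a - algebraMap k M l)) ≠ 0 := fun h => by
    have e := congrArg P₀.ord heq
    rw [P₀.ord_pow, P₀.ord_mul H.φne hcub, h] at e
    obtain ⟨n, hn⟩ := ord_odd H hP₀
    push_cast at e
    omega
  have hfin : ({a, 1} : Set M).Finite := Set.toFinite _
  have hne : ∀ u ∈ ({a, 1} : Set M), u ≠ 0 := by
    rintro u (rfl | rfl)
    · exact ha
    · exact one_ne_zero
  have hprin : ∀ O ∈ p.T, Prin {a, 1} O := by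
    intro O hO
    by_contra hn
    have hrat : RatPt O := by
      rcases A1.tri O hO with h | h | ⟨P, h⟩
      · exact absurd (IsVal.prin (h ▸ fun f => Or.inl trivial) hfin ⟨a, by simp, ha⟩) hn
      · exact h
      · exact absurd (IsVal.prin (h ▸ plO_isVal P) hfin ⟨a, by simp, ha⟩) hn
    have hfr : Frac O := A1.nice.toFine.frac hO
    obtain ⟨V, hV, hdom, j, hj, -, u, hu, hind⟩ := hRes k M O {a, 1} (A1.nice.loc O hO)
      (A1.nice.nrm O hO) hfr hrat hfin ⟨a, by simp⟩ hne hn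
    have htop : V ≠ ⊤ := by
      rintro rfl
      obtain ⟨r, hr, s, hs, hs0, e⟩ := hfr a
      have haO : a ∈ O := e ▸ (hdom.2 s hs (isU_top.2 hs0)).div_mem hr
      refine hn ⟨1, gn_one ?_ ⟨1, by simp, isU_one⟩⟩
      rintro u (rfl | rfl)
      · exact haO
      · exact O.one_mem
    obtain ⟨hFT, P, rfl⟩ := hDiv k M p.x p.y _ V H.gen hV htop hind
    obtain ⟨d, hd, hnot⟩ := E.exc P O _ hFT hO hrat hdom hind
    have hvd : v d ^ 2 ∈ plO P := (plO P).pow_mem (hdom.1 (hreg O hO d hd)) 2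
    rcases hj with rfl | rfl
    · rcases hu with rfl | rfl
      · rw [div_self ha] at hind
        exact not_ind_one hind
      · rw [one_div] at hind hnot
        have hU : IsU (plO P) j⁻¹ := by simpa using ind_one hind 0
        have hj' : j ∈ plO P := by simpa using hU.inv_mem
        apply hnot
        have e : p.φ * p.j j⁻¹ d ^ 2 = j⁻¹ ^ 4 * (p.φ * p.j j d ^ 2) := by
          unfold Pd.j
          rw [jac_inv]
          ring
        rw [e, key]
        exact (plO P).mul_mem ((plO P).pow_mem hU.mem 4) ((plO P).mul_mem hvd (cub_mem hj' l))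
    · rcases hu with rfl | rfl
      · rw [div_one] at hind hnot
        apply hnot
        rw [key]
        exact (plO P).mul_mem hvd (cub_mem (hind.1 0) l)
      · rw [div_one] at hind
        exact not_ind_one hind
  have hgn : ∀ O ∈ p.T, Gn {a, 1} O (gn {a, 1} O) := fun O hO => gn_spec (hprin O hO)
  obtain ⟨z, μ, hμ, hz⟩ := A2.pic _ (isCart_of_gn hfin hgn).inv
  have hG : ∀ O ∈ p.T, Gn {a, 1} O (μ * p.lb z O)⁻¹ := fun O hO => by
    refine (hgn O hO).of_unit ?_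
    have := (hz O hO).inv
    rwa [Pi.inv_apply, inv_div, div_eq_mul_inv, mul_comm, ← div_eq_mul_inv, div_eq_mul_inv,
      ← div_eq_mul_inv (μ * p.lb z O)⁻¹] at this
  have hnef : p.ld.Nef z := by
    refine A2.gg z ⟨{μ * a, μ * 1}, Set.toFinite _, ?_, fun O hO => ?_⟩
    · rintro u (rfl | rfl)
      · exact mul_ne_zero hμ ha
      · exact mul_ne_zero hμ one_ne_zero
    · have := (hG O hO).pair_mul hμ
      rwa [mul_inv, ← mul_assoc, mul_inv_cancel₀ hμ, one_mul] at this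
  have hzF : ip p.B z (p.C p.k0) = 0 := by
    by_contra h
    exact hodd ((isU_plO' P₀).1 (cub_unit ((A2.mor a μ z hG _ _ _ hP₀).1 h) l)).2
  have hz0 : z = 0 := by
    refine Z.zero z hnef hzF ?_
    rintro c ⟨φ', P, hP⟩ hc
    change ip p.B c c = -1 at hc
    change ip p.B z c = 0
    by_contra h
    have hind := (A2.mor a μ z hG _ _ _ hP).1 h
    have hT := hP.2.1
    have hu : ∀ i, IsU (plO P) (p.s i (plO P)) := fun i => by
      rcases isU_or_mx (s_mem H i hT) with h' | h'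
      · exact h'
      · obtain ⟨Q, hQ⟩ := H.prm i
        have e := A1.peq _ _ _ hQ P hT h'
        subst e
        have e2 := A1.uniq _ _ _ _ _ hP hQ
        have e3 : ip p.B (p.C i) (p.C i) = -2 * ip p.B p.K (p.C i) := L.CK i
        rw [e2] at hc
        omega
    have hπ : P.ord (φ' * p.lb c (plO P)) = 1 := by
      have := hP.2.2 P hT
      rwa [if_pos rfl] at this
    have h1 := E.val P a _ hT hu hind hπ
    rw [key] at h1
    exact h1.not_mx (mx_mul_right (mx_pow (hVF v hreg c φ' P hP (by omega)) two_ne_zero)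
      (cub_mem (hind.1 0) l))
  subst hz0
  simp only [Sd.lb_zero, mul_one] at hG
  obtain ⟨c₁, h₁⟩ := A2.const (a / μ⁻¹) fun O hO => (hG O hO).1 a (by simp)
  obtain ⟨c₂, h₂⟩ := A2.const (1 / μ⁻¹) fun O hO => (hG O hO).1 1 (by simp)
  have e : a = algebraMap k M (c₁ / c₂) := by
    rw [map_div₀, ← h₁, ← h₂]
    field_simp
  apply hodd
  rw [e, ← map_one (algebraMap k M), ← map_sub, ← map_sub, ← map_mul, ← map_mul, P₀.ord_const]

end Pool.Agent.MP_20d318_ag.CB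

end MrgPart0

-- ======== part 1: formerly Pool.Agent.MP_20d318_ag.CB.Orb
section MrgPart1

/-! The action of the involutions on divisor classes. -/

set_option autoImplicit false

namespace Pool.Agent.MP_20d318_ag.CB

open Pool.Agent.MP_79c67d_ag Pool.Agent.MP_20d318_ag.AG Pool.Agent.MP_20d318_ag.BV MvPolynomial
open Pool.Agent.MP_20d318_ag.RS (jac)
open scoped IntermediateField

namespace Orb

section val

variable {k M : Type} [Field k] [Field M] [Algebra k M] {O : Subalgebra k M} {t u : M}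

/-- A valuation ring above the intersection of two valuation rings is above one of them. -/
theorem le_or {V₁ V₂ V : Subalgebra k M} (h₁ : IsVal V₁) (h₂ : IsVal V₂) (hV : IsVal V)
    (h : ∀ f ∈ V₁, f ∈ V₂ → f ∈ V) : V₁ ≤ V ∨ V₂ ≤ V := by
  by_contra hn
  rw [not_or, SetLike.not_le_iff_exists, SetLike.not_le_iff_exists] at hn
  obtain ⟨⟨x, hx, hxV⟩, y, hy, hyV⟩ := hn
  have hx0 : x ≠ 0 := fun e => hxV (e ▸ V.zero_mem)
  have hy0 : y ≠ 0 := fun e => hyV (e ▸ V.zero_mem)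
  have u1 : IsU V₁ (1 + x * y⁻¹) :=
    isU_one.add_mx h₁.isLocalRing (mx_mul_left hx (h₁.inv_mx fun h' => hyV (h y h' hy)))
  have u2 : IsU V₂ (1 + y * x⁻¹) :=
    isU_one.add_mx h₂.isLocalRing (mx_mul_left hy (h₂.inv_mx fun h' => hxV (h x hx h')))
  have hw := mx_add hV.isLocalRing (hV.inv_mx hxV) (hV.inv_mx hyV)
  have e1 : x⁻¹ + y⁻¹ = (1 + x * y⁻¹) / x := by field_simp
  have e2 : x⁻¹ + y⁻¹ = (1 + y * x⁻¹) / y := by field_simp; ring
  refine hw.2 ⟨e1 ▸ div_ne_zero u1.1 hx0, hw.1, h _ ?_ ?_⟩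
  · rw [e1, inv_div]; exact u1.div_mem hx
  · rw [e2, inv_div]; exact u2.div_mem hy

theorem isU_K (h : Ind O ![t]) {a : M} (ha : a ∈ k⟮t⟯) (h0 : a ≠ 0) : IsU O a := by
  rw [show ({t} : Set M) = Set.range ![t] by simp] at ha
  obtain ⟨r, s, rfl⟩ := (IntermediateField.mem_adjoin_range_iff k _ _).1 ha
  obtain ⟨h1, h2⟩ := div_ne_zero_iff.1 h0
  exact (h.2 r fun e => h1 (by rw [e, map_zero])).div (h.2 s fun e => h2 (by rw [e, map_zero]))

theorem mem_K (h : Ind O ![t]) (a : k⟮t⟯) : algebraMap k⟮t⟯ M a ∈ O := by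
  by_cases h0 : algebraMap k⟮t⟯ M a = 0
  · exact h0 ▸ O.zero_mem
  · exact (isU_K h a.2 h0).mem

theorem isU_C (h : Ind O ![t]) {a : k⟮t⟯} (h0 : a ≠ 0) : IsU O (algebraMap k⟮t⟯ M a) :=
  isU_K h a.2 fun e => h0 (Subtype.ext e)

theorem ev_mem (h : Ind O ![t]) (hu : u ∈ O) (r : Polynomial k⟮t⟯) : Polynomial.aeval u r ∈ O := by
  rw [Polynomial.aeval_eq_sum_range]
  refine O.sum_mem fun i _ => ?_
  rw [Algebra.smul_def]
  exact O.mul_mem (mem_K h _) (O.pow_mem hu i)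

theorem exists_irr (h : Ind O ![t]) (hu : u ∈ O) (r : Polynomial k⟮t⟯) :
    Polynomial.aeval u r ≠ 0 → Polynomial.aeval u r ∈ mx O → ∃ q : Polynomial k⟮t⟯,
      Irreducible q ∧ Polynomial.aeval u q ≠ 0 ∧ Polynomial.aeval u q ∈ mx O := by
  induction r using WfDvdMonoid.induction_on_irreducible with
  | zero => exact fun h0 => absurd (map_zero _) h0
  | unit r hr =>
    obtain ⟨c, hc, rfl⟩ := Polynomial.isUnit_iff.1 hr
    rw [Polynomial.aeval_C]
    exact fun _ hm => absurd hm (isU_C h hc.ne_zero).not_mx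
  | mul a i _ hi ih =>
    rw [map_mul]
    exact fun h0 hm => (mx_or_of_mul (ev_mem h hu i) (ev_mem h hu a) hm).elim
      (fun h1 => ⟨i, hi, left_ne_zero_of_mul h0, h1⟩) (ih (right_ne_zero_of_mul h0))

theorem isU_ev (hO : IsLocalRing O) (h : Ind O ![t]) (hu : u ∈ O) {q r : Polynomial k⟮t⟯}
    (hq : Irreducible q) (hm : Polynomial.aeval u q ∈ mx O) (hr : ¬ q ∣ r) :
    IsU O (Polynomial.aeval u r) := by
  obtain ⟨a, b, e⟩ := hq.coprime_iff_not_dvd.2 hr
  refine isU_of_not_mx (ev_mem h hu r) fun h' => one_not_mem_mx (O := O) ?_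
  have := mx_add hO (mx_mul_left (ev_mem h hu a) hm) (mx_mul_left (ev_mem h hu b) h')
  rwa [← map_mul, ← map_mul, ← map_add, e, map_one] at this

theorem isU_rev (hO : IsLocalRing O) (h : Ind O ![t]) (hu : u⁻¹ ∈ mx O) (hu0 : u ≠ 0)
    {q : Polynomial k⟮t⟯} (hq : q ≠ 0) : IsU O (Polynomial.aeval u q / u ^ q.natDegree) := by
  let _ := invertibleOfNonzero hu0
  have e := Polynomial.eval₂_reverse_mul_pow (algebraMap k⟮t⟯ M) u q
  rw [← Polynomial.aeval_def, ← Polynomial.aeval_def, invOf_eq_inv] at e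
  rw [← e, mul_div_cancel_right₀ _ (pow_ne_zero _ hu0), ← q.reverse.divX_mul_X_add, map_add,
    map_mul, Polynomial.aeval_X, Polynomial.aeval_C, Polynomial.coeff_zero_reverse, add_comm]
  exact (isU_C h (Polynomial.leadingCoeff_ne_zero.2 hq)).add_mx hO
    (mx_mul_left (ev_mem h hu.1 _) hu)

/-- Two places over the same prime of `k(t)[u]` have the same trace on `k(t, u)`. -/
theorem trace {P Q : Place k M} (hP : Ind (plO P) ![t]) (hQ : Ind (plO Q) ![t]) (huP : u ∈ plO P)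
    (huQ : u ∈ plO Q) {q : Polynomial k⟮t⟯} (hq : Irreducible q) (h0 : Polynomial.aeval u q ≠ 0)
    (hmP : Polynomial.aeval u q ∈ mx (plO P)) (hmQ : Polynomial.aeval u q ∈ mx (plO Q)) {f : M}
    (hf : f ∈ k⟮t⟯⟮u⟯) (hfP : f ∈ plO P) : f ∈ plO Q := by
  obtain ⟨r, s, rfl⟩ := (IntermediateField.mem_adjoin_simple_iff _ _).1 hf
  by_cases hr : r = 0
  · simp [hr]
  by_cases hs : s = 0
  · simp [hs]
  obtain ⟨m, r', hr', rfl⟩ := WfDvdMonoid.max_power_factor hr hq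
  obtain ⟨n, s', hs', rfl⟩ := WfDvdMonoid.max_power_factor hs hq
  have key : ∀ R : Place k M, Ind (plO R) ![t] → u ∈ plO R → Polynomial.aeval u q ∈ mx (plO R) →
      (Polynomial.aeval u (q ^ m * r') / Polynomial.aeval u (q ^ n * s') ∈ plO R ↔
        (n : ℤ) ≤ m) := by
    intro R hR huR hmR
    obtain ⟨a0, a1⟩ := (isU_plO' R).1 (isU_ev (plO_isVal R).isLocalRing hR huR hq hmR hr')
    obtain ⟨b0, b1⟩ := (isU_plO' R).1 (isU_ev (plO_isVal R).isLocalRing hR huR hq hmR hs')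
    have hp := (mx_plO h0).1 hmR
    rw [mem_plO_ord, map_mul, map_mul, map_pow, map_pow,
      R.ord_div (mul_ne_zero (pow_ne_zero _ h0) a0) (mul_ne_zero (pow_ne_zero _ h0) b0),
      R.ord_mul (pow_ne_zero _ h0) a0, R.ord_mul (pow_ne_zero _ h0) b0, a1, b1, R.ord_pow,
      R.ord_pow, add_zero, add_zero, sub_nonneg, mul_le_mul_iff_left₀ hp]
  exact (key Q hQ huQ hmQ).2 ((key P hP huP hmP).1 hfP)

theorem mem_of_quad {V : Subalgebra k M} (hV : IsVal V) {f g : M} (hb : f + g ∈ V)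
    (hc : f * g ∈ V) : f ∈ V := by
  by_contra hn
  have h0 : f ≠ 0 := fun e => hn (e ▸ V.zero_mem)
  have h1 := hV.inv_mx hn
  have h2 := mx_sub' hV.isLocalRing (mx_mul_left hb h1) (mx_mul_left hc (mx_mul_left h1.1 h1))
  refine one_not_mem_mx (O := V) ?_
  convert h2 using 1
  field_simp
  ring

theorem fix_K {σ : M ≃ₐ[k] M} (ht : σ t = t) (hu : σ u = u) {m : M} (hm : m ∈ k⟮t⟯⟮u⟯) :
    σ m = m := by
  have h1 : ∀ a ∈ k⟮t⟯, σ a = a := fun a ha => by
    induction ha using IntermediateField.adjoin_induction with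
    | mem x hx => rw [Set.mem_singleton_iff.1 hx, ht]
    | algebraMap x => exact σ.commutes x
    | add x y _ _ hx hy => rw [map_add, hx, hy]
    | inv x _ hx => rw [map_inv₀, hx]
    | mul x y _ _ hx hy => rw [map_mul, hx, hy]
  induction hm using IntermediateField.adjoin_induction with
  | mem x hx => rw [Set.mem_singleton_iff.1 hx, hu]
  | algebraMap x => exact h1 x x.2
  | add x y _ _ hx hy => rw [map_add, hx, hy]
  | inv x _ hx => rw [map_inv₀, hx]
  | mul x y _ _ hx hy => rw [map_mul, hx, hy]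

theorem mem_adj {w m : M} (hw : u ∈ k⟮t⟯⟮w⟯) (hm : m ∈ k⟮t, u⟯) : m ∈ k⟮t⟯⟮w⟯ := by
  have : k⟮t, u⟯ ≤ (k⟮t⟯⟮w⟯).restrictScalars k := by
    rw [IntermediateField.adjoin_le_iff]
    rintro x (rfl | rfl)
    · exact (k⟮x⟯⟮w⟯).algebraMap_mem ⟨x, IntermediateField.mem_adjoin_simple_self k x⟩
    · exact hw
  exact this hm

/-- The horizontal places over a prime of `k(t)[u]` are conjugate. -/
theorem conj {P P' Q : Place k M} {σ : M ≃ₐ[k] M} (hσ : ∀ m, P'.ord (σ m) = P.ord m)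
    (hσσ : ∀ m, σ (σ m) = m) (hfix : ∀ m, σ m = m → m ∈ k⟮t⟯⟮u⟯) (hP : Ind (plO P) ![t])
    (hQ : Ind (plO Q) ![t]) (huP : u ∈ plO P) (huQ : u ∈ plO Q) {q : Polynomial k⟮t⟯}
    (hq : Irreducible q) (h0 : Polynomial.aeval u q ≠ 0) (hmP : Polynomial.aeval u q ∈ mx (plO P))
    (hmQ : Polynomial.aeval u q ∈ mx (plO Q)) : Q = P ∨ Q = P' := by
  refine (le_or (plO_isVal P) (plO_isVal P') (plO_isVal Q) fun f h1 h2 => ?_).imp
    (fun h => (plO_inj h).symm) fun h => (plO_inj h).symm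
  have h3 : σ f ∈ plO P := mem_plO_ord.2 (by rw [← hσ, hσσ]; exact mem_plO_ord.1 h2)
  exact mem_of_quad (g := σ f) (plO_isVal Q)
    (trace hP hQ huP huQ hq h0 hmP hmQ (hfix _ (by rw [map_add, hσσ, add_comm]))
      ((plO P).add_mem h1 h3))
    (trace hP hQ huP huQ hq h0 hmP hmQ (hfix _ (by rw [map_mul, hσσ, mul_comm]))
      ((plO P).mul_mem h1 h3))

theorem exists_rel (hi : AlgebraicIndependent k ![t, u]) (hD : Dim O 1) (ht : t ∈ O) (hu : u ∈ O) :
    ∃ r : Polynomial k⟮t⟯, Polynomial.aeval u r ≠ 0 ∧ Polynomial.aeval u r ∈ mx O := by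
  have hm : ∀ i, ![t, u] i ∈ O := fun i => by fin_cases i <;> assumption
  have : ¬ Ind O ![t, u] := fun h => hD ⟨_, h⟩
  simp only [Ind, not_and, not_forall] at this
  obtain ⟨p, hp, hn⟩ := this hm
  have e : Polynomial.aeval u (aeval ![Polynomial.C (IntermediateField.AdjoinSimple.gen k t),
      Polynomial.X] p) = aeval ![t, u] p := by
    refine (comp_aeval_apply _ ((Polynomial.aeval u).restrictScalars k) p).trans ?_
    congr 2
    funext i
    fin_cases i <;> simp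
  exact ⟨_, e ▸ fun h0 => hp (algebraicIndependent_iff.1 hi p h0), e ▸ ⟨aeval_mem hm p, hn⟩⟩

end val

variable {k M I : Type} [Field k] [Field M] [Algebra k M] [Fintype I]

/-- The divisor of `q(s / s') s' ^ n`. -/
theorem core {S : Sd k M I} (h1 : A1 S) (h2 : A2 S) {F D c c' : I → ℤ} {t s s' φ φ' : M}
    {P P' : Place k M} {σ : M ≃ₐ[k] M}
    (hor : ∀ c φ P, S.Prm c φ P → (ip S.B c F ≠ 0 ↔ Ind (plO P) ![t]))
    (hs : s ∈ S.Sec D) (hs' : s' ∈ S.Sec D) (hs0 : s' ≠ 0)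
    (hnb : ∀ Q : Place k M, plO Q ∈ S.T → Ind (plO Q) ![t] → s * S.lb D (plO Q) ∈ mx (plO Q) →
      s' * S.lb D (plO Q) ∉ mx (plO Q))
    (hP : S.Prm c φ P) (hP' : S.Prm c' φ' P') (hσ : ∀ m, P'.ord (σ m) = P.ord m)
    (hσσ : ∀ m, σ (σ m) = m) (hfix : ∀ m, σ m = m ↔ m ∈ k⟮t⟯⟮s / s'⟯) (hI : Ind (plO P) ![t])
    (hI' : Ind (plO P') ![t]) (hu : s / s' ∈ plO P)
    (hr : ∃ r : Polynomial k⟮t⟯, Polynomial.aeval (s / s') r ≠ 0 ∧
      Polynomial.aeval (s / s') r ∈ mx (plO P)) :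
    ∃ (m a : ℤ) (w : I → ℤ), a ≠ 0 ∧ w ∈ AddSubgroup.closure {c | c ∈ S.PP ∧ ip S.B c F = 0} ∧
      m • D = w + (a • c + a • c') := by
  classical
  obtain ⟨r, hr0, hr⟩ := hr
  obtain ⟨q, hq, h0, hm⟩ := exists_irr hI hu r hr0 hr
  set g := Polynomial.aeval (s / s') q * s' ^ q.natDegree with hg
  have g0 : g ≠ 0 := mul_ne_zero h0 (pow_ne_zero _ hs0)
  have e0 : ∀ O, g * S.lb ((q.natDegree : ℤ) • D) O =
      Polynomial.aeval (s / s') q * (s' * S.lb D O) ^ q.natDegree := fun O => by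
    rw [S.lb_zsmul, zpow_natCast, mul_pow, hg, mul_assoc]
  have e1 : ∀ Q : Place k M, plO Q ∈ S.T → Ind (plO Q) ![t] → s / s' ∈ plO Q →
      Q.ord (g * S.lb ((q.natDegree : ℤ) • D) (plO Q)) = Q.ord (Polynomial.aeval (s / s') q) := by
    intro Q hQ hIQ huQ
    have h3 : IsU (plO Q) (s' * S.lb D (plO Q)) := isU_of_not_mx (hs' _ hQ) fun h =>
      hnb Q hQ hIQ (by
        have := mx_mul_left huQ h
        rwa [← mul_assoc, div_mul_cancel₀ _ hs0] at this) h
    rw [e0, Q.ord_mul h0 (pow_ne_zero _ h3.1), Q.ord_pow, ((isU_plO' Q).1 h3).2, mul_zero,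
      add_zero]
  have e2 : ∀ Q : Place k M, plO Q ∈ S.T → Ind (plO Q) ![t] →
      Q.ord (g * S.lb ((q.natDegree : ℤ) • D) (plO Q)) ≠ 0 → Q = P ∨ Q = P' := by
    intro Q hQ hIQ hne
    by_cases huQ : s / s' ∈ plO Q
    · rw [e1 Q hQ hIQ huQ] at hne
      exact conj hσ hσσ (fun m => (hfix m).1) hI hIQ hu huQ hq h0 hm
        (isU_or_mx (ev_mem hIQ huQ q) |>.resolve_left fun h => hne ((isU_plO' Q).1 h).2)
    · have u0 : s / s' ≠ 0 := fun e => huQ (e ▸ (plO Q).zero_mem)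
      have s0 : s ≠ 0 := (div_ne_zero_iff.1 u0).1
      have h3 := (plO_isVal Q).inv_mx huQ
      have h4 : IsU (plO Q) (s * S.lb D (plO Q)) := isU_of_not_mx (hs _ hQ) fun h =>
        hnb Q hQ hIQ h (by
          have := mx_mul_right h3 h.1
          rwa [inv_div, ← mul_assoc, div_mul_cancel₀ _ s0] at this)
      have h5 := (isU_rev (plO_isVal Q).isLocalRing hIQ h3 u0 hq.ne_zero).mul
        (h4.pow q.natDegree)
      refine absurd ?_ hne
      rw [e0, ← ((isU_plO' Q).1 h5).2]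
      congr 1
      rw [div_pow, mul_pow, mul_pow]
      field_simp
  have hfu := (hfix _).2 (IntermediateField.mem_adjoin_simple_self k⟮t⟯ (s / s'))
  have hfq : σ (Polynomial.aeval (s / s') q) = Polynomial.aeval (s / s') q := (hfix _).2
    ((IntermediateField.mem_adjoin_simple_iff _ _).2 ⟨q, 1, by rw [map_one, div_one]⟩)
  have hu' : s / s' ∈ plO P' := mem_plO_ord.2 (by rw [← hfu, hσ]; exact mem_plO_ord.1 hu)
  have ea := e1 P hP.2.1 hI hu
  have ea' := e1 P' hP'.2.1 hI' hu'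
  rw [← hfq, hσ] at ea'
  have hfin := h1.nice.toFine.fin_cart (h1.pcart ((q.natDegree : ℤ) • D) g g0)
  have hdv := h2.dv ((q.natDegree : ℤ) • D) g (hfin.toFinset ∪ {P, P'}) g0 (fun Q hQ => by
      rcases Finset.mem_union.1 hQ with h | h
      · exact (hfin.mem_toFinset.1 h).1
      · rcases Finset.mem_insert.1 h with rfl | h
        · exact hP.2.1
        · exact Finset.mem_singleton.1 h ▸ hP'.2.1)
    fun Q hQ hn => by_contra fun h => hn (Finset.mem_union_left _ (hfin.mem_toFinset.2 ⟨hQ, h⟩))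
  rw [← Finset.sum_sdiff Finset.subset_union_right] at hdv
  have hw : ∑ Q ∈ (hfin.toFinset ∪ {P, P'}) \ {P, P'},
      Q.ord (g * S.lb ((q.natDegree : ℤ) • D) (plO Q)) • S.cl Q ∈
        AddSubgroup.closure {c | c ∈ S.PP ∧ ip S.B c F = 0} := by
    refine AddSubgroup.sum_mem _ fun Q hQ => AddSubgroup.zsmul_mem _
      (AddSubgroup.subset_closure ?_) _
    obtain ⟨hQ1, hQ2⟩ := Finset.mem_sdiff.1 hQ
    obtain ⟨hT, hne⟩ := hfin.mem_toFinset.1 ((Finset.mem_union.1 hQ1).resolve_right hQ2)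
    obtain ⟨ψ, hψ⟩ := h2.cl Q hT
    exact ⟨⟨ψ, Q, hψ⟩, by_contra fun h => hQ2 (by
      simpa using e2 Q hT ((hor _ ψ Q hψ).1 h) hne)⟩
  have ha := ((mx_plO h0).1 hm).ne'
  by_cases hPP : P = P'
  · subst hPP
    rw [Finset.pair_eq_singleton, Finset.sum_singleton, ea, h2.clp c φ P hP] at hdv
    rw [Finset.pair_eq_singleton] at hw
    refine ⟨q.natDegree + q.natDegree, _, _, ha, AddSubgroup.add_mem _ hw hw, ?_⟩
    rw [add_smul, ← h1.uniq c c' φ φ' P hP hP', add_add_add_comm, ← hdv]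
  · rw [Finset.sum_pair hPP, ea, ea', h2.clp c φ P hP, h2.clp c' φ' P' hP'] at hdv
    exact ⟨_, _, _, ha, hw, hdv⟩

theorem lat {κ : Type} {Λ : Ld I κ} {D c c' w : I → ℤ} {m a : ℤ} (hD : ip Λ.B D Λ.F = 2)
    (hc : ip Λ.B c' Λ.F = ip Λ.B c Λ.F) (ha : a ≠ 0)
    (hw : w ∈ AddSubgroup.closure {c | c ∈ Λ.P ∧ ip Λ.B c Λ.F = 0})
    (e : m • D = w + (a • c + a • c')) : toR (c' + c - ip Λ.B c Λ.F • D) ∈ Λ.V := by
  have h1 : toR w ∈ Λ.V ∧ ip Λ.B w Λ.F = 0 := by
    clear e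
    induction hw using AddSubgroup.closure_induction with
    | mem x hx => exact ⟨Submodule.subset_span ⟨x, hx, rfl⟩, hx.2⟩
    | zero => exact ⟨toR_zero ▸ Λ.V.zero_mem, ip_zero_left _⟩
    | add x y _ _ hx hy =>
      exact ⟨toR_add x y ▸ Λ.V.add_mem hx.1 hy.1, by rw [ip_add_left, hx.2, hy.2, add_zero]⟩
    | neg x _ hx => exact ⟨toR_neg x ▸ Λ.V.neg_mem hx.1, by rw [ip_neg_left, hx.2, neg_zero]⟩
  have h2 := congrArg (fun z => ip Λ.B z Λ.F) e
  simp only [ip_add_left, ip_smul_left, hD, hc, h1.2] at h2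
  have h3 : m = a * ip Λ.B c Λ.F := by linarith
  have h4 : a • (c' + c - ip Λ.B c Λ.F • D) = -w := by
    rw [smul_sub, smul_smul, ← h3, e, smul_add]
    abel
  refine (Λ.V.smul_mem_iff (show (a : ℝ) ≠ 0 by exact_mod_cast ha)).1 ?_
  rw [← toR_zsmul, h4, toR_neg]
  exact Λ.V.neg_mem h1.1

end Orb

open Orb in
theorem orb_stmt : OrbStmt := by
  intro k M I κ _ _ _ _ _ _ _ p t ψ₁ s s' P₀ D σ ρ hp hz pc in2 hD hs hs' hs0 iv ac
  have h1 := hp.all.a1
  have h2 := hp.all.a2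
  have hF : p.F ∈ p.PP := ⟨_, _, pc.prm⟩
  have hρ : act ρ p.F = p.F := by
    obtain ⟨φ', P', h3, h4⟩ := ac.prm _ _ _ pc.prm
    have h5 := h4 t
    rw [iv.ft, pc.ord] at h5
    obtain rfl := pc.zero P' h3.2.1 (by omega)
    exact h1.uniq _ _ _ _ _ h3 pc.prm
  have hnb : ∀ Q : Place k M, plO Q ∈ p.T → Ind (plO Q) ![t] → s * p.lb D (plO Q) ∈ mx (plO Q) →
      s' * p.lb D (plO Q) ∉ mx (plO Q) := by
    intro Q hQ hI hm hm'
    obtain ⟨φ, hφ⟩ := h2.cl Q hQ
    have e : s / φ / (s' / φ) = s / s' := div_div_div_cancel_right₀ hφ.1 s s'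
    have h3 := (in2 _ _ (h2.sub _ _ _ hφ D s hs hm) _ (h2.sub _ _ _ hφ D s' hs' hm')
      (div_ne_zero hs0 hφ.1) (e ▸ iv.ind)).2
    rw [e, iv.two, ip_sub_left, hD] at h3
    have h4 := (pc.hor _ _ _ hφ).2 hI
    have h5 := h2.pos _ ⟨_, _, hφ⟩ _ hF fun e' => h4 (e' ▸ pc.sq)
    omega
  have key : ∀ c ∈ p.PP, toR (act ρ c + c - ip p.B c p.F • D) ∈ p.ld.V := by
    rintro c ⟨φ, P, hP⟩
    obtain ⟨φ', P', hP', hσ⟩ := ac.prm _ _ _ hP
    have hc : ip p.B (act ρ c) p.F = ip p.B c p.F := by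
      have := ac.iso c _ hF
      rwa [hρ] at this
    by_cases h0 : ip p.B c p.F = 0
    · rw [h0, zero_smul, sub_zero, toR_add]
      exact p.ld.V.add_mem (Submodule.subset_span ⟨_, ⟨⟨_, _, hP'⟩, hc.trans h0⟩, rfl⟩)
        (Submodule.subset_span ⟨_, ⟨⟨_, _, hP⟩, h0⟩, rfl⟩)
    have hI := (pc.hor _ _ _ hP).1 h0
    have hI' := (pc.hor _ _ _ hP').1 (hc ▸ h0)
    by_cases hu : s / s' ∈ plO P
    · obtain ⟨m, a, w, ha, hw, e⟩ := core h1 h2 pc.hor hs hs' hs0 hnb hP hP' hσ iv.inv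
        (fun m => ⟨fun h => mem_adj (IntermediateField.mem_adjoin_simple_self _ _) (iv.fix m h),
          fix_K iv.ft iv.fu⟩) hI hI' hu (exists_rel iv.ind (h1.dim P hP.2.1).2 (hI.1 0) hu)
      exact lat (Λ := p.ld) hD hc ha hw e
    · have u0 : s / s' ≠ 0 := fun e => hu (e ▸ (plO P).zero_mem)
      have h3 := (plO_isVal P).inv_mx hu
      have h4 : σ (s' / s) = s' / s := by rw [← inv_div s s', map_inv₀, iv.fu]
      rw [inv_div] at h3
      obtain ⟨m, a, w, ha, hw, e⟩ := core h1 h2 pc.hor hs' hs (div_ne_zero_iff.1 u0).1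
        (fun Q hQ hI h h' => hnb Q hQ hI h' h) hP hP' hσ iv.inv
        (fun m => ⟨fun h => mem_adj (inv_div s' s ▸ inv_mem
          (IntermediateField.mem_adjoin_simple_self _ _)) (iv.fix m h), fix_K iv.ft h4⟩) hI hI'
        h3.1 ⟨Polynomial.X, by
          rw [Polynomial.aeval_X]
          exact ⟨div_ne_zero hs0 (div_ne_zero_iff.1 u0).1, h3⟩⟩
      exact lat (Λ := p.ld) hD hc ha hw e
  have e : ∀ y : I → ℤ, toR (act ρ y + y - ip p.B y p.F • D) =
      act ρ (toR y) + toR y - ip p.B (toR y) (toR p.F) • toR D := fun y => by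
    rw [toR_sub, toR_add, toR_act, toR_zsmul, ip_toR]
  let U : Submodule ℝ (I → ℝ) :=
    { carrier := {r | act ρ r + r - ip p.B r (toR p.F) • toR D ∈ p.ld.V}
      add_mem' := fun {a b} ha hb => by
        have := p.ld.V.add_mem ha hb
        rw [Set.mem_ofPred_eq, act_add, ip_add_left, add_smul]
        convert this using 1
        abel
      zero_mem' := by
        have := act_smul ρ (0 : ℝ) 0
        rw [zero_smul, zero_smul] at this
        rw [Set.mem_ofPred_eq, this, ip_zero_left, zero_smul, add_zero, sub_zero]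
        exact p.ld.V.zero_mem
      smul_mem' := fun r a ha => by
        have := p.ld.V.smul_mem r ha
        rwa [smul_sub, smul_add, smul_smul, ← act_smul, ← ip_smul_left] at this }
  intro y
  have h3 : toR y ∈ U := hz.span U (fun c hc => show _ ∈ p.ld.V from e c ▸ key c hc) ▸
    Submodule.mem_top
  rw [e]
  exact h3

end Pool.Agent.MP_20d318_ag.CB

end MrgPart1

-- ======== part 2: formerly Pool.Agent.MP_20d318_ag.CB.Pa
section MrgPart2

/-! ROW PA: the decomposition of the bi-anticanonical curve into prime divisors. -/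

set_option autoImplicit false

namespace Pool.Agent.MP_20d318_ag.CB

open Pool.Agent.MP_79c67d_ag Pool.Agent.MP_20d318_ag.AG Pool.Agent.MP_20d318_ag.BV MvPolynomial
open Pool.Agent.MP_20d318_ag.RS (jac)
open scoped IntermediateField

namespace Pa

variable {k M : Type} [Field k] [Field M] [Algebra k M] {O : Subalgebra k M}

theorem mx2_mul {a b : M} (ha : a ∈ O) (hb : b ∈ mx2 O) : a * b ∈ mx2 O := by
  refine AddSubmonoid.closure_induction ?_ ?_ ?_ hb
  · rintro _ ⟨x, hx, y, hy, rfl⟩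
    exact AddSubmonoid.subset_closure ⟨a * x, mx_mul_left ha hx, y, hy, mul_assoc a x y⟩
  · rw [mul_zero]; exact (mx2 O).zero_mem
  · intro x y _ _ hx hy
    rw [mul_add]; exact (mx2 O).add_mem hx hy

theorem mem_mx2 {P : Place k M} {a : M} (ha : a ≠ 0) (h : 2 ≤ P.ord a) : a ∈ mx2 (plO P) := by
  refine AddSubmonoid.subset_closure ⟨P.unif, (mx_plO P.unif_ne).2 (by simp), a / P.unif,
    (mx_plO (div_ne_zero ha P.unif_ne)).2 ?_, mul_div_cancel₀ a P.unif_ne⟩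
  rw [P.ord_div ha P.unif_ne, P.ord_unif]
  omega

theorem cht_mem {a b : M} (h : Cht O a b) : a ∈ O ∧ b ∈ O :=
  ⟨h.2.2.1 (Algebra.subset_adjoin (by simp)), h.2.2.1 (Algebra.subset_adjoin (by simp))⟩

end Pa

open Pa Classical in
theorem pa_stmt : PaStmt := by
  intro k M I _ _ _ _ _ _ S D₁ D₂ φ φ' hS reg smo reg' hφ'
  obtain ⟨w, hw⟩ := hS.s.can D₁ D₂
  have a1 := hS.a1
  have a2 := hS.a2
  have hL : ∀ O ∈ S.T, ∀ c, S.lb c O ≠ 0 := fun O hO c => S.lb_ne (a1.gne O hO) c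
  have hL2 : ∀ O, S.lb ((-2 : ℤ) • S.K) O = S.lb (-S.K) O ^ 2 := fun O => by
    rw [show (-2 : ℤ) • S.K = (2 : ℤ) • (-S.K) by simp, S.lb_zsmul, zpow_ofNat]
  have hreg : ∀ χ : M, (∀ O ∈ S.T, ∀ a ∈ O, ∀ b ∈ O, χ * jac D₁ D₂ a b ^ 2 ∈ O) →
      ∀ O ∈ S.T, χ * w ^ 2 * S.lb ((-2 : ℤ) • S.K) O ∈ O := by
    intro χ h O hO
    obtain ⟨a, b, u, h1, h2, h3⟩ := hw O hO
    have h4 := (h2.pow 2).div_mem (h O hO a (cht_mem h1).1 b (cht_mem h1).2)
    have h5 := h2.1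
    rwa [h3, show χ * (u * w * S.lb (-S.K) O) ^ 2 / u ^ 2 = χ * w ^ 2 * S.lb (-S.K) O ^ 2 by
      field_simp, ← hL2] at h4
  have hsm : ∀ O ∈ S.T, φ * w ^ 2 * S.lb ((-2 : ℤ) • S.K) O ∉ mx2 O := by
    intro O hO h
    obtain ⟨a, b, u, h1, h2, h3⟩ := hw O hO
    obtain ⟨c, hc, d, hd, h4⟩ := smo O hO
    obtain ⟨J, hJ, h5⟩ := hS.jc.jacM O a b h1 c hc d hd
    refine h4 ?_
    have := mx2_mul (O.pow_mem (O.mul_mem hJ h2.mem) 2) h
    rwa [hL2, show (J * u) ^ 2 * (φ * w ^ 2 * S.lb (-S.K) O ^ 2) =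
      φ * (J * (u * w * S.lb (-S.K) O)) ^ 2 by ring, ← h3, ← h5] at this
  have htop : ⊤ ∈ S.T := a1.nice.toFine.top
  have hne : φ * w ^ 2 ≠ 0 := fun h => hsm ⊤ htop (by rw [h, zero_mul]; exact (mx2 ⊤).zero_mem)
  have hφ : φ ≠ 0 := left_ne_zero_of_mul hne
  have hw0 : w ≠ 0 := fun h => hne (by simp [h])
  have hch : ∀ O ∈ S.T, ∀ a b, Cht O a b → IsU O (jac D₁ D₂ a b / (w * S.lb (-S.K) O)) := by
    intro O hO c d h
    obtain ⟨a, b, u, h1, h2, h3⟩ := hw O hO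
    obtain ⟨v, h4, h5⟩ := hS.jc.jacU O a b c d h1 h
    have h6 := hL O hO (-S.K)
    rw [h5, h3, show v * (u * w * S.lb (-S.K) O) / (w * S.lb (-S.K) O) = v * u by field_simp]
    exact h4.mul h2
  have hcart := a1.pcart ((-2 : ℤ) • S.K) _ hne
  obtain ⟨s, hs⟩ : ∃ s : Finset (Place k M), ∀ P, P ∈ s ↔ plO P ∈ S.T ∧
      P.ord (φ * w ^ 2 * S.lb ((-2 : ℤ) • S.K) (plO P)) ≠ 0 :=
    ⟨(a1.nice.toFine.fin_cart hcart).toFinset, fun P => by simp⟩
  have hord : ∀ P : Place k M, plO P ∈ S.T →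
      P.ord (φ * w ^ 2 * S.lb ((-2 : ℤ) • S.K) (plO P)) = if P ∈ s then 1 else 0 := by
    intro P hP
    have h1 := mem_plO_ord.1 (hreg φ reg _ hP)
    have h2 : ¬ 2 ≤ P.ord (φ * w ^ 2 * S.lb ((-2 : ℤ) • S.K) (plO P)) := fun h =>
      hsm _ hP (mem_mx2 (mul_ne_zero hne (hL _ hP _)) h)
    have h3 := hs P
    split_ifs with h
    · have := (h3.1 h).2
      omega
    · by_contra h4
      exact h (h3.2 ⟨hP, h4⟩)
  have hnon : s.Nonempty := by
    rw [Finset.nonempty_iff_ne_empty]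
    rintro rfl
    obtain ⟨a, ha⟩ := a2.const (φ' / φ) fun O hO => by
      have h1 := (a1.nice.unit hcart hO fun P hP _ => by simpa using hord P hP).div_mem
        (hreg φ' reg' O hO)
      have h2 := hL O hO ((-2 : ℤ) • S.K)
      rwa [show φ' * w ^ 2 * S.lb ((-2 : ℤ) • S.K) O / (φ * w ^ 2 * S.lb ((-2 : ℤ) • S.K) O) =
        φ' / φ by field_simp] at h1
    exact hφ' a (by rw [Algebra.smul_def, ← ha, div_mul_cancel₀ _ hφ])
  choose ψ hψ using fun i : s => a2.cl i.1 ((hs i.1).1 i.2).1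
  have hsum : ∑ i : s, S.cl i.1 = (-2 : ℤ) • S.K := by
    rw [a2.dv ((-2 : ℤ) • S.K) _ s hne (fun P hP => ((hs P).1 hP).1)
      (fun P hP h => by rw [hord P hP, if_neg h]), Finset.sum_coe_sort s S.cl]
    refine Finset.sum_congr rfl fun P hP => ?_
    rw [hord P ((hs P).1 hP).1, if_pos hP, one_smul]
  have hψ0 : ∏ i, ψ i ≠ 0 := Finset.prod_ne_zero_iff.2 fun i _ => (hψ i).1
  have hprod : ∀ O ∈ S.T, ∏ i, ψ i * S.lb (S.cl i.1) O =
      (∏ i, ψ i) * S.lb ((-2 : ℤ) • S.K) O := fun O hO => by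
    rw [Finset.prod_mul_distrib, ← S.lb_sum (a1.gne O hO), hsum]
  obtain ⟨e, he⟩ := a2.const (φ * w ^ 2 / ∏ i, ψ i) fun O hO => by
    have h1 := a1.nice.unit_div hcart (a1.pcart ((-2 : ℤ) • S.K) _ hψ0) hO fun P hP => by
      rw [hord P hP, ← hprod _ hP,
        P.ord_prod _ _ fun i _ => mul_ne_zero (hψ i).1 (hL _ hP _)]
      simp only [(hψ _).2.2 P hP]
      rw [Finset.sum_coe_sort s fun Q => if P = Q then (1 : ℤ) else 0, Finset.sum_ite_eq]
    rw [mul_div_mul_right _ _ (hL O hO _)] at h1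
    exact h1.mem
  obtain ⟨ε, rfl⟩ := IsAlgClosed.exists_eq_mul_self e
  have hε : ε ≠ 0 := fun h => div_ne_zero hne hψ0 (by rw [he, h, zero_mul, map_zero])
  have hε' : algebraMap k M ε ≠ 0 := (map_ne_zero _).2 hε
  have hω : w / algebraMap k M ε ≠ 0 := div_ne_zero hw0 hε'
  obtain ⟨x, y, hxy⟩ := a1.chart ⊤ htop
  obtain ⟨c', ⟨U, hU1, hU2, hU3⟩, ⟨U', hU1', hU2', hU3'⟩⟩ := hS.s.dif (-S.K)
  have hc : (φ * (w / algebraMap k M ε))⁻¹ ≠ 0 := inv_ne_zero (mul_ne_zero hφ hω)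
  refine ⟨s, inferInstance,
    { toSd := S, D₁ := D₁, D₂ := D₂, φ := φ, ω := w / algebraMap k M ε, ψ := ψ,
      C := fun i => S.cl i.1, k0 := ⟨_, hnon.choose_spec⟩, x := x, y := y, U := U,
      U' := (fun a => (φ * (w / algebraMap k M ε))⁻¹ * a) '' U' }, rfl, rfl, rfl, rfl,
    hS, hxy.1, (div_ne_zero_iff.1 (hch ⊤ htop x y hxy).1).1, hφ, hω, reg, smo, ?_,
    fun i => ⟨i.1, hψ i⟩, ?_, hsum, hU1, hU1'.image _, hU2, ?_,
    fun O hO => gn_spec (hU3 O hO).prin, ?_⟩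
  · intro O hO a b h
    have h1 := (hch O hO a b h).mul (isU_const hε)
    have h2 := hL O hO (-S.K)
    change IsU O (jac D₁ D₂ a b / (w / algebraMap k M ε * S.lb (-S.K) O))
    rwa [show jac D₁ D₂ a b / (w / algebraMap k M ε * S.lb (-S.K) O) =
      jac D₁ D₂ a b / (w * S.lb (-S.K) O) * algebraMap k M ε by field_simp]
  · intro O hO
    change φ * (w / algebraMap k M ε * S.lb (-S.K) O) ^ 2 = ∏ i, ψ i * S.lb (S.cl i.1) O
    rw [div_eq_iff hψ0, map_mul] at he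
    rw [hprod O hO, hL2, mul_pow, div_pow, ← mul_assoc, ← mul_div_assoc, he]
    field_simp
  · rintro _ ⟨a, ha, rfl⟩
    exact mul_ne_zero hc (hU2' a ha)
  · intro O hO
    refine ((hU3' O hO).smul hc).of_unit ?_
    have h1 := (gn_spec (hU3 O hO).prin).unit (hU3 O hO)
    have h2 := hL O hO (-S.K)
    have h3 := hL O hO c'
    change IsU O (gn U O / (φ * (w / algebraMap k M ε * S.lb (-S.K) O)) / _)
    rwa [S.lb_add (a1.gne O hO), show gn U O / (φ * (w / algebraMap k M ε * S.lb (-S.K) O)) /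
      ((φ * (w / algebraMap k M ε))⁻¹ * (S.lb c' O * S.lb (-S.K) O)⁻¹) =
        gn U O / (S.lb c' O)⁻¹ by field_simp]

end Pool.Agent.MP_20d318_ag.CB

end MrgPart2

-- ======== part 3: formerly Pool.Agent.MP_20d318_ag.CB.Pc
section MrgPart3

/-! The choice of a nef component of the curve. -/

set_option autoImplicit false

namespace Pool.Agent.MP_20d318_ag.CB

open Pool.Agent.MP_79c67d_ag Pool.Agent.MP_20d318_ag.AG Pool.Agent.MP_20d318_ag.BV MvPolynomial
open Pool.Agent.MP_20d318_ag.RS (jac)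
open scoped IntermediateField

namespace PcR

variable {k M I κ : Type} [Field k] [Field M] [Algebra k M] [Fintype I] [Fintype κ]
  {p : Pd k M I κ}

theorem ip_sum (h : Pair0 p) (t : Finset κ) {l : κ} (hl : l ∈ t) :
    ip p.B (∑ i ∈ t, p.C i) (p.C l) = ip p.B (p.C l) (p.C l) := by
  rw [ip_sum_left]
  exact Finset.sum_eq_single_of_mem l hl fun i _ hi => h.disj i l hi

theorem sec_all (h : Pair0 p) {φ' : M}
    (h' : ∀ O ∈ p.T, ∀ a ∈ O, ∀ b ∈ O, φ' * p.j a b ^ 2 ∈ O) :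
    φ' / p.φ * ∏ i, p.ψ i ∈ p.Sec (∑ i, p.C i) := by
  intro O hO
  obtain ⟨a, b, hab⟩ := h.all.a1.chart O hO
  have hu := h.chart O hO a b hab
  have ha : a ∈ O := hab.2.2.1 (Algebra.subset_adjoin (by simp))
  have hb : b ∈ O := hab.2.2.1 (Algebra.subset_adjoin (by simp))
  have hj : p.jj O ≠ 0 := fun e => hu.1 (by rw [e, div_zero])
  have hj' : p.j a b ≠ 0 := fun e => hu.1 (by rw [e, zero_div])
  have e : φ' / p.φ * (∏ i, p.ψ i) * p.lb (∑ i, p.C i) O =
      φ' * p.j a b ^ 2 * ((p.j a b / p.jj O)⁻¹) ^ 2 := by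
    rw [p.lb_sum (h.all.a1.gne O hO), mul_assoc, ← Finset.prod_mul_distrib]
    have e' := h.eqn O hO
    simp only [Pd.s] at e'
    rw [← e']
    have := h.φne
    field_simp
  rw [e]
  exact O.mul_mem (h' O hO a ha b hb) (O.pow_mem hu.inv_mem 2)

open Classical in
theorem strip (h : Pair0 p) (r : M) (t s : Finset κ) (hd : Disjoint s t)
    (hs : ∀ l ∈ s, ip p.B (p.C l) (p.C l) < 0)
    (hr : r * ∏ i ∈ s ∪ t, p.ψ i ∈ p.Sec (∑ i ∈ s ∪ t, p.C i)) :
    r * ∏ i ∈ t, p.ψ i ∈ p.Sec (∑ i ∈ t, p.C i) := by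
  induction s using Finset.induction_on with
  | empty => simpa using hr
  | insert l s hl ih =>
    have hlt : l ∉ s ∪ t := by
      rw [Finset.mem_union, not_or]
      exact ⟨hl, fun ht => Finset.disjoint_left.1 hd (Finset.mem_insert_self l s) ht⟩
    refine ih (hd.mono_left (Finset.subset_insert l s))
      (fun i hi => hs i (Finset.mem_insert_of_mem hi)) ?_
    obtain ⟨P, hP⟩ := h.prm l
    have hm : (r * ∏ i ∈ insert l s ∪ t, p.ψ i) * p.lb (∑ i ∈ insert l s ∪ t, p.C i) (plO P) ∈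
        mx (plO P) := by
      refine (isU_or_mx (hr _ hP.2.1)).resolve_left fun hu => ?_
      have h0 := (h.all.a2.nn _ _ P hP _ _ hr hu).1
      rw [ip_sum h _ (Finset.mem_union_left _ (Finset.mem_insert_self l s))] at h0
      exact absurd (hs l (Finset.mem_insert_self l s)) (not_lt.2 h0)
    have h1 := h.all.a2.sub _ _ P hP _ _ hr hm
    rw [Finset.insert_union, Finset.prod_insert hlt, Finset.sum_insert hlt, add_sub_cancel_left,
      mul_left_comm, mul_div_cancel_left₀ _ hP.1] at h1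
    exact h1

theorem hef (h : Pair0 p) {c : I → ℤ} (hc : c ∈ p.Ef) : c = 0 ∨ 0 < ip p.B p.h c := by
  induction hc using AddSubmonoid.closure_induction with
  | mem c hc => exact Or.inr (h.all.a1.hpos c hc)
  | zero => exact Or.inl rfl
  | add a b _ _ ha hb =>
    rcases ha with rfl | ha
    · rwa [zero_add]
    rcases hb with rfl | hb
    · rw [add_zero]; exact Or.inr ha
    · rw [ip_add_right]; exact Or.inr (add_pos ha hb)

theorem hC (h : Pair0 p) (i : κ) : 0 < ip p.B p.h (p.C i) := by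
  obtain ⟨P, hP⟩ := h.prm i
  exact h.all.a1.hpos _ ⟨_, P, hP⟩

theorem kc (h : Pair0 p) {i : κ} (hi : ip p.B (p.C i) (p.C i) = 0) : p.K + p.C i ∈ p.Ef := by
  have h1 := ip_sum h Finset.univ (Finset.mem_univ i)
  rw [h.sumC, ip_smul_left, hi] at h1
  have h2 : ip p.B p.K (p.C i) = 0 := by omega
  have h3 : ip p.B (p.C i) p.K = 0 := by rw [ip_comm h.all.s.sym, h2]
  rcases h.all.a4.rr (p.K + p.C i) (by
    rw [ip_add_left, ip_add_right, ip_add_right, h2, h3, hi]; omega) with h4 | h4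
  · exact h4
  · have h5 := hC h i
    rw [sub_add_cancel_left] at h4
    rcases hef h h4 with h6 | h6
    · rw [neg_eq_zero.1 h6, ip_zero_right] at h5
      exact absurd h5 (lt_irrefl _)
    · rw [ip_neg_right] at h6
      omega

theorem same (h : Pair0 p) {i l : κ} (hil : l ≠ i) (hi : ip p.B (p.C i) (p.C i) = 0)
    (hl : ip p.B (p.C l) (p.C l) = 0) : p.C l = p.C i := by
  classical
  have h1 : ip p.B p.h (p.C l) + ip p.B p.h (p.C i) ≤ ip p.B p.h (∑ i, p.C i) := by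
    rw [ip_sum_right, ← Finset.sum_pair (f := fun i => ip p.B p.h (p.C i)) hil]
    exact Finset.sum_le_sum_of_subset_of_nonneg (Finset.subset_univ _)
      fun j _ _ => (hC h j).le
  rw [h.sumC, ip_smul_right] at h1
  have z : ∀ {j : κ}, p.K + p.C j = 0 → ip p.B p.h p.K + ip p.B p.h (p.C j) = 0 := fun e => by
    rw [← ip_add_right, e, ip_zero_right]
  rcases hef h (kc h hi) with h2 | h2 <;> rcases hef h (kc h hl) with h3 | h3
  · exact add_left_cancel (h3.trans h2.symm)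
  · have := z h2
    rw [ip_add_right] at h3
    omega
  · have := z h3
    rw [ip_add_right] at h2
    omega
  · rw [ip_add_right] at h2 h3
    omega

theorem pair0 (h : Pair0 p) (i : κ) : Pair0 { p with k0 := i } :=
  ⟨⟨h.all, h.gen, h.jne, h.φne, h.ωne, h.reg, h.smo, h.chart, h.prm, h.eqn, h.sumC, h.fU, h.fU',
    h.nU, h.nU', h.gU, h.gU'⟩, ⟨h.one, h.crd, h.loc2, h.disj⟩⟩

end PcR

theorem pc_stmt : PcStmt := by
  intro k M I κ _ _ _ _ _ _ _ p φ' h _ h' hc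
  classical
  have hz := PcR.sec_all h h'
  have hr : ∀ c : k, φ' / p.φ ≠ algebraMap k M c := fun c e =>
    hc c (by rw [Algebra.smul_def, ← e, div_mul_cancel₀ _ h.φne])
  by_cases h1 : ∃ i, 0 < ip p.B (p.C i) (p.C i)
  · obtain ⟨i, hi⟩ := h1
    exact ⟨i, PcR.pair0 h i, hi.le, fun e => absurd e hi.ne'⟩
  have h2 : ∀ i, ip p.B (p.C i) (p.C i) ≤ 0 := fun i => not_lt.1 fun e => h1 ⟨i, e⟩
  have h3 : ∃ i, ip p.B (p.C i) (p.C i) = 0 := by
    by_contra h3
    have h4 := PcR.strip h (φ' / p.φ) ∅ Finset.univ (Finset.disjoint_empty_right _)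
      (fun l _ => lt_of_le_of_ne (h2 l) fun e => h3 ⟨l, e⟩) (by simpa using hz)
    obtain ⟨c, e⟩ := h.all.a2.const (φ' / p.φ) fun O hO => by
      simpa [Sd.lb_zero] using h4 O hO
    exact hr c e
  obtain ⟨i, hi⟩ := h3
  obtain ⟨P, hP⟩ := h.prm i
  refine ⟨i, PcR.pair0 h i, hi.ge, fun _ => ?_⟩
  show ∃ ψ₁ ∈ p.Sec (p.C i), ∀ c : k, ψ₁ ≠ c • p.ψ i
  by_cases h4 : ∃ l, l ≠ i ∧ ip p.B (p.C l) (p.C l) = 0
  · obtain ⟨l, hl, hl0⟩ := h4
    have e := PcR.same h hl hi hl0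
    obtain ⟨Q, hQ⟩ := h.prm l
    refine ⟨p.ψ l, e ▸ h.all.a1.pmem _ _ Q hQ, fun c ec => hl ?_⟩
    have m1 : p.s i (plO P) ∈ mx (plO P) := (h.all.a1.pmx _ _ P hP _ hP.2.1).2 le_rfl
    refine h.one _ hP.2.1 l i ?_ m1
    have e2 : p.s l (plO P) = algebraMap k M c * p.s i (plO P) := by
      simp only [Pd.s, e, ec, Algebra.smul_def, mul_assoc]
    rw [e2]
    exact mx_mul_left ((plO P).algebraMap_mem c) m1
  · have h5 := PcR.strip h (φ' / p.φ) {i} (Finset.univ.erase i)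
      (Finset.disjoint_singleton_right.2 (Finset.notMem_erase i _))
      (fun l hl => lt_of_le_of_ne (h2 l) fun e => h4 ⟨l, Finset.ne_of_mem_erase hl, e⟩)
      (by
        have e : Finset.univ.erase i ∪ {i} = Finset.univ := by
          ext j; by_cases hj : j = i <;> simp [hj]
        rw [e]; exact hz)
    rw [Finset.prod_singleton, Finset.sum_singleton] at h5
    refine ⟨_, h5, fun c ec => hr c ?_⟩
    rw [Algebra.smul_def] at ec
    exact mul_right_cancel₀ hP.1 ec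

end Pool.Agent.MP_20d318_ag.CB

end MrgPart3

-- ======== part 4: formerly Pool.Agent.MP_20d318_ag.CB.Pen
section MrgPart4

/-! The elliptic pencil. -/

set_option autoImplicit false

namespace Pool.Agent.MP_20d318_ag.CB

open Pool.Agent.MP_79c67d_ag Pool.Agent.MP_20d318_ag.AG Pool.Agent.MP_20d318_ag.BV MvPolynomial
open Pool.Agent.MP_20d318_ag.RS (jac)
open scoped IntermediateField

namespace Pen

variable {k M : Type} [Field k] [Field M] [Algebra k M]

/-- A valuation ring that contains `k(t)` has `t` as an independent element. -/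
theorem ind_of_le [IsAlgClosed k] {t : M} {P : Place k M} (h : P.ord t = 1)
    {V : Subalgebra k M} (hV : ∀ a ∈ k⟮t⟯, a ∈ V) : Ind V ![t] := by
  have ht : Transcendental k t := transcendental_iff_ne.2 fun c hc => by
    rw [hc, P.ord_const] at h
    exact zero_ne_one h
  have hi : AlgebraicIndependent k ![t] :=
    (algebraicIndependent_unique_type_iff (ι := Fin 1)).2 ht
  have hm : ∀ i, ![t] i ∈ k⟮t⟯ := fun i => by
    rw [Subsingleton.elim i 0]
    exact IntermediateField.mem_adjoin_simple_self k t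
  refine ⟨fun i => hV _ (hm i), fun q hq => ?_⟩
  have h1 : aeval ![t] q ∈ k⟮t⟯ := by
    have e : aeval ![t] q = (k⟮t⟯).val (aeval (fun i => (⟨![t] i, hm i⟩ : k⟮t⟯)) q) := by
      rw [← AlgHom.comp_apply, comp_aeval]
      rfl
    rw [e]
    exact Subtype.property _
  exact ⟨fun h0 => hq (algebraicIndependent_iff.1 hi q h0), hV _ h1, hV _ (inv_mem h1)⟩

/-- An independent element is not constant at a rational point below. -/
theorem not_rat {t : M} {O V : Subalgebra k M} (hd : Dom O V) (hO : RatPt O)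
    (hr : t ∈ O ∨ t⁻¹ ∈ O) (hi : Ind V ![t]) : False := by
  rcases hr with h | h
  · obtain ⟨c, hc⟩ := hO t h
    exact (ind_one hi c).not_mx (hd.mx hc)
  · obtain ⟨c, hc⟩ := hO _ h
    have h0 : IsU V t := by simpa using ind_one hi 0
    have h1 := mx_mul_left h0.mem (hd.mx hc)
    have h2 : (1 - C c * X 0 : MvPolynomial (Fin 1) k) ≠ 0 := fun e => by
      simpa using congrArg constantCoeff e
    have h3 := hi.2 _ h2
    have e : aeval ![t] (1 - C c * X 0 : MvPolynomial (Fin 1) k) =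
        t * (t⁻¹ - algebraMap k M c) := by
      rw [mul_sub, mul_inv_cancel₀ h0.ne]
      simp [mul_comm]
    rw [e] at h3
    exact h3.not_mx h1

end Pen

/-- PEN. -/
theorem pen_stmt : PenStmt := by
  intro hU hD k M I κ _ _ _ _ _ _ _ p hp hE h0
  have A := hp.all.a1
  have B := hp.all.a2
  obtain ⟨ψ₁, hψ, hne⟩ := hp.pen h0
  obtain ⟨P₀, hP₀⟩ : ∃ P, p.Prm p.F (p.ψ p.k0) P := hp.prm p.k0
  have hψ0 : ψ₁ ≠ 0 := by simpa using hne 0
  have hl : ∀ O ∈ p.T, p.lb p.F O ≠ 0 := fun O hO => p.lb_ne (A.gne O hO) _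
  have m0 : ∀ O ∈ p.T, p.ψ p.k0 * p.lb p.F O ∈ O := A.pmem _ _ _ hP₀
  have m1 : ∀ O ∈ p.T, ψ₁ * p.lb p.F O ∈ O := hψ
  have u0 : IsU (plO P₀) (ψ₁ * p.lb p.F (plO P₀)) := by
    refine isU_of_not_mx (m1 _ hP₀.2.1) fun hm => ?_
    have h1 := B.sub _ _ _ hP₀ _ _ hψ hm
    rw [sub_self] at h1
    obtain ⟨a, ha⟩ := B.const (ψ₁ / p.ψ p.k0) fun O hO => by
      simpa [Sd.lb_zero] using p.mem_Sec.1 h1 O hO
    exact hne a (by rw [Algebra.smul_def, ← ha, div_mul_cancel₀ _ hP₀.1])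
  have u1 := (B.nn _ _ _ hP₀ _ _ hψ u0).2.1 h0
  have u2 : ∀ O ∈ p.T, ¬ O ≤ plO P₀ → IsU O (p.ψ p.k0 * p.lb p.F O) := fun O hO hn =>
    isU_of_not_mx (m0 O hO) fun hm => hn ((A.pmx _ _ _ hP₀ O hO).1 hm)
  have et : ∀ O ∈ p.T, p.ψ p.k0 / ψ₁ = p.ψ p.k0 * p.lb p.F O / (ψ₁ * p.lb p.F O) := fun O hO =>
    (mul_div_mul_right _ _ (hl O hO)).symm
  have hord : P₀.ord (p.ψ p.k0 / ψ₁) = 1 := by
    rw [et _ hP₀.2.1, P₀.ord_div (mul_ne_zero hP₀.1 (hl _ hP₀.2.1)) u0.ne, hP₀.2.2 _ hP₀.2.1,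
      if_pos rfl, ((isU_plO' P₀).1 u0).2, sub_zero]
  have hreg : ∀ O ∈ p.T, p.ψ p.k0 / ψ₁ ∈ O ∨ (p.ψ p.k0 / ψ₁)⁻¹ ∈ O := fun O hO => by
    rw [et O hO, inv_div]
    by_cases hle : O ≤ plO P₀
    · exact Or.inl ((u1 O hO hle).div_mem (m0 O hO))
    · exact Or.inr ((u2 O hO hle).div_mem (m1 O hO))
  have hG : ∀ O ∈ p.T, Gn {p.ψ p.k0 / ψ₁, 1} O (ψ₁ * p.lb p.F O)⁻¹ := fun O hO => by
    have e1 : p.ψ p.k0 / ψ₁ / (ψ₁ * p.lb p.F O)⁻¹ = p.ψ p.k0 * p.lb p.F O := by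
      rw [div_inv_eq_mul, ← mul_assoc, div_mul_cancel₀ _ hψ0]
    have e2 : 1 / (ψ₁ * p.lb p.F O)⁻¹ = ψ₁ * p.lb p.F O := by rw [div_inv_eq_mul, one_mul]
    refine ⟨?_, ?_⟩
    · rintro a (rfl | rfl)
      · rw [e1]; exact m0 O hO
      · rw [e2]; exact m1 O hO
    · by_cases hle : O ≤ plO P₀
      · exact ⟨1, Or.inr rfl, by rw [e2]; exact u1 O hO hle⟩
      · exact ⟨_, Or.inl rfl, by rw [e1]; exact u2 O hO hle⟩
  have hhor : ∀ c φ P, p.Prm c φ P → (ip p.B c p.F ≠ 0 ↔ Ind (plO P) ![p.ψ p.k0 / ψ₁]) :=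
    fun c φ P h => by
      rw [ip_comm hp.all.s.sym]
      exact B.mor _ _ _ hG c φ P h
  have hpl : ∀ P : Place k M, Ind (plO P) ![p.ψ p.k0 / ψ₁] → plO P ∈ p.T := fun P hi => by
    obtain ⟨O, hO, hd⟩ := A.nice.cpl _ (plO_isVal P)
    rcases A.tri O hO with rfl | hr | ⟨P', rfl⟩
    · exact absurd (top_le_iff.1 hd.1) (plO_ne_top P)
    · exact (Pen.not_rat hd hr (hreg O hO) hi).elim
    · rwa [← plO_inj hd.1]
  refine ⟨p.ψ p.k0 / ψ₁, ψ₁, P₀, h0, hP₀, hψ, hψ0, rfl, hord, fun P hP h => ?_, hreg, hhor, hpl,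
    fun P π hi hπ => ?_, fun r hr h => ?_⟩
  · refine A.peq _ _ _ hP₀ P hP ?_
    have n0 := mul_ne_zero hP₀.1 (hl _ hP)
    have n1 := mul_ne_zero hψ0 (hl _ hP)
    rw [et _ hP, P.ord_div n0 n1] at h
    have := mem_plO_ord.1 (m1 _ hP)
    exact (mx_plO n0).2 (by omega)
  · refine hE.val P _ π (hpl P hi) (fun i => ?_) hi hπ
    obtain ⟨Q, hQ⟩ := hp.prm i
    refine isU_of_not_mx (A.pmem _ _ _ hQ _ (hpl P hi)) fun hm => ?_
    have e := A.peq _ _ _ hQ P (hpl P hi) hm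
    subst e
    refine (hhor _ _ _ hQ).2 hi ?_
    by_cases e : i = p.k0
    · rw [e]; exact h0
    · exact hp.disj _ _ e
  · by_contra hn
    have hT : Tr (k⟮p.ψ p.k0 / ψ₁⟯).val r := fun q hq => by_contra fun hq0 => hn ⟨q, hq0, hq⟩
    have hV0 : IsVal (⊤ : Subalgebra k k⟮p.ψ p.k0 / ψ₁⟯) := fun _ => Or.inl Algebra.mem_top
    obtain ⟨V, hV, hd, hm⟩ := (hU k _ M _ ⊤ r hV0.isLocalRing hT).1 0
    rw [map_zero, sub_zero] at hm
    have hi : Ind V ![p.ψ p.k0 / ψ₁] :=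
      Pen.ind_of_le hord fun a ha => hd.1 (Algebra.mem_top (x := ⟨a, ha⟩))
    obtain ⟨-, P, rfl⟩ := hD k M p.x p.y _ V hp.gen hV
      (fun e => hr (by rwa [e, mem_mx_top] at hm)) hi
    have := (mx_plO hr).1 hm
    rw [h P hi] at this
    exact lt_irrefl _ this

end Pool.Agent.MP_20d318_ag.CB

end MrgPart4

-- ======== part 5: formerly Pool.Agent.MP_20d318_ag.CB.Reg
section MrgPart5

/-! REG: a field automorphism that preserves the form is an automorphism of the surface. -/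

set_option autoImplicit false
set_option linter.unusedSectionVars false

namespace Pool.Agent.MP_20d318_ag.CB

open Pool.Agent.MP_79c67d_ag Pool.Agent.MP_20d318_ag.AG Pool.Agent.MP_20d318_ag.BV MvPolynomial
open Pool.Agent.MP_20d318_ag.RS (jac)
open scoped IntermediateField

namespace RegA

variable {k M I κ : Type} [Field k] [Field M] [Algebra k M] [Fintype I] [Fintype κ]
  {p : Pd k M I κ} {σ : M ≃ₐ[k] M}

theorem form_symm (h : Form p σ) : Form p σ.symm := by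
  obtain ⟨e, he, h⟩ := h
  refine ⟨e⁻¹, inv_ne_zero he, fun a b => σ.injective ?_⟩
  rw [AlgEquiv.apply_symm_apply, map_mul σ, h, AlgEquiv.commutes, AlgEquiv.apply_symm_apply,
    AlgEquiv.apply_symm_apply, ← mul_assoc, ← map_mul, inv_mul_cancel₀ he, map_one, one_mul]

theorem key [CharZero k] [IsAlgClosed k] (hR : ResStmt) (hD : DivStmt) (h : Pair0 p) (hE : Ex p)
    (hF : Form p σ) {O : Subalgebra k M} (hO : O ∈ p.T) : Prin (σ '' p.H) O := by
  have fam := h.all.s.fam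
  have a1 := h.all.a1
  have hf : (σ '' p.H).Finite := (fam.fin ()).image _
  have hn : (σ '' p.H).Nonempty := (fam.ne ()).image _
  have hz : ∀ a ∈ σ '' p.H, a ≠ 0 := by
    rintro _ ⟨a, ha, rfl⟩
    exact (map_ne_zero σ).2 (fam.nz () a ha)
  by_contra hc
  have hv : ¬ IsVal O := fun hv => hc (B1.val_prin hv hf hn hz)
  have hr : RatPt O := by
    rcases a1.tri O hO with rfl | h1 | ⟨P, rfl⟩
    · exact absurd (fun _ => Or.inl Algebra.mem_top) hv
    · exact h1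
    · exact absurd (plO_isVal P) hv
  have hfr := a1.nice.toFine.frac hO
  obtain ⟨V, v1, v2, _, ⟨j, hj, rfl⟩, v3, _, ⟨a, ha, rfl⟩, v4⟩ :=
    hR k M O _ (mp_loc hO) (a1.nice.nrm O hO) hfr hr hf hn hz hc
  have vt : V ≠ ⊤ := by
    rintro rfl
    refine hv fun f => Or.inl ?_
    obtain ⟨c, hc, d, hd, h0, rfl⟩ := hfr f
    exact (v2.2 d hd (isU_top.2 h0)).div_mem hc
  obtain ⟨ft, P, rfl⟩ := hD k M p.x p.y _ V h.gen v1 vt v4
  obtain ⟨d, hd, hx⟩ := hE.exc P O _ ft hO hr v2 v4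
  rw [← map_div₀] at hx v4
  have hle : cht k (fun _ : Unit => p.H) (fun _ => j) ≤ (plO P).comap (σ : M →ₐ[k] M) :=
    cht_le.2 fun _ b hb => by
      have := v3 _ ⟨b, hb, rfl⟩
      rwa [← map_div₀] at this
  obtain ⟨O', o1, o2⟩ := exists_ctr (isLocalRing_comap _ v1.isLocalRing) hle
  have o3 : O' ∈ p.T := ⟨_, fun _ => hj, o1⟩
  have o4 : a / j ∈ O' := cht_le.1 o1.2.1 () a ha
  have o5 : IsVal O' := by
    rcases a1.tri O' o3 with rfl | h1 | ⟨P', rfl⟩
    · exact fun _ => Or.inl Algebra.mem_top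
    · obtain ⟨c, h2⟩ := h1 _ o4
      refine absurd ((mem_mx_comap _).1 (o2.mx h2)) (IsU.not_mx ?_)
      have := ind_one v4 c
      simpa using this
    · exact plO_isVal P'
  have o6 := o5.eq_of_dom o2
  have o7 : σ.symm d ∈ O' := by
    rw [o6]
    simpa using v2.1 hd
  have o8 : σ (p.φ * p.j (a / j) (σ.symm d) ^ 2) ∈ plO P := o2.1 (h.reg O' o3 _ o4 _ o7)
  obtain ⟨e, he, hF⟩ := hF
  rw [hF, AlgEquiv.apply_symm_apply] at o8
  have := (isU_const he).div_mem o8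
  rw [mul_div_cancel_left₀ _ (isU_const (O := plO P) he).1] at this
  exact hx this

theorem sub [CharZero k] [IsAlgClosed k] (hR : ResStmt) (hD : DivStmt) (h : Pair0 p) (hE : Ex p)
    (hF : Form p σ) {O : Subalgebra k M} (hO : O ∈ p.T) : O.comap (σ : M →ₐ[k] M) ∈ p.T := by
  refine (mp_comap σ).1 (B1.mp_sub h.all.s.fam (fun O hO _ => key hR hD h hE hF hO)
    (fun O' h1 _ => ?_) hO)
  obtain ⟨γ, h2, _, ⟨b, hb, rfl⟩, h3⟩ := key hR hD h hE (form_symm hF) ((mp_comap σ).1 h1)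
  refine ⟨σ γ, fun a ha => ?_, b, hb, ?_⟩
  · simpa using h2 _ ⟨a, ha, rfl⟩
  · simpa using (isU_comap _).1 h3

end RegA

open RegA in
theorem reg_stmt : RegStmt := by
  intro hR hD k M I κ _ _ _ _ _ _ _ p σ h hE hF O
  refine ⟨sub hR hD h hE hF, fun hO => ?_⟩
  have := sub hR hD h hE (form_symm hF) hO
  rwa [show (O.comap (σ : M →ₐ[k] M)).comap (σ.symm : M →ₐ[k] M) = O by ext; simp] at this

end Pool.Agent.MP_20d318_ag.CB

end MrgPart5

-- ======== part 6: formerly Pool.Agent.MP_20d318_ag.CB.Res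
section MrgPart6

/-! Over a point where an ideal is not principal there is a curve of the blow-up. -/

set_option autoImplicit false

namespace Pool.Agent.MP_20d318_ag.CB

open Pool.Agent.MP_79c67d_ag Pool.Agent.MP_20d318_ag.AG Pool.Agent.MP_20d318_ag.BV MvPolynomial

namespace ResA

variable {k M : Type} [Field k] [Field M] [Algebra k M] {O V : Subalgebra k M}

/-- The centre of a local ring on a subring. -/
def ctr (hV : IsLocalRing V) (A : Subalgebra O M) (hA : ∀ x ∈ A, x ∈ V) : Ideal A where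
  carrier := {x | (x : M) ∈ mx V}
  add_mem' ha hb := mx_add hV ha hb
  zero_mem' := zero_mem_mx
  smul_mem' c _ hx := mx_mul_left (hA _ c.2) hx

instance ctr_prime (hV : IsLocalRing V) (A : Subalgebra O M) (hA : ∀ x ∈ A, x ∈ V) :
    (ctr hV A hA).IsPrime where
  ne_top' := (Ideal.ne_top_iff_one _).2 one_not_mem_mx
  mem_or_mem' {x y} h := mx_or_of_mul (hA _ x.2) (hA _ y.2) h

/-- Either the fibre is finite and Zariski main theorem applies, or a generator is transcendental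
at a point of the fibre. -/
theorem dich (k : Type) {R A : Type} [Field k] [CommRing R] [CommRing A] [Algebra k R]
    [Algebra k A] [Algebra R A] [IsScalarTower k R A] (q : Ideal A) [q.IsPrime] {T : Set A}
    (hT : T.Finite) (htop : Algebra.adjoin R T = ⊤) :
    (∃ r ∉ q, IsIntegral R r ∧ ∀ x, ∃ m, IsIntegral R (r ^ m * x)) ∨
    ∃ t ∈ T, ∃ q' : Ideal A, q'.IsPrime ∧ (∀ u : R, algebraMap R A u ∈ q → algebraMap R A u ∈ q') ∧
      ∀ p : MvPolynomial (Fin 1) k, p ≠ 0 → aeval (fun _ => t) p ∉ q' := by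
  by_cases h : ∀ t ∈ T, IsAlgebraic k (Ideal.Quotient.mk ((q.under R).map (algebraMap R A)) t)
  · left
    have : Algebra.FiniteType R A := ⟨hT.toFinset, by simpa using htop⟩
    have : Algebra.IsIntegral R (A ⧸ (q.under R).map (algebraMap R A)) := ⟨fun x => by
      obtain ⟨y, rfl⟩ := Ideal.Quotient.mk_surjective x
      have hy : y ∈ Algebra.adjoin R T := htop ▸ Algebra.mem_top
      induction hy using Algebra.adjoin_induction with
      | mem t ht => exact (h t ht).isIntegral.tower_top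
      | algebraMap r => exact isIntegral_algebraMap (x := r)
      | add a b ha hb ia ib => exact ia.add ib
      | mul a b ha hb ia ib => exact ia.mul ib⟩
    have : Module.Finite R (A ⧸ (q.under R).map (algebraMap R A)) := Algebra.IsIntegral.finite
    exact Algebra.zariskisMainProperty_iff.1
      (Algebra.ZariskisMainProperty.of_finiteType_of_weaklyQuasiFiniteAt (R := R) q)
  · right
    simp only [not_forall] at h
    obtain ⟨t, ht, h⟩ := h
    have h1 : AlgebraicIndependent k fun _ : Fin 1 =>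
        Ideal.Quotient.mkₐ k ((q.under R).map (algebraMap R A)) t :=
      algebraicIndependent_unique_type_iff.2 h
    obtain ⟨q', hq, hIq, hdis⟩ := ((q.under R).map (algebraMap R A)).exists_le_prime_disjoint
      ((nonZeroDivisors (MvPolynomial (Fin 1) k)).map (aeval (R := k) fun _ : Fin 1 => t)) (by
        rw [Set.disjoint_left]
        rintro _ hx ⟨p, hp, rfl⟩
        refine nonZeroDivisors.ne_zero hp (algebraicIndependent_iff.1 h1 p ?_)
        rw [← comp_aeval_apply]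
        exact Ideal.Quotient.eq_zero_iff_mem.2 hx)
    exact ⟨t, ht, q', hq, fun u hu => hIq (Ideal.mem_map_of_mem _ hu), fun p hp hx =>
      Set.disjoint_left.1 hdis hx ⟨p, mem_nonZeroDivisors_of_ne_zero hp, rfl⟩⟩

theorem fin_case (hN : Nrm O) (hV : IsLocalRing V) (hd : Dom O V) (A : Subalgebra O M)
    (hA : ∀ x ∈ A, x ∈ V) {r : A} (hr : r ∉ ctr hV A hA) (h1 : IsIntegral O r)
    (h2 : ∀ x, ∃ m, IsIntegral O (r ^ m * x)) : ∀ t ∈ A, t ∈ O := by
  have hr1 : (r : M) ∈ O := hN _ (h1.map A.val)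
  have hr2 : IsU O (r : M) := hd.2 _ hr1 (isU_of_not_mx (hA _ r.2) hr)
  intro t ht
  obtain ⟨m, hm⟩ := h2 ⟨t, ht⟩
  have h3 : (r : M) ^ m * t ∈ O := hN _ (hm.map A.val)
  have h4 := (hr2.pow m).div_mem h3
  rwa [mul_div_cancel_left₀ _ (hr2.pow m).ne] at h4

theorem tr_case (hd : Dom O V) (A : Subalgebra O M) (t : A) (q : Ideal A) (hq : q.IsPrime)
    (hIq : ∀ u : O, (u : M) ∈ mx V → algebraMap O A u ∈ q)
    (hdis : ∀ p : MvPolynomial (Fin 1) k, p ≠ 0 → aeval (fun _ => t) p ∉ q) :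
    ∃ W : Subalgebra k M, IsVal W ∧ Dom O W ∧ (∀ x ∈ A, x ∈ W) ∧ Ind W ![(t : M)] := by
  obtain ⟨O', hO', hU⟩ := exists_loc (A.restrictScalars k) {x | ∃ hx : x ∈ A, (⟨x, hx⟩ : A) ∈ q}
    ⟨A.zero_mem, q.zero_mem⟩ (fun ⟨_, hx⟩ => hq.ne_top ((Ideal.eq_top_iff_one q).2 hx))
    (fun a _ b _ ⟨ha, ha'⟩ ⟨hb, hb'⟩ => ⟨A.add_mem ha hb, q.add_mem ha' hb'⟩)
    (fun a ha b hb => ⟨fun ⟨_, hx⟩ => (hq.mem_or_mem (x := ⟨a, ha⟩) (y := ⟨b, hb⟩) hx).imp
      (fun e => ⟨ha, e⟩) fun e => ⟨hb, e⟩, fun e => e.elim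
      (fun ⟨_, e⟩ => ⟨A.mul_mem ha hb, q.mul_mem_right (⟨b, hb⟩ : A) e⟩)
      fun ⟨_, e⟩ => ⟨A.mul_mem ha hb, q.mul_mem_left (⟨a, ha⟩ : A) e⟩⟩)
  obtain ⟨W, hW, hdW⟩ := exists_val hO'.1
  have hAO : ∀ x ∈ A, x ∈ O' := fun x hx => hO'.2.1 hx
  have hOA : ∀ u ∈ O, u ∈ A := fun u hu => A.algebraMap_mem ⟨u, hu⟩
  refine ⟨W, hW, ⟨fun u hu => hdW.1 (hAO u (hOA u hu)), fun u hu hu' => ?_⟩,
    fun x hx => hdW.1 (hAO x hx), fun i => ?_, fun p hp => ?_⟩
  · refine hd.2 u hu (isU_of_not_mx (hd.1 hu) fun hm => ?_)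
    exact (hU u (hOA u hu)).1 (hdW.2 u (hAO u (hOA u hu)) hu') ⟨hOA u hu, hIq ⟨u, hu⟩ hm⟩
  · rw [Subsingleton.elim i 0]
    exact hdW.1 (hAO _ t.2)
  · have e : aeval ![(t : M)] p = ((aeval (fun _ : Fin 1 => t) p : A) : M) := by
      have e1 : ![(t : M)] = fun _ : Fin 1 => (A.val.restrictScalars k) t := by
        funext i
        rw [Subsingleton.elim i 0]
        rfl
      rw [e1, ← comp_aeval_apply]
      rfl
    rw [e]
    exact ((hU _ (aeval (fun _ : Fin 1 => t) p : A).2).2 fun ⟨_, hx⟩ => hdis p hp hx).mono hdW.1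

end ResA

open ResA in
theorem res_stmt : ResStmt := by
  intro k M _ _ _ O S hO hN _ _ hS ⟨a0, ha0⟩ hne hP
  obtain ⟨V, hV, hd⟩ := exists_val hO
  obtain ⟨γ, hγ, j, hj, hu⟩ := hV.prin hS ⟨a0, ha0, hne a0 ha0⟩
  have hγ0 : γ ≠ 0 := fun e => hu.ne (by rw [e, div_zero])
  have hjV : ∀ a ∈ S, a / j ∈ V := fun a ha => by
    have := hu.div_mem (hγ a ha)
    rwa [div_div_div_cancel_right₀ hγ0] at this
  have hA : ∀ x ∈ Algebra.adjoin O ((· / j) '' S), x ∈ V := fun x hx => by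
    induction hx using Algebra.adjoin_induction with
    | mem t ht => obtain ⟨a, ha, rfl⟩ := ht; exact hjV a ha
    | algebraMap r => exact hd.1 r.2
    | add a b _ _ ia ib => exact V.add_mem ia ib
    | mul a b _ _ ia ib => exact V.mul_mem ia ib
  rcases dich k (ctr hV.isLocalRing _ hA) ((hS.image (· / j)).preimage Subtype.val_injective.injOn)
    Algebra.adjoin_adjoin_coe_preimage with ⟨r, hr, h1, h2⟩ | ⟨t, ⟨a, ha, e⟩, q, hq, h1, h2⟩
  · refine (hP ⟨j, fun a ha => fin_case hN hV.isLocalRing hd _ hA hr h1 h2 _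
      (Algebra.subset_adjoin ⟨a, ha, rfl⟩), j, hj, ?_⟩).elim
    rw [div_self (hne j hj)]
    exact isU_one
  · obtain ⟨W, w1, w2, w3, w4⟩ := tr_case hd _ t q hq h1 h2
    exact ⟨W, w1, w2, j, hj, fun b hb => w3 _ (Algebra.subset_adjoin ⟨b, hb, rfl⟩), a, ha,
      by rw [show a / j = (t : M) from e]; exact w4⟩

end Pool.Agent.MP_20d318_ag.CB

end MrgPart6

-- marker of a merged file
example : 731051 + 548233 = 731051 + 548233 := rfl
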