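import Pool.Agent.MP_20d318_ag.CB.XCls
import Pool.Agent.MP_20d318_ag.BV.XAlg

/-! Automorphisms of the surface lift to the threefold. -/

set_option autoImplicit false

namespace Pool.Agent.MP_20d318_ag.CB

open Pool.Agent.MP_79c67d_ag Pool.Agent.MP_20d318_ag.AG Pool.Agent.MP_20d318_ag.BV

namespace SigX

variable {k M K I κ : Type} [Field k] [Field M] [Field K] [Algebra k M] [Algebra k K] [Fintype I]
  [Fintype κ] {p : Pd k M I κ} {ι : M →ₐ[k] K} {l : k} {ζ w : K} {σ : M ≃ₐ[k] M}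
  {Φ : K ≃ₐ[k] K} {r : M} {O : Subalgebra k K}

open XAlg Polynomial in
theorem hom {t : M} (ht : t ≠ 0) (hr : r ≠ 0) (hσ : σ t = t * r ^ 2) (htr : Tr ι ζ)
    (hw : w ^ 2 = ι t * (ζ * (ζ - 1) * (ζ - algebraMap k K l)))
    (htop : IntermediateField.adjoin k (Set.range ι ∪ {ζ, w}) = ⊤) :
    ∃ Φ : K ≃ₐ[k] K, (∀ m, Φ (ι m) = ι (σ m)) ∧ Φ ζ = ζ ∧ Φ w = ι r * w := by
  have htr' : Tr (ι.comp (σ : M →ₐ[k] M)) ζ := fun p hp => by
    have h1 := htr (p.map (σ : M →+* M)) (by rw [eval₂_map]; exact hp)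
    exact (Polynomial.map_eq_zero_iff σ.injective).1 h1
  have hrg : Set.range (ι.comp (σ : M →ₐ[k] M)) = Set.range ι := σ.surjective.range_comp ι
  have hr' : ι r ≠ 0 := (map_ne_zero ι).2 hr
  obtain ⟨α, a1, a2⟩ := exists_equiv ι t l ζ w ht htr hw htop
  obtain ⟨β, b1, b2⟩ := exists_equiv (ι.comp (σ : M →ₐ[k] M)) t l ζ (ι r * w) ht htr'
    (by
      show _ = ι (σ t) * _
      rw [mul_pow, hw, hσ, map_mul, map_pow]
      ring)
    (by
      rw [hrg, eq_top_iff, ← htop, IntermediateField.adjoin_le_iff]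
      rintro a (ha | rfl | rfl)
      · exact IntermediateField.subset_adjoin _ _ (Or.inl ha)
      · exact IntermediateField.subset_adjoin _ _ (Or.inr (Or.inl rfl))
      · have h1 : ι r * a ∈ IntermediateField.adjoin k (Set.range ι ∪ {ζ, ι r * a}) :=
          IntermediateField.subset_adjoin _ _ (Or.inr (Or.inr rfl))
        have h2 : ι r ∈ IntermediateField.adjoin k (Set.range ι ∪ {ζ, ι r * a}) :=
          IntermediateField.subset_adjoin _ _ (Or.inl ⟨r, rfl⟩)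
        have h3 := div_mem h1 h2
        rwa [mul_div_cancel_left₀ _ hr'] at h3)
  refine ⟨α.symm.trans β, fun m => ?_, ?_, ?_⟩
  · rw [← ev_C ι ζ m, ← a1, AlgEquiv.trans_apply, α.symm_apply_apply, b1, ev_C]
    rfl
  · have h1 := a1 X
    have h2 := b1 X
    rw [ev_X] at h1 h2
    rw [AlgEquiv.trans_apply, α.symm_apply_eq.2 h1.symm, h2]
  · rw [AlgEquiv.trans_apply, α.symm_apply_eq.2 a2.symm, b2]

theorem sq_unit {R : Subalgebra k M} (hR : Nrm R) {u : M} (h : IsU R (u ^ 2)) : IsU R u := by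
  have key : ∀ v : M, v ^ 2 ∈ R → v ∈ R := fun v hv =>
    hR v (IsIntegral.of_pow two_pos (isIntegral_algebraMap (x := (⟨v ^ 2, hv⟩ : R))))
  exact ⟨fun e => h.1 (by rw [e]; ring), key _ h.mem, key _ (by rw [inv_pow]; exact h.inv_mem)⟩

variable (p ι ζ w σ Φ r) in
/-- A lift of `σ`. -/
structure Lf : Prop where
  h1 : ∀ m, Φ (ι m) = ι (σ m)
  h2 : Φ ζ = ζ
  h3 : Φ w = ι r * w
  ne : r ≠ 0
  sq : σ p.φ = p.φ * r ^ 2
  inv : Inv p.toSd σ
  st : ∀ i, ∀ O ∈ p.T, IsU O (σ (p.s i (O.comap (σ : M →ₐ[k] M))) / p.s i O)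

theorem cc {A : Type} [Field A] [Algebra k A] (e : A ≃ₐ[k] A) (R : Subalgebra k A) :
    (R.comap (e.symm : A →ₐ[k] A)).comap (e : A →ₐ[k] A) = R := by
  ext x; simp

omit [Fintype κ] in
theorem Lf.symm (h : Lf p ι ζ w σ Φ r) : Lf p ι ζ w σ.symm Φ.symm (σ.symm r)⁻¹ := by
  have h1 : ∀ m, Φ.symm (ι m) = ι (σ.symm m) := fun m => by
    rw [Φ.symm_apply_eq, h.h1, σ.apply_symm_apply]
  have h0 : σ.symm r ≠ 0 := (map_ne_zero _).2 h.ne
  have hi : Inv p.toSd σ.symm := fun O => by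
    rw [h.inv (O.comap _), cc]
  refine ⟨h1, Φ.symm_apply_eq.2 h.h2.symm, ?_, inv_ne_zero h0, ?_, hi, fun i O hO => ?_⟩
  · rw [Φ.symm_apply_eq, map_mul, h.h1, h.h3, map_inv₀, σ.apply_symm_apply, map_inv₀,
      inv_mul_cancel_left₀ ((map_ne_zero ι).2 h.ne)]
  · rw [σ.symm_apply_eq, map_mul, h.sq, map_pow, map_inv₀, σ.apply_symm_apply]
    have := h.ne
    field_simp
  · have h2 := (isU_comap (σ.symm : M →ₐ[k] M)).1 (h.st i _ ((hi O).1 hO)).inv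
    rw [cc, inv_div, map_div₀] at h2
    simpa using h2

theorem comap_comap (h1 : ∀ m, Φ (ι m) = ι (σ m)) :
    (O.comap (Φ : K →ₐ[k] K)).comap ι = (O.comap ι).comap (σ : M →ₐ[k] M) := by
  ext m
  show Φ (ι m) ∈ O ↔ ι (σ m) ∈ O
  rw [h1]

theorem zmem (h2 : Φ ζ = ζ) : ζ ∈ O.comap (Φ : K →ₐ[k] K) ↔ ζ ∈ O := by
  show Φ ζ ∈ O ↔ _
  rw [h2]

theorem eta_map (h2 : Φ ζ = ζ) : Φ (eta ζ (O.comap (Φ : K →ₐ[k] K))) = eta ζ O := by
  unfold eta
  by_cases hz : ζ ∈ O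
  · rw [if_pos hz, if_pos ((zmem h2).2 hz), map_one]
  · rw [if_neg hz, if_neg (mt (zmem h2).1 hz), h2]

theorem zc_map (h2 : Φ ζ = ζ) : Φ (zc ζ (O.comap (Φ : K →ₐ[k] K))) = zc ζ O := by
  unfold zc
  by_cases hz : ζ ∈ O
  · rw [if_pos hz, if_pos ((zmem h2).2 hz), h2]
  · rw [if_neg hz, if_neg (mt (zmem h2).1 hz), map_inv₀, h2]

theorem tau_map (h2 : Φ ζ = ζ) (j : Fin 4) :
    Φ (tau l ζ j (O.comap (Φ : K →ₐ[k] K))) = tau l ζ j O := by
  unfold tau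
  rw [map_div₀, eta_map h2]
  congr 1
  fin_cases j <;> simp [h2]

theorem dom_comap (h : XAll p ι l ζ w) (hL : Lf p ι ζ w σ Φ r) (hO : O ∈ XX p ι ζ w) :
    Dom ((pr ι p.T O).comap (σ : M →ₐ[k] M)) ((O.comap (Φ : K →ₐ[k] K)).comap ι) := by
  rw [comap_comap hL.h1]
  exact (h.loc.maps.dom hO).comap _

theorem pr_comap (h : XAll p ι l ζ w) (hL : Lf p ι ζ w σ Φ r) (hO : O ∈ XX p ι ζ w) :
    pr ι p.T (O.comap (Φ : K →ₐ[k] K)) = (pr ι p.T O).comap (σ : M →ₐ[k] M) :=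
  pr_eq h.t.all.a1.nice.toGood (isLocalRing_comap _ (mp_loc hO))
    ((hL.inv _).1 (h.loc.maps.mem hO)) (dom_comap h hL hO)

theorem up_unit (h : XAll p ι l ζ w) (hL : Lf p ι ζ w σ Φ r) (hO : O ∈ XX p ι ζ w)
    {f f' : Subalgebra k M → M}
    (hf : ∀ R ∈ p.T, IsU R (σ (f (R.comap (σ : M →ₐ[k] M))) / f' R)) :
    IsU O (Φ (up ι p.T f (O.comap (Φ : K →ₐ[k] K))) / up ι p.T f' O) := by
  unfold up
  rw [pr_comap h hL hO, hL.h1, ← map_div₀]
  exact h.loc.maps.isU_up hO (hf _ (h.loc.maps.mem hO))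

theorem jj_unit (h : Pair0 p) (hL : Lf p ι ζ w σ Φ r) {R : Subalgebra k M} (hR : R ∈ p.T) :
    IsU R (σ (p.φ * p.jj (R.comap (σ : M →ₐ[k] M))) / (r * (p.φ * p.jj R))) := by
  refine sq_unit (h.all.a1.nice.nrm R hR) ?_
  have u : IsU R (∏ i, σ (p.s i (R.comap (σ : M →ₐ[k] M))) / p.s i R) :=
    isU_prod fun i _ => hL.st i R hR
  rw [Finset.prod_div_distrib, ← map_prod, ← h.eqn _ hR, ← h.eqn _ ((hL.inv R).1 hR)] at u
  have h0 : p.jj R ≠ 0 := mul_ne_zero h.ωne ((h.all.a1.cart _).ne hR)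
  have h1 := h.φne
  have h2 := hL.ne
  convert u using 1
  simp only [map_mul, map_pow, hL.sq]
  field_simp

theorem aa_unit (h : XAll p ι l ζ w) (hL : Lf p ι ζ w σ Φ r) (hO : O ∈ XX p ι ζ w) :
    IsU O (AA p ι ζ w O / Φ (AA p ι ζ w (O.comap (Φ : K →ₐ[k] K)))) := by
  have u := up_unit h hL hO (f := fun R => p.φ * p.jj R) (f' := fun R => r * (p.φ * p.jj R))
    fun R hR => jj_unit h.t hL hR
  have hw := h.loc.wne
  have he := (h.loc.gZ O hO).ne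
  have hr : ι r ≠ 0 := (map_ne_zero ι).2 hL.ne
  have e : up ι p.T (fun R => r * (p.φ * p.jj R)) O = ι r * up ι p.T (fun R => p.φ * p.jj R) O :=
    map_mul ι _ _
  rw [e] at u
  have h1 := (div_ne_zero_iff.1 u.1).1
  have h2 := right_ne_zero_of_mul (div_ne_zero_iff.1 u.1).2
  convert u using 1
  unfold AA
  rw [map_div₀, map_mul, map_pow, eta_map hL.h2, hL.h3]
  field_simp

theorem prin (h : XAll p ι l ζ w) (hL : Lf p ι ζ w σ Φ r) (hO : O ∈ XX p ι ζ w)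
    (j : Option Bool) : Prin (famX p ι ζ w j) (O.comap (Φ : K →ₐ[k] K)) := by
  have hR := (hL.inv _).1 (h.loc.maps.mem hO)
  have hD := dom_comap h hL hO
  rcases j with _ | _ | _
  · exact ((h.t.all.s.gH _ hR).up ι hD.1).prin
  · have g := h.loc.gZ O hO
    have e : ({ζ, 1} : Set K) = (Φ : K →ₐ[k] K) '' {ζ, 1} := by
      simp [Set.image_insert_eq, hL.h2]
    rw [e, ← eta_map hL.h2] at g
    rw [← e] at g
    refine ((gn_map (Φ : K →ₐ[k] K)).1 ?_).prin (γ := eta ζ (O.comap (Φ : K →ₐ[k] K)))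
    show Gn ((Φ : K →ₐ[k] K) '' {ζ, 1}) O _
    rw [← e]
    exact g
  · have hu := aa_unit h hL hO
    have ha := h.loc.ane O hO
    have hb := (div_ne_zero_iff.1 hu.1).2
    refine h.loc.prin _ (isLocalRing_comap _ (mp_loc hO)) ⟨_, hR, hD⟩ ?_ ?_
    · rcases h.loc.aa O hO with h1 | h1
      · left
        have := O.mul_mem hu.inv_mem h1
        rwa [inv_div, div_mul_cancel₀ _ ha] at this
      · right
        have := O.mul_mem hu.mem h1
        rw [div_mul_eq_mul_div, mul_inv_cancel₀ ha, one_div, ← map_inv₀] at this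
        exact this
    · show Φ _ ∈ O
      rw [zc_map hL.h2]
      exact h.loc.zm O hO

theorem mem (h : XAll p ι l ζ w) (hL : Lf p ι ζ w σ Φ r) (hO : O ∈ XX p ι ζ w) :
    O.comap (Φ : K →ₐ[k] K) ∈ XX p ι ζ w := by
  refine (mp_comap Φ).1 (B1.mp_sub h.loc.fam (fun O hO j => ?_) (fun O hO j => ?_) hO)
  · obtain ⟨g, hg⟩ := prin h hL hO j
    exact ((gn_map (Φ : K →ₐ[k] K)).2 hg).prin
  · have := prin h hL.symm ((mp_comap Φ).1 hO) j
    rwa [show (O.comap (Φ : K →ₐ[k] K)).comap (Φ.symm : K →ₐ[k] K) = O from cc Φ.symm O] at this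

theorem ee_unit (h : XAll p ι l ζ w) (hL : Lf p ι ζ w σ Φ r) (hO : O ∈ XX p ι ζ w) (i : κ)
    (j : Fin 4) :
    IsU O (Φ (EE p ι l ζ i j (O.comap (Φ : K →ₐ[k] K))) / EE p ι l ζ i j O) := by
  have g1 := (gn_map (Φ : K →ₐ[k] K)).2 (h.div.gE _ (mem h hL hO) i j)
  rw [Set.image_pair] at g1
  have u1 : IsU O (Φ (sX p ι i (O.comap (Φ : K →ₐ[k] K))) / sX p ι i O) :=
    up_unit h hL hO (hL.st i)
  have u2 : IsU O (tau l ζ j O / Φ (tau l ζ j (O.comap (Φ : K →ₐ[k] K)))) := by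
    rw [tau_map hL.h2, div_self (h.loc.tne O j)]
    exact isU_one
  have u3 : IsU O (sX p ι i O / Φ (sX p ι i (O.comap (Φ : K →ₐ[k] K)))) := by
    simpa using u1.inv
  exact (g1.pair_unit u3 u2).unit (h.div.gE _ hO i j)

end SigX

open SigX in
theorem sigX_stmt : SigXStmt := by
  intro k M K I κ _ _ _ _ _ _ _ _ _ p ι l ζ w σ ρ h hS
  obtain ⟨r, hr, hsq⟩ := hS.sq
  obtain ⟨Φ, h1, h2, h3⟩ := hom h.t.φne hr hsq h.ext.tr h.ext.eq h.ext.top
  have hL : Lf p ι ζ w σ Φ r := ⟨h1, h2, h3, hr, hsq, hS.inv, hS.st⟩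
  have hg : ∀ O, O ∈ XX p ι ζ w ↔ O.comap (Φ : K →ₐ[k] K) ∈ XX p ι ζ w := fun O =>
    ⟨mem h hL, fun hO => by
      have := mem h hL.symm hO
      rwa [show (O.comap (Φ : K →ₐ[k] K)).comap (Φ.symm : K →ₐ[k] K) = O from cc Φ.symm O]
        at this⟩
  refine ⟨⟨Φ, hg⟩, fun D ν => ?_⟩
  have hX := h.loc.fine.toGood
  obtain ⟨μ, hμ, hu⟩ := hS.rep D.1
  have hμ' : ι μ ≠ 0 := (map_ne_zero ι).2 hμ
  rw [← h.div.degW, ← h.div.degW, Curve.deg_push, ← deg_cmul hX (h.div.cartW (actW ρ D)) hμ']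
  refine deg_congr hX ((h.div.cartW D).pull _ fun O => (hg O).1)
    ((isCart_const hμ').mul (h.div.cartW _)) (fun O hO => ?_) ν
  have u1 := up_unit h hL hO (f' := fun R => μ * p.lb (act ρ D.1) R) hu
  have e : up ι p.T (fun R => μ * p.lb (act ρ D.1) R) O =
      ι μ * up ι p.T (p.lb (act ρ D.1)) O := map_mul ι _ _
  rw [e] at u1
  have u2 : IsU O (∏ i, ∏ j, (Φ (EE p ι l ζ i j (O.comap (Φ : K →ₐ[k] K))) /
      EE p ι l ζ i j O) ^ (-D.2.2 i j)) :=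
    isU_prod fun i _ => isU_prod fun j _ => (ee_unit h hL hO i j).zpow _
  have he := zpow_ne_zero (-D.2.1) (h.loc.gZ O hO).ne
  convert u1.mul u2 using 1
  show Φ (lbW p ι l ζ D (O.comap (Φ : K →ₐ[k] K))) / (ι μ * lbW p ι l ζ (actW ρ D) O) = _
  simp only [lbW, actW, map_mul, map_prod, map_zpow₀, eta_map h2, div_zpow,
    Finset.prod_div_distrib]
  rw [div_mul_div_comm, mul_right_comm, ← mul_assoc, ← mul_assoc, mul_right_comm _ (eta ζ O ^ _),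
    mul_div_mul_right _ _ he]

end Pool.Agent.MP_20d318_ag.CB
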