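import Pool.Agent.MP_20d318_ag.CB.XCls
import Pool.Agent.MP_20d318_ag.BV.XPl
import Pool.Agent.MP_20d318_ag.BV.Glue
import Mathlib.FieldTheory.Galois.Basic
import Pool.Agent.MP_20d318_ag.BV.XAlg
import Pool.Agent.MP_20d318_ag.BV.Etn
import Pool.Agent.MP_20d318_ag.CB.Ct
import Pool.Agent.MP_20d318_ag.CB.LcB
import Pool.Agent.MP_20d318_ag.CB.EndB1
import Pool.Agent.MP_20d318_ag.CB.Res
import Pool.Agent.MP_20d318_ag.CB.P2B
import Pool.Agent.MP_20d318_ag.CB.SigX
import Pool.Agent.MP_20d318_ag.CB.XDiv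

-- ======== part 0: formerly Pool.Agent.MP_20d318_ag.CB.A1
section MrgPart0

/-! Points, prime divisors and curves of the surface. -/

set_option autoImplicit false

namespace Pool.Agent.MP_20d318_ag.CB

open Pool.Agent.MP_79c67d_ag Pool.Agent.MP_20d318_ag.AG Pool.Agent.MP_20d318_ag.BV MvPolynomial
open Pool.Agent.MP_20d318_ag.RS (jac)
open scoped IntermediateField

namespace A1R

variable {k M L : Type} [Field k] [Field M] [Field L] [Algebra k M] [Algebra k L]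
  {X : Set (Subalgebra k M)} {O : Subalgebra k M}

theorem ev_adjoin (ρ : O →ₐ[k] L) {G : Set M} (hG : G ⊆ O) {a : M}
    (ha : a ∈ Algebra.adjoin k G) : evO O ρ a ∈ Algebra.adjoin k (evO O ρ '' G) := by
  have hle : Algebra.adjoin k G ≤ O := Algebra.adjoin_le hG
  induction ha using Algebra.adjoin_induction with
  | mem x hx => exact Algebra.subset_adjoin ⟨x, hx, rfl⟩
  | algebraMap c => rw [evO_const]; exact Subalgebra.algebraMap_mem _ c
  | add x y hx hy h1 h2 => rw [evO_add ρ (hle hx) (hle hy)]; exact add_mem h1 h2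
  | mul x y hx hy h1 h2 => rw [evO_mul ρ (hle hx) (hle hy)]; exact mul_mem h1 h2

variable [CharZero k] [IsAlgClosed k]

omit [CharZero k] in
theorem tr_ev {ρ : O →ₐ[k] L} (hρ : LocHom O ρ) {a : M} (ha : a ∈ O)
    (h : ∀ c : k, a - algebraMap k M c ∉ mx O) : Transcendental k (evO O ρ a) :=
  transcendental_iff_ne.2 fun c hc => h c
    ((hρ.eq_zero_iff (O.sub_mem ha (O.algebraMap_mem c))).1
      (by rw [evO_sub _ ha (O.algebraMap_mem c), evO_const, hc, sub_self]))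

omit [CharZero k] [IsAlgClosed k] in
theorem ex_tr (h : ¬RatPt O) : ∃ a ∈ O, ∀ c : k, a - algebraMap k M c ∉ mx O := by
  by_contra m
  exact h fun a ha => by_contra fun m' => m ⟨a, ha, not_exists.1 m'⟩

omit [CharZero k] in
/-- The curve whose function field is the residue field. -/
theorem cur (hX : Good X) (ν : Curve X) (h : ¬RatPt ν.gen) :
    ∃ ν' : Curve X, ν'.gen = ν.gen ∧ nu ν' = 1 ∧ ∀ z : ν'.L, ∃ a ∈ ν.gen, ν'.ev a = z := by
  have := ν.locHom.isLocalRing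
  have hρ := resid_loc (O := ν.gen)
  have hs : ∀ z, ∃ a ∈ ν.gen, evO ν.gen (resid ν.gen) a = z := fun z => by
    obtain ⟨b, rfl⟩ := resid_surj z
    exact ⟨b, b.2, evO_coe _ b⟩
  have : IsFF k (IsLocalRing.ResidueField ν.gen) := by
    constructor
    · obtain ⟨G, hG, hp, -⟩ := hX.fg _ ν.gen_mem
      have hGO : G ⊆ ν.gen := fun g hg => hp.2.1 (Algebra.subset_adjoin hg)
      rw [Algebra.essFiniteType_iff]
      refine ⟨(hG.image (evO _ (resid ν.gen))).toFinset, fun s => ?_⟩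
      obtain ⟨f, hf, rfl⟩ := hs s
      obtain ⟨a, ha, b, hb, hu, rfl⟩ := hp.2.2 f hf
      rw [Set.Finite.coe_toFinset]
      refine ⟨_, ev_adjoin _ hGO hb, (evO_ne _ hu).isUnit, ?_⟩
      rw [evO_div _ (hp.2.1 ha) hu, div_mul_cancel₀ _ (evO_ne _ hu)]
      exact ev_adjoin _ hGO ha
    · obtain ⟨ι, -⟩ := ν.locHom.factor
      obtain ⟨a, ha, h1⟩ := ex_tr h
      have : Algebra.Transcendental k (IsLocalRing.ResidueField ν.gen) := ⟨_, tr_ev hρ ha h1⟩
      exact le_antisymm ((trdeg_le_of_injective ι ι.injective).trans ν.ff.tr.le)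
        (Cardinal.one_le_iff_pos.2 (trdeg_pos _ _))
  refine ⟨hX.curve ν.gen_mem _ hρ, rfl, ?_, hs⟩
  have e : evO ν.gen (resid ν.gen) '' ν.gen = Set.univ := Set.eq_univ_of_forall hs
  change Module.finrank (IntermediateField.adjoin k (evO ν.gen (resid ν.gen) '' ν.gen))
    (IsLocalRing.ResidueField ν.gen) = 1
  rw [e, IntermediateField.adjoin_univ, IntermediateField.finrank_top]

theorem nupos (ν : Curve X) (h : ¬RatPt ν.gen) : 0 < nu ν := by
  obtain ⟨a, ha, h1⟩ := ex_tr h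
  have := finDim_adjoin (ev_transcendental ν ha h1)
  refine Nat.pos_of_dvd_of_pos (IntermediateField.finrank_dvd_of_le_left (F := k⟮ν.ev a⟯) ?_)
    Module.finrank_pos
  exact IntermediateField.adjoin.mono _ _ _ (Set.singleton_subset_iff.2 ⟨a, ha, rfl⟩)

/-- Every specialization of the generic point lies on the curve. -/
theorem pt (hX : Good X) (ν : Curve X) (hO : O ∈ X) (hle : O ≤ ν.gen) (hne : O ≠ ν.gen) :
    ∃ Q, ν.pt Q = O := by
  have hl := hX.loc O hO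
  obtain ⟨W, hW⟩ : ∃ W : Subalgebra k ν.L, ∀ y, y ∈ W ↔ ∃ u ∈ O, ν.ev u = y :=
    ⟨(ν.ρ.comp (Subalgebra.inclusion hle)).range, fun y =>
      ⟨fun ⟨u, hu⟩ => ⟨u, u.2, (evO_of_mem _ (hle u.2)).trans hu⟩,
        fun ⟨u, hu, e⟩ => ⟨⟨u, hu⟩, (evO_of_mem _ (hle hu)).symm.trans e⟩⟩⟩
  have hU : ∀ u ∈ O, IsU W (ν.ev u) → IsU O u := fun u hu h => by
    obtain ⟨w, hw, e⟩ := (hW _).1 h.2.2
    have h1 : u * w - algebraMap k M 1 ∈ mx ν.gen :=
      (ev_eq_zero ν (sub_mem (hle (mul_mem hu hw)) (algebraMap_mem _ _))).1 (by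
        rw [ev_sub_const ν (hle (mul_mem hu hw)), ev_mul ν (hle hu) (hle hw), e,
          mul_inv_cancel₀ h.1, map_one, sub_self])
    have h2 := isU_one.add_mx hl (mx_of_le hle (sub_mem (mul_mem hu hw) (algebraMap_mem _ _)) h1)
    rw [map_one, add_sub_cancel] at h2
    exact IsU.of_mul hu hw h2
  have hM : ∀ u ∈ mx O, ν.ev u ∈ mx W := fun u hu =>
    ⟨(hW _).2 ⟨u, hu.1, rfl⟩, fun h => hu.2 (hU u hu.1 h)⟩
  have hM' : ∀ y ∈ mx W, ∃ u ∈ mx O, ν.ev u = y := fun y hy => by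
    obtain ⟨u, hu, rfl⟩ := (hW y).1 hy.1
    exact ⟨u, ⟨hu, fun h => hy.2 ⟨evO_ne _ (h.mono hle), hy.1,
      (hW _).2 ⟨u⁻¹, h.2.2, evO_inv _ (h.mono hle)⟩⟩⟩, rfl⟩
  obtain ⟨V, hV, hd⟩ := exists_val (W := W) (isLocalRing_of fun a ha b hb => by
    obtain ⟨u, hu, rfl⟩ := hM' a ha
    obtain ⟨w, hw, rfl⟩ := hM' b hb
    exact evO_add ν.ρ (hle hu.1) (hle hw.1) ▸ hM _ (mx_add hl hu hw))
  obtain ⟨Q, hQ⟩ := exists_place hV.vs (fun e => by
    have t : ∀ y, y ∈ V := fun y => (e ▸ ValuationSubring.mem_top y : y ∈ hV.vs)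
    exact hne (hX.sep O hO _ ν.gen_mem _ ν.locHom.isLocalRing ⟨hle, fun u hu h => hU u hu
      (hd.2 _ ((hW _).2 ⟨u, hu, rfl⟩) ⟨evO_ne _ h, t _, t _⟩)⟩ (Dom.refl _))) V.algebraMap_mem
  have e : plO Q = V := SetLike.ext fun f => (mem_plO' Q).trans (hQ f)
  subst e
  exact ⟨Q, hX.pt_eq ν Q hO ⟨fun u hu => mem_preO.2 ⟨hle hu, hd.1 ((hW _).2 ⟨u, hu, rfl⟩)⟩,
    fun u hu h => hU u hu (hd.2 _ ((hW _).2 ⟨u, hu, rfl⟩)
      ((isU_plO Q).2 ((isU_preO ν.locHom).1 h).2))⟩⟩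

/-- An effective divisor that meets the curve in a point has positive degree. -/
theorem deg_pos (hX : Good X) {f : Subalgebra k M → M} (hf : IsCart X f) (he : ∀ O ∈ X, f O ∈ O)
    (ν : Curve X) (h : IsU ν.gen (f ν.gen)) {Q : Place k ν.L} (hQ : ¬IsU (ν.pt Q) (f (ν.pt Q))) :
    0 < ν.deg f := by
  have h0 : ∀ P : Place k ν.L, IsU ν.gen (f (ν.pt P) / f ν.gen) := fun P =>
    hf.unit (ν.pt_mem P) ν.gen_mem (ν.pt_le P)
  have h1 : ∀ P : Place k ν.L, ν.ev (f (ν.pt P)) =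
      ν.ev (f (ν.pt P) / f ν.gen) * ν.ev (f ν.gen) := fun P => by
    rw [← ev_mul ν (h0 P).mem h.mem, div_mul_cancel₀ _ h.1]
  have h2 : ∀ P : Place k ν.L, 0 ≤ P.ord (ν.ev (f (ν.pt P))) := fun P =>
    FF.ord_nonneg (ν.v_le P (he _ (ν.pt_mem P)))
  rw [deg_of_unit hX hf ν h]
  refine finsum_pos h2 ⟨Q, (h2 Q).lt_of_ne' fun m => hQ ?_⟩
    (((hf.finite hX ν).union (FF.finite_ord (ν.ev (f ν.gen)))).subset fun P hP => ?_)
  · refine (ν.v_eq_one_iff Q (he _ (ν.pt_mem Q))).1 ((FF.v_eq_one_iff Q ?_).2 m)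
    rw [h1]
    exact mul_ne_zero (evO_ne _ (h0 Q)) (evO_ne _ h)
  · by_contra m
    simp only [Set.mem_union, Function.mem_support, not_or, not_not] at m
    refine hP ?_
    beta_reduce
    rw [h1]
    exact (P.ord_mul (evO_ne _ (h0 P)) (evO_ne _ h)).trans
      ((congrArg₂ (· + ·) m.1 m.2).trans (add_zero 0))

end A1R

open A1R

theorem a1_stmt : A1Stmt := by
  intro hP hC k M I _ _ _ _ _ _ S hS
  have chart : ∀ O ∈ S.T, ∃ a b, Cht O a b := fun O hO => by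
    obtain ⟨_, h⟩ := hS.can 0 0
    obtain ⟨a, b, _, h1, -⟩ := h O hO
    exact ⟨a, b, h1⟩
  have nice : Nice S.T := ⟨fine_mp hS.fam, fun O hO => by
    obtain ⟨a, b, h1, h2⟩ := chart O hO
    exact nrmLoc_stmt k M _ O (hP k M a b h1).nrm h2.2.1 h2.2.2⟩
  have good : Good S.T := nice.toFine.toGood
  have gne : ∀ O ∈ S.T, ∀ i, S.g i O ≠ 0 := fun O hO i => (hS.cartg i).ne hO
  have cart : ∀ c, IsCart S.T (S.lb c) := S.lb_cart hS.cartg
  have tri : ∀ O ∈ S.T, O = ⊤ ∨ RatPt O ∨ ∃ P : Place k M, plO P = O := fun O hO => by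
    obtain ⟨a, b, h1, h2⟩ := chart O hO
    exact (hP k M a b h1).tri O h2
  have dim : ∀ P : Place k M, plO P ∈ S.T → ¬ RatPt (plO P) ∧ Dim (plO P) 1 := fun P h => by
    obtain ⟨a, b, h1, h2⟩ := chart _ h
    exact (hP k M a b h1).dim P h2
  have pcart : ∀ c φ, φ ≠ 0 → IsCart S.T fun O => φ * S.lb c O := fun c φ h =>
    (isCart_const h).mul (cart c)
  have pmem : ∀ c φ P, S.Prm c φ P → φ ∈ S.Sec c := fun c φ P h R hR =>
    nice.eff (pcart c φ h.1) hR fun P' hP' _ => by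
      rw [h.2.2 P' hP']
      split_ifs <;> norm_num
  have cu : ∀ P : Place k M, plO P ∈ S.T → ∃ ν : Curve S.T, ν.gen = plO P ∧ nu ν = 1 ∧
      ∀ z : ν.L, ∃ a ∈ plO P, ν.ev a = z := fun P h => by
    obtain ⟨ν, e⟩ := hC k M S.T good _ h (dim P h).2
      fun m => (dim P h).1 ((rat_iff (good.loc _ h)).2 m)
    exact e ▸ cur good ν (e ▸ (dim P h).1)
  have cases : ∀ ν : Curve S.T, RatPt ν.gen ∨ ∃ P : Place k M, ν.gen = plO P := fun ν => by
    obtain ⟨a, b, h1, -⟩ := chart _ ν.gen_mem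
    exact ((tri _ ν.gen_mem).resolve_left fun e => h1.not_dim (e ▸ curve_dim ν)).imp_right
      fun h => h.imp fun _ => Eq.symm
  have d1 : ∀ c φ P, S.Prm c φ P → ∀ ν : Curve S.T, ν.gen = plO P → ∀ c',
      ν.deg (S.lb c') = ip S.B c' (nu ν • c) := fun c φ P h ν e c' => by
    rw [hS.deg c φ P h ν e, ip_nsmul_right]
  have d0 : ∀ ν : Curve S.T, RatPt ν.gen → ∀ c, ν.deg (S.lb c) = ip S.B c 0 := fun ν h c => by
    rw [deg_rat (cart c) ν h, ip_zero_right]
  have zzd : ∀ (ν : Curve S.T) c, ν.deg (S.lb c) = ip S.B c (S.zz ν) := fun ν =>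
    Classical.epsilon_spec (p := fun z => ∀ c, ν.deg (S.lb c) = ip S.B c z) (by
      rcases cases ν with h | ⟨P, h⟩
      · exact ⟨_, d0 ν h⟩
      · obtain ⟨c, φ, h1⟩ := hS.all P (h ▸ ν.gen_mem)
        exact ⟨_, d1 c φ P h1 ν h⟩)
  have zu : ∀ (ν : Curve S.T) z, (∀ c, ν.deg (S.lb c) = ip S.B c z) → S.zz ν = z := fun ν z h =>
    sub_eq_zero.1 (hS.span _ fun c _ => by
      rw [ip_comm hS.sym, ip_sub_right, ← zzd, ← h, sub_self])
  have dc : ∀ c φ P, S.Prm c φ P → ∃ ν : Curve S.T, ν.gen = plO P ∧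
      ∀ c', ν.deg (S.lb c') = ip S.B c' c := fun c φ P h => by
    obtain ⟨ν, h1, h2, -⟩ := cu P h.2.1
    exact ⟨ν, h1, fun c' => by rw [d1 c φ P h ν h1, h2, one_smul]⟩
  have zero : ∀ c φ, (∀ O ∈ S.T, IsU O (φ * S.lb c O)) → c = 0 := fun c φ h =>
    hS.span c fun c' ⟨φ', P, h1⟩ => by
      obtain ⟨ν, -, h2⟩ := dc c' φ' P h1
      have h0 : φ ≠ 0 := left_ne_zero_of_mul (h _ ν.gen_mem).1
      rw [← h2, ← deg_cmul good (cart c) h0, deg_eq_zero good (pcart c φ h0) h]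
  refine ⟨nice, gne, cart, chart, fun O hO h => ?_, tri, dim, fun P h a ha => ?_, pcart, pmem,
    fun c φ P h R hR => ?_, fun c φ P h P' hP' hm => ?_, cu,
    fun ν P e => nupos ν (e ▸ (dim P (e ▸ ν.gen_mem)).1), cases, fun ν O => pt good ν, zzd,
    fun ν h => zu ν _ (d0 ν h), fun c φ P h ν e => zu ν _ (d1 c φ P h ν e), zero,
    fun c c' φ φ' P h h' => sub_eq_zero.1 (zero _ (φ / φ') fun O hO => ?_), ?_⟩
  · obtain ⟨a, b, h1, h2⟩ := chart O hO
    obtain ⟨α, hα⟩ := h a (h2.2.1 (Algebra.subset_adjoin (by simp)))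
    obtain ⟨β, hβ⟩ := h b (h2.2.1 (Algebra.subset_adjoin (by simp)))
    have key : ({a, b} : Set M) ⊆
        Algebra.adjoin k {a - algebraMap k M α, b - algebraMap k M β} := by
      have k1 : ∀ (R : Subalgebra k M) (z : M) (c : k), z - algebraMap k M c ∈ R → z ∈ R :=
        fun R z c m => by simpa using R.add_mem m (R.algebraMap_mem c)
      rintro _ (rfl | rfl)
      · exact k1 _ _ α (Algebra.subset_adjoin (by simp))
      · exact k1 _ _ β (Algebra.subset_adjoin (by simp))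
    refine ⟨_, hα, _, hβ, (hP k M a b h1).top _ _ (top_unique (h1.top ▸
      IntermediateField.adjoin_le_iff.2 (key.trans (IntermediateField.algebra_adjoin_le_adjoin _ _)))),
      Pts_of_le h2 (Algebra.adjoin_le key) (Algebra.adjoin_le ?_)⟩
    rintro _ (rfl | rfl)
    exacts [hα.1, hβ.1]
  · have := good.loc _ h
    refine or_iff_not_imp_right.2 fun m => (B2.ind_iff resid_loc (by simpa using ha)).2 ?_
    exact (algebraicIndependent_unique_type_iff (ι := Fin 1)).2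
      (tr_ev resid_loc ha (not_exists.1 m))
  · refine ⟨fun hm => by_contra fun hn => hm.2 (nice.unit (pcart c φ h.1) hR
      fun P' hP' hle => ?_), fun hle => ⟨pmem c φ P h R hR, fun hu => ?_⟩⟩
    · rw [h.2.2 P' hP', if_neg]
      rintro rfl
      exact hn hle
    · have h1 := ((isU_plO' P).1 (hu.mono hle)).2
      have h2 := B2.ord_eq (pcart c φ h.1) hR h.2.1 hle
      have h3 := h.2.2 P h.2.1
      rw [if_pos rfl] at h3
      omega
  · by_contra hn
    have h1 := (mx_plO ((pcart c φ h.1).ne hP')).1 hm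
    rw [h.2.2 P' hP', if_neg hn] at h1
    exact lt_irrefl _ h1
  · rw [S.lb_sub (gne O hO), div_mul_div_comm]
    exact nice.unit_div (pcart c φ h.1) (pcart c' φ' h'.1) hO fun P' m =>
      (h.2.2 P' m).trans (h'.2.2 P' m).symm
  · rintro c ⟨φ, P, h⟩
    obtain ⟨ν, h1, h2⟩ := dc c φ P h
    obtain ⟨j, hj, h3⟩ := ν.gen_mem
    have j0 := hS.fam.nz () _ (hj ())
    obtain ⟨a, ha, h4⟩ : ∃ a ∈ S.H, ∀ c : k, a / j () - algebraMap k M c ∉ mx ν.gen := by
      by_contra m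
      refine (dim P h.2.1).1 (h1 ▸ ratPt_of h3 rfl fun g hg => ?_)
      obtain ⟨⟨⟩, a, ha, rfl⟩ := Set.mem_iUnion.1 hg
      exact by_contra fun m' => m ⟨a, ha, not_exists.1 m'⟩
    have h5 := cht_le.1 h3.2.1 ()
    obtain ⟨Q, hQ⟩ := exists_place_pos
      (fun m => ev_transcendental ν (h5 a ha) h4 (IsAlgebraic.inv_iff.1 m))
    have h6 : ∀ O ∈ S.T, ∀ b ∈ S.H, b * S.lb S.h O ∈ O := fun O hO b hb => by
      simpa using (hS.gH O hO).1 b hb
    rw [← h2, ← deg_cmul good (cart _) j0]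
    refine deg_pos good (pcart _ _ j0) (fun O hO => h6 O hO _ (hj ())) ν ?_ (Q := Q) fun m => ?_
    · simpa using (gn_of_mem (hj ()) j0 h5).unit (hS.gH _ ν.gen_mem)
    · have h7 := m.div_mem (h6 _ (ν.pt_mem Q) a ha)
      rw [mul_div_mul_right _ _ ((cart _).ne (ν.pt_mem Q))] at h7
      have h8 := FF.ord_nonneg (ν.v_le Q h7)
      rw [Q.ord_inv] at hQ
      omega

end Pool.Agent.MP_20d318_ag.CB

end MrgPart0

-- ======== part 1: formerly Pool.Agent.MP_20d318_ag.CB.A2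
section MrgPart1

/-! Divisors and their classes on a surface with a basis of its Picard group. -/

set_option autoImplicit false
set_option linter.unusedSectionVars false

namespace Pool.Agent.MP_20d318_ag.CB

open Pool.Agent.MP_79c67d_ag Pool.Agent.MP_20d318_ag.AG Pool.Agent.MP_20d318_ag.BV MvPolynomial
open Pool.Agent.MP_20d318_ag.RS (jac)
open scoped IntermediateField

namespace A2x

variable {k M I : Type} [Field k] [CharZero k] [IsAlgClosed k] [Field M] [Algebra k M] [Fintype I]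
  {S : Sd k M I}

theorem cl_spec (h0 : Surf0 S) (P : Place k M) (hP : plO P ∈ S.T) : ∃ φ, S.Prm (S.cl P) φ P :=
  Classical.epsilon_spec (p := fun c => ∃ φ, S.Prm c φ P) (h0.all P hP)

theorem cl_eq (h0 : Surf0 S) (h1 : A1 S) {c : I → ℤ} {φ : M} {P : Place k M} (h : S.Prm c φ P) :
    S.cl P = c := by
  obtain ⟨φ', h'⟩ := cl_spec h0 P h.2.1
  exact h1.uniq _ _ _ _ _ h' h

open Classical in
/-- A divisor with prescribed multiplicities. -/
theorem exists_div (h0 : Surf0 S) (h1 : A1 S) (s : Finset (Place k M))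
    (hs : ∀ P ∈ s, plO P ∈ S.T) (n : Place k M → ℤ) : ∃ φ : M, φ ≠ 0 ∧
      ∀ P' : Place k M, plO P' ∈ S.T →
        P'.ord (φ * S.lb (∑ P ∈ s, n P • S.cl P) (plO P')) = if P' ∈ s then n P' else 0 := by
  choose! ψ hψ using cl_spec h0
  refine ⟨∏ P ∈ s, ψ P ^ n P,
    Finset.prod_ne_zero_iff.2 fun P hP => zpow_ne_zero _ (hψ P (hs P hP)).1, fun P' hP' => ?_⟩
  have hg := h1.gne _ hP'
  have e : (∏ P ∈ s, ψ P ^ n P) * S.lb (∑ P ∈ s, n P • S.cl P) (plO P') =
      ∏ P ∈ s, (ψ P * S.lb (S.cl P) (plO P')) ^ n P := by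
    rw [S.lb_sum hg, ← Finset.prod_mul_distrib]
    exact Finset.prod_congr rfl fun P _ => by rw [S.lb_zsmul, mul_zpow]
  rw [e, P'.ord_prod _ _ fun P hP =>
    zpow_ne_zero _ (mul_ne_zero (hψ P (hs P hP)).1 (S.lb_ne hg _)),
    Finset.sum_congr rfl (g := fun P => if P' = P then n P else 0) fun P hP => by
      rw [P'.ord_zpow, (hψ P (hs P hP)).2.2 P' hP']
      split_ifs <;> simp,
    Finset.sum_ite_eq]

/-- Every Cartier divisor is the sum of its components. -/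
theorem exists_unit (h0 : Surf0 S) (h1 : A1 S) {f : Subalgebra k M → M} (hf : IsCart S.T f)
    (s : Finset (Place k M)) (hs : ∀ P ∈ s, plO P ∈ S.T)
    (h : ∀ P : Place k M, plO P ∈ S.T → P ∉ s → P.ord (f (plO P)) = 0) : ∃ φ : M, φ ≠ 0 ∧
      ∀ O ∈ S.T, IsU O (φ * S.lb (∑ P ∈ s, P.ord (f (plO P)) • S.cl P) O / f O) := by
  obtain ⟨φ, hφ, h2⟩ := exists_div h0 h1 s hs fun P => P.ord (f (plO P))
  refine ⟨φ, hφ, fun O hO => h1.nice.unit_div (h1.pcart _ φ hφ) hf hO fun P hP => ?_⟩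
  rw [h2 P hP]
  split_ifs with hP'
  · rfl
  · exact (h P hP hP').symm

theorem dv (h0 : Surf0 S) (h1 : A1 S) (c : I → ℤ) (φ : M) (s : Finset (Place k M)) (hφ : φ ≠ 0)
    (hs : ∀ P ∈ s, plO P ∈ S.T)
    (h : ∀ P : Place k M, plO P ∈ S.T → P ∉ s → P.ord (φ * S.lb c (plO P)) = 0) :
    c = ∑ P ∈ s, P.ord (φ * S.lb c (plO P)) • S.cl P := by
  obtain ⟨ψ, -, h2⟩ := exists_unit h0 h1 (h1.pcart c φ hφ) s hs h
  refine (sub_eq_zero.1 (h1.zero _ (ψ / φ) fun O hO => ?_)).symm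
  rw [S.lb_sub (h1.gne O hO), div_mul_div_comm]
  exact h2 O hO

theorem pic (h0 : Surf0 S) (h1 : A1 S) (f : Subalgebra k M → M) (hf : IsCart S.T f) :
    ∃ c φ, φ ≠ 0 ∧ ∀ O ∈ S.T, IsU O (φ * S.lb c O / f O) := by
  have hfin := h1.nice.toFine.fin_cart hf
  obtain ⟨φ, hφ⟩ := exists_unit h0 h1 hf hfin.toFinset (fun P hP => (hfin.mem_toFinset.1 hP).1)
    fun P hP hn => by_contra fun h => hn (hfin.mem_toFinset.2 ⟨hP, h⟩)
  exact ⟨_, φ, hφ⟩

theorem eff1 (h0 : Surf0 S) (h1 : A1 S) (c : I → ℤ) (φ : M) (hm : φ ∈ S.Sec c) (hφ : φ ≠ 0) :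
    c ∈ S.Ef := by
  have hfin := h1.nice.toFine.fin_cart (h1.pcart c φ hφ)
  rw [dv h0 h1 c φ hfin.toFinset hφ (fun P hP => (hfin.mem_toFinset.1 hP).1)
    fun P hP hn => by_contra fun h => hn (hfin.mem_toFinset.2 ⟨hP, h⟩)]
  refine AddSubmonoid.sum_mem _ fun P hP => ?_
  have hP' := (hfin.mem_toFinset.1 hP).1
  obtain ⟨m, hm'⟩ := Int.eq_ofNat_of_zero_le (mem_plO_ord.1 (hm _ hP'))
  obtain ⟨ψ, hψ⟩ := cl_spec h0 P hP'
  rw [hm', natCast_zsmul]
  have h3 : S.cl P ∈ S.PP := ⟨ψ, P, hψ⟩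
  exact AddSubmonoid.nsmul_mem _ (AddSubmonoid.subset_closure h3) m

theorem mul (h1 : A1 S) (D D' : I → ℤ) (ψ : M) (h : ψ ∈ S.Sec D) (ψ' : M) (h' : ψ' ∈ S.Sec D') :
    ψ * ψ' ∈ S.Sec (D + D') := fun O hO => by
  rw [S.lb_add (h1.gne O hO), mul_mul_mul_comm]
  exact O.mul_mem (h O hO) (h' O hO)

theorem eff2 (h1 : A1 S) (c : I → ℤ) (hc : c ∈ S.Ef) : ∃ φ ∈ S.Sec c, φ ≠ 0 := by
  induction hc using AddSubmonoid.closure_induction with
  | mem c hc =>
    obtain ⟨φ, P, h⟩ := hc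
    exact ⟨φ, h1.pmem c φ P h, h.1⟩
  | zero => exact ⟨1, fun O _ => by rw [S.lb_zero, mul_one]; exact O.one_mem, one_ne_zero⟩
  | add a b _ _ ha hb =>
    obtain ⟨φ, h2, h3⟩ := ha
    obtain ⟨ψ, h4, h5⟩ := hb
    exact ⟨φ * ψ, mul h1 _ _ _ h2 _ h4, mul_ne_zero h3 h5⟩

theorem const (h1 : A1 S) (φ : M) (h : ∀ O ∈ S.T, φ ∈ O) : ∃ a : k, φ = algebraMap k M a := by
  have hl : IsLocalRing (⊥ : Subalgebra k M) := isLocalRing_of fun a ha b hb => by
    obtain ⟨c, rfl⟩ := Algebra.mem_bot.1 ha.1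
    rwa [const_mem_mx.1 ha, map_zero, zero_add]
  have hn : Nrm (⊥ : Subalgebra k M) := fun f hf => by
    have : Algebra.IsIntegral k (⊥ : Subalgebra k M) := ⟨fun x => by
      obtain ⟨c, hc⟩ := Algebra.mem_bot.1 x.2
      rw [show x = algebraMap k _ c from Subtype.ext hc.symm]
      exact isIntegral_algebraMap⟩
    have h2 : IsIntegral k f := isIntegral_trans f hf
    by_contra h3
    exact transcendental_iff_ne.2 (fun c hc => h3 (Algebra.mem_bot.2 ⟨c, hc.symm⟩)) h2.isAlgebraic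
  by_contra h2
  obtain ⟨V, hV, -, h3⟩ := exists_val_not_mem hl hn (f := φ) fun h4 => by
    obtain ⟨c, hc⟩ := Algebra.mem_bot.1 h4
    exact h2 ⟨c, hc.symm⟩
  obtain ⟨O, hO, hd⟩ := h1.nice.cpl V hV
  exact h3 (hd.1 (h O hO))

theorem sub (h1 : A1 S) (c : I → ℤ) (φ : M) (P : Place k M) (h : S.Prm c φ P) (D : I → ℤ) (ψ : M)
    (hψ : ψ ∈ S.Sec D) (hm : ψ * S.lb D (plO P) ∈ mx (plO P)) : ψ / φ ∈ S.Sec (D - c) := by
  by_cases h0 : ψ = 0
  · rw [h0, zero_div]
    exact (S.Sec _).zero_mem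
  intro O hO
  have h2 := h1.pcart D ψ h0
  have h3 := h1.pcart c φ h.1
  rw [S.lb_sub (h1.gne O hO), div_mul_div_comm]
  refine h1.nice.eff (h2.div h3) hO fun P' hP' _ => ?_
  rw [Pi.div_apply, P'.ord_div (h2.ne hP') (h3.ne hP'), h.2.2 P' hP']
  split_ifs with e
  · subst e
    have := (mx_plO (h2.ne hP')).1 hm
    omega
  · have := mem_plO_ord.1 (hψ _ hP')
    omega

/-- A curve of degree one over a prime divisor. -/
theorem exists_cur (h0 : Surf0 S) (h1 : A1 S) {c : I → ℤ} {φ : M} {P : Place k M}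
    (h : S.Prm c φ P) : ∃ ν : Curve S.T, ν.gen = plO P ∧
      ∀ D ψ, ψ ≠ 0 → ν.deg (fun O => ψ * S.lb D O) = ip S.B D c := by
  obtain ⟨ν, h2, h3, -⟩ := h1.cur P h.2.1
  refine ⟨ν, h2, fun D ψ hψ => ?_⟩
  rw [deg_cmul h1.nice.toGood (h1.cart D) hψ, h0.deg c φ P h ν h2, h3, Nat.cast_one, one_mul]

theorem unit_of_deg {X : Set (Subalgebra k M)} {f : Subalgebra k M → M} (hX : Good X)
    (hf : IsCart X f) (he : ∀ O ∈ X, f O ∈ O) (ν : Curve X) (h : IsU ν.gen (f ν.gen))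
    (hd : ν.deg f = 0) (Q : Place k ν.L) : IsU (ν.pt Q) (f (ν.pt Q)) := by
  have h1 : ∀ P : Place k ν.L, P.ord (ν.ev (f (ν.pt P))) =
      P.ord (ν.ev (f (ν.pt P) / f ν.gen)) + P.ord (ν.ev (f ν.gen)) := fun P => by
    have h2 := hf.unit (ν.pt_mem P) ν.gen_mem (ν.pt_le P)
    rw [ν.ev_eq, ν.ev_eq, ν.ev_eq, ← P.ord_mul (evO_ne _ h2) (evO_ne _ h), ← evO_mul _ h2.2.1 h.2.1,
      div_mul_cancel₀ _ h.1]
  have hfin : (Function.support fun P : Place k ν.L => P.ord (ν.ev (f (ν.pt P)))).Finite := by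
    refine ((hf.finite hX ν).union (FF.finite_ord (K := k) (ν.ev (f ν.gen)))).subset
      fun P hP => by_contra fun hn => hP ?_
    simp only [Set.mem_union, Function.mem_support, not_or, not_not] at hn
    exact (h1 P).trans (by rw [hn.1, hn.2, add_zero])
  have h2 : ∀ P : Place k ν.L, 0 ≤ P.ord (ν.ev (f (ν.pt P))) := fun P =>
    FF.ord_nonneg (ν.v_le P (he _ (ν.pt_mem P)))
  have h3 := single_le_finsum Q hfin h2
  rw [← deg_of_unit hX hf ν h, hd] at h3
  have h4 : IsU ν.gen (f (ν.pt Q)) := by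
    have := (hf.unit (ν.pt_mem Q) ν.gen_mem (ν.pt_le Q)).mul h
    rwa [div_mul_cancel₀ _ h.1] at this
  exact (ν.v_eq_one_iff Q (he _ (ν.pt_mem Q))).1
    ((FF.v_eq_one_iff Q (evO_ne _ h4)).2 (le_antisymm h3 (h2 Q)))

theorem nn (h0 : Surf0 S) (h1 : A1 S) (c : I → ℤ) (φ : M) (P : Place k M) (h : S.Prm c φ P)
    (D : I → ℤ) (ψ : M) (hψ : ψ ∈ S.Sec D) (hu : IsU (plO P) (ψ * S.lb D (plO P))) :
    0 ≤ ip S.B D c ∧ (ip S.B D c = 0 ↔ ∀ O ∈ S.T, O ≤ plO P → IsU O (ψ * S.lb D O)) := by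
  obtain ⟨ν, h2, h3⟩ := exists_cur h0 h1 h
  have h4 : ψ ≠ 0 := left_ne_zero_of_mul hu.1
  have h5 := h1.pcart D ψ h4
  have hu' : IsU ν.gen (ψ * S.lb D ν.gen) := h2 ▸ hu
  rw [← h3 D ψ h4]
  refine ⟨deg_nonneg h1.nice.toGood h5 hψ ν hu', fun hd O hO hle => ?_, fun h6 =>
    deg_zero_of h1.nice.toGood h5 ν fun Q => h6 _ (ν.pt_mem Q) (h2 ▸ ν.pt_le Q)⟩
  by_cases e : O = ν.gen
  · exact e ▸ hu'
  · obtain ⟨Q, rfl⟩ := h1.pt ν O hO (h2 ▸ hle) e
    exact unit_of_deg h1.nice.toGood h5 hψ ν hu' hd Q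

theorem pos (h0 : Surf0 S) (h1 : A1 S) (c : I → ℤ) (hc : c ∈ S.PP) (c' : I → ℤ) (hc' : c' ∈ S.PP)
    (hne : c ≠ c') : 0 ≤ ip S.B c c' := by
  obtain ⟨φ, P, h⟩ := hc
  obtain ⟨φ', P', h'⟩ := hc'
  have hm := h1.pmem c φ P h
  refine (nn h0 h1 c' φ' P' h' c φ hm (isU_of_not_mx (hm _ h'.2.1) fun h2 => hne ?_)).1
  have e := h1.peq c φ P h P' h'.2.1 h2
  subst e
  exact h1.uniq _ _ _ _ _ h h'

theorem gn_sec {U : Set M} {c : I → ℤ} (h : ∀ O ∈ S.T, Gn U O (S.lb c O)⁻¹) {a : M} (ha : a ∈ U) :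
    a ∈ S.Sec c := fun O hO => by
  simpa only [div_inv_eq_mul] using (h O hO).1 a ha

theorem gg (h0 : Surf0 S) (h1 : A1 S) (c : I → ℤ) (hc : S.GG c) (c' : I → ℤ) (hc' : c' ∈ S.PP) :
    0 ≤ ip S.B c c' := by
  obtain ⟨U, -, -, hU⟩ := hc
  obtain ⟨φ, P, h⟩ := hc'
  obtain ⟨a, ha, hu⟩ := (hU _ h.2.1).2
  rw [div_inv_eq_mul] at hu
  exact (nn h0 h1 c' φ P h c a (gn_sec hU ha) hu).1

theorem heff (h0 : Surf0 S) (h1 : A1 S) : S.h ∈ S.Ef := by
  obtain ⟨a, ha⟩ := h0.fam.ne ()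
  exact eff1 h0 h1 _ a (gn_sec h0.gH ha) (h0.fam.nz () a ha)

theorem den (h0 : Surf0 S) (h1 : A1 S) (m : M) :
    ∃ c μ, μ ≠ 0 ∧ μ ∈ S.Sec c ∧ μ * m ∈ S.Sec c := by
  classical
  have hfin := h1.nice.toFine.fin m
  obtain ⟨μ, hμ, h2⟩ := exists_div h0 h1 hfin.toFinset (fun P hP => (hfin.mem_toFinset.1 hP).1)
    fun P => max 0 (-P.ord m)
  generalize ∑ P ∈ hfin.toFinset, max 0 (-P.ord m) • S.cl P = c at h2
  refine ⟨c, μ, hμ, fun O hO => h1.nice.eff (h1.pcart _ μ hμ) hO fun P hP _ => ?_, ?_⟩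
  · rw [h2 P hP]
    split_ifs <;> omega
  by_cases hm : m = 0
  · rw [hm, mul_zero]
    exact (S.Sec _).zero_mem
  refine fun O hO => h1.nice.eff (h1.pcart _ _ (mul_ne_zero hμ hm)) hO fun P hP _ => ?_
  rw [mul_right_comm, P.ord_mul ((h1.pcart _ μ hμ).ne hP) hm, h2 P hP]
  split_ifs with e
  · omega
  · have : P.ord m = 0 := by_contra fun h => e (hfin.mem_toFinset.2 ⟨hP, h⟩)
    omega

theorem mor (h0 : Surf0 S) (h1 : A1 S) (a μ : M) (z : I → ℤ)
    (hg : ∀ O ∈ S.T, Gn {a, 1} O (μ * S.lb z O)⁻¹) (c : I → ℤ) (φ : M) (P : Place k M)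
    (h : S.Prm c φ P) : ip S.B z c ≠ 0 ↔ Ind (plO P) ![a] := by
  obtain ⟨ν, h2, h3⟩ := exists_cur h0 h1 h
  have hμ : μ ≠ 0 := fun e => (hg _ h.2.1).ne (by rw [e, zero_mul, inv_zero])
  have h4 : ν.deg (fun O => (μ * S.lb z O)⁻¹) = -ip S.B z c := by
    rw [← h3 z μ hμ]
    exact deg_inv h1.nice.toGood (h1.pcart z μ hμ) ν
  by_cases ha : a ∈ plO P
  · have ha' : a ∈ ν.gen := h2 ▸ ha
    have h5 := deg_gn_pair (f := fun O => (μ * S.lb z O)⁻¹) ν (hg _ ν.gen_mem)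
      (fun Q => hg _ (ν.pt_mem Q)) one_ne_zero (by rwa [div_one])
    rw [h4, div_one, neg_inj] at h5
    rw [h5]
    rcases h1.ind P h.2.1 a ha with h6 | ⟨b, h6⟩
    · refine ⟨fun _ => h6, fun _ => (pdeg_pos (ev_transcendental ν ha' fun b => ?_)).ne'⟩
      rw [h2]
      exact (ind_one h6 b).not_mx
    · refine ⟨fun h7 => (h7 ?_).elim, fun h7 => ((ind_one h7 b).not_mx h6).elim⟩
      rw [ev_const_of ν (c := b) (by rwa [h2]), pdeg_const]
  · refine ⟨fun h7 => (h7 ?_).elim, fun h7 => (ha (h7.1 0)).elim⟩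
    have h8 : 1 / a ∈ mx ν.gen := by
      rw [h2, one_div]
      exact (plO_isVal P).inv_mx ha
    have h5 := deg_gn_pair (f := fun O => (μ * S.lb z O)⁻¹) (p := 1) (q := a) ν
      (by rw [Set.pair_comm]; exact hg _ ν.gen_mem)
      (fun Q => by rw [Set.pair_comm]; exact hg _ (ν.pt_mem Q))
      (fun e => ha (e ▸ (plO P).zero_mem)) h8.1
    rw [h4, neg_inj, ev_const_of ν (c := 0) (by rwa [map_zero, sub_zero]), pdeg_const] at h5
    exact h5

end A2x

theorem a2_stmt : A2Stmt := fun _ _ _ _ _ _ _ _ _ _ h0 h1 =>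
  { cl := A2x.cl_spec h0
    clp := fun _ _ _ h => A2x.cl_eq h0 h1 h
    dv := A2x.dv h0 h1
    pic := A2x.pic h0 h1
    eff1 := A2x.eff1 h0 h1
    eff2 := A2x.eff2 h1
    const := A2x.const h1
    sub := A2x.sub h1
    mul := A2x.mul h1
    nn := A2x.nn h0 h1
    pos := A2x.pos h0 h1
    gg := A2x.gg h0 h1
    heff := A2x.heff h0 h1
    den := A2x.den h0 h1
    mor := A2x.mor h0 h1 }

end Pool.Agent.MP_20d318_ag.CB

end MrgPart1

-- ======== part 2: formerly Pool.Agent.MP_20d318_ag.CB.A3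
section MrgPart2

/-! Restriction of sections to a prime divisor. -/

set_option autoImplicit false

namespace Pool.Agent.MP_20d318_ag.CB

open Pool.Agent.MP_79c67d_ag Pool.Agent.MP_20d318_ag.AG Pool.Agent.MP_20d318_ag.BV MvPolynomial

section

variable {k M I : Type} [Field k] [Field M] [Algebra k M] [Fintype I] {S : Sd k M I}

/-- The restriction of sections to a curve. -/
noncomputable def resMap (ν : Curve S.T) (D : I → ℤ) : S.Sec D →ₗ[k] ν.L where
  toFun s := ν.ev (s.1 * S.lb D ν.gen)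
  map_add' s t := by
    rw [Submodule.coe_add, add_mul]
    exact evO_add ν.ρ (s.2 _ ν.gen_mem) (t.2 _ ν.gen_mem)
  map_smul' a s := by
    rw [Submodule.coe_smul, Algebra.smul_def, mul_assoc,
      ev_mul ν (ν.gen.algebraMap_mem a) (s.2 _ ν.gen_mem), RingHom.id_apply, Algebra.smul_def]
    exact congrArg (· * _) (evO_const ν.ρ a)

theorem resMap_apply (ν : Curve S.T) (D : I → ℤ) (s : S.Sec D) :
    resMap ν D s = ν.ev (s.1 * S.lb D ν.gen) := rfl

theorem ker_resMap (h : Surf S) (h2 : A2 S) {c : I → ℤ} {φ : M} {P : Place k M}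
    (hP : S.Prm c φ P) (ν : Curve S.T) (hν : ν.gen = plO P) (D : I → ℤ) :
    S.h0 D ≤ S.h0 (D - c) + Module.finrank k (LinearMap.range (resMap ν D)) := by
  have := h.fd D
  have := h.fd (D - c)
  let m : LinearMap.ker (resMap ν D) →ₗ[k] S.Sec (D - c) :=
    ((LinearMap.mulRight k φ⁻¹).comp ((S.Sec D).subtype.comp
      (LinearMap.ker (resMap ν D)).subtype)).codRestrict _ fun s => by
        have h3 := (ev_eq_zero ν (s.1.2 _ ν.gen_mem)).1 s.2
        rw [hν] at h3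
        have h4 := h2.sub c φ P hP D _ s.1.2 h3
        rwa [div_eq_mul_inv] at h4
  have hm : Function.Injective m := fun s t e => Subtype.ext (Subtype.ext
    (mul_right_cancel₀ (inv_ne_zero hP.1) (congrArg Subtype.val e)))
  have h5 := LinearMap.finrank_le_finrank_of_injective hm
  have h6 := LinearMap.finrank_range_add_finrank_ker (resMap ν D)
  simp only [Sd.h0]
  omega

variable [CharZero k] [IsAlgClosed k]

theorem range_resMap (h1 : A1 S) (ν : Curve S.T) (D : I → ℤ) :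
    (Module.finrank k (LinearMap.range (resMap ν D)) : ℤ) ≤ max 0 (ν.deg (S.lb D) + 1) := by
  let E : Divisor k ν.L := Finsupp.ofSupportFinite
    (fun Q => Q.ord (ν.ev (S.lb D (ν.pt Q) / S.lb D ν.gen))) ((h1.cart D).finite h1.nice.toGood ν)
  have hE : deg E = ν.deg (S.lb D) := FF.deg_eq_finsum E
  have hle : LinearMap.range (resMap ν D) ≤ sec E := by
    rintro _ ⟨s, rfl⟩ Q
    have hu := (h1.cart D).unit (ν.pt_mem Q) ν.gen_mem (ν.pt_le Q)
    have h3 := s.2 _ (ν.pt_mem Q)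
    have h4 : s.1 * S.lb D (ν.pt Q) =
        s.1 * S.lb D ν.gen * (S.lb D (ν.pt Q) / S.lb D ν.gen) := by
      have := (h1.cart D).ne ν.gen_mem
      field_simp
    have h5 : Q.Ge 0 (ν.ev (s.1 * S.lb D (ν.pt Q))) := by
      rw [Q.ge0_iff, ν.ev_eq, evO_of_mem _ (ν.pt_le Q h3)]
      exact ν.pt_reg Q _ h3
    rw [h4, ev_mul ν (s.2 _ ν.gen_mem) hu.mem] at h5
    refine Place.Ge.of_mul (evO_ne ν.ρ hu) ?_
    have h6 : -E Q + Q.ord (evO ν.gen ν.ρ (S.lb D (ν.pt Q) / S.lb D ν.gen)) = 0 :=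
      neg_add_cancel _
    rw [h6]
    exact h5
  have h7 : Module.finrank k (LinearMap.range (resMap ν D)) ≤ h0 E := Submodule.finrank_mono hle
  rw [← hE]
  by_cases h8 : deg E < 0
  · rw [h0_eq_zero h8] at h7
    omega
  · have := FF.h0_le_deg (D := E) (by omega)
    omega

end

theorem a3_stmt : A3Stmt := by
  intro k M I _ _ _ _ _ _ S h h1 h2
  refine ⟨fun c φ P hP D => ?_, fun c φ P hP D hD => ?_⟩
  · obtain ⟨ν, hν, hn, -⟩ := h1.cur P hP.2.1
    have h3 := ker_resMap h h2 hP ν hν D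
    have h4 := range_resMap h1 ν D
    rw [h.deg c φ P hP ν hν D, hn, Nat.cast_one, one_mul] at h4
    omega
  · obtain ⟨ν, hν, -, -⟩ := h1.cur P hP.2.1
    have h3 := ker_resMap h h2 hP ν hν D
    have key : ∀ s' : S.Sec D, ∃ s : S.Sec D, ∀ a : k, a • resMap ν D s' ≠ resMap ν D s := by
      intro s'
      by_contra hn
      push Not at hn
      have : Module.finrank k (LinearMap.range (resMap ν D)) ≤ 1 :=
        finrank_le_one ⟨_, s', rfl⟩ fun w => by
          obtain ⟨_, s, rfl⟩ := w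
          obtain ⟨a, ha⟩ := hn s
          exact ⟨a, Subtype.ext ha⟩
      omega
    obtain ⟨s', hs'⟩ := key 0
    obtain ⟨s, hs⟩ := key s'
    have h4 : resMap ν D s' ≠ 0 := fun e => hs' 0 (by rw [zero_smul, e])
    have m' := s'.2 _ ν.gen_mem
    have m := s.2 _ ν.gen_mem
    have hu : IsU ν.gen (s'.1 * S.lb D ν.gen) :=
      isU_of_not_mx m' fun e => h4 ((ev_eq_zero ν m').2 e)
    have e : s.1 / s'.1 = s.1 * S.lb D ν.gen / (s'.1 * S.lb D ν.gen) :=
      (mul_div_mul_right _ _ ((h1.cart D).ne ν.gen_mem)).symm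
    have h5 : s.1 / s'.1 ∈ ν.gen := e ▸ hu.div_mem m
    refine ⟨s.1, s.2, s'.1, s'.2, hν ▸ hu, (h1.ind P hP.2.1 _ (hν ▸ h5)).resolve_right ?_⟩
    rintro ⟨a, ha⟩
    have h6 := ev_const_of ν (hν ▸ ha)
    rw [e, ev_div ν m hu] at h6
    refine hs a ?_
    rw [Algebra.smul_def, ← h6]
    exact div_mul_cancel₀ _ h4

end Pool.Agent.MP_20d318_ag.CB

end MrgPart2

-- ======== part 3: formerly Pool.Agent.MP_20d318_ag.CB.A4
section MrgPart3

/-! Riemann–Roch and adjunction on the surface. -/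

set_option autoImplicit false

namespace Pool.Agent.MP_20d318_ag.CB

open Pool.Agent.MP_79c67d_ag Pool.Agent.MP_20d318_ag.AG Pool.Agent.MP_20d318_ag.BV MvPolynomial

namespace A4p

variable {k M I : Type} [Field k] [Field M] [Algebra k M] [Fintype I] {S : Sd k M I}

theorem h0_nn (c : I → ℤ) : 0 ≤ S.h0 c := Int.natCast_nonneg _

theorem h0_zero (h2 : A2 S) {c : I → ℤ} (hc : c ∉ S.Ef) : S.h0 c = 0 := by
  have e : S.Sec c = ⊥ := by
    rw [Submodule.eq_bot_iff]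
    intro φ hφ
    by_contra h
    exact hc (h2.eff1 c φ hφ h)
  rw [Sd.h0, e, finrank_bot, Nat.cast_zero]

theorem chi_dual (hs : ∀ i j, S.B i j = S.B j i) (c : I → ℤ) :
    chi2 S.B S.K (S.K - c) = chi2 S.B S.K c := by
  simp only [chi2, ip_sub_left, ip_sub_right, ip_comm hs c S.K]
  ring

theorem chi_sub (hs : ∀ i j, S.B i j = S.B j i) (D c : I → ℤ) :
    chi2 S.B S.K D = chi2 S.B S.K (D - c) + 2 * ip S.B D c - ip S.B c c - ip S.B S.K c := by
  simp only [chi2, ip_sub_left, ip_sub_right, ip_comm hs c D]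
  ring

theorem rr2 (h : Surf S) (h2 : A2 S) (c : I → ℤ) (hc : S.K - c ∉ S.Ef) :
    chi2 S.B S.K c ≤ 2 * S.h0 c := by
  by_cases hf : -1 ≤ ip S.B c S.f
  · exact h.rr c hf
  · have h1 : -1 ≤ ip S.B (S.K - c) S.f := by
      have := h.Kf
      rw [ip_sub_left]
      omega
    have h3 := h.rr _ h1
    rw [h0_zero h2 hc, chi_dual h.sym] at h3
    have := h0_nn (S := S) c
    omega

theorem adj (h : Surf S) (h3 : A3 S) (c : I → ℤ) (hc : c ∈ S.PP) :
    -2 ≤ ip S.B c c + ip S.B S.K c := by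
  obtain ⟨φ, P, hP⟩ := hc
  rcases h.adjc c φ P hP with hA | ⟨e, -⟩
  · obtain ⟨t, ht3, htf, htc⟩ : ∃ t : ℤ, 3 ≤ t ∧ -(ip S.B c S.f + ip S.B S.K S.f) ≤ t ∧
        -(ip S.B c c + ip S.B S.K c) ≤ t :=
      ⟨max 3 (max (-(ip S.B c S.f + ip S.B S.K S.f)) (-(ip S.B c c + ip S.B S.K c))),
        le_max_left _ _, (le_max_left _ _).trans (le_max_right _ _),
        (le_max_right _ _).trans (le_max_right _ _)⟩
    have hAf := h.Af
    have eD : c + (S.K + t • S.A) - c = S.K + t • S.A := by abel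
    have hf : -1 ≤ ip S.B (c + (S.K + t • S.A)) S.f := by
      rw [ip_add_left, ip_add_left, ip_smul_left]
      nlinarith
    have hD : 0 ≤ ip S.B (c + (S.K + t • S.A)) c := by
      rw [ip_add_left, ip_add_left, ip_smul_left]
      nlinarith
    have r1 := h.rr _ hf
    have r2 := h3.res c φ P hP (c + (S.K + t • S.A))
    have r3 := h.ub t ht3
    have r4 := chi_sub h.sym (c + (S.K + t • S.A)) c
    rw [eD] at r2 r4
    rw [max_eq_right (by omega)] at r2
    omega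
  · exact e.ge

end A4p

theorem a4_stmt : A4Stmt := by
  intro k M I _ _ _ _ _ _ S h _ h2 h3
  refine ⟨A4p.rr2 h h2, fun c hc => ?_, A4p.adj h h3⟩
  by_contra hn
  rw [not_or] at hn
  have r := A4p.rr2 h h2 c hn.2
  rw [A4p.h0_zero h2 hn.1, chi2] at r
  omega

end Pool.Agent.MP_20d318_ag.CB

end MrgPart3

-- ======== part 4: formerly Pool.Agent.MP_20d318_ag.CB.Act
section MrgPart4

/-! The action of an automorphism on divisor classes. -/

set_option autoImplicit false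

namespace Pool.Agent.MP_20d318_ag.CB

open Pool.Agent.MP_79c67d_ag Pool.Agent.MP_20d318_ag.AG Pool.Agent.MP_20d318_ag.BV MvPolynomial

namespace Act

variable {k M : Type} [Field k] [Field M] [Algebra k M] (σ : M ≃ₐ[k] M)

/-- The image of a place under an automorphism. -/
def im (P : Place k M) : Place k M where
  v := P.v.comap (σ.symm : M →+* M)
  surj x := by
    obtain ⟨f, rfl⟩ := P.surj x
    exact ⟨σ f, by simp⟩
  triv c := by simpa using P.triv c

theorem ord_im (P : Place k M) (m : M) : (im σ P).ord (σ m) = P.ord m := by simp [Place.ord, im]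

theorem plO_im (P : Place k M) : (plO (im σ P)).comap (σ : M →ₐ[k] M) = plO P := by
  ext m
  simp [mem_plO, im]

theorem im_surj (Q : Place k M) : ∃ P, im σ P = Q :=
  ⟨im σ.symm Q, Place.ext_ord fun f _ => by simp [Place.ord, im]⟩

theorem im_inj {P Q : Place k M} : im σ P = im σ Q ↔ P = Q :=
  ⟨fun h => Place.ext_ord fun f _ => by rw [← ord_im σ P, h, ord_im], fun h => h ▸ rfl⟩

end Act

open Act in
theorem act_stmt : ActStmt := by
  intro k M I _ _ _ _ _ _ S σ h hσ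
  have pl := fun f (hf : IsCart S.T f) => hf.pull (σ : M →ₐ[k] M) fun O => (hσ O).1
  choose c φ h0 hu using fun i => h.a2.pic _ (pl _ (h.s.cartg i))
  obtain ⟨ρ, hρ⟩ : ∃ ρ : Matrix I I ℤ, ∀ i j, ρ i j = c j i := ⟨fun i j => c j i, fun _ _ => rfl⟩
  have rep : Rep S σ ρ := fun a => by
    refine ⟨∏ j, φ j ^ a j, Finset.prod_ne_zero_iff.2 fun j _ => zpow_ne_zero _ (h0 j),
      fun O hO => ?_⟩
    have e : act ρ a = ∑ j, a j • c j := by
      funext i
      simp [act, mul_comm, hρ]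
    have := isU_prod (s := Finset.univ) fun j _ => (hu j O hO).inv.zpow (a j)
    rw [e, S.lb_sum (h.a1.gne O hO), Sd.lb, map_prod, ← Finset.prod_mul_distrib,
      ← Finset.prod_div_distrib]
    simpa only [inv_div, div_zpow, mul_zpow, S.lb_zsmul, map_zpow₀, AlgEquiv.coe_toAlgHom] using this
  have prm : ∀ a ψ P, S.Prm a ψ P → ∃ ψ', S.Prm (act ρ a) ψ' (im σ P) := by
    intro a ψ P hP
    obtain ⟨μ, m0, hμ⟩ := rep a
    have s0 : σ ψ ≠ 0 := (map_ne_zero σ).2 hP.1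
    refine ⟨σ ψ * μ, mul_ne_zero s0 m0, (hσ _).2 (by rw [plO_im]; exact hP.2.1), fun Q hQ => ?_⟩
    obtain ⟨Q, rfl⟩ := im_surj σ Q
    have q := (hσ _).1 hQ
    obtain ⟨u0, u⟩ := (isU_plO' _).1 (hμ _ hQ)
    rw [plO_im] at q u0 u
    obtain ⟨u1, u2⟩ := div_ne_zero_iff.1 u0
    rw [Place.ord_div _ u1 u2, sub_eq_zero] at u
    rw [mul_assoc, Place.ord_mul _ s0 u2, ← u, ← Place.ord_mul _ s0 u1, ← map_mul, ord_im,
      hP.2.2 Q q, im_inj]
  refine ⟨_, hσ, rep, fun a ψ P hP => (prm a ψ P hP).imp fun _ b => ⟨_, b, ord_im σ P⟩, ?_⟩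
  rintro a' a ⟨ψ, P, hP⟩
  obtain ⟨ψ', hP'⟩ := prm a ψ P hP
  obtain ⟨ν, g, n1, -⟩ := h.a1.cur _ hP'.2.1
  obtain ⟨μ, m0, hμ⟩ := rep a'
  have G := h.a1.nice.toGood
  have e1 := h.s.deg _ _ _ hP' ν g (act ρ a')
  have e2 := h.s.deg _ _ _ hP (ν.push (σ : M →ₐ[k] M) fun O => (hσ O).1)
    (by rw [← plO_im σ P, ← g]; rfl) a'
  have e3 : nu (ν.push (σ : M →ₐ[k] M) fun O => (hσ O).1) = nu ν := by
    have : (ν.push (σ : M →ₐ[k] M) fun O => (hσ O).1).ev ''
        (ν.push (σ : M →ₐ[k] M) fun O => (hσ O).1).gen = ν.ev '' ν.gen := by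
      ext z
      refine ⟨?_, ?_⟩
      · rintro ⟨b, hb, rfl⟩
        exact ⟨σ b, hb, (ν.ev_push (σ : M →ₐ[k] M) _ b).symm⟩
      · rintro ⟨b, hb, rfl⟩
        obtain ⟨b, rfl⟩ := σ.surjective b
        exact ⟨b, hb, ν.ev_push (σ : M →ₐ[k] M) _ b⟩
    exact congrArg (fun s : Set ν.L => Module.finrank (IntermediateField.adjoin k s) ν.L) this
  rw [e3, Curve.deg_push, deg_congr G (pl _ (h.a1.cart a')) (h.a1.pcart _ μ m0) hμ,
    show (ν.deg fun O => μ * S.lb (act ρ a') O) = _ from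
      deg_mul G (isCart_const m0) (h.a1.cart _) ν, deg_const, zero_add, e1, n1] at e2
  simpa using e2

end Pool.Agent.MP_20d318_ag.CB

end MrgPart4

-- ======== part 5: formerly Pool.Agent.MP_20d318_ag.CB.Der
section MrgPart5

/-! Derivatives along a prime divisor. -/

set_option autoImplicit false

namespace Pool.Agent.MP_20d318_ag.CB

open Pool.Agent.MP_79c67d_ag Pool.Agent.MP_20d318_ag.AG Pool.Agent.MP_20d318_ag.BV MvPolynomial
open Pool.Agent.MP_20d318_ag.RS (jac)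
open scoped IntermediateField

namespace Der

variable {k M : Type} [Field k] [Field M] [Algebra k M] {P : Place k M} {a π : M}

/-- Evaluation of a polynomial with coefficients in `k[a]`. -/
noncomputable def ev (a f : M) (q : Polynomial (MvPolynomial (Fin 1) k)) : M :=
  q.eval₂ ((aeval ![a] : MvPolynomial (Fin 1) k →ₐ[k] M) : MvPolynomial (Fin 1) k →+* M) f

theorem ev_add (a f : M) (q r : Polynomial (MvPolynomial (Fin 1) k)) :
    ev a f (q + r) = ev a f q + ev a f r := Polynomial.eval₂_add _ _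

theorem ev_mul (a f : M) (q r : Polynomial (MvPolynomial (Fin 1) k)) :
    ev a f (q * r) = ev a f q * ev a f r := Polynomial.eval₂_mul _ _

theorem ev_C (a f : M) (c : MvPolynomial (Fin 1) k) :
    ev a f (Polynomial.C c) = aeval ![a] c := Polynomial.eval₂_C _ _

theorem ev_X (a f : M) :
    ev a f (Polynomial.X : Polynomial (MvPolynomial (Fin 1) k)) = f := Polynomial.eval₂_X _ _

theorem ev_mon (a f : M) (n : ℕ) (c : MvPolynomial (Fin 1) k) :
    ev a f (Polynomial.monomial n c) = aeval ![a] c * f ^ n := Polynomial.eval₂_monomial _ _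

theorem ev_eq (a f : M) (p : MvPolynomial (Fin 2) k) :
    aeval ![f, a] p = ev a f (finSuccEquiv k 1 p) := by
  induction p using MvPolynomial.induction_on with
  | C c =>
    have e : finSuccEquiv k 1 (C c) = Polynomial.C (C c) := (finSuccEquiv k 1).commutes c
    rw [e, ev_C, aeval_C, aeval_C]
  | add p q hp hq => rw [map_add, map_add, ev_add, hp, hq]
  | mul_X p i hp =>
    rw [map_mul, map_mul, ev_mul, hp, aeval_X]
    congr 1
    refine Fin.cases ?_ (fun j => ?_) i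
    · rw [finSuccEquiv_X_zero, ev_X]; rfl
    · rw [finSuccEquiv_X_succ, ev_C, aeval_X]; rfl

theorem ev_mem {O : Subalgebra k M} {f : M} (ha : Ind O ![a]) (hf : f ∈ O)
    (q : Polynomial (MvPolynomial (Fin 1) k)) : ev a f q ∈ O := by
  induction q using Polynomial.induction_on' with
  | add p q hp hq => rw [ev_add]; exact O.add_mem hp hq
  | monomial n c => rw [ev_mon]; exact O.mul_mem (aeval_mem ha.1 c) (O.pow_mem hf n)

theorem ev_der {O : Subalgebra k M} {f : M} (ha : Ind O ![a]) (hf : f ∈ O)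
    (D : Derivation k M M) (hD : D a ∈ O) (q : Polynomial (MvPolynomial (Fin 1) k)) :
    D (ev a f q) - ev a f (Polynomial.derivative q) * D f ∈ O := by
  induction q using Polynomial.induction_on' with
  | add p q hp hq =>
    convert O.add_mem hp hq using 1
    rw [ev_add, map_add, map_add, ev_add]; ring
  | monomial n c =>
    have h1 : D (aeval ![a] c) ∈ O := by
      rw [der_aeval, Fin.sum_univ_one, smul_eq_mul]
      exact O.mul_mem (aeval_mem ha.1 _) hD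
    convert O.mul_mem (O.pow_mem hf n) h1 using 1
    rw [Polynomial.derivative_monomial, ev_mon, ev_mon, Derivation.leibniz, Derivation.leibniz_pow,
      map_mul, map_natCast]
    simp only [smul_eq_mul, nsmul_eq_mul]
    ring

theorem ind (ha : Ind (plO P) ![a]) (hπ : P.ord π = 1) : AlgebraicIndependent k ![π, a] := by
  have h0 : π ≠ 0 := fun h => by simp [h] at hπ
  have h1 : π ∈ plO P := mem_plO_ord.2 (by omega)
  refine algebraicIndependent_iff.2 fun p hp => by_contra fun hp0 => ?_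
  have hq : finSuccEquiv k 1 p ≠ 0 := fun h => hp0 ((finSuccEquiv k 1).injective (by simpa using h))
  obtain ⟨r, hr, hd⟩ := Polynomial.exists_eq_pow_rootMultiplicity_mul_and_not_dvd _ hq 0
  rw [Polynomial.C_0, sub_zero] at hr hd
  rw [Polynomial.X_dvd_iff] at hd
  obtain ⟨hu0, hu⟩ := (isU_plO' P).1 (ha.2 _ hd)
  have h2 : P.Ge (P.ord (aeval ![a] (r.coeff 0)) + 1) (π * ev a π r.divX) := by
    rw [hu, zero_add]
    exact (P.ge_of_le hπ.ge).mul0' ((mem_plO' P).1 (ev_mem ha h1 _))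
  have h3 := (Place.add_ne_and_ord hu0 h2).1
  have h4 : ev a π r = aeval ![a] (r.coeff 0) + π * ev a π r.divX := by
    conv_lhs => rw [← Polynomial.X_mul_divX_add r]
    rw [ev_add, ev_mul, ev_X, ev_C, add_comm]
  rw [ev_eq, hr, ev_mul, Polynomial.X_pow_eq_monomial, ev_mon, map_one, one_mul, h4] at hp
  exact mul_ne_zero (pow_ne_zero _ h0) h3 hp

theorem bound (hF : FT (plO P)) (hπ : P.ord π = 1) (D : Derivation k M M) :
    ∃ N : ℕ, ∀ f ∈ plO P, P.Ge (-N) (D f) := by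
  have h0 : π ≠ 0 := fun h => by simp [h] at hπ
  obtain ⟨G, hG, hO⟩ := hF
  obtain ⟨N, hN⟩ := (hG.image fun g => (-P.ord (D g)).toNat).bddAbove
  have e : ∀ f, P.Ge (-N) (D f) ↔ (π ^ N • D) f ∈ plO P := fun f => by
    rw [mem_plO', Derivation.smul_apply, smul_eq_mul, mul_comm,
      ← Place.ge_mul_iff (pow_ne_zero N h0), P.ord_pow, hπ, mul_one, neg_add_cancel]
  refine ⟨N, fun f hf => (e f).2 (der_pres hO _ (fun g hg => (e g).1 (P.ge_of_le ?_)) f hf)⟩
  have := hN ⟨g, hg, rfl⟩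
  simp only at this
  omega

theorem step [CharZero k] (hd : Dim (plO P) 1) (ha : Ind (plO P) ![a]) (hπ : P.ord π = 1)
    (D : Derivation k M M) (h1 : D a ∈ plO P) (h2 : D π ∈ plO P) (N : ℕ)
    (hN : ∀ f ∈ plO P, P.Ge (-(N + 1 : ℕ)) (D f)) : ∀ f ∈ plO P, P.Ge (-N) (D f) := by
  classical
  intro f hf
  have h0 : π ≠ 0 := fun h => by simp [h] at hπ
  have hex : ∃ n, ∃ q : Polynomial (MvPolynomial (Fin 1) k), q ≠ 0 ∧ q.natDegree = n ∧
      ¬ IsU (plO P) (ev a f q) := by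
    by_contra hc
    refine hd ⟨![f, a], fun i => ?_, fun p hp => ?_⟩
    · refine Fin.cases hf (fun j => ?_) i
      exact ha.1 j
    · rw [ev_eq]
      exact by_contra fun hu => hc ⟨_, _, fun h => hp ((finSuccEquiv k 1).injective
        (by simpa using h)), rfl, hu⟩
  obtain ⟨q, hq, hn, hu⟩ := Nat.find_spec hex
  have hn0 : q.natDegree ≠ 0 := fun h => by
    rw [Polynomial.eq_C_of_natDegree_eq_zero h] at hq hu
    rw [ev_C] at hu
    exact hu (ha.2 _ fun e => hq (by rw [e, map_zero]))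
  have hq' : Polynomial.derivative q ≠ 0 := fun h =>
    hn0 (Polynomial.derivative_eq_zero.1 h)
  obtain ⟨hv0, hv⟩ := (isU_plO' P).1 (by_contra fun hc => Nat.find_min hex
    (hn ▸ Polynomial.natDegree_derivative_lt hn0) ⟨_, hq', rfl, hc⟩ :
      IsU (plO P) (ev a f (Polynomial.derivative q)))
  have h3 : P.Ge 1 (ev a f q) := P.ge1_iff.2 ((mem_mx_plO P).1 ⟨ev_mem ha hf q, hu⟩)
  have h4 : P.Ge 0 (ev a f q / π) := by
    refine Place.Ge.of_mul h0 ?_
    rwa [div_mul_cancel₀ _ h0, hπ, zero_add]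
  have h5 : P.Ge (-N) (D (ev a f q)) := by
    rw [← mul_div_cancel₀ (ev a f q) h0, Derivation.leibniz, smul_eq_mul, smul_eq_mul]
    refine Place.Ge.add ?_ ((h4.mul0 ((mem_plO' P).1 h2)).mono (by omega))
    refine ((P.ge_of_le hπ.ge).mul (hN _ ((mem_plO' P).2 h4))).mono (by push_cast; omega)
  have h6 := h5.sub (((mem_plO' P).1 (ev_der ha hf D h1 q)).mono (by omega : -(N : ℤ) ≤ 0))
  rw [sub_sub_cancel, mul_comm] at h6
  exact Place.Ge.of_mul hv0 (by rwa [hv, add_zero])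

theorem pres [CharZero k] (hF : FT (plO P)) (hd : Dim (plO P) 1) (ha : Ind (plO P) ![a])
    (hπ : P.ord π = 1) (D : Derivation k M M) (h1 : D a ∈ plO P) (h2 : D π ∈ plO P) :
    ∀ f ∈ plO P, P.Ge 0 (D f) := by
  obtain ⟨N, hN⟩ := bound hF hπ D
  induction N with
  | zero => simpa using hN
  | succ N ih => exact ih (step hd ha hπ D h1 h2 N hN)

theorem lead (hπ : P.ord π = 1) (D : Derivation k M M) (hD : ∀ f ∈ plO P, P.Ge 0 (D f)) {c : M}
    (hc : c ≠ 0) : P.Ge (P.ord c) (D c - (P.ord c : M) * (c / π) * D π) := by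
  have h0 : π ≠ 0 := fun h => by simp [h] at hπ
  generalize hn : P.ord c = n
  have h1 : π ^ n ≠ 0 := zpow_ne_zero _ h0
  have h2 : P.ord (π ^ n) = n := by rw [P.ord_zpow, hπ, mul_one]
  have h3 : c / π ^ n ∈ plO P := mem_plO_ord.2 (by rw [P.ord_div hc h1]; omega)
  have h4 := (P.ge_of_le h2.ge).mul0' (hD _ h3)
  convert h4 using 1
  conv_lhs => rw [← mul_div_cancel₀ c h1, Derivation.leibniz, Derivation.leibniz_zpow]
  simp only [smul_eq_mul, zsmul_eq_mul]
  rw [zpow_sub₀ h0, zpow_one]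
  field_simp
  ring

end Der

open Der in
theorem der_stmt : DerStmt := by
  intro k M _ _ _ _ _ D₁ D₂ x y a π P hJ hg hxy hF ha hπ
  have h0 : π ≠ 0 := fun h => by simp [h] at hπ
  have hd : Dim (plO P) 1 := Pln.dim hg (plO_isVal P) (plO_ne_top P)
  have hne : jac D₁ D₂ a π ≠ 0 := fun h => hJ.ne D₁ D₂ x y π a hg hxy (ind ha hπ) (by
    unfold jac at h ⊢; linear_combination -h)
  obtain ⟨d₁, e₁⟩ := hJ.lin D₁ D₂ π (-(jac D₁ D₂ a π)⁻¹)
  obtain ⟨d₂, e₂⟩ := hJ.lin D₁ D₂ a (jac D₁ D₂ a π)⁻¹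
  have a1 : d₁ a = 1 := by
    rw [e₁, ← inv_mul_cancel₀ hne]; unfold jac; ring
  have a2 : d₁ π = 0 := by rw [e₁]; unfold jac; ring
  have a3 : d₂ a = 0 := by rw [e₂]; unfold jac; ring
  have a4 : d₂ π = 1 := by rw [e₂, inv_mul_cancel₀ hne]
  have p1 := pres hF hd ha hπ d₁ (a1 ▸ (plO P).one_mem) (a2 ▸ (plO P).zero_mem)
  have p2 := pres hF hd ha hπ d₂ (a3 ▸ (plO P).zero_mem) (a4 ▸ (plO P).one_mem)
  have e : ∀ c d, jac D₁ D₂ c d / jac D₁ D₂ a π = d₁ c * d₂ d - d₂ c * d₁ d := fun c d => by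
    rw [e₁, e₁, e₂, e₂]
    field_simp
    unfold jac; ring
  have g1 : ∀ c, c ≠ 0 → P.Ge (P.ord c) (d₁ c) := fun c hc => by
    simpa [a2] using lead hπ d₁ p1 hc
  have o1 : ∀ c, c ≠ 0 → P.ord (c / π) = P.ord c - 1 := fun c hc => by rw [P.ord_div hc h0, hπ]
  have g2 : ∀ c, c ≠ 0 → P.Ge (P.ord c - 1) (d₂ c) := fun c hc => by
    have h1 := lead hπ d₂ p2 hc
    rw [a4, mul_one] at h1
    simpa using (h1.mono (by omega : P.ord c - 1 ≤ P.ord c)).add
      ((P.ge_intCast (P.ord c)).mul0 (P.ge_of_le (o1 c hc).ge))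
  refine ⟨hne, fun c hc d hd => ?_, fun c d hc hd => ?_, fun d hd => ?_⟩
  · rw [e, mem_plO']
    exact ((p1 c hc).mul0 (p2 d hd)).sub ((p2 c hc).mul0 (p1 d hd))
  · rw [e]
    exact (((g1 c hc).mul (g2 d hd)).mono (by omega)).sub
      (((g2 c hc).mul (g1 d hd)).mono (by omega))
  · have hd0 : d ≠ 0 := fun h => hd (by simp [h])
    have hc : ((P.ord d : ℤ) : M) ≠ 0 := (isU_intCast (O := plO P) hd).1
    have h1 := lead hπ d₂ p2 hd0
    rw [a4, mul_one] at h1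
    have h2 : P.ord (((P.ord d : ℤ) : M) * (d / π)) = P.ord d - 1 := by
      rw [P.ord_mul hc (div_ne_zero hd0 h0), P.ord_intCast, zero_add, o1 d hd0]
    obtain ⟨h3, h4⟩ := Place.ne_and_ord_of_sub (mul_ne_zero hc (div_ne_zero hd0 h0))
      (by rw [h2, sub_add_cancel]; exact h1)
    have h5 : jac D₁ D₂ a d / jac D₁ D₂ a π = d₂ d := by rw [e₂, div_eq_inv_mul]
    exact ⟨fun h => h3 (by rw [← h5, h, zero_div]), by rw [h5, h4, h2]⟩

end Pool.Agent.MP_20d318_ag.CB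

end MrgPart5

-- ======== part 6: formerly Pool.Agent.MP_20d318_ag.CB.Exc
section MrgPart6

/-! The order of the form at places of the surface and at exceptional places. -/

set_option autoImplicit false

namespace Pool.Agent.MP_20d318_ag.CB

open Pool.Agent.MP_79c67d_ag Pool.Agent.MP_20d318_ag.AG Pool.Agent.MP_20d318_ag.BV
open Pool.Agent.MP_20d318_ag.RS (jac)

theorem exc_ord {k M : Type} [Field k] [Field M] [Algebra k M] {P : Place k M} {c : M}
    (h0 : c ≠ 0) (hc : c ∈ mx (plO P)) : 1 ≤ P.ord c :=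
  (P.ge1_iff.2 ((mem_mx_plO P).1 hc)).le h0

theorem exc_stmt : ExcStmt := by
  intro hD k M I κ _ _ _ _ _ _ _ p hp
  have hφ := hp.φne
  refine ⟨fun P O a hF hO hR hd ha => ?_, fun P a π hP hs ha hπ => ?_⟩
  · have D := hD k M p.D₁ p.D₂ p.x p.y a P.unif P hp.all.jc hp.gen hp.jne hF ha P.ord_unif
    obtain ⟨c, hc, d, hdm, c0, d0, hu⟩ := hp.loc2 O hO hR
    have hα := exc_ord c0 (hd.mx hc)
    have hβ := exc_ord d0 (hd.mx hdm)
    have hs : p.φ * p.j c d ^ 2 ≠ 0 ∧ P.ord (p.φ * p.j c d ^ 2) ≤ P.ord c := by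
      rcases hu with hu | hu
      · have := (isU_plO' P).1 (hu.mono hd.1)
        exact ⟨this.1, by omega⟩
      · have := (isU_plO' P).1 (hu.mono hd.1)
        have h1 : p.φ * p.j c d ^ 2 ≠ 0 := fun h => this.1 (by rw [h, zero_div])
        rw [P.ord_div h1 c0] at this
        exact ⟨h1, by omega⟩
    have jcd : jac p.D₁ p.D₂ c d ≠ 0 := fun h => hs.1 (by rw [Pd.j, h]; ring)
    obtain ⟨jad, e1⟩ := D.eq d (by omega)
    have e2 := (D.ge c d c0 d0).le (div_ne_zero jcd D.ne)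
    refine ⟨d, hdm.1, fun hm => ?_⟩
    have e3 := ((mem_plO' P).1 hm).le (mul_ne_zero hφ (pow_ne_zero 2 jad))
    have e4 := hs.2
    simp only [Pd.j] at e3 e4
    rw [P.ord_div jad D.ne] at e1
    rw [P.ord_div jcd D.ne] at e2
    rw [P.ord_mul hφ (pow_ne_zero 2 jad), P.ord_pow] at e3
    rw [P.ord_mul hφ (pow_ne_zero 2 jcd), P.ord_pow] at e4
    push_cast at e3 e4
    omega
  · obtain ⟨c, d, hc⟩ := hp.all.a1.chart _ hP
    have hF : FT (plO P) := ⟨{c, d}, Set.toFinite _, hc.2⟩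
    have D := hD k M p.D₁ p.D₂ p.x p.y a π P hp.all.jc hp.gen hp.jne hF ha hπ
    have hcm : c ∈ plO P := hc.2.2.1 (Algebra.subset_adjoin (by simp))
    have hdm : d ∈ plO P := hc.2.2.1 (Algebra.subset_adjoin (by simp))
    have hπm : π ∈ plO P := (mem_plO' P).2 (P.ge_of_le (by omega))
    have ham : a ∈ plO P := ha.1 0
    have u1 := hp.chart _ hP c d hc
    have u2 : IsU (plO P) (p.φ * p.jj (plO P) ^ 2) := by
      rw [hp.eqn _ hP]
      exact isU_prod fun i _ => hs i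
    have j0 : p.jj (plO P) ≠ 0 := fun h => u2.1 (by rw [h]; ring)
    have a0 : p.j a π ≠ 0 := D.ne
    have u3 := u2.mul (u1.pow 2)
    have e : p.φ * p.jj (plO P) ^ 2 * (p.j c d / p.jj (plO P)) ^ 2 =
        p.φ * p.j a π ^ 2 * (p.j c d / p.j a π) ^ 2 := by
      field_simp
    rw [e] at u3
    exact IsU.of_mul (hp.reg _ hP a ham π hπm) ((plO P).pow_mem (D.mem c hcm d hdm) 2) u3

end Pool.Agent.MP_20d318_ag.CB

end MrgPart6

-- ======== part 7: formerly Pool.Agent.MP_20d318_ag.CB.Glue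
section MrgPart7

/-! GLUE: from the lattice statements to the cone statement. -/

set_option autoImplicit false
set_option linter.unusedSectionVars false

namespace Pool.Agent.MP_20d318_ag.CB

open Pool.Agent.MP_79c67d_ag Pool.Agent.MP_20d318_ag.AG Pool.Agent.MP_20d318_ag.Lat
open Pool.Agent.MP_20d318_ag.BV.Glue (cvint gL gEf gC cone_of_concl Ef NEf)

namespace GlueA

variable {I κ : Type} [Fintype I] [Fintype κ]

/-- Integral classes as real classes, additively. -/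
def toRWh : W I κ ℤ →+ W I κ ℝ where
  toFun := toRW
  map_zero' := by ext <;> simp [toRW, toR]
  map_add' a b := by ext <;> simp [toRW, toR]

theorem mem_LW {D : W I κ ℝ} (h : D ∈ LW I κ) : ∃ E, toRW E = D := by
  have : LW I κ ≤ toRWh.range := (AddSubgroup.closure_le _).2 fun _ hx => hx
  exact this h

/-- The action of a matrix as a linear map. -/
def actL (ρ : Matrix I I ℤ) : W I κ ℝ →ₗ[ℝ] W I κ ℝ where
  toFun := actW ρ
  map_add' _ _ := Prod.ext (act_add ρ _ _) rfl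
  map_smul' a _ := Prod.ext (act_smul ρ a _) rfl

theorem ob_smul {Λ : Ld I κ} {T : Finset (I → ℤ)} (h : OB Λ T) {N : ℤ} (hN : N ≠ 0) :
    OB Λ (T.image fun x => N • x) where
  neg := by
    intro _ h1
    obtain ⟨x, hx, rfl⟩ := Finset.mem_image.1 h1
    rw [ip_smul_left, ip_smul_right, ← mul_assoc]
    exact mul_neg_of_pos_of_neg (mul_self_pos.2 hN) (h.neg x hx)
  orth := by
    intro _ h1 _ h2 e
    obtain ⟨x, hx, rfl⟩ := Finset.mem_image.1 h1
    obtain ⟨y, hy, rfl⟩ := Finset.mem_image.1 h2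
    rw [ip_smul_left, ip_smul_right, h.orth x hx y hy fun k => e (by rw [k]), mul_zero, mul_zero]
  perp := by
    intro _ h1 v hv
    obtain ⟨x, hx, rfl⟩ := Finset.mem_image.1 h1
    rw [toR_zsmul, ip_smul_right, h.perp x hx v hv, mul_zero]
  span r h1 h2 := h.span r h1 fun x hx => by
    have := h2 _ (Finset.mem_image_of_mem _ hx)
    rw [toR_zsmul, ip_smul_right] at this
    exact (mul_eq_zero.1 this).resolve_left (by exact_mod_cast hN)

variable {k K : Type} [Field k] [Field K] [Algebra k K] {X : Set (Subalgebra k K)}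

/-- The degrees of a class on all curves. -/
def Psi (B : I → I → ℤ) (Z : Curve X → W I κ ℤ) : W I κ ℝ →ₗ[ℝ] (Curve X → ℝ) where
  toFun D ν := ipW B D (toRW (Z ν))
  map_add' D E := funext fun _ => ipW_add D E _
  map_smul' a D := funext fun _ => ipW_smul a D _

variable {Λ : Ld I κ} {Z : Curve X → W I κ ℤ}

theorem psi_cls {D : W I κ ℤ} {C : Cartier X} (h : ∀ ν, ν.deg C.f = ipW Λ.B D (Z ν)) :
    Psi Λ.B Z (toRW D) = C.cls :=
  funext fun ν => (ipW_toRW _ D (Z ν)).trans (congrArg _ (h ν).symm)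

theorem nx_of_nef (h : GeoX X Λ Z) {D : W I κ ℝ} (hD : ∀ ν, 0 ≤ Psi Λ.B Z D ν) : D ∈ Λ.NX := by
  classical
  refine ⟨fun i j => ?_, fun i => ?_, fun c hc => ?_, fun j c hc => ?_⟩
  · obtain ⟨ν, n, hn, e⟩ := h.tE i j
    have h1 : Psi Λ.B Z D ν = n * D.2.2 i j := by
      change ipW _ D (toRW (Z ν)) = _
      rw [e]
      simp [ipW, toRW, toR_zero, ip_zero_right, ite_and, mul_comm]
    have h2 := hD ν
    rw [h1] at h2
    exact nonneg_of_mul_nonneg_right h2 (by exact_mod_cast hn)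
  · obtain ⟨ν, n, hn, e⟩ := h.tC i
    have h1 : Psi Λ.B Z D ν = n * (D.2.1 - ∑ j, D.2.2 i j) := by
      change ipW _ D (toRW (Z ν)) = _
      rw [e]
      simp [ipW, toRW, toR_zero, ip_zero_right, mul_sub, Finset.mul_sum, mul_comm]
    have h2 := hD ν
    rw [h1] at h2
    exact sub_nonneg.1 (nonneg_of_mul_nonneg_right h2 (by exact_mod_cast hn))
  · obtain ⟨ν, n, hn, e⟩ := h.tG c hc
    have h1 : Psi Λ.B Z D ν = n * ip Λ.B D.1 (toR c) := by
      change ipW _ D (toRW (Z ν)) = _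
      rw [e]
      simp only [ipW, toRW, toR_nsmul]
      rw [ip_smul_right]
      simp
    have h2 := hD ν
    rw [h1] at h2
    exact nonneg_of_mul_nonneg_right h2 (by exact_mod_cast hn)
  · obtain ⟨ν, n, hn, e⟩ := h.tT c hc j
    have h1 : Psi Λ.B Z D ν = n * ip Λ.B (D.1 - ∑ i, D.2.2 i j • toR (Λ.C i)) (toR c) := by
      change ipW _ D (toRW (Z ν)) = _
      rw [e]
      have h3 : ∀ i, ((ip Λ.B (Λ.C i) (n • c) : ℤ) : ℝ) = n * ip Λ.B (toR (Λ.C i)) (toR c) :=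
        fun i => by rw [← ip_toR, toR_nsmul, ip_smul_right]
      simp only [ipW, toRW, toR_nsmul, ip_sub_left, ip_sum_left, ip_smul_left, ip_smul_right,
        apply_ite, h3]
      simp [mul_sub, Finset.mul_sum, mul_left_comm]
    have h2 := hD ν
    rw [h1] at h2
    exact nonneg_of_mul_nonneg_right h2 (by exact_mod_cast hn)

theorem real {S : Set (W I κ ℝ)} (hS : Submodule.span ℝ (S ∩ Set.range toRW) = ⊤) (g : Aut X)
    (ρ : Matrix I I ℤ) (h : ∀ (D : W I κ ℤ) (ν : Curve X),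
      ipW Λ.B D (Z (ν.push (g.1 : K →ₐ[k] K) fun O => (g.2 O).1)) = ipW Λ.B (actW ρ D) (Z ν))
    (D : W I κ ℝ) : g.act (Psi Λ.B Z D) = Psi Λ.B Z (actW ρ D) := by
  have e : (LinearMap.funLeft ℝ ℝ fun ν : Curve X =>
      ν.push (g.1 : K →ₐ[k] K) fun O => (g.2 O).1) ∘ₗ Psi Λ.B Z = Psi Λ.B Z ∘ₗ actL ρ := by
    refine LinearMap.ext_on hS ?_
    rintro _ ⟨-, E, rfl⟩
    funext ν
    change ipW _ (toRW E) (toRW (Z _)) = ipW _ (actW ρ (toRW E)) (toRW (Z ν))
    rw [show actW ρ (toRW E) = toRW (actW ρ E) by simp only [toRW, actW, toR_act], ipW_toRW,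
      ipW_toRW, h]
  exact LinearMap.congr_fun e D

theorem cover (m : LMods) (h : GeoX X Λ Z) (hg : Hg Λ.B) (l1 : L1 Λ) (ct : CT Λ)
    (hnef : ∀ D ∈ Λ.NX, ∀ ν, 0 ≤ Psi Λ.B Z D ν)
    (hS : Submodule.span ℝ (Λ.NX ∩ Set.range toRW) = ⊤) :
    ∃ R : Finset (W I κ ℝ), (R : Set (W I κ ℝ)) ⊆ LW I κ ∧ cone (R : Set (W I κ ℝ)) ⊆ Λ.NX ∧
      ∀ D ∈ Λ.NX, ∃ g : Aut X, ∃ E ∈ cone (R : Set (W I κ ℝ)),
        Psi Λ.B Z E = g.act (Psi Λ.B Z D) := by
  classical
  rcases h.ns.sq0.lt_or_eq with hF | hF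
  · obtain ⟨R, h1, h2⟩ := m.endA I κ Λ h.ns hg l1 ct hF
    exact ⟨R, h1, h2.subset, fun D hD => ⟨Aut.one, D, h2.superset hD, rfl⟩⟩
  replace hF := hF.symm
  obtain ⟨fin, T, hT⟩ := m.endB1 I κ Λ h.ns hg l1 hF
  obtain ⟨N, hN, ha⟩ := h.aut hF
  have hN' : (N : ℤ) ≠ 0 := by exact_mod_cast hN.ne'
  have hT' := ob_smul hT hN'
  obtain ⟨R, h1, h2⟩ := m.endB3 I κ Λ _ h.ns l1 ct (m.hz I κ Λ h.ns hg l1 ct) hF fin hT'
  refine ⟨R, h1, h2.subset.trans Set.inter_subset_left, fun D hD => ?_⟩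
  obtain ⟨ρ, ⟨g, h3⟩, h4⟩ := m.endB2 I κ Λ _
    {ρ | ∃ g : Aut X, ∀ D, g.act (Psi Λ.B Z D) = Psi Λ.B Z (actW ρ D)} h.ns l1 hF hT'
    ⟨Aut.one, fun D => by rw [actW, act_one]; rfl⟩ (fun n => by
      obtain ⟨ρ, a1, g, a2⟩ := ha (∑ x ∈ T, n ((N : ℤ) • x) • x) (by
        rw [ip_sum_left]
        refine Finset.sum_eq_zero fun x hx => ?_
        have := hT.perp x hx _ (Submodule.subset_span ⟨Λ.F, ⟨h.ns.memC _, hF⟩, rfl⟩)
        rw [ip_toR, Int.cast_eq_zero] at this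
        rw [ip_smul_left, ip_comm h.ns.sym, this, mul_zero])
      refine ⟨ρ, ⟨g, real hS g ρ a2⟩, ?_⟩
      rw [Finset.sum_image fun x _ y _ e => smul_right_injective _ hN' e]
      rw [Finset.smul_sum] at a1
      simpa only [smul_comm (N : ℤ)] using a1) D.1 hD.2.2.1
  refine ⟨g, actW ρ D, h2.superset ⟨nx_of_nef h fun ν => ?_, h4⟩, (h3 D).symm⟩
  rw [← h3]
  exact hnef D hD _

end GlueA

open GlueA in
theorem glue_stmt : GlueStmt := by
  classical
  intro m k K I κ _ _ _ _ _ X Λ Z h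
  have hg := m.hg I Λ.B h.ns.sym h.ns.hodge
  have l1 := m.l1 I κ Λ h.ns hg
  have ct := m.ct I κ Λ h.ns l1
  have key := m.keyC I κ Λ h.ns l1 ct fun h4 =>
    (m.keyA I κ Λ h.ns l1 h4).imp fun J hJ => ⟨hJ, m.keyB I κ Λ J h.ns l1 h4 hJ⟩
  obtain ⟨c2, c3, -⟩ := m.lcB I κ Λ h.ns hg l1 key
  have hnef : ∀ D ∈ Λ.NX, ∀ ν, 0 ≤ Psi Λ.B Z D ν := fun D hD ν =>
    m.lcA I κ Λ h.ns l1 key D hD _ (h.cur ν)
  obtain ⟨R, hRL, hPN, hcov⟩ := cover m h hg l1 ct hnef c3
  have hmem : ∀ D, Psi Λ.B Z D ∈ N1 X := by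
    intro D
    have h1 : D ∈ Submodule.span ℝ (Λ.NX ∩ Set.range toRW) := by rw [c3]; trivial
    have h2 : Submodule.span ℝ (Λ.NX ∩ Set.range toRW) ≤ (N1 X).comap (Psi Λ.B Z) := by
      refine Submodule.span_le.2 ?_
      rintro _ ⟨-, E, rfl⟩
      obtain ⟨C, hC⟩ := h.cart E
      exact Submodule.subset_span ⟨C, (psi_cls hC).symm⟩
    exact h2 h1
  let Φ : W I κ ℝ →ₗ[ℝ] N1 X := (Psi Λ.B Z).codRestrict _ hmem
  have hΦs : Function.Surjective Φ := by
    rintro ⟨ξ, hξ⟩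
    have h2 : N1 X ≤ LinearMap.range (Psi Λ.B Z) := by
      refine Submodule.span_le.2 ?_
      rintro _ ⟨C, rfl⟩
      obtain ⟨N, D, hN, e⟩ := h.cls C
      refine ⟨(N : ℝ)⁻¹ • toRW D, funext fun ν => ?_⟩
      have h3 : (N : ℝ) ≠ 0 := by exact_mod_cast hN
      rw [map_smul]
      change (N : ℝ)⁻¹ * ipW _ (toRW D) (toRW (Z ν)) = (ν.deg C.f : ℝ)
      rw [ipW_toRW, ← e, Int.cast_mul, inv_mul_cancel_left₀ h3]
    obtain ⟨D, rfl⟩ := h2 hξ
    exact ⟨D, rfl⟩
  have hfd : FiniteDimensional ℝ (N1 X) := Module.Finite.of_surjective Φ hΦs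
  have hmove : ∀ D ∈ Λ.NX, ∃ g : Aut X, g.eqv (Φ D) ∈ Φ '' cone (R : Set (W I κ ℝ)) := by
    intro D hD
    obtain ⟨g, E, hE, e⟩ := hcov D hD
    exact ⟨g, E, hE, Subtype.ext e⟩
  have hRE : ∀ D ∈ cone (R : Set (W I κ ℝ)), Φ D ∈ Ef X := by
    refine fun D hD => ((isCone_cone _).preimage Φ).cone_subset (fun r hr => ?_) hD
    obtain ⟨E, rfl⟩ := mem_LW (hRL hr)
    refine ((isCone_cone _).preimage Φ).cone_subset ?_ (c2 E (hPN (subset_cone _ hr)))
    rintro _ ⟨E', hE', rfl⟩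
    obtain ⟨C, hC, e⟩ := h.eff E' hE'
    exact subset_cone _ ⟨C, hC, Subtype.ext (psi_cls e).symm⟩
  have hNE : ∀ D ∈ Λ.NX, Φ D ∈ NEf X := by
    intro D hD
    refine ⟨by rintro _ ⟨ν, rfl⟩; exact hnef D hD ν, ?_⟩
    obtain ⟨g, E, hE, e⟩ := hmove D hD
    have h1 := gEf g.inv (hRE E hE)
    rw [e] at h1
    have h2 : g.inv.eqv (g.eqv (Φ D)) = Φ D := g.eqv.symm_apply_apply _
    rwa [h2] at h1
  refine cone_of_concl (looijenga (Cv := Set.range Curve.lin)
    (P := Φ '' cone (R : Set (W I κ ℝ)))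
    ((isCone_dual _).inter (isCone_cone _)) cvint (fun c hc x hx => hx.1 c hc)
    (fun x hx => Subtype.ext (funext fun ν => hx _ ⟨ν, rfl⟩)) gL gC ?_
    ⟨R.image Φ, ?_, by rw [Finset.coe_image, cone_image]⟩ ?_ ?_)
  · rw [eq_top_iff, ← LinearMap.range_eq_top.2 hΦs, ← Submodule.map_top, ← c3, Submodule.map_span]
    refine Submodule.span_mono ?_
    rintro _ ⟨D, hD, rfl⟩
    exact hNE D hD.1
  · rw [Finset.coe_image]
    rintro _ ⟨r, hr, rfl⟩
    obtain ⟨E, rfl⟩ := mem_LW (hRL hr)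
    obtain ⟨C, hC⟩ := h.cart E
    exact AddSubgroup.subset_closure ⟨C, Subtype.ext (psi_cls hC).symm⟩
  · rintro _ ⟨D, hD, rfl⟩
    exact hNE D (hPN hD)
  · intro x hx
    obtain ⟨D, rfl⟩ := hΦs x
    obtain ⟨g, hg⟩ := hmove D (nx_of_nef h fun ν => hx.1 _ ⟨ν, rfl⟩)
    exact ⟨_, ⟨g, rfl⟩, hg⟩

end Pool.Agent.MP_20d318_ag.CB

end MrgPart7

-- ======== part 8: formerly Pool.Agent.MP_20d318_ag.CB.Inv1
section MrgPart8

/-! A class of degree two on the fibres gives a second function. -/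

set_option autoImplicit false

namespace Pool.Agent.MP_20d318_ag.CB

open Pool.Agent.MP_79c67d_ag Pool.Agent.MP_20d318_ag.AG Pool.Agent.MP_20d318_ag.BV MvPolynomial

namespace Inv1A

variable {k M : Type} [Field k] [Field M] [Algebra k M]

theorem aeval_mem {O : Subalgebra k M} {u : M} (hu : u ∈ O) (c : MvPolynomial (Fin 1) k) :
    aeval ![u] c ∈ O := by
  induction c using MvPolynomial.induction_on with
  | C a => rw [aeval_C]; exact O.algebraMap_mem a
  | add p q hp hq => rw [map_add]; exact O.add_mem hp hq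
  | mul_X p i hp =>
    rw [map_mul, aeval_X]
    refine O.mul_mem hp ?_
    fin_cases i
    exact hu

theorem ev_mem {O : Subalgebra k M} {t u : M} (ht : t ∈ O) (hu : u ∈ O)
    (q : Polynomial (MvPolynomial (Fin 1) k)) :
    Polynomial.eval₂ (aeval ![u] : MvPolynomial (Fin 1) k →ₐ[k] M).toRingHom t q ∈ O := by
  induction q using Polynomial.induction_on' with
  | add p q hp hq => rw [Polynomial.eval₂_add]; exact O.add_mem hp hq
  | monomial n a =>
    rw [Polynomial.eval₂_monomial]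
    exact O.mul_mem (aeval_mem hu a) (O.pow_mem ht n)

theorem ev_eq (t u : M) (p : MvPolynomial (Fin 2) k) :
    aeval ![t, u] p = Polynomial.eval₂ (aeval ![u] : MvPolynomial (Fin 1) k →ₐ[k] M).toRingHom t
      (finSuccEquiv k 1 p) := by
  induction p using MvPolynomial.induction_on with
  | C a =>
    rw [aeval_C, ← algebraMap_eq, AlgEquiv.commutes, Polynomial.algebraMap_apply,
      Polynomial.eval₂_C]
    simp
  | add p q hp hq => rw [map_add, map_add, Polynomial.eval₂_add, hp, hq]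
  | mul_X p i hp =>
    rw [map_mul, map_mul, Polynomial.eval₂_mul, hp, aeval_X]
    congr 1
    refine Fin.cases ?_ (fun j => ?_) i
    · rw [finSuccEquiv_X_zero, Polynomial.eval₂_X]; rfl
    · rw [finSuccEquiv_X_succ, Polynomial.eval₂_C]
      fin_cases j
      simp

theorem ind2 {O : Subalgebra k M} {t u : M} (h0 : t ≠ 0) (ht : t ∈ mx O) (hu : Ind O ![u]) :
    AlgebraicIndependent k ![t, u] := by
  rw [algebraicIndependent_iff]
  intro p hp
  by_contra hne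
  have hq : finSuccEquiv k 1 p ≠ 0 := fun h => hne ((finSuccEquiv k 1).map_eq_zero_iff.1 h)
  obtain ⟨r, hr, hr0⟩ := Polynomial.exists_eq_pow_rootMultiplicity_mul_and_not_dvd _ hq 0
  rw [ev_eq, hr, Polynomial.eval₂_mul, Polynomial.eval₂_pow, map_zero, sub_zero,
    Polynomial.eval₂_X] at hp
  have h1 := (mul_eq_zero.1 hp).resolve_left (pow_ne_zero _ h0)
  rw [map_zero, sub_zero, Polynomial.X_dvd_iff] at hr0
  have h2 := hu.2 _ hr0
  rw [← Polynomial.X_mul_divX_add r, Polynomial.eval₂_add, Polynomial.eval₂_mul,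
    Polynomial.eval₂_X, Polynomial.eval₂_C] at h1
  have h3 := ev_mem ht.1 (hu.1 0) r.divX
  refine ht.2 ⟨h0, ht.1, ?_⟩
  set w := Polynomial.eval₂ (aeval ![u] : MvPolynomial (Fin 1) k →ₐ[k] M).toRingHom t r.divX
  set c : M := aeval ![u] (r.coeff 0)
  have h4 : t * w + c = 0 := h1
  have h5 : t⁻¹ = -w * c⁻¹ := by
    have := h2.1
    field_simp
    linear_combination h4
  rw [h5]
  exact O.mul_mem (O.neg_mem h3) h2.2.2

end Inv1A

theorem inv1_stmt : Inv1Stmt := by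
  intro k M I κ _ _ _ _ _ _ _ p t ψ₁ P₀ hp hL hc D hD
  have sym := ip_comm (R := ℤ) hp.all.s.sym
  have FF : ip p.B p.F p.F = 0 := hc.sq
  have KF : ip p.B p.K p.F = 0 := by
    have h : ip p.B p.F p.F = -2 * ip p.B p.K p.F := hL.CK p.k0
    omega
  have hF : p.F ∈ p.PP := ⟨_, _, hc.prm⟩
  have nef : p.ld.Nef p.F := hL.pn p.F hF FF.ge
  have hpos : 0 < ip p.B p.h p.F := hp.all.a1.hpos _ hF
  have e1 : ∀ (y : I → ℤ) (m : ℤ), ip p.B y (D + m • p.F) = ip p.B y D + m * ip p.B y p.F :=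
    fun y m => by rw [ip_add_right, ip_smul_right]
  have low : ∀ m : ℤ, chi2 p.B p.K D + 4 * m ≤ 2 * p.h0 (D + m • p.F) := by
    intro m
    have h1 : p.K - (D + m • p.F) ∉ p.Ef := fun h => by
      have h2 : 0 ≤ ip p.B p.F (p.K - (D + m • p.F)) := hL.efn _ nef _ h
      rw [ip_sub_right, e1, sym p.F p.K, sym p.F D, KF, FF, hD] at h2
      omega
    have h2 := hp.all.a4.rr2 _ h1
    have h3 : chi2 p.B p.K (D + m • p.F) = chi2 p.B p.K D + 4 * m := by
      unfold chi2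
      rw [e1, e1, KF, sym (D + m • p.F) D, sym (D + m • p.F) p.F, e1, e1, FF, sym p.F D, hD]
      ring
    omega
  set m₀ : ℤ := -|ip p.B p.h D| - 1 with hm₀
  have z0 : p.h0 (D + m₀ • p.F) = 0 := by
    have hb : p.Sec (D + m₀ • p.F) = ⊥ := by
      rw [eq_bot_iff]
      intro φ hφ
      by_contra h0
      have h1 := hp.all.a2.eff1 _ φ hφ h0
      have h2 : ip p.B p.h (D + m₀ • p.F) < 0 := by
        rw [e1]
        have := le_abs_self (ip p.B p.h D)
        have := abs_nonneg (ip p.B p.h D)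
        nlinarith
      by_cases h3 : D + m₀ • p.F = 0
      · rw [h3, ip_zero_right] at h2
        exact lt_irrefl _ h2
      · exact lt_asymm h2 (hL.hef _ h1 h3)
    unfold Sd.h0
    rw [hb, finrank_bot]
    rfl
  have jump : ∃ m : ℤ, p.h0 (D + m • p.F - p.F) + 2 ≤ p.h0 (D + m • p.F) := by
    by_contra hn
    push Not at hn
    have up : ∀ n : ℕ, p.h0 (D + (m₀ + n) • p.F) ≤ n := by
      intro n
      induction n with
      | zero => rw [Nat.cast_zero, add_zero, z0]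
      | succ n ih =>
        have h1 := hn (m₀ + (n + 1 : ℕ))
        have h2 : D + (m₀ + ((n + 1 : ℕ) : ℤ)) • p.F - p.F = D + (m₀ + n) • p.F := by
          push_cast
          rw [← add_assoc, add_smul _ (1 : ℤ), one_smul]
          abel
        rw [h2] at h1
        push_cast at h1 ⊢
        omega
    have h1 := up (|chi2 p.B p.K D + 4 * m₀| + 1).toNat
    have h2 := low (m₀ + (|chi2 p.B p.K D + 4 * m₀| + 1).toNat)
    have h3 := neg_abs_le (chi2 p.B p.K D + 4 * m₀)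
    have h4 := abs_nonneg (chi2 p.B p.K D + 4 * m₀)
    omega
  obtain ⟨m, hm⟩ := jump
  obtain ⟨s, hs, s', hs', hu, hi⟩ := hp.all.a3.res2 _ _ _ hc.prm _ hm
  have t0 : t ≠ 0 := fun h => by
    have := hc.ord
    rw [h] at this
    simp at this
  refine ⟨m, s, hs, s', hs', left_ne_zero_of_mul hu.1, Inv1A.ind2 t0 ?_ hi⟩
  rw [mx_plO t0, hc.ord]
  exact one_pos

end Pool.Agent.MP_20d318_ag.CB

end MrgPart8

-- ======== part 9: formerly Pool.Agent.MP_20d318_ag.CB.Inv2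
section MrgPart9

/-! The degree of the map `(t, s / s')`. -/

set_option autoImplicit false

namespace Pool.Agent.MP_20d318_ag.CB

open Pool.Agent.MP_79c67d_ag Pool.Agent.MP_20d318_ag.AG Pool.Agent.MP_20d318_ag.BV MvPolynomial
open Pool.Agent.MP_20d318_ag.RS (jac)
open scoped IntermediateField

namespace Inv2

theorem num {n x y : ℤ} (hn : 0 < n)
    (h : ∀ a : ℕ, ∃ c : ℤ, ∀ b : ℕ, n * (a + 1) * (b + 1) ≤ c + b * max 0 (x + a * y + 1)) :
    n ≤ y := by
  have h1 : ∀ a : ℕ, n * (a + 1) ≤ x + a * y + 1 := by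
    intro a
    obtain ⟨c, hc⟩ := h a
    have h2 : n * (a + 1) ≤ max 0 (x + a * y + 1) := by
      by_contra h3
      have h4 := hc c.toNat
      have h5 : c ≤ (c.toNat : ℤ) := Int.self_le_toNat c
      have h6 : (0 : ℤ) ≤ c.toNat := Int.natCast_nonneg _
      have h7 : 0 ≤ max 0 (x + a * y + 1) := le_max_left _ _
      generalize max 0 (x + a * y + 1) = m at *
      generalize n * (a + 1) = w at *
      generalize (c.toNat : ℤ) = b at *
      nlinarith
    have h3 : 0 < n * ((a : ℤ) + 1) := by positivity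
    rcases le_max_iff.1 h2 with h4 | h4
    · omega
    · exact h4
  by_contra h2
  have h3 := h1 (x.toNat + 1)
  have h5 : x ≤ (x.toNat : ℤ) := Int.self_le_toNat x
  have h6 : (0 : ℤ) ≤ x.toNat := Int.natCast_nonneg _
  push_cast at h3
  generalize (x.toNat : ℤ) = b at *
  nlinarith

variable {k M : Type} [Field k] [Field M] [Algebra k M]

theorem mono {t u : M} (h : AlgebraicIndependent k ![t, u]) (a b : ℕ) :
    LinearIndependent k fun q : Fin a × Fin b => u ^ (q.1 : ℕ) * t ^ (q.2 : ℕ) := by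
  have h1 := (basisMonomials (Fin 2) k).linearIndependent.map'
    (aeval (R := k) ![t, u]).toLinearMap (LinearMap.ker_eq_bot.2 h)
  have h2 := h1.comp (fun q : Fin a × Fin b =>
    (Finsupp.single 1 (q.1 : ℕ) + Finsupp.single 0 (q.2 : ℕ) : Fin 2 →₀ ℕ)) (by
      intro q q' e
      have e0 := DFunLike.congr_fun e 0
      have e1 := DFunLike.congr_fun e 1
      simp at e0 e1
      exact Prod.ext (Fin.ext e1) (Fin.ext e0))
  refine (congrArg (fun v : Fin a × Fin b → M => LinearIndependent k v)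
    (funext fun q => ?_)).mp h2
  simp [monomial_add_single, aeval_monomial]

variable {I : Type} [Fintype I] {S : Sd k M I}

theorem one : (1 : M) ∈ S.Sec 0 := fun O _ => by rw [S.lb_zero, mul_one]; exact O.one_mem

theorem pow (h : A2 S) {D : I → ℤ} {s : M} (hs : s ∈ S.Sec D) (n : ℕ) :
    s ^ n ∈ S.Sec (n • D) := by
  induction n with
  | zero => rw [pow_zero, zero_smul]; exact one
  | succ n ih => rw [pow_succ, succ_nsmul]; exact h.mul _ _ _ ih _ hs

theorem den (h : A2 S) (s : Finset M) :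
    ∃ E μ, μ ≠ 0 ∧ μ ∈ S.Sec E ∧ ∀ m ∈ s, μ * m ∈ S.Sec E := by
  classical
  induction s using Finset.induction_on with
  | empty => exact ⟨0, 1, one_ne_zero, one, by simp⟩
  | insert x s _ ih =>
    obtain ⟨E, μ, h0, h1, h2⟩ := ih
    obtain ⟨c, ν, g0, g1, g2⟩ := h.den x
    refine ⟨E + c, μ * ν, mul_ne_zero h0 g0, h.mul _ _ _ h1 _ g1, fun m hm => ?_⟩
    rcases Finset.mem_insert.1 hm with rfl | hm
    · rw [mul_assoc]
      exact h.mul _ _ _ h1 _ g2
    · rw [mul_right_comm]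
      exact h.mul _ _ _ (h2 m hm) _ g1

theorem step (h : A3 S) {F : I → ℤ} {φ : M} {P : Place k M} (hP : S.Prm F φ P)
    (hF : ip S.B F F = 0) (G : I → ℤ) (b : ℕ) :
    S.h0 (G + b • F) ≤ S.h0 G + b * max 0 (ip S.B G F + 1) := by
  induction b with
  | zero => simp
  | succ b ih =>
    have h1 := h.res F φ P hP (G + (b + 1) • F)
    rw [ip_add_left, ip_nsmul_left, hF, mul_zero, add_zero, succ_nsmul, ← add_assoc,
      add_sub_cancel_right] at h1
    rw [succ_nsmul, ← add_assoc]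
    push_cast
    linarith

theorem split {D : I → ℤ} {x y : M} (h : A2 S) (hx : x ∈ S.Sec D) (hy : y ∈ S.Sec D)
    (hy0 : y ≠ 0) {a j : ℕ} (hj : j ≤ a) : y ^ a * (x / y) ^ j ∈ S.Sec (a • D) := by
  obtain ⟨d, rfl⟩ := Nat.exists_eq_add_of_le hj
  have e : y ^ (j + d) * (x / y) ^ j = x ^ j * y ^ d := by
    rw [div_pow, pow_add]
    field_simp
  rw [e, add_nsmul]
  exact h.mul _ _ _ (pow h hx j) _ (pow h hy d)

theorem count (h : SAll S) {D F E : I → ℤ} {s s' ψ ψ₁ μ : M} (hs : s ∈ S.Sec D)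
    (hs' : s' ∈ S.Sec D) (hs0 : s' ≠ 0) (hψ : ψ ∈ S.Sec F) (hψ₁ : ψ₁ ∈ S.Sec F) (hψ0 : ψ₁ ≠ 0)
    (hi : AlgebraicIndependent k ![ψ / ψ₁, s / s']) (hμ : μ ≠ 0) (T : Finset M)
    (hT : LinearIndependent k⟮ψ / ψ₁, s / s'⟯ fun i : T => (i : M))
    (hE : ∀ m ∈ T, μ * m ∈ S.Sec E) (a b : ℕ) :
    (T.card : ℤ) * (a + 1) * (b + 1) ≤ S.h0 (E + a • D + b • F) := by
  have ht : ψ / ψ₁ ∈ k⟮ψ / ψ₁, s / s'⟯ := IntermediateField.subset_adjoin _ _ (by simp)
  have hu : s / s' ∈ k⟮ψ / ψ₁, s / s'⟯ := IntermediateField.subset_adjoin _ _ (by simp)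
  have h1 : LinearIndependent k fun q : Fin (a + 1) × Fin (b + 1) =>
      (⟨(s / s') ^ (q.1 : ℕ) * (ψ / ψ₁) ^ (q.2 : ℕ), mul_mem (pow_mem hu _) (pow_mem ht _)⟩ :
        k⟮ψ / ψ₁, s / s'⟯) :=
    LinearIndependent.of_comp (k⟮ψ / ψ₁, s / s'⟯).val.toLinearMap (mono hi (a + 1) (b + 1))
  have hw : μ * s' ^ a * ψ₁ ^ b ≠ 0 := mul_ne_zero (mul_ne_zero hμ (pow_ne_zero _ hs0))
    (pow_ne_zero _ hψ0)
  have h2 := (linearIndependent_smul h1 hT).map' (LinearMap.mulLeft k (μ * s' ^ a * ψ₁ ^ b))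
    (LinearMap.ker_eq_bot.2 (mul_right_injective₀ hw))
  have h3 : ∀ q : (Fin (a + 1) × Fin (b + 1)) × T, μ * s' ^ a * ψ₁ ^ b *
      ((s / s') ^ (q.1.1 : ℕ) * (ψ / ψ₁) ^ (q.1.2 : ℕ) * q.2) ∈ S.Sec (E + a • D + b • F) := by
    intro q
    have h4 := h.a2.mul _ _ _ (h.a2.mul _ _ _ (hE _ q.2.2) _
      (split h.a2 hs hs' hs0 (Nat.lt_succ_iff.1 q.1.1.2))) _
      (split h.a2 hψ hψ₁ hψ0 (Nat.lt_succ_iff.1 q.1.2.2))
    convert h4 using 1
    ring
  have h5 : LinearIndependent k fun q => (⟨_, h3 q⟩ : S.Sec (E + a • D + b • F)) :=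
    LinearIndependent.of_comp (S.Sec (E + a • D + b • F)).subtype h2
  have := h.s.fd (E + a • D + b • F)
  have h6 := h5.fintype_card_le_finrank
  simp only [Fintype.card_prod, Fintype.card_fin, Fintype.card_coe] at h6
  unfold Sd.h0
  have e : (T.card : ℤ) * (a + 1) * (b + 1) = (((a + 1) * (b + 1) * T.card : ℕ) : ℤ) := by
    push_cast
    ring
  rw [e]
  exact Int.ofNat_le.2 h6

end Inv2

theorem inv2_stmt : Inv2Stmt := by
  intro k M I κ _ _ _ _ _ _ _ p t ψ₁ P₀ hp hc D s hs s' hs' hs0 hi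
  have ha := hp.all
  obtain rfl := hc.eq
  have key : Module.rank k⟮p.ψ p.k0 / ψ₁, s / s'⟯ M ≤ (ip p.B D p.F).toNat := by
    refine rank_le fun T hT => ?_
    rcases Nat.eq_zero_or_pos T.card with h0 | h0
    · omega
    obtain ⟨E, μ, hμ, -, hE⟩ := Inv2.den ha.a2 T
    have h1 : (T.card : ℤ) ≤ ip p.B D p.F := by
      refine Inv2.num (x := ip p.B E p.F) (Int.natCast_pos.2 h0) fun a =>
        ⟨p.h0 (E + a • D), fun b => ?_⟩
      have h2 := Inv2.step ha.a3 hc.prm hc.sq (E + a • D) b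
      rw [ip_add_left, ip_nsmul_left] at h2
      exact (Inv2.count ha hs hs' hs0 (ha.a1.pmem _ _ _ hc.prm) hc.sec hc.ne hi hμ T hT hE a
        b).trans h2
    omega
  have hf : FiniteDimensional k⟮p.ψ p.k0 / ψ₁, s / s'⟯ M :=
    Module.rank_lt_aleph0_iff.1 (key.trans_lt (Cardinal.natCast_lt_aleph0))
  refine ⟨hf, ?_⟩
  have h1 := Module.finrank_le_of_rank_le key
  have h2 : 0 < Module.finrank k⟮p.ψ p.k0 / ψ₁, s / s'⟯ M := Module.finrank_pos
  omega

end Pool.Agent.MP_20d318_ag.CB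

end MrgPart9

-- ======== part 10: formerly Pool.Agent.MP_20d318_ag.CB.Inv3
section MrgPart10

/-! The general fibre of the pencil is not rational. -/

set_option autoImplicit false

namespace Pool.Agent.MP_20d318_ag.CB

open Pool.Agent.MP_79c67d_ag Pool.Agent.MP_20d318_ag.AG Pool.Agent.MP_20d318_ag.BV
open Pool.Agent.MP_20d318_ag.RS (jac)
open scoped IntermediateField

namespace Inv3

open Polynomial IsDedekindDomain

variable {k K M : Type} [Field k] [Field K] [Field M] [Algebra k M] [Algebra K M]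
  {D : Derivation k M M}

theorem der (hD : ∀ c : K, D (algebraMap K M c) = 0) (u : M) (q : K[X]) :
    D (aeval u q) = aeval u (derivative q) * D u := by
  induction q using Polynomial.induction_on' with
  | add p q hp hq => simp only [map_add, hp, hq, add_mul]
  | monomial n a =>
    simp only [aeval_monomial, derivative_monomial, Derivation.leibniz, Derivation.leibniz_pow,
      hD, smul_eq_mul, nsmul_eq_mul, map_mul, map_natCast]
    ring

theorem tr [CharZero K] (hD : ∀ c : K, D (algebraMap K M c) = 0) {u : M} (hu : D u ≠ 0) :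
    Transcendental K u := fun ha => by
  have h := der hD u (minpoly K u)
  rw [minpoly.aeval, map_zero] at h
  exact mul_ne_zero ((minpoly.irreducible ha.isIntegral).separable.aeval_derivative_ne_zero
    (minpoly.aeval K u)) hu h.symm

theorem core [CharZero K] (hD : ∀ c : K, D (algebraMap K M c) = 0) {φ u : M} (hφ : φ ≠ 0)
    (H : ∀ (P : Place K M) (π : M), P.ord π = 1 → P.v (φ * D π ^ 2) = 1) (hu : D u ≠ 0)
    (ht : ∀ f : M, f ∈ K⟮u⟯) : ∃ c : K, φ * D u ^ 2 = algebraMap K M c := by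
  have htr := tr hD hu
  have hinj : Function.Injective (aeval u : K[X] →ₐ[K] M) := transcendental_iff_injective.1 htr
  let : Algebra K[X] M := (aeval u : K[X] →ₐ[K] M).toRingHom.toAlgebra
  have he : ∀ a : K[X], algebraMap K[X] M a = aeval u a := fun _ => rfl
  have : FaithfulSMul K[X] M := (faithfulSMul_iff_algebraMap_injective _ _).2 hinj
  have : IsFractionRing K[X] M := IsFractionRing.of_field _ _ fun f => by
    obtain ⟨a, b, h⟩ := (IntermediateField.mem_adjoin_simple_iff K f).1 (ht f)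
    exact ⟨a, b, h⟩
  have key : ∀ v : HeightOneSpectrum K[X], v.valuation M (φ * D u ^ 2) = 1 := fun v => by
    obtain ⟨q, hq⟩ := (IsPrincipalIdealRing.principal v.asIdeal).principal
    have hq' : v.asIdeal = Ideal.span {q} := hq
    have hq0 : q ≠ 0 := fun h => v.ne_bot (by rw [hq', h, Ideal.span_singleton_eq_bot])
    have hp : Prime q := (Ideal.span_singleton_prime hq0).1 (hq' ▸ v.isPrime)
    have h1 : v.valuation M (aeval u q) = WithZero.exp (-1 : ℤ) :=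
      (v.valuation_of_algebraMap (K := M) q).trans (v.intValuation_singleton hq0 hq')
    have h2 : v.valuation M (aeval u (derivative q)) = 1 := by
      rw [← he, v.valuation_eq_one_iff_notMem, hq', Ideal.mem_span_singleton]
      exact fun hd => hp.not_isUnit (hp.irreducible.separable.isUnit_of_dvd' dvd_rfl hd)
    have h3 := H ⟨v.valuation M, v.valuation_surjective M, fun c => by
      have := v.valuation_le_one (K := M) (C c)
      rwa [← aeval_C u c]⟩ (aeval u q) (by simp [Place.ord, h1])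
    change v.valuation M _ = 1 at h3
    rw [der hD, mul_pow, mul_left_comm, map_mul, map_pow, h2, one_pow, one_mul] at h3
    exact h3
  obtain ⟨a, ha⟩ := HeightOneSpectrum.mem_integers_of_valuation_le_one (R := K[X]) M
    (φ * D u ^ 2) fun v => (key v).le
  obtain ⟨b, hb⟩ := HeightOneSpectrum.mem_integers_of_valuation_le_one (R := K[X]) M
    (φ * D u ^ 2)⁻¹ fun v => by rw [map_inv₀, key v, inv_one]
  have hab : a * b = 1 := hinj (by
    rw [map_mul, map_one, ← he, ← he, ha, hb, mul_inv_cancel₀ (mul_ne_zero hφ (pow_ne_zero 2 hu))])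
  obtain ⟨c, -, rfl⟩ := Polynomial.isUnit_iff.1 (IsUnit.of_mul_eq_one b hab)
  exact ⟨c, by rw [← ha, he, aeval_C]⟩

theorem main [CharZero K] (hD : ∀ c : K, D (algebraMap K M c) = 0) {φ u : M} (hφ : φ ≠ 0)
    (H : ∀ (P : Place K M) (π : M), P.ord π = 1 → P.v (φ * D π ^ 2) = 1) (hu : D u ≠ 0)
    (ht : ∀ f : M, f ∈ K⟮u⟯) : False := by
  have hu0 : u ≠ 0 := by rintro rfl; exact hu (map_zero D)
  have hi : D u⁻¹ = -(u⁻¹ ^ 2) * D u := by rw [Derivation.leibniz_inv, smul_eq_mul]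
  obtain ⟨c, hc⟩ := core hD hφ H hu ht
  obtain ⟨c', hc'⟩ := core hD hφ H (u := u⁻¹)
    (by rw [hi]; exact mul_ne_zero (neg_ne_zero.2 (pow_ne_zero 2 (inv_ne_zero hu0))) hu)
    fun f => IntermediateField.adjoin_simple_le_iff.2
      (by simpa using inv_mem (IntermediateField.mem_adjoin_simple_self K u⁻¹)) (ht f)
  have h4 : algebraMap K M c' * u ^ 4 = algebraMap K M c := by
    rw [← hc, ← hc', hi]; field_simp
  have h5 := congrArg D h4
  rw [Derivation.leibniz, Derivation.leibniz_pow, hD, hD, ← hc', hi] at h5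
  simp only [smul_eq_mul, nsmul_eq_mul, mul_zero, add_zero] at h5
  have : CharZero M := charZero_of_injective_algebraMap (algebraMap K M).injective
  simp [hφ, hu, hu0] at h5

end Inv3

theorem inv3_stmt : Inv3Stmt := by
  intro k M I κ _ _ _ _ _ _ _ p t ψ₁ P₀ h0 hc r u hr hi htop
  obtain ⟨D, hD⟩ := h0.all.jc.lin p.D₁ p.D₂ t 1
  simp only [one_mul] at hD
  have hDt : D t = 0 := by rw [hD, jac]; ring
  have hK : ∀ c : k⟮t, r⟯, D (algebraMap k⟮t, r⟯ M c) = 0 := by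
    rintro ⟨c, hc⟩
    change D c = 0
    induction hc using IntermediateField.adjoin_induction with
    | mem x hx =>
      rcases hx with rfl | rfl
      exacts [hDt, h0.all.jc.alg D t _ hDt hr]
    | algebraMap c => exact D.map_algebraMap c
    | add x y _ _ hx hy => rw [map_add, hx, hy, add_zero]
    | inv x _ hx => rw [Derivation.leibniz_inv, hx, smul_zero]
    | mul x y _ _ hx hy => rw [Derivation.leibniz, hx, hy, smul_zero, smul_zero, add_zero]
  have h1 : AlgebraicIndependent k ![t] := by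
    convert hi.comp ![0] (Function.injective_of_subsingleton _) using 1
    funext i; fin_cases i; rfl
  have htK : t ∈ k⟮t, r⟯ := IntermediateField.subset_adjoin _ _ (Set.mem_insert _ _)
  have : CharZero k⟮t, r⟯ := charZero_of_injective_algebraMap (algebraMap k _).injective
  refine Inv3.main hK (u := u) h0.φne (fun P π hπ => ?_) ?_ fun f => ?_
  · let P' : Place k M := ⟨P.v, P.surj, fun c => P.triv (algebraMap k k⟮t, r⟯ c)⟩
    have hm : ∀ c ∈ k⟮t, r⟯, c ∈ plO P' := fun c hc => P.triv ⟨c, hc⟩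
    have ht1 : ∀ i, ![t] i ∈ k⟮t, r⟯.toSubalgebra := fun i => by fin_cases i; exact htK
    have hu := hc.unit P' π ⟨fun i => hm _ (ht1 i), fun q hq => ⟨fun h => hq
      (algebraicIndependent_iff.1 h1 q h), hm _ (aeval_mem ht1 q),
      hm _ (inv_mem (show _ ∈ k⟮t, r⟯ from aeval_mem ht1 q))⟩⟩ hπ
    have h2 : P.v (p.φ * p.j t π ^ 2)⁻¹ ≤ 1 := hu.2.2
    rw [map_inv₀, inv_le_one₀ (zero_lt_iff.2 ((map_ne_zero P.v).2 hu.1))] at h2
    rw [hD]
    exact le_antisymm hu.2.1 h2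
  · rw [hD]
    exact h0.all.jc.ne p.D₁ p.D₂ p.x p.y t u h0.gen h0.jne hi
  · have h2 : f ∈ (k⟮t, r⟯⟮u⟯).restrictScalars k := by
      rw [IntermediateField.adjoin_adjoin_left, Set.insert_union, Set.singleton_union, htop]
      trivial
    exact h2

end Pool.Agent.MP_20d318_ag.CB

end MrgPart10

-- ======== part 11: formerly Pool.Agent.MP_20d318_ag.CB.Inv4
section MrgPart11

/-! Row INV4: the involution of the quadratic extension preserves the form up to sign. -/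

set_option autoImplicit false

namespace Pool.Agent.MP_20d318_ag.CB

open Pool.Agent.MP_79c67d_ag Pool.Agent.MP_20d318_ag.AG Pool.Agent.MP_20d318_ag.BV MvPolynomial
open Pool.Agent.MP_20d318_ag.RS (jac)
open scoped IntermediateField

namespace Inv4

variable {k M : Type} [Field k] [Field M] [Algebra k M]

/-- The generator of the Galois group of a quadratic extension. -/
theorem gal [CharZero k] (E : IntermediateField k M) [FiniteDimensional E M]
    (h : Module.finrank E M = 2) : ∃ σ : M ≃ₐ[k] M, (∀ m, σ (σ m) = m) ∧ ∀ m, σ m = m ↔ m ∈ E := by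
  classical
  have : CharZero E := algebraRat.charZero E
  have : Algebra.IsQuadraticExtension E M := ⟨h⟩
  have hc : Nat.card (M ≃ₐ[E] M) = 2 := (IsGalois.card_aut_eq_finrank E M).trans h
  obtain ⟨τ, h1, h2⟩ := (Nat.card_eq_two_iff' (1 : M ≃ₐ[E] M)).1 hc
  refine ⟨τ.restrictScalars k, fun m => ?_, fun m => ⟨fun hm => ?_, fun hm => τ.commutes ⟨m, hm⟩⟩⟩
  · have : τ ^ 2 = 1 := hc ▸ pow_card_eq_one'
    exact (DFunLike.congr_fun (pow_two τ).symm m).trans (DFunLike.congr_fun this m)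
  · obtain ⟨a, rfl⟩ := (IsGalois.mem_range_algebraMap_iff_fixed m).2 fun f : M ≃ₐ[E] M => by
      rcases eq_or_ne f 1 with rfl | e
      exacts [rfl, h2 f e ▸ hm]
    exact a.2

/-- The pull-back of a place. -/
def pull (P : Place k M) (σ : M ≃ₐ[k] M) : Place k M where
  v := P.v.comap (σ : M →+* M)
  surj := P.surj.comp σ.surjective
  triv c := (congrArg P.v (σ.commutes c)).trans_le (P.triv c)

theorem isU_pull (P : Place k M) (σ : M ≃ₐ[k] M) (a : M) :
    IsU (plO (pull P σ)) a ↔ IsU (plO P) (σ a) := (isU_plO _).trans (isU_plO P).symm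

theorem ind_pull {P : Place k M} {σ : M ≃ₐ[k] M} {t : M} (ht : σ t = t) (h : Ind (plO P) ![t]) :
    Ind (plO (pull P σ)) ![t] := by
  have e : (fun i => σ (![t] i)) = ![t] := by
    funext i
    fin_cases i
    exact ht
  refine ⟨fun i => ?_, fun q hq => (isU_pull P σ _).2 ?_⟩
  · have := h.1 i
    rw [← e] at this
    exact this
  · have : σ (aeval ![t] q) = aeval (fun i => σ (![t] i)) q :=
      comp_aeval_apply (φ := (σ : M →ₐ[k] M)) (f := ![t]) q
    rw [this, e]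
    exact h.2 q hq

end Inv4

open Inv4 in
theorem inv4_stmt : Inv4Stmt := by
  intro k M I κ _ _ _ _ _ _ _ p t ψ₁ u P₀ hp hc hi hn hf hle
  have mt : t ∈ k⟮t, u⟯ := IntermediateField.subset_adjoin _ _ (by simp)
  have mu : u ∈ k⟮t, u⟯ := IntermediateField.subset_adjoin _ _ (by simp)
  have sub : ∀ r : M, k⟮t, u⟯ ≤ k⟮t, r, u⟯ := fun r =>
    IntermediateField.adjoin.mono _ _ _ (by intro a; simp; tauto)
  have two : Module.finrank k⟮t, u⟯ M = 2 := by
    have h1 : 0 < Module.finrank k⟮t, u⟯ M := Module.finrank_pos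
    have h2 : Module.finrank k⟮t, u⟯ M ≠ 1 := fun e => hn 0 isAlgebraic_zero
      (top_unique (IntermediateField.finrank_eq_one_iff_eq_top.1 e ▸ sub 0))
    omega
  obtain ⟨σ, inv, fix⟩ := gal k⟮t, u⟯ two
  have ft := (fix t).2 mt
  have fu := (fix u).2 mu
  have hj : p.j t u ≠ 0 := hp.all.jc.ne _ _ _ _ _ _ hp.gen hp.jne hi
  have hom : ∀ a b, σ (p.j a b) * p.j t u = σ (p.j t u) * p.j (σ a) (σ b) := fun a b => by
    have := hp.all.jc.hom p.D₁ p.D₂ _ _ hp.gen σ a b t u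
    rwa [ft, fu] at this
  have hg : p.φ * p.j t u ^ 2 ≠ 0 := mul_ne_zero hp.φne (pow_ne_zero _ hj)
  obtain ⟨r, hr⟩ : ∃ r, σ (p.φ * p.j t u ^ 2) = r * (p.φ * p.j t u ^ 2) :=
    ⟨_, (div_mul_cancel₀ _ hg).symm⟩
  have key : ∀ a b, σ (p.φ * p.j a b ^ 2) = r * (p.φ * p.j (σ a) (σ b) ^ 2) := fun a b => by
    refine mul_right_cancel₀ (pow_ne_zero 2 hj) ?_
    rw [map_mul, map_pow] at hr ⊢
    rw [mul_assoc, ← mul_pow, hom, mul_pow, ← mul_assoc, hr]
    ring
  have r1 : σ r * r = 1 := by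
    have := congrArg σ hr
    rw [inv, map_mul σ r, hr, ← mul_assoc] at this
    exact mul_right_cancel₀ hg (by rw [← this, one_mul])
  have alg : IsAlgebraic k⟮t⟯ r := hc.alg r (right_ne_zero_of_mul_eq_one r1) fun P hP => by
    have h1 := hc.unit P _ hP P.ord_unif
    have h2 := (isU_pull P σ _).1 (hc.unit (pull P σ) (σ P.unif) (ind_pull ft hP)
      ((congrArg P.ord (inv _)).trans P.ord_unif))
    rw [key, ft, inv] at h2
    have := h2.div h1
    rw [mul_div_cancel_right₀ _ h1.ne] at this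
    exact ((isU_plO' P).1 this).2
  have rr : σ r = r := by
    by_contra e
    refine hn r alg (top_unique fun m _ => ?_)
    have e' : r - σ r ≠ 0 := sub_ne_zero.2 (Ne.symm e)
    have b : σ ((m - σ m) / (r - σ r)) = (m - σ m) / (r - σ r) := by
      rw [map_div₀, map_sub, map_sub, inv, inv, ← neg_sub m, ← neg_sub r, neg_div_neg_eq]
    have a : σ (m - (m - σ m) / (r - σ r) * r) = m - (m - σ m) / (r - σ r) * r := by
      rw [map_sub, map_mul, b]
      field_simp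
      ring
    have := add_mem (sub r ((fix _).1 a)) (mul_mem (sub r ((fix _).1 b))
      (IntermediateField.subset_adjoin k {t, r, u} (by simp : r ∈ _)))
    rwa [sub_add_cancel] at this
  rw [rr] at r1
  refine ⟨σ, hi, two, ft, fu, inv, fun m => (fix m).1, ?_⟩
  rcases mul_self_eq_one_iff.1 r1 with rfl | rfl
  · exact ⟨1, one_ne_zero, fun a b => by rw [key, map_one]⟩
  · exact ⟨-1, neg_ne_zero.2 one_ne_zero, fun a b => by rw [key, map_neg, map_one]⟩

end Pool.Agent.MP_20d318_ag.CB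

end MrgPart11

-- ======== part 12: formerly Pool.Agent.MP_20d318_ag.CB.Mw1
section MrgPart12

/-! The vector field attached to a point of the twisted elliptic curve is regular. -/

set_option autoImplicit false

namespace Pool.Agent.MP_20d318_ag.CB

open Pool.Agent.MP_79c67d_ag Pool.Agent.MP_20d318_ag.AG Pool.Agent.MP_20d318_ag.BV MvPolynomial
open Pool.Agent.MP_20d318_ag.RS (jac)

/-- MW1. -/
theorem mw1_stmt : Mw1Stmt := by
  intro k M I κ _ _ _ _ _ _ _ p l hp l0 l1 a b hb h O hO f hf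
  refine hp.all.a1.nice.krull hO fun P hP hle => ?_
  obtain ⟨c, d, hcd⟩ := hp.all.a1.chart _ hP
  have hj : p.j c d ≠ 0 := fun e => (hp.chart _ hP c d hcd).ne (by rw [e, zero_div])
  obtain ⟨D, hD⟩ := hp.all.jc.lin p.D₁ p.D₂ f (p.j c d)⁻¹
  have hpres : ∀ g ∈ plO P, D g ∈ plO P := by
    intro g hg
    obtain ⟨J, hJ, e⟩ := hp.all.jc.jacM _ c d hcd f (hle hf) g hg
    have : D g = J := by
      rw [hD, e p.D₁ p.D₂]
      change (p.j c d)⁻¹ * (J * p.j c d) = J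
      field_simp
    rwa [this]
  have hc : c ∈ plO P := hcd.2.2.1 (Algebra.subset_adjoin (by simp))
  have hd : d ∈ plO P := hcd.2.2.1 (Algebra.subset_adjoin (by simp))
  have h0 := mem_plO_ord.1 (hp.reg _ hP c hc d hd)
  rw [pow_two, ← mul_assoc, P.ord_mul (mul_ne_zero hp.φne hj) hj] at h0
  have h1 := Mw.key (m := 0) hpres l0 l1 hb (mul_ne_zero hp.φne hj) hj
    (by rw [h]; ring : b ^ 2 * p.j c d =
      p.φ * p.j c d * (a * (a - 1) * (a - algebraMap k M l))) (by omega)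
  have e : p.φ / b * p.j a f = -(p.φ * p.j c d * D a / b) := by
    rw [hD]
    have : p.j a f = -jac p.D₁ p.D₂ f a := by simp only [Pd.j, jac]; ring
    rw [this]
    field_simp
  rw [e]
  exact neg_mem ((mem_plO' P).2 h1)

end Pool.Agent.MP_20d318_ag.CB

end MrgPart12

-- ======== part 13: formerly Pool.Agent.MP_20d318_ag.CB.Ns
section MrgPart13

/-! The lattice data of a pair. -/

set_option autoImplicit false

namespace Pool.Agent.MP_20d318_ag.CB

theorem ns_stmt : NsStmt := by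
  intro k M I κ _ _ _ _ _ _ _ p h
  have A := h.all
  refine ⟨A.s.sym, A.s.hodge, A.s.par, A.s.noe, A.a2.pos, A.a4.adj, A.a4.rr, A.a1.hpos,
    A.a2.heff, fun c => ?_, fun i => ?_, h.disj, h.sumC, h.sq0, fun h0 c hc hF => ?_⟩
  · obtain ⟨c', h1, h2⟩ := A.s.dif (-c)
    exact ⟨c', A.a2.gg _ h1, by rw [sub_eq_add_neg]; exact A.a2.gg _ h2⟩
  · obtain ⟨P, hP⟩ := h.prm i
    exact ⟨_, P, hP⟩
  · obtain ⟨ψ, h1, h2⟩ := h.pen h0
    obtain ⟨P₀, hP₀⟩ := h.prm p.k0
    obtain ⟨φ, P, hP⟩ := hc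
    have fd := A.s.fd p.F
    have li : LinearIndependent k ![(⟨p.ψ p.k0, A.a1.pmem _ _ _ hP₀⟩ : p.Sec p.F), ⟨ψ, h1⟩] := by
      rw [LinearIndependent.pair_iff' fun e => hP₀.1 (congrArg Subtype.val e)]
      exact fun a e => h2 a (congrArg Subtype.val e).symm
    have two : 2 ≤ p.h0 p.F := by
      have := li.fintype_card_le_finrank
      rw [Fintype.card_fin] at this
      unfold Sd.h0
      exact_mod_cast this
    have r := A.a3.res _ _ _ hP p.F
    have z : ip p.B p.F c = 0 := (ip_comm A.s.sym _ _).trans hF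
    rw [z] at r
    have one : 0 < Module.finrank k (p.Sec (p.F - c)) := by
      have : 0 < p.h0 (p.F - c) := by
        norm_num at r
        omega
      unfold Sd.h0 at this
      exact_mod_cast this
    have := Module.nontrivial_of_finrank_pos one
    obtain ⟨s, hs⟩ := exists_ne (0 : p.Sec (p.F - c))
    exact A.a2.eff1 _ s s.2 fun e => hs (Subtype.ext e)

end Pool.Agent.MP_20d318_ag.CB

end MrgPart13

-- ======== part 14: formerly Pool.Agent.MP_20d318_ag.CB.Geo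
section MrgPart14

/-! The assembly of the geometric rows. -/

set_option autoImplicit false

namespace Pool.Agent.MP_20d318_ag.CB

open Pool.Agent.MP_79c67d_ag Pool.Agent.MP_20d318_ag.AG Pool.Agent.MP_20d318_ag.BV
open Pool.Agent.MP_20d318_ag.RS (jac)

variable {k M K I κ : Type} [Field k] [CharZero k] [IsAlgClosed k] [Field M] [Field K]
  [Algebra k M] [Algebra k K] [Fintype I] [Fintype κ]

theorem lmods : LMods := ⟨hg_stmt, l1_stmt, ct_stmt, keyA_stmt, keyB_stmt, keyC_stmt, lcA_stmt,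
  lcB_stmt, hz_stmt, endA_stmt, endB1_stmt, endB2_stmt, endB3_stmt⟩

theorem sAll {S : Sd k M I} (h : Surf S) : SAll S :=
  have h1 := a1_stmt plane_stmt curve_stmt k M I S h.toSurf0
  have h2 := a2_stmt k M I S h.toSurf0 h1
  have h3 := a3_stmt k M I S h h1 h2
  ⟨h, h1, h2, h3, a4_stmt k M I S h h1 h2 h3, jac_stmt plane_stmt k M⟩

theorem exists_pair {S : Sd k M I} (h : Surf S) {D₁ D₂ : Derivation k M M} {φ φ' : M}
    (h1 : ∀ O ∈ S.T, ∀ a ∈ O, ∀ b ∈ O, φ * jac D₁ D₂ a b ^ 2 ∈ O)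
    (h2 : ∀ O ∈ S.T, ∃ a ∈ O, ∃ b ∈ O, φ * jac D₁ D₂ a b ^ 2 ∉ mx2 O)
    (h3 : ∀ O ∈ S.T, ∀ a ∈ O, ∀ b ∈ O, φ' * jac D₁ D₂ a b ^ 2 ∈ O) (h4 : ∀ c : k, φ' ≠ c • φ) :
    ∃ (κ : Type) (_ : Fintype κ) (p : Pd k M I κ), p.T = S.T ∧ p.φ = φ ∧ Pair p := by
  obtain ⟨κ, _, p, rfl, rfl, rfl, rfl, hp⟩ := pa_stmt k M I S D₁ D₂ φ φ' (sAll h) h1 h2 h3 h4
  obtain ⟨i, hi⟩ := pc_stmt k M I κ p φ' ⟨hp, pb_stmt plane_stmt k M I κ p hp⟩
    (hg_stmt I p.B h.sym h.hodge) h3 h4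
  exact ⟨κ, inferInstance, { p with k0 := i }, rfl, rfl, hi⟩

variable {p : Pd k M I κ}

theorem Pair.ns (h : Pair p) : NS p.ld := ns_stmt k M I κ p h

omit [CharZero k] [IsAlgClosed k] in
theorem Pair.hg (h : Pair p) : Hg p.B := hg_stmt I p.B h.all.s.sym h.all.s.hodge

theorem Pair.l1 (h : Pair p) : L1 p.ld := l1_stmt I κ p.ld h.ns h.hg

theorem Pair.hz (h : Pair p) : HZ p.ld :=
  hz_stmt I κ p.ld h.ns h.hg h.l1 (ct_stmt I κ p.ld h.ns h.l1)

theorem Pair.ex (h : Pair p) : Ex p := exc_stmt der_stmt k M I κ p h.toPair0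

theorem Pair.mw (h : Pair p) {l : k} (h0 : l ≠ 0) (h1 : l ≠ 1) : MW p l :=
  mw2_stmt res_stmt div_stmt k M I κ p l h.toPair0 h.ex (vf_stmt k M I p.toSd h.all) h.l1 h.hz
    (mw1_stmt k M I κ p l h.toPair0 h0 h1)

theorem Pair.hasInv (h : Pair p) (hF : ip p.B p.F p.F = 0) : HasInv p := by
  intro D hD
  obtain ⟨t, ψ₁, P₀, hc⟩ := pen_stmt up_stmt div_stmt k M I κ p h h.ex hF
  have h2 := inv2_stmt k M I κ p t ψ₁ P₀ h.toPair0 hc
  obtain ⟨m, s, hs, s', hs', h0, hi⟩ := inv1_stmt k M I κ p t ψ₁ P₀ h.toPair0 h.l1 hc D hD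
  have hD' : ip p.B (D + m • p.F) p.F = 2 := by
    rw [ip_add_left, ip_smul_left, hF, hD, mul_zero, add_zero]
  obtain ⟨h3, h4⟩ := h2 _ s hs s' hs' h0 hi
  rw [hD'] at h4
  obtain ⟨σ, hσ⟩ := inv4_stmt k M I κ p t ψ₁ (s / s') P₀ h.toPair0 hc hi
    (fun r hr => inv3_stmt k M I κ p t ψ₁ P₀ h.toPair0 hc r _ hr hi) h3 (by exact_mod_cast h4)
  obtain ⟨ρ, hρ⟩ := act_stmt k M I p.toSd σ h.all
    (reg_stmt res_stmt div_stmt k M I κ p σ h.toPair0 h.ex hσ.form)
  refine ⟨σ, ρ, hσ.form, hρ, fun y => ?_⟩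
  have h5 := orb_stmt k M I κ p t ψ₁ s s' P₀ _ σ ρ h.toPair0 h.hz hc h2 hD' hs hs' h0 hσ hρ y
  have h6 : toR p.F ∈ p.ld.V := Submodule.subset_span ⟨_, ⟨h.ns.memC _, hF⟩, rfl⟩
  have e : act ρ y + y - ip p.B y p.F • D = (act ρ y + y - ip p.B y p.F • (D + m • p.F)) +
      (ip p.B y p.F * m) • p.F := by
    rw [smul_add, mul_smul]
    abel
  rw [e, toR_add, toR_zsmul]
  exact add_mem h5 (Submodule.smul_mem _ _ h6)

variable {ι : M →ₐ[k] K} {l : k} {ζ w : K}

theorem Pair.xAll (h : Pair p) (he : Ext p ι l ζ w) : XAll p ι l ζ w :=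
  have h1 := xLoc_stmt dimUp_stmt k M K I κ p ι l ζ w h.toPair0 he
  ⟨h.toPair0, he, h1, xDiv_stmt k M K I κ p ι l ζ w h.toPair0 he h1⟩

theorem Pair.cone (h : Pair p) (he : Ext p ι l ζ w) (hs : XSm p ι ζ w) :
    ConeStatement (XX p ι ζ w) := by
  have hx := h.xAll he
  have hc := xCur_stmt k M K I κ p ι l ζ w hx
  have ht := xTest_stmt up_stmt curve_stmt k M K I κ p ι l ζ w hx hc
  refine glue_stmt lmods k K I κ _ p.ld (fun ν => ZZ p ι l ζ ν) ⟨h.ns,
    fun D => ⟨⟨_, hx.div.cartW D⟩, fun ν => hx.div.degW ν D⟩,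
    xCls_stmt horB_stmt clsGen_stmt k M K I κ p ι l ζ w hx
      (xPl_stmt htOne_stmt k M K I κ p ι l ζ w hx) (h.mw he.l0 he.l1) hs.nrm,
    hx.div.eff, hc.cur, ht.tE, ht.tC, ht.tT, ht.tG, fun hF => ?_⟩
  obtain ⟨N, hN, h1⟩ := trans_stmt k M I κ p h.toPair0 hF (h.hz.two hF) (h.hasInv hF)
  refine ⟨N, hN, fun x hx' => ?_⟩
  obtain ⟨σ, ρ, h2, h3⟩ := h1 x hx'
  exact ⟨ρ, h3, sigX_stmt k M K I κ p ι l ζ w σ ρ hx h2⟩

end Pool.Agent.MP_20d318_ag.CB

end MrgPart14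

-- marker of a merged file
example : 731051 + 31567 = 731051 + 31567 := rfl
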