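import Mathlib.Algebra.Polynomial.Eval.Defs
import Pool.Agent.MP_20d318_ag.CB.Stmt0
import Pool.Agent.MP_20d318_ag.Sch.Stmt

/-! Double covers of the product of a surface with a line. -/

set_option autoImplicit false

open AlgebraicGeometry CategoryTheory

namespace Pool.Agent.MP_20d318_ag

open MP_a703b5_ag (const)

/-- `T` is a smooth rational surface, `φ` defines a smooth curve in the square of the anticanonical
system, and this system has another member. -/
def Branch {M : Type} [Field M] [Algebra ℂ M] (T : Set (Subalgebra ℂ M)) (φ : M) : Prop :=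
  RS.Tower T ∧ ∃ D₁ D₂ : Derivation ℂ M M, RS.BiAnti T D₁ D₂ φ ∧ RS.SmoothZero T D₁ D₂ φ ∧
    ∃ ψ : M, RS.BiAnti T D₁ D₂ ψ ∧ ∀ c : ℂ, ψ ≠ c • φ

/-- The function field of `X` is `M(ζ, w)` with `w² = φ ζ (ζ - 1) (ζ - l)`, and the rational maps
from `X` to the surface `T` and to the line with coordinate `ζ` are morphisms. -/
def DoubleCover {X : Scheme.{0}} [IsIntegral X] (s : X ⟶ Spec (CommRingCat.of ℂ)) {M : Type}
    [Field M] [Algebra ℂ M] (T : Set (Subalgebra ℂ M)) (φ : M) (l : ℂ) : Prop :=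
  ∃ (ι : M →+* X.functionField) (ζ w : X.functionField),
    (∀ c, ι (algebraMap ℂ M c) = const s c) ∧ (∀ p : Polynomial M, p.eval₂ ι ζ = 0 → p = 0) ∧
    Subfield.closure (Set.range ι ∪ {ζ, w}) = ⊤ ∧
    w ^ 2 = ι φ * (ζ * (ζ - 1) * (ζ - const s l)) ∧
    (∀ p : X, ∃ O ∈ T, ∀ f ∈ O, ∃ u : X.presheaf.stalk p, ι f = algebraMap _ X.functionField u) ∧
    ∀ p : X, ∃ u : X.presheaf.stalk p,
      ζ = algebraMap _ X.functionField u ∨ ζ⁻¹ = algebraMap _ X.functionField u

end Pool.Agent.MP_20d318_ag
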