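import Pool.Agent.MP_20d318_ag.BV.FinB
import Pool.Agent.MP_20d318_ag.BV.Ex
import Pool.Agent.MP_20d318_ag.CB.Geo
import Pool.Agent.MP_20d318_ag.CB.Stmt
import Pool.Agent.MP_20d318_ag.CB.P2B

-- ======== part 0: formerly Pool.Agent.MP_20d318_ag.CB.Fin
section MrgPart0

/-! The scheme is smooth, has trivial canonical class, and is the double cover. -/

set_option autoImplicit false
set_option linter.style.haveILetI false

open AlgebraicGeometry CategoryTheory

namespace Pool.Agent.MP_20d318_ag.CB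

open Pool.Agent.MP_a703b5_ag Pool.Agent.MP_20d318_ag.AG Pool.Agent.MP_20d318_ag.BV

section field

variable {k M K I κ : Type} [Field k] [Field M] [Field K] [Algebra k M] [Algebra k K] [Fintype I]
  [Fintype κ] {p : Pd k M I κ} {ι : M →ₐ[k] K} {l : k} {ζ w : K}

theorem trb (h : XAll p ι l ζ w) : IsTranscendenceBasis k ![ι p.x, ι p.y, ζ] := by
  refine h.loc.ind.isTranscendenceBasis_iff_isAlgebraic.mpr ⟨fun f => ?_⟩
  let R := Algebra.adjoin k (Set.range ![ι p.x, ι p.y, ζ])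
  have m : ∀ i, ![ι p.x, ι p.y, ζ] i ∈ R := fun i => Algebra.subset_adjoin ⟨i, rfl⟩
  have a : ∀ u ∈ R, IsAlgebraic R u := fun u hu => isAlgebraic_algebraMap (⟨u, hu⟩ : R)
  let L : IntermediateField k K := ((Subalgebra.algebraicClosure R K).restrictScalars
    k).toIntermediateField fun _ => IsAlgebraic.inv
  have h1 : ∀ u, ι u ∈ L := fun u => by
    have h5 : IntermediateField.adjoin k {p.x, p.y} ≤ L.comap ι := by
      rw [IntermediateField.adjoin_le_iff]
      rintro _ (rfl | rfl)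
      exacts [a _ (m 0), a _ (m 1)]
    exact h5 (h.t.gen.top ▸ IntermediateField.mem_top)
  have h2 : L = ⊤ := by
    rw [eq_top_iff, ← h.ext.top, IntermediateField.adjoin_le_iff]
    rintro _ (⟨u, rfl⟩ | rfl | rfl)
    · exact h1 u
    · exact a _ (m 2)
    · refine IsAlgebraic.of_pow (n := 2) two_pos ?_
      rw [h.ext.eq]
      exact IsAlgebraic.mul (h1 _) (a _ (mul_mem (mul_mem (m 2) (sub_mem (m 2) (one_mem _)))
        (sub_mem (m 2) (R.algebraMap_mem l))))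
  exact h2.ge IntermediateField.mem_top

end field

theorem cover_of {M K J : Type} [Field M] [Field K] [Algebra ℂ M] [Algebra ℂ K] {𝒞 : Charts K J}
    (N : Model 𝒞) {T : Set (Subalgebra ℂ M)} {φ : M} {l : ℂ} {ι : M →ₐ[ℂ] K} {ζ w : K}
    (e1 : Tr ι ζ) (e2 : w ^ 2 = ι φ * (ζ * (ζ - 1) * (ζ - algebraMap ℂ K l)))
    (e3 : IntermediateField.adjoin ℂ (Set.range ι ∪ {ζ, w}) = ⊤)
    (e4 : ∀ q, ∃ R ∈ T, Dom R ((Sch.OA N q).comap ι)) (e5 : ∀ q, zc ζ (Sch.OA N q) ∈ Sch.OA N q) :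
    DoubleCover N.s T φ l := by
  have key : ∀ q, ∀ a ∈ Sch.OA N q, ∃ u : N.X.presheaf.stalk q,
      N.e.symm a = algebraMap _ N.X.functionField u := by
    rintro q _ ⟨u, rfl⟩
    exact ⟨u, N.e.symm_apply_apply _⟩
  refine ⟨N.e.symm.toRingHom.comp (ι : M →+* K), N.e.symm ζ, N.e.symm w, fun c => ?_,
    fun q hq => e1 q ?_, ?_, ?_, fun q => ?_, fun q => ?_⟩
  · exact N.e.symm_apply_eq.2 ((ι.commutes c).trans (N.e_const c).symm)
  · have := Polynomial.hom_eval₂ q (ι : M →+* K) N.e.symm.toRingHom ζ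
    exact N.e.symm.injective ((this.trans hq).trans (map_zero _).symm)
  · refine eq_top_iff.2 fun f _ => ?_
    let L : IntermediateField ℂ K := ((Subfield.closure (Set.range
      (N.e.symm.toRingHom.comp (ι : M →+* K)) ∪ {N.e.symm ζ, N.e.symm w})).comap
        N.e.symm.toRingHom).toIntermediateField fun c =>
          Subfield.subset_closure (Or.inl ⟨algebraMap ℂ M c, congrArg N.e.symm (ι.commutes c)⟩)
    have h5 : IntermediateField.adjoin ℂ (Set.range ι ∪ {ζ, w}) ≤ L := by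
      rw [IntermediateField.adjoin_le_iff]
      rintro _ (⟨u, rfl⟩ | rfl | rfl)
      · exact Subfield.subset_closure (Or.inl ⟨u, rfl⟩)
      · exact Subfield.subset_closure (Or.inr (Or.inl rfl))
      · exact Subfield.subset_closure (Or.inr (Or.inr rfl))
    rw [← N.e.symm_apply_apply f]
    exact h5 (e3 ▸ IntermediateField.mem_top)
  · refine N.e.injective ?_
    simp only [map_mul, map_pow, map_sub, map_one, RingEquiv.apply_symm_apply, N.e_const]
    exact e2.trans (congrArg (· * _) (N.e.apply_symm_apply _).symm)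
  · obtain ⟨R, hR, hd⟩ := e4 q
    exact ⟨R, hR, fun f hf => key q _ (hd.1 hf)⟩
  · have h5 := e5 q
    unfold zc at h5
    split_ifs at h5
    · exact (key q _ h5).imp fun _ => Or.inl
    · exact (key q _ h5).imp fun _ h => Or.inr ((map_inv₀ N.e.symm ζ).symm.trans h)

theorem final {M I : Type} [Field M] [Algebra ℂ M] [Fintype I] {S : Sd ℂ M I} (hS : Surf S)
    {D₁ D₂ : Derivation ℂ M M} {φ ψ : M} {l : ℂ} (h1 : RS.BiAnti S.T D₁ D₂ φ)
    (h2 : RS.SmoothZero S.T D₁ D₂ φ) (h3 : RS.BiAnti S.T D₁ D₂ ψ) (h4 : ∀ c : ℂ, ψ ≠ c • φ)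
    (l0 : l ≠ 0) (l1 : l ≠ 1) :
    ∃ (X : Scheme.{0}) (_ : IsIntegral X) (s : X ⟶ Spec (CommRingCat.of ℂ)),
      IsProjective s ∧ Smooth s ∧ TrivialCanonical s ∧ DoubleCover s S.T φ l ∧ ConeConj s := by
  obtain ⟨κ, _, p, hT, rfl, hp⟩ := exists_pair hS h1 h2 h3 h4
  rw [← hT]
  obtain ⟨K, _, _, ι, ζ, w, e1, e2, e3⟩ := XAlg.cover (k := ℂ) p.φ l
  have he : Ext p ι l ζ w := ⟨l0, l1, e1, e2, e3⟩
  have hx := hp.xAll he
  have hs := xSm_stmt et_stmt etN_stmt ℂ M K I κ p ι l ζ w hx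
  obtain ⟨J, _, 𝒞, hC, hB⟩ := chart_stmt K _ _ hx.loc.fam
  obtain ⟨N⟩ := exists_model 𝒞
  have hC' : Sch.pts 𝒞 = XX p ι ζ w := hC
  have hO : ∀ q, Sch.OA N q ∈ XX p ι ζ w := fun q => hC' ▸ Sch.OA_mem q
  refine ⟨N.X, inferInstance, N.s, N.proj, N.smooth fun j => ?_, ?_, ?_,
    (Sch.bridge K J 𝒞 N (hC' ▸ hp.cone he hs)).2⟩
  · obtain ⟨G, h1, h2⟩ := hB j
    rw [h2]
    exact smG_stmt ℂ K G h1 fun O h3 => hs.sm O (hC' ▸ Set.mem_iUnion.2 ⟨j, h2 ▸ h3⟩)
  · refine Sch.Canon.trivial_of N (trb hx) (l := w * ι (p.j p.x p.y))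
      (mul_ne_zero hx.loc.wne ((map_ne_zero ι).2 hp.jne)) fun D hD q => ?_
    obtain ⟨c, h1, h2, h3⟩ := hs.can D hD _ (hO q)
    refine ⟨c, h1, fun a ha => ?_, h3⟩
    obtain ⟨r, h4, h5⟩ := h2 a ha
    rw [h5]
    exact sum_mem fun i _ => Submodule.smul_mem _ (⟨r i, h4 i⟩ : N.O q)
      (Submodule.subset_span ⟨i, rfl⟩)
  · exact cover_of N e1 e2 e3 (fun q => hx.loc.maps _ (hO q)) fun q => hx.loc.zm _ (hO q)

end Pool.Agent.MP_20d318_ag.CB

end MrgPart0

-- ======== part 1: formerly Pool.Agent.MP_20d318_ag.CB.BlB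
section MrgPart1

/-! The charts of the blow-up of a point. -/

set_option autoImplicit false

namespace Pool.Agent.MP_20d318_ag.CB

open Pool.Agent.MP_79c67d_ag Pool.Agent.MP_20d318_ag.AG Pool.Agent.MP_20d318_ag.BV MvPolynomial
open Pool.Agent.MP_20d318_ag.RS (jac)

namespace BlB

variable {k M : Type} [Field k] [Field M] [Algebra k M] {O₀ O : Subalgebra k M} {a b : M}

theorem m1 : a ∈ Algebra.adjoin k {a, b} := Algebra.subset_adjoin (by simp)
theorem m2 : b ∈ Algebra.adjoin k {a, b} := Algebra.subset_adjoin (by simp)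

theorem adj_le (ha : a ∈ O) (hb : b ∈ O) : Algebra.adjoin k {a, b} ≤ O :=
  Algebra.adjoin_le (Set.pair_subset ha hb)

theorem split {n : M} (hn : n ∈ Algebra.adjoin k {a, b}) : ∃ c : k,
    ∃ α ∈ Algebra.adjoin k {a, b}, ∃ β ∈ Algebra.adjoin k {a, b},
      n = algebraMap k M c + (α * a + β * b) := by
  induction hn using Algebra.adjoin_induction with
  | mem x hx =>
    rcases hx with rfl | rfl
    · exact ⟨0, 1, one_mem _, 0, zero_mem _, by simp⟩
    · exact ⟨0, 0, zero_mem _, 1, one_mem _, by simp⟩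
  | algebraMap c => exact ⟨c, 0, zero_mem _, 0, zero_mem _, by simp⟩
  | add x y _ _ h h' =>
    obtain ⟨c, α, hα, β, hβ, rfl⟩ := h
    obtain ⟨c', α', hα', β', hβ', rfl⟩ := h'
    exact ⟨c + c', α + α', add_mem hα hα', β + β', add_mem hβ hβ', by rw [map_add]; ring⟩
  | mul x y _ hy h h' =>
    obtain ⟨c, α, hα, β, hβ, rfl⟩ := h
    obtain ⟨c', α', hα', β', hβ', e⟩ := h'
    refine ⟨c * c', α * y + algebraMap k M c * α', add_mem (mul_mem hα hy)
      (mul_mem (Subalgebra.algebraMap_mem _ c) hα'), β * y + algebraMap k M c * β',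
      add_mem (mul_mem hβ hy) (mul_mem (Subalgebra.algebraMap_mem _ c) hβ'), ?_⟩
    rw [map_mul]
    linear_combination algebraMap k M c * e

theorem lin (hO : IsLocalRing O) (ha : a ∈ mx O) (hb : b ∈ mx O) {α β : M} (hα : α ∈ O)
    (hβ : β ∈ O) : α * a + β * b ∈ mx O := mx_add hO (mx_mul_left hα ha) (mx_mul_left hβ hb)

theorem span (h : O₀ ∈ Pts (Algebra.adjoin k {a, b})) (ha : a ∈ mx O₀) (hb : b ∈ mx O₀) {u : M}
    (hu : u ∈ mx O₀) : ∃ α ∈ O₀, ∃ β ∈ O₀, u = α * a + β * b := by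
  obtain ⟨n, hn, d, hd, ud, rfl⟩ := h.2.2 u hu.1
  obtain ⟨c, α, hα, β, hβ, e⟩ := split hn
  have h1 := mx_sub' h.1 (mx_mul_right hu ud.mem) (lin h.1 ha hb (h.2.1 hα) (h.2.1 hβ))
  rw [div_mul_cancel₀ _ ud.ne, e, add_sub_cancel_right, const_mem_mx] at h1
  refine ⟨α / d, ud.div_mem (h.2.1 hα), β / d, ud.div_mem (h.2.1 hβ), ?_⟩
  rw [e, h1, map_zero]
  ring

theorem dom (h : O₀ ∈ Pts (Algebra.adjoin k {a, b})) (ha : a ∈ mx O₀) (hb : b ∈ mx O₀)
    (hO : IsLocalRing O) (ha' : a ∈ mx O) (hb' : b ∈ mx O) : Dom O₀ O := by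
  have le := adj_le ha'.1 hb'.1
  have l : O₀ ≤ O := fun f hf => by
    obtain ⟨n, hn, d, hd, ud, rfl⟩ := h.2.2 f hf
    obtain ⟨c, α, hα, β, hβ, e⟩ := split hd
    have hc : c ≠ 0 := fun c0 => ud.not_mx (by
      rw [e, c0, map_zero, zero_add]; exact lin h.1 ha hb (h.2.1 hα) (h.2.1 hβ))
    exact IsU.div_mem (e ▸ (isU_const hc).add_mx hO (lin hO ha' hb' (le hα) (le hβ))) (le hn)
  refine ⟨l, fun u hu hU => isU_of_not_mx hu fun hm => hU.not_mx ?_⟩
  obtain ⟨α, hα, β, hβ, rfl⟩ := span h ha hb hm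
  exact lin hO ha' hb' (l hα) (l hβ)

theorem ne0 (h : GenP k a b) : b ≠ 0 := fun e =>
  h.ind.transcendental 1 (by simpa [e] using isAlgebraic_zero)

theorem chart (h : O₀ ∈ Pts (Algebra.adjoin k {a, b})) (ha : a ∈ mx O₀) (hb : b ∈ mx O₀)
    (b0 : b ≠ 0) {g : M} (hg : g ∈ mx O₀) (g0 : g ≠ 0)
    (hO : O ∈ Pts (Algebra.adjoin k ((O₀ : Set M) ∪ (fun u => u / g) '' mx O₀)))
    (hab : a / b ∈ O) : O ∈ Pts (Algebra.adjoin k {a / b, b}) := by
  have l : O₀ ≤ O := fun f hf => hO.2.1 (Algebra.subset_adjoin (Or.inl hf))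
  have le := adj_le hab (l hb.1)
  have l1 : Algebra.adjoin k {a, b} ≤ Algebra.adjoin k {a / b, b} :=
    adj_le (by simpa [div_mul_cancel₀ _ b0] using mul_mem (m1 (k := k) (a := a / b) (b := b)) m2) m2
  have l2 : O₀ ≤ fr (Algebra.adjoin k {a / b, b}) O := fun f hf => by
    obtain ⟨n, hn, d, hd, ud, rfl⟩ := h.2.2 f hf
    exact ⟨n, l1 hn, d, l1 hd, ud.mono l, rfl⟩
  have l3 : ∀ u ∈ mx O₀, u / b ∈ fr (Algebra.adjoin k {a / b, b}) O := fun u hu => by
    obtain ⟨α, hα, β, hβ, rfl⟩ := span h ha hb hu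
    rw [add_div, mul_div_assoc, mul_div_cancel_right₀ _ b0]
    exact add_mem (mul_mem (l2 hα) (le_fr m1)) (l2 hβ)
  refine Pts_of_fr hO le ?_
  rintro _ (hf | ⟨u, hu, rfl⟩)
  · exact l2 hf
  · have := div_mem_fr (l3 u hu) (l3 g hg) le ⟨div_ne_zero g0 b0, fr_le le (l3 g hg), by
      rw [inv_div]; exact hO.2.1 (Algebra.subset_adjoin (Or.inr ⟨b, hb, rfl⟩))⟩
    rwa [div_div_div_cancel_right₀ b0] at this

theorem back (h : O₀ ∈ Pts (Algebra.adjoin k {a, b})) (ha : a ∈ mx O₀) (hb : b ∈ mx O₀)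
    (b0 : b ≠ 0) (hO : O ∈ Pts (Algebra.adjoin k {a / b, b})) (l : O₀ ≤ O) :
    O ∈ Pts (Algebra.adjoin k ((O₀ : Set M) ∪ (fun u => u / b) '' mx O₀)) := by
  refine Pts_of_le hO (adj_le (Algebra.subset_adjoin (Or.inr ⟨a, ha, rfl⟩))
    (Algebra.subset_adjoin (Or.inl hb.1))) (Algebra.adjoin_le ?_)
  rintro _ (hf | ⟨u, hu, rfl⟩)
  · exact l hf
  · obtain ⟨α, hα, β, hβ, rfl⟩ := span h ha hb hu
    show (α * a + β * b) / b ∈ O
    rw [add_div, mul_div_assoc, mul_div_cancel_right₀ _ b0]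
    exact add_mem (mul_mem (l hα) (hO.2.1 m1)) (l hβ)

theorem gen (p : Plane (k := k) a b) (h : GenP k a b) : GenP k b a ∧ GenP k (a / b) b := by
  refine ⟨p.top _ _ (by rw [Set.pair_comm, h.top]), p.top _ _ (top_le_iff.1 ?_)⟩
  rw [← h.top, IntermediateField.adjoin_le_iff]
  have h1 : a / b ∈ IntermediateField.adjoin k {a / b, b} :=
    IntermediateField.subset_adjoin _ _ (by simp)
  have h2 : b ∈ IntermediateField.adjoin k {a / b, b} :=
    IntermediateField.subset_adjoin _ _ (by simp)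
  exact Set.pair_subset (by simpa [div_mul_cancel₀ _ (ne0 h)] using mul_mem h1 h2) h2

theorem nmem (p : Plane (k := k) a b) (j : Jc k M) (h : Cht O₀ a b) (hb : b ∈ mx O₀) :
    a / b ∉ O₀ := fun hm => by
  obtain ⟨D, hD⟩ := p.der 0
  have e1 : D a = 1 := by simpa using hD (X 0)
  have e2 : D b = 0 := by simpa [pderiv_X_of_ne] using hD (X 1)
  obtain ⟨s, hs, t, -, e⟩ := j.mem O₀ a b h _ hm
  have e3 := D.leibniz (a / b) b
  rw [div_mul_cancel₀ _ (ne0 h.1), e1, e2, e D, e1, e2] at e3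
  refine one_not_mem_mx (O := O₀) ?_
  rw [e3]
  simpa using mx_mul_right hb hs

theorem jdiv (b0 : b ≠ 0) (D₁ D₂ : Derivation k M M) : jac D₁ D₂ (a / b) b = jac D₁ D₂ a b / b := by
  have e : ∀ D : Derivation k M M, D a = a / b * D b + b * D (a / b) := fun D => by
    simpa [div_mul_cancel₀ _ b0] using D.leibniz (a / b) b
  rw [eq_div_iff b0, jac, jac, e D₁, e D₂]
  ring

end BlB

open BlB

theorem blB_stmt : BlBStmt := by
  intro pl k M I _ _ _ _ _ _ S O₀ a b H' e h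
  have gd := h.a1.nice.toFine.toGood
  have fn : Fine (S.blow H' e).T := fine_mp h.fam
  have g := gen (pl k M a b h.cht.1) h.cht.1
  have g' := gen (pl k M b a g.1) g.1
  have hc : Cht O₀ b a := ⟨g.1, by rw [Set.pair_comm]; exact h.cht.2⟩
  have ch : ∀ {a b : M}, Cht O₀ a b → a ∈ mx O₀ → b ∈ mx O₀ → ∀ O ∈ (S.blow H' e).T, Dom O₀ O →
      a / b ∈ O → O ∈ Pts (Algebra.adjoin k {a / b, b}) := fun {a b} c ha hb O hO hd hab => by
    have l := fn.loc O hO
    rw [h.eq] at hO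
    rcases hO with hO | hO
    · exact absurd (gd.sep _ hO.1 _ h.mem O l (Dom.refl O) hd) hO.2
    · obtain ⟨g, hg, hO⟩ := Set.mem_iUnion₂.1 hO
      exact chart c.2 ha hb (ne0 c.1) hg.1 hg.2 hO hab
  have c1 : ∀ O ∈ (S.blow H' e).T, Dom O₀ O → a / b ∈ O → Cht O (a / b) b ∧ IsU O (e O / b) :=
    fun O hO hd hab => ⟨⟨g.2, ch h.cht h.ma h.mb O hO hd hab⟩,
      (h.ov O hO hd).2.unit (gn_right (ne0 h.cht.1) hab)⟩
  have c2 : ∀ O ∈ (S.blow H' e).T, Dom O₀ O → b / a ∈ O → Cht O (b / a) a ∧ IsU O (e O / a) :=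
    fun O hO hd hab => ⟨⟨g'.2, ch hc h.mb h.ma O hO hd hab⟩,
      (h.ov O hO hd).2.unit (gn_left (ne0 g.1) hab)⟩
  have c12 : ∀ O ∈ (S.blow H' e).T, Dom O₀ O → a / b ∈ O ∨ b / a ∈ O := fun O hO hd => by
    obtain ⟨t, rfl | rfl, ht⟩ := (h.ov O hO hd).2.exists_mem
    exacts [Or.inr (ht.1 _ (by simp)), Or.inl (ht.1 _ (by simp))]
  have mp : Maps (AlgHom.id k M) (S.blow H' e).T S.T := fun O hO =>
    (h.cases O hO).elim (fun a => ⟨O, a.1, Dom.refl O⟩) fun a => ⟨O₀, h.mem, a⟩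
  refine ⟨h, mp, g.2, g'.2, c1, c2, c12, fun O hO hb => ?_, fun hm => ?_, ⟨fn, fun O hO => ?_⟩,
    fun o => ?_, fun D₁ D₂ => ?_⟩
  · have b0 := ne0 h.cht.1
    have hd := dom h.cht.2 h.ma h.mb hO.2.1
      (by simpa [div_mul_cancel₀ _ b0] using mx_mul_left (hO.2.2.1 m1) hb) hb
    rw [h.eq]
    exact ⟨Or.inr (Set.mem_iUnion₂.2 ⟨b, ⟨h.mb, b0⟩, back h.cht.2 h.ma h.mb b0 hO.2 hd.1⟩), hd⟩
  · exact (c12 _ hm (Dom.refl _)).elim (nmem (pl k M a b h.cht.1) h.jc h.cht h.mb)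
      (nmem (pl k M b a g.1) h.jc hc h.ma)
  · rcases h.cases O hO with a1 | hd
    · exact h.a1.nice.nrm O a1.1
    · rcases c12 O hO hd with t | t
      · have := (c1 O hO hd t).1
        exact nrmLoc_stmt k M _ O (pl k M _ _ this.1).nrm this.2.2.1 this.2.2.2
      · have := (c2 O hO hd t).1
        exact nrmLoc_stmt k M _ O (pl k M _ _ this.1).nrm this.2.2.1 this.2.2.2
  · cases o with
    | none => exact h.cart
    | some i => exact isCart_up gd fn.toGood mp (h.s.cartg i)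
  · obtain ⟨ψ, hψ⟩ := h.s.can D₁ D₂
    refine ⟨ψ, fun O hO => ?_⟩
    have eK : (S.blow H' e).lb (-(S.blow H' e).K) O = S.lb (-S.K) (S.bt O) * (e O)⁻¹ := by
      rw [show (S.blow H' e).K = pb S.K 1 from rfl, pb_neg, lb_pb, zpow_neg_one]
    rw [eK]
    rcases h.cases O hO with a1 | hd
    · obtain ⟨a', b', u, c, hu, q⟩ := hψ O a1.1
      obtain ⟨-, q1, q2⟩ := h.off O a1.1 a1.2
      refine ⟨a', b', u * e O, c, hu.mul q2, ?_⟩
      have := q2.ne
      rw [q, q1]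
      field_simp
    · obtain ⟨a', b', u, c, hu, q⟩ := hψ O₀ h.mem
      have key : ∀ {a b : M}, Cht O₀ a b → Cht O (a / b) b ∧ IsU O (e O / b) → ∃ a' b' u,
          Cht O a' b' ∧ IsU O u ∧
            jac D₁ D₂ a' b' = u * ψ * (S.lb (-S.K) (S.bt O) * (e O)⁻¹) := fun {a b} c0 c' => by
        obtain ⟨v, hv, q'⟩ := h.jc.jacU O₀ a' b' a b c c0
        refine ⟨_, _, v * u * (e O / b), c'.1, ((hv.mul hu).mono hd.1).mul c'.2, ?_⟩
        have := div_ne_zero_iff.1 c'.2.ne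
        rw [jdiv this.2, q', q, (h.ov O hO hd).1]
        have := this.1
        field_simp
      exact (c12 O hO hd).elim (fun t => key h.cht (c1 O hO hd t)) fun t => key hc (c2 O hO hd t)

end Pool.Agent.MP_20d318_ag.CB

end MrgPart1

-- ======== part 2: formerly Pool.Agent.MP_20d318_ag.CB.P2A
section MrgPart2

/-! The charts and the line at infinity of the projective plane. -/

set_option autoImplicit false

namespace Pool.Agent.MP_20d318_ag.CB

open Pool.Agent.MP_79c67d_ag Pool.Agent.MP_20d318_ag.AG Pool.Agent.MP_20d318_ag.BV MvPolynomial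
open Pool.Agent.MP_20d318_ag.RS (jac)

namespace P2AR

variable {k M : Type} [Field k] [Field M] [Algebra k M] {x y a b : M} {O : Subalgebra k M}
  {P P' : Place k M}

theorem adj_le (ha : a ∈ O) (hb : b ∈ O) : Algebra.adjoin k {a, b} ≤ O :=
  Algebra.adjoin_le (by rintro g (rfl | rfl) <;> assumption)

theorem vec_mem (ha : a ∈ O) (hb : b ∈ O) (i : Fin 2) : ![a, b] i ∈ O := by
  fin_cases i <;> assumption

theorem ml (h : O ∈ Pts (Algebra.adjoin k {a, b})) : a ∈ O :=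
  h.2.1 (Algebra.subset_adjoin (Or.inl rfl))

theorem mr (h : O ∈ Pts (Algebra.adjoin k {a, b})) : b ∈ O :=
  h.2.1 (Algebra.subset_adjoin (Or.inr rfl))

theorem cht_eq {S : Set M} {j : M} (h : ∀ s ∈ S, s / j = a ∨ s / j = b ∨ s / j = 1)
    (ha : ∃ s ∈ S, s / j = a) (hb : ∃ s ∈ S, s / j = b) :
    cht k (fun _ : Unit => S) (fun _ => j) = Algebra.adjoin k {a, b} := by
  refine le_antisymm (cht_le.2 fun _ s hs => ?_) (adj_le ?_ ?_)
  · rcases h s hs with e | e | e <;> rw [e]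
    exacts [Algebra.subset_adjoin (Or.inl rfl), Algebra.subset_adjoin (Or.inr rfl), one_mem _]
  · obtain ⟨s, hs, rfl⟩ := ha
    exact cht_le.1 le_rfl () s hs
  · obtain ⟨s, hs, rfl⟩ := hb
    exact cht_le.1 le_rfl () s hs

theorem cht1 : cht k (fun _ : Unit => ({x, y, 1} : Set M)) (fun _ => 1) =
    Algebra.adjoin k {x, y} :=
  cht_eq (by simp) ⟨x, by simp, div_one x⟩ ⟨y, by simp, div_one y⟩

theorem cht2 (h0 : x ≠ 0) : cht k (fun _ : Unit => ({x, y, 1} : Set M)) (fun _ => x) =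
    Algebra.adjoin k {y / x, x⁻¹} :=
  cht_eq (by simp [h0]) ⟨y, by simp, rfl⟩ ⟨1, by simp, one_div x⟩

theorem cht3 (h0 : y ≠ 0) : cht k (fun _ : Unit => ({x, y, 1} : Set M)) (fun _ => y) =
    Algebra.adjoin k {x / y, y⁻¹} :=
  cht_eq (by simp [h0]) ⟨x, by simp, rfl⟩ ⟨1, by simp, one_div y⟩

theorem top2 (hg : GenP k x y) : IntermediateField.adjoin k {y / x, x⁻¹} = ⊤ := by
  have h0 : x ≠ 0 := by simpa using hg.x_ne 0
  have h1 : y / x ∈ IntermediateField.adjoin k {y / x, x⁻¹} :=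
    IntermediateField.subset_adjoin _ _ (Or.inl rfl)
  have h2 : x⁻¹ ∈ IntermediateField.adjoin k {y / x, x⁻¹} :=
    IntermediateField.subset_adjoin _ _ (Or.inr rfl)
  rw [← top_le_iff, ← hg.top, IntermediateField.adjoin_le_iff]
  rintro g (rfl | rfl)
  · simpa using inv_mem h2
  · simpa [h0] using div_mem h1 h2

theorem jac2 (D₁ D₂ : Derivation k M M) (h0 : x ≠ 0) :
    jac D₁ D₂ (y / x) x⁻¹ = jac D₁ D₂ x y / x ^ 3 := by
  simp only [jac, Derivation.leibniz_div, Derivation.leibniz_inv, smul_eq_mul]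
  field_simp
  ring

theorem unit_poly (h : PlOf a b (X 1 : MvPolynomial (Fin 2) k) P) {f : Polynomial k} (hf : f ≠ 0) :
    IsU (plO P) (Polynomial.aeval a f) := by
  have e : aeval ![a, b] (Polynomial.aeval (X 0 : MvPolynomial (Fin 2) k) f) =
      Polynomial.aeval a f := by
    rw [← Polynomial.aeval_algHom_apply]; simp
  rw [← e]
  refine isU_of_not_mx (aeval_mem (vec_mem (ml h.pts) (mr h.pts)) _) fun hm => hf ?_
  obtain ⟨g, hg⟩ := (h.mem _).1 hm
  have := congrArg (aeval ![(Polynomial.X : Polynomial k), 0]) hg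
  rw [← Polynomial.aeval_algHom_apply] at this
  simpa using this

theorem ord_sum {ι : Type} [DecidableEq ι] {s : Finset ι} {t : ι → M} {j : ι} (hj : j ∈ s)
    (h0 : t j ≠ 0) (h : ∀ i ∈ s, i ≠ j → P.Ge (P.ord (t j) + 1) (t i)) :
    P.ord (∑ i ∈ s, t i) = P.ord (t j) := by
  rw [← Finset.add_sum_erase _ _ hj]
  exact (Place.add_ne_and_ord h0 (Place.ge_sum fun i hi =>
    h i (Finset.mem_of_mem_erase hi) (Finset.ne_of_mem_erase hi))).2

theorem ord_unit {u : M} (h : IsU (plO P) u) : P.ord u = 0 := ((isU_plO' P).1 h).2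

theorem eq_of_mx (hp : Plane (k := k) a b) (h : PlOf a b (X 1 : MvPolynomial (Fin 2) k) P)
    (h' : plO P' ∈ Pts (Algebra.adjoin k {a, b})) (hb : b ∈ mx (plO P')) : P' = P := by
  obtain ⟨p, h1⟩ := hp.plof P' h'
  exact hp.uniq _ _ _ _ h1 h ((h1.mem _).1 (by simpa using hb))

theorem ord_poly (h0 : x ≠ 0) (h : PlOf (y / x) x⁻¹ (X 1 : MvPolynomial (Fin 2) k) P)
    (hr : P.ord x = -1) (p : MvPolynomial (Fin 2) k) (hp0 : p ≠ 0) :
    P.ord (aeval ![x, y] p) = -p.totalDegree := by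
  have e : ∀ j, aeval ![x - algebraMap k M 0, y - algebraMap k M 0] (tay p 0 0 j) =
      x ^ j * aeval ![1, y / x] (tay p 0 0 j) := fun j => by
    rw [← aeval_smul (tay_hom p _ _ j)]
    congr 2
    ext i; fin_cases i
    · simp
    · simp [mul_div_cancel₀ _ h0]
  have hun : IsU (plO P) (aeval ![1, y / x] (tay p 0 0 p.totalDegree)) := by
    have h1 := unit_poly h (dehom_ne (tay_hom p _ _ _) (tay_top hp0 0 0)).2
    have e1 : (fun i => Polynomial.aeval (y / x) (![1, (Polynomial.X : Polynomial k)] i)) =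
        ![1, y / x] := by
      ext i; fin_cases i <;> simp
    rwa [comp_aeval_apply, e1] at h1
  have ho : P.ord (x ^ p.totalDegree * aeval ![1, y / x] (tay p 0 0 p.totalDegree)) =
      -p.totalDegree := by
    rw [P.ord_mul (pow_ne_zero _ h0) hun.1, ord_unit hun, P.ord_pow, hr]; simp
  rw [aeval_tay p 0 0, Finset.sum_congr rfl fun j _ => e j]
  refine Eq.trans (b := P.ord _) (ord_sum (j := p.totalDegree) ?_ ?_ fun i hi hi' => ?_) ho
  · simp
  · exact mul_ne_zero (pow_ne_zero _ h0) hun.1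
  rw [ho]
  refine (Place.Ge.mul0' (P.ge_of_le ?_) ((mem_plO' P).1
    (aeval_mem (vec_mem (plO P).one_mem (ml h.pts)) _)))
  rw [Finset.mem_range] at hi
  rw [P.ord_pow, hr]; omega

end P2AR

open P2AR in
theorem p2A_stmt : P2AStmt := by
  intro hP k M _ _ _ _ _ x y hg
  have h0 : x ≠ 0 := by simpa using hg.x_ne 0
  have hy0 : y ≠ 0 := by simpa using hg.y_ne 0
  have p1 := hP k M x y hg
  have g2 : GenP k (y / x) x⁻¹ := p1.top _ _ (top2 hg)
  have g3 : GenP k (x / y) y⁻¹ := p1.top _ _ (top2 hg.swap)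
  have q2 := hP k M _ _ g2
  have q3 := hP k M _ _ g3
  have fam : Fam k fun _ : Unit => ({x, y, 1} : Set M) :=
    ⟨fun _ => Set.toFinite _, fun _ => ⟨x, Or.inl rfl⟩, fun _ => by simp [h0, hy0], by
      rw [← top_le_iff, ← hg.top]
      refine IntermediateField.adjoin.mono _ _ _ ?_
      rintro g (rfl | rfl) <;> exact ⟨(), g, by simp, 1, by simp, (div_one g).symm⟩⟩
  have cov : ∀ O : Subalgebra k M, O ∈ (p2 k x y).T ↔
      Cht O x y ∨ Cht O (y / x) x⁻¹ ∨ Cht O (x / y) y⁻¹ := fun O => by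
    constructor
    · rintro ⟨j, hj, h⟩
      obtain ⟨j, rfl⟩ : ∃ j', j = fun _ => j' := ⟨j (), rfl⟩
      rcases hj () with e | e | e
      · obtain rfl : j = x := e
        exact .inr (.inl ⟨g2, cht2 (k := k) (y := y) h0 ▸ h⟩)
      · obtain rfl : j = y := e
        exact .inr (.inr ⟨g3, cht3 (k := k) (x := x) hy0 ▸ h⟩)
      · obtain rfl : j = 1 := e
        exact .inl ⟨hg, cht1 (k := k) (x := x) (y := y) ▸ h⟩
    · rintro (h | h | h)
      · exact ⟨fun _ => 1, fun _ => .inr (.inr rfl), (cht1 (k := k) (x := x) (y := y)).symm ▸ h.2⟩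
      · exact ⟨fun _ => x, fun _ => .inl rfl, (cht2 (k := k) (y := y) h0).symm ▸ h.2⟩
      · exact ⟨fun _ => y, fun _ => .inr (.inl rfl), (cht3 (k := k) (x := x) hy0).symm ▸ h.2⟩
  have in1 : ∀ O ∈ (p2 k x y).T, x ∈ O → y ∈ O → Cht O x y := fun O hO h1 h2 =>
    ⟨hg, cht1 (k := k) (x := x) (y := y) ▸ mp_pts fam hO (j := fun _ => 1)
      (fun _ => .inr (.inr rfl)) (cht1.le.trans (adj_le h1 h2))⟩
  have in2 : ∀ O ∈ (p2 k x y).T, y / x ∈ O → x⁻¹ ∈ O → Cht O (y / x) x⁻¹ := fun O hO h1 h2 =>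
    ⟨g2, cht2 (k := k) (y := y) h0 ▸ mp_pts fam hO (j := fun _ => x)
      (fun _ => .inl rfl) ((cht2 h0).le.trans (adj_le h1 h2))⟩
  have gH : ∀ O ∈ (p2 k x y).T, Gn {x, y, 1} O (gn {x, y, 1} O) := fun O hO =>
    gn_spec (mp_prin fam hO ())
  have lb : ∀ c (O : Subalgebra k M), (p2 k x y).lb c O = gn {x, y, 1} O ^ (-c ()) :=
    fun c O => by simp [Sd.lb, p2]
  have u1 : ∀ O : Subalgebra k M, Cht O x y → IsU O (gn {x, y, 1} O) := fun O h =>
    (gH O ((cov O).2 (.inl h))).isU (by simp [ml h.2, mr h.2, O.one_mem]) ⟨1, by simp, isU_one⟩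
  have u2 : ∀ O : Subalgebra k M, Cht O (y / x) x⁻¹ → IsU O (gn {x, y, 1} O / x) := fun O h =>
    (gH O ((cov O).2 (.inr (.inl h)))).unit (gn_of_mem (.inl rfl) h0 (by
      simp [h0, ml h.2, mr h.2, O.one_mem]))
  have u3 : ∀ O : Subalgebra k M, Cht O (x / y) y⁻¹ → IsU O (gn {x, y, 1} O / y) := fun O h =>
    (gH O ((cov O).2 (.inr (.inr h)))).unit (gn_of_mem (.inr (.inl rfl)) hy0 (by
      simp [hy0, ml h.2, mr h.2, O.one_mem]))
  obtain ⟨L, hL⟩ := q2.ex _ (X_prime (i := (1 : Fin 2))).irreducible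
  have hr : L.ord x = -1 := by
    have : -L.ord x = 1 := by simpa using hL.ord
    omega
  refine ⟨L, hg, ?_, fam, ⟨fine_mp fam, fun O hO => ?_⟩, gH, lb, fun D₁ D₂ => ?_,
    fun O h => ⟨(cov O).2 (.inl h), u1 O h⟩, fun P => ⟨fun hO => ?_, ?_⟩, fun h => ?_, g2, hL, ?_,
    ord_poly h0 hL hr⟩
  · ext O
    rw [cov, RS.planes, Set.biUnion_insert, Set.biUnion_pair]
    exact or_congr (and_iff_right hg) (or_congr (and_iff_right g2) (and_iff_right g3))
  · rcases (cov O).1 hO with h | h | h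
    exacts [nrmLoc_stmt k M _ O p1.nrm h.2.2.1 h.2.2.2, nrmLoc_stmt k M _ O q2.nrm h.2.2.1 h.2.2.2,
      nrmLoc_stmt k M _ O q3.nrm h.2.2.1 h.2.2.2]
  · refine ⟨jac D₁ D₂ x y, fun O hO => ?_⟩
    have e : (p2 k x y).lb (-(p2 k x y).K) O = (gn {x, y, 1} O ^ 3)⁻¹ := by
      rw [lb, ← zpow_natCast, ← zpow_neg]; rfl
    have hn := (gH O hO).ne
    rw [e]
    rcases (cov O).1 hO with h | h | h
    · exact ⟨_, _, _, h, (u1 O h).pow 3, by field_simp⟩
    · exact ⟨_, _, _, h, (u2 O h).pow 3, by rw [jac2 D₁ D₂ h0]; field_simp⟩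
    · refine ⟨_, _, _, h, ((u3 O h).pow 3).neg, ?_⟩
      rw [jac2 D₁ D₂ hy0]
      simp only [jac]
      field_simp
      ring
  · rcases (cov _).1 hO with h | h | h
    · exact .inr h
    · by_cases hm : x⁻¹ ∈ mx (plO P)
      · exact .inl (eq_of_mx q2 hL h.2 hm)
      · have hx : x ∈ plO P := by simpa using (isU_of_not_mx (mr h.2) hm).inv_mem
        exact .inr (in1 _ hO hx (by simpa [h0] using mul_mem (ml h.2) hx))
    · by_cases hm : y⁻¹ ∈ mx (plO P)
      · by_cases hm' : x / y ∈ mx (plO P)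
        · exact ((q3.dim P h.2).1 (ratPt_of h.2 rfl (by
            rintro g (rfl | rfl) <;> exact ⟨0, by simpa⟩))).elim
        · have h3 : y / x ∈ plO P := by simpa using (isU_of_not_mx (ml h.2) hm').inv_mem
          have h4 : x⁻¹ ∈ mx (plO P) := by
            have e0 : y⁻¹ * (y / x) = x⁻¹ := by field_simp
            exact e0 ▸ mx_mul_right hm h3
          exact .inl (eq_of_mx q2 hL (in2 _ hO h3 h4.1).2 h4)
      · have hy : y ∈ plO P := by simpa using (isU_of_not_mx (mr h.2) hm).inv_mem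
        exact .inr (in1 _ hO (by simpa [hy0] using mul_mem (ml h.2) hy) hy)
  · rintro (rfl | h)
    exacts [(cov _).2 (.inr (.inl ⟨g2, hL.pts⟩)), (cov _).2 (.inl h)]
  · have := mem_plO_ord.1 (ml h.2)
    omega
  · have := ord_unit (u2 _ ⟨g2, hL.pts⟩)
    rw [L.ord_div (gH _ ((cov _).2 (.inr (.inl ⟨g2, hL.pts⟩)))).ne h0] at this
    omega

end Pool.Agent.MP_20d318_ag.CB

end MrgPart2

-- ======== part 3: formerly Pool.Agent.MP_20d318_ag.CB.P2C
section MrgPart3

/-! The lattice and the spaces of sections of the projective plane. -/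

set_option autoImplicit false

namespace Pool.Agent.MP_20d318_ag.CB

open Pool.Agent.MP_79c67d_ag Pool.Agent.MP_20d318_ag.AG Pool.Agent.MP_20d318_ag.BV MvPolynomial

namespace P2Cp

variable {k M : Type} [Field k] [Field M] [Algebra k M] {x y : M} {L : Place k M}

theorem ip_p2 {R : Type} [CommRing R] (c c' : Unit → R) :
    ip (p2 k x y).B c c' = c () * c' () := by
  simp [ip, p2]

theorem chi (c : Unit → ℤ) : chi2 (p2 k x y).B (p2 k x y).K c = (c () + 1) * (c () + 2) := by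
  rw [chi2, ip_p2, ip_p2]
  simp only [p2]
  ring

/-- The monomials of degree less than `n`. -/
noncomputable def mono (k : Type) [Field k] [Algebra k M] (x y : M) (n : ℕ) (t : Poly2.Tri n) : M :=
  aeval ![x, y] (monomial (Poly2.ee t) (1 : k))

theorem mono_li (hg : GenP k x y) (n : ℕ) : LinearIndependent k (mono k x y n) := by
  have h1 : LinearIndependent k fun t : Poly2.Tri n =>
      (monomial (Poly2.ee t) (1 : k) : MvPolynomial (Fin 2) k) := by
    have := (basisMonomials (Fin 2) k).linearIndependent.comp _ (Poly2.ee_inj (n := n))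
    rwa [coe_basisMonomials] at this
  exact h1.map' (aeval ![x, y] : MvPolynomial (Fin 2) k →ₐ[k] M).toLinearMap
    (LinearMap.ker_eq_bot.2 (algebraicIndependent_iff_injective_aeval.1 hg.ind))

theorem mono_mem (h : P2 k x y L) (c : Unit → ℤ) {n : ℕ} (hn : n = (c () + 1).toNat)
    (t : Poly2.Tri n) : mono k x y n t ∈ (p2 k x y).Sec c := by
  intro O hO
  have hG := h.gH O hO
  have h0 := hG.ne
  have h1 := t.1.2
  have h2 := t.2.2
  obtain ⟨m, hm⟩ : ∃ m : ℕ, c () = ((t.2 : ℕ) + (t.1 - t.2 : ℕ) + m : ℕ) :=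
    ⟨(c () - t.1).toNat, by omega⟩
  have e : mono k x y n t * (p2 k x y).lb c O = (x / gn {x, y, 1} O) ^ (t.2 : ℕ) *
      (y / gn {x, y, 1} O) ^ (t.1 - t.2 : ℕ) * (1 / gn {x, y, 1} O) ^ m := by
    rw [h.lb, hm, mono, Poly2.ee, aeval_monomial, Finsupp.prod_add_index' (by simp)
      (fun _ _ _ => pow_add _ _ _), Finsupp.prod_single_index (by simp),
      Finsupp.prod_single_index (by simp), zpow_neg, zpow_natCast, pow_add, pow_add]
    simp only [map_one, Matrix.cons_val_zero, Matrix.cons_val_one, div_pow, one_pow]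
    field_simp
  rw [e]
  exact O.mul_mem (O.mul_mem (O.pow_mem (hG.1 x (by simp)) _) (O.pow_mem (hG.1 y (by simp)) _))
    (O.pow_mem (hG.1 1 (by simp)) _)

theorem sec_eq (ha : Aff k M) (h : P2 k x y L) (c : Unit → ℤ) :
    (p2 k x y).Sec c = Submodule.span k (Set.range (mono k x y (c () + 1).toNat)) := by
  refine le_antisymm (fun φ hφ => ?_) (Submodule.span_le.2 ?_)
  · obtain ⟨p, rfl⟩ := ha.mem x y φ h.gen fun P hP => by
      obtain ⟨h1, h2⟩ := h.aff _ hP
      have h3 := hφ _ h1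
      rw [h.lb] at h3
      have h4 := (plO P).mul_mem h3 (h2.zpow (c ())).mem
      rw [mul_assoc, ← zpow_add₀ h2.ne, neg_add_cancel, zpow_zero, mul_one] at h4
      exact (mem_plO' P).1 h4
    by_cases hp : p = 0
    · rw [hp, map_zero]
      exact Submodule.zero_mem _
    have hL := (h.pl L).2 (Or.inl rfl)
    have h3 := mem_plO_ord.1 (hφ _ hL)
    rw [h.lb, L.ord_mul (h.gen.aeval_ne hp) (zpow_ne_zero _ (h.gH _ hL).ne), L.ord_zpow, h.oL,
      h.ord p hp] at h3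
    rw [p.as_sum, map_sum]
    refine Submodule.sum_mem _ fun s hs => ?_
    have h4 : s.degree ≤ p.totalDegree := le_totalDegree hs
    obtain ⟨t, rfl⟩ := Poly2.ee_sur (n := (c () + 1).toNat) (s := s) (by omega)
    have e : (monomial (Poly2.ee t) (coeff (Poly2.ee t) p) : MvPolynomial (Fin 2) k) =
        coeff (Poly2.ee t) p • monomial (Poly2.ee t) (1 : k) := by
      rw [smul_monomial, smul_eq_mul, mul_one]
    rw [e, map_smul]
    exact Submodule.smul_mem _ _ (Submodule.subset_span ⟨t, rfl⟩)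
  · rintro _ ⟨t, rfl⟩
    exact mono_mem h c rfl t

theorem h0_eq (ha : Aff k M) (h : P2 k x y L) (c : Unit → ℤ) (hc : -1 ≤ c ()) :
    2 * (p2 k x y).h0 c = (c () + 1) * (c () + 2) := by
  rw [Sd.h0, sec_eq ha h, finrank_span_eq_card (mono_li h.gen _)]
  have h1 := congrArg (Nat.cast : ℕ → ℤ) (Poly2.card_tri (c () + 1).toNat)
  push_cast at h1
  rw [h1, Int.toNat_of_nonneg (by omega)]
  ring

theorem gg (h : P2 k x y L) (n : ℕ) (c : Unit → ℤ) (hc : c () = n) : (p2 k x y).GG c := by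
  have h1 : (p2 k x y).GG fun _ => 1 :=
    ⟨{x, y, 1}, h.fam.fin (), h.fam.nz (), fun O hO => by
      rw [h.lb, zpow_neg, inv_inv, zpow_one]
      exact h.gH O hO⟩
  have h2 := gg_nsmul (S := p2 k x y) (fun O hO _ => inv_ne_zero (h.gH O hO).ne) h1 n
  convert h2 using 1
  funext u
  simp [hc]

end P2Cp

open P2Cp in
theorem p2C_stmt : P2CStmt := by
  intro k M _ _ _ _ _ x y L ha h
  refine ⟨⟨⟨fun _ => 1, by simp [ip_p2], fun v hv h0 => (h0 ?_).elim⟩, fun c => ?_, ?_, ?_, ?_⟩,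
    ⟨fun c => ?_, fun c hc => ?_, fun t ht => ?_⟩, fun c => ?_⟩
  · funext u
    simpa [ip_p2] using hv
  · rw [ip_p2, ip_p2]
    have e : c () * c () + (p2 k x y).K () * c () = c () * (c () + 1) - 2 * (2 * c ()) := by
      simp only [p2]
      ring
    rw [e]
    exact (Int.even_mul_succ_self _).sub (even_two_mul _)
  · rw [ip_p2]
    simp [p2]
  · rw [ip_p2]
    simp [p2]
  · rw [ip_p2]
    simp [p2]
  · rw [sec_eq ha h]
    exact FiniteDimensional.span_of_finite k (Set.finite_range _)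
  · rw [ip_p2] at hc
    rw [chi, h0_eq ha h c (by simpa [p2] using hc)]
  · rw [chi, h0_eq ha h _ (by simp [p2]; omega)]
  · exact ⟨fun _ => (c ()).natAbs, gg h (c ()).natAbs _ rfl,
      gg h ((c ()).natAbs + c ()).toNat _ (by simp only [Pi.add_apply]; omega)⟩

end Pool.Agent.MP_20d318_ag.CB

end MrgPart3

-- ======== part 4: formerly Pool.Agent.MP_20d318_ag.CB.FnR
section MrgPart4

/-! The spaces of sections on a Hirzebruch surface. -/

set_option autoImplicit false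

namespace Pool.Agent.MP_20d318_ag.CB

open Pool.Agent.MP_79c67d_ag Pool.Agent.MP_20d318_ag.AG Pool.Agent.MP_20d318_ag.BV MvPolynomial

namespace FnRp

variable {k M : Type} [Field k] [Field M] [Algebra k M] {n : ℕ} {x y : M} {F G : Place k M}

theorem sec_iff (h : Fn1 k n x y F G) (c : Fin 2 → ℤ) (φ : M) : φ ∈ (fn k n x y).Sec c ↔
    (∀ P : Place k M, Cht (plO P) x y → P.Ge 0 φ) ∧ F.Ge (-c 0) φ ∧ G.Ge (-c 1) φ := by
  by_cases h0 : φ = 0
  · simp [h0, Place.ge_zero]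
  have hc := (isCart_const (X := (fn k n x y).T) h0).mul ((fn k n x y).lb_cart h.cartg c)
  have ho : ∀ P : Place k M, plO P ∈ (fn k n x y).T → P.ord (φ * (fn k n x y).lb c (plO P)) =
      P.ord φ - c 0 * P.ord (gn (fF n x y 0) (plO P)) - c 1 * P.ord (gn (fF n x y 1) (plO P)) :=
    fun P hP => by
      have a0 := (h.gF _ hP 0).ne
      have a1 := (h.gF _ hP 1).ne
      rw [h.lb, P.ord_mul h0 (mul_ne_zero (zpow_ne_zero _ a0) (zpow_ne_zero _ a1)),
        P.ord_mul (zpow_ne_zero _ a0) (zpow_ne_zero _ a1), P.ord_zpow, P.ord_zpow]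
      ring
  have hF := ho F ((h.pl F).2 (Or.inl rfl))
  have hG := ho G ((h.pl G).2 (Or.inr (Or.inl rfl)))
  rw [h.oF.1, h.oF.2] at hF
  rw [h.oG.1, h.oG.2] at hG
  have hA : ∀ P : Place k M, Cht (plO P) x y →
      P.ord (φ * (fn k n x y).lb c (plO P)) = P.ord φ := fun P hP => by
    rw [ho P (h.k1 _ hP).1, ((isU_plO' P).1 (h.k1 _ hP).2.1).2,
      ((isU_plO' P).1 (h.k1 _ hP).2.2).2]
    ring
  simp only [Place.ge_iff _ h0]
  constructor
  · intro H
    have a := fun P hP => mem_plO_ord.1 (H (plO P) hP)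
    refine ⟨fun P hP => hA P hP ▸ a P (h.k1 _ hP).1, ?_, ?_⟩
    · linarith [a F ((h.pl F).2 (Or.inl rfl))]
    · linarith [a G ((h.pl G).2 (Or.inr (Or.inl rfl)))]
  · rintro ⟨a, b, d⟩ O hO
    refine h.nice.eff hc hO fun P hP _ => ?_
    change 0 ≤ P.ord (φ * (fn k n x y).lb c (plO P))
    rcases (h.pl P).1 hP with rfl | rfl | e
    · linarith
    · linarith
    · rw [hA P e]; exact a P e

/-- The exponent vector. -/
noncomputable def ex (i j : ℕ) : Fin 2 →₀ ℕ := Finsupp.single 0 i + Finsupp.single 1 j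

theorem ex0 (i j : ℕ) : ex i j 0 = i := by simp [ex]

theorem ex1 (i j : ℕ) : ex i j 1 = j := by simp [ex]

theorem ex_eta (s : Fin 2 →₀ ℕ) : ex (s 0) (s 1) = s := by
  ext i; fin_cases i <;> simp [ex]

theorem aeval_ex (u w : M) (i j : ℕ) (a : k) :
    aeval ![u, w] (monomial (ex i j) a) = a • (u ^ i * w ^ j) := by
  rw [aeval_monomial, Finsupp.prod_fintype _ _ (by simp), Fin.prod_univ_two, ex0, ex1,
    Algebra.smul_def]
  rfl

theorem ne_zero (h : GenP k x y) : x ≠ 0 ∧ y ≠ 0 := ⟨h.ind.ne_zero 0, h.ind.ne_zero 1⟩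

theorem ords (h : Fn1 k n x y F G) :
    F.ord x = -1 ∧ F.ord y = n ∧ G.ord x = 0 ∧ G.ord y = -1 := by
  have a1 := h.ordF 0 (X 0) (X_ne_zero _)
  have a2 := h.ordF 0 (X 1) (X_ne_zero _)
  have a3 := h.ordG (X 0) (X_ne_zero _)
  have a4 := h.ordG (X 1) (X_ne_zero _)
  simp [degreeOf_X] at a1 a2 a3 a4
  rw [F.ord_mul (pow_ne_zero _ (ne_zero h.gen).1) (ne_zero h.gen).2, F.ord_pow, a1] at a2
  exact ⟨a1, by linarith, a3, a4⟩

theorem supp (h : Fn1 k n x y F G) {p : MvPolynomial (Fin 2) k} {b : ℤ}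
    (hb : F.Ge (-b) (aeval ![x, y] p)) {s : Fin 2 →₀ ℕ} (hs : s ∈ p.support) :
    (s 0 : ℤ) ≤ b + n * s 1 := by
  classical
  set J := p.degreeOf 1
  set q : MvPolynomial (Fin 2) k :=
    ∑ t ∈ p.support, monomial (ex (t 0 + n * (J - t 1)) (t 1)) (coeff t p) with hq
  have e1 : coeff (ex (s 0 + n * (J - s 1)) (s 1)) q = coeff s p := by
    rw [hq, coeff_sum, Finset.sum_eq_single s, coeff_monomial, if_pos rfl]
    · intro t _ ht
      rw [coeff_monomial, if_neg]
      intro e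
      have a1 := congrArg (· 1) e
      have a0 := congrArg (· 0) e
      simp only [ex0, ex1] at a0 a1
      rw [a1] at a0
      exact ht (by rw [← ex_eta t, ← ex_eta s, a1, Nat.add_right_cancel a0])
    · exact fun e => absurd hs e
  have e2 : ex (s 0 + n * (J - s 1)) (s 1) ∈ q.support := by
    rw [mem_support_iff, e1]; exact mem_support_iff.1 hs
  have e3 := monomial_le_degreeOf 0 e2
  have e4 := h.ordF 0 q (support_nonempty.1 ⟨_, e2⟩)
  have e5 : aeval ![x, (x - algebraMap k M 0) ^ n * y] q = x ^ (n * J) * aeval ![x, y] p := by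
    conv_rhs => rw [p.as_sum]
    rw [hq, map_sum, map_sum, Finset.mul_sum]
    refine Finset.sum_congr rfl fun t ht => ?_
    obtain ⟨d, hd : J = _⟩ := Nat.exists_eq_add_of_le (monomial_le_degreeOf 1 ht : t 1 ≤ J)
    conv_rhs => rw [← ex_eta t]
    rw [aeval_ex, aeval_ex, ex_eta, map_zero (algebraMap k M), sub_zero, hd,
      Nat.add_sub_cancel_left, mul_smul_comm]
    congr 1
    ring
  have p0 : aeval ![x, y] p ≠ 0 := fun e => support_nonempty.1 ⟨s, hs⟩
    (algebraicIndependent_iff.1 h.gen.ind p e)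
  have e6 := hb.le p0
  have e7 : s 1 ≤ J := monomial_le_degreeOf 1 hs
  rw [e5, F.ord_mul (pow_ne_zero _ (ne_zero h.gen).1) p0, F.ord_pow, (ords h).1] at e4
  rw [ex0] at e3
  zify [e7] at e3
  push_cast at e4
  linarith

/-- The exponents of the sections. -/
def dd (n : ℕ) (c : Fin 2 → ℤ) : Finset (Σ _ : ℕ, ℕ) :=
  (Finset.range (c 1 + 1).toNat).sigma fun j => Finset.range (c 0 + n * j + 1).toNat

theorem mem_dd {c : Fin 2 → ℤ} {d : Σ _ : ℕ, ℕ} :
    d ∈ dd n c ↔ (d.1 : ℤ) ≤ c 1 ∧ (d.2 : ℤ) ≤ c 0 + n * d.1 := by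
  simp only [dd, Finset.mem_sigma, Finset.mem_range, Int.lt_toNat, Int.lt_add_one_iff]

theorem sec_eq (ha : Aff k M) (h : Fn1 k n x y F G) (c : Fin 2 → ℤ) : (fn k n x y).Sec c =
    Submodule.span k (Set.range fun d : dd n c => x ^ d.1.2 * y ^ d.1.1) := by
  obtain ⟨x0, y0⟩ := ne_zero h.gen
  obtain ⟨o1, o2, o3, o4⟩ := ords h
  refine le_antisymm (fun φ hφ => ?_) (Submodule.span_le.2 ?_)
  · obtain ⟨a, b, d⟩ := (sec_iff h c φ).1 hφ
    obtain ⟨p, rfl⟩ := ha.mem x y φ h.gen a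
    rw [p.as_sum, map_sum]
    refine Submodule.sum_mem _ fun s hs => ?_
    have p0 := support_nonempty.1 ⟨s, hs⟩
    have e1 := d.le fun e => p0 (algebraicIndependent_iff.1 h.gen.ind p e)
    have e2 : (s 1 : ℤ) ≤ p.degreeOf 1 := by exact_mod_cast monomial_le_degreeOf 1 hs
    rw [h.ordG p p0] at e1
    rw [← ex_eta s, aeval_ex]
    exact Submodule.smul_mem _ _ (Submodule.subset_span
      ⟨⟨⟨s 1, s 0⟩, mem_dd.2 ⟨by linarith, supp h b hs⟩⟩, rfl⟩)
  · rintro _ ⟨⟨d, hd⟩, rfl⟩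
    obtain ⟨a, b⟩ := mem_dd.1 hd
    refine (sec_iff h c _).2 ⟨fun P hP => (mem_plO' P).1 (mul_mem (pow_mem (hP.2.2.1
      (Algebra.subset_adjoin (by simp))) _) (pow_mem (hP.2.2.1
      (Algebra.subset_adjoin (by simp))) _)), Place.ge_of_le _ ?_, Place.ge_of_le _ ?_⟩
    · rw [F.ord_mul (pow_ne_zero _ x0) (pow_ne_zero _ y0), F.ord_pow, F.ord_pow, o1, o2]
      linarith
    · rw [G.ord_mul (pow_ne_zero _ x0) (pow_ne_zero _ y0), G.ord_pow, G.ord_pow, o3, o4]
      linarith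

theorem h0_eq (ha : Aff k M) (h : Fn1 k n x y F G) (c : Fin 2 → ℤ) : (fn k n x y).h0 c =
    ∑ j ∈ Finset.range (c 1 + 1).toNat, ((c 0 + n * j + 1).toNat : ℤ) := by
  have l := (((basisMonomials (Fin 2) k).linearIndependent.map' (aeval ![x, y]).toLinearMap
    (LinearMap.ker_eq_bot.2 h.gen.ind)).comp (fun d : dd n c => ex d.1.2 d.1.1) (by
      rintro ⟨⟨a, b⟩, _⟩ ⟨⟨a', b'⟩, _⟩ e
      have a1 := congrArg (· 1) e
      have a0 := congrArg (· 0) e
      simp only [ex0, ex1] at a0 a1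
      subst a0 a1
      rfl))
  have e : ((⇑(aeval ![x, y] : MvPolynomial (Fin 2) k →ₐ[k] M).toLinearMap ∘
      ⇑(basisMonomials (Fin 2) k)) ∘ fun d : dd n c => ex d.1.2 d.1.1) =
      fun d : dd n c => x ^ d.1.2 * y ^ d.1.1 := by
    funext d
    simp [aeval_ex]
  rw [e] at l
  rw [Sd.h0, sec_eq ha h, finrank_span_eq_card l, Fintype.card_coe, dd, Finset.card_sigma]
  simp

theorem sum_eq (b : ℤ) (m : ℕ) : 2 * ∑ j ∈ Finset.range m, (b + n * j + 1) =
    2 * m * (b + 1) + n * m * (m - 1) := by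
  induction m with
  | zero => simp
  | succ m ih => rw [Finset.sum_range_succ, mul_add, ih]; push_cast; ring

theorem chi_eq (c : Fin 2 → ℤ) (hc : -1 ≤ c 1) : chi2 (fn k n x y).B (fn k n x y).K c =
    2 * ∑ j ∈ Finset.range (c 1 + 1).toNat, (c 0 + n * j + 1) := by
  rw [sum_eq, Int.toNat_of_nonneg (by linarith)]
  simp [chi2, ip, fn, Fin.sum_univ_two]
  ring

end FnRp

open FnRp in
theorem fnR_stmt : FnRStmt := by
  intro k M _ _ _ _ _ n x y F G ha h
  refine ⟨fun c => ?_, fun c hc => ?_, fun t ht => ?_⟩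
  · rw [sec_eq ha h]
    exact FiniteDimensional.span_of_finite k (Set.finite_range _)
  · rw [chi_eq c (by simpa [ip, fn, Fin.sum_univ_two] using hc), h0_eq ha h]
    exact mul_le_mul_of_nonneg_left (Finset.sum_le_sum fun j _ => Int.self_le_toNat _) (by norm_num)
  · have e0 : ((fn k n x y).K + t • (fn k n x y).A) 0 = n - 2 + t := by simp [fn]
    have e1 : ((fn k n x y).K + t • (fn k n x y).A) 1 = -2 + t := by simp [fn]
    rw [chi_eq _ (by rw [e1]; linarith), h0_eq ha h, e0]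
    refine le_of_eq (congrArg _ (Finset.sum_congr rfl fun j _ => Int.toNat_of_nonneg ?_))
    have : (0 : ℤ) ≤ n * j := by positivity
    have : (0 : ℤ) ≤ n := by positivity
    linarith

end Pool.Agent.MP_20d318_ag.CB

end MrgPart4

-- ======== part 5: formerly Pool.Agent.MP_20d318_ag.CB.FnL
section MrgPart5

/-! The lattice of a Hirzebruch surface. -/

set_option autoImplicit false

namespace Pool.Agent.MP_20d318_ag.CB

open Pool.Agent.MP_79c67d_ag Pool.Agent.MP_20d318_ag.AG Pool.Agent.MP_20d318_ag.BV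

namespace FnL

variable {k M : Type} [Field k] [Field M] [Algebra k M] {n : ℕ} {x y : M}

theorem ip_fn {R : Type} [CommRing R] (c c' : Fin 2 → R) :
    ip (fn k n x y).B c c' = c 0 * c' 1 + c 1 * c' 0 + n * c 1 * c' 1 := by
  simp [ip, fn, Fin.sum_univ_two]
  ring

theorem gg (h : Fn0 k n x y) (a b : ℕ) : (fn k n x y).GG ![a, b] := by
  have h0 : ∀ O ∈ (fn k n x y).T, ∀ i, (fn k n x y).g i O ≠ 0 := fun O hO i => by
    obtain ⟨a, -, u⟩ := (h.gF O hO i).2
    exact inv_ne_zero fun e => u.1 (by rw [e, div_zero])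
  have g0 : (fn k n x y).GG ![1, 0] := ⟨fF n x y 0, by simp [fF], fun a ha => by
    simpa using h.fam.nz () _ ⟨a, ha, 1, by simp [fF], rfl⟩, fun O hO => by
      simpa [h.lb] using h.gF O hO 0⟩
  have g1 : (fn k n x y).GG ![0, 1] := ⟨fF n x y 1, by simp [fF], fun a ha => by
    simpa using h.fam.nz () _ ⟨1, by simp [fF], a, ha, rfl⟩, fun O hO => by
      simpa [h.lb] using h.gF O hO 1⟩
  simpa using gg_add h0 (gg_nsmul h0 g0 a) (gg_nsmul h0 g1 b)

end FnL

theorem fnL_stmt : FnLStmt := by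
  intro k M _ _ _ _ _ n x y F G h d
  refine ⟨⟨h.fam, h.cartg, h.gH, h.can, fun i j => ?_, h.all, d, fun c hc => ?_⟩,
    ⟨⟨![1, 1], ?_, fun v h1 h2 => ?_⟩, fun c => ?_, ?_, ?_, ?_⟩, fun c => ?_⟩
  · fin_cases i <;> fin_cases j <;> rfl
  · have h1 := hc _ ⟨_, _, h.pF⟩
    have h2 := hc _ ⟨_, _, h.pG⟩
    simp [FnL.ip_fn] at h1
    simp [FnL.ip_fn, h1] at h2
    funext i
    fin_cases i
    exacts [h2, h1]
  · simp only [FnL.ip_fn, Matrix.cons_val_zero, Matrix.cons_val_one]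
    positivity
  · simp only [FnL.ip_fn, Matrix.cons_val_zero, Matrix.cons_val_one, mul_one] at h1 ⊢
    have e : v 0 = -(n + 1) * v 1 := by linarith
    have : v 1 ≠ 0 := fun e1 => h2 (by
      funext i
      fin_cases i
      exacts [e.trans (by rw [e1, mul_zero]; rfl), e1])
    have : 0 < (n + 2) * v 1 ^ 2 := by positivity
    rw [e]
    linarith
  · obtain ⟨t, ht⟩ := Int.even_mul_pred_self (c 1)
    refine ⟨c 0 * c 1 - c 0 - c 1 + n * t, ?_⟩
    simp only [FnL.ip_fn]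
    simp only [fn, Matrix.cons_val_zero, Matrix.cons_val_one]
    linear_combination n * ht
  · simp only [FnL.ip_fn]
    simp [fn]
    ring
  · simp only [FnL.ip_fn]
    simp [fn]
  · simp only [FnL.ip_fn]
    simp [fn]
  · refine ⟨_, FnL.gg h.toFn0 (c 0).natAbs (c 1).natAbs, ?_⟩
    convert FnL.gg h.toFn0 ((c 0).natAbs + c 0).toNat ((c 1).natAbs + c 1).toNat using 1
    funext i
    fin_cases i <;> simp <;> linarith [neg_abs_le (c 0), neg_abs_le (c 1)]

end Pool.Agent.MP_20d318_ag.CB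

end MrgPart5

-- ======== part 6: formerly Pool.Agent.MP_20d318_ag.CB.ESpec
section MrgPart6

/-! The plane blown up in ten points is an example. -/

set_option autoImplicit false

namespace Pool.Agent.MP_20d318_ag.CB

open Pool.Agent.MP_79c67d_ag Pool.Agent.MP_20d318_ag.AG Pool.Agent.MP_20d318_ag.BV

/-- EX1. -/
def Ex1Stmt : Prop := TMods → ∀ (k M : Type) [Field k] [CharZero k] [IsAlgClosed k] [Field M]
  [Algebra k M] (d : Dat k) (x y : M), GenP k x y →
  (∀ q q', d.a q = d.a q' → d.b q = d.b q' → q = q') → RS.Tower (TT d x y)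

/-- EX2. -/
def Ex2Stmt : Prop := PlaneStmt → ∀ (k M : Type) [Field k] [CharZero k] [IsAlgClosed k] [Field M]
  [Algebra k M] (d : Dat k) (x y : M), Jc k M → TAll d x y → ∃ D₁ D₂ : Derivation k M M,
    RS.BiAnti (TT d x y) D₁ D₂ (fg d x y 0 * fg d x y 1) ∧
    RS.SmoothZero (TT d x y) D₁ D₂ (fg d x y 0 * fg d x y 1) ∧
    RS.BiAnti (TT d x y) D₁ D₂ ((fg d x y 0 + fg d x y 1) * fg d x y 1) ∧
    ∀ c : k, (fg d x y 0 + fg d x y 1) * fg d x y 1 ≠ c • (fg d x y 0 * fg d x y 1)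

end Pool.Agent.MP_20d318_ag.CB

end MrgPart6

-- ======== part 7: formerly Pool.Agent.MP_20d318_ag.CB.Ex1
section MrgPart7

/-! The plane blown up in ten points is an iterated blow-up of the plane. -/

set_option autoImplicit false

namespace Pool.Agent.MP_20d318_ag.CB

open Pool.Agent.MP_79c67d_ag Pool.Agent.MP_20d318_ag.AG Pool.Agent.MP_20d318_ag.BV MvPolynomial

namespace Ex1

variable {k M Λ Λ' : Type} [Field k] [Field M] [Algebra k M] {O O₀ R : Subalgebra k M}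
  {a b g x y : M}

theorem mem_of [Finite Λ] {F : Λ → Set M} {F' : Λ' → Set M} (hF : Fam k F) (hR : R ∈ mp k F)
    (h : ∀ l, Prin (F' l) R) (h' : ∀ O ∈ mp k F', ∀ l, Prin (F l) O) : R ∈ mp k F' := by
  obtain ⟨O', h1, h2⟩ := exists_mp_dom (mp_loc hR) h
  obtain ⟨O'', h3, h4⟩ := exists_mp_dom (mp_loc h1) (h' O' h1)
  have h5 := (fine_mp hF).sep O'' h3 R hR R (mp_loc hR) (h4.trans h2) (Dom.refl R)
  rw [le_antisymm (h5 ▸ h4.1 : R ≤ O') h2.1]
  exact h1

theorem prin_one : Prin {1} O := (gn_one (S := {1}) (by simp) ⟨1, rfl, isU_one⟩).prin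

/-- One more family, the projection from the point `O₀`, gives the blow-up. -/
theorem step [Finite Λ] {F F' : Λ → Set M} (hF : Fam k F) (hF' : Fam k F')
    (e : ∀ l, F' l = F l ∨ F l = {1} ∧ F' l = {a, b}) (e0 : ∃ l, F' l = {a, b})
    (h0 : O₀ ∈ mp k F) (hP : O₀ ∈ Pts (Algebra.adjoin k {a, b})) (ha : a ∈ mx O₀) (hb : b ∈ mx O₀)
    (hR : ∀ R ∈ mp k F, R ≠ O₀ → Prin {a, b} R) : mp k F' = RS.blowUp (mp k F) O₀ := by
  have hT := fine_mp hF
  have mm : ∀ t ∈ ({a, b} : Set M), t ∈ mx O₀ := by rintro _ (rfl | rfl) <;> assumption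
  have p1 : ∀ O ∈ mp k F', ∀ l, Prin (F l) O := fun O hO l =>
    (e l).elim (fun h => h ▸ mp_prin hF' hO l) fun h => h.1 ▸ prin_one
  have p2 : ∀ O ∈ mp k F', ∃ t ∈ ({a, b} : Set M), Gn {a, b} O t := fun O hO =>
    e0.elim fun l h => (h ▸ mp_prin hF' hO l).exists_mem
  have p3 : ∀ O : Subalgebra k M, (∀ l, Prin (F l) O) → Prin {a, b} O → ∀ l, Prin (F' l) O :=
    fun O h h' l => (e l).elim (fun h1 => h1 ▸ h l) fun h1 => h1.2 ▸ h'
  have off : ∀ R ∈ mp k F, R ≠ O₀ → R ∈ mp k F' := fun R h hne =>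
    mem_of hF h (p3 R (mp_prin hF h) (hR R h hne)) p1
  have below : ∀ O ∈ mp k F', ∃ R ∈ mp k F, Dom R O := fun O hO =>
    exists_mp_dom (mp_loc hO) (p1 O hO)
  have dv : ∀ {O : Subalgebra k M} {t : M}, O₀ ≤ O → (∀ s ∈ ({a, b} : Set M), s / t ∈ O) →
      ∀ u ∈ mx O₀, u / t ∈ O := fun hle h u hu => by
    obtain ⟨α, hα, β, hβ, rfl⟩ := BlB.span hP ha hb hu
    rw [add_div, mul_div_assoc, mul_div_assoc]
    exact add_mem (mul_mem (hle hα) (h a (by simp))) (mul_mem (hle hβ) (h b (by simp)))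
  refine Set.ext fun O => ⟨fun hO => ?_, fun hO => ?_⟩
  · obtain ⟨R, h1, hd⟩ := below O hO
    by_cases hne : R = O₀
    · subst hne
      obtain ⟨t, ht, gt⟩ := p2 O hO
      refine Or.inr (Set.mem_iUnion₂.2 ⟨t, ⟨mm t ht, gt.ne⟩, mp_chart hF' hO
        (Algebra.adjoin_le (Set.union_subset hd.1 ?_)) fun l => (e l).elim (fun h => ?_) fun h => ?_⟩)
      · rintro _ ⟨u, hu, rfl⟩
        exact dv hd.1 gt.1 u hu
      · obtain ⟨s, hs, gs⟩ := (mp_prin hF h0 l).exists_mem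
        rw [h]
        exact ⟨s, hs, fun c hc => le_fr (Algebra.subset_adjoin (Or.inl (gs.1 c hc)))⟩
      · rw [h.2]
        exact ⟨t, ht, fun c hc => le_fr (Algebra.subset_adjoin (Or.inr ⟨c, mm c hc, rfl⟩))⟩
    · obtain rfl := (fine_mp hF').sep R (off R h1 hne) O hO O (mp_loc hO) hd (Dom.refl O)
      exact Or.inl ⟨h1, hne⟩
  · rcases hO with hO | hO
    · exact off O hO.1 hO.2
    obtain ⟨g, ⟨hg, g0⟩, hO⟩ := Set.mem_iUnion₂.1 hO
    change O ∈ Pts (Algebra.adjoin k ((O₀ : Set M) ∪ (fun u => u / g) '' mx O₀)) at hO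
    replace g0 : g ≠ 0 := g0
    have hle : O₀ ≤ O := fun u hu => hO.2.1 (Algebra.subset_adjoin (Or.inl hu))
    have hm : ∀ u ∈ mx O₀, u / g ∈ O := fun u hu =>
      hO.2.1 (Algebra.subset_adjoin (Or.inr ⟨u, hu, rfl⟩))
    by_cases hd : Dom O₀ O
    · have h1 : Gn {a, b} O g := ⟨fun s hs => hm s (mm s hs), by_contra fun hn => by
        obtain ⟨α, hα, β, hβ, e1⟩ := BlB.span hP ha hb hg
        have := BlB.lin hO.1 ⟨hm a ha, fun h => hn ⟨a, by simp, h⟩⟩
          ⟨hm b hb, fun h => hn ⟨b, by simp, h⟩⟩ (hle hα) (hle hβ)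
        rw [← mul_div_assoc, ← mul_div_assoc, ← add_div, ← e1, div_self g0] at this
        exact one_not_mem_mx this⟩
      refine mp_local hO (p3 O (fun l => (mp_prin hF h0 l).mono hle) h1.prin) fun O' hO' hd' => ?_
      obtain ⟨R, hR, h2⟩ := below O' hO'
      obtain rfl := hT.sep R hR O₀ h0 O hO.1 (h2.trans hd') hd
      obtain ⟨t, -, h3⟩ := p2 O' hO'
      have h4 := dv h2.1 h3.1
      have h5 : IsU O' (g / t) := hd'.2 _ (h4 g hg) (h1.unit (h3.mono hd'.1))
      refine Algebra.adjoin_le (Set.union_subset h2.1 ?_)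
      rintro _ ⟨u, hu, rfl⟩
      have h6 := h5.div_mem (h4 u hu)
      rwa [div_div_div_cancel_right₀ h3.ne] at h6
    · have h1 : IsU O g := by_contra fun hn => hd ⟨hle, fun u hu h' => by_contra fun h2 =>
        hn (IsU.of_mul (hle hg.1) (hm u ⟨hu, h2⟩) (by rwa [mul_div_cancel₀ _ g0]))⟩
      refine off O (hT.toGood.pts h0 (Pts_of_fr hO hle ?_)) fun e => hd (e ▸ Dom.refl O)
      rintro _ (hu | ⟨u, hu, rfl⟩)
      · exact le_fr hu
      · exact ⟨u, hu.1, g, hg.1, h1, rfl⟩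

/-- The point with coordinates `(α, β)`. -/
theorem exists_pt (h : GenP k x y) (α β : k) : ∃ O ∈ Pts (Algebra.adjoin k {x, y}),
    x - algebraMap k M α ∈ mx O ∧ y - algebraMap k M β ∈ mx O := by
  have e : Set.range ![x, y] = {x, y} := by simp [Set.pair_comm]
  obtain ⟨O, hO, ρ, hρ, he⟩ := exists_ext ((aeval ![α, β]).comp h.ind.aevalEquiv.symm.toAlgHom)
  have key : ∀ i, ![x, y] i - algebraMap k M (![α, β] i) ∈ mx O := fun i => by
    have h1 : ![x, y] i ∈ Algebra.adjoin k (Set.range ![x, y]) := Algebra.subset_adjoin ⟨i, rfl⟩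
    have h2 : h.ind.aevalEquiv (X i) = ⟨_, h1⟩ := Subtype.ext (by simp)
    refine (hρ.eq_zero_iff (sub_mem (hO.2.1 h1) (O.algebraMap_mem _))).1 ?_
    rw [evO_sub _ (hO.2.1 h1) (O.algebraMap_mem _), evO_const, he _ h1, evO_of_mem _ h1, ← h2]
    simp
  exact ⟨O, e ▸ hO, key 0, key 1⟩

/-- The families that define the plane blown up in the points of `s`. -/
def fm (d : Dat k) (x y : M) (s : Finset Q) (o : Option Q) : Set M :=
  o.elim (SH x y) fun q => if q ∈ s then SQ d x y q else {1}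

variable {d : Dat k}

theorem fam (h : GenP k x y) (s : Finset Q) : Fam k (fm d x y s) := by
  refine ⟨?_, ?_, ?_, top_unique (h.top.ge.trans (IntermediateField.adjoin.mono _ _ _ ?_))⟩
  · rintro (_ | q)
    · simp [fm, SH]
    · by_cases hq : q ∈ s <;> simp [fm, SQ, hq]
  · rintro (_ | q)
    · simp [fm, SH]
    · by_cases hq : q ∈ s <;> simp [fm, SQ, hq]
  · rintro (_ | q)
    · simpa [fm, SH] using ⟨by simpa using h.x_ne 0, by simpa using h.y_ne 0⟩
    · by_cases hq : q ∈ s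
      · simpa [fm, SQ, hq] using ⟨h.x_ne _, h.y_ne _⟩
      · simp [fm, hq]
  · rintro _ (rfl | rfl)
    · exact ⟨none, _, Or.inl rfl, 1, Or.inr (Or.inr rfl), by simp⟩
    · exact ⟨none, _, Or.inr (Or.inl rfl), 1, Or.inr (Or.inr rfl), by simp⟩

theorem adj (q : Q) : Algebra.adjoin k {xq d x q, yq d y q} = Algebra.adjoin k {x, y} := by
  refine le_antisymm (BlB.adj_le (sub_mem BlB.m1 (Subalgebra.algebraMap_mem _ _))
    (sub_mem BlB.m2 (Subalgebra.algebraMap_mem _ _))) ?_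
  have h1 : xq d x q + algebraMap k M (d.a q) ∈ Algebra.adjoin k {xq d x q, yq d y q} :=
    add_mem BlB.m1 (Subalgebra.algebraMap_mem _ _)
  have h2 : yq d y q + algebraMap k M (d.b q) ∈ Algebra.adjoin k {xq d x q, yq d y q} :=
    add_mem BlB.m2 (Subalgebra.algebraMap_mem _ _)
  rw [show xq d x q + algebraMap k M (d.a q) = x from sub_add_cancel _ _] at h1
  rw [show yq d y q + algebraMap k M (d.b q) = y from sub_add_cancel _ _] at h2
  exact BlB.adj_le h1 h2

theorem prin_or (hO : IsLocalRing O) (h : Prin (SH x y) O) (q : Q) :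
    Prin (SQ d x y q) O ∨ xq d x q ∈ mx O ∧ yq d y q ∈ mx O := by
  obtain ⟨γ, h1, h2⟩ := h
  have m : ∀ c : k, algebraMap k M c / γ ∈ O := fun c => by
    simpa [div_eq_mul_inv] using mul_mem (O.algebraMap_mem c) (h1 1 (by simp [SH]))
  have ma : xq d x q / γ ∈ O := by rw [xq, sub_div]; exact sub_mem (h1 x (by simp [SH])) (m _)
  have mb : yq d y q / γ ∈ O := by rw [yq, sub_div]; exact sub_mem (h1 y (by simp [SH])) (m _)
  refine (em _).imp_right fun hn => ?_
  have n : ∀ t ∈ SQ d x y q, t / γ ∈ mx O := fun t ht =>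
    have : ∀ t ∈ SQ d x y q, t / γ ∈ O := by rintro _ (rfl | rfl) <;> assumption
    ⟨this t ht, fun hu => hn ⟨γ, this, t, ht, hu⟩⟩
  have u : IsU O (1 / γ) := isU_of_not_mx (h1 1 (by simp [SH])) fun hm => by
    have m' : ∀ c : k, algebraMap k M c / γ ∈ mx O := fun c => by
      simpa [div_eq_mul_inv] using mx_mul_left (O.algebraMap_mem c) hm
    obtain ⟨_, rfl | rfl | rfl, hu⟩ := h2
    · exact hu.not_mx (by
        simpa [xq, ← add_div] using mx_add hO (n _ (Or.inl rfl)) (m' (d.a q)))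
    · exact hu.not_mx (by
        simpa [yq, ← add_div] using mx_add hO (n _ (Or.inr rfl)) (m' (d.b q)))
    · exact hu.not_mx hm
  have g0 : γ ≠ 0 := by simpa using u.ne
  constructor
  · simpa [div_mul_cancel₀ _ g0] using mx_div (n _ (Or.inl rfl)) u
  · simpa [div_mul_cancel₀ _ g0] using mx_div (n _ (Or.inr rfl)) u

end Ex1

open Ex1 in
theorem ex1_stmt : Ex1Stmt := by
  classical
  intro m k M _ _ _ _ _ d x y h inj
  have e1 : TT d x y = mp k (fm d x y Finset.univ) := by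
    rw [TT]; congr 1; funext o; cases o <;> simp [famT, fm]
  rw [e1]
  induction (Finset.univ : Finset Q) using Finset.induction_on with
  | empty =>
    obtain ⟨L, p⟩ := m.p2A m.plane k M x y h
    have e : mp k (fm d x y ∅) = (p2 k x y).T := mp_eq (fam h ∅) p.fam
      (fun O hO _ => mp_prin (fam h ∅) hO none) fun O hO l => by
        cases l with
        | none => exact mp_prin p.fam hO ()
        | some q => simpa [fm] using prin_one
    rw [e, p.eq]
    exact .plane x y ⟨h.ind, h.top⟩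
  | insert q s hq ih =>
    obtain ⟨O₀, hP, ha, hb⟩ := exists_pt h (d.a q) (d.b q)
    have hx : x ∈ O₀ := hP.2.1 BlB.m1
    have hy : y ∈ O₀ := hP.2.1 BlB.m2
    have g1 : Gn (SH x y) O₀ 1 := gn_one (by
      rintro _ (rfl | rfl | rfl)
      exacts [hx, hy, one_mem _]) ⟨1, by simp [SH], isU_one⟩
    have h0 : O₀ ∈ mp k (fm d x y s) := mp_local hP (fun l => ?_) fun O hO hd => ?_
    · have hP' := (adj (d := d) (x := x) (y := y) q).symm ▸ hP
      rw [step (fam h s) (fam h (insert q s)) (a := xq d x q) (b := yq d y q) (fun l => ?_)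
        ⟨some q, by simp [fm, SQ]⟩ h0 hP' ha hb fun R hR hne => ?_]
      · exact .blow _ _ ih h0 (ratPt_of hP rfl (by
          rintro _ (rfl | rfl)
          exacts [⟨_, ha⟩, ⟨_, hb⟩]))
      · cases l with
        | none => exact Or.inl rfl
        | some q' =>
          by_cases e : q' = q
          · exact Or.inr (by simp [fm, e, hq, SQ])
          · exact Or.inl (by simp [fm, e])
      · exact (prin_or (mp_loc hR) (mp_prin (fam h s) hR none) q).resolve_right fun hm =>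
          hne ((fine_mp (fam h s)).sep R hR O₀ h0 R (mp_loc hR) (Dom.refl R)
            (BlB.dom hP' ha hb (mp_loc hR) hm.1 hm.2))
    · cases l with
      | none => exact g1.prin
      | some q' =>
        by_cases hs : q' ∈ s
        · have := (prin_or (d := d) hP.1 g1.prin q').resolve_right fun hm => hq (inj q q' ?_ ?_ ▸ hs)
          · simpa [fm, hs] using this
          · refine (sub_eq_zero.1 (const_mem_mx (O := O₀).1 ?_)).symm
            simpa [xq] using mx_sub' hP.1 ha hm.1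
          · refine (sub_eq_zero.1 (const_mem_mx (O := O₀).1 ?_)).symm
            simpa [yq] using mx_sub' hP.1 hb hm.2
        · simpa [fm, hs] using prin_one
    · obtain ⟨γ, g⟩ := mp_prin (fam h s) hO none
      change Gn (SH x y) O γ at g
      have u : IsU O (1 / γ) := hd.2 _ (g.1 1 (by simp [SH])) (g1.unit (g.mono hd.1))
      refine BlB.adj_le ?_ ?_
      · simpa [div_mul_cancel₀ _ g.ne] using u.div_mem (g.1 x (by simp [SH]))
      · simpa [div_mul_cancel₀ _ g.ne] using u.div_mem (g.1 y (by simp [SH]))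

end Pool.Agent.MP_20d318_ag.CB

end MrgPart7

-- ======== part 8: formerly Pool.Agent.MP_20d318_ag.CB.Ex2
section MrgPart8

/-! The two cubics give a smooth curve in the square of the anticanonical system. -/

set_option autoImplicit false

namespace Pool.Agent.MP_20d318_ag.CB

open Pool.Agent.MP_79c67d_ag Pool.Agent.MP_20d318_ag.AG Pool.Agent.MP_20d318_ag.BV
open Pool.Agent.MP_20d318_ag.RS (jac)

namespace Ex2

variable {k M : Type} [Field k] [Field M] [Algebra k M] {O : Subalgebra k M} {a b s u : M}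

theorem not_mx2 (hO : IsLocalRing O) (hs : Crd O s) (hu : IsU O u) : u * s ∉ mx2 O := fun h => by
  have key : ∀ f ∈ mx2 O, f ∈ mx O ∧
      ∀ D : Derivation k M M, (∀ f ∈ O, D f ∈ O) → D f ∈ mx O := by
    intro f hf
    induction hf using AddSubmonoid.closure_induction with
    | mem x hx =>
      obtain ⟨c, hc, d, hd, rfl⟩ := hx
      refine ⟨mx_mul_left hc.1 hd, fun D hD => ?_⟩
      simp only [Derivation.leibniz, smul_eq_mul]
      exact mx_add hO (mx_mul_right hc (hD d hd.1)) (mx_mul_right hd (hD c hc.1))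
    | zero => exact ⟨zero_mem_mx, fun D _ => by rw [map_zero]; exact zero_mem_mx⟩
    | add x y _ _ hx hy =>
      exact ⟨mx_add hO hx.1 hy.1, fun D hD => by rw [map_add]; exact mx_add hO (hx.2 D hD) (hy.2 D hD)⟩
  have h1 : s ∈ mx O := by
    simpa [hu.1] using mx_div (key _ h).1 hu
  obtain ⟨D, hD, hU⟩ := hs h1
  have h2 := (key _ h).2 D hD
  simp only [Derivation.leibniz, smul_eq_mul] at h2
  exact ((hu.mul hU).add_mx hO (mx_mul_right h1 (hD u hu.mem))).not_mx h2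

theorem jac_eq {d : Dat k} {x y : M} (h : Jac d x y O a b) : ∃ u, IsU O u ∧
    ∀ D₁ D₂ : Derivation k M M, jac D₁ D₂ a b = u * lb d x y cK O * jac D₁ D₂ x y := by
  obtain ⟨J, hu, hJ⟩ := h
  have e : ∀ D : Derivation k M M, D a = J 0 0 * D x + J 0 1 * D y ∧
      D b = J 1 0 * D x + J 1 1 * D y := fun D => by
    obtain ⟨h1, h2⟩ := hJ M (AlgHom.id k M)
      ((LinearMap.pi fun _ : Fin 3 => (LinearMap.id : M →ₗ[M] M)).compDer D)
    exact ⟨congrFun h1 0, congrFun h2 0⟩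
  refine ⟨_, hu, fun D₁ D₂ => ?_⟩
  rw [div_mul_cancel₀ _ fun e => hu.1 (by rw [e, div_zero]), jac, jac, (e D₁).1, (e D₁).2,
    (e D₂).1, (e D₂).2]
  ring

end Ex2

theorem ex2_stmt : Ex2Stmt := by
  intro hP k M _ _ _ _ _ d x y jc h
  obtain ⟨D₁, h1⟩ := (hP k M x y h.gen).der 0
  obtain ⟨D₂, h2⟩ := (hP k M x y h.gen).der 1
  have j1 : jac D₁ D₂ x y = 1 := by
    have a := h1 (.X 0)
    have b := h2 (.X 1)
    have c := h1 (.X 1)
    simp at a b c
    simp [jac, a, b, c]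
  have key : ∀ O ∈ TT d x y, ∃ a b u, Cht O a b ∧ IsU O u ∧ ∀ f,
      f * fg d x y 1 * jac D₁ D₂ a b ^ 2 = u * (f * lb d x y cF O) * sT d x y 1 O := by
    intro O hO
    obtain ⟨a, b, g, p, j⟩ := h.loc.chart O hO
    obtain ⟨u, hu, e⟩ := Ex2.jac_eq j
    have e2 : lb d x y cF O * lb d x y cR O = lb d x y cK O ^ 2 := by
      rw [← h.loc.lbadd O hO, ← zpow_ofNat, ← h.loc.lbsm O hO]
      congr 1
      refine Prod.ext rfl (funext fun q => ?_)
      cases q <;> rfl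
    refine ⟨a, b, u ^ 2, ⟨g, p⟩, hu.pow 2, fun f => ?_⟩
    rw [e, j1, show sT d x y 1 O = fg d x y 1 * lb d x y cR O from rfl]
    linear_combination (-(u ^ 2 * f * fg d x y 1)) * e2
  have reg : ∀ f, (∀ O ∈ TT d x y, f * lb d x y cF O ∈ O) →
      RS.BiAnti (TT d x y) D₁ D₂ (f * fg d x y 1) := fun f hf O hO c hc e he => by
    obtain ⟨a, b, u, ch, hu, eq⟩ := key O hO
    obtain ⟨J, hJ, e1⟩ := jc.jacM O a b ch c hc e he
    rw [e1, mul_pow, mul_left_comm, eq]
    exact O.mul_mem (O.pow_mem hJ 2) (O.mul_mem (O.mul_mem hu.mem (hf O hO)) (h.pen.mem O hO 1))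
  refine ⟨D₁, D₂, reg _ fun O hO => h.pen.mem O hO 0, fun O hO => ?_, reg _ fun O hO => ?_,
    fun c e => ?_⟩
  · obtain ⟨a, b, u, ch, hu, eq⟩ := key O hO
    refine ⟨a, ch.2.2.1 (Algebra.subset_adjoin (by simp)), b,
      ch.2.2.1 (Algebra.subset_adjoin (by simp)), ?_⟩
    rw [eq]
    rcases h.pen.one O hO with h0 | h0
    · exact Ex2.not_mx2 (h.loc.nice.loc O hO) (h.pen.crd O hO 1) (hu.mul h0)
    · rw [mul_right_comm]
      exact Ex2.not_mx2 (h.loc.nice.loc O hO) (h.pen.crd O hO 0) (hu.mul (IsU.of_mul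
        (h.pen.mem O hO 1) (O.pow_mem (h.loc.exm O hO none) 2) h0))
  · rw [add_mul]
    exact O.add_mem (h.pen.mem O hO 0)
      (by simpa using (h.pen.gnF O hO).1 (fg d x y 1) (by simp))
  · rw [← smul_mul_assoc, mul_left_inj' (h.pen.ne 1), Algebra.smul_def] at e
    obtain ⟨P, hp⟩ := h.pl.prW (c - 1) (-1) fun e1 => h.pen.ne 1 (by
      rw [sub_eq_zero.1 e1, map_one] at e
      linear_combination e)
    refine hp.1 ?_
    rw [map_sub, map_neg, map_one]
    linear_combination -e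

end Pool.Agent.MP_20d318_ag.CB

end MrgPart8

-- marker of a merged file
example : 731051 + 5766 = 731051 + 5766 := rfl
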