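import Pool.Agent.MP_20d318_ag.CB.XCls
import Pool.Agent.MP_20d318_ag.BV.SigX
import Pool.Agent.MP_20d318_ag.CB.P2B
import Mathlib.RingTheory.Polynomial.ScaleRoots

-- ======== part 0: formerly Pool.Agent.MP_20d318_ag.CB.Mult
section MrgPart0

/-! Degree and multiplicity of a plane curve, with the degree of the parametrization. -/

set_option autoImplicit false

namespace Pool.Agent.MP_20d318_ag.CB

open Pool.Agent.MP_79c67d_ag Pool.Agent.MP_20d318_ag.AG Pool.Agent.MP_20d318_ag.BV MvPolynomial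
open Pool.Agent.MP_20d318_ag.RS (jac)
open scoped IntermediateField

namespace Mult

variable {k L : Type} [Field k] [IsAlgClosed k] [Field L] [Algebra k L] {u v : L}
  {p : MvPolynomial (Fin 2) k}

/-- The degree of the first coordinate over the field of the second. -/
theorem core (hp : Irreducible p) (h0 : aeval ![u, v] p = 0) (hv : Transcendental k v) :
    IsIntegral k⟮v⟯ u ∧ (minpoly k⟮v⟯ u).natDegree = p.degreeOf 0 := by
  let φ : MvPolynomial (Fin 1) k →ₐ[k] k⟮v⟯ :=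
    aeval fun _ => IntermediateField.AdjoinSimple.gen k v
  have hφ : Function.Injective φ :=
    algebraicIndependent_unique_type_iff.2 (FF.isRat_adjoin hv).trans
  let ψ : MvPolynomial (Fin 2) k →ₐ[k] Polynomial k⟮v⟯ :=
    (Polynomial.mapAlgHom φ).comp (finSuccEquiv k 1).toAlgHom
  have hψ : ∀ g, ψ g = (finSuccEquiv k 1 g).map φ.toRingHom := fun g => rfl
  have e0 : ψ (X 0) = Polynomial.X := by rw [hψ, finSuccEquiv_X_zero, Polynomial.map_X]
  have e1 : ψ (X 1) = Polynomial.C (IntermediateField.AdjoinSimple.gen k v) := by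
    rw [hψ, show (1 : Fin 2) = (0 : Fin 1).succ from rfl, finSuccEquiv_X_succ, Polynomial.map_C]
    exact congrArg _ (aeval_X _ _)
  have hev : ∀ g, Polynomial.aeval u (ψ g) = aeval ![u, v] g := fun g => by
    have : ((Polynomial.aeval u).restrictScalars k).comp ψ = aeval ![u, v] := by
      refine MvPolynomial.algHom_ext (Fin.forall_fin_two.2 ⟨?_, ?_⟩)
      · rw [AlgHom.comp_apply, aeval_X, e0]
        exact Polynomial.aeval_X u
      · rw [AlgHom.comp_apply, aeval_X, e1]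
        exact Polynomial.aeval_C u _
    exact DFunLike.congr_fun this g
  have hdeg : (ψ p).natDegree = p.degreeOf 0 := by
    rw [hψ, Polynomial.natDegree_map_eq_of_injective hφ, natDegree_finSuccEquiv]
  have hne : ψ p ≠ 0 := by
    rw [hψ, Polynomial.map_ne_zero_iff hφ]
    exact (map_ne_zero_iff _ (finSuccEquiv k 1).injective).2 hp.ne_zero
  have hr0 : Polynomial.aeval u (ψ p) = 0 := (hev p).trans h0
  have hint : IsIntegral k⟮v⟯ u := IsAlgebraic.isIntegral ⟨_, hne, hr0⟩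
  have hW : ∀ q : Polynomial k, Polynomial.C (Polynomial.aeval
      (IntermediateField.AdjoinSimple.gen k v) q) ∈ ψ.range := fun q => by
    have := Polynomial.aeval_algHom_apply (Polynomial.CAlgHom : k⟮v⟯ →ₐ[k] Polynomial k⟮v⟯)
      (IntermediateField.AdjoinSimple.gen k v) q
    exact (show _ = Polynomial.C _ from this) ▸
      (Algebra.adjoin_le (S := ψ.range) (Set.singleton_subset_iff.2 ⟨_, e1⟩))
        (Polynomial.aeval_mem_adjoin_singleton k _)
  have hQ : ∀ g : Polynomial k⟮v⟯, ∃ c : k⟮v⟯, c ≠ 0 ∧ Polynomial.C c ∈ ψ.range ∧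
      Polynomial.C c * g ∈ ψ.range := fun g => by
    induction g using Polynomial.induction_on' with
    | add f g hf hg =>
      obtain ⟨c, h1, h2, h3⟩ := hf
      obtain ⟨c', h4, h5, h6⟩ := hg
      refine ⟨c * c', mul_ne_zero h1 h4, by rw [map_mul]; exact ψ.range.mul_mem h2 h5, ?_⟩
      convert ψ.range.add_mem (ψ.range.mul_mem h5 h3) (ψ.range.mul_mem h2 h6) using 1
      rw [map_mul]; ring
    | monomial n b =>
      obtain ⟨q1, q2, h1, rfl⟩ := (FF.isRat_adjoin hv).gen b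
      have h2 := (FF.isRat_adjoin hv).aeval_ne_zero h1
      refine ⟨_, h2, hW q2, ?_⟩
      rw [← Polynomial.C_mul_X_pow_eq_monomial, ← mul_assoc, ← map_mul, mul_div_cancel₀ _ h2]
      exact ψ.range.mul_mem (hW q1) (ψ.range.pow_mem ⟨_, e0⟩ n)
  obtain ⟨c, hc, -, G, hG⟩ := hQ (minpoly k⟮v⟯ u)
  have hG' : ψ G = Polynomial.C c * minpoly k⟮v⟯ u := hG
  have h1 : p ∣ G := Proj.ker hp h0 (Or.inr hv) (by rw [← hev, hG']; simp)
  have h4 : ψ p ∣ minpoly k⟮v⟯ u :=
    (IsUnit.dvd_mul_left (Polynomial.isUnit_C.2 hc.isUnit)).1 (hG' ▸ map_dvd ψ h1)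
  have h5 := Polynomial.natDegree_le_of_dvd h4 (minpoly.ne_zero hint)
  have h6 := Polynomial.natDegree_le_of_dvd (minpoly.dvd _ _ hr0) hne
  exact ⟨hint, by omega⟩

variable [CharZero k] [IsFF k L]

theorem deg0 (hp : Irreducible p) (h0 : aeval ![u, v] p = 0) (hv : Transcendental k v) :
    pdeg k v = Module.finrank k⟮u, v⟯ L * p.degreeOf 0 := by
  obtain ⟨h1, h2⟩ := core hp h0 hv
  have e : k⟮v⟯⟮u⟯.restrictScalars k = k⟮u, v⟯ := by
    rw [IntermediateField.adjoin_simple_adjoin_simple, Set.pair_comm]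
  rw [pdeg_eq hv, ← Module.finrank_mul_finrank k⟮v⟯ k⟮v⟯⟮u⟯ L,
    IntermediateField.adjoin.finrank h1, ← e, h2]
  push_cast
  rw [mul_comm]
  rfl

omit [IsAlgClosed k] [CharZero k] [IsFF k L] in
theorem aeval_swap (g : MvPolynomial (Fin 2) k) :
    aeval ![v, u] (rename (Equiv.swap (0 : Fin 2) 1) g) = aeval ![u, v] g := by
  rw [aeval_rename]
  congr 2
  funext i
  fin_cases i <;> rfl

theorem deg1 (hp : Irreducible p) (h0 : aeval ![u, v] p = 0) (hu : Transcendental k u) :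
    pdeg k u = Module.finrank k⟮u, v⟯ L * p.degreeOf 1 := by
  have h := deg0 (u := v) (v := u) (p := rename (Equiv.swap (0 : Fin 2) 1) p)
    ((MulEquiv.irreducible_iff (renameEquiv k (Equiv.swap (0 : Fin 2) 1))).2 hp)
    ((aeval_swap p).trans h0) hu
  have e := degreeOf_rename_of_injective (p := p) (Equiv.swap (0 : Fin 2) 1).injective 1
  rw [Equiv.swap_apply_right] at e
  rw [h, e, Set.pair_comm]

/-- The sum of the local multiplicities as a difference of degrees. -/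
theorem loc (hv : v ≠ 0) {e : Place k L → ℤ}
    (h1 : ∀ Q : Place k L, ¬ (Q.Ge 1 u ∧ Q.Ge 1 v) → e Q = 0)
    (h2 : ∀ Q : Place k L, Q.Ge 1 u → Q.Ge 1 v → ∀ n, n ≤ e Q ↔ Q.Ge n u ∧ Q.Ge n v) :
    ∑ᶠ Q, e Q = pdeg2 k u v - pdeg k (u / v) := by
  have f1 : (Function.support fun P : Place k L =>
      max 0 (max (-P.ord u) (-P.ord v))).Finite :=
    ((FF.finite_ord (K := k) u).union (FF.finite_ord v)).subset fun P hP => by_contra fun h => hP (by
      simp only [Set.mem_union, Function.mem_support, ne_eq, not_or, not_not] at h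
      simp only [h.1, h.2, neg_zero, max_self])
  have f2 : (Function.support fun P : Place k L => max 0 (-P.ord (u / v))).Finite :=
    (FF.finite_ord (K := k) (u / v)).subset fun P hP h => hP (by simp only at h; simp [h])
  have f3 := FF.finite_ord (K := k) v
  rw [← add_zero (pdeg2 k u v), ← FF.finsum_ord (K := k) hv, pdeg, pdeg2,
    ← finsum_add_distrib f1 f3, ← finsum_sub_distrib ((f1.union f3).subset
      (Function.support_add _ _)) f2]
  refine finsum_congr fun P => ?_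
  have a1 := h1 P
  have a2 := h2 P
  rcases eq_or_ne u 0 with rfl | hu
  · simp only [P.ge_zero, P.ge_iff hv, true_and, forall_true_left] at a1 a2
    rw [zero_div, P.ord_zero]
    by_cases h : 1 ≤ P.ord v
    · have b1 := (a2 h _).1 le_rfl
      have b2 := (a2 h _).2 le_rfl
      omega
    · have := a1 h
      omega
  · simp only [P.ge_iff hu, P.ge_iff hv] at a1 a2
    rw [P.ord_div hu hv]
    by_cases h : 1 ≤ P.ord u ∧ 1 ≤ P.ord v
    · have b1 := (a2 h.1 h.2 _).1 le_rfl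
      have b2 := (a2 h.1 h.2 _).2 ⟨min_le_left _ _, min_le_right _ _⟩
      omega
    · have := a1 h
      omega

end Mult

open Proj Mult in
theorem mult_stmt : MultStmt := by
  intro k L _ _ _ _ _ _ u v p hp h0 ht
  have key : ∀ (α β : k) (m : ℕ), IsOrd p α β m →
      (v ≠ algebraMap k L β → pdeg k ((u - algebraMap k L α) / (v - algebraMap k L β)) =
        Module.finrank k⟮u, v⟯ L * ((p.totalDegree : ℤ) - m)) ∧
      (u ≠ algebraMap k L α → pdeg k ((v - algebraMap k L β) / (u - algebraMap k L α)) =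
        Module.finrank k⟮u, v⟯ L * ((p.totalDegree : ℤ) - m)) := fun α β m ho =>
    ⟨fun h => slope hp h0 ht ho (sub_ne_zero.2 h)
      (Or.inl ⟨by rw [div_mul_cancel₀ _ (sub_ne_zero.2 h)]; ring, by ring⟩),
    fun h => slope hp h0 ht ho (sub_ne_zero.2 h)
      (Or.inr ⟨by ring, by rw [div_mul_cancel₀ _ (sub_ne_zero.2 h)]; ring⟩)⟩
  have hfin : FiniteDimensional k⟮u, v⟯ L := by
    obtain ⟨z, h1, h2⟩ : ∃ z, Transcendental k z ∧ k⟮z⟯ ≤ k⟮u, v⟯ := ht.elim
      (fun h => ⟨u, h, IntermediateField.adjoin.mono _ _ _ (by simp)⟩)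
      fun h => ⟨v, h, IntermediateField.adjoin.mono _ _ _ (by simp)⟩
    have := finDim_adjoin h1
    exact (inferInstance : FiniteDimensional (IntermediateField.extendScalars h2) L)
  have hd : pdeg2 k u v = Module.finrank k⟮u, v⟯ L * p.totalDegree := by
    obtain ⟨α, β, h1, h2, h3⟩ := exists_off hp.ne_zero u v
    have h4 := (key α β 0 (isOrd_zero.2 h1)).1 h3
    have h5 := sub_ne_zero.2 h2
    have h6 := sub_ne_zero.2 h3
    rw [Nat.cast_zero, sub_zero] at h4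
    rw [← h4, ← sub_zero (pdeg k _), ← FF.finsum_ord (K := k) h6, pdeg, pdeg2, ← finsum_sub_distrib
      ((FF.finite_ord (K := k) ((u - algebraMap k L α) / (v - algebraMap k L β))).subset
        fun P hP h => hP (by simp only at h; simp [h]))
      (FF.finite_ord _)]
    refine finsum_congr fun P => ?_
    have h7 := pole_sub P u α
    have h8 := pole_sub P v β
    have h9 : ¬ (0 < P.ord (u - algebraMap k L α) ∧ 0 < P.ord (v - algebraMap k L β)) :=
      fun h => by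
        have := aeval_sub_const (plO_isVal P).isLocalRing (r := ![u, v]) (c := ![α, β])
          (Fin.forall_fin_two.2 ⟨(mx_plO h5).2 h.1, (mx_plO h6).2 h.2⟩) p
        rw [h0, zero_sub, ← map_neg, const_mem_mx, neg_eq_zero] at this
        exact h1 this
    rw [P.ord_div h5 h6]
    omega
  refine ⟨Module.finrank_pos, hd, deg1 hp h0, deg0 hp h0, fun m ho e h1 h2 => ?_⟩
  obtain ⟨k1, k2⟩ := key 0 0 m ho
  simp only [map_zero, sub_zero] at k1 k2
  by_cases hv : v = 0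
  · have hu : u ≠ 0 := fun hu => by
      rw [hu, hv, or_self] at ht
      exact ht isAlgebraic_zero
    have hc : pdeg2 k v u = pdeg2 k u v := finsum_congr fun P => by rw [max_comm (-P.ord v)]
    rw [loc hu (fun Q h => h1 Q (mt And.symm h))
      (fun Q a b n => (h2 Q b a n).trans and_comm), hc, hd, k2 hu]
    ring
  · rw [loc hv h1 h2, hd, k1 hv]
    ring

end Pool.Agent.MP_20d318_ag.CB

end MrgPart0

-- ======== part 1: formerly Pool.Agent.MP_20d318_ag.CB.BlA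
section MrgPart1

/-! The blow-up of a point as the closure of a graph. -/

set_option autoImplicit false

namespace Pool.Agent.MP_20d318_ag.CB

open Pool.Agent.MP_79c67d_ag Pool.Agent.MP_20d318_ag.AG Pool.Agent.MP_20d318_ag.BV MvPolynomial

namespace BlA

variable {k M : Type} [Field k] [Field M] [Algebra k M] {O O₀ R W : Subalgebra k M}
  {G H N A B : Set M} {j γ δ a b g : M}

theorem key (p : M → Prop) (h0 : p 0) (ha : ∀ u v, p u → p v → p (u + v))
    (hm : ∀ c ∈ Algebra.adjoin k G, ∀ u, p u → p (c * u))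
    (hG : ∀ g ∈ G, ∃ c : k, p (g - algebraMap k M c)) :
    ∀ r ∈ Algebra.adjoin k G, ∃ c : k, p (r - algebraMap k M c) := by
  intro r hr
  induction hr using Algebra.adjoin_induction with
  | mem g hg => exact hG g hg
  | algebraMap c => exact ⟨c, by rwa [sub_self]⟩
  | add r s _ _ hr hs =>
    obtain ⟨c, hc⟩ := hr
    obtain ⟨d, hd⟩ := hs
    exact ⟨c + d, by convert ha _ _ hc hd using 1; rw [map_add]; ring⟩
  | mul r s hr' _ hr hs =>
    obtain ⟨c, hc⟩ := hr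
    obtain ⟨d, hd⟩ := hs
    exact ⟨c * d, by
      convert ha _ _ (hm r hr' _ hd) (hm _ (Subalgebra.algebraMap_mem _ d) _ hc) using 1
      rw [map_mul]; ring⟩

/-- The maximal ideal of a rational point is generated by the centered coordinates. -/
theorem span_mx (hO : O ∈ Pts (Algebra.adjoin k G)) (p : M → Prop) (h0 : p 0)
    (ha : ∀ u v, p u → p v → p (u + v)) (hm : ∀ c ∈ O, ∀ u, p u → p (c * u))
    (hG : ∀ g ∈ G, ∃ c : k, g - algebraMap k M c ∈ mx O ∧ p (g - algebraMap k M c)) :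
    ∀ u ∈ mx O, p u := fun u hu => by
  obtain ⟨r, hr, d, -, hd, rfl⟩ := hO.2.2 u hu.1
  obtain ⟨c, h1, h2⟩ := key (fun u => u ∈ mx O ∧ p u) ⟨zero_mem_mx, h0⟩
    (fun u v hu hv => ⟨mx_add hO.1 hu.1 hv.1, ha u v hu.2 hv.2⟩)
    (fun c hc u hu => ⟨mx_mul_left (hO.2.1 hc) hu.1, hm c (hO.2.1 hc) u hu.2⟩) hG r hr
  have h3 := mx_sub' hO.1 (mx_mul_right hu hd.mem) h1
  rw [div_mul_cancel₀ _ hd.1, sub_sub_cancel, const_mem_mx] at h3
  rw [h3, map_zero, sub_zero] at h2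
  rw [div_eq_inv_mul]
  exact hm _ hd.inv_mem r h2

theorem gn_mul (h : Gn A O γ) (h' : Gn B O δ) : Gn (Set.image2 (· * ·) A B) O (γ * δ) := by
  obtain ⟨s, hs, u⟩ := h.2
  obtain ⟨t, ht, v⟩ := h'.2
  refine ⟨?_, _, ⟨s, hs, t, ht, rfl⟩, by rw [mul_div_mul_comm]; exact u.mul v⟩
  rintro _ ⟨s, hs, t, ht, rfl⟩
  rw [mul_div_mul_comm]
  exact O.mul_mem (h.1 s hs) (h'.1 t ht)

theorem prin_mul (h : Prin (Set.image2 (· * ·) A B) O) :
    (∃ s ∈ A, Gn A O s) ∧ ∃ t ∈ B, Gn B O t := by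
  obtain ⟨_, ⟨s, hs, t, ht, rfl⟩, h⟩ := h.exists_mem
  have h1 := left_ne_zero_of_mul h.ne
  have h2 := right_ne_zero_of_mul h.ne
  refine ⟨⟨s, hs, gn_of_mem hs h1 fun s' hs' => ?_⟩, t, ht, gn_of_mem ht h2 fun t' ht' => ?_⟩
  · simpa only [mul_div_mul_right _ _ h2] using h.1 _ ⟨s', hs', t, ht, rfl⟩
  · simpa only [mul_div_mul_left _ _ h1] using h.1 _ ⟨s, hs, t', ht', rfl⟩

/-- The linear forms that vanish at the point. -/
structure St (H : Set M) (O₀ : Subalgebra k M) (j : M) (N : Set M) : Prop where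
  fam : Fam k fun _ : Unit => H
  mem : O₀ ∈ mp k fun _ : Unit => H
  jH : j ∈ H
  gj : Gn H O₀ j
  fin : N.Finite
  ne : N.Nonempty
  nz : ∀ t ∈ N, t ≠ 0
  mN : ∀ t ∈ N, t / j ∈ mx O₀
  n1 : ∀ t ∈ N, ∃ s ∈ H, ∃ c : k, t = s - algebraMap k M c * j
  n2 : ∀ s ∈ H, ∃ c : k, s - algebraMap k M c * j ∈ N ∨ s - algebraMap k M c * j = 0

theorem sub_div' (h : j ≠ 0) (s c : M) : s / j - c = (s - c * j) / j := by field_simp

theorem pts_of (hF : Fam k fun _ : Unit => H) (hO : O ∈ mp k fun _ : Unit => H) (hj : j ∈ H)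
    (h : Gn H O j) : O ∈ Pts (Algebra.adjoin k ((fun s => s / j) '' H)) := by
  have := mp_pts (j := fun _ => j) hF hO (fun _ => hj) (cht_le.2 fun _ => h.1)
  rwa [cht, Set.iUnion_const] at this

theorem gen_of (h : St H O₀ j N) (p : M → Prop) (h0 : p 0) (hN : ∀ t ∈ N, p (t / j)) :
    ∀ g ∈ (fun s => s / j) '' H, ∃ c : k, g - algebraMap k M c ∈ mx O₀ ∧
      p (g - algebraMap k M c) := by
  rintro _ ⟨s, hs, rfl⟩
  obtain ⟨c, hc⟩ := h.n2 s hs
  refine ⟨c, ?_⟩
  rw [sub_div' h.gj.ne]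
  rcases hc with hc | hc
  · exact ⟨h.mN _ hc, hN _ hc⟩
  · rw [hc, zero_div]; exact ⟨zero_mem_mx, h0⟩

theorem exists_st (hF : Fam k fun _ : Unit => H) (hO : O₀ ∈ mp k fun _ : Unit => H) (hr : RatPt O₀)
    (ha : a ∈ mx O₀) (h0 : a ≠ 0) : ∃ j N, St H O₀ j N := by
  obtain ⟨j, hj, gj⟩ := (mp_prin hF hO ()).exists_mem
  choose! c hc using fun s hs => hr _ (gj.1 s hs)
  refine ⟨j, (fun s => s - algebraMap k M (c s) * j) '' H \ {0}, hF, hO, hj, gj,
    ((hF.fin ()).image _).sdiff, by_contra fun hn => h0 ?_, fun t ht => ht.2, ?_, ?_,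
    fun s hs => ⟨c s, (em _).symm.imp_left fun h => ⟨⟨s, hs, rfl⟩, h⟩⟩⟩
  · refine span_mx (pts_of hF hO hj gj) (· = 0) rfl (fun u v hu hv => by rw [hu, hv, add_zero])
      (fun c _ u hu => by rw [hu, mul_zero]) ?_ a ha
    rintro _ ⟨s, hs, rfl⟩
    refine ⟨c s, hc s hs, ?_⟩
    rw [sub_div' gj.ne, div_eq_zero_iff]
    exact Or.inl (by_contra fun h => hn ⟨_, ⟨s, hs, rfl⟩, h⟩)
  · rintro _ ⟨⟨s, hs, rfl⟩, -⟩
    rw [← sub_div' gj.ne]
    exact hc s hs
  · rintro _ ⟨⟨s, hs, rfl⟩, -⟩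
    exact ⟨s, hs, c s, rfl⟩

theorem St.fam' (h : St H O₀ j N) : Fam k fun _ : Unit => Set.image2 (· * ·) H N := by
  obtain ⟨t, ht⟩ := h.ne
  refine ⟨fun _ => (h.fam.fin ()).image2 _ h.fin, fun _ => ⟨_, j, h.jH, t, ht, rfl⟩, ?_,
    top_unique (h.fam.top.ge.trans (IntermediateField.adjoin.mono _ _ _ ?_))⟩
  · rintro _ _ ⟨s, hs, t, ht, rfl⟩
    exact mul_ne_zero (h.fam.nz () s hs) (h.nz t ht)
  · rintro _ ⟨l, s, hs, s', hs', rfl⟩
    exact ⟨l, _, ⟨s, hs, t, ht, rfl⟩, _, ⟨s', hs', t, ht, rfl⟩,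
      (mul_div_mul_right _ _ (h.nz t ht)).symm⟩

theorem St.div_mem (h : St H O₀ j N) (hle : O₀ ≤ W) (hN : ∀ t ∈ N, t / γ ∈ W) :
    ∀ u ∈ mx O₀, u / (γ / j) ∈ W :=
  span_mx (pts_of h.fam h.mem h.jH h.gj) (fun u => u / (γ / j) ∈ W) (by simp)
    (fun u v hu hv => by rw [add_div]; exact W.add_mem hu hv)
    (fun c hc u hu => by rw [mul_div_assoc]; exact W.mul_mem (hle hc) hu)
    (gen_of h (fun u => u / (γ / j) ∈ W) (by simp) fun t ht => by
      rw [div_div_div_cancel_right₀ h.gj.ne]; exact hN t ht)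

theorem St.pair (h : St H O₀ j N) (hP : O₀ ∈ Pts (Algebra.adjoin k {a, b})) (ha : a ∈ mx O₀)
    (hb : b ∈ mx O₀) (hW : IsLocalRing W) (hle : O₀ ≤ W) (hN : Gn N W γ) :
    Gn {a, b} W (γ / j) := by
  have h1 : ∀ u ∈ ({a, b} : Set M), u ∈ mx O₀ := by rintro _ (rfl | rfl) <;> assumption
  have h2 := h.div_mem hle hN.1
  refine ⟨fun u hu => h2 u (h1 u hu), by_contra fun hn => ?_⟩
  obtain ⟨t, ht, hu⟩ := hN.2
  have := span_mx hP (fun u => u / (γ / j) ∈ mx W) (by simpa using zero_mem_mx)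
    (fun u v hu hv => by rw [add_div]; exact mx_add hW hu hv)
    (fun c hc u hu => by rw [mul_div_assoc]; exact mx_mul_left (hle hc) hu)
    (fun u hu => ⟨0, by
      rw [map_zero, sub_zero]; exact ⟨h1 u hu, h2 u (h1 u hu), fun h' => hn ⟨u, hu, h'⟩⟩⟩)
    _ (h.mN t ht)
  rw [div_div_div_cancel_right₀ h.gj.ne] at this
  exact hu.not_mx this

theorem St.gn_bl (h : St H O₀ j N) (hW : IsLocalRing W) (hle : O₀ ≤ W) (hg : g ∈ mx O₀)
    (h0 : g ≠ 0) (hm : ∀ u ∈ mx O₀, u / g ∈ W) : Gn N W (j * g) := by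
  have h1 : ∀ t ∈ N, t / (j * g) ∈ W := fun t ht => by rw [← div_div]; exact hm _ (h.mN t ht)
  refine ⟨h1, by_contra fun hn => ?_⟩
  have := span_mx (pts_of h.fam h.mem h.jH h.gj) (fun u => u / g ∈ mx W)
    (by simpa using zero_mem_mx) (fun u v hu hv => by rw [add_div]; exact mx_add hW hu hv)
    (fun c hc u hu => by rw [mul_div_assoc]; exact mx_mul_left (hle hc) hu)
    (gen_of h (fun u => u / g ∈ mx W) (by simpa using zero_mem_mx) fun t ht => by
      rw [div_div]; exact ⟨h1 t ht, fun h' => hn ⟨t, ht, h'⟩⟩) g hg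
  rw [div_self h0] at this
  exact one_not_mem_mx this

theorem St.gn_off (h : St H O₀ j N) (hR : R ∈ mp k fun _ : Unit => H) (hne : R ≠ O₀)
    (hγ : Gn H R γ) : Gn N R γ := by
  have hl := mp_loc hR
  have h1 : ∀ t ∈ N, t / γ ∈ R := fun t ht => by
    obtain ⟨s, hs, c, rfl⟩ := h.n1 t ht
    rw [sub_div, mul_div_assoc]
    exact R.sub_mem (hγ.1 s hs) (R.mul_mem (R.algebraMap_mem c) (hγ.1 j h.jH))
  refine ⟨h1, by_contra fun hn => hne ?_⟩
  have h2 : ∀ t ∈ N, t / γ ∈ mx R := fun t ht => ⟨h1 t ht, fun h' => hn ⟨t, ht, h'⟩⟩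
  have h3 : IsU R (j / γ) := isU_of_not_mx (hγ.1 j h.jH) fun hm => by
    obtain ⟨s, hs, hu⟩ := hγ.2
    obtain ⟨c, hc⟩ := h.n2 s hs
    have h4 : (s - algebraMap k M c * j) / γ ∈ mx R :=
      hc.elim (h2 _) fun e => by rw [e, zero_div]; exact zero_mem_mx
    refine hu.not_mx ?_
    convert mx_add hl h4 (mx_mul_left (R.algebraMap_mem c) hm) using 1
    ring
  have p1 := pts_of h.fam hR h.jH (hγ.of_unit h3)
  have p2 := pts_of h.fam h.mem h.jH h.gj
  refine Pts_ext p1 p2 fun r hr => ?_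
  obtain ⟨c, h4, h5⟩ := key (fun u => u ∈ mx O₀ ∧ u ∈ mx R) ⟨zero_mem_mx, zero_mem_mx⟩
    (fun u v hu hv => ⟨mx_add p2.1 hu.1 hv.1, mx_add hl hu.2 hv.2⟩)
    (fun c hc u hu => ⟨mx_mul_left (p2.2.1 hc) hu.1, mx_mul_left (p1.2.1 hc) hu.2⟩)
    (gen_of h (· ∈ mx R) zero_mem_mx fun t ht => by
      simpa only [div_div_div_cancel_right₀ hγ.ne] using mx_div (h2 t ht) h3) r hr
  have e : ∀ W : Subalgebra k M, IsLocalRing W → r - algebraMap k M c ∈ mx W →
      (r ∈ mx W ↔ c = 0) := fun W hW h6 =>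
    ⟨fun h7 => const_mem_mx.1 (by simpa using mx_sub' hW h7 h6), fun h7 => by simpa [h7] using h6⟩
  rw [e R hl h5, e O₀ p2.1 h4]

theorem St.off (h : St H O₀ j N) (hR : R ∈ mp k fun _ : Unit => H) (hne : R ≠ O₀) :
    R ∈ mp k fun _ : Unit => Set.image2 (· * ·) H N := by
  obtain ⟨i, hi, hP⟩ := id hR
  obtain ⟨γ, hγ⟩ := mp_prin h.fam hR ()
  refine mp_local hP (fun _ => (gn_mul hγ (h.gn_off hR hne hγ)).prin) fun O hO hd => ?_
  obtain ⟨s, hs, g⟩ := (prin_mul (mp_prin h.fam' hO ())).1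
  exact B1.cht_le_of (i := fun _ => s) h.fam (fun _ => hs) hi (cht_le.2 fun _ => g.1) hP.2.1 hd

theorem St.below (h : St H O₀ j N) (hO : O ∈ mp k fun _ : Unit => Set.image2 (· * ·) H N) :
    ∃ R ∈ mp k fun _ : Unit => H, Dom R O :=
  exists_mp_dom (mp_loc hO) fun _ => (prin_mul (mp_prin h.fam' hO ())).1.elim fun _ g => g.2.prin

theorem St.cases (h : St H O₀ j N) (hO : O ∈ mp k fun _ : Unit => Set.image2 (· * ·) H N) :
    (O ∈ mp k (fun _ : Unit => H) ∧ O ≠ O₀) ∨ Dom O₀ O := by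
  obtain ⟨R, hR, hd⟩ := h.below hO
  by_cases e : R = O₀
  · exact Or.inr (e ▸ hd)
  · obtain rfl := (fine_mp h.fam').sep R (h.off hR e) O hO O (mp_loc hO) hd (Dom.refl O)
    exact Or.inl ⟨hR, e⟩

theorem St.sub (h : St H O₀ j N) (hO : O ∈ mp k fun _ : Unit => Set.image2 (· * ·) H N)
    (hd : O₀ ≤ O) : ∃ g ∈ mx O₀ \ {0},
      O ∈ Pts (Algebra.adjoin k ((O₀ : Set M) ∪ (fun u => u / g) '' mx O₀)) := by
  obtain ⟨t, ht, g⟩ := (prin_mul (mp_prin h.fam' hO ())).2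
  refine ⟨t / j, ⟨h.mN t ht, div_ne_zero g.ne h.gj.ne⟩, mp_chart h.fam' hO
    (Algebra.adjoin_le (Set.union_subset hd ?_)) fun _ => ⟨_, ⟨j, h.jH, t, ht, rfl⟩, ?_⟩⟩
  · rintro _ ⟨u, hu, rfl⟩
    exact h.div_mem hd g.1 u hu
  · rintro _ ⟨s, hs, t', ht', rfl⟩
    rw [mul_div_mul_comm, ← div_div_div_cancel_right₀ h.gj.ne t' t]
    exact le_fr (mul_mem (Algebra.subset_adjoin (Or.inl (h.gj.1 s hs)))
      (Algebra.subset_adjoin (Or.inr ⟨_, h.mN t' ht', rfl⟩)))

theorem St.sup (h : St H O₀ j N) (hg : g ∈ mx O₀) (h0 : g ≠ 0)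
    (hO : O ∈ Pts (Algebra.adjoin k ((O₀ : Set M) ∪ (fun u => u / g) '' mx O₀))) :
    O ∈ mp k fun _ : Unit => Set.image2 (· * ·) H N := by
  have hT := fine_mp h.fam
  have hle : O₀ ≤ O := fun u hu => hO.2.1 (Algebra.subset_adjoin (Or.inl hu))
  have hm : ∀ u ∈ mx O₀, u / g ∈ O := fun u hu =>
    hO.2.1 (Algebra.subset_adjoin (Or.inr ⟨u, hu, rfl⟩))
  by_cases hd : Dom O₀ O
  · have h1 := h.gn_bl hO.1 hle hg h0 hm
    refine mp_local hO (fun _ => (gn_mul (h.gj.mono hle) h1).prin) fun O' hO' hd' => ?_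
    obtain ⟨R, hR, h2⟩ := h.below hO'
    obtain rfl := hT.sep R hR O₀ h.mem O hO.1 (h2.trans hd') hd
    obtain ⟨t, -, h3⟩ := (prin_mul (mp_prin h.fam' hO' ())).2
    have h4 := h.div_mem h2.1 h3.1
    have h5 : IsU O' (g / (t / j)) := hd'.2 _ (h4 g hg) (by
      rw [div_div_eq_mul_div, mul_comm]; exact h1.unit (h3.mono hd'.1))
    refine Algebra.adjoin_le (Set.union_subset h2.1 ?_)
    rintro _ ⟨u, hu, rfl⟩
    have h6 := h5.div_mem (h4 u hu)
    rwa [div_div_div_cancel_right₀ (div_ne_zero h3.ne h.gj.ne)] at h6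
  · have h1 : IsU O g := by_contra fun hn => hd ⟨hle, fun u hu h' => by_contra fun h2 =>
      hn (IsU.of_mul (hle hg.1) (hm u ⟨hu, h2⟩) (by rwa [mul_div_cancel₀ _ h0]))⟩
    refine h.off (hT.toGood.pts h.mem (Pts_of_fr hO hle ?_)) fun e => hd (e ▸ Dom.refl O)
    rintro _ (hu | ⟨u, hu, rfl⟩)
    · exact le_fr hu
    · exact ⟨u, hu.1, g, hg.1, h1, rfl⟩

end BlA

open BlA in
theorem blA_stmt : BlAStmt := by
  intro k M I _ _ _ _ _ _ S O₀ a b C
  obtain ⟨j, N, h⟩ := exists_st C.s.fam C.mem C.rat C.ma (by simpa using C.cht.1.x_ne 0)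
  have hT : Good S.T := (fine_mp h.fam).toGood
  have gH : ∀ O ∈ mp k fun _ : Unit => Set.image2 (· * ·) S.H N, Gn S.H O (gn S.H O) :=
    fun O hO => (prin_mul (mp_prin h.fam' hO ())).1.elim fun _ g => gn_spec g.2.prin
  have gN : ∀ O ∈ mp k fun _ : Unit => Set.image2 (· * ·) S.H N, Gn N O (gn N O) :=
    fun O hO => (prin_mul (mp_prin h.fam' hO ())).2.elim fun _ g => gn_spec g.2.prin
  refine ⟨Set.image2 (· * ·) S.H N, fun O => gn N O / gn S.H O, C, ?_, h.fam',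
    fun O hO => h.cases hO, fun O hO hne => ⟨h.off hO hne, pr_eq hT (mp_loc hO) hO (Dom.refl O),
      (gN O (h.off hO hne)).unit (h.gn_off hO hne (gH O (h.off hO hne)))⟩,
    fun O hO hd => ⟨pr_eq hT (mp_loc hO) C.mem hd, ?_⟩,
    (isCart_of_gn h.fin gN).div (isCart_of_gn (h.fam.fin ()) gH), fun O hO => ?_⟩
  · refine Set.ext fun O => ⟨fun hO => (h.cases hO).imp id fun hd => ?_, fun hO => ?_⟩
    · obtain ⟨g, hg, h1⟩ := h.sub hO hd.1
      exact Set.mem_iUnion₂.2 ⟨g, hg, h1⟩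
    · rcases hO with hO | hO
      · exact h.off hO.1 hO.2
      · obtain ⟨g, hg, h1⟩ := Set.mem_iUnion₂.1 hO
        exact h.sup hg.1 hg.2 h1
  · refine (h.pair C.cht.2 C.ma C.mb (mp_loc hO) hd.1 (gN O hO)).of_unit ?_
    rw [div_div_div_cancel_left' _ _ (gN O hO).ne]
    exact (h.gj.mono hd.1).unit (gH O hO)
  · obtain ⟨h1, h2⟩ := pr_spec (ι := AlgHom.id k M) (h.below hO)
    have h3 : Gn S.H O (S.lb S.h (S.bt O))⁻¹ := (C.s.gH _ h1).mono h2.1
    refine (gn_mul h3 (gN O hO)).of_unit ?_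
    have e : ((S.blow (Set.image2 (· * ·) S.H N) fun O => gn N O / gn S.H O).lb
        (pb ((2 : ℤ) • S.h) (-1)) O)⁻¹ / ((S.lb S.h (S.bt O))⁻¹ * gn N O) =
        (S.lb S.h (S.bt O))⁻¹ / gn S.H O := by
      have n1 := (gN O hO).ne
      have n2 := (gH O hO).ne
      have n3 := inv_ne_zero h3.ne
      rw [inv_inv] at n3
      rw [lb_pb, Sd.lb_zsmul, zpow_neg_one, zpow_two]
      field_simp
    exact e ▸ h3.unit (gH O hO)

end Pool.Agent.MP_20d318_ag.CB

end MrgPart1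

-- ======== part 2: formerly Pool.Agent.MP_20d318_ag.CB.BlP
section MrgPart2

/-! The prime divisors of the blow-up of a point. -/

set_option autoImplicit false

namespace Pool.Agent.MP_20d318_ag.CB

open Pool.Agent.MP_79c67d_ag Pool.Agent.MP_20d318_ag.AG Pool.Agent.MP_20d318_ag.BV MvPolynomial

namespace BlP

variable {k M I : Type} [Field k] [Field M] [Algebra k M] [Fintype I] {S : Sd k M I}
  {O₀ : Subalgebra k M} {a b : M} {H' : Set M} {e : Subalgebra k M → M} {E : Place k M}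

theorem unit_of {t : M} (hE : PlOf t b (X 1 : MvPolynomial (Fin 2) k) E)
    {q : MvPolynomial (Fin 2) k} (hq : aeval ![(Polynomial.X : Polynomial k), 0] q ≠ 0) :
    IsU (plO E) (aeval ![t, b] q) := by
  refine isU_of_not_mx (hE.pts.2.1 (mem_adjoin_pair.2 ⟨q, rfl⟩)) fun h => hq ?_
  obtain ⟨r, rfl⟩ := (hE.mem q).1 h
  simp

theorem ind_of {t : M} (hE : PlOf t b (X 1 : MvPolynomial (Fin 2) k) E) : Ind (plO E) ![t] := by
  refine ⟨fun i => ?_, fun p hp => ?_⟩
  · fin_cases i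
    exact hE.pts.2.1 (Algebra.subset_adjoin (by simp))
  · have e1 : aeval ![t] p = aeval ![t, b] (rename (fun _ => (0 : Fin 2)) p) := by
      rw [aeval_rename]; congr 2; funext i; fin_cases i; rfl
    rw [e1]
    refine unit_of hE fun h => hp ?_
    have h2 := congrArg (Polynomial.aeval (X 0 : MvPolynomial (Fin 1) k)) h
    rw [aeval_rename, map_zero, comp_aeval_apply] at h2
    rw [← h2]
    conv_lhs => rw [← aeval_X_left_apply p]
    congr 2; funext i; fin_cases i; simp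

theorem ord_of (hE : PlOf (a / b) b (X 1 : MvPolynomial (Fin 2) k) E)
    (p : MvPolynomial (Fin 2) k) (m : ℕ) (hp : IsOrd p 0 0 m) : E.ord (aeval ![a, b] p) = m := by
  classical
  have hb : E.ord b = 1 := by simpa using hE.ord
  have b0 : b ≠ 0 := by rintro rfl; simp at hb
  have key : ∀ j, tay p 0 0 j ≠ 0 → aeval ![a, b] (tay p 0 0 j) ≠ 0 ∧
      E.ord (aeval ![a, b] (tay p 0 0 j)) = j := by
    intro j hj
    have e1 : (![a, b] : Fin 2 → M) = b • ![a / b, 1] := by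
      funext i; fin_cases i
      · simp [mul_div_cancel₀ _ b0]
      · simp
    have e2 : aeval ![a / b, 1] (tay p 0 0 j) =
        aeval ![a / b, b] (aeval ![(X 0 : MvPolynomial (Fin 2) k), 1] (tay p 0 0 j)) := by
      rw [comp_aeval_apply]; congr 2; funext i; fin_cases i <;> simp
    have hu : IsU (plO E) (aeval ![a / b, 1] (tay p 0 0 j)) := by
      rw [e2]
      refine unit_of hE ?_
      rw [comp_aeval_apply]
      have := (dehom_ne (tay_hom p 0 0 j) hj).1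
      refine fun h => this (Eq.trans ?_ h)
      congr 2; funext i; fin_cases i <;> simp
    rw [e1, aeval_smul (tay_hom p 0 0 j)]
    refine ⟨mul_ne_zero (pow_ne_zero _ b0) hu.ne, ?_⟩
    rw [E.ord_mul (pow_ne_zero _ b0) hu.ne, E.ord_pow, hb, ((isU_plO' E).1 hu).2]
    simp
  have hm : m ∈ Finset.range (p.totalDegree + 1) :=
    Finset.mem_range.2 (Nat.lt_succ_of_le (not_lt.1 fun h => hp.2 (tay_of_lt h)))
  rw [aeval_tay p 0 0, map_zero, sub_zero, sub_zero, ← Finset.add_sum_erase _ _ hm]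
  obtain ⟨h1, h2⟩ := key m hp.2
  rw [(Place.add_ne_and_ord h1 ?_).2, h2]
  refine Place.ge_sum fun j hj => ?_
  by_cases h0 : tay p 0 0 j = 0
  · rw [h0, map_zero]; exact E.ge_zero _
  · have h3 : ¬ j < m := fun h => h0 (hp.1 j h)
    have h4 := Finset.ne_of_mem_erase hj
    exact E.ge_of_le (by rw [h2, (key j h0).2]; omega)

theorem pts (h : Ctr S O₀ a b) {O : Subalgebra k M} (hO : O ∈ S.T) (hle : O₀ ≤ O) :
    O ∈ Pts (Algebra.adjoin k {a, b}) := by
  have hG := h.a1.nice.toFine.toGood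
  obtain ⟨O', h1, h2⟩ := exists_ctr (hG.loc O hO) hle
  obtain rfl := hG.sep O' (hG.pts h.mem h1) O hO O (hG.loc O hO) h2 (Dom.refl O)
  exact Pts_trans h.cht.2 h1

theorem mult (h : Ctr S O₀ a b) (h0 : Plane (k := k) a b) (hd : O₀ ≤ plO E)
    (ho : ∀ (p : MvPolynomial (Fin 2) k) (m : ℕ), IsOrd p 0 0 m → E.ord (aeval ![a, b] p) = m)
    (c : I → ℤ) (φ : M) (P : Place k M) (hp : S.Prm c φ P) :
    (¬ O₀ ≤ plO P ∧ IsU O₀ (φ * S.lb c O₀) ∧ E.ord (φ * S.lb c O₀) = 0) ∨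
      ∃ (q : MvPolynomial (Fin 2) k) (m : ℕ), O₀ ≤ plO P ∧ PlOf a b q P ∧ IsOrd q 0 0 m ∧
        IsU O₀ (φ * S.lb c O₀ / aeval ![a, b] q) ∧ E.ord (φ * S.lb c O₀) = m := by
  classical
  by_cases hle : O₀ ≤ plO P
  · obtain ⟨q, hq⟩ := h0.plof P (pts h hp.2.1 hle)
    obtain ⟨m, -, hm⟩ := exists_isOrd hq.irr.ne_zero 0 0
    have hc := h.a1.pcart c φ hp.1
    have q0 : aeval ![a, b] q ≠ 0 := h.cht.1.aeval_ne hq.irr.ne_zero
    have s0 : φ * S.lb c O₀ ≠ 0 := hc.ne h.mem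
    have key : ∀ P' : Place k M, plO P' ∈ S.T → O₀ ≤ plO P' →
        P'.ord (φ * S.lb c O₀ / aeval ![a, b] q) = 0 := by
      intro P' h1 h2
      rw [P'.ord_div s0 q0, B2.ord_eq hc h.mem h1 h2, hp.2.2 P' h1]
      split_ifs with h3
      · rw [h3, hq.ord, sub_self]
      · obtain ⟨q', hq'⟩ := h0.plof P' (pts h h1 h2)
        have : IsU (plO P') (aeval ![a, b] q) :=
          isU_of_not_mx (hq'.pts.2.1 (mem_adjoin_pair.2 ⟨q, rfl⟩)) fun h4 =>
            h3 (h0.uniq q' q P' P hq' hq ((hq'.mem q).1 h4))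
        rw [((isU_plO' P').1 this).2, sub_self]
    have hu : IsU O₀ (φ * S.lb c O₀ / aeval ![a, b] q) :=
      ⟨div_ne_zero s0 q0, h.a1.nice.krull h.mem fun P' h1 h2 => mem_plO_ord.2 (key P' h1 h2).ge,
        h.a1.nice.krull h.mem fun P' h1 h2 => mem_plO_ord.2 (by
          rw [P'.ord_inv, key P' h1 h2, neg_zero])⟩
    refine Or.inr ⟨q, m, hle, hq, hm, hu, ?_⟩
    have := ((isU_plO' E).1 (hu.mono hd)).2
    rw [E.ord_div s0 q0, ho q m hm] at this
    omega
  · have hu : IsU O₀ (φ * S.lb c O₀) := isU_of_not_mx (h.a1.pmem c φ P hp O₀ h.mem) fun h1 =>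
      hle ((h.a1.pmx c φ P hp O₀ h.mem).1 h1)
    exact Or.inl ⟨hle, hu, ((isU_plO' E).1 (hu.mono hd)).2⟩

theorem off (h : Bl0 S O₀ a b H' e) {P : Place k M} (hP : plO P ∈ S.T) :
    plO P ∈ (S.blow H' e).T ∧ ∀ c m φ, φ ≠ 0 →
      P.ord (φ * (S.blow H' e).lb (pb c m) (plO P)) = P.ord (φ * S.lb c (plO P)) := by
  obtain ⟨h1, h2, h3⟩ := h.off _ hP fun e => (h.a1.dim P hP).1 (e ▸ h.rat)
  refine ⟨h1, fun c m φ h0 => ?_⟩
  rw [lb_pb, h2, ← mul_assoc, P.ord_mul ((h.a1.pcart c φ h0).ne hP) (h3.zpow m).ne,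
    ((isU_plO' P).1 (h3.zpow m)).2, add_zero]

end BlP

open BlP in
/-- BLP. -/
theorem blP_stmt : BlPStmt := by
  classical
  intro hPl k M I _ _ _ _ _ _ S O₀ a b H' e h
  have p1 := hPl k M _ _ h.g1
  have p2 := hPl k M _ _ h.g2
  obtain ⟨E, hE⟩ := p1.ex (X 1) X_prime.irreducible
  have hb : E.ord b = 1 := by simpa using hE.ord
  have b0 : b ≠ 0 := by rintro rfl; simp at hb
  obtain ⟨mE, dE⟩ := h.in1 (plO E) ⟨h.g1, hE.pts⟩ ((mx_plO b0).2 (by omega))
  have hN := h.a1.nice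
  have uE : ∀ P : Place k M, plO P ∈ (S.blow H' e).T → Dom O₀ (plO P) → P = E := by
    intro P hP hd
    by_cases h1 : a / b ∈ plO P
    · obtain ⟨q, hq⟩ := p1.plof P (h.c1 _ hP hd h1).1.2
      exact p1.uniq q (X 1) P E hq hE ((hq.mem _).1 (by simpa using hd.mx h.mb))
    · have h2 := (plO_isVal P).inv_mx h1
      rw [inv_div] at h2
      have h3 := (h.c2 _ hP hd h2.1).1.2
      refine absurd (ratPt_of h3 rfl ?_) (p2.dim P h3).1
      rintro _ (rfl | rfl)
      · exact ⟨0, by simpa using h2⟩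
      · exact ⟨0, by simpa using hd.mx h.ma⟩
  have nE : plO E ∉ S.T := fun h1 => h.ne (by
    rw [hN.sep O₀ h.mem _ h1 _ (plO_isVal E).isLocalRing dE (Dom.refl _)]; exact mE)
  have pl : ∀ P : Place k M, plO P ∈ (S.blow H' e).T ↔ P = E ∨ plO P ∈ S.T := fun P =>
    ⟨fun hP => (h.cases _ hP).elim (fun h1 => Or.inr h1.1) fun h1 => Or.inl (uE P hP h1),
      fun hP => hP.elim (fun h1 => h1 ▸ mE) fun h1 => (off h.toBl0 h1).1⟩
  have hind := ind_of hE
  have hu := (h.c1 _ mE dE (hind.1 0)).2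
  have e0 : e (plO E) ≠ 0 := h.cart.ne mE
  have oe : E.ord (e (plO E)) = 1 := by
    have := ((isU_plO' E).1 hu).2
    rw [E.ord_div e0 b0] at this
    omega
  have atE : ∀ c m φ, φ ≠ 0 →
      E.ord (φ * (S.blow H' e).lb (pb c m) (plO E)) = E.ord (φ * S.lb c O₀) + m := by
    intro c m φ h0
    rw [lb_pb, (h.ov _ mE dE).1, ← mul_assoc,
      E.ord_mul ((h.a1.pcart c φ h0).ne h.mem) (zpow_ne_zero _ e0), E.ord_zpow, oe, mul_one]
  have neE : ∀ P : Place k M, plO P ∈ S.T → P ≠ E := fun P hP e1 => nE (e1 ▸ hP)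
  refine ⟨E, h, mE, dE, uE, nE, pl, hind, oe, ord_of hE, fun c m φ P => ⟨fun hp => ?_, ?_⟩,
    mult h.toCtr (hPl k M _ _ h.cht.1) dE.1 (ord_of hE), fun c m φ => ?_⟩
  · obtain ⟨h0, h1, h2⟩ := hp
    have h3 := h2 E mE
    rw [atE c m φ h0] at h3
    rcases (pl P).1 h1 with rfl | h4
    · have h5 : ∀ O ∈ S.T, IsU O (φ * S.lb c O) := fun O hO =>
        hN.unit (h.a1.pcart c φ h0) hO fun P' h6 _ => by
          rw [← (off h.toBl0 h6).2 c m φ h0, h2 P' (off h.toBl0 h6).1, if_neg (neE P' h6)]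
      have h6 := ((isU_plO' P).1 ((h5 O₀ h.mem).mono dE.1)).2
      obtain rfl := h.a1.zero c φ h5
      rw [if_pos rfl] at h3
      exact Or.inl ⟨rfl, rfl, by omega, fun O hO => by simpa [Sd.lb_zero] using h5 O hO⟩
    · rw [if_neg (neE P h4).symm] at h3
      exact Or.inr ⟨⟨h0, h4, fun P' h6 => by
        rw [← (off h.toBl0 h6).2 c m φ h0, h2 P' (off h.toBl0 h6).1]⟩, by omega⟩
  · rintro (⟨rfl, rfl, rfl, h1⟩ | ⟨⟨h0, h1, h2⟩, h3⟩)
    · have h0 := (h1 O₀ h.mem).ne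
      refine ⟨h0, mE, fun P' hP' => ?_⟩
      rcases (pl P').1 hP' with rfl | h4
      · rw [atE _ _ _ h0, Sd.lb_zero, mul_one, ((isU_plO' P').1 ((h1 O₀ h.mem).mono dE.1)).2,
          if_pos rfl, zero_add]
      · rw [(off h.toBl0 h4).2 _ _ _ h0, Sd.lb_zero, mul_one, ((isU_plO' P').1 (h1 _ h4)).2,
          if_neg (neE P' h4)]
    · refine ⟨h0, (off h.toBl0 h1).1, fun P' hP' => ?_⟩
      rcases (pl P').1 hP' with rfl | h4
      · rw [atE _ _ _ h0, if_neg (neE P h1).symm]; omega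
      · rw [(off h.toBl0 h4).2 _ _ _ h0, h2 P' h4]
  · by_cases h0 : φ = 0
    · subst h0
      exact ⟨fun _ => ⟨zero_mem _, by rw [zero_mul]; exact E.ge_zero _⟩, fun _ => zero_mem _⟩
    refine ⟨fun h1 => ⟨fun O hO => hN.eff (h.a1.pcart c φ h0) hO fun P h2 _ => ?_, ?_⟩,
      fun h1 O hO => h.nice.eff (f := fun O => φ * (S.blow H' e).lb (pb c m) O)
        ((isCart_const h0).mul ((S.blow H' e).lb_cart h.cartg _)) hO fun P h2 _ => ?_⟩
    · rw [← (off h.toBl0 h2).2 c m φ h0]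
      exact mem_plO_ord.1 (h1 _ (off h.toBl0 h2).1)
    · have := mem_plO_ord.1 (h1 _ mE)
      rw [atE c m φ h0] at this
      exact E.ge_of_le (by omega)
    · rcases (pl P).1 h2 with rfl | h4
      · have := h1.2.le ((h.a1.pcart c φ h0).ne h.mem)
        rw [atE c m φ h0]; omega
      · rw [(off h.toBl0 h4).2 c m φ h0]
        exact mem_plO_ord.1 (h1.1 _ h4)

end Pool.Agent.MP_20d318_ag.CB

end MrgPart2

-- ======== part 3: formerly Pool.Agent.MP_20d318_ag.CB.BlC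
section MrgPart3

/-! The degrees on the prime divisors of the blow-up. -/

set_option autoImplicit false

namespace Pool.Agent.MP_20d318_ag.CB

open Pool.Agent.MP_79c67d_ag Pool.Agent.MP_20d318_ag.AG Pool.Agent.MP_20d318_ag.BV MvPolynomial
open scoped IntermediateField

namespace BlC

variable {k M : Type} [Field k] [Field M] [Algebra k M] {X T : Set (Subalgebra k M)}
  {O W : Subalgebra k M} {a b : M}

theorem mem2 (ha : a ∈ O) (hb : b ∈ O) : ∀ i, ![a, b] i ∈ O := by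
  simpa [Fin.forall_fin_two] using ⟨ha, hb⟩

theorem ev_aeval (ν : Curve X) (ha : a ∈ ν.gen) (hb : b ∈ ν.gen) (p : MvPolynomial (Fin 2) k) :
    ν.ev (aeval ![a, b] p) = aeval ![ν.ev a, ν.ev b] p := by
  rw [ν.ev_eq, evO_aeval ν.ρ (mem2 ha hb)]
  congr 2
  funext i
  fin_cases i <;> rfl

/-- The residue field of a point of a plane is generated by the coordinates. -/
theorem nu_eq (ν : Curve X) (h : ν.gen ∈ Pts (Algebra.adjoin k {a, b})) :
    nu ν = Module.finrank k⟮ν.ev a, ν.ev b⟯ ν.L := by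
  have ha : a ∈ ν.gen := h.2.1 (Algebra.subset_adjoin (by simp))
  have hb : b ∈ ν.gen := h.2.1 (Algebra.subset_adjoin (by simp))
  have key : ∀ n ∈ Algebra.adjoin k {a, b}, ν.ev n ∈ k⟮ν.ev a, ν.ev b⟯ := fun n hn => by
    obtain ⟨p, rfl⟩ := mem_adjoin_pair.1 hn
    rw [ev_aeval ν ha hb]
    exact IntermediateField.algebra_adjoin_le_adjoin _ _ (mem_adjoin_pair.2 ⟨p, rfl⟩)
  have e : IntermediateField.adjoin k (ν.ev '' ν.gen) = k⟮ν.ev a, ν.ev b⟯ := by
    refine le_antisymm (IntermediateField.adjoin_le_iff.2 ?_) (IntermediateField.adjoin.mono _ _ _ ?_)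
    · rintro _ ⟨f, hf, rfl⟩
      obtain ⟨n, hn, d, hd, hu, rfl⟩ := h.2.2 f hf
      rw [ev_div ν (h.2.1 hn) hu]
      exact div_mem (key n hn) (key d hd)
    · rintro _ (rfl | rfl)
      exacts [⟨a, ha, rfl⟩, ⟨b, hb, rfl⟩]
  rw [nu, e]

/-- A local ring where both coordinates vanish dominates the origin. -/
theorem dom_origin (h : O ∈ Pts (Algebra.adjoin k {a, b})) (ha : a ∈ mx O) (hb : b ∈ mx O)
    (hW : IsLocalRing W) (ha' : a ∈ mx W) (hb' : b ∈ mx W) : Dom O W := by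
  have key : ∀ V : Subalgebra k M, IsLocalRing V → a ∈ mx V → b ∈ mx V →
      ∀ p : MvPolynomial (Fin 2) k, aeval ![a, b] p ∈ mx V ↔ eval 0 p = 0 := fun V hV h1 h2 p => by
    have h3 := aeval_sub_const hV (r := ![a, b]) (c := 0)
      (by simpa [Fin.forall_fin_two] using ⟨h1, h2⟩) p
    exact ⟨fun m => const_mem_mx.1 (by simpa using mx_sub' hV m h3),
      fun m => by rwa [m, map_zero, sub_zero] at h3⟩
  obtain ⟨O', h1, h2⟩ := exists_ctr hW (R := Algebra.adjoin k {a, b}) (Algebra.adjoin_le (by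
    rintro _ (rfl | rfl)
    exacts [ha'.1, hb'.1]))
  refine BV.Pts_ext h1 h (fun d hd => ?_) ▸ h2
  obtain ⟨p, rfl⟩ := mem_adjoin_pair.1 hd
  rw [key O h.1 ha hb, ← key W hW ha' hb']
  exact ⟨h2.mx, mx_of_le h2.1 (h1.2.1 hd)⟩

/-- The order of a generator of the ideal of two functions. -/
theorem gn_le (ν : Curve X) (Q : Place k ν.L) {γ : M} (h : Gn {a, b} (ν.pt Q) γ)
    (hu : IsU ν.gen γ) (n : ℤ) :
    n ≤ Q.ord (ν.ev γ) ↔ Q.Ge n (ν.ev a) ∧ Q.Ge n (ν.ev b) := by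
  have e : ∀ s ∈ ({a, b} : Set M), ν.ev s = ν.ev (s / γ) * ν.ev γ := fun s hs => by
    rw [← ev_mul ν (ν.pt_le Q (h.1 s hs)) hu.mem, div_mul_cancel₀ _ hu.1]
  have h1 : n ≤ Q.ord (ν.ev γ) → ∀ s ∈ ({a, b} : Set M), Q.Ge n (ν.ev s) := fun m s hs => by
    rw [e s hs]
    exact (Q.ge0_iff.2 (ν.v_le Q (h.1 s hs))).mul0 (Q.ge_of_le m)
  refine ⟨fun m => ⟨h1 m a (by simp), h1 m b (by simp)⟩, fun m => ?_⟩
  obtain ⟨s, hs, h2⟩ := h.2
  have h3 : Q.Ge n (ν.ev s) := by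
    rcases hs with rfl | rfl
    exacts [m.1, m.2]
  have h4 : ν.ev (s / γ) ≠ 0 := evO_ne _ (h2.mono (ν.pt_le Q))
  have h5 : ν.ev γ ≠ 0 := evO_ne _ hu
  rw [e s hs] at h3
  have h6 := h3.le (mul_ne_zero h4 h5)
  rwa [Q.ord_mul h4 h5, ν.ord_unit Q h2, zero_add] at h6

theorem deg_proj (hT : Good T) (hX : Good X) (h : Maps (AlgHom.id k M) X T) (ν : Curve X)
    {f : Subalgebra k M → M} (hf : IsCart T f) :
    ν.deg (up (AlgHom.id k M) T f) = (B1.proj hT hX h ν).deg f :=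
  finsum_congr fun P => congrArg P.ord (B1.ev_proj hT hX h ν (hf.unit (h.mem (ν.pt_mem P))
    (h.mem ν.gen_mem) (pr_mono hT hX h (ν.pt_mem P) ν.gen_mem (ν.pt_le P))).2.1).symm

theorem nu_proj (hT : Good T) (hX : Good X) (h : Maps (AlgHom.id k M) X T) (ν : Curve X)
    (e : pr (AlgHom.id k M) T ν.gen = ν.gen) : nu (B1.proj hT hX h ν) = nu ν := by
  have e1 : (B1.proj hT hX h ν).ev '' (B1.proj hT hX h ν).gen = ν.ev '' ν.gen :=
    (Set.image_congr fun a ha => B1.ev_proj hT hX h ν ha).trans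
      (congrArg (fun R : Subalgebra k M => ν.ev '' (R : Set M)) e)
  exact congrArg (fun s : Set ν.L => Module.finrank (IntermediateField.adjoin k s) ν.L) e1

end BlC

open BlC

theorem blC_stmt : BlCStmt := by
  intro hM k M I _ _ _ _ _ _ S O₀ a b H' e E h c φ P hp ν hν c'
  obtain ⟨c, m, rfl⟩ := exists_pb c
  obtain ⟨c', m', rfl⟩ := exists_pb c'
  have hT : Good S.T := h.a1.nice.toFine.toGood
  have hX : Good (S.blow H' e).T := h.nice.toFine.toGood
  have e1 : (S.blow H' e).lb (pb c' m') = up (AlgHom.id k M) S.T (S.lb c') * e ^ m' :=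
    funext fun O => lb_pb S H' e c' m' O
  rw [e1, deg_mul hX (isCart_up hT hX h.maps (h.a1.cart c')) (h.cart.zpow m'), deg_zpow hX h.cart,
    deg_proj hT hX h.maps ν (h.a1.cart c'), ip_pb]
  rcases (h.prm c m φ P).1 hp with ⟨rfl, rfl, rfl, -⟩ | ⟨hq, rfl⟩
  · have d0 : Dom O₀ ν.gen := hν ▸ h.dE
    have e2 : pr (AlgHom.id k M) S.T ν.gen = O₀ := (h.ov _ ν.gen_mem d0).1
    have hr : RatPt (pr (AlgHom.id k M) S.T ν.gen) := e2 ▸ h.rat
    have d1 : ∀ Q, Dom O₀ (ν.pt Q) := fun Q => by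
      have := h.maps.dom (ν.pt_mem Q)
      rwa [pr_pt hT hX h.maps ν hr, e2] at this
    have hi : Ind ν.gen ![a / b] := hν ▸ h.ind
    have hab : a / b ∈ ν.gen := hi.1 0
    have ht := ev_transcendental ν hab fun c => (ind_one hi c).not_mx
    have e3 : k⟮ν.ev (a / b), ν.ev b⟯ = k⟮ν.ev (a / b)⟯ := by
      rw [(ev_eq_zero ν (d0.mx h.mb).1).2 (d0.mx h.mb)]
      refine le_antisymm (IntermediateField.adjoin_le_iff.2 ?_)
        (IntermediateField.adjoin.mono _ _ _ (by simp))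
      rintro _ (rfl | rfl)
      exacts [IntermediateField.mem_adjoin_simple_self _ _, zero_mem _]
    rw [deg_rat (h.a1.cart c') _ hr, deg_gn_pair ν (h.ov _ ν.gen_mem d0).2
      (fun Q => (h.ov _ (ν.pt_mem Q) (d1 Q)).2) (by simpa using h.g1.y_ne 0) hab, pdeg_eq ht,
      nu_eq ν (h.c1 _ ν.gen_mem d0 hab).1.2, e3, ip_zero_right]
    ring
  have hg : ν.gen ∈ S.T := hν ▸ hq.2.1
  obtain ⟨-, e2, hu⟩ := h.off _ hg fun m => h.ne (m ▸ ν.gen_mem)
  have z : ∀ Q, ¬ Dom O₀ (ν.pt Q) → Q.ord (ν.ev (e (ν.pt Q))) = 0 := fun Q m =>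
    ((h.cases _ (ν.pt_mem Q)).resolve_right m).elim fun h1 h2 => ν.ord_unit Q (h.off _ h1 h2).2.2
  have key : ν.deg e = nu ν * E.ord (φ * S.lb c O₀) := by
    rw [deg_of_unit hX h.cart ν hu]
    rcases h.mult c φ P hq with ⟨h1, -, h2⟩ | ⟨q, n, h1, h2, h3, -, h4⟩
    · rw [h2, mul_zero]
      exact finsum_eq_zero_of_forall_eq_zero fun Q => z Q fun d =>
        h1 (hν ▸ d.1.trans (ν.pt_le Q))
    have h5 : O₀ ≤ ν.gen := hν ▸ h1
    have ha := h5 h.ma.1
    have hb := h5 h.mb.1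
    have hp2 : ν.gen ∈ Pts (Algebra.adjoin k {a, b}) := hν ▸ h2.pts
    have h6 : aeval ![ν.ev a, ν.ev b] q = 0 := by
      rw [← ev_aeval ν ha hb, ev_eq_zero ν (aeval_mem (mem2 ha hb) q), hν]
      exact (h2.mem q).2 dvd_rfl
    have h7 : Transcendental k (ν.ev a) ∨ Transcendental k (ν.ev b) := by
      by_contra hn
      rw [not_or] at hn
      refine (h.a1.dim P hq.2.1).1 (hν ▸ ratPt_of hp2 rfl ?_)
      rintro _ (rfl | rfl)
      · exact by_contra fun m => hn.1 (ev_transcendental ν ha (not_exists.1 m))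
      · exact by_contra fun m => hn.2 (ev_transcendental ν hb (not_exists.1 m))
    rw [h4, nu_eq ν hp2]
    refine (hM k ν.L _ _ q h2.irr h6 h7).2.2.2.2 n h3 _ (fun Q hQ => z Q fun d => hQ ?_)
      fun Q h8 h9 => ?_
    · exact ⟨Q.ge1_iff.2 ((ν.v_lt_one_iff Q (d.1 h.ma.1)).2 (d.mx h.ma)),
        Q.ge1_iff.2 ((ν.v_lt_one_iff Q (d.1 h.mb.1)).2 (d.mx h.mb))⟩
    have hl := preO_local ν.locHom Q
    have d := dom_origin h.cht.2 h.ma h.mb hl ((mem_mx_preO ν.locHom).2 ⟨ha, Q.ge1_iff.1 h8⟩)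
      ((mem_mx_preO ν.locHom).2 ⟨hb, Q.ge1_iff.1 h9⟩)
    have d1 : Dom O₀ (ν.pt Q) := (h.cases _ (ν.pt_mem Q)).resolve_left fun m =>
      m.2 (hT.sep _ m.1 _ h.mem _ hl (ν.dom_preO Q) d)
    refine gn_le ν Q (h.ov _ (ν.pt_mem Q) d1).2 ?_
    have := (h.cart.unit (ν.pt_mem Q) ν.gen_mem (ν.pt_le Q)).mul hu
    rwa [div_mul_cancel₀ _ hu.1] at this
  rw [h.s.deg c φ P hq _ (e2.trans hν), nu_proj hT hX h.maps ν e2, key]
  ring

end Pool.Agent.MP_20d318_ag.CB

end MrgPart3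

-- ======== part 4: formerly Pool.Agent.MP_20d318_ag.CB.BlD
section MrgPart4

/-! Riemann–Roch inequalities on the blow-up of a point. -/

set_option autoImplicit false

namespace Pool.Agent.MP_20d318_ag.CB

open Pool.Agent.MP_79c67d_ag Pool.Agent.MP_20d318_ag.AG Pool.Agent.MP_20d318_ag.BV MvPolynomial

namespace BlDA

variable {k M I : Type} [Field k] [Field M] [Algebra k M] [Fintype I]

/-- A codimension bound. -/
theorem rk_le (V G W : Submodule k M) [FiniteDimensional k V] [FiniteDimensional k W]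
    (h : V ≤ G ⊔ W) : Module.finrank k V ≤ Module.finrank k (V ⊓ G :) + Module.finrank k W := by
  have e := LinearMap.finrank_range_add_finrank_ker (G.mkQ ∘ₗ V.subtype)
  have h1 : LinearMap.range (G.mkQ ∘ₗ V.subtype) ≤ W.map G.mkQ := by
    rintro _ ⟨v, rfl⟩
    obtain ⟨g, hg, w, hw, e⟩ := Submodule.mem_sup.1 (h v.2)
    refine ⟨w, hw, ?_⟩
    have : G.mkQ g = 0 := (Submodule.Quotient.mk_eq_zero G).2 hg
    simp only [LinearMap.comp_apply, Submodule.subtype_apply, ← e, map_add, this, zero_add]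
  have h2 := (Submodule.finrank_mono h1).trans (Submodule.finrank_map_le G.mkQ W)
  have h3 : Module.finrank k (LinearMap.ker (G.mkQ ∘ₗ V.subtype)) =
      Module.finrank k (V ⊓ G :) := by
    rw [LinearMap.ker_comp, Submodule.ker_mkQ, ← Submodule.map_comap_subtype,
      Submodule.finrank_map_subtype_eq]
  omega

/-- The functions `φ` such that `φ * l` vanishes to order `n`. -/
def ge (E : Place k M) (n : ℤ) (l : M) : Submodule k M where
  carrier := {φ | E.Ge n (φ * l)}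
  add_mem' ha hb := by simpa only [Set.mem_ofPred_eq, add_mul] using Place.Ge.add ha hb
  zero_mem' := by simpa only [Set.mem_ofPred_eq, zero_mul] using E.ge_zero n
  smul_mem' c φ h := by simpa only [Set.mem_ofPred_eq, smul_mul_assoc] using Place.Ge.smul c h

variable (k) in
/-- The forms of degree `n` in `a` and `b`. -/
def fm (a b : M) (n : ℕ) : Submodule k M :=
  Submodule.span k (Set.range fun i : Fin (n + 1) => a ^ (i : ℕ) * b ^ (n - i))

instance fm_fd (a b : M) (n : ℕ) : FiniteDimensional k (fm k a b n) :=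
  FiniteDimensional.span_of_finite k (Set.finite_range _)

theorem fm_rk (a b : M) (n : ℕ) : Module.finrank k (fm k a b n) ≤ n + 1 := by
  exact (finrank_range_le_card (R := k) fun i : Fin (n + 1) => a ^ (i : ℕ) * b ^ (n - i)).trans
    (Fintype.card_fin _).le

theorem mem_fm (a b : M) {n : ℕ} {p : MvPolynomial (Fin 2) k} (hp : p.IsHomogeneous n) :
    aeval ![a, b] p ∈ fm k a b n := by
  rw [aeval_def, eval₂_eq']
  refine Submodule.sum_mem _ fun d hd => ?_
  have e : d 0 + d 1 = n := by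
    by_contra hn
    exact mem_support_iff.1 hd (hp.coeff_eq_zero (by rwa [Finsupp.degree_eq_sum, Fin.sum_univ_two]))
  rw [← Algebra.smul_def]
  refine Submodule.smul_mem _ _ (Submodule.subset_span ⟨⟨d 0, by omega⟩, ?_⟩)
  simp only [Fin.prod_univ_two, Matrix.cons_val_zero, Matrix.cons_val_one]
  rw [show n - d 0 = d 1 by omega]

theorem fm_ge {E : Place k M} {a b : M} (ha : E.Ge 1 a) (hb : E.Ge 1 b) {n : ℕ} {f : M}
    (hf : f ∈ fm k a b n) : E.Ge n f := by
  have : fm k a b n ≤ ge E n 1 := Submodule.span_le.2 (by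
    rintro _ ⟨i, rfl⟩
    have := (ha.pow i).mul (hb.pow (n - i))
    rw [mul_one, mul_one, ← Nat.cast_add, show (i : ℕ) + (n - i) = n by omega] at this
    change E.Ge n (_ * 1)
    rwa [mul_one])
  simpa only [mul_one] using (show E.Ge n (f * 1) from this hf)

variable {S : Sd k M I} {O₀ : Subalgebra k M} {a b : M} {H' : Set M} {e : Subalgebra k M → M}
  {E : Place k M}

/-- The leading form of a germ. -/
theorem lead (h : Bl2 S O₀ a b H' e E) (n : ℕ) {f : M} (hf : f ∈ O₀) (hn : E.Ge n f) :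
    ∃ w ∈ fm k a b n, E.Ge (n + 1) (f - w) := by
  have g1 : ∀ u ∈ mx O₀, E.Ge 1 u := fun u hu => E.ge1_iff.2 ((mem_mx_plO E).1 (h.dE.mx hu))
  obtain ⟨p, hp, q, -, hq, rfl⟩ := h.cht.2.2.2 f hf
  obtain ⟨c, hc⟩ := h.rat q⁻¹ hq.inv_mem
  have hp' : E.Ge n p := by
    have := hn.mul0' ((mem_plO' E).1 (h.dE.1 hq.mem))
    rwa [div_mul_cancel₀ _ hq.ne] at this
  obtain ⟨w, hw, hw'⟩ : ∃ w ∈ fm k a b n, E.Ge (n + 1) (p - w) := by
    rw [show ({a, b} : Set M) = Set.range ![a, b] by simp [Set.pair_comm],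
      Algebra.adjoin_range_eq_range_aeval] at hp
    obtain ⟨P, rfl⟩ : ∃ P : MvPolynomial (Fin 2) k, aeval ![a, b] P = p := hp
    by_cases h0 : aeval ![a, b] P = 0
    · exact ⟨0, Submodule.zero_mem _, by rw [sub_zero, h0]; exact E.ge_zero _⟩
    obtain ⟨m, -, hm⟩ := exists_isOrd (p := P) (fun e => h0 (by rw [e, map_zero])) 0 0
    have hle : (n : ℤ) ≤ m := h.ord P m hm ▸ Place.Ge.le hp' h0
    refine ⟨∑ j ∈ Finset.range (P.totalDegree + 1),
      if j = n then aeval ![a, b] (tay P 0 0 j) else 0, Submodule.sum_mem _ fun j _ => ?_, ?_⟩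
    · split_ifs with hj
      · exact mem_fm a b (hj ▸ tay_hom P 0 0 j)
      · exact Submodule.zero_mem _
    · have e := aeval_tay P 0 0 a b
      simp only [map_zero, sub_zero] at e
      rw [e, ← Finset.sum_sub_distrib]
      refine E.ge_sum fun j _ => ?_
      split_ifs with hj
      · rw [sub_self]; exact E.ge_zero _
      rcases lt_or_gt_of_ne hj with hj | hj
      · rw [hm.1 j (by omega), map_zero, sub_zero]; exact E.ge_zero _
      · rw [sub_zero]
        exact (fm_ge (g1 a h.ma) (g1 b h.mb) (mem_fm a b (tay_hom P 0 0 j))).mono (by omega)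
  refine ⟨c • w, Submodule.smul_mem _ _ hw, ?_⟩
  have := (hp'.mul (g1 _ hc)).add (hw'.smul c)
  rwa [show p * (q⁻¹ - algebraMap k M c) + c • (p - w) = p / q - c • w by
    simp only [Algebra.smul_def]; ring] at this

theorem step (h : Bl2 S O₀ a b H' e E) (c : I → ℤ) (n : ℕ) :
    Module.finrank k (S.Sec c ⊓ ge E n (S.lb c O₀) :) ≤
      Module.finrank k (S.Sec c ⊓ ge E (n + 1) (S.lb c O₀) :) + (n + 1) := by
  have := h.s.fd c
  have l0 := S.lb_ne (h.a1.gne O₀ h.mem) c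
  have h1 := rk_le (S.Sec c ⊓ ge E n (S.lb c O₀)) (ge E (n + 1) (S.lb c O₀))
    ((fm k a b n).map (LinearMap.mulRight k (S.lb c O₀)⁻¹)) fun φ hφ => by
      obtain ⟨w, hw, hw'⟩ := lead h n (hφ.1 O₀ h.mem) hφ.2
      refine Submodule.mem_sup.2 ⟨φ - w * (S.lb c O₀)⁻¹, ?_, _, ⟨w, hw, rfl⟩, sub_add_cancel _ _⟩
      change E.Ge _ _
      rwa [sub_mul, inv_mul_cancel_right₀ l0]
  have h2 : S.Sec c ⊓ ge E n (S.lb c O₀) ⊓ ge E (n + 1) (S.lb c O₀) =
      S.Sec c ⊓ ge E (n + 1) (S.lb c O₀) := by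
    rw [inf_assoc, inf_eq_right.2 (show ge E (n + 1) (S.lb c O₀) ≤ ge E n (S.lb c O₀) from
      fun φ hφ => Place.Ge.mono hφ (by omega))]
  rw [h2] at h1
  have h3 := (Submodule.finrank_map_le (LinearMap.mulRight k (S.lb c O₀)⁻¹) (fm k a b n)).trans
    (fm_rk a b n)
  omega

theorem sec_eq (h : Bl2 S O₀ a b H' e E) (c : I → ℤ) (m : ℤ) :
    (S.blow H' e).Sec (pb c m) = S.Sec c ⊓ ge E (-m) (S.lb c O₀) :=
  Submodule.ext fun φ => h.sec c m φ

theorem inf_eq (h : Bl2 S O₀ a b H' e E) (c : I → ℤ) {n : ℤ} (hn : n ≤ 0) :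
    S.Sec c ⊓ ge E n (S.lb c O₀) = S.Sec c :=
  inf_eq_left.2 fun _ hφ => ((mem_plO' E).1 (h.dE.1 (hφ O₀ h.mem))).mono hn

theorem h0_eq (h : Bl2 S O₀ a b H' e E) (c : I → ℤ) {m : ℤ} (hm : 0 ≤ m) :
    (S.blow H' e).h0 (pb c m) = S.h0 c := by
  rw [Sd.h0, sec_eq h, inf_eq h c (by omega), Sd.h0]

theorem h0_le (h : Bl2 S O₀ a b H' e E) (c : I → ℤ) (n : ℕ) :
    2 * S.h0 c ≤ 2 * (S.blow H' e).h0 (pb c (-n)) + n * (n + 1) := by
  induction n with
  | zero => simpa using (h0_eq h c le_rfl).ge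
  | succ n ih =>
    have := step h c n
    have e : ∀ m : ℤ, (S.blow H' e).h0 (pb c (-m)) =
        Module.finrank k (S.Sec c ⊓ ge E m (S.lb c O₀) :) := fun m => by
      rw [Sd.h0, sec_eq h, neg_neg]
    rw [e] at ih ⊢
    have h1 := (Nat.cast_le (α := ℤ)).2 this
    push_cast at h1 ⊢
    linarith

theorem chi_eq (c : I → ℤ) (m : ℤ) : chi2 (S.blow H' e).B (S.blow H' e).K (pb c m) =
    chi2 S.B S.K c - m * (m - 1) := by
  rw [chi2, chi2, show (S.blow H' e).K = pb S.K 1 from rfl, ip_pb, ip_pb]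
  ring

end BlDA

open BlDA in
theorem blD_stmt : BlDStmt := by
  intro k M I _ _ _ _ _ _ S O₀ a b H' e E h
  refine ⟨fun c => ?_, fun c hc => ?_, fun t ht => ?_⟩
  · obtain ⟨c, m, rfl⟩ := exists_pb c
    have := h.s.fd c
    rw [sec_eq h]
    infer_instance
  · obtain ⟨c, m, rfl⟩ := exists_pb c
    rw [show (S.blow H' e).f = pb S.f 0 from rfl, ip_pb, mul_zero, sub_zero] at hc
    have h1 := h.s.rr c hc
    rw [chi_eq]
    rcases le_total 0 m with hm | hm
    · rw [h0_eq h c hm]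
      rcases hm.eq_or_lt with rfl | hm
      · simpa using h1
      · nlinarith
    · obtain ⟨n, rfl⟩ : ∃ n : ℕ, m = -n := ⟨m.natAbs, by omega⟩
      nlinarith [h0_le h c n]
  · rw [show (S.blow H' e).K + t • (S.blow H' e).A = pb (S.K + t • S.A) 1 by
      rw [show (S.blow H' e).K = pb S.K 1 from rfl, show (S.blow H' e).A = pb S.A 0 from rfl,
        pb_smul, pb_add, mul_zero, add_zero], chi_eq, h0_eq h _ zero_le_one]
    simpa using h.s.ub t ht

end Pool.Agent.MP_20d318_ag.CB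

end MrgPart4

-- ======== part 5: formerly Pool.Agent.MP_20d318_ag.CB.BlE
section MrgPart5

/-! The lattice and the globally generated classes of the blow-up. -/

set_option autoImplicit false

namespace Pool.Agent.MP_20d318_ag.CB

open Pool.Agent.MP_79c67d_ag Pool.Agent.MP_20d318_ag.AG Pool.Agent.MP_20d318_ag.BV MvPolynomial

namespace BlE

variable {k M I : Type} [Field k] [Field M] [Algebra k M] [Fintype I] {S : Sd k M I}
  {O₀ : Subalgebra k M} {a b : M} {H' : Set M} {e : Subalgebra k M → M} {E : Place k M}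

omit [Fintype I] in
theorem pb_zero {R : Type} [Zero R] : pb (0 : I → R) 0 = 0 := by funext o; cases o <;> rfl

theorem prmE (h : Bl2 S O₀ a b H' e E) : (S.blow H' e).Prm (pb 0 1) 1 E :=
  (h.prm _ _ _ _).2 (Or.inl ⟨rfl, rfl, rfl, fun _ _ => isU_one⟩)

theorem prmS (h : Bl2 S O₀ a b H' e E) {c : I → ℤ} {φ : M} {P : Place k M} (hP : S.Prm c φ P) :
    (S.blow H' e).Prm (pb c (-E.ord (φ * S.lb c O₀))) φ P :=
  (h.prm _ _ _ _).2 (Or.inr ⟨hP, rfl⟩)

theorem surf0 (h : Bl2 S O₀ a b H' e E) (hd : Dg (S.blow H' e)) : Surf0 (S.blow H' e) where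
  fam := h.fam
  cartg := h.cartg
  gH := h.gH
  can := h.can
  sym i j := by
    cases i <;> cases j
    exacts [rfl, rfl, rfl, h.s.sym _ _]
  all P hP := by
    rcases (h.pl P).1 hP with rfl | hP
    · exact ⟨_, _, prmE h⟩
    · obtain ⟨c, φ, hc⟩ := h.s.all P hP
      exact ⟨_, _, prmS h hc⟩
  deg := hd
  span c hc := by
    obtain ⟨c₀, m, rfl⟩ := exists_pb c
    have h1 := hc _ ⟨_, _, prmE h⟩
    rw [ip_pb, ip_zero_right, zero_sub, mul_one, neg_eq_zero] at h1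
    subst h1
    have h2 : c₀ = 0 := h.s.span c₀ fun c' ⟨φ, P, hP⟩ => by
      have h3 := hc _ ⟨_, _, prmS h hP⟩
      rwa [ip_pb, zero_mul, sub_zero] at h3
    rw [h2, pb_zero]

theorem surfL (h : Bl2 S O₀ a b H' e E) : SurfL (S.blow H' e) where
  hodge := by
    obtain ⟨A, h1, h2⟩ := h.s.hodge
    refine ⟨pb A 0, by rwa [ip_pb, mul_zero, sub_zero], fun v hv h0 => ?_⟩
    obtain ⟨v₀, m, rfl⟩ := exists_pb v
    rw [ip_pb, mul_zero, sub_zero] at hv
    rw [ip_pb]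
    by_cases h3 : v₀ = 0
    · have h4 : m ≠ 0 := fun h4 => h0 (by rw [h3, h4, pb_zero])
      rw [h3, ip_zero_left]
      linarith [mul_self_pos.2 h4]
    · linarith [h2 v₀ hv h3, mul_self_nonneg m]
  par c := by
    obtain ⟨c₀, m, rfl⟩ := exists_pb c
    change Even (_ + ip _ (pb S.K 1) _)
    rw [ip_pb, ip_pb, show ip S.B c₀ c₀ - m * m + (ip S.B S.K c₀ - 1 * m) =
      ip S.B c₀ c₀ + ip S.B S.K c₀ - m * (m + 1) by ring]
    exact (h.s.par c₀).sub (Int.even_mul_succ_self m)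
  noe := by
    change ip _ (pb S.K 1) (pb S.K 1) + _ = _
    rw [ip_pb, Fintype.card_option]
    push_cast
    linarith [h.s.noe]
  Kf := by
    change _ ≤ ip _ (pb S.K 1) (pb S.f 0)
    rw [ip_pb, mul_zero, sub_zero]
    exact h.s.Kf
  Af := by
    change _ < ip _ (pb S.A 0) (pb S.f 0)
    rw [ip_pb, mul_zero, sub_zero]
    exact h.s.Af

theorem gg_pb (h : Bl2 S O₀ a b H' e E) {c : I → ℤ} (hc : S.GG c) : (S.blow H' e).GG (pb c 0) := by
  obtain ⟨U, f, n, g⟩ := hc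
  refine ⟨U, f, n, fun O hO => ?_⟩
  rw [lb_pb, zpow_zero, mul_one]
  exact (g _ (h.maps.mem hO)).mono (h.maps.dom hO).1

theorem dif (h : Bl2 S O₀ a b H' e E) : Dif (S.blow H' e) := fun c => by
  obtain ⟨c₀, m, rfl⟩ := exists_pb c
  have h0 : ∀ O ∈ (S.blow H' e).T, ∀ i, (S.blow H' e).g i O ≠ 0 := fun O hO i => (h.cartg i).ne hO
  have hh : (S.blow H' e).GG (pb ((2 : ℤ) • S.h) (-1)) :=
    ⟨H', h.fam.fin (), h.fam.nz (), h.gH⟩
  obtain ⟨y, h1, h2⟩ := h.s.dif (c₀ + (2 * m) • S.h)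
  obtain ⟨n, rfl | rfl⟩ := Int.eq_nat_or_neg m
  · refine ⟨_, gg_add h0 (gg_pb h h1) (gg_nsmul h0 hh n), ?_⟩
    convert gg_pb h h2 using 1
    funext o
    cases o <;> simp [pb] <;> ring
  · refine ⟨_, gg_pb h h1, ?_⟩
    convert gg_add h0 (gg_pb h h2) (gg_nsmul h0 hh n) using 1
    funext o
    cases o <;> simp [pb] <;> ring

end BlE

/-- BLE. -/
theorem blE_stmt : BlEStmt := fun _ _ _ _ _ _ _ _ _ _ _ _ _ _ _ _ h hd =>
  ⟨BlE.surf0 h hd, BlE.surfL h, BlE.dif h⟩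

end Pool.Agent.MP_20d318_ag.CB

end MrgPart5

-- ======== part 6: formerly Pool.Agent.MP_20d318_ag.CB.FnA
section MrgPart6

/-! The charts of the Hirzebruch surfaces. -/

set_option autoImplicit false

namespace Pool.Agent.MP_20d318_ag.CB

open Pool.Agent.MP_79c67d_ag Pool.Agent.MP_20d318_ag.AG Pool.Agent.MP_20d318_ag.BV MvPolynomial
open Pool.Agent.MP_20d318_ag.RS (jac)

namespace FnA

variable {k M : Type} [Field k] [Field M] [Algebra k M] {n : ℕ} {x y : M}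

theorem top_of (h : GenP k x y) {E : IntermediateField k M} (hx : x ∈ E) (hy : y ∈ E) : E = ⊤ := by
  refine top_le_iff.1 ?_
  rw [← h.top, IntermediateField.adjoin_le_iff]
  rintro a (rfl | rfl)
  · exact hx
  · exact hy

theorem gn_mul {S S' : Set M} {O : Subalgebra k M} {u v : M} (h : Gn S O u) (h' : Gn S' O v) :
    Gn (Set.image2 (· * ·) S S') O (u * v) := by
  refine ⟨?_, ?_⟩
  · rintro _ ⟨a, ha, b, hb, rfl⟩
    rw [mul_div_mul_comm]
    exact O.mul_mem (h.1 a ha) (h'.1 b hb)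
  · obtain ⟨a, ha, p⟩ := h.2
    obtain ⟨b, hb, q⟩ := h'.2
    refine ⟨_, ⟨a, ha, b, hb, rfl⟩, ?_⟩
    rw [mul_div_mul_comm]
    exact p.mul q

/-- The chart `(a, b)` with the generators `u`, `v` of the two families. -/
structure Ch (k : Type) {M : Type} [Field k] [Field M] [Algebra k M] (S S' : Set M)
    (u v a b : M) : Prop where
  mu : u ∈ S
  mv : v ∈ S'
  nu : u ≠ 0
  nv : v ≠ 0
  du : ∀ s ∈ S, s / u ∈ Algebra.adjoin k {a, b}
  dv : ∀ s ∈ S', s / v ∈ Algebra.adjoin k {a, b}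
  ea : ∃ s ∈ S, a = s / u
  eb : ∃ s ∈ S', b = s / v

variable {S S' : Set M} {u v a b : M} {O : Subalgebra k M}

theorem Ch.eq (h : Ch k S S' u v a b) :
    cht k (fun _ : Unit => Set.image2 (· * ·) S S') (fun _ => u * v) = Algebra.adjoin k {a, b} := by
  refine le_antisymm (cht_le.2 ?_) ?_
  · rintro - _ ⟨s, hs, t, ht, rfl⟩
    rw [mul_div_mul_comm]
    exact mul_mem (h.du s hs) (h.dv t ht)
  · have key := cht_le.1 (le_refl (cht k (fun _ : Unit => Set.image2 (· * ·) S S')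
      (fun _ => u * v))) ()
    rw [Algebra.adjoin_le_iff]
    rintro c (rfl | rfl)
    · obtain ⟨s, hs, rfl⟩ := h.ea
      have := key _ ⟨s, hs, v, h.mv, rfl⟩
      rwa [mul_div_mul_right _ _ h.nv] at this
    · obtain ⟨s, hs, rfl⟩ := h.eb
      have := key _ ⟨u, h.mu, s, hs, rfl⟩
      rwa [mul_div_mul_left _ _ h.nu] at this

theorem Ch.mem (h : Ch k S S' u v a b) (hO : O ∈ Pts (Algebra.adjoin k {a, b})) :
    O ∈ mp k fun _ : Unit => Set.image2 (· * ·) S S' :=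
  ⟨fun _ => u * v, fun _ => ⟨u, h.mu, v, h.mv, rfl⟩, by rwa [h.eq]⟩

theorem Ch.gn (h : Ch k S S' u v a b) (hO : O ∈ Pts (Algebra.adjoin k {a, b})) :
    Gn S O u ∧ Gn S' O v :=
  ⟨gn_of_mem h.mu h.nu fun s hs => hO.2.1 (h.du s hs),
    gn_of_mem h.mv h.nv fun s hs => hO.2.1 (h.dv s hs)⟩

theorem Ch.unit (h : Ch k S S' u v a b) (hO : O ∈ Pts (Algebra.adjoin k {a, b})) :
    IsU O (BV.gn S O / u) ∧ IsU O (BV.gn S' O / v) :=
  ⟨(gn_spec (h.gn hO).1.prin).unit (h.gn hO).1, (gn_spec (h.gn hO).2.prin).unit (h.gn hO).2⟩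

theorem Ch.pts (h : Ch k S S' u v a b) (hF : Fam k fun _ : Unit => Set.image2 (· * ·) S S')
    (hO : O ∈ mp k fun _ : Unit => Set.image2 (· * ·) S S') (ha : a ∈ O) (hb : b ∈ O) :
    O ∈ Pts (Algebra.adjoin k {a, b}) := by
  rw [← h.eq]
  refine mp_pts hF hO (fun _ => ⟨u, h.mu, v, h.mv, rfl⟩) ?_
  rw [h.eq, Algebra.adjoin_le_iff]
  rintro c (rfl | rfl)
  · exact ha
  · exact hb

theorem memL (a b : M) : a ∈ Algebra.adjoin k {a, b} := Algebra.subset_adjoin (by simp)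
theorem memR (a b : M) : b ∈ Algebra.adjoin k {a, b} := Algebra.subset_adjoin (by simp)

theorem f0 : fF n x y 0 = {1, x} := rfl
theorem f1 : fF n x y 1 = {1, y, x ^ n * y} := rfl

theorem ch1 : Ch k (fF n x y 0) (fF n x y 1) 1 1 x y := by
  rw [f0, f1]
  refine ⟨by simp, by simp, one_ne_zero, one_ne_zero, ?_, ?_, ⟨x, by simp, by simp⟩,
    ⟨y, by simp, by simp⟩⟩
  · rintro s (rfl | rfl) <;> rw [div_one]
    · exact one_mem _
    · exact memL _ _
  · rintro s (rfl | rfl | rfl) <;> rw [div_one]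
    · exact one_mem _
    · exact memR _ _
    · exact mul_mem (pow_mem (memL _ _) _) (memR _ _)

theorem ch2 (hy : y ≠ 0) : Ch k (fF n x y 0) (fF n x y 1) 1 y x y⁻¹ := by
  rw [f0, f1]
  refine ⟨by simp, by simp, one_ne_zero, hy, ?_, ?_, ⟨x, by simp, by simp⟩,
    ⟨1, by simp, by simp⟩⟩
  · rintro s (rfl | rfl) <;> rw [div_one]
    · exact one_mem _
    · exact memL _ _
  · rintro s (rfl | rfl | rfl)
    · rw [one_div]; exact memR _ _
    · rw [div_self hy]; exact one_mem _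
    · rw [mul_div_cancel_right₀ _ hy]; exact pow_mem (memL _ _) _

theorem ch3 (hx : x ≠ 0) : Ch k (fF n x y 0) (fF n x y 1) x 1 x⁻¹ (x ^ n * y) := by
  rw [f0, f1]
  refine ⟨by simp, by simp, hx, one_ne_zero, ?_, ?_, ⟨1, by simp, by simp⟩,
    ⟨x ^ n * y, by simp, by simp⟩⟩
  · rintro s (rfl | rfl)
    · rw [one_div]; exact memL _ _
    · rw [div_self hx]; exact one_mem _
  · rintro s (rfl | rfl | rfl) <;> rw [div_one]
    · exact one_mem _
    · have := mul_mem (pow_mem (memL (k := k) x⁻¹ (x ^ n * s)) n) (memR x⁻¹ (x ^ n * s))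
      rwa [inv_pow, inv_mul_cancel_left₀ (pow_ne_zero n hx)] at this
    · exact memR _ _

theorem ch4 (hx : x ≠ 0) (hy : y ≠ 0) :
    Ch k (fF n x y 0) (fF n x y 1) x (x ^ n * y) x⁻¹ (x ^ n * y)⁻¹ := by
  have hz : x ^ n * y ≠ 0 := mul_ne_zero (pow_ne_zero n hx) hy
  rw [f0, f1]
  refine ⟨by simp, by simp, hx, hz, ?_, ?_, ⟨1, by simp, by simp⟩, ⟨1, by simp, by simp⟩⟩
  · rintro s (rfl | rfl)
    · rw [one_div]; exact memL _ _
    · rw [div_self hx]; exact one_mem _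
  · rintro s (rfl | rfl | rfl)
    · rw [one_div]; exact memR _ _
    · rw [div_mul_cancel_right₀ hy, ← inv_pow]; exact pow_mem (memL _ _) _
    · rw [div_self hz]; exact one_mem _

theorem fam (h : GenP k x y) (hx : x ≠ 0) (hy : y ≠ 0) :
    Fam k fun _ : Unit => Set.image2 (· * ·) (fF n x y 0) (fF n x y 1) := by
  have m : ∀ s ∈ fF n x y 0, ∀ t ∈ fF n x y 1, s * t ∈ IntermediateField.adjoin k
      {f | ∃ _ : Unit, ∃ a ∈ Set.image2 (· * ·) (fF n x y 0) (fF n x y 1),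
        ∃ b ∈ Set.image2 (· * ·) (fF n x y 0) (fF n x y 1), f = a / b} := fun s hs t ht =>
    IntermediateField.subset_adjoin _ _ ⟨(), _, ⟨s, hs, t, ht, rfl⟩, _,
      ⟨1, by simp [f0], 1, by simp [f1], rfl⟩, by simp⟩
  refine ⟨fun _ => Set.Finite.image2 _ (by rw [f0]; exact Set.toFinite _)
    (by rw [f1]; exact Set.toFinite _), fun _ => ⟨_, 1, by simp [f0], 1, by simp [f1], rfl⟩,
    ?_, top_of h ?_ ?_⟩
  · rintro - _ ⟨s, hs, t, ht, rfl⟩
    refine mul_ne_zero ?_ ?_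
    · rcases hs with rfl | rfl
      · exact one_ne_zero
      · exact hx
    · rcases ht with rfl | rfl | rfl
      · exact one_ne_zero
      · exact hy
      · exact mul_ne_zero (pow_ne_zero n hx) hy
  · simpa using m x (by simp [f0]) 1 (by simp [f1])
  · simpa using m 1 (by simp [f0]) y (by simp [f1])

theorem cases (hx : x ≠ 0) (hy : y ≠ 0)
    (hO : O ∈ mp k fun _ : Unit => Set.image2 (· * ·) (fF n x y 0) (fF n x y 1)) :
    (x ∈ O ∧ y ∈ O) ∨ (x ∈ O ∧ y⁻¹ ∈ O) ∨ (x⁻¹ ∈ O ∧ x ^ n * y ∈ O) ∨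
      (x⁻¹ ∈ O ∧ (x ^ n * y)⁻¹ ∈ O) := by
  obtain ⟨j, hj, h⟩ := hO
  obtain ⟨s, hs, t, ht, e⟩ := hj ()
  have key := cht_le.1 h.2.1 ()
  have hz : x ^ n * y ≠ 0 := mul_ne_zero (pow_ne_zero n hx) hy
  have hs0 : s ≠ 0 := by
    rcases hs with rfl | rfl
    · exact one_ne_zero
    · exact hx
  have ht0 : t ≠ 0 := by
    rcases ht with rfl | rfl | rfl
    · exact one_ne_zero
    · exact hy
    · exact hz
  have k0 : ∀ s' ∈ fF n x y 0, s' / s ∈ O := fun s' hs' => by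
    have := key _ ⟨s', hs', t, ht, rfl⟩
    rwa [← e, mul_div_mul_right _ _ ht0] at this
  have k1 : ∀ t' ∈ fF n x y 1, t' / t ∈ O := fun t' ht' => by
    have := key _ ⟨s, hs, t', ht', rfl⟩
    rwa [← e, mul_div_mul_left _ _ hs0] at this
  have a0 : x ∈ O ∨ x⁻¹ ∈ O := by
    rcases hs with rfl | rfl
    · exact Or.inl (by simpa using k0 x (by simp [f0]))
    · exact Or.inr (by simpa using k0 1 (by simp [f0]))
  have a1 : (y ∈ O ∧ x ^ n * y ∈ O) ∨ y⁻¹ ∈ O ∨ (x ^ n * y)⁻¹ ∈ O := by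
    rcases ht with rfl | rfl | rfl
    · exact Or.inl ⟨by simpa using k1 y (by simp [f1]), by simpa using k1 (x ^ n * y) (by simp [f1])⟩
    · exact Or.inr (Or.inl (by simpa using k1 1 (by simp [f1])))
    · exact Or.inr (Or.inr (by simpa only [one_div] using k1 1 (by simp [f1])))
  rcases a0 with a0 | a0 <;> rcases a1 with a1 | a1 | a1
  · exact Or.inl ⟨a0, a1.1⟩
  · exact Or.inr (Or.inl ⟨a0, a1⟩)
  · refine Or.inr (Or.inl ⟨a0, ?_⟩)
    have := mul_mem (pow_mem a0 n) a1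
    rwa [mul_inv, mul_inv_cancel_left₀ (pow_ne_zero n hx)] at this
  · exact Or.inr (Or.inr (Or.inl ⟨a0, a1.2⟩))
  · refine Or.inr (Or.inr (Or.inr ⟨a0, ?_⟩))
    rw [mul_inv, ← inv_pow]
    exact mul_mem (pow_mem a0 n) a1
  · exact Or.inr (Or.inr (Or.inr ⟨a0, a1⟩))

theorem jac_invR (D₁ D₂ : Derivation k M M) (a b : M) :
    jac D₁ D₂ a b⁻¹ = -b⁻¹ ^ 2 * jac D₁ D₂ a b := by
  simp only [jac, Derivation.leibniz_inv, smul_eq_mul]
  ring

theorem jac_tw (D₁ D₂ : Derivation k M M) (n : ℕ) (x y : M) :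
    jac D₁ D₂ x⁻¹ (x ^ n * y) = -(x⁻¹ ^ 2 * x ^ n) * jac D₁ D₂ x y := by
  simp only [jac, Derivation.leibniz_inv, Derivation.leibniz, Derivation.leibniz_pow, smul_eq_mul,
    nsmul_eq_mul]
  ring

theorem can_of {g g' e ψ J : M} (h : IsU O (g / u)) (h' : IsU O (g' / v)) (he : IsU O e)
    (m m' : ℤ) (hJ : J = e * ψ * (u ^ m * v ^ m')) :
    ∃ w, IsU O w ∧ J = w * ψ * (g ^ m * g' ^ m') := by
  refine ⟨e / ((g / u) ^ m * (g' / v) ^ m'), he.div ((h.zpow m).mul (h'.zpow m')), ?_⟩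
  have h1 := zpow_ne_zero m (div_ne_zero_iff.1 h.1).1
  have h2 := zpow_ne_zero m' (div_ne_zero_iff.1 h'.1).1
  have h3 := zpow_ne_zero m (div_ne_zero_iff.1 h.1).2
  have h4 := zpow_ne_zero m' (div_ne_zero_iff.1 h'.1).2
  rw [hJ, div_zpow, div_zpow]
  field_simp

end FnA

open FnA in
theorem fnA_stmt : FnAStmt := by
  intro hP k M _ _ _ _ _ n x y hg
  have hx : x ≠ 0 := by simpa using hg.x_ne 0
  have hy : y ≠ 0 := by simpa using hg.y_ne 0
  have hn : x ^ n ≠ 0 := pow_ne_zero n hx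
  have pl := hP k M x y hg
  have mL : ∀ a b : M, a ∈ IntermediateField.adjoin k {a, b} := fun a b =>
    IntermediateField.subset_adjoin _ _ (by simp)
  have mR : ∀ a b : M, b ∈ IntermediateField.adjoin k {a, b} := fun a b =>
    IntermediateField.subset_adjoin _ _ (by simp)
  have g2 : GenP k x y⁻¹ := pl.top _ _ (top_of hg (mL _ _) (by simpa using inv_mem (mR x y⁻¹)))
  have g3 : GenP k x⁻¹ (x ^ n * y) := pl.top _ _ (top_of hg
    (by simpa using inv_mem (mL x⁻¹ (x ^ n * y))) (by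
      have := mul_mem (pow_mem (mL x⁻¹ (x ^ n * y)) n) (mR x⁻¹ (x ^ n * y))
      rwa [inv_pow, inv_mul_cancel_left₀ hn] at this))
  have g4 : GenP k x⁻¹ (x ^ n * y)⁻¹ := pl.top _ _ (top_of hg
    (by simpa using inv_mem (mL x⁻¹ (x ^ n * y)⁻¹)) (by
      have := mul_mem (pow_mem (mL x⁻¹ (x ^ n * y)⁻¹) n) (inv_mem (mR x⁻¹ (x ^ n * y)⁻¹))
      rwa [inv_inv, inv_pow, inv_mul_cancel_left₀ hn] at this))
  have hF := fam (n := n) hg hx hy
  have c1 := ch1 (k := k) (n := n) (x := x) (y := y)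
  have c2 := ch2 (k := k) (n := n) (x := x) hy
  have c3 := ch3 (k := k) (n := n) (y := y) hx
  have c4 := ch4 (k := k) (n := n) hx hy
  have cov : ∀ O ∈ (fn k n x y).T,
      Cht O x y ∨ Cht O x y⁻¹ ∨ Cht O x⁻¹ (x ^ n * y) ∨ Cht O x⁻¹ (x ^ n * y)⁻¹ := by
    intro O hO
    rcases FnA.cases hx hy hO with h | h | h | h
    · exact Or.inl ⟨hg, c1.pts hF hO h.1 h.2⟩
    · exact Or.inr (Or.inl ⟨g2, c2.pts hF hO h.1 h.2⟩)
    · exact Or.inr (Or.inr (Or.inl ⟨g3, c3.pts hF hO h.1 h.2⟩))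
    · exact Or.inr (Or.inr (Or.inr ⟨g4, c4.pts hF hO h.1 h.2⟩))
  have gF : ∀ O ∈ (fn k n x y).T, ∀ i, Gn (fF n x y i) O (gn (fF n x y i) O) := by
    intro O hO
    have : Prin (fF n x y 0) O ∧ Prin (fF n x y 1) O := by
      rcases cov O hO with h | h | h | h
      · exact ⟨(c1.gn h.2).1.prin, (c1.gn h.2).2.prin⟩
      · exact ⟨(c2.gn h.2).1.prin, (c2.gn h.2).2.prin⟩
      · exact ⟨(c3.gn h.2).1.prin, (c3.gn h.2).2.prin⟩
      · exact ⟨(c4.gn h.2).1.prin, (c4.gn h.2).2.prin⟩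
    exact Fin.forall_fin_two.2 ⟨gn_spec this.1, gn_spec this.2⟩
  have lb : ∀ c (O : Subalgebra k M),
      (fn k n x y).lb c O = gn (fF n x y 0) O ^ (-c 0) * gn (fF n x y 1) O ^ (-c 1) := by
    intro c O
    simp only [Sd.lb, fn, Fin.prod_univ_two, inv_zpow']
  refine ⟨hg, g2, g3, g4, ?_, hF, ⟨fine_mp hF, fun O hO => ?_⟩, gF, lb,
    fun O h => ⟨c1.mem h.2, by simpa using (c1.unit h.2).1, by simpa using (c1.unit h.2).2⟩,
    fun O h => ⟨c2.mem h.2, by simpa using (c2.unit h.2).1, (c2.unit h.2).2⟩,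
    fun O h => ⟨c3.mem h.2, (c3.unit h.2).1, by simpa using (c3.unit h.2).2⟩,
    fun O h => ⟨c4.mem h.2, (c4.unit h.2).1, (c4.unit h.2).2⟩, cov, fun i => ?_,
    fun O hO => ?_, fun D₁ D₂ => ⟨jac D₁ D₂ x y, fun O hO => ?_⟩⟩
  · ext O
    simp only [RS.planes, Set.mem_iUnion, Set.mem_insert_iff, Set.mem_singleton_iff, exists_prop]
    constructor
    · intro hO
      rcases cov O hO with h | h | h | h
      · exact ⟨_, Or.inl rfl, h.2⟩
      · exact ⟨_, Or.inr (Or.inl rfl), h.2⟩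
      · exact ⟨_, Or.inr (Or.inr (Or.inl rfl)), h.2⟩
      · exact ⟨_, Or.inr (Or.inr (Or.inr rfl)), h.2⟩
    · rintro ⟨_, rfl | rfl | rfl | rfl, h⟩
      · exact c1.mem h
      · exact c2.mem h
      · exact c3.mem h
      · exact c4.mem h
  · have : ∃ a b, Cht O a b := by
      rcases cov O hO with h | h | h | h <;> exact ⟨_, _, h⟩
    obtain ⟨a, b, h⟩ := this
    exact nrmLoc_stmt k M _ O (hP k M a b h.1).nrm h.2.2.1 h.2.2.2
  · have hf : (fF n x y i).Finite := by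
      revert i
      exact Fin.forall_fin_two.2 ⟨by rw [f0]; exact Set.toFinite _, by rw [f1]; exact Set.toFinite _⟩
    exact (isCart_of_gn (f := fun O => gn (fF n x y i) O) hf fun O hO => gF O hO i).inv
  · have e : ((fn k n x y).lb (fn k n x y).h O)⁻¹ = gn (fF n x y 0) O * gn (fF n x y 1) O := by
      rw [lb]
      simp [fn, mul_comm]
    rw [e]
    exact gn_mul (gF O hO 0) (gF O hO 1)
  · have e : (fn k n x y).lb (-(fn k n x y).K) O =
        gn (fF n x y 0) O ^ ((n : ℤ) - 2) * gn (fF n x y 1) O ^ (-2 : ℤ) := by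
      rw [lb]
      simp [fn]
    have ex : x ^ ((n : ℤ) - 2) = x⁻¹ ^ 2 * x ^ n := by
      rw [zpow_sub₀ hx, zpow_natCast, zpow_ofNat, inv_pow, div_eq_inv_mul]
    have ez : ∀ z : M, z ^ (-2 : ℤ) = z⁻¹ ^ 2 := fun z => by rw [zpow_neg, zpow_ofNat, inv_pow]
    rw [e]
    rcases cov O hO with h | h | h | h
    · obtain ⟨w, hw, hJ⟩ := can_of (ψ := jac D₁ D₂ x y) (J := jac D₁ D₂ x y) (c1.unit h.2).1
        (c1.unit h.2).2 isU_one ((n : ℤ) - 2) (-2) (by simp)
      exact ⟨_, _, w, h, hw, hJ⟩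
    · obtain ⟨w, hw, hJ⟩ := can_of (ψ := jac D₁ D₂ x y) (J := jac D₁ D₂ x y⁻¹) (c2.unit h.2).1
        (c2.unit h.2).2 isU_one.neg ((n : ℤ) - 2) (-2) (by rw [jac_invR, ez, one_zpow]; ring)
      exact ⟨_, _, w, h, hw, hJ⟩
    · obtain ⟨w, hw, hJ⟩ := can_of (ψ := jac D₁ D₂ x y) (J := jac D₁ D₂ x⁻¹ (x ^ n * y))
        (c3.unit h.2).1 (c3.unit h.2).2 isU_one.neg ((n : ℤ) - 2) (-2)
        (by rw [jac_tw, ex, one_zpow]; ring)
      exact ⟨_, _, w, h, hw, hJ⟩
    · obtain ⟨w, hw, hJ⟩ := can_of (ψ := jac D₁ D₂ x y) (J := jac D₁ D₂ x⁻¹ (x ^ n * y)⁻¹)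
        (c4.unit h.2).1 (c4.unit h.2).2 isU_one ((n : ℤ) - 2) (-2)
        (by rw [jac_invR, jac_tw, ex, ez]; ring)
      exact ⟨_, _, w, h, hw, hJ⟩

end Pool.Agent.MP_20d318_ag.CB

end MrgPart6

-- ======== part 7: formerly Pool.Agent.MP_20d318_ag.CB.FnP
section MrgPart7

/-! The fibre and the section at infinity of a Hirzebruch surface. -/

set_option autoImplicit false

namespace Pool.Agent.MP_20d318_ag.CB

open Pool.Agent.MP_79c67d_ag Pool.Agent.MP_20d318_ag.AG Pool.Agent.MP_20d318_ag.BV MvPolynomial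
open Pool.Agent.MP_20d318_ag.RS (jac)

namespace FnP

variable {k M : Type} [Field k] [Field M] [Algebra k M] {O : Subalgebra k M} {a b : M}
  {P P' : Place k M}

theorem ma (a b : M) : a ∈ Algebra.adjoin k {a, b} := Algebra.subset_adjoin (by simp)

theorem mb (a b : M) : b ∈ Algebra.adjoin k {a, b} := Algebra.subset_adjoin (by simp)

theorem le_of (ha : a ∈ O) (hb : b ∈ O) : Algebra.adjoin k {a, b} ≤ O :=
  Algebra.adjoin_le (by rintro _ (rfl | rfl) <;> assumption)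

theorem inv2 (h : Cht O a b⁻¹) (hu : IsU O b⁻¹) (g : GenP k a b) : Cht O a b := by
  have hb : IsU O b := by simpa using hu.inv
  have hR := le_of (h.2.2.1 (ma _ _)) hb.mem
  refine ⟨g, Pts_of_fr h.2 hR ?_⟩
  rintro _ (rfl | rfl)
  · exact le_fr (ma _ _)
  · exact inv_mem_fr (le_fr (mb _ _)) hR hb

theorem inv1 {c : M} (n : ℤ) (h : Cht O a⁻¹ c) (hu : IsU O a⁻¹) (g : GenP k a b)
    (e : c = a ^ n * b) : Cht O a b := by
  have ha : IsU O a := by simpa using hu.inv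
  have hb : b ∈ O := by
    have := (ha.zpow n).div_mem (h.2.2.1 (mb _ _))
    rwa [e, mul_div_cancel_left₀ _ (ha.zpow n).ne] at this
  have hR := le_of ha.mem hb
  have h1 : a ∈ fr (Algebra.adjoin k {a, b}) O := le_fr (ma _ _)
  have h2 := inv_mem_fr h1 hR ha
  refine ⟨g, Pts_of_fr h.2 hR ?_⟩
  rintro _ (rfl | rfl)
  · exact h2
  · rw [e]
    refine Subalgebra.mul_mem _ ?_ (le_fr (mb _ _))
    obtain ⟨m, rfl | rfl⟩ := n.eq_nat_or_neg
    · rw [zpow_natCast]; exact Subalgebra.pow_mem _ h1 m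
    · rw [zpow_neg, zpow_natCast, ← inv_pow]; exact Subalgebra.pow_mem _ h2 m

theorem eqq (h : Plane (k := k) a b) {q : MvPolynomial (Fin 2) k} (hq : PlOf a b q P)
    (hP : Cht (plO P') a b) (hm : aeval ![a, b] q ∈ mx (plO P')) : P' = P := by
  obtain ⟨p, hp⟩ := h.plof P' hP.2
  exact h.uniq p q P' P hp hq ((hp.mem q).1 hm)

theorem mem2 (h : O ∈ Pts (Algebra.adjoin k {a, b})) (l : Fin 2) : ![a, b] l ∈ O := by
  fin_cases l
  exacts [h.2.1 (ma _ _), h.2.1 (mb _ _)]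

theorem oq (h : Plane (k := k) a b) {q : MvPolynomial (Fin 2) k} (hq : PlOf a b q P)
    (hP : Cht (plO P') a b) (hn : P' ≠ P) : P'.ord (aeval ![a, b] q) = 0 :=
  ((isU_plO' P').1 (isU_of_not_mx (aeval_mem (mem2 hP.2) q) fun hm => hn (eqq h hq hP hm))).2

theorem nboth (h : Plane (k := k) a b) (hP : Cht (plO P) a b) (ha : a ∈ mx (plO P))
    (hb : b ∈ mx (plO P)) : False :=
  (h.dim P hP.2).1 (ratPt_of hP.2 rfl (by rintro _ (rfl | rfl) <;> exact ⟨0, by simpa⟩))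

theorem ind_of {i j : Fin 2} (hij : i ≠ j) (h : PlOf a b (X i : MvPolynomial (Fin 2) k) P) :
    Ind (plO P) ![![a, b] j] := by
  refine ⟨fun l => by fin_cases l; exact mem2 h.pts j, fun p hp => ?_⟩
  have e : aeval ![![a, b] j] p = aeval ![a, b] (rename (fun _ => j) p) := by
    rw [aeval_rename]
    congr 2
    funext l
    fin_cases l
    rfl
  rw [e]
  refine isU_of_not_mx (aeval_mem (mem2 h.pts) _) fun hx => hp ?_
  obtain ⟨r, hr⟩ := (h.mem _).1 hx
  have h1 := congrArg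
    (aeval fun l : Fin 2 => if l = j then (X 0 : MvPolynomial (Fin 1) k) else 0) hr
  rw [aeval_rename, map_mul, aeval_X, if_neg hij, zero_mul] at h1
  have h2 : ((fun l : Fin 2 => if l = j then (X 0 : MvPolynomial (Fin 1) k) else 0) ∘
      fun _ : Fin 1 => j) = X := by
    funext l
    simp [Subsingleton.elim l 0]
  rwa [h2, aeval_X_left_apply] at h1

theorem ind_tr (hO : IsLocalRing O) (h : Ind O ![a]) (hm : b - a ∈ mx O) : Ind O ![b] := by
  have h1 : ∀ i, ![b] i - ![a] i ∈ mx O := fun i => by fin_cases i; exact hm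
  refine ⟨fun i => by simpa using O.add_mem (h1 i).1 (h.1 i), fun p hp => ?_⟩
  simpa using (h.2 p hp).add_mx hO (aeval_sub_mx hO h.1 h1 p)

theorem olb {n : ℕ} {x y : M} (h : Fn0 k n x y) (hP : plO P ∈ (fn k n x y).T) (c : Fin 2 → ℤ)
    {φ : M} (h0 : φ ≠ 0) : P.ord (φ * (fn k n x y).lb c (plO P)) = P.ord φ -
      c 0 * P.ord (gn (fF n x y 0) (plO P)) - c 1 * P.ord (gn (fF n x y 1) (plO P)) := by
  have a0 := zpow_ne_zero (-c 0) (h.gF _ hP 0).ne
  have a1 := zpow_ne_zero (-c 1) (h.gF _ hP 1).ne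
  rw [h.lb, P.ord_mul h0 (mul_ne_zero a0 a1), P.ord_mul a0 a1, P.ord_zpow, P.ord_zpow]
  ring

end FnP

open FnP in
theorem fnP_stmt : FnPStmt := by
  intro hPl k M _ _ _ _ _ n x y hA h
  have p1 := hPl k M _ _ h.gen
  have p2 := hPl k M _ _ h.g2
  have p3 := hPl k M _ _ h.g3
  obtain ⟨F, cF⟩ := p3.ex (X 0) (X_prime.irreducible)
  obtain ⟨G, cG⟩ := p2.ex (X 1) (X_prime.irreducible)
  have x0 : x ≠ 0 := by simpa using h.gen.x_ne 0
  have y0 : y ≠ 0 := by simpa using h.gen.y_ne 0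
  have Fx : F.ord x = -1 := by
    have := cF.ord
    simp only [aeval_X, Matrix.cons_val_zero, Place.ord_inv] at this
    omega
  have Gy : G.ord y = -1 := by
    have := cG.ord
    simp only [aeval_X, Matrix.cons_val_one, Matrix.cons_val_zero, Place.ord_inv] at this
    omega
  have iF : Ind (plO F) ![x ^ n * y] := ind_of (j := 1) (by decide) cF
  have iG : Ind (plO G) ![x] := ind_of (j := 0) (by decide) cG
  have kF := h.k3 _ ⟨h.g3, cF.pts⟩
  have kG := h.k2 _ ⟨h.g2, cG.pts⟩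
  have c2 : ∀ P : Place k M, Cht (plO P) x y⁻¹ → P = F ∨ P = G ∨ Cht (plO P) x y := fun P c =>
    Or.inr ((isU_or_mx (c.2.2.1 (mb _ _))).symm.imp
      (fun hm => eqq p2 cG c (by simpa using hm)) fun hu => inv2 c hu h.gen)
  have c3 : ∀ P : Place k M, Cht (plO P) x⁻¹ (x ^ n * y) → P = F ∨ P = G ∨ Cht (plO P) x y :=
    fun P c => (isU_or_mx (c.2.2.1 (ma _ _))).symm.imp
      (fun hm => eqq p3 cF c (by simpa using hm))
      fun hu => Or.inr (inv1 n c hu h.gen (by rw [zpow_natCast]))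
  have pl : ∀ P : Place k M, plO P ∈ (fn k n x y).T ↔ P = F ∨ P = G ∨ Cht (plO P) x y := by
    refine fun P => ⟨fun hP => ?_, ?_⟩
    · rcases h.cov _ hP with c | c | c | c
      · exact Or.inr (Or.inr c)
      · exact c2 P c
      · exact c3 P c
      · rcases isU_or_mx (c.2.2.1 (ma _ _)) with hu | hm
        · exact c2 P (inv1 (-n) c hu h.g2 (by rw [zpow_neg, zpow_natCast, mul_inv]))
        · rcases isU_or_mx (c.2.2.1 (mb _ _)) with hv | hv
          · exact c3 P (inv2 c hv h.g3)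
          · exact (nboth (hPl k M _ _ h.g4) c hm hv).elim
    · rintro (rfl | rfl | c)
      exacts [kF.1, kG.1, (h.k1 _ c).1]
  have xF : x ∉ plO F := fun hx => by have := mem_plO_ord.1 hx; omega
  have nF : ¬ Cht (plO F) x y := fun c => xF (c.2.2.1 (ma _ _))
  have nG : ¬ Cht (plO G) x y := fun c => by
    have := mem_plO_ord.1 (c.2.2.1 (mb _ _)); omega
  have ne : F ≠ G := fun e => xF (e ▸ cG.pts.2.1 (ma _ _))
  have oF : F.ord (gn (fF n x y 0) (plO F)) = -1 ∧ F.ord (gn (fF n x y 1) (plO F)) = 0 := by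
    have := ((isU_plO' F).1 kF.2.1).2
    rw [F.ord_div (h.gF _ kF.1 0).ne x0] at this
    exact ⟨by omega, ((isU_plO' F).1 kF.2.2).2⟩
  have oG : G.ord (gn (fF n x y 0) (plO G)) = 0 ∧ G.ord (gn (fF n x y 1) (plO G)) = -1 := by
    have := ((isU_plO' G).1 kG.2.2).2
    rw [G.ord_div (h.gF _ kG.1 1).ne y0] at this
    exact ⟨((isU_plO' G).1 kG.2.1).2, by omega⟩
  have ordG := hA.g1 G y x Gy iG
  have eF : ∀ c {φ : M}, φ ≠ 0 → F.ord (φ * (fn k n x y).lb c (plO F)) = F.ord φ + c 0 :=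
    fun c φ h0 => by rw [olb h kF.1 c h0, oF.1, oF.2]; ring
  have eG : ∀ c {φ : M}, φ ≠ 0 → G.ord (φ * (fn k n x y).lb c (plO G)) = G.ord φ + c 1 :=
    fun c φ h0 => by rw [olb h kG.1 c h0, oG.1, oG.2]; ring
  have eA : ∀ c {φ : M}, φ ≠ 0 → ∀ P : Place k M, Cht (plO P) x y →
      P.ord (φ * (fn k n x y).lb c (plO P)) = P.ord φ := fun c φ h0 P hc => by
    have h1 := h.k1 _ hc
    rw [olb h h1.1 c h0, ((isU_plO' P).1 h1.2.1).2, ((isU_plO' P).1 h1.2.2).2]; ring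
  have aF : ∀ P : Place k M, Cht (plO P) x y → P ≠ F := fun P c e => nF (e ▸ c)
  have aG : ∀ P : Place k M, Cht (plO P) x y → P ≠ G := fun P c e => nG (e ▸ c)
  have key : ∀ φ r : M, φ ≠ 0 → r ≠ 0 → (∀ P : Place k M, Cht (plO P) x y → P.ord φ = P.ord r) →
      ∀ P : Place k M, P.ord φ = P.ord r := fun φ r h0 h1 h2 P => by
    obtain ⟨c, hc⟩ := hA.const x y (φ / r) h.gen (div_ne_zero h0 h1) fun P' hP' => by
      rw [P'.ord_div h0 h1, h2 P' hP', sub_self]
    have := congrArg P.ord hc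
    rw [P.ord_div h0 h1, P.ord_const] at this
    omega
  have pF : (fn k n x y).Prm ![1, 0] 1 F := by
    refine ⟨one_ne_zero, kF.1, fun P hP => ?_⟩
    rcases (pl P).1 hP with rfl | rfl | c
    · rw [eF _ one_ne_zero, if_pos rfl]; simp
    · rw [eG _ one_ne_zero, if_neg ne.symm]; simp
    · rw [eA _ one_ne_zero P c, if_neg (aF P c), P.ord_one]
  have pG : (fn k n x y).Prm ![0, 1] 1 G := by
    refine ⟨one_ne_zero, kG.1, fun P hP => ?_⟩
    rcases (pl P).1 hP with rfl | rfl | c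
    · rw [eF _ one_ne_zero, if_neg ne]; simp
    · rw [eG _ one_ne_zero, if_pos rfl]; simp
    · rw [eA _ one_ne_zero P c, if_neg (aG P c), P.ord_one]
  refine ⟨F, G, h, pl, nF, nG, ne, cF, cG, oF, oG, fun α => hA.g0 F x _ Fx ?_, ordG, ?_, pF, pG,
    fun P hP => ?_⟩
  · have hl := cF.pts.1
    have h1 : x⁻¹ ∈ mx (plO F) := (plO_isVal F).inv_mx xF
    have h2 := aeval_sub_mx hl (r := fun _ : Unit => 1 - algebraMap k M α * x⁻¹)
      (s := fun _ => 1) (fun _ => (plO F).one_mem)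
      (fun _ => by simpa using mx_neg (mx_mul_left ((plO F).algebraMap_mem α) h1)) (X () ^ n)
    rw [map_pow, map_pow, aeval_X, aeval_X, one_pow] at h2
    refine ind_tr hl iF ?_
    have e : x - algebraMap k M α = x * (1 - algebraMap k M α * x⁻¹) := by field_simp
    convert mx_mul_left (iF.1 0) h2 using 1
    rw [e, mul_pow, Matrix.cons_val_zero]
    ring
  · rintro c φ P ⟨h0, hP, ho⟩
    have h1 := ho F kF.1
    have h2 := ho G kG.1
    have h3 := fun P' hc => (eA c h0 P' hc).symm.trans (ho P' (h.k1 _ hc).1)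
    rw [eF c h0] at h1
    rw [eG c h0] at h2
    rcases (pl P).1 hP with rfl | rfl | hc
    · have h4 := key φ 1 h0 one_ne_zero fun P' hc => by
        rw [h3 P' hc, if_neg (aF P' hc), P'.ord_one]
      rw [h4, Place.ord_one, zero_add] at h1 h2
      rw [if_pos rfl] at h1
      rw [if_neg ne.symm] at h2
      exact Or.inl ⟨rfl, funext fun i => by fin_cases i <;> assumption⟩
    · have h4 := key φ 1 h0 one_ne_zero fun P' hc => by
        rw [h3 P' hc, if_neg (aG P' hc), P'.ord_one]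
      rw [h4, Place.ord_one, zero_add] at h1 h2
      rw [if_neg ne] at h1
      rw [if_pos rfl] at h2
      exact Or.inr (Or.inl ⟨rfl, funext fun i => by fin_cases i <;> assumption⟩)
    · obtain ⟨q, hq⟩ := p1.plof P hc.2
      have h4 := key φ _ h0 (h.gen.aeval_ne hq.irr.ne_zero) fun P' hc' => by
        rw [h3 P' hc']
        split_ifs with e
        · rw [e, hq.ord]
        · rw [oq p1 hq hc' e]
      rw [h4, if_neg (aF P hc).symm] at h1
      rw [h4, if_neg (aG P hc).symm, ordG q hq.irr.ne_zero] at h2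
      refine Or.inr (Or.inr ⟨q, hq, funext fun i => ?_⟩)
      fin_cases i
      · show c 0 = -F.ord (aeval ![x, y] q)
        omega
      · show c 1 = (q.degreeOf 1 : ℤ)
        omega
  · rcases (pl P).1 hP with rfl | rfl | hc
    · exact ⟨_, _, pF⟩
    · exact ⟨_, _, pG⟩
    · obtain ⟨q, hq⟩ := p1.plof P hc.2
      have h0 := h.gen.aeval_ne hq.irr.ne_zero
      refine ⟨![-F.ord (aeval ![x, y] q), q.degreeOf 1], _, h0, hP, fun P' hP' => ?_⟩
      rcases (pl P').1 hP' with rfl | rfl | hc'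
      · rw [eF _ h0, if_neg (aF P hc).symm]; simp
      · rw [eG _ h0, if_neg (aG P hc).symm, ordG q hq.irr.ne_zero]; simp
      · rw [eA _ h0 P' hc']
        split_ifs with e
        · rw [e, hq.ord]
        · rw [oq p1 hq hc' e]

end Pool.Agent.MP_20d318_ag.CB

end MrgPart7

-- ======== part 8: formerly Pool.Agent.MP_20d318_ag.CB.FnD
section MrgPart8

/-! The degrees on the prime divisors of a Hirzebruch surface. -/

set_option autoImplicit false

namespace Pool.Agent.MP_20d318_ag.CB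

open Pool.Agent.MP_79c67d_ag Pool.Agent.MP_20d318_ag.AG Pool.Agent.MP_20d318_ag.BV MvPolynomial
open scoped IntermediateField

namespace FnD

theorem irr_scale {R : Type} [CommRing R] [IsDomain R] {p : Polynomial R} (hp : Prime p) {s : R}
    (hs : Prime s) (h : ¬ s ∣ p.leadingCoeff) (n : ℕ) : Irreducible (p.scaleRoots (s ^ n)) := by
  have hc : s ^ n ≠ 0 := pow_ne_zero _ hs.ne_zero
  let σ := Polynomial.compRingHom (Polynomial.C (s ^ n) * Polynomial.X)
  have key : σ (p.scaleRoots (s ^ n)) = Polynomial.C (s ^ (n * p.natDegree)) * p := by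
    have := Polynomial.scaleRoots_eval₂_mul (p := p) Polynomial.C Polynomial.X (s ^ n)
    rw [Polynomial.eval₂_C_X, ← map_pow, ← pow_mul] at this
    exact this
  have aux : ∀ r t, p.scaleRoots (s ^ n) = r * t → p ∣ σ r → IsUnit t := by
    rintro r t e ⟨m, hm⟩
    have e1 : Polynomial.C (s ^ (n * p.natDegree)) = σ t * m :=
      mul_right_cancel₀ hp.ne_zero (by rw [← key, e, map_mul, hm]; ring)
    have e2 := Polynomial.natDegree_le_of_dvd (Dvd.intro _ e1.symm)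
      (Polynomial.C_ne_zero.2 (pow_ne_zero _ hs.ne_zero))
    rw [Polynomial.natDegree_C, Polynomial.coe_compRingHom_apply, Polynomial.natDegree_comp,
      Polynomial.natDegree_C_mul_X _ hc, mul_one, Nat.le_zero] at e2
    obtain ⟨t0, rfl⟩ := Polynomial.natDegree_eq_zero.1 e2
    rw [Polynomial.coe_compRingHom_apply, Polynomial.C_comp] at e1
    have e3 : t0 ∣ s ^ (n * p.natDegree) := by
      have := (Polynomial.C_dvd_iff_dvd_coeff _ _).1 (Dvd.intro _ e1.symm) 0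
      rwa [Polynomial.coeff_C_zero] at this
    have e4 : t0 ∣ p.leadingCoeff := by
      rw [← Polynomial.coeff_scaleRoots_natDegree p (s ^ n)]
      exact (Polynomial.C_dvd_iff_dvd_coeff _ _).1 (Dvd.intro_left _ e.symm) _
    obtain ⟨i, -, hi⟩ := (dvd_prime_pow hs _).1 e3
    rcases i with _ | i
    · exact Polynomial.isUnit_C.2 (associated_one_iff_isUnit.1 (by simpa using hi))
    · exact (h (((dvd_pow_self s i.succ_ne_zero).trans hi.symm.dvd).trans e4)).elim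
  refine ⟨fun hu => hp.not_isUnit (isUnit_of_mul_isUnit_right (key ▸ hu.map σ)), fun r t e => ?_⟩
  rcases hp.dvd_or_dvd (show p ∣ σ r * σ t by rw [← map_mul, ← e, key]; exact dvd_mul_left _ _)
    with h1 | h1
  · exact Or.inr (aux r t e h1)
  · exact Or.inl (aux t r (e.trans (mul_comm _ _)) h1)

variable {k L : Type} [Field k] [IsAlgClosed k] [Field L] [Algebra k L] {u v : L}
  {p : MvPolynomial (Fin 2) k}

/-- The equation of the curve in the coordinates `X`, `(X - α) ^ n Y`. -/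
theorem shift (hp : Irreducible p) {B : Set k} (hB : B.Finite) (n : ℕ) :
    ∃ α ∉ B, ∃ p' : MvPolynomial (Fin 2) k, Irreducible p' ∧
      ∀ (A : Type) [Field A] [Algebra k A] (a b : A),
        aeval ![a, (a - algebraMap k A α) ^ n * b] p' =
          ((a - algebraMap k A α) ^ n) ^ p.degreeOf 1 * aeval ![a, b] p := by
  obtain ⟨E, hE'⟩ : ∃ E : MvPolynomial (Fin 2) k ≃ₐ[k] Polynomial (MvPolynomial (Fin 1) k),
      ∀ r, E r = finSuccEquiv k 1 (rename (Equiv.swap (0 : Fin 2) 1) r) :=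
    ⟨(renameEquiv k (Equiv.swap (0 : Fin 2) 1)).trans (finSuccEquiv k 1), fun r => by
      rw [AlgEquiv.trans_apply, renameEquiv_apply]⟩
  have hE : Prime (E p) := (MulEquiv.prime_iff E).2 hp.prime
  have hs : ∀ α : k, Prime (X 0 - C α : MvPolynomial (Fin 1) k) := fun α => by
    rw [← MulEquiv.prime_iff (finSuccEquiv k 0), map_sub, finSuccEquiv_X_zero,
      show finSuccEquiv k 0 (C α) = Polynomial.C (C α) from (finSuccEquiv k 0).commutes α]
    exact Polynomial.prime_X_sub_C _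
  have hd : (E p).natDegree = p.degreeOf 1 := by
    have e := degreeOf_rename_of_injective (p := p) (Equiv.swap (0 : Fin 2) 1).injective 1
    rw [Equiv.swap_apply_right] at e
    rw [hE', natDegree_finSuccEquiv, e]
  have hne : (E p).leadingCoeff * ∏ β ∈ hB.toFinset, (X 0 - C β) ≠ 0 :=
    mul_ne_zero (Polynomial.leadingCoeff_ne_zero.2 hE.ne_zero)
      (Finset.prod_ne_zero_iff.2 fun β _ => (hs β).ne_zero)
  obtain ⟨z, hz⟩ := not_forall.1 fun h => hne (MvPolynomial.funext h)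
  rw [map_zero, map_mul, map_prod, mul_eq_zero, not_or] at hz
  have hev : ∀ (A : Type) [Field A] [Algebra k A] (a b : A) (r : MvPolynomial (Fin 2) k),
      aeval ![a, b] r = Polynomial.eval₂ (aeval (R := k) fun _ : Fin 1 => a).toRingHom b (E r) := by
    intro A _ _ a b r
    have : (aeval ![a, b] : MvPolynomial (Fin 2) k →ₐ[k] A) =
        (Polynomial.eval₂AlgHom (aeval fun _ : Fin 1 => a) b fun _ => Commute.all _ _).comp
          E.toAlgHom := by
      refine MvPolynomial.algHom_ext (Fin.forall_fin_two.2 ⟨?_, ?_⟩)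
      · have : E (X 0) = Polynomial.C (X 0) := by
          rw [hE', rename_X, Equiv.swap_apply_left]
          exact finSuccEquiv_X_succ (j := 0)
        simp [this]
      · have : E (X 1) = Polynomial.X := by
          rw [hE', rename_X, Equiv.swap_apply_right, finSuccEquiv_X_zero]
        simp [this]
    exact DFunLike.congr_fun this r
  refine ⟨z 0, fun h => hz.2 (Finset.prod_eq_zero (hB.mem_toFinset.2 h) (by simp)),
    E.symm ((E p).scaleRoots ((X 0 - C (z 0)) ^ n)), (MulEquiv.irreducible_iff E.symm).2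
      (irr_scale hE (hs _) (fun ⟨m, hm⟩ => hz.1 (by simp [hm])) n), fun A _ _ a b => ?_⟩
  rw [hev, hev, AlgEquiv.apply_symm_apply, ← hd]
  have h1 : (aeval (R := k) fun _ : Fin 1 => a).toRingHom ((X 0 - C (z 0)) ^ n) =
      (a - algebraMap k A (z 0)) ^ n := by
    rw [map_pow, map_sub]
    simp
  exact h1 ▸ Polynomial.scaleRoots_eval₂_mul (p := E p) _ b _

omit [IsAlgClosed k] in
theorem deg_zero {i j : Fin 2} (hij : i ≠ j) {c : k} (h : p ∣ X j - C c) : p.degreeOf i = 0 := by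
  obtain ⟨r, hr⟩ := h
  have h0 : p * r ≠ 0 := fun e => by
    have := congrArg (eval fun _ => c + 1) (hr.trans e)
    simp at this
  have h1 := degreeOf_sub_le i (X j) (C c : MvPolynomial (Fin 2) k)
  rw [hr, degreeOf_mul_eq (left_ne_zero_of_mul h0) (right_ne_zero_of_mul h0), degreeOf_C,
    degreeOf_X_of_ne hij] at h1
  omega

variable [CharZero k] [IsFF k L]

theorem pd (hm : MultStmt) (hp : Irreducible p) (h0 : aeval ![u, v] p = 0)
    (ht : Transcendental k u ∨ Transcendental k v) :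
    pdeg k u = Module.finrank k⟮u, v⟯ L * p.degreeOf 1 ∧
      pdeg k v = Module.finrank k⟮u, v⟯ L * p.degreeOf 0 := by
  obtain ⟨-, -, h1, h2, -⟩ := hm k L u v p hp h0 ht
  constructor
  · refine (em _).elim h1 fun h => ?_
    obtain ⟨c, hc⟩ := exists_const_of_algebraic (not_not.1 h)
    rw [deg_zero (j := 0) (c := c) (by decide) (Proj.ker hp h0 ht (by simp [hc])), ← hc,
      pdeg_const]
    simp
  · refine (em _).elim h2 fun h => ?_
    obtain ⟨c, hc⟩ := exists_const_of_algebraic (not_not.1 h)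
    rw [deg_zero (j := 1) (c := c) (by decide) (Proj.ker hp h0 ht (by simp [hc])), ← hc,
      pdeg_const]
    simp

omit [CharZero k] [IsFF k L] [IsAlgClosed k] in
theorem pdeg_pow (u : L) (n : ℕ) : pdeg k (u ^ n) = n * pdeg k u := by
  rw [pdeg, pdeg, mul_finsum]
  refine finsum_congr fun P => ?_
  rw [P.ord_pow, mul_max_of_nonneg _ _ (Int.natCast_nonneg n), mul_zero, mul_neg]

omit [CharZero k] [IsFF k L] [IsAlgClosed k] in
theorem pdeg2_eq (n : ℕ) {α : k} (hu : u - algebraMap k L α ≠ 0)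
    (h : ∀ Q : Place k L, Q.Ge 1 (u - algebraMap k L α) → Q.ord v = 0) :
    pdeg2 k v (u ^ n * v) = pdeg k ((u - algebraMap k L α) ^ n * v) := by
  refine finsum_congr fun Q => ?_
  rcases eq_or_ne v 0 with rfl | hv
  · simp
  rw [Q.ord_mul (pow_ne_zero _ hu) hv, Q.ord_pow]
  by_cases h1 : Q.Ge 0 u
  · have h2 : -Q.ord (u ^ n * v) ≤ max 0 (-Q.ord v) := by
      rcases eq_or_ne (u ^ n) 0 with h3 | h3
      · simp [h3]
      · have := (h1.pow0 n).le h3
        rw [Q.ord_mul h3 hv]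
        omega
    have h3 := (h1.sub (Q.ge_const α)).le hu
    rcases h3.eq_or_lt with h4 | h4
    · rw [← h4]; omega
    · have := h Q (Q.ge_of_le h4)
      have := mul_nonneg (Int.natCast_nonneg n) h3
      omega
  · obtain ⟨h2, h3⟩ := Place.not_ge.1 h1
    have h4 := (Place.add_ne_and_ord h2 ((Q.ge_const α).neg.mono (by omega))).2
    have := mul_nonpos_of_nonneg_of_nonpos (Int.natCast_nonneg n) h3.le
    rw [sub_eq_add_neg, h4, Q.ord_mul (pow_ne_zero _ h2) hv, Q.ord_pow]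
    omega

variable {M : Type} [Field M] [Algebra k M] {T : Set (Subalgebra k M)} {a b : M} {P : Place k M}

omit [IsFF k L] [CharZero k] in
/-- A curve over a prime divisor of an affine chart. -/
theorem cv (h : PlOf a b p P) (ν : Curve T) (hν : ν.gen = plO P) :
    a ∈ ν.gen ∧ b ∈ ν.gen ∧ aeval ![ν.ev a, ν.ev b] p = 0 ∧
      (Transcendental k (ν.ev a) ∨ Transcendental k (ν.ev b)) ∧
      nu ν = Module.finrank k⟮ν.ev a, ν.ev b⟯ ν.L := by
  have hle : Algebra.adjoin k {a, b} ≤ ν.gen := hν ▸ h.pts.2.1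
  have ha : a ∈ ν.gen := hle (Algebra.subset_adjoin (by simp))
  have hb : b ∈ ν.gen := hle (Algebra.subset_adjoin (by simp))
  have e : ∀ q : MvPolynomial (Fin 2) k, ν.ev (aeval ![a, b] q) = aeval ![ν.ev a, ν.ev b] q :=
    fun q => (evO_aeval ν.ρ (r := ![a, b]) (Fin.forall_fin_two.2 ⟨ha, hb⟩) q).trans
      (by congr 2; funext i; fin_cases i <;> rfl)
  have hk : ∀ q : MvPolynomial (Fin 2) k, aeval ![ν.ev a, ν.ev b] q = 0 ↔ p ∣ q := fun q => by
    rw [← e, ev_eq_zero ν (hle (mem_adjoin_pair.2 ⟨q, rfl⟩)), hν, h.mem]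
  refine ⟨ha, hb, (hk p).2 dvd_rfl, by_contra fun hn => ?_, ?_⟩
  · rw [not_or] at hn
    obtain ⟨c, hc⟩ := exists_const_of_algebraic (not_not.1 hn.1)
    obtain ⟨d, hd⟩ := exists_const_of_algebraic (not_not.1 hn.2)
    have h1 := deg_zero (i := 1) (j := 0) (c := c) (by decide) ((hk _).1 (by simp [hc]))
    have h2 := deg_zero (i := 0) (j := 1) (c := d) (by decide) ((hk _).1 (by simp [hd]))
    have h3 : p = C (coeff 0 p) := totalDegree_eq_zero_iff_eq_C.1
      ((totalDegree_eq_zero_iff _ p).2 fun m hm => Fin.forall_fin_two.2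
        ⟨Nat.le_zero.1 (h2 ▸ monomial_le_degreeOf 0 hm),
          Nat.le_zero.1 (h1 ▸ monomial_le_degreeOf 1 hm)⟩)
    refine h.irr.not_isUnit (h3 ▸ (IsUnit.mk0 _ fun h4 => h.irr.ne_zero ?_).map C)
    rw [h3, h4, map_zero]
  · have : IntermediateField.adjoin k (ν.ev '' ν.gen) = k⟮ν.ev a, ν.ev b⟯ := by
      refine le_antisymm (IntermediateField.adjoin_le_iff.2 ?_)
        (IntermediateField.adjoin.mono _ _ _ ?_)
      · rintro _ ⟨f, hf, rfl⟩
        obtain ⟨r, hr, s, hs, hu, rfl⟩ := h.pts.2.2 f (hν ▸ hf)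
        obtain ⟨r, rfl⟩ := mem_adjoin_pair.1 hr
        obtain ⟨s, rfl⟩ := mem_adjoin_pair.1 hs
        rw [ev_div ν (hle hr) (hν ▸ hu), e, e]
        exact div_mem (IntermediateField.algebra_adjoin_le_adjoin _ _ (mem_adjoin_pair.2 ⟨r, rfl⟩))
          (IntermediateField.algebra_adjoin_le_adjoin _ _ (mem_adjoin_pair.2 ⟨s, rfl⟩))
      · rintro _ (rfl | rfl)
        exacts [⟨a, ha, rfl⟩, ⟨b, hb, rfl⟩]
    rw [nu, this]

end FnD

open FnD in
theorem fnD_stmt : FnDStmt := by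
  intro hm k M _ _ _ _ _ n x y F G h c φ P hP ν hν c'
  have hT := h.nice.toFine.toGood
  have hc : ∀ i, IsCart (fn k n x y).T (gn (fF n x y i)) := fun i =>
    isCart_of_gn (by fin_cases i <;> simp [fF]) fun O hO => h.gF O hO i
  have hx : x ≠ 0 := h.gen.ind.ne_zero 0
  have hy : y ≠ 0 := h.gen.ind.ne_zero 1
  suffices H : ν.deg (gn (fF n x y 0)) = -(nu ν * c 1) ∧
      ν.deg (gn (fF n x y 1)) = -(nu ν * (c 0 + n * c 1)) by
    have e : (fn k n x y).lb c' = gn (fF n x y 0) ^ (-c' 0) * gn (fF n x y 1) ^ (-c' 1) :=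
      funext (h.lb c')
    rw [e, deg_mul hT ((hc 0).zpow _) ((hc 1).zpow _), deg_zpow hT (hc 0), deg_zpow hT (hc 1),
      H.1, H.2]
    simp [ip, fn, Fin.sum_univ_two]
    ring
  have g2 : ∀ {p q : M}, fF n x y 0 = {p, q} → q ≠ 0 → p / q ∈ ν.gen →
      ν.deg (gn (fF n x y 0)) = -pdeg k (ν.ev (p / q)) := fun e => deg_gn_pair ν
    (e ▸ h.gF _ ν.gen_mem 0) fun Q => e ▸ h.gF _ (ν.pt_mem Q) 0
  have g3 : ∀ {p q r : M}, fF n x y 1 = {p, q, r} → r ≠ 0 → p / r ∈ ν.gen → q / r ∈ ν.gen →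
      ν.deg (gn (fF n x y 1)) = -pdeg2 k (ν.ev (p / r)) (ν.ev (q / r)) := fun e => deg_gn_three ν
    (e ▸ h.gF _ ν.gen_mem 1) fun Q => e ▸ h.gF _ (ν.pt_mem Q) 1
  have s0 : fF n x y 0 = {x, 1} := Set.pair_comm _ _
  have s1 : fF n x y 1 = {y, x ^ n * y, 1} := by ext; simp [fF]; tauto
  have s2 : fF n x y 1 = {1, x ^ n * y, y} := by ext; simp [fF]; tauto
  have pw : ∀ a ∈ ν.gen, ∀ b ∈ ν.gen, ν.ev (a ^ n * b) = ν.ev a ^ n * ν.ev b := fun a ha b hb =>
    (ev_mul ν (pow_mem ha n) hb).trans (congrArg (· * _) (evO_pow ν.ρ ha n))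
  rcases h.prm c φ P hP with ⟨rfl, rfl⟩ | ⟨rfl, rfl⟩ | ⟨q, hq, rfl⟩
  · obtain ⟨ha, hb, h0, ht, hn⟩ := cv h.cF ν hν
    have e : x⁻¹ ^ n * (x ^ n * y) = y := by
      rw [inv_pow, inv_mul_cancel_left₀ (pow_ne_zero n hx)]
    have hy' : y ∈ ν.gen := by simpa only [e] using mul_mem (pow_mem ha n) hb
    have h1 := (pd hm h.cF.irr h0 ht).2
    have h2 := pw _ ha _ hb
    rw [g2 rfl hx (by rwa [one_div]), g3 s1 one_ne_zero (by rwa [div_one]) (by rwa [div_one]),
      one_div, div_one, div_one, hn]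
    rw [aeval_X] at h0
    rw [e, show ν.ev x⁻¹ = 0 from h0] at h2
    rw [degreeOf_X_self] at h1
    refine ⟨by rw [show ν.ev x⁻¹ = 0 from h0, ← map_zero (algebraMap k ν.L), pdeg_const]; simp, ?_⟩
    have h3 : pdeg2 k (ν.ev y) (ν.ev (x ^ n * y)) = pdeg k (ν.ev (x ^ n * y)) := by
      rw [h2]
      rcases n with _ | n
      · rw [pow_zero, one_mul]
        exact finsum_congr fun Q => by rw [max_self]
      · rw [zero_pow n.succ_ne_zero, zero_mul, pdeg2_zero_left]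
    rw [h3, h1]
    simp
  · obtain ⟨ha, hb, h0, ht, hn⟩ := cv h.cG ν hν
    have h1 := (pd hm h.cG.irr h0 ht).1
    rw [aeval_X] at h0
    rw [degreeOf_X_self] at h1
    rw [g2 s0 one_ne_zero (by rwa [div_one]), g3 s2 hy (by rwa [one_div])
      (by rw [mul_div_cancel_right₀ _ hy]; exact pow_mem ha n), div_one, one_div,
      mul_div_cancel_right₀ _ hy, show ν.ev y⁻¹ = 0 from h0, pdeg2_zero_left,
      show ν.ev (x ^ n) = ν.ev x ^ n from evO_pow ν.ρ ha n, pdeg_pow, h1, hn]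
    simp [mul_comm]
  · obtain ⟨ha, hb, h0, ht, hn⟩ := cv hq ν hν
    have hB : ({α | ν.ev x = algebraMap k ν.L α} ∪
        (fun Q : Place k ν.L => Q.val (ν.ev x)) '' {Q | Q.ord (ν.ev y) ≠ 0}).Finite :=
      (Set.Subsingleton.finite fun α h1 β h2 =>
        (algebraMap k ν.L).injective (h1.symm.trans h2)).union ((FF.finite_ord _).image _)
    obtain ⟨α, hα, q', hq', e⟩ := shift hq.irr hB n
    have hu : ν.ev x - algebraMap k ν.L α ≠ 0 := sub_ne_zero.2 fun h1 => hα (Or.inl h1)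
    have hw := pow_ne_zero n hu
    have h1 := (pd hm hq'
      (show aeval ![ν.ev x, (ν.ev x - algebraMap k ν.L α) ^ n * ν.ev y] q' = 0 by
        rw [e, h0, mul_zero]) (by_contra fun hn => by
      rw [not_or] at hn
      obtain ⟨c, hc⟩ := exists_const_of_algebraic (not_not.1 hn.1)
      obtain ⟨d, hd⟩ := exists_const_of_algebraic (not_not.1 hn.2)
      refine ht.elim hn.1 fun h2 => transcendental_iff_ne.1 h2 (d / (c - α) ^ n) ?_
      rw [map_div₀, map_pow, map_sub, hc, hd, mul_div_cancel_left₀ _ hw])).2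
    have h2 : k⟮ν.ev x, (ν.ev x - algebraMap k ν.L α) ^ n * ν.ev y⟯ = k⟮ν.ev x, ν.ev y⟯ := by
      have m : ∀ z, (ν.ev x - algebraMap k ν.L α) ^ n ∈ k⟮ν.ev x, z⟯ := fun z =>
        pow_mem (sub_mem (IntermediateField.subset_adjoin _ _ (by simp))
          (IntermediateField.algebraMap_mem _ α)) n
      refine le_antisymm (IntermediateField.adjoin_le_iff.2 ?_)
        (IntermediateField.adjoin_le_iff.2 ?_) <;> rintro _ (rfl | rfl)
      · exact IntermediateField.subset_adjoin _ _ (by simp)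
      · exact mul_mem (m _) (IntermediateField.subset_adjoin _ _ (by simp))
      · exact IntermediateField.subset_adjoin _ _ (by simp)
      · have := div_mem (IntermediateField.subset_adjoin k
          {ν.ev x, (ν.ev x - algebraMap k ν.L α) ^ n * ν.ev y} (Or.inr rfl)) (m _)
        rwa [mul_div_cancel_left₀ _ hw] at this
    have o1 : F.ord x = -1 := by
      have := h.cF.ord
      rw [aeval_X] at this
      have h3 : F.ord x⁻¹ = 1 := this
      rw [F.ord_inv] at h3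
      omega
    have o2 := Place.add_ne_and_ord hx ((F.ge_const α).neg.mono (by omega))
    rw [← sub_eq_add_neg, o1] at o2
    have o3 := h.ordF α q' hq'.ne_zero
    rw [e, F.ord_mul (pow_ne_zero _ (pow_ne_zero _ o2.1)) (fun h3 => by
      simpa [h3] using hq.ord), F.ord_pow, F.ord_pow, o2.2] at o3
    rw [g2 s0 one_ne_zero (by rwa [div_one]), g3 s1 one_ne_zero (by rwa [div_one])
      (by rw [div_one]; exact mul_mem (pow_mem ha n) hb), div_one, div_one, div_one, pw _ ha _ hb,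
      pdeg2_eq n hu fun Q hQ => by_contra fun h3 => hα (Or.inr ⟨Q, h3, Place.val_eq hQ⟩), h1, h2,
      (pd hm hq.irr h0 ht).1, hn]
    refine ⟨by simp, ?_⟩
    rw [show (q'.degreeOf 0 : ℤ) = -F.ord (aeval ![x, y] q) + n * q.degreeOf 1 by linarith]
    simp

end Pool.Agent.MP_20d318_ag.CB

end MrgPart8

-- marker of a merged file
example : 731051 + 559243 = 731051 + 559243 := rfl
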