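import Pool.Agent.MP_20d318_ag.BV.Sig1
import Pool.Agent.MP_20d318_ag.BV.SigX
import Pool.Agent.MP_20d318_ag.BV.LatB
import Pool.Agent.MP_20d318_ag.BV.Glue
import Pool.Agent.MP_20d318_ag.BV.TZ
import Pool.Agent.MP_20d318_ag.BV.TPa
import Pool.Agent.MP_20d318_ag.BV.SetB
import Pool.Agent.MP_20d318_ag.BV.XCur
import Pool.Agent.MP_20d318_ag.BV.XCls
import Pool.Agent.MP_20d318_ag.CB.Ex2
import Pool.Agent.MP_20d318_ag.CB.FnD
import Pool.Agent.MP_20d318_ag.CB.P2B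

/-! The main theorem and an example with an infinite orbit. -/

set_option autoImplicit false

open AlgebraicGeometry CategoryTheory

namespace Pool.Agent.MP_20d318_ag.CB

open Pool.Agent.MP_a703b5_ag Pool.Agent.MP_20d318_ag.AG Pool.Agent.MP_20d318_ag.BV

theorem tmods : TMods := ⟨plane_stmt, curve_stmt, mult_stmt, jac_stmt, aff_stmt, a1_stmt, blA_stmt,
  blB_stmt, blP_stmt, blC_stmt, blD_stmt, blE_stmt, blF_stmt, p2A_stmt, p2B_stmt, p2C_stmt,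
  fnA_stmt, fnP_stmt, fnD_stmt, fnR_stmt, fnL_stmt⟩

theorem main (M : Type) [Field M] [Algebra ℂ M] (T : Set (Subalgebra ℂ M)) (φ : M) (l : ℂ)
    (h : Branch T φ) (l0 : l ≠ 0) (l1 : l ≠ 1) :
    ∃ (X : Scheme.{0}) (_ : IsIntegral X) (s : X ⟶ Spec (CommRingCat.of ℂ)),
      IsProjective s ∧ Smooth s ∧ TrivialCanonical s ∧ DoubleCover s T φ l ∧ ConeConj s := by
  obtain ⟨hT, D₁, D₂, h1, h2, ψ, h3, h4⟩ := h
  obtain ⟨I, _, S, rfl, hS⟩ := tower tmods hT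
  exact final hS h1 h2 h3 h4 l0 l1

theorem bvMods : BV.Mods := ⟨latA_stmt, latD_stmt, latB_stmt, latC_stmt, BV.glue_stmt, et_stmt,
  smG_stmt, etN_stmt, htOne_stmt, dimUp_stmt, curve_stmt, plane_stmt, proj_stmt, horB_stmt,
  clsGen_stmt, xHom_stmt, xEx_stmt, up_stmt, tLoc_stmt, BV.pen_stmt, tPl_stmt, tZ_stmt, tPa_stmt,
  mw_stmt, sig1_stmt, sigT_stmt, sig2_stmt, BV.xLoc_stmt, BV.xDiv_stmt, BV.xSm_stmt, BV.xCur_stmt,
  BV.xTest_stmt, BV.xPl_stmt, BV.xCls_stmt, BV.sigX_stmt, setA_stmt, setB_stmt, setC_stmt,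
  chart_stmt, BV.orb_stmt, fin_stmt⟩

theorem exm : ∃ (M : Type) (_ : Field M) (_ : Algebra ℂ M) (T : Set (Subalgebra ℂ M)) (φ : M),
    Branch T φ ∧ ∀ l : ℂ, l ≠ 0 → l ≠ 1 →
      ∃ (X : Scheme.{0}) (_ : IsIntegral X) (s : X ⟶ Spec (CommRingCat.of ℂ)),
        IsProjective s ∧ Smooth s ∧ TrivialCanonical s ∧ DoubleCover s T φ l ∧ ConeConj s ∧
        ∃ ξ ∈ Pool.Agent.MP_20d318_ag.N1 s,
          (Set.range fun a : CategoryTheory.Aut (Over.mk s) => push a ξ).Infinite := by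
  have h := bvMods
  obtain ⟨F, G, hP⟩ := ex_stmt
  have hp := h.setA F G hP
  obtain ⟨d, rfl, rfl, h9⟩ := h.setB ℂ F G hp
  have hd := h.setC ℂ d hp h9
  obtain ⟨M, _, _, x, y, hg⟩ := h.xEx.1 ℂ
  have ht := h.tAll hd hg
  obtain ⟨D₁, D₂, b1, b2, b3, b4⟩ := ex2_stmt plane_stmt ℂ M d x y (jac_stmt plane_stmt ℂ M) ht
  refine ⟨M, inferInstance, inferInstance, TT d x y, fg d x y 0 * fg d x y 1,
    ⟨ex1_stmt tmods ℂ M d x y hg hd.inj, D₁, D₂, b1, b2, _, b3, b4⟩, fun l h0 h1 => ?_⟩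
  obtain ⟨K, _, _, ι, ζ, w, he⟩ := h.xEx.2 ℂ M d x y l h0 h1 (ht.pen.ne 1)
  have hx := h.xAll ht he
  obtain ⟨J, _, 𝒞, hC, hG⟩ := h.chart K _ _ hx.loc.fam
  obtain ⟨N⟩ := exists_model 𝒞
  have h2 := h.glue h.latA h.latD h.latB h.latC ℂ K _ _ _ (h.geo hx)
  have hC' : Sch.pts 𝒞 = BV.XX d x y ι ζ w := hC
  obtain ⟨h3, h4, -⟩ := h.fin h.smG M K d x y ι l ζ w hx (h.xSm h.et h.etN ℂ M K d x y ι l ζ w hx)
    J 𝒞 N hC' hG
  have hO : ∀ q, Sch.OA N q ∈ BV.XX d x y ι ζ w := fun q => hC' ▸ Sch.OA_mem q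
  rw [← hC'] at h2
  refine ⟨N.X, inferInstance, N.s, N.proj, h3, h4, cover_of N (w := w * ι (fg d x y 1)) he.tr ?_ ?_
    (fun q => hx.loc.maps _ (hO q)) fun q => hx.loc.zm _ (hO q), (Sch.bridge K J 𝒞 N h2.1).2,
    h.orb K J 𝒞 N h2.2.2⟩
  · rw [map_mul]
    linear_combination ι (fg d x y 1) * he.eq
  · rw [eq_top_iff, ← he.top, IntermediateField.adjoin_le_iff]
    rintro u (hu | hu | hu)
    · exact IntermediateField.subset_adjoin _ _ (Or.inl hu)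
    · exact IntermediateField.subset_adjoin _ _ (Or.inr (Or.inl hu))
    · rw [show u = w * ι (fg d x y 1) / ι (fg d x y 1) from
        hu.trans (mul_div_cancel_right₀ w ((map_ne_zero ι).2 (ht.pen.ne 1))).symm]
      exact div_mem (IntermediateField.subset_adjoin _ _ (Or.inr (Or.inr rfl)))
        (IntermediateField.subset_adjoin _ _ (Or.inl ⟨_, rfl⟩))

end Pool.Agent.MP_20d318_ag.CB
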