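import Pool.Agent.MP_20d318_ag.CB.Ct
import Pool.Agent.MP_20d318_ag.CB.Stmt0
import Pool.Agent.MP_20d318_ag.BV.Mw

-- ======== part 0: formerly Pool.Agent.MP_20d318_ag.CB.Spec
section MrgPart0

/-! Surfaces with a basis of the Picard group, pairs, and the threefold. -/

set_option autoImplicit false

namespace Pool.Agent.MP_20d318_ag.CB

open Pool.Agent.MP_79c67d_ag Pool.Agent.MP_20d318_ag.AG Pool.Agent.MP_20d318_ag.BV MvPolynomial
open Pool.Agent.MP_20d318_ag.RS (jac)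
open scoped IntermediateField

section general

variable {k M : Type} [Field k] [Field M] [Algebra k M] {I : Type} [Fintype I]

/-- Local rings of finite type. -/
def FT (O : Subalgebra k M) : Prop := ∃ G : Set M, G.Finite ∧ O ∈ Pts (Algebra.adjoin k G)

/-- The degree of a curve over its image. -/
noncomputable def nu {Y : Set (Subalgebra k M)} (ν : Curve Y) : ℕ :=
  Module.finrank (IntermediateField.adjoin k (ν.ev '' ν.gen)) ν.L

/-- The class that represents the degrees `d`. -/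
noncomputable def cls (B : I → I → ℤ) (d : (I → ℤ) → ℤ) : I → ℤ :=
  Classical.epsilon fun z => ∀ c, d c = ip B c z

/-- Twice the Euler characteristic. -/
def chi2 (B : I → I → ℤ) (K c : I → ℤ) : ℤ := ip B c c - ip B K c + 2

/-- The square of the maximal ideal. -/
def mx2 (O : Subalgebra k M) : AddSubmonoid M :=
  AddSubmonoid.closure (Set.image2 (· * ·) (mx O) (mx O))

/-- `(a, b)` are the coordinates of an affine plane that contains the point `O`. -/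
def Cht (O : Subalgebra k M) (a b : M) : Prop := GenP k a b ∧ O ∈ Pts (Algebra.adjoin k {a, b})

end general

/-- A surface with local equations of a basis of its Picard group. -/
structure Sd (k M I : Type) [Field k] [Field M] [Algebra k M] where
  /-- the functions of a projective embedding -/
  H : Set M
  /-- local equations of the basis -/
  g : I → Subalgebra k M → M
  /-- the Gram matrix -/
  B : I → I → ℤ
  /-- the canonical class -/
  K : I → ℤ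
  /-- the hyperplane class -/
  h : I → ℤ
  /-- the pull-back of an ample class of the minimal surface -/
  A : I → ℤ
  /-- the pull-back of the class of a line or a fibre -/
  f : I → ℤ

namespace Sd

variable {k M I : Type} [Field k] [Field M] [Algebra k M] [Fintype I] (S : Sd k M I)

/-- The surface. -/
def T : Set (Subalgebra k M) := mp k fun _ : Unit => S.H

/-- Local equations of a divisor of class `c`. -/
noncomputable def lb (c : I → ℤ) (O : Subalgebra k M) : M := ∏ i, S.g i O ^ c i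

/-- The sections of the class `c`. -/
def Sec (c : I → ℤ) : Submodule k M where
  carrier := {φ | ∀ O ∈ S.T, φ * S.lb c O ∈ O}
  add_mem' ha hb O hO := by rw [add_mul]; exact O.add_mem (ha O hO) (hb O hO)
  zero_mem' O _ := by rw [zero_mul]; exact O.zero_mem
  smul_mem' a φ h O hO := by rw [smul_mul_assoc]; exact O.smul_mem (h O hO) a

open Classical in
/-- `φ` defines the prime divisor `P`, of class `c`. -/
def Prm (c : I → ℤ) (φ : M) (P : Place k M) : Prop := φ ≠ 0 ∧ plO P ∈ S.T ∧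
  ∀ P' : Place k M, plO P' ∈ S.T → P'.ord (φ * S.lb c (plO P')) = if P' = P then 1 else 0

/-- The classes of prime divisors. -/
def PP : Set (I → ℤ) := {c | ∃ φ P, S.Prm c φ P}

/-- Effective classes. -/
def Ef : AddSubmonoid (I → ℤ) := AddSubmonoid.closure S.PP

/-- The class of a prime divisor. -/
noncomputable def cl (P : Place k M) : I → ℤ := Classical.epsilon fun c => ∃ φ, S.Prm c φ P

/-- Globally generated classes. -/
def GG (c : I → ℤ) : Prop :=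
  ∃ U : Set M, U.Finite ∧ (∀ a ∈ U, a ≠ 0) ∧ ∀ O ∈ S.T, Gn U O (S.lb c O)⁻¹

/-- The degrees of a curve, as a class. -/
noncomputable def zz {Y : Set (Subalgebra k M)} (ν : Curve Y) : I → ℤ :=
  cls S.B fun c => ν.deg (S.lb c)

/-- The dimension of the space of sections. -/
noncomputable def h0 (c : I → ℤ) : ℤ := Module.finrank k (S.Sec c)

theorem mem_Sec {c : I → ℤ} {φ : M} : φ ∈ S.Sec c ↔ ∀ O ∈ S.T, φ * S.lb c O ∈ O := Iff.rfl

theorem lb_zero (O : Subalgebra k M) : S.lb 0 O = 1 := by simp [lb]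

theorem lb_ne {O : Subalgebra k M} (h : ∀ i, S.g i O ≠ 0) (c : I → ℤ) : S.lb c O ≠ 0 :=
  Finset.prod_ne_zero_iff.2 fun i _ => zpow_ne_zero _ (h i)

theorem lb_add {O : Subalgebra k M} (h : ∀ i, S.g i O ≠ 0) (c c' : I → ℤ) :
    S.lb (c + c') O = S.lb c O * S.lb c' O := by
  simp only [lb, Pi.add_apply, zpow_add₀ (h _), Finset.prod_mul_distrib]

theorem lb_zsmul (O : Subalgebra k M) (n : ℤ) (c : I → ℤ) : S.lb (n • c) O = S.lb c O ^ n := by
  simp only [lb, Pi.smul_apply, smul_eq_mul, ← Finset.prod_zpow, ← zpow_mul, mul_comm]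

theorem lb_neg (O : Subalgebra k M) (c : I → ℤ) : S.lb (-c) O = (S.lb c O)⁻¹ := by
  rw [← neg_one_zsmul, lb_zsmul, zpow_neg_one]

theorem lb_sub {O : Subalgebra k M} (h : ∀ i, S.g i O ≠ 0) (c c' : I → ℤ) :
    S.lb (c - c') O = S.lb c O / S.lb c' O := by
  rw [sub_eq_add_neg, lb_add S h, lb_neg, div_eq_mul_inv]

theorem lb_sum {O : Subalgebra k M} (h : ∀ i, S.g i O ≠ 0) {α : Type} (s : Finset α)
    (c : α → I → ℤ) : S.lb (∑ x ∈ s, c x) O = ∏ x ∈ s, S.lb (c x) O := by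
  classical
  induction s using Finset.induction_on with
  | empty => simp [lb_zero]
  | insert a s ha ih => rw [Finset.sum_insert ha, Finset.prod_insert ha, lb_add S h, ih]

theorem lb_cart {X : Set (Subalgebra k M)} (h : ∀ i, IsCart X (S.g i)) (c : I → ℤ) :
    IsCart X (S.lb c) := by
  have e : S.lb c = ∏ i, S.g i ^ c i := by funext O; simp [lb]
  rw [e]
  exact isCart_prod fun i _ => (h i).zpow _

end Sd

/-! ### General rows -/

/-- Derivations of the field of rational functions in two variables. -/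
structure Jc (k M : Type) [Field k] [Field M] [Algebra k M] : Prop where
  mem : ∀ (O : Subalgebra k M) (a b : M), Cht O a b → ∀ c ∈ O, ∃ p ∈ O, ∃ q ∈ O,
    ∀ D : Derivation k M M, D c = p * D a + q * D b
  jacM : ∀ (O : Subalgebra k M) (a b : M), Cht O a b → ∀ c ∈ O, ∀ d ∈ O, ∃ J ∈ O,
    ∀ D₁ D₂ : Derivation k M M, jac D₁ D₂ c d = J * jac D₁ D₂ a b
  jacU : ∀ (O : Subalgebra k M) (a b c d : M), Cht O a b → Cht O c d → ∃ u, IsU O u ∧
    ∀ D₁ D₂ : Derivation k M M, jac D₁ D₂ c d = u * jac D₁ D₂ a b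
  ne : ∀ (D₁ D₂ : Derivation k M M) (x y a b : M), GenP k x y → jac D₁ D₂ x y ≠ 0 →
    AlgebraicIndependent k ![a, b] → jac D₁ D₂ a b ≠ 0
  lin : ∀ (D₁ D₂ : Derivation k M M) (a r : M), ∃ D : Derivation k M M,
    ∀ f, D f = r * jac D₁ D₂ a f
  alg : ∀ (D : Derivation k M M) (t r : M), D t = 0 → IsAlgebraic k⟮t⟯ r → D r = 0
  hom : ∀ (D₁ D₂ : Derivation k M M) (x y : M), GenP k x y → ∀ (σ : M ≃ₐ[k] M) (a b c d : M),
    σ (jac D₁ D₂ a b) * jac D₁ D₂ (σ c) (σ d) = σ (jac D₁ D₂ c d) * jac D₁ D₂ (σ a) (σ b)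
  chain : ∀ (D₁ D₂ : Derivation k M M) (x y : M), GenP k x y → jac D₁ D₂ x y ≠ 0 →
    ∀ (K : Type) [Field K] [Algebra k K] (ι : M →ₐ[k] K) (D : Derivation k K (Fin 3 → K)) (a : M),
      D (ι a) = ι (jac D₁ D₂ a y / jac D₁ D₂ x y) • D (ι x) +
        ι (jac D₁ D₂ x a / jac D₁ D₂ x y) • D (ι y)

/-- JAC. -/
def JacStmt : Prop := PlaneStmt → ∀ (k M : Type) [Field k] [CharZero k] [IsAlgClosed k] [Field M]
  [Algebra k M], Jc k M

/-- DIV: a valuation with a transcendental residue is a place of finite type. -/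
def DivStmt : Prop := ∀ (k M : Type) [Field k] [CharZero k] [IsAlgClosed k] [Field M]
  [Algebra k M] (x y a : M) (V : Subalgebra k M), GenP k x y → IsVal V → V ≠ ⊤ → Ind V ![a] →
    FT V ∧ ∃ P : Place k M, plO P = V

/-- RES: over a point where an ideal is not principal there is a curve of the blow-up. -/
def ResStmt : Prop := ∀ (k M : Type) [Field k] [Field M] [Algebra k M] (O : Subalgebra k M)
  (S : Set M), IsLocalRing O → Nrm O → Frac O → RatPt O → S.Finite → S.Nonempty →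
  (∀ a ∈ S, a ≠ 0) → ¬ Prin S O → ∃ V : Subalgebra k M, IsVal V ∧ Dom O V ∧ ∃ j ∈ S,
    (∀ a ∈ S, a / j ∈ V) ∧ ∃ a ∈ S, Ind V ![a / j]

/-- Derivatives along a prime divisor. -/
structure Dr {k M : Type} [Field k] [Field M] [Algebra k M] (D₁ D₂ : Derivation k M M)
    (P : Place k M) (a π : M) : Prop where
  ne : jac D₁ D₂ a π ≠ 0
  mem : ∀ c ∈ plO P, ∀ d ∈ plO P, jac D₁ D₂ c d / jac D₁ D₂ a π ∈ plO P
  ge : ∀ c d, c ≠ 0 → d ≠ 0 → P.Ge (P.ord c + P.ord d - 1) (jac D₁ D₂ c d / jac D₁ D₂ a π)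
  eq : ∀ d, P.ord d ≠ 0 → jac D₁ D₂ a d ≠ 0 ∧
    P.ord (jac D₁ D₂ a d / jac D₁ D₂ a π) = P.ord d - 1

/-- DER. -/
def DerStmt : Prop := ∀ (k M : Type) [Field k] [CharZero k] [IsAlgClosed k] [Field M]
  [Algebra k M] (D₁ D₂ : Derivation k M M) (x y a π : M) (P : Place k M), Jc k M → GenP k x y →
  jac D₁ D₂ x y ≠ 0 → FT (plO P) → Ind (plO P) ![a] → P.ord π = 1 → Dr D₁ D₂ P a π

open Classical in
/-- MULT: degree and multiplicity of a plane curve, with the degree of the parametrization. -/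
def MultStmt : Prop := ∀ (k L : Type) [Field k] [CharZero k] [IsAlgClosed k] [Field L]
  [Algebra k L] [IsFF k L] (u v : L) (p : MvPolynomial (Fin 2) k), Irreducible p →
  aeval ![u, v] p = 0 → (Transcendental k u ∨ Transcendental k v) →
    0 < Module.finrank k⟮u, v⟯ L ∧ pdeg2 k u v = Module.finrank k⟮u, v⟯ L * p.totalDegree ∧
    (Transcendental k u → pdeg k u = Module.finrank k⟮u, v⟯ L * p.degreeOf 1) ∧
    (Transcendental k v → pdeg k v = Module.finrank k⟮u, v⟯ L * p.degreeOf 0) ∧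
    ∀ m : ℕ, IsOrd p 0 0 m → ∀ e : Place k L → ℤ,
      (∀ Q : Place k L, ¬ (Q.Ge 1 u ∧ Q.Ge 1 v) → e Q = 0) →
      (∀ Q : Place k L, Q.Ge 1 u → Q.Ge 1 v → ∀ n, n ≤ e Q ↔ Q.Ge n u ∧ Q.Ge n v) →
        ∑ᶠ Q, e Q = Module.finrank k⟮u, v⟯ L * m

/-! ### Surfaces -/

section surface

variable {k M I : Type} [Field k] [Field M] [Algebra k M] [Fintype I] (S : Sd k M I)

/-- The local structure and the degrees. -/
structure Surf0 : Prop where
  fam : Fam k fun _ : Unit => S.H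
  cartg : ∀ i, IsCart S.T (S.g i)
  gH : ∀ O ∈ S.T, Gn S.H O (S.lb S.h O)⁻¹
  can : ∀ D₁ D₂ : Derivation k M M, ∃ ψ : M, ∀ O ∈ S.T, ∃ a b u, Cht O a b ∧ IsU O u ∧
    jac D₁ D₂ a b = u * ψ * S.lb (-S.K) O
  sym : ∀ i j, S.B i j = S.B j i
  all : ∀ P : Place k M, plO P ∈ S.T → ∃ c φ, S.Prm c φ P
  deg : ∀ c φ P, S.Prm c φ P → ∀ ν : Curve S.T, ν.gen = plO P → ∀ c',
    ν.deg (S.lb c') = nu ν * ip S.B c' c
  span : ∀ c, (∀ c' ∈ S.PP, ip S.B c c' = 0) → c = 0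

/-- The lattice. -/
structure SurfL : Prop where
  hodge : Hodge S.B
  par : ∀ c, Even (ip S.B c c + ip S.B S.K c)
  noe : ip S.B S.K S.K + Fintype.card I = 10
  Kf : -3 ≤ ip S.B S.K S.f
  Af : 0 < ip S.B S.A S.f

/-- The spaces of sections. -/
structure SurfR : Prop where
  fd : ∀ c, FiniteDimensional k (S.Sec c)
  rr : ∀ c, -1 ≤ ip S.B c S.f → chi2 S.B S.K c ≤ 2 * S.h0 c
  ub : ∀ t : ℤ, 3 ≤ t → 2 * S.h0 (S.K + t • S.A) ≤ chi2 S.B S.K (S.K + t • S.A)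

/-- The structure that is stable under blow-up. -/
structure Surf : Prop extends Surf0 S, SurfL S, SurfR S where
  adjc : ∀ c φ P, S.Prm c φ P → 0 < ip S.B S.A c ∨ (ip S.B c c + ip S.B S.K c = -2 ∧
    ∀ O ∈ S.T, Crd O (φ * S.lb c O))
  dif : ∀ c, ∃ c', S.GG c' ∧ S.GG (c' + c)

/-- Points, prime divisors and curves. -/
structure A1 : Prop where
  nice : Nice S.T
  gne : ∀ O ∈ S.T, ∀ i, S.g i O ≠ 0
  cart : ∀ c, IsCart S.T (S.lb c)
  chart : ∀ O ∈ S.T, ∃ a b, Cht O a b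
  cen : ∀ O ∈ S.T, RatPt O → ∃ a ∈ mx O, ∃ b ∈ mx O, Cht O a b
  tri : ∀ O ∈ S.T, O = ⊤ ∨ RatPt O ∨ ∃ P : Place k M, plO P = O
  dim : ∀ P : Place k M, plO P ∈ S.T → ¬ RatPt (plO P) ∧ Dim (plO P) 1
  ind : ∀ P : Place k M, plO P ∈ S.T → ∀ a ∈ plO P, Ind (plO P) ![a] ∨
    ∃ c : k, a - algebraMap k M c ∈ mx (plO P)
  pcart : ∀ c φ, φ ≠ 0 → IsCart S.T fun O => φ * S.lb c O
  pmem : ∀ c φ P, S.Prm c φ P → φ ∈ S.Sec c
  pmx : ∀ c φ P, S.Prm c φ P → ∀ R ∈ S.T, φ * S.lb c R ∈ mx R ↔ R ≤ plO P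
  peq : ∀ c φ P, S.Prm c φ P → ∀ P' : Place k M, plO P' ∈ S.T →
    φ * S.lb c (plO P') ∈ mx (plO P') → P' = P
  cur : ∀ P : Place k M, plO P ∈ S.T → ∃ ν : Curve S.T, ν.gen = plO P ∧ nu ν = 1 ∧
    ∀ z : ν.L, ∃ a ∈ plO P, ν.ev a = z
  nupos : ∀ (ν : Curve S.T) (P : Place k M), ν.gen = plO P → 0 < nu ν
  cases : ∀ ν : Curve S.T, RatPt ν.gen ∨ ∃ P : Place k M, ν.gen = plO P
  pt : ∀ (ν : Curve S.T), ∀ O ∈ S.T, O ≤ ν.gen → O ≠ ν.gen → ∃ Q, ν.pt Q = O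
  zzd : ∀ (ν : Curve S.T) c, ν.deg (S.lb c) = ip S.B c (S.zz ν)
  zz0 : ∀ ν : Curve S.T, RatPt ν.gen → S.zz ν = 0
  zz1 : ∀ c φ P, S.Prm c φ P → ∀ ν : Curve S.T, ν.gen = plO P → S.zz ν = nu ν • c
  zero : ∀ c φ, (∀ O ∈ S.T, IsU O (φ * S.lb c O)) → c = 0
  uniq : ∀ c c' φ φ' P, S.Prm c φ P → S.Prm c' φ' P → c = c'
  hpos : ∀ c ∈ S.PP, 0 < ip S.B S.h c

/-- Divisors and their classes. -/
structure A2 : Prop where
  cl : ∀ P : Place k M, plO P ∈ S.T → ∃ φ, S.Prm (S.cl P) φ P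
  clp : ∀ c φ P, S.Prm c φ P → S.cl P = c
  dv : ∀ c φ (s : Finset (Place k M)), φ ≠ 0 → (∀ P ∈ s, plO P ∈ S.T) →
    (∀ P : Place k M, plO P ∈ S.T → P ∉ s → P.ord (φ * S.lb c (plO P)) = 0) →
    c = ∑ P ∈ s, P.ord (φ * S.lb c (plO P)) • S.cl P
  pic : ∀ f, IsCart S.T f → ∃ c φ, φ ≠ 0 ∧ ∀ O ∈ S.T, IsU O (φ * S.lb c O / f O)
  eff1 : ∀ c, ∀ φ ∈ S.Sec c, φ ≠ 0 → c ∈ S.Ef
  eff2 : ∀ c ∈ S.Ef, ∃ φ ∈ S.Sec c, φ ≠ 0
  const : ∀ φ : M, (∀ O ∈ S.T, φ ∈ O) → ∃ a : k, φ = algebraMap k M a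
  sub : ∀ c φ P, S.Prm c φ P → ∀ D, ∀ ψ ∈ S.Sec D, ψ * S.lb D (plO P) ∈ mx (plO P) →
    ψ / φ ∈ S.Sec (D - c)
  mul : ∀ D D', ∀ ψ ∈ S.Sec D, ∀ ψ' ∈ S.Sec D', ψ * ψ' ∈ S.Sec (D + D')
  nn : ∀ c φ P, S.Prm c φ P → ∀ D, ∀ ψ ∈ S.Sec D, IsU (plO P) (ψ * S.lb D (plO P)) →
    0 ≤ ip S.B D c ∧ (ip S.B D c = 0 ↔ ∀ O ∈ S.T, O ≤ plO P → IsU O (ψ * S.lb D O))
  pos : ∀ c ∈ S.PP, ∀ c' ∈ S.PP, c ≠ c' → 0 ≤ ip S.B c c'
  gg : ∀ c, S.GG c → ∀ c' ∈ S.PP, 0 ≤ ip S.B c c'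
  heff : S.h ∈ S.Ef
  den : ∀ m : M, ∃ c μ, μ ≠ 0 ∧ μ ∈ S.Sec c ∧ μ * m ∈ S.Sec c
  mor : ∀ (a μ : M) z, (∀ O ∈ S.T, Gn {a, 1} O (μ * S.lb z O)⁻¹) → ∀ c φ P, S.Prm c φ P →
    (ip S.B z c ≠ 0 ↔ Ind (plO P) ![a])

/-- Restriction to a prime divisor. -/
structure A3 : Prop where
  res : ∀ c φ P, S.Prm c φ P → ∀ D, S.h0 D ≤ S.h0 (D - c) + max 0 (ip S.B D c + 1)
  res2 : ∀ c φ P, S.Prm c φ P → ∀ D, S.h0 (D - c) + 2 ≤ S.h0 D → ∃ s ∈ S.Sec D, ∃ s' ∈ S.Sec D,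
    IsU (plO P) (s' * S.lb D (plO P)) ∧ Ind (plO P) ![s / s']

/-- Riemann–Roch and adjunction. -/
structure A4 : Prop where
  rr2 : ∀ c, S.K - c ∉ S.Ef → chi2 S.B S.K c ≤ 2 * S.h0 c
  rr : ∀ c, ip S.B S.K c ≤ ip S.B c c → c ∈ S.Ef ∨ S.K - c ∈ S.Ef
  adj : ∀ c ∈ S.PP, -2 ≤ ip S.B c c + ip S.B S.K c

/-- Everything about the surface. -/
structure SAll : Prop where
  s : Surf S
  a1 : A1 S
  a2 : A2 S
  a3 : A3 S
  a4 : A4 S
  jc : Jc k M

/-- A regular vector field is tangent to the negative curves. -/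
def VF : Prop := ∀ v : Derivation k M M, (∀ O ∈ S.T, ∀ f ∈ O, v f ∈ O) → ∀ c φ P, S.Prm c φ P →
  ip S.B c c < 0 → v (φ * S.lb c (plO P)) ∈ mx (plO P)

/-- `σ` is an automorphism of the surface. -/
def Inv (σ : M ≃ₐ[k] M) : Prop := ∀ O, O ∈ S.T ↔ O.comap (σ : M →ₐ[k] M) ∈ S.T

/-- `ρ` is the action of `σ` on divisor classes. -/
def Rep (σ : M ≃ₐ[k] M) (ρ : Matrix I I ℤ) : Prop := ∀ c, ∃ μ : M, μ ≠ 0 ∧ ∀ O ∈ S.T,
  IsU O (σ (S.lb c (O.comap (σ : M →ₐ[k] M))) / (μ * S.lb (act ρ c) O))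

/-- The action of an automorphism on prime divisors. -/
structure Ac (σ : M ≃ₐ[k] M) (ρ : Matrix I I ℤ) : Prop where
  inv : Inv S σ
  rep : Rep S σ ρ
  prm : ∀ c φ P, S.Prm c φ P → ∃ φ' P', S.Prm (act ρ c) φ' P' ∧ ∀ m, P'.ord (σ m) = P.ord m
  iso : ∀ c', ∀ c ∈ S.PP, ip S.B (act ρ c') (act ρ c) = ip S.B c' c

end surface

/-- A1. -/
def A1Stmt : Prop := PlaneStmt → CurveStmt → ∀ (k M I : Type) [Field k] [CharZero k]
  [IsAlgClosed k] [Field M] [Algebra k M] [Fintype I] (S : Sd k M I), Surf0 S → A1 S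

/-- A2. -/
def A2Stmt : Prop := ∀ (k M I : Type) [Field k] [CharZero k] [IsAlgClosed k] [Field M]
  [Algebra k M] [Fintype I] (S : Sd k M I), Surf0 S → A1 S → A2 S

/-- A3. -/
def A3Stmt : Prop := ∀ (k M I : Type) [Field k] [CharZero k] [IsAlgClosed k] [Field M]
  [Algebra k M] [Fintype I] (S : Sd k M I), Surf S → A1 S → A2 S → A3 S

/-- A4. -/
def A4Stmt : Prop := ∀ (k M I : Type) [Field k] [CharZero k] [IsAlgClosed k] [Field M]
  [Algebra k M] [Fintype I] (S : Sd k M I), Surf S → A1 S → A2 S → A3 S → A4 S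

/-- VF. -/
def VfStmt : Prop := ∀ (k M I : Type) [Field k] [CharZero k] [IsAlgClosed k] [Field M]
  [Algebra k M] [Fintype I] (S : Sd k M I), SAll S → VF S

/-- ACT. -/
def ActStmt : Prop := ∀ (k M I : Type) [Field k] [CharZero k] [IsAlgClosed k] [Field M]
  [Algebra k M] [Fintype I] (S : Sd k M I) (σ : M ≃ₐ[k] M), SAll S → Inv S σ → ∃ ρ, Ac S σ ρ

/-! ### Pairs -/

/-- A surface with a curve in the square of the anticanonical system. -/
structure Pd (k M I κ : Type) [Field k] [Field M] [Algebra k M] extends Sd k M I where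
  /-- the first derivation -/
  D₁ : Derivation k M M
  /-- the second derivation -/
  D₂ : Derivation k M M
  /-- the equation of the curve -/
  φ : M
  /-- the normalization of the bivector -/
  ω : M
  /-- the equations of the components -/
  ψ : κ → M
  /-- the classes of the components -/
  C : κ → I → ℤ
  /-- the distinguished component -/
  k0 : κ
  /-- the first coordinate -/
  x : M
  /-- the second coordinate -/
  y : M
  /-- sections of an auxiliary class -/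
  U : Set M
  /-- sections of the auxiliary class twisted by the anticanonical class -/
  U' : Set M

namespace Pd

variable {k M I κ : Type} [Field k] [Field M] [Algebra k M] [Fintype I] (p : Pd k M I κ)

/-- The bivector. -/
def j (a b : M) : M := jac p.D₁ p.D₂ a b

/-- Local equations of the components. -/
noncomputable def s (i : κ) (O : Subalgebra k M) : M := p.ψ i * p.lb (p.C i) O

/-- Local generators of the values of the bivector. -/
noncomputable def jj (O : Subalgebra k M) : M := p.ω * p.lb (-p.K) O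

/-- The lattice data. -/
def ld : Ld I κ := ⟨p.B, p.K, p.h, p.PP, p.C, p.k0⟩

/-- The class of the distinguished component. -/
def F : I → ℤ := p.C p.k0

end Pd

section pair

variable {k M I κ : Type} [Field k] [Field M] [Algebra k M] [Fintype I] [Fintype κ]
  (p : Pd k M I κ)

/-- The decomposition of the curve. -/
structure PairA : Prop where
  all : SAll p.toSd
  gen : GenP k p.x p.y
  jne : p.j p.x p.y ≠ 0
  φne : p.φ ≠ 0
  ωne : p.ω ≠ 0
  reg : ∀ O ∈ p.T, ∀ a ∈ O, ∀ b ∈ O, p.φ * p.j a b ^ 2 ∈ O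
  smo : ∀ O ∈ p.T, ∃ a ∈ O, ∃ b ∈ O, p.φ * p.j a b ^ 2 ∉ mx2 O
  chart : ∀ O ∈ p.T, ∀ a b, Cht O a b → IsU O (p.j a b / p.jj O)
  prm : ∀ i, ∃ P, p.Prm (p.C i) (p.ψ i) P
  eqn : ∀ O ∈ p.T, p.φ * p.jj O ^ 2 = ∏ i, p.s i O
  sumC : ∑ i, p.C i = (-2 : ℤ) • p.K
  fU : p.U.Finite
  fU' : p.U'.Finite
  nU : ∀ a ∈ p.U, a ≠ 0
  nU' : ∀ a ∈ p.U', a ≠ 0
  gU : ∀ O ∈ p.T, Gn p.U O (gn p.U O)
  gU' : ∀ O ∈ p.T, Gn p.U' O (gn p.U O / (p.φ * p.jj O))

/-- The curve is smooth. -/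
structure PairB : Prop where
  one : ∀ O ∈ p.T, ∀ i i', p.s i O ∈ mx O → p.s i' O ∈ mx O → i = i'
  crd : ∀ O ∈ p.T, ∀ i, Crd O (p.s i O)
  loc2 : ∀ O ∈ p.T, RatPt O → ∃ c ∈ mx O, ∃ d ∈ mx O, c ≠ 0 ∧ d ≠ 0 ∧
    (IsU O (p.φ * p.j c d ^ 2) ∨ IsU O (p.φ * p.j c d ^ 2 / c))
  disj : ∀ i i', i ≠ i' → ip p.B (p.C i) (p.C i') = 0

/-- The pair without the choice of a component. -/
structure Pair0 : Prop extends PairA p, PairB p

/-- The pair with a component that is nef, and moves if its square is zero. -/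
structure Pair : Prop extends Pair0 p where
  sq0 : 0 ≤ ip p.B p.F p.F
  pen : ip p.B p.F p.F = 0 → ∃ ψ₁ ∈ p.Sec p.F, ∀ c : k, ψ₁ ≠ c • p.ψ p.k0

/-- The order of the form at places of the surface and at exceptional places. -/
structure Ex : Prop where
  exc : ∀ (P : Place k M) (O : Subalgebra k M) (a : M), FT (plO P) → O ∈ p.T → RatPt O →
    Dom O (plO P) → Ind (plO P) ![a] → ∃ d ∈ O, p.φ * p.j a d ^ 2 ∉ plO P
  val : ∀ (P : Place k M) (a π : M), plO P ∈ p.T → (∀ i, IsU (plO P) (p.s i (plO P))) →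
    Ind (plO P) ![a] → P.ord π = 1 → IsU (plO P) (p.φ * p.j a π ^ 2)

/-- The twisted elliptic curve has only the points of order two. -/
def MW (l : k) : Prop := ∀ a b : M,
  b ^ 2 = p.φ * (a * (a - 1) * (a - algebraMap k M l)) → b = 0

/-- The vector field attached to a point of the twisted elliptic curve is regular. -/
def MW1 (l : k) : Prop := ∀ a b : M, b ≠ 0 →
  b ^ 2 = p.φ * (a * (a - 1) * (a - algebraMap k M l)) →
    ∀ O ∈ p.T, ∀ f ∈ O, p.φ / b * p.j a f ∈ O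

/-- `σ` preserves the form up to a constant. -/
def Form (σ : M ≃ₐ[k] M) : Prop := ∃ e : k, e ≠ 0 ∧
  ∀ a b, σ (p.φ * p.j a b ^ 2) = algebraMap k M e * (p.φ * p.j (σ a) (σ b) ^ 2)

/-- The elliptic pencil `t`. -/
structure Pc (t ψ₁ : M) (P₀ : Place k M) : Prop where
  sq : ip p.B p.F p.F = 0
  prm : p.Prm p.F (p.ψ p.k0) P₀
  sec : ψ₁ ∈ p.Sec p.F
  ne : ψ₁ ≠ 0
  eq : t = p.ψ p.k0 / ψ₁
  ord : P₀.ord t = 1
  zero : ∀ P : Place k M, plO P ∈ p.T → 0 < P.ord t → P = P₀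
  reg : ∀ O ∈ p.T, t ∈ O ∨ t⁻¹ ∈ O
  hor : ∀ c φ P, p.Prm c φ P → (ip p.B c p.F ≠ 0 ↔ Ind (plO P) ![t])
  pl : ∀ P : Place k M, Ind (plO P) ![t] → plO P ∈ p.T
  unit : ∀ (P : Place k M) (π : M), Ind (plO P) ![t] → P.ord π = 1 →
    IsU (plO P) (p.φ * p.j t π ^ 2)
  alg : ∀ r : M, r ≠ 0 → (∀ P : Place k M, Ind (plO P) ![t] → P.ord r = 0) → IsAlgebraic k⟮t⟯ r

/-- The degree of the map `(t, s / s')` is at most the degree on the fibres. -/
def In2 (t : M) : Prop := ∀ D, ∀ s ∈ p.Sec D, ∀ s' ∈ p.Sec D, s' ≠ 0 →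
  AlgebraicIndependent k ![t, s / s'] → FiniteDimensional k⟮t, s / s'⟯ M ∧
    (Module.finrank k⟮t, s / s'⟯ M : ℤ) ≤ ip p.B D p.F

/-- The involution over `k(t, u)`. -/
structure Iv (t u : M) (σ : M ≃ₐ[k] M) : Prop where
  ind : AlgebraicIndependent k ![t, u]
  two : Module.finrank k⟮t, u⟯ M = 2
  ft : σ t = t
  fu : σ u = u
  inv : ∀ m, σ (σ m) = m
  fix : ∀ m, σ m = m → m ∈ k⟮t, u⟯
  form : Form p σ

/-- The automorphisms that lift to the threefold. -/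
structure Sg (σ : M ≃ₐ[k] M) (ρ : Matrix I I ℤ) : Prop where
  inv : Inv p.toSd σ
  rep : Rep p.toSd σ ρ
  st : ∀ i, ∀ O ∈ p.T, IsU O (σ (p.s i (O.comap (σ : M →ₐ[k] M))) / p.s i O)
  sq : ∃ r : M, r ≠ 0 ∧ σ p.φ = p.φ * r ^ 2

/-- Involutions attached to the classes of degree two. -/
def HasInv : Prop := ∀ D, ip p.B D p.F = 2 → ∃ σ ρ, Form p σ ∧ Ac p.toSd σ ρ ∧
  ∀ y, toR (act ρ y + y - ip p.B y p.F • D) ∈ p.ld.V

/-- Translations. -/
def HasTl : Prop := ∃ N : ℕ, 0 < N ∧ ∀ x, ip p.B x p.F = 0 →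
  ∃ σ ρ, Sg p σ ρ ∧ p.ld.Tl ρ ((N : ℤ) • x)

end pair

/-- PA. -/
def PaStmt : Prop := ∀ (k M I : Type) [Field k] [CharZero k] [IsAlgClosed k] [Field M]
  [Algebra k M] [Fintype I] (S : Sd k M I) (D₁ D₂ : Derivation k M M) (φ φ' : M), SAll S →
  (∀ O ∈ S.T, ∀ a ∈ O, ∀ b ∈ O, φ * jac D₁ D₂ a b ^ 2 ∈ O) →
  (∀ O ∈ S.T, ∃ a ∈ O, ∃ b ∈ O, φ * jac D₁ D₂ a b ^ 2 ∉ mx2 O) →
  (∀ O ∈ S.T, ∀ a ∈ O, ∀ b ∈ O, φ' * jac D₁ D₂ a b ^ 2 ∈ O) → (∀ c : k, φ' ≠ c • φ) →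
    ∃ (κ : Type) (_ : Fintype κ) (p : Pd k M I κ), p.toSd = S ∧ p.D₁ = D₁ ∧ p.D₂ = D₂ ∧ p.φ = φ ∧
      PairA p

/-- PB. -/
def PbStmt : Prop := PlaneStmt → ∀ (k M I κ : Type) [Field k] [CharZero k] [IsAlgClosed k]
  [Field M] [Algebra k M] [Fintype I] [Fintype κ] (p : Pd k M I κ), PairA p → PairB p

/-- PC. -/
def PcStmt : Prop := ∀ (k M I κ : Type) [Field k] [CharZero k] [IsAlgClosed k]
  [Field M] [Algebra k M] [Fintype I] [Fintype κ] (p : Pd k M I κ) (φ' : M), Pair0 p → Hg p.B →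
  (∀ O ∈ p.T, ∀ a ∈ O, ∀ b ∈ O, φ' * p.j a b ^ 2 ∈ O) → (∀ c : k, φ' ≠ c • p.φ) →
    ∃ i, Pair { p with k0 := i }

/-- NS. -/
def NsStmt : Prop := ∀ (k M I κ : Type) [Field k] [CharZero k] [IsAlgClosed k]
  [Field M] [Algebra k M] [Fintype I] [Fintype κ] (p : Pd k M I κ), Pair p → NS p.ld

/-- EXC. -/
def ExcStmt : Prop := DerStmt → ∀ (k M I κ : Type) [Field k] [CharZero k] [IsAlgClosed k]
  [Field M] [Algebra k M] [Fintype I] [Fintype κ] (p : Pd k M I κ), Pair0 p → Ex p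

/-- MW1. -/
def Mw1Stmt : Prop := ∀ (k M I κ : Type) [Field k] [CharZero k] [IsAlgClosed k]
  [Field M] [Algebra k M] [Fintype I] [Fintype κ] (p : Pd k M I κ) (l : k), Pair0 p → l ≠ 0 →
  l ≠ 1 → MW1 p l

/-- MW2. -/
def Mw2Stmt : Prop := ResStmt → DivStmt → ∀ (k M I κ : Type) [Field k] [CharZero k]
  [IsAlgClosed k] [Field M] [Algebra k M] [Fintype I] [Fintype κ] (p : Pd k M I κ) (l : k),
  Pair0 p → Ex p → VF p.toSd → L1 p.ld → HZ p.ld → MW1 p l → MW p l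

/-- PEN. -/
def PenStmt : Prop := UpStmt → DivStmt → ∀ (k M I κ : Type) [Field k] [CharZero k]
  [IsAlgClosed k] [Field M] [Algebra k M] [Fintype I] [Fintype κ] (p : Pd k M I κ), Pair p → Ex p →
  ip p.B p.F p.F = 0 → ∃ t ψ₁ P₀, Pc p t ψ₁ P₀

/-- INV1. -/
def Inv1Stmt : Prop := ∀ (k M I κ : Type) [Field k] [CharZero k] [IsAlgClosed k] [Field M]
  [Algebra k M] [Fintype I] [Fintype κ] (p : Pd k M I κ) (t ψ₁ : M) (P₀ : Place k M), Pair0 p →
  L1 p.ld → Pc p t ψ₁ P₀ → ∀ D, ip p.B D p.F = 2 → ∃ m : ℤ, ∃ s ∈ p.Sec (D + m • p.F),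
    ∃ s' ∈ p.Sec (D + m • p.F), s' ≠ 0 ∧ AlgebraicIndependent k ![t, s / s']

/-- INV2. -/
def Inv2Stmt : Prop := ∀ (k M I κ : Type) [Field k] [CharZero k] [IsAlgClosed k] [Field M]
  [Algebra k M] [Fintype I] [Fintype κ] (p : Pd k M I κ) (t ψ₁ : M) (P₀ : Place k M), Pair0 p →
  Pc p t ψ₁ P₀ → In2 p t

/-- INV3. -/
def Inv3Stmt : Prop := ∀ (k M I κ : Type) [Field k] [CharZero k] [IsAlgClosed k] [Field M]
  [Algebra k M] [Fintype I] [Fintype κ] (p : Pd k M I κ) (t ψ₁ : M) (P₀ : Place k M), Pair0 p →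
  Pc p t ψ₁ P₀ → ∀ r u : M, IsAlgebraic k⟮t⟯ r → AlgebraicIndependent k ![t, u] → k⟮t, r, u⟯ ≠ ⊤

/-- INV4. -/
def Inv4Stmt : Prop := ∀ (k M I κ : Type) [Field k] [CharZero k] [IsAlgClosed k] [Field M]
  [Algebra k M] [Fintype I] [Fintype κ] (p : Pd k M I κ) (t ψ₁ u : M) (P₀ : Place k M), Pair0 p →
  Pc p t ψ₁ P₀ → AlgebraicIndependent k ![t, u] →
  (∀ r : M, IsAlgebraic k⟮t⟯ r → k⟮t, r, u⟯ ≠ ⊤) → FiniteDimensional k⟮t, u⟯ M →
  Module.finrank k⟮t, u⟯ M ≤ 2 → ∃ σ, Iv p t u σ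

/-- REG. -/
def RegStmt : Prop := ResStmt → DivStmt → ∀ (k M I κ : Type) [Field k] [CharZero k]
  [IsAlgClosed k] [Field M] [Algebra k M] [Fintype I] [Fintype κ] (p : Pd k M I κ)
  (σ : M ≃ₐ[k] M), Pair0 p → Ex p → Form p σ → Inv p.toSd σ

/-- ORB. -/
def OrbStmt : Prop := ∀ (k M I κ : Type) [Field k] [CharZero k] [IsAlgClosed k] [Field M]
  [Algebra k M] [Fintype I] [Fintype κ] (p : Pd k M I κ) (t ψ₁ s s' : M) (P₀ : Place k M)
  (D : I → ℤ) (σ : M ≃ₐ[k] M) (ρ : Matrix I I ℤ), Pair0 p → HZ p.ld → Pc p t ψ₁ P₀ → In2 p t →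
  ip p.B D p.F = 2 → s ∈ p.Sec D → s' ∈ p.Sec D → s' ≠ 0 → Iv p t (s / s') σ → Ac p.toSd σ ρ →
    ∀ y, toR (act ρ y + y - ip p.B y p.F • D) ∈ p.ld.V

/-- TRANS. -/
def TransStmt : Prop := ∀ (k M I κ : Type) [Field k] [CharZero k] [IsAlgClosed k] [Field M]
  [Algebra k M] [Fintype I] [Fintype κ] (p : Pd k M I κ), Pair0 p → ip p.B p.F p.F = 0 →
  (∃ D, ip p.B D p.F = 2) → HasInv p → HasTl p

end Pool.Agent.MP_20d318_ag.CB

end MrgPart0

-- ======== part 1: formerly Pool.Agent.MP_20d318_ag.CB.Div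
section MrgPart1

/-! A valuation of the function field of a surface with a transcendental residue is a place of
finite type. -/

set_option autoImplicit false

namespace Pool.Agent.MP_20d318_ag.CB

open Pool.Agent.MP_79c67d_ag Pool.Agent.MP_20d318_ag.AG Pool.Agent.MP_20d318_ag.BV
open scoped IntermediateField IntermediateField.algebraAdjoinAdjoin

namespace Div

theorem core {K F : Type} [Field K] [Field F] [Algebra K F] [IsFF K F] [CharZero K]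
    (O : ValuationSubring F) (hO : O ≠ ⊤) (hK : ∀ c : K, algebraMap K F c ∈ O) :
    ∃ (v : Valuation F (WithZero (Multiplicative ℤ))) (G : Set F), Function.Surjective v ∧
      (∀ f, v f ≤ 1 ↔ f ∈ O) ∧ G.Finite ∧ (∀ g ∈ G, g ∈ O) ∧ ∀ f ∈ O,
        ∃ n ∈ Algebra.adjoin K G, ∃ d ∈ Algebra.adjoin K G, d ≠ 0 ∧ d ∈ O ∧ d⁻¹ ∈ O ∧ f = n / d := by
  obtain ⟨x, hx⟩ : ∃ x, x ∉ O := by
    by_contra h
    exact hO (eq_top_iff.2 fun x _ => by_contra fun hx => h ⟨x, hx⟩)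
  have ht : x⁻¹ ∈ O := (O.mem_or_inv_mem x).resolve_left hx
  have htr : Transcendental K x⁻¹ := fun h =>
    hx (mem_of_isIntegral O hK (IsAlgebraic.inv_iff.1 h).isIntegral)
  generalize x⁻¹ = t at ht htr
  let A := Algebra.adjoin K {t}
  have : IsPrincipalIdealRing A := IsPrincipalIdealRing.of_surjective _
    (Polynomial.algEquivOfTranscendental K t htr).surjective
  have := finDim_adjoin htr
  have : CharZero F := charZero_of_injective_algebraMap (algebraMap K F).injective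
  have := integralClosure.isDedekindDomain A K⟮t⟯ F
  have := integralClosure.isFractionRing_of_finite_extension K⟮t⟯ F (A := A)
  have hA : ∀ a : A, algebraMap A F a ∈ O := by
    rintro ⟨a, ha⟩
    change a ∈ O
    induction ha using Algebra.adjoin_induction with
    | mem x hx => rw [hx]; exact ht
    | algebraMap r => exact hK r
    | add x y _ _ hx hy => exact O.add_mem _ _ hx hy
    | mul x y _ _ hx hy => exact O.mul_mem _ _ hx hy
  have hB : ∀ b : integralClosure A F, (b : F) ∈ O := fun b => mem_of_isIntegral O hA b.2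
  obtain ⟨p, hp⟩ := exists_hos (B := integralClosure A F) O hO hB
  obtain ⟨s, hs⟩ := (IsIntegralClosure.finite A K⟮t⟯ F (integralClosure A F)).fg_top
  have hG : ∀ b : integralClosure A F,
      (b : F) ∈ Algebra.adjoin K (insert t (Subtype.val '' (s : Set (integralClosure A F)))) := by
    intro b
    have hb : b ∈ Submodule.span A (s : Set (integralClosure A F)) := hs ▸ Submodule.mem_top
    induction hb using Submodule.span_induction with
    | mem b hb => exact Algebra.subset_adjoin (Or.inr ⟨b, hb, rfl⟩)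
    | zero => exact zero_mem _
    | add b c _ _ hb hc => exact add_mem hb hc
    | smul a b _ hb =>
      exact mul_mem (Algebra.adjoin_mono (Set.singleton_subset_iff.2 (Set.mem_insert _ _)) a.2) hb
  refine ⟨p.valuation F, _, p.valuation_surjective F, hp,
    (s.finite_toSet.image Subtype.val).insert t, ?_, fun f hf => ?_⟩
  · rintro _ (rfl | ⟨b, -, rfl⟩)
    exacts [ht, hB b]
  · obtain ⟨n, d, h⟩ := p.exists_primeCompl_mul_eq_of_integer f ((hp f).2 hf)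
    have h1 : p.valuation F (algebraMap (integralClosure A F) F d) = 1 :=
      le_antisymm (p.valuation_le_one _) (not_lt.1 fun h => d.2
        ((p.valuation_lt_one_iff_mem (K := F) _).1 h))
    have h2 : algebraMap (integralClosure A F) F d ≠ 0 := fun e => by simp [e] at h1
    exact ⟨_, hG n, _, hG d, h2, hB d, (hp _).1 (by
      rw [map_inv₀]; exact (congrArg _ h1).trans_le inv_one.le), (eq_div_iff h2).2 h⟩

variable {k M : Type} [Field k] [Field M] [Algebra k M] {x y a : M}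

theorem isFF (h : GenP k x y) (ha : Transcendental k a) : IsFF k⟮a⟯ M where
  ess := by
    classical
    have h1 : Algebra.EssFiniteType k (⊤ : IntermediateField k M) :=
      IntermediateField.essFiniteType_iff.2 ⟨{x, y}, by simpa using h.top⟩
    have : Algebra.EssFiniteType k M :=
      (Algebra.EssFiniteType.iff_of_algEquiv IntermediateField.topEquiv).1 h1
    exact Algebra.EssFiniteType.of_comp k k⟮a⟯ M
  tr := by
    have h1 : IsTranscendenceBasis k ![x, y] := h.ind.isTranscendenceBasis_iff_isAlgebraic.2 (by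
      rw [show Set.range ![x, y] = {x, y} by simp [Set.pair_comm],
        ← IntermediateField.isAlgebraic_adjoin_iff_top, h.top, Algebra.isAlgebraic_iff_isIntegral]
      exact Algebra.isIntegral_of_surjective IntermediateField.topEquiv.surjective)
    have h2 := trdeg_add_eq k k⟮a⟯ (A := M)
    rw [(isFF_adjoin ha).tr, ← h1.cardinalMk_eq_trdeg, add_comm] at h2
    exact Cardinal.add_one_inj.1 (h2.trans (by simp [one_add_one_eq_two]))

end Div

theorem div_stmt : DivStmt := by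
  intro k M _ _ _ _ _ x y a V hg hV hT hI
  have hu : ∀ p : Polynomial k, p ≠ 0 → IsU V (Polynomial.aeval a p) := fun p hp => by
    have := hI.2 (p.toMvPolynomial 0) fun e =>
      hp (Polynomial.toMvPolynomial_injective 0 (e.trans (map_zero _).symm))
    rwa [MvPolynomial.aeval_toMvPolynomial] at this
  have ha : Transcendental k a := fun ⟨p, hp, h0⟩ => (hu p hp).1 h0
  have := Div.isFF hg ha
  have hK : ∀ (G : Set M), a ∈ G → ∀ c : k⟮a⟯, (c : M) ∈ fr (Algebra.adjoin k G) V := by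
    intro G hG c
    obtain ⟨r, s, h⟩ := (IntermediateField.mem_adjoin_simple_iff k _).1 c.2
    have m : ∀ p : Polynomial k, Polynomial.aeval a p ∈ Algebra.adjoin k G := fun p =>
      Algebra.adjoin_mono (Set.singleton_subset_iff.2 hG) (Polynomial.aeval_mem_adjoin_singleton k a)
    by_cases hs : s = 0
    · rw [h, hs, map_zero, div_zero]
      exact zero_mem _
    · exact ⟨_, m r, _, m s, hu s hs, h⟩
  have hle : ∀ G : Set M, (∀ g ∈ G, g ∈ V) → fr (Algebra.adjoin k G) V ≤ V := by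
    rintro G hG _ ⟨n, hn, d, -, hd, rfl⟩
    exact hd.div_mem (Algebra.adjoin_le hG hn)
  have haV : a ∈ V := hI.1 0
  have hKV : ∀ c : k⟮a⟯, algebraMap k⟮a⟯ M c ∈ hV.vs := fun c =>
    hle {a} (fun g h => h ▸ haV) (hK {a} rfl c)
  obtain ⟨v, G, h1, h2, h3, h4, h5⟩ := Div.core hV.vs
    (fun e => hT (eq_top_iff.2 fun f _ => show f ∈ hV.vs from e ▸ ValuationSubring.mem_top f)) hKV
  refine ⟨⟨insert a G, h3.insert a, hV.isLocalRing, Algebra.adjoin_le ?_, fun f hf => ?_⟩,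
    ⟨v, h1, fun c => (h2 _).2 (V.algebraMap_mem c)⟩, Subalgebra.ext h2⟩
  · rintro g (rfl | h)
    exacts [haV, h4 g h]
  · have hG : ∀ b ∈ Algebra.adjoin k⟮a⟯ G, b ∈ fr (Algebra.adjoin k (insert a G)) V := by
      intro b hb
      induction hb using Algebra.adjoin_induction with
      | mem b hb => exact ⟨b, Algebra.subset_adjoin (Or.inr hb), 1, one_mem _, isU_one, by simp⟩
      | algebraMap r => exact hK _ (Set.mem_insert _ _) r
      | add b c _ _ hb hc => exact add_mem hb hc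
      | mul b c _ _ hb hc => exact mul_mem hb hc
    obtain ⟨n, hn, d, hd, d0, d1, d2, rfl⟩ := h5 f hf
    obtain ⟨n1, a1, n2, a2, a3, rfl⟩ := hG n hn
    obtain ⟨e1, b1, e2, b2, b3, e⟩ := hG d hd
    have b4 : IsU V e1 := by
      have := (show IsU V d from ⟨d0, d1, d2⟩).mul b3
      rwa [e, div_mul_cancel₀ _ b3.1] at this
    exact ⟨n1 * e2, mul_mem a1 b2, n2 * e1, mul_mem a2 b1, a3.mul b4, by rw [e, div_div_div_eq]⟩

end Pool.Agent.MP_20d318_ag.CB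

end MrgPart1

-- ======== part 2: formerly Pool.Agent.MP_20d318_ag.CB.XSpec
section MrgPart2

/-! The threefold as a set of local rings. -/

set_option autoImplicit false

namespace Pool.Agent.MP_20d318_ag.CB

open Pool.Agent.MP_79c67d_ag Pool.Agent.MP_20d318_ag.AG Pool.Agent.MP_20d318_ag.BV MvPolynomial

section threefold

variable {k M K I κ : Type} [Field k] [Field M] [Field K] [Algebra k M] [Algebra k K] [Fintype I]
  [Fintype κ] (p : Pd k M I κ) (ι : M →ₐ[k] K) (l : k) (ζ w : K)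

/-- The function field of the double cover. -/
structure Ext : Prop where
  l0 : l ≠ 0
  l1 : l ≠ 1
  tr : Tr ι ζ
  eq : w ^ 2 = ι p.φ * (ζ * (ζ - 1) * (ζ - algebraMap k K l))
  top : IntermediateField.adjoin k (Set.range ι ∪ {ζ, w}) = ⊤

/-- The family defining the blow-up. -/
def SI : Set K := (fun u => w * ι u) '' p.U' ∪ (ι '' p.U ∪ (fun u => ι u * ζ ^ 2) '' p.U)

/-- The families defining `X`. -/
def famX (o : Option Bool) : Set K :=
  o.elim (ι '' p.H) fun b => if b then SI p ι ζ w else {ζ, 1}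

/-- The threefold. -/
def XX : Set (Subalgebra k K) := mp k (famX p ι ζ w)

/-- Local equations of the pull-backs of the branch curves. -/
noncomputable def sX (i : κ) : Subalgebra k K → K := up ι p.T (p.s i)

/-- The coordinate on the exceptional fibres. -/
noncomputable def AA (O : Subalgebra k K) : K :=
  w / (up ι p.T (fun R => p.φ * p.jj R) O * eta ζ O ^ 2)

/-- Local equations of the exceptional divisors. -/
noncomputable def EE (i : κ) (j : Fin 4) (O : Subalgebra k K) : K :=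
  gn {sX p ι i O, tau l ζ j O} O

/-- The degrees of a curve. -/
noncomputable def ZZ {Y : Set (Subalgebra k K)} (ν : Curve Y) : W I κ ℤ :=
  (cls p.B fun c => ν.deg (up ι p.T (p.lb c)), -ν.deg (eta ζ), fun i j => ν.deg (EE p ι l ζ i j))

/-- Local equations of a divisor of class `D`. -/
noncomputable def lbW (D : W I κ ℤ) (O : Subalgebra k K) : K :=
  up ι p.T (p.lb D.1) O * eta ζ O ^ (-D.2.1) * ∏ i, ∏ j, EE p ι l ζ i j O ^ (-D.2.2 i j)

/-- The charts of `X`. -/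
structure XLoc : Prop where
  fam : Fam k (famX p ι ζ w)
  fine : Fine (XX p ι ζ w)
  maps : Maps ι (XX p ι ζ w) p.T
  ind : AlgebraicIndependent k ![ι p.x, ι p.y, ζ]
  wne : w ≠ 0
  tne : ∀ (O : Subalgebra k K) j, tau l ζ j O ≠ 0
  zm : ∀ O ∈ XX p ι ζ w, zc ζ O ∈ O
  gZ : ∀ O ∈ XX p ι ζ w, Gn {ζ, 1} O (eta ζ O)
  tp : ∀ O : Subalgebra k K, ∃ α β : Fin 4 → k,
    (∀ j, tau l ζ j O = algebraMap k K (α j) * zc ζ O + algebraMap k K (β j)) ∧
    ∀ j j', j ≠ j' → α j * β j' ≠ α j' * β j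
  sne : ∀ O ∈ XX p ι ζ w, ∀ i, sX p ι i O ≠ 0
  ane : ∀ O ∈ XX p ι ζ w, AA p ι ζ w O ≠ 0
  aa : ∀ O ∈ XX p ι ζ w, AA p ι ζ w O ∈ O ∨ (AA p ι ζ w O)⁻¹ ∈ O
  eqn : ∀ O ∈ XX p ι ζ w, AA p ι ζ w O ^ 2 * ∏ i, sX p ι i O = ∏ j, tau l ζ j O
  pts : ∀ O ∈ XX p ι ζ w, ∀ a ∈ O, a = AA p ι ζ w O ∨ a = (AA p ι ζ w O)⁻¹ →
    O ∈ Pts (Algebra.adjoin k (ι '' pr ι p.T O ∪ {zc ζ O, a}))
  prin : ∀ O : Subalgebra k K, IsLocalRing O → (∃ R ∈ p.T, Dom R (O.comap ι)) →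
    AA p ι ζ w O ∈ O ∨ (AA p ι ζ w O)⁻¹ ∈ O → zc ζ O ∈ O → Prin (SI p ι ζ w) O
  tm : ∀ O ∈ XX p ι ζ w, ∀ j, tau l ζ j O ∈ O
  sm : ∀ O ∈ XX p ι ζ w, ∀ i, sX p ι i O ∈ O
  t1 : ∀ O ∈ XX p ι ζ w, ∀ j j', tau l ζ j O ∈ mx O → tau l ζ j' O ∈ mx O → j = j'
  s1 : ∀ O ∈ XX p ι ζ w, ∀ i i', sX p ι i O ∈ mx O → sX p ι i' O ∈ mx O → i = i'
  dim : ∀ O ∈ XX p ι ζ w, ∀ n, Dim (pr ι p.T O) n → Dim O (n + 1)
  dimZ : ∀ O ∈ XX p ι ζ w, ∀ n, Dim (pr ι p.T O) n → AlgM O ((pr ι p.T O).map ι) (zc ζ O) →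
    ¬ (IsU O (AA p ι ζ w O) ∧ ∃ i, sX p ι i O ∈ mx O) → Dim O n
  dimA : ∀ O ∈ XX p ι ζ w, ∀ n, Dim (pr ι p.T O) n → IsU O (AA p ι ζ w O) →
    AlgM O ((pr ι p.T O).map ι) (AA p ι ζ w O) → Dim O n

/-- The divisors on `X`. -/
structure XDiv : Prop where
  gE : ∀ O ∈ XX p ι ζ w, ∀ i j, Gn {sX p ι i O, tau l ζ j O} O (EE p ι l ζ i j O)
  em : ∀ O ∈ XX p ι ζ w, ∀ i j, EE p ι l ζ i j O ∈ O
  eu : ∀ O ∈ XX p ι ζ w, ∀ i j, IsU O (sX p ι i O) ∨ IsU O (tau l ζ j O) →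
    IsU O (EE p ι l ζ i j O)
  emx : ∀ O ∈ XX p ι ζ w, ∀ i j, sX p ι i O ∈ mx O → tau l ζ j O ∈ mx O →
    EE p ι l ζ i j O ∈ mx O
  eT : ∀ O ∈ XX p ι ζ w, ∀ i j, AA p ι ζ w O ∈ O → tau l ζ j O ∈ mx O →
    IsU O (EE p ι l ζ i j O / sX p ι i O)
  eC : ∀ O ∈ XX p ι ζ w, ∀ i j, (AA p ι ζ w O)⁻¹ ∈ O → sX p ι i O ∈ mx O →
    IsU O (EE p ι l ζ i j O / tau l ζ j O)
  rT : ∀ O ∈ XX p ι ζ w, ∀ j, tau l ζ j O / ∏ i, EE p ι l ζ i j O ∈ O ∧
    (AA p ι ζ w O ∉ mx O → IsU O (tau l ζ j O / ∏ i, EE p ι l ζ i j O))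
  rC : ∀ O ∈ XX p ι ζ w, ∀ i, sX p ι i O / ∏ j, EE p ι l ζ i j O ∈ O ∧
    ((AA p ι ζ w O)⁻¹ ∉ mx O → IsU O (sX p ι i O / ∏ j, EE p ι l ζ i j O))
  cartZ : IsCart (XX p ι ζ w) (eta ζ)
  cartT : ∀ j, IsCart (XX p ι ζ w) (tau l ζ j)
  cartS : ∀ i, IsCart (XX p ι ζ w) (sX p ι i)
  cartA : IsCart (XX p ι ζ w) (AA p ι ζ w)
  cartE : ∀ i j, IsCart (XX p ι ζ w) (EE p ι l ζ i j)
  cartW : ∀ D, IsCart (XX p ι ζ w) (lbW p ι l ζ D)
  proj : ∀ ν : Curve (XX p ι ζ w), ∃ ν' : Curve p.T, ν'.gen = pr ι p.T ν.gen ∧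
    (ZZ p ι l ζ ν).1 = p.zz ν'
  degW : ∀ (ν : Curve (XX p ι ζ w)) D, ν.deg (lbW p ι l ζ D) = ipW p.B D (ZZ p ι l ζ ν)
  degL : ∀ (ν : Curve (XX p ι ζ w)) c φ, φ ≠ 0 →
    ν.deg (up ι p.T fun R => φ * p.lb c R) = ip p.B c (ZZ p ι l ζ ν).1
  degS : ∀ (ν : Curve (XX p ι ζ w)) i, ν.deg (sX p ι i) = ip p.B (p.C i) (ZZ p ι l ζ ν).1
  degT : ∀ (ν : Curve (XX p ι ζ w)) j, ν.deg (tau l ζ j) = (ZZ p ι l ζ ν).2.1
  eff : ∀ D ∈ p.ld.EG, ∃ C : Cartier (XX p ι ζ w), C.Effective ∧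
    ∀ ν : Curve (XX p ι ζ w), ν.deg C.f = ipW p.B D (ZZ p ι l ζ ν)

/-- Smoothness and the canonical class. -/
structure XSm : Prop where
  sm : ∀ O ∈ XX p ι ζ w, Algebra.FormallySmooth k O
  nrm : ∀ O ∈ XX p ι ζ w, Nrm O
  can : ∀ D : Derivation k K (Fin 3 → K), (∀ i, D (![ι p.x, ι p.y, ζ] i) = Pi.single i 1) →
    ∀ O ∈ XX p ι ζ w, ∃ c : Fin 3 → K, (∀ i, c i ∈ O) ∧
      (∀ a ∈ O, ∃ r : Fin 3 → K, (∀ i, r i ∈ O) ∧ D a = ∑ i, r i • D (c i)) ∧
      IsU O (w * ι (p.j p.x p.y) * (Matrix.of fun i => D (c i)).det)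

open Classical in
/-- The degrees of curves on `X`. -/
structure XCur : Prop where
  c0 : ∀ ν : Curve (XX p ι ζ w), RatPt (pr ι p.T ν.gen) → (ZZ p ι l ζ ν).1 = 0
  c1 : ∀ (ν : Curve (XX p ι ζ w)) c φ P, p.Prm c φ P → pr ι p.T ν.gen = plO P →
    ∃ n : ℕ, 0 < n ∧ (ZZ p ι l ζ ν).1 = n • c
  cA : ∀ (ν : Curve (XX p ι ζ w)) j, AA p ι ζ w ν.gen ∈ mx ν.gen →
    tau l ζ j ν.gen ∈ mx ν.gen → (ZZ p ι l ζ ν).2.1 = 0 ∧
      ∀ i j', (ZZ p ι l ζ ν).2.2 i j' = if j' = j then ip p.B (p.C i) (ZZ p ι l ζ ν).1 else 0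
  cB : ∀ (ν : Curve (XX p ι ζ w)) i, (AA p ι ζ w ν.gen)⁻¹ ∈ mx ν.gen →
    sX p ι i ν.gen ∈ mx ν.gen →
      ∀ i' j, (ZZ p ι l ζ ν).2.2 i' j = if i' = i then (ZZ p ι l ζ ν).2.1 else 0
  cX : ∀ (ν : Curve (XX p ι ζ w)) i j, sX p ι i ν.gen ∈ mx ν.gen →
    tau l ζ j ν.gen ∈ mx ν.gen → (ZZ p ι l ζ ν).2.1 = 0 ∧
      ∀ i' j', ¬ (i' = i ∧ j' = j) → (ZZ p ι l ζ ν).2.2 i' j' = 0
  cG : ∀ (ν : Curve (XX p ι ζ w)) (c : k), c ≠ 0 → c ≠ 1 → c ≠ l →
    ζ - algebraMap k K c ∈ mx ν.gen → (ZZ p ι l ζ ν).2 = 0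
  cur : ∀ ν : Curve (XX p ι ζ w), p.ld.Cur (ZZ p ι l ζ ν)

open Classical in
/-- The test curves. -/
structure XTest : Prop where
  tE : ∀ i j, ∃ ν : Curve (XX p ι ζ w), ∃ n : ℤ, 0 < n ∧
    ZZ p ι l ζ ν = (0, 0, fun i' j' => if i' = i ∧ j' = j then -n else 0)
  tC : ∀ i, ∃ ν : Curve (XX p ι ζ w), ∃ n : ℤ, 0 < n ∧
    ZZ p ι l ζ ν = (0, n, fun i' _ => if i' = i then n else 0)
  tT : ∀ c ∈ p.PP, ∀ j, ∃ ν : Curve (XX p ι ζ w), ∃ n : ℕ, 0 < n ∧
    ZZ p ι l ζ ν = (n • c, 0, fun i j' => if j' = j then ip p.B (p.C i) (n • c) else 0)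
  tG : ∀ c ∈ p.PP, ∃ ν : Curve (XX p ι ζ w), ∃ n : ℕ, 0 < n ∧ ZZ p ι l ζ ν = (n • c, 0, 0)

/-- The prime divisors of `X`. -/
structure XPl : Prop where
  uE : ∀ (P P' : Place k K) i j, plO P ∈ XX p ι ζ w → plO P' ∈ XX p ι ζ w →
    sX p ι i (plO P) ∈ mx (plO P) → tau l ζ j (plO P) ∈ mx (plO P) →
    sX p ι i (plO P') ∈ mx (plO P') → tau l ζ j (plO P') ∈ mx (plO P') → P = P'
  top : ∀ (P : Place k K) j, plO P ∈ XX p ι ζ w → tau l ζ j (plO P) ∈ mx (plO P) →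
    (∀ i, IsU (plO P) (sX p ι i (plO P))) → pr ι p.T (plO P) = ⊤
  uT : ∀ (P P' : Place k K) j, plO P ∈ XX p ι ζ w → plO P' ∈ XX p ι ζ w →
    tau l ζ j (plO P) ∈ mx (plO P) → pr ι p.T (plO P) = ⊤ →
    tau l ζ j (plO P') ∈ mx (plO P') → pr ι p.T (plO P') = ⊤ → P = P'
  pl : ∀ P : Place k K, plO P ∈ XX p ι ζ w →
    pr ι p.T (plO P) = ⊤ ∨ ∃ P₀ : Place k M, pr ι p.T (plO P) = plO P₀
  uV : ∀ (P P' : Place k K) (P₀ : Place k M), plO P ∈ XX p ι ζ w → plO P' ∈ XX p ι ζ w →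
    (∀ j, IsU (plO P) (tau l ζ j (plO P))) → (∀ j, IsU (plO P') (tau l ζ j (plO P'))) →
    pr ι p.T (plO P) = plO P₀ → pr ι p.T (plO P') = plO P₀ → P = P'

/-- Everything local about `X`. -/
structure XAll : Prop where
  t : Pair0 p
  ext : Ext p ι l ζ w
  loc : XLoc p ι l ζ w
  div : XDiv p ι l ζ w

end threefold

open Classical in
/-- What the geometry of `X` supplies. -/
structure GeoX {k K I κ : Type} [Field k] [Field K] [Algebra k K] [Fintype I] [Fintype κ]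
    (X : Set (Subalgebra k K)) (Λ : Ld I κ) (Z : Curve X → W I κ ℤ) : Prop where
  ns : NS Λ
  cart : ∀ D : W I κ ℤ, ∃ C : Cartier X, ∀ ν, ν.deg C.f = ipW Λ.B D (Z ν)
  cls : ∀ C : Cartier X, ∃ (N : ℤ) (D : W I κ ℤ), N ≠ 0 ∧ ∀ ν, N * ν.deg C.f = ipW Λ.B D (Z ν)
  eff : ∀ D ∈ Λ.EG, ∃ C : Cartier X, C.Effective ∧ ∀ ν, ν.deg C.f = ipW Λ.B D (Z ν)
  cur : ∀ ν, Λ.Cur (Z ν)
  tE : ∀ i j, ∃ ν, ∃ n : ℤ, 0 < n ∧
    Z ν = (0, 0, fun i' j' => if i' = i ∧ j' = j then -n else 0)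
  tC : ∀ i, ∃ ν, ∃ n : ℤ, 0 < n ∧ Z ν = (0, n, fun i' _ => if i' = i then n else 0)
  tT : ∀ c ∈ Λ.P, ∀ j, ∃ ν, ∃ n : ℕ, 0 < n ∧
    Z ν = (n • c, 0, fun i j' => if j' = j then ip Λ.B (Λ.C i) (n • c) else 0)
  tG : ∀ c ∈ Λ.P, ∃ ν, ∃ n : ℕ, 0 < n ∧ Z ν = (n • c, 0, 0)
  aut : ip Λ.B Λ.F Λ.F = 0 → ∃ N : ℕ, 0 < N ∧ ∀ x, ip Λ.B x Λ.F = 0 →
    ∃ ρ, Λ.Tl ρ ((N : ℤ) • x) ∧ ∃ g : Aut X, ∀ (D : W I κ ℤ) ν,
      ipW Λ.B D (Z (ν.push (g.1 : K →ₐ[k] K) fun O => (g.2 O).1)) = ipW Λ.B (actW ρ D) (Z ν)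

/-- All lattice rows. -/
structure LMods : Prop where
  hg : HgStmt
  l1 : L1Stmt
  ct : CtStmt
  keyA : KeyAStmt
  keyB : KeyBStmt
  keyC : KeyCStmt
  lcA : LcAStmt
  lcB : LcBStmt
  hz : HzStmt
  endA : EndAStmt
  endB1 : EndB1Stmt
  endB2 : EndB2Stmt
  endB3 : EndB3Stmt

/-- GLUE. -/
def GlueStmt : Prop := LMods → ∀ (k K I κ : Type) [Field k] [Field K] [Algebra k K] [Fintype I]
  [Fintype κ] (X : Set (Subalgebra k K)) (Λ : Ld I κ) (Z : Curve X → W I κ ℤ), GeoX X Λ Z →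
    ConeStatement X

/-- XLOC. -/
def XLocStmt : Prop := DimUpStmt → ∀ (k M K I κ : Type) [Field k] [CharZero k] [IsAlgClosed k]
  [Field M] [Field K] [Algebra k M] [Algebra k K] [Fintype I] [Fintype κ] (p : Pd k M I κ)
  (ι : M →ₐ[k] K) (l : k) (ζ w : K), Pair0 p → Ext p ι l ζ w → XLoc p ι l ζ w

/-- XDIV. -/
def XDivStmt : Prop := ∀ (k M K I κ : Type) [Field k] [CharZero k] [IsAlgClosed k]
  [Field M] [Field K] [Algebra k M] [Algebra k K] [Fintype I] [Fintype κ] (p : Pd k M I κ)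
  (ι : M →ₐ[k] K) (l : k) (ζ w : K), Pair0 p → Ext p ι l ζ w → XLoc p ι l ζ w → XDiv p ι l ζ w

/-- XSM. -/
def XSmStmt : Prop := EtStmt → EtNStmt → ∀ (k M K I κ : Type) [Field k] [CharZero k]
  [IsAlgClosed k] [Field M] [Field K] [Algebra k M] [Algebra k K] [Fintype I] [Fintype κ]
  (p : Pd k M I κ) (ι : M →ₐ[k] K) (l : k) (ζ w : K), XAll p ι l ζ w → XSm p ι ζ w

/-- XCUR. -/
def XCurStmt : Prop := ∀ (k M K I κ : Type) [Field k] [CharZero k] [IsAlgClosed k]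
  [Field M] [Field K] [Algebra k M] [Algebra k K] [Fintype I] [Fintype κ] (p : Pd k M I κ)
  (ι : M →ₐ[k] K) (l : k) (ζ w : K), XAll p ι l ζ w → XCur p ι l ζ w

/-- XTEST. -/
def XTestStmt : Prop := UpStmt → CurveStmt → ∀ (k M K I κ : Type) [Field k] [CharZero k]
  [IsAlgClosed k] [Field M] [Field K] [Algebra k M] [Algebra k K] [Fintype I] [Fintype κ]
  (p : Pd k M I κ) (ι : M →ₐ[k] K) (l : k) (ζ w : K), XAll p ι l ζ w → XCur p ι l ζ w →
    XTest p ι l ζ w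

/-- XPL. -/
def XPlStmt : Prop := HtOneStmt → ∀ (k M K I κ : Type) [Field k] [CharZero k]
  [IsAlgClosed k] [Field M] [Field K] [Algebra k M] [Algebra k K] [Fintype I] [Fintype κ]
  (p : Pd k M I κ) (ι : M →ₐ[k] K) (l : k) (ζ w : K), XAll p ι l ζ w → XPl p ι l ζ w

/-- XCLS. -/
def XClsStmt : Prop := HorBStmt → ClsGenStmt → ∀ (k M K I κ : Type) [Field k] [CharZero k]
  [IsAlgClosed k] [Field M] [Field K] [Algebra k M] [Algebra k K] [Fintype I] [Fintype κ]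
  (p : Pd k M I κ) (ι : M →ₐ[k] K) (l : k) (ζ w : K), XAll p ι l ζ w → XPl p ι l ζ w → MW p l →
  (∀ O ∈ XX p ι ζ w, Nrm O) → ∀ C : Cartier (XX p ι ζ w), ∃ (N : ℤ) (D : W I κ ℤ), N ≠ 0 ∧
    ∀ ν : Curve (XX p ι ζ w), N * ν.deg C.f = ipW p.B D (ZZ p ι l ζ ν)

/-- SIGX. -/
def SigXStmt : Prop := ∀ (k M K I κ : Type) [Field k] [CharZero k]
  [IsAlgClosed k] [Field M] [Field K] [Algebra k M] [Algebra k K] [Fintype I] [Fintype κ]
  (p : Pd k M I κ) (ι : M →ₐ[k] K) (l : k) (ζ w : K) (σ : M ≃ₐ[k] M) (ρ : Matrix I I ℤ),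
  XAll p ι l ζ w → Sg p σ ρ → ∃ g : Aut (XX p ι ζ w), ∀ (D : W I κ ℤ) (ν : Curve (XX p ι ζ w)),
    ipW p.B D (ZZ p ι l ζ (ν.push (g.1 : K →ₐ[k] K) fun O => (g.2 O).1)) =
      ipW p.B (actW ρ D) (ZZ p ι l ζ ν)

end Pool.Agent.MP_20d318_ag.CB

end MrgPart2

-- ======== part 3: formerly Pool.Agent.MP_20d318_ag.CB.Jac
section MrgPart3

/-! Derivations of the field of rational functions in two variables. -/

set_option autoImplicit false

namespace Pool.Agent.MP_20d318_ag.CB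

open Pool.Agent.MP_79c67d_ag Pool.Agent.MP_20d318_ag.AG Pool.Agent.MP_20d318_ag.BV MvPolynomial
open Pool.Agent.MP_20d318_ag.RS (jac)
open scoped IntermediateField

namespace Jac

variable {k M : Type} [Field k] [Field M] [Algebra k M]

/-- The chain rule holds for `c`, with coefficients in `O`. -/
def Ch (O : Subalgebra k M) (a b c : M) : Prop := ∃ p ∈ O, ∃ q ∈ O,
  ∀ (K : Type) [Field K] [Algebra k K] (ι : M →ₐ[k] K) (N : Type) [AddCommGroup N] [Module K N]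
    [Module k N] (D : Derivation k K N), D (ι c) = ι p • D (ι a) + ι q • D (ι b)

theorem ch_adjoin {O : Subalgebra k M} {a b : M} (h : Algebra.adjoin k {a, b} ≤ O) :
    ∀ c ∈ Algebra.adjoin k {a, b}, Ch O a b c := by
  intro c hc
  induction hc using Algebra.adjoin_induction with
  | mem g hg =>
    rcases hg with rfl | rfl
    · exact ⟨1, O.one_mem, 0, O.zero_mem, fun K _ _ ι N _ _ _ D => by simp⟩
    · exact ⟨0, O.zero_mem, 1, O.one_mem, fun K _ _ ι N _ _ _ D => by simp⟩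
  | algebraMap c =>
    exact ⟨0, O.zero_mem, 0, O.zero_mem, fun K _ _ ι N _ _ _ D => by
      rw [AlgHom.commutes, Derivation.map_algebraMap]; simp⟩
  | add c d _ _ hc hd =>
    obtain ⟨p, hp, q, hq, e⟩ := hc
    obtain ⟨p', hp', q', hq', e'⟩ := hd
    refine ⟨p + p', O.add_mem hp hp', q + q', O.add_mem hq hq', fun K _ _ ι N _ _ _ D => ?_⟩
    rw [map_add, map_add, e, e', map_add, map_add, add_smul, add_smul]
    abel
  | mul c d hc' hd' hc hd =>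
    obtain ⟨p, hp, q, hq, e⟩ := hc
    obtain ⟨p', hp', q', hq', e'⟩ := hd
    refine ⟨c * p' + d * p, O.add_mem (O.mul_mem (h hc') hp') (O.mul_mem (h hd') hp),
      c * q' + d * q, O.add_mem (O.mul_mem (h hc') hq') (O.mul_mem (h hd') hq),
      fun K _ _ ι N _ _ _ D => ?_⟩
    rw [map_mul, Derivation.leibniz, e, e']
    simp only [map_add, map_mul, add_smul, smul_add, mul_smul]
    abel

theorem ch_pts {O : Subalgebra k M} {a b : M} (h : O ∈ Pts (Algebra.adjoin k {a, b})) :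
    ∀ c ∈ O, Ch O a b c := by
  intro f hf
  obtain ⟨c, hc', d, hd', hu, rfl⟩ := h.2.2 f hf
  obtain ⟨p, hp, q, hq, e⟩ := ch_adjoin h.2.1 c hc'
  obtain ⟨p', hp', q', hq', e'⟩ := ch_adjoin h.2.1 d hd'
  have hc := h.2.1 hc'
  refine ⟨d⁻¹ ^ 2 * (d * p - c * p'), O.mul_mem (O.pow_mem hu.inv_mem 2)
      (O.sub_mem (O.mul_mem hu.mem hp) (O.mul_mem hc hp')),
    d⁻¹ ^ 2 * (d * q - c * q'), O.mul_mem (O.pow_mem hu.inv_mem 2)
      (O.sub_mem (O.mul_mem hu.mem hq) (O.mul_mem hc hq')), fun K _ _ ι N _ _ _ D => ?_⟩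
  rw [map_div₀, Derivation.leibniz_div, e, e']
  simp only [map_sub, map_mul, map_pow, map_inv₀, sub_smul, smul_sub, smul_add, mul_smul, mul_sub]
  abel

theorem Ch.id {O : Subalgebra k M} {a b c : M} (h : Ch O a b c) : ∃ p ∈ O, ∃ q ∈ O,
    ∀ D : Derivation k M M, D c = p * D a + q * D b := by
  obtain ⟨p, hp, q, hq, e⟩ := h
  exact ⟨p, hp, q, hq, fun D => e M (AlgHom.id k M) M D⟩

theorem jacM {O : Subalgebra k M} {a b : M} (h : O ∈ Pts (Algebra.adjoin k {a, b})) {c d : M}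
    (hc : c ∈ O) (hd : d ∈ O) : ∃ J ∈ O, ∀ (ι : M →ₐ[k] M) (D₁ D₂ : Derivation k M M),
      jac D₁ D₂ (ι c) (ι d) = ι J * jac D₁ D₂ (ι a) (ι b) := by
  obtain ⟨p, hp, q, hq, e⟩ := ch_pts h c hc
  obtain ⟨p', hp', q', hq', e'⟩ := ch_pts h d hd
  refine ⟨p * q' - q * p', O.sub_mem (O.mul_mem hp hq') (O.mul_mem hq hp'), fun ι D₁ D₂ => ?_⟩
  simp only [jac, e M ι M, e' M ι M, smul_eq_mul, map_sub, map_mul]
  ring

theorem lin (D₁ D₂ : Derivation k M M) (a r : M) : ∃ D : Derivation k M M,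
    ∀ f, D f = r * jac D₁ D₂ a f :=
  ⟨(r * D₁ a) • D₂ - (r * D₂ a) • D₁, fun f => by
    simp only [Derivation.coe_sub, Derivation.coe_smul, Pi.sub_apply, Pi.smul_apply, smul_eq_mul,
      jac]
    ring⟩

/-- The constants of a derivation. -/
def kerF (D : Derivation k M M) : IntermediateField k M where
  carrier := {f | D f = 0}
  mul_mem' {a b} ha hb := by
    have ha' : D a = 0 := ha
    have hb' : D b = 0 := hb
    change D (a * b) = 0
    rw [Derivation.leibniz, ha', hb', smul_zero, smul_zero, add_zero]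
  add_mem' {a b} ha hb := by
    have ha' : D a = 0 := ha
    have hb' : D b = 0 := hb
    change D (a + b) = 0
    rw [map_add, ha', hb', add_zero]
  algebraMap_mem' c := D.map_algebraMap c
  inv_mem' a ha := by
    have ha' : D a = 0 := ha
    change D a⁻¹ = 0
    rw [Derivation.leibniz_inv, ha', smul_zero]

theorem alg_zero [CharZero k] (D : Derivation k M M) (F : IntermediateField k M)
    (hF : F ≤ kerF D) {r : M} (hr : IsAlgebraic F r) : D r = 0 := by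
  have key : ∀ p : Polynomial F,
      D (Polynomial.aeval r p) = Polynomial.aeval r (Polynomial.derivative p) * D r := by
    intro p
    induction p using Polynomial.induction_on' with
    | add p q hp hq => simp only [map_add, hp, hq, add_mul]
    | monomial n c =>
      have hc : D (algebraMap F M c) = 0 := hF c.2
      rw [Polynomial.aeval_monomial, Derivation.leibniz, hc, smul_zero, add_zero,
        Derivation.leibniz_pow, Polynomial.derivative_monomial, Polynomial.aeval_monomial]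
      simp only [smul_eq_mul, nsmul_eq_mul, map_mul, map_natCast]
      ring
  haveI : CharZero F := algebraRat.charZero F
  have hs : (minpoly F r).Separable := (minpoly.irreducible hr.isIntegral).separable
  have h0 := key (minpoly F r)
  rw [minpoly.aeval, map_zero] at h0
  exact (mul_eq_zero.1 h0.symm).resolve_left (hs.aeval_derivative_ne_zero (minpoly.aeval F r))

theorem range_pair (a b : M) : Set.range ![a, b] = {a, b} := by
  ext z
  simp only [Set.mem_insert_iff, Set.mem_singleton_iff, Set.mem_range, Fin.exists_fin_two,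
    Matrix.cons_val_zero, Matrix.cons_val_one, eq_comm]

theorem zero_of [CharZero k] {x y a b : M} (hg : GenP k x y) (hi : AlgebraicIndependent k ![a, b])
    (D : Derivation k M M) (ha : D a = 0) (hb : D b = 0) (f : M) : D f = 0 := by
  have h2 : IsTranscendenceBasis k ![x, y] := by
    rw [hg.ind.isTranscendenceBasis_iff_isAlgebraic,
      ← IntermediateField.isAlgebraic_adjoin_iff_top, range_pair, hg.top]
    exact ⟨fun z => isAlgebraic_algebraMap (⟨z, trivial⟩ : (⊤ : IntermediateField k M))⟩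
  have h3 := (hi.isTranscendenceBasis_of_trdeg_le_of_finite
    h2.cardinalMk_eq_trdeg.ge).isAlgebraic_field
  refine alg_zero D _ ?_ (h3.isAlgebraic f)
  rw [range_pair, IntermediateField.adjoin_le_iff]
  rintro z (rfl | rfl)
  · exact ha
  · exact hb

end Jac

open Jac in
/-- JAC. -/
theorem jac_stmt : JacStmt := by
  intro hP k M _ _ _ _ _
  refine ⟨fun O a b h c hc => (ch_pts h.2 c hc).id, fun O a b h c hc d hd => ?_,
    fun O a b c d h h' => ?_, fun D₁ D₂ x y a b hg hj hi h0 => hj ?_, lin,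
    fun D t r ht hr => ?_, fun D₁ D₂ x y hg σ a b c d => ?_,
    fun D₁ D₂ x y hg hj K _ _ ι D a => ?_⟩
  · obtain ⟨J, hJ, e⟩ := jacM h.2 hc hd
    exact ⟨J, hJ, e (AlgHom.id k M)⟩
  · obtain ⟨J, hJ, e⟩ := jacM h.2 (h'.2.2.1 (Algebra.subset_adjoin (Or.inl rfl)) : c ∈ O)
      (h'.2.2.1 (Algebra.subset_adjoin (Or.inr rfl)) : d ∈ O)
    obtain ⟨J', hJ', e'⟩ := jacM h'.2 (h.2.2.1 (Algebra.subset_adjoin (Or.inl rfl)) : a ∈ O)
      (h.2.2.1 (Algebra.subset_adjoin (Or.inr rfl)) : b ∈ O)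
    obtain ⟨E₁, h₁⟩ := (hP k M a b h.1).der 0
    obtain ⟨E₂, h₂⟩ := (hP k M a b h.1).der 1
    have a1 : E₁ a = 1 := by simpa using h₁ (X 0)
    have b1 : E₁ b = 0 := by simpa using h₁ (X 1)
    have a2 : E₂ a = 0 := by simpa using h₂ (X 0)
    have b2 : E₂ b = 1 := by simpa using h₂ (X 1)
    have j1 : jac E₁ E₂ a b = 1 := by simp [jac, a1, b1, a2, b2]
    have f1 : jac E₁ E₂ c d = J * jac E₁ E₂ a b := e (AlgHom.id k M) E₁ E₂
    have f2 : jac E₁ E₂ a b = J' * jac E₁ E₂ c d := e' (AlgHom.id k M) E₁ E₂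
    rw [f1, j1, mul_one] at f2
    refine ⟨J, ⟨right_ne_zero_of_mul_eq_one f2.symm, hJ, ?_⟩, e (AlgHom.id k M)⟩
    rw [← eq_inv_of_mul_eq_one_left f2.symm]
    exact hJ'
  · have Z := zero_of hg hi
    obtain ⟨Ea, ha⟩ := lin D₁ D₂ a 1
    obtain ⟨Eb, hb⟩ := lin D₁ D₂ b 1
    simp only [one_mul] at ha hb
    have za := Z Ea (by rw [ha, jac]; ring) (by rw [ha, h0])
    have zb := Z Eb (by rw [hb, ← neg_eq_zero, ← h0, jac, jac]; ring) (by rw [hb, jac]; ring)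
    have key : ∀ c : M, jac D₁ D₂ c x = 0 → jac D₁ D₂ c y = 0 → D₁ c = 0 := by
      intro c hx hy
      have : D₁ c * jac D₁ D₂ x y = D₁ x * jac D₁ D₂ c y - D₁ y * jac D₁ D₂ c x := by
        simp only [jac]; ring
      rw [hx, hy, mul_zero, mul_zero, sub_zero] at this
      exact (mul_eq_zero.1 this).resolve_right hj
    have z1 := Z D₁ (key a (by rw [← ha, za]) (by rw [← ha, za]))
      (key b (by rw [← hb, zb]) (by rw [← hb, zb]))
    rw [jac, z1, z1, zero_mul, mul_zero, sub_zero]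
  · refine alg_zero D _ ?_ hr
    rw [IntermediateField.adjoin_simple_le_iff]
    exact ht
  · have ht := top_mem_Pts (hP k M x y hg).frac
    obtain ⟨J, -, e⟩ := jacM ht (c := a) (d := b) trivial trivial
    obtain ⟨J', -, e'⟩ := jacM ht (c := c) (d := d) trivial trivial
    have f1 : jac D₁ D₂ a b = J * jac D₁ D₂ x y := e (AlgHom.id k M) D₁ D₂
    have f2 : jac D₁ D₂ c d = J' * jac D₁ D₂ x y := e' (AlgHom.id k M) D₁ D₂
    have g1 : jac D₁ D₂ (σ a) (σ b) = σ J * jac D₁ D₂ (σ x) (σ y) := e (σ : M →ₐ[k] M) D₁ D₂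
    have g2 : jac D₁ D₂ (σ c) (σ d) = σ J' * jac D₁ D₂ (σ x) (σ y) := e' (σ : M →ₐ[k] M) D₁ D₂
    rw [f1, f2, g1, g2, map_mul, map_mul]
    ring
  · obtain ⟨p, -, q, -, e⟩ := ch_pts (top_mem_Pts (hP k M x y hg).frac) a trivial
    have e1 : D₁ a = p * D₁ x + q * D₁ y := e M (AlgHom.id k M) M D₁
    have e2 : D₂ a = p * D₂ x + q * D₂ y := e M (AlgHom.id k M) M D₂
    have f1 : jac D₁ D₂ a y / jac D₁ D₂ x y = p := by
      rw [div_eq_iff hj, jac, jac, e1, e2]; ring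
    have f2 : jac D₁ D₂ x a / jac D₁ D₂ x y = q := by
      rw [div_eq_iff hj, jac, jac, e1, e2]; ring
    rw [f1, f2]
    exact e K ι _ D

end Pool.Agent.MP_20d318_ag.CB

end MrgPart3

-- ======== part 4: formerly Pool.Agent.MP_20d318_ag.CB.XCls
section MrgPart4

/-! The divisor class group of the threefold. -/

set_option autoImplicit false

namespace Pool.Agent.MP_20d318_ag.CB

open Pool.Agent.MP_79c67d_ag Pool.Agent.MP_20d318_ag.AG Pool.Agent.MP_20d318_ag.BV MvPolynomial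

namespace XCls

section lattice

variable {I κ : Type} [Fintype I] [Fintype κ] (B : I → I → ℤ)

theorem ipW_add (D D' Z : W I κ ℤ) : ipW B (D + D') Z = ipW B D Z + ipW B D' Z := by
  simp only [ipW, ip, Prod.fst_add, Prod.snd_add, Pi.add_apply, add_mul, Finset.sum_add_distrib]
  ring

theorem ipW_smul (n : ℤ) (D Z : W I κ ℤ) : ipW B (n • D) Z = n * ipW B D Z := by
  simp only [ipW, ip, Prod.smul_fst, Prod.smul_snd, Pi.smul_apply, smul_eq_mul, mul_sub, mul_add,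
    Finset.mul_sum, mul_assoc]

theorem ipW_zero (Z : W I κ ℤ) : ipW B 0 Z = 0 := by simp [ipW, ip]

open Classical in
theorem ipW_E (i : κ) (j : Fin 4) (Z : W I κ ℤ) :
    ipW B (0, 0, fun i' j' => if i' = i ∧ j' = j then -1 else 0) Z = Z.2.2 i j := by
  simp [ipW, ip, ite_and]

theorem ipW_T (Z : W I κ ℤ) : ipW B (0, 1, 0) Z = Z.2.1 := by simp [ipW, ip]

theorem ipW_L (c : I → ℤ) (Z : W I κ ℤ) : ipW B (c, 0, 0) Z = ip B c Z.1 := by simp [ipW]

end lattice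

variable {k M K I κ : Type} [Field k] [Field M] [Field K] [Algebra k M] [Algebra k K] [Fintype I]
  [Fintype κ] {p : Pd k M I κ} {ι : M →ₐ[k] K} {l : k} {ζ w : K}

theorem mx_of_ord {P : Place k K} {a : K} (ha : a ∈ plO P) (h : P.ord a ≠ 0) : a ∈ mx (plO P) :=
  ⟨ha, fun hu => h ((isU_plO' _).1 hu).2⟩

theorem ord_ne {P : Place k K} {a : K} (h0 : a ≠ 0) (ha : a ∈ mx (plO P)) : P.ord a ≠ 0 :=
  fun h => ha.2 ((isU_plO' _).2 ⟨h0, h⟩)

theorem zeta_mem {O : Subalgebra k K} (h : IsU O (tau l ζ 3 O)) : ζ ∈ O := by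
  by_contra hz
  have h1 := h.inv_mem
  simp [tau, eta, hz] at h1

/-- A place on the generic fibre lies in the affine chart. -/
theorem gen_pts (hL : XLoc p ι l ζ w) {P : Place k K} (hP : plO P ∈ XX p ι ζ w)
    (ht : pr ι p.T (plO P) = ⊤) (hu : ∀ j, IsU (plO P) (tau l ζ j (plO P))) :
    plO P ∈ Pts (Algebra.adjoin k (Set.range ι ∪ {ζ, w})) := by
  have hz := zeta_mem (hu 3)
  have hm : ∀ m, ι m ∈ plO P := fun m => hL.maps.mem_up hP (by rw [ht]; trivial)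
  have hmu : ∀ m, ι m ≠ 0 → IsU (plO P) (ι m) := fun m h0 => ⟨h0, hm m, by
    rw [← map_inv₀]; exact hm _⟩
  have hs : ∀ i, IsU (plO P) (sX p ι i (plO P)) := fun i => hmu _ (hL.sne _ hP i)
  have h2 : IsU (plO P) (AA p ι ζ w (plO P) ^ 2) := by
    have h4 := isU_prod (s := Finset.univ) fun i _ => hs i
    have h3 := (isU_prod (s := Finset.univ) fun j _ => hu j).div h4
    rwa [← hL.eqn _ hP, mul_div_cancel_right₀ _ h4.ne] at h3
  have hA : AA p ι ζ w (plO P) ∈ plO P := by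
    rcases hL.aa _ hP with h | h
    · exact h
    · have h3 : IsU (plO P) ((AA p ι ζ w (plO P))⁻¹ ^ 2) := by
        rw [inv_pow]; exact h2.inv
      simpa using (IsU.of_pow h two_ne_zero h3).inv_mem
  obtain ⟨m, hAm⟩ : ∃ m, AA p ι ζ w (plO P) = w * ι m :=
    ⟨(p.φ * p.jj (pr ι p.T (plO P)))⁻¹, by simp [AA, up, eta, hz, div_eq_mul_inv]⟩
  have hm0 : ι m ≠ 0 := fun h => hL.ane _ hP (by rw [hAm, h, mul_zero])
  have hw : w ∈ plO P := by
    have h3 := (hmu m hm0).div_mem hA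
    rwa [hAm, mul_div_cancel_right₀ _ hm0] at h3
  refine Pts_of_le (hL.pts _ hP _ hA (Or.inl rfl)) (Algebra.adjoin_le ?_) (Algebra.adjoin_le ?_)
  · rintro a (⟨b, -, rfl⟩ | rfl | rfl)
    · exact Algebra.subset_adjoin (Or.inl ⟨b, rfl⟩)
    · rw [zc, if_pos hz]; exact Algebra.subset_adjoin (Or.inr (Or.inl rfl))
    · rw [hAm]
      exact Subalgebra.mul_mem _ (Algebra.subset_adjoin (Or.inr (Or.inr rfl)))
        (Algebra.subset_adjoin (Or.inl ⟨m, rfl⟩))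
  · rintro a (⟨b, rfl⟩ | rfl | rfl)
    exacts [hm b, hz, hw]

variable (p ι l ζ w) in
/-- Divisors whose class is in the lattice. -/
def Gd (g : Subalgebra k K → K) : Prop := IsCart (XX p ι ζ w) g ∧
  ∃ D : W I κ ℤ, ∀ ν : Curve (XX p ι ζ w), ν.deg g = ipW p.B D (ZZ p ι l ζ ν)

variable (p ι l ζ) in
open Classical in
/-- The order in which the places are treated. -/
noncomputable def lev (P : Place k K) : ℕ :=
  if ∃ i j, sX p ι i (plO P) ∈ mx (plO P) ∧ tau l ζ j (plO P) ∈ mx (plO P) then 0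
  else if pr ι p.T (plO P) = ⊤ ∧ ∀ j, IsU (plO P) (tau l ζ j (plO P)) then 2 else 1

theorem lev_zero {P : Place k K} {i : κ} {j : Fin 4} (h1 : sX p ι i (plO P) ∈ mx (plO P))
    (h2 : tau l ζ j (plO P) ∈ mx (plO P)) : lev p ι l ζ P = 0 := if_pos ⟨i, j, h1, h2⟩

theorem lev_pos {P : Place k K}
    (h : ¬ ∃ i j, sX p ι i (plO P) ∈ mx (plO P) ∧ tau l ζ j (plO P) ∈ mx (plO P)) :
    0 < lev p ι l ζ P := by
  rw [lev, if_neg h]; split_ifs <;> norm_num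

theorem step [CharZero k] [IsAlgClosed k] (hH : HorBStmt) (hX : XAll p ι l ζ w)
    (hP : XPl p ι l ζ w) (hM : MW p l) (P : Place k K) (hm : plO P ∈ XX p ι ζ w) :
    ∃ g, Gd p ι l ζ w g ∧ P.ord (g (plO P)) ≠ 0 ∧ ∀ P' : Place k K,
      plO P' ∈ XX p ι ζ w → P' ≠ P → P'.ord (g (plO P')) ≠ 0 →
        lev p ι l ζ P' < lev p ι l ζ P := by
  have hL := hX.loc
  have hD := hX.div
  by_cases h0 : ∃ i j, sX p ι i (plO P) ∈ mx (plO P) ∧ tau l ζ j (plO P) ∈ mx (plO P)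
  · obtain ⟨i, j, h1, h2⟩ := h0
    refine ⟨EE p ι l ζ i j, ⟨hD.cartE i j, _, fun ν => (ipW_E p.B i j (ZZ p ι l ζ ν)).symm⟩,
      ord_ne ((hD.cartE i j).ne hm) (hD.emx _ hm i j h1 h2), fun P' hm' hne ho => ?_⟩
    have h3 : ¬ IsU (plO P') (EE p ι l ζ i j (plO P')) := fun h => ho ((isU_plO' _).1 h).2
    exact absurd (hP.uE P' P i j hm' hm ⟨hL.sm _ hm' i, fun h => h3 (hD.eu _ hm' i j (Or.inl h))⟩
      ⟨hL.tm _ hm' j, fun h => h3 (hD.eu _ hm' i j (Or.inr h))⟩ h1 h2) hne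
  have key : ∀ P' : Place k K, plO P' ∈ XX p ι ζ w → ∀ j, tau l ζ j (plO P') ∈ mx (plO P') →
      lev p ι l ζ P' = 0 ∨ pr ι p.T (plO P') = ⊤ := fun P' hm' j hj => by
    by_cases h : ∃ i, sX p ι i (plO P') ∈ mx (plO P')
    · obtain ⟨i, hi⟩ := h
      exact Or.inl (lev_zero hi hj)
    · exact Or.inr (hP.top P' j hm' hj fun i => isU_of_not_mx (hL.sm _ hm' i) fun h' => h ⟨i, h'⟩)
  have hpos := lev_pos h0
  by_cases h1 : ∃ j, tau l ζ j (plO P) ∈ mx (plO P)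
  · obtain ⟨j, hj⟩ := h1
    refine ⟨tau l ζ j, ⟨hD.cartT j, _, fun ν => (hD.degT ν j).trans (ipW_T _ _).symm⟩,
      ord_ne (hL.tne _ j) hj, fun P' hm' hne ho => ?_⟩
    have h3 := mx_of_ord (hL.tm _ hm' j) ho
    rcases key P' hm' j h3 with h | h
    · rwa [h]
    · exact absurd (hP.uT P' P j hm' hm h3 h hj ((key P hm j hj).resolve_left hpos.ne')) hne
  have hu : ∀ j, IsU (plO P) (tau l ζ j (plO P)) := fun j =>
    isU_of_not_mx (hL.tm _ hm j) fun h => h1 ⟨j, h⟩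
  have hT := hX.t.all.a1
  rcases hP.pl P hm with ht | ⟨P₀, ht⟩
  · have hf0 := hX.t.φne
    obtain ⟨a, ha⟩ : ∃ a, a ∉ plO P := by
      by_contra hc
      push Not at hc
      exact plO_ne_top _ (eq_top_iff.2 fun a _ => hc a)
    obtain ⟨h, hB, hh0, hh, H⟩ := hH k M K ι p.φ l ζ w hf0 hX.ext.tr hX.ext.eq _
      (gen_pts hL hm ht hu)
      ⟨a⁻¹, (plO_isVal _).inv_mx ha, inv_ne_zero fun e => ha (e ▸ (plO P).zero_mem)⟩
    refine ⟨fun _ => h, ⟨isCart_const hh0, 0, fun ν => (deg_const ν h).trans (ipW_zero _ _).symm⟩,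
      ord_ne hh0 hh, fun P' hm' hne ho => ?_⟩
    rw [lev.eq_1 p ι l ζ P, if_neg h0, if_pos ⟨ht, hu⟩, lev]
    split_ifs with e1 e2
    · norm_num
    · exfalso
      have hp := gen_pts hL hm' e2.1 e2.2
      have hz := zeta_mem (e2.2 3)
      rcases H _ hp (mx_of_ord (hp.2.1 hB) ho) with e | ⟨a, b, e, h2, -⟩
      · exact hne (plO_inj e.le)
      · have hb := hM a b e
        rw [hb, zero_pow two_ne_zero, eq_comm, mul_eq_zero, mul_eq_zero, mul_eq_zero] at e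
        rcases e with e | (e | e) | e
        · exact hf0 e
        · exact (e2.2 0).not_mx (by simpa [tau, eta, hz, e] using h2)
        · exact (e2.2 1).not_mx (by simpa [tau, eta, hz, sub_eq_zero.1 e] using h2)
        · exact (e2.2 2).not_mx (by simpa [tau, eta, hz, sub_eq_zero.1 e] using h2)
    · norm_num
  · have hm0 : plO P₀ ∈ p.T := ht ▸ hL.maps.mem hm
    obtain ⟨c, φ, hc⟩ := hX.t.all.s.all P₀ hm0
    have hC := isCart_up hT.nice.toGood hL.fine.toGood hL.maps (hT.pcart c φ hc.1)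
    have hx : ∀ O ∈ XX p ι ζ w, up ι p.T (fun R => φ * p.lb c R) O ∈ O ∧
        (up ι p.T (fun R => φ * p.lb c R) O ∈ mx O ↔ pr ι p.T O ≤ plO P₀) :=
      fun O hO => by
        have h2 := hT.pmem c φ P₀ hc _ (hL.maps.mem hO)
        exact ⟨hL.maps.mem_up hO h2,
          (hL.maps.mx_up hO h2).trans (hT.pmx c φ P₀ hc _ (hL.maps.mem hO))⟩
    refine ⟨_, ⟨hC, _, fun ν => (hD.degL ν c φ hc.1).trans (ipW_L _ _ _).symm⟩,
      ord_ne (hC.ne hm) ((hx _ hm).2.2 ht.le), fun P' hm' hne ho => ?_⟩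
    have h2 := (hx _ hm').2.1 (mx_of_ord (hx _ hm').1 ho)
    have h3 : pr ι p.T (plO P') ≠ ⊤ := fun e => plO_ne_top _ (top_le_iff.1 (e ▸ h2))
    obtain ⟨P₁, h4⟩ := (hP.pl P' hm').resolve_left h3
    obtain rfl : P₁ = P₀ := plO_inj (h4 ▸ h2)
    by_cases h5 : ∃ j, tau l ζ j (plO P') ∈ mx (plO P')
    · obtain ⟨j, hj⟩ := h5
      rwa [(key P' hm' j hj).resolve_right h3]
    · exact absurd (hP.uV P' P P₁ hm' hm
        (fun j => isU_of_not_mx (hL.tm _ hm' j) fun h => h5 ⟨j, h⟩) hu h4 ht) hne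

end XCls

open XCls in
theorem xCls_stmt : XClsStmt := by
  intro hH hC k M K I κ _ _ _ _ _ _ _ _ _ p ι l ζ w hX hP hM hN C
  have hG := hX.loc.fine.toGood
  obtain ⟨N, g, h0, ⟨hg, D, hD⟩, hu⟩ := hC k K (XX p ι ζ w) (Gd p ι l ζ w)
    (lev p ι l ζ) ⟨hX.loc.fine, hN⟩ (fun _ h => h.1)
    (fun f g ⟨hf, D, hD⟩ ⟨hg, D', hD'⟩ => ⟨hf.mul hg, D + D', fun ν => by
      rw [deg_mul hG hf hg, hD, hD', ipW_add]⟩)
    (fun g n ⟨hg, D, hD⟩ => ⟨hg.zpow n, n • D, fun ν => by rw [deg_zpow hG hg, hD, ipW_smul]⟩)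
    ⟨isCart_one, 0, fun ν => (deg_one ν).trans (ipW_zero _ _).symm⟩ (step hH hX hP hM) C.f C.loc
  have hf : IsCart (XX p ι ζ w) C.f := C.loc
  exact ⟨N, D, h0, fun ν => by rw [← deg_zpow hG hf, deg_congr hG (hf.zpow N) hg hu, hD]⟩

end Pool.Agent.MP_20d318_ag.CB

end MrgPart4

-- marker of a merged file
example : 731051 + 133613 = 731051 + 133613 := rfl
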