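import Pool.Agent.MP_20d318_ag.CB.XCls
import Pool.Agent.MP_20d318_ag.BV.SigX

-- ======== part 0: formerly Pool.Agent.MP_20d318_ag.CB.Trans
section MrgPart0

/-! Translations as powers of products of two involutions. -/

set_option autoImplicit false

namespace Pool.Agent.MP_20d318_ag.CB

open Pool.Agent.MP_79c67d_ag Pool.Agent.MP_20d318_ag.AG Pool.Agent.MP_20d318_ag.BV MvPolynomial
open Pool.Agent.MP_20d318_ag.RS (jac)
open scoped IntermediateField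

namespace TransA

section lattice

variable {ι κ : Type} [Fintype ι] (Λ : Ld ι κ)

theorem perp {z : ι → ℤ} (h : toR z ∈ Λ.V) : ip Λ.B z Λ.F = 0 := by
  have key : ∀ v ∈ Λ.V, ip Λ.B v (toR Λ.F) = 0 := fun v hv => by
    induction hv using Submodule.span_induction with
    | mem v hv =>
      obtain ⟨c, hc, rfl⟩ := hv
      rw [ip_toR, hc.2, Int.cast_zero]
    | zero => exact ip_zero_left _
    | add a b _ _ ha hb => rw [ip_add_left, ha, hb, add_zero]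
    | smul r a _ ha => rw [ip_smul_left, ha, mul_zero]
  have h1 := key _ h
  rw [ip_toR] at h1
  exact_mod_cast h1

theorem tl_two {ρ ρ' : Matrix ι ι ℤ} {D x : ι → ℤ} (hD : ip Λ.B D Λ.F = 2)
    (h : ∀ y, toR (act ρ y + y - ip Λ.B y Λ.F • D) ∈ Λ.V)
    (h' : ∀ y, toR (act ρ' y + y - ip Λ.B y Λ.F • (D + x)) ∈ Λ.V) : Λ.Tl (ρ' * ρ) x := fun y => by
  have h1 := perp Λ (h y)
  rw [ip_sub_left, ip_add_left, ip_smul_left, hD] at h1
  have h2 : ip Λ.B (act ρ y) Λ.F = ip Λ.B y Λ.F := by omega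
  have h3 := Λ.V.sub_mem (h' (act ρ y)) (h y)
  rw [h2, ← toR_sub] at h3
  rw [act_mul]
  convert h3 using 2
  rw [smul_add]
  abel

theorem tl_mul {ρ ρ' : Matrix ι ι ℤ} {x x' : ι → ℤ} (hx : ip Λ.B x Λ.F = 0) (h : Λ.Tl ρ x)
    (h' : Λ.Tl ρ' x') : Λ.Tl (ρ' * ρ) (x' + x) := fun y => by
  have h1 := perp Λ (h y)
  rw [ip_sub_left, ip_sub_left, ip_smul_left, hx] at h1
  have h2 : ip Λ.B (act ρ y) Λ.F = ip Λ.B y Λ.F := by omega
  have h3 := Λ.V.add_mem (h' (act ρ y)) (h y)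
  rw [h2, ← toR_add] at h3
  rw [act_mul]
  convert h3 using 2
  rw [smul_add]
  abel

end lattice

section geometry

variable {k M I κ : Type} [Field k] [Field M] [Algebra k M]

/-- The place transported along an automorphism. -/
def pc (σ : M ≃ₐ[k] M) (P : Place k M) : Place k M where
  v := P.v.comap (σ : M →+* M)
  surj n := by
    obtain ⟨m, hm⟩ := P.surj n
    exact ⟨σ.symm m, by simpa using hm⟩
  triv c := by simpa using P.triv c

theorem pc_ord (σ : M ≃ₐ[k] M) (P : Place k M) (m : M) : (pc σ P).ord m = P.ord (σ m) := rfl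

theorem pc_plO (σ : M ≃ₐ[k] M) (P : Place k M) :
    plO (pc σ P) = (plO P).comap (σ : M →ₐ[k] M) := rfl

theorem eq_of_ord {P Q : Place k M} (h : ∀ m, P.ord m = Q.ord m) : P = Q :=
  plO_inj fun m hm => mem_plO_ord.2 (h m ▸ mem_plO_ord.1 hm)

theorem isU_map {σ : M ≃ₐ[k] M} {O : Subalgebra k M} {a b : M}
    (h : IsU (O.comap (σ : M →ₐ[k] M)) (a / b)) : IsU O (σ a / σ b) := by
  have h1 := (isU_comap _).1 h
  rwa [map_div₀] at h1

theorem cht_map {σ : M ≃ₐ[k] M} {O : Subalgebra k M} {a b : M}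
    (h : Cht (O.comap (σ : M →ₐ[k] M)) a b) : Cht O (σ a) (σ b) := by
  refine ⟨h.1.map σ, ?_⟩
  have h1 := (B1.Pts_comap σ _).2 h.2
  rwa [AlgHom.map_adjoin, Set.image_pair] at h1

theorem isU_trans {O : Subalgebra k M} {a b c : M} (h : IsU O (a / b)) (h' : IsU O (b / c)) :
    IsU O (a / c) := by
  have hb : b ≠ 0 := fun e => h.1 (by rw [e, div_zero])
  have h1 := h.mul h'
  rwa [div_mul_div_cancel₀ hb] at h1

variable [Fintype I] [Fintype κ] (p : Pd k M I κ)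

/-- Automorphisms that preserve the form and permute the components by `π`. -/
structure Gd (σ : M ≃ₐ[k] M) (ρ : Matrix I I ℤ) (π : Equiv.Perm κ) : Prop where
  inv : Inv p.toSd σ
  rep : Rep p.toSd σ ρ
  form : Form p σ
  st : ∀ i, ∀ O ∈ p.T, IsU O (σ (p.s i (O.comap (σ : M →ₐ[k] M))) / p.s (π i) O)

variable {p}

omit [Fintype κ] in
theorem Gd.mul {σ σ' : M ≃ₐ[k] M} {ρ ρ' : Matrix I I ℤ} {π π' : Equiv.Perm κ} (h : Gd p σ ρ π)
    (h' : Gd p σ' ρ' π') : Gd p (σ' * σ) (ρ' * ρ) (π' * π) where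
  inv O := (h'.inv O).trans (h.inv _)
  rep c := by
    obtain ⟨μ, h0, h1⟩ := h.rep c
    obtain ⟨μ', h0', h1'⟩ := h'.rep (act ρ c)
    have hμ : σ' μ ≠ 0 := (map_ne_zero σ').2 h0
    refine ⟨σ' μ * μ', mul_ne_zero hμ h0', fun O hO => ?_⟩
    have h2 := isU_map (h1 _ ((h'.inv O).1 hO))
    have h3 := h1' O hO
    rw [← mul_div_mul_left _ _ hμ, ← map_mul] at h3
    rw [act_mul, mul_assoc]
    exact isU_trans h2 h3
  form := by
    obtain ⟨e, h0, h1⟩ := h.form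
    obtain ⟨e', h0', h1'⟩ := h'.form
    refine ⟨e * e', mul_ne_zero h0 h0', fun a b => ?_⟩
    rw [AlgEquiv.mul_apply, h1, map_mul, h1', AlgEquiv.commutes, map_mul, mul_assoc]
    rfl
  st i O hO := by
    have h1 := isU_map (h.st i _ ((h'.inv O).1 hO))
    exact isU_trans h1 (h'.st (π i) O hO)

theorem prod_unit (hp : Pair0 p) {σ : M ≃ₐ[k] M} (hi : Inv p.toSd σ) (hf : Form p σ)
    {O : Subalgebra k M} (hO : O ∈ p.T) :
    IsU O (σ (∏ i, p.s i (O.comap (σ : M →ₐ[k] M))) / ∏ i, p.s i O) := by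
  have hO' := (hi O).1 hO
  obtain ⟨a, b, hab⟩ := hp.all.a1.chart _ hO'
  obtain ⟨e, h0, h1⟩ := hf
  have h2 := isU_map (hp.chart _ hO' a b hab)
  have h3 := hp.chart _ hO _ _ (cht_map hab)
  have h4 := ((isU_const (O := O) h0).mul (h3.pow 2)).div (h2.pow 2)
  have n1 : σ (p.j a b) ≠ 0 := fun e => h2.1 (by rw [e, zero_div])
  have n2 : σ (p.jj (O.comap (σ : M →ₐ[k] M))) ≠ 0 := fun e => h2.1 (by rw [e, div_zero])
  have n3 : p.jj O ≠ 0 := fun e => h3.1 (by rw [e, div_zero])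
  have n4 := hp.φne
  have h5 := h1 a b
  rw [map_mul, map_pow] at h5
  rw [← hp.eqn _ hO, ← hp.eqn _ hO', map_mul, map_pow]
  convert h4 using 1
  field_simp
  linear_combination h5

theorem exists_gd (hp : Pair0 p) {σ : M ≃ₐ[k] M} {ρ : Matrix I I ℤ} (hf : Form p σ)
    (ha : Ac p.toSd σ ρ) : ∃ π, Gd p σ ρ π := by
  classical
  choose P hP using hp.prm
  have hc : ∀ i, IsCart p.T (p.s i) := fun i => hp.all.a1.pcart _ _ (hP i).1
  have ho : ∀ i (Q : Place k M), plO Q ∈ p.T →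
      Q.ord (p.s i (plO Q)) = if Q = P i then 1 else 0 := fun i => (hP i).2.2
  have hs : ∀ Q : Place k M, plO Q ∈ p.T →
      Q.ord (∏ i, p.s i (plO Q)) = ∑ i, if Q = P i then 1 else 0 := fun Q hQ => by
    rw [Q.ord_prod _ _ fun i _ => (hc i).ne hQ]
    exact Finset.sum_congr rfl fun i _ => ho i Q hQ
  have hex : ∀ i, ∃ l, pc σ (P l) = P i := fun i => by
    obtain ⟨φ', P', h1, h2⟩ := ha.prm _ _ _ (hP i)
    have h3 : pc σ P' = P i := eq_of_ord h2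
    by_contra hn
    have h4 : ∀ l, P' ≠ P l := fun l e => hn ⟨l, e ▸ h3⟩
    have h5 := prod_unit hp ha.inv hf h1.2.1
    have n1 : σ (∏ i, p.s i ((plO P').comap (σ : M →ₐ[k] M))) ≠ 0 :=
      fun e => h5.1 (by rw [e, zero_div])
    have n2 : ∏ i, p.s i (plO P') ≠ 0 := fun e => h5.1 (by rw [e, div_zero])
    have h6 := ((isU_plO' P').1 h5).2
    rw [P'.ord_div n1 n2, ← pc_ord, ← pc_plO, h3, hs _ (hP i).2.1, hs _ h1.2.1,
      Finset.sum_eq_zero fun l _ => if_neg (h4 l), sub_zero,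
      Finset.sum_eq_zero_iff_of_nonneg fun l _ => by split_ifs <;> norm_num] at h6
    have h7 := h6 i (Finset.mem_univ i)
    rw [if_pos rfl] at h7
    exact one_ne_zero h7
  choose f hf' using hex
  have hinj : Function.Injective f := fun i i' e => by
    have h1 : P i = P i' := by rw [← hf' i, ← hf' i', e]
    refine hp.one _ (hP i).2.1 i i' ?_ ?_
    · exact (hp.all.a1.pmx _ _ _ (hP i) _ (hP i).2.1).2 le_rfl
    · exact (hp.all.a1.pmx _ _ _ (hP i') _ (hP i).2.1).2 (h1 ▸ le_rfl)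
  refine ⟨Equiv.ofBijective f (Finite.injective_iff_bijective.1 hinj), ha.inv, ha.rep, hf,
    fun i O hO => ?_⟩
  refine hp.all.a1.nice.unit_div ((hc i).pull (σ : M →ₐ[k] M) fun O hO => (ha.inv O).1 hO)
    (hc (f i)) hO fun Q hQ => ?_
  have h1 : plO (pc σ Q) ∈ p.T := (ha.inv _).1 hQ
  refine (ho i _ h1).trans ((if_congr ?_ rfl rfl).trans (ho (f i) Q hQ).symm)
  refine ⟨fun e => eq_of_ord fun m => ?_, fun e => e ▸ hf' i⟩
  have h2 := congrArg (fun R : Place k M => R.ord (σ.symm m)) (e.trans (hf' i).symm)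
  simpa only [pc_ord, AlgEquiv.apply_symm_apply] using h2

theorem Gd.sg [IsAlgClosed k] (hp : Pair0 p) {σ : M ≃ₐ[k] M} {ρ : Matrix I I ℤ}
    (h : Gd p σ ρ 1) : Sg p σ ρ where
  inv := h.inv
  rep := h.rep
  st := h.st
  sq := by
    obtain ⟨e, h0, h1⟩ := h.form
    obtain ⟨r, rfl⟩ := IsAlgClosed.exists_eq_mul_self e
    have h2 := h1 p.x p.y
    have n1 : σ (p.j p.x p.y) ≠ 0 := (map_ne_zero σ).2 hp.jne
    have n2 : σ p.φ ≠ 0 := (map_ne_zero σ).2 hp.φne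
    rw [map_mul, map_pow, map_mul] at h2
    have h3 : σ p.φ =
        p.φ * (algebraMap k M r * p.j (σ p.x) (σ p.y) / σ (p.j p.x p.y)) ^ 2 := by
      field_simp
      linear_combination h2
    refine ⟨_, fun e => n2 ?_, h3⟩
    rw [h3, e]
    ring

omit [Fintype κ] in
theorem Gd.pow {σ : M ≃ₐ[k] M} {ρ : Matrix I I ℤ} {π : Equiv.Perm κ} {x : I → ℤ}
    (hx : ip p.B x p.F = 0) (h : Gd p σ ρ π) (ht : p.ld.Tl ρ x) (n : ℕ) :
    ∃ σ' ρ', Gd p σ' ρ' (π ^ (n + 1)) ∧ p.ld.Tl ρ' (((n + 1 : ℕ) : ℤ) • x) := by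
  induction n with
  | zero => exact ⟨σ, ρ, by simpa using h, by simpa using ht⟩
  | succ n ih =>
    obtain ⟨σ', ρ', h1, h2⟩ := ih
    refine ⟨σ' * σ, ρ' * ρ, pow_succ π (n + 1) ▸ h.mul h1, ?_⟩
    rw [Nat.cast_succ, add_smul, one_smul]
    exact tl_mul p.ld hx ht h2

end geometry

end TransA

theorem trans_stmt : TransStmt := by
  intro k M I κ _ _ _ _ _ _ _ p hp _ hD hI
  obtain ⟨D, hD⟩ := hD
  obtain ⟨n, hn⟩ : ∃ n, Nat.card (Equiv.Perm κ) = n + 1 :=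
    Nat.exists_eq_succ_of_ne_zero Nat.card_pos.ne'
  refine ⟨n + 1, n.succ_pos, fun x hx => ?_⟩
  obtain ⟨σ, ρ, h1, h2, h3⟩ := hI D hD
  obtain ⟨σ', ρ', h1', h2', h3'⟩ := hI (D + x) (by rw [ip_add_left, hD, hx, add_zero])
  obtain ⟨π, hπ⟩ := TransA.exists_gd hp h1 h2
  obtain ⟨π', hπ'⟩ := TransA.exists_gd hp h1' h2'
  obtain ⟨τ, θ, h4, h5⟩ := (hπ.mul hπ').pow hx (TransA.tl_two p.ld hD h3 h3') n
  rw [← hn, pow_card_eq_one'] at h4
  exact ⟨τ, θ, h4.sg hp, h5⟩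

end Pool.Agent.MP_20d318_ag.CB

end MrgPart0

-- ======== part 1: formerly Pool.Agent.MP_20d318_ag.CB.Vf
section MrgPart1

/-! A regular vector field is tangent to the negative curves. -/

set_option autoImplicit false

namespace Pool.Agent.MP_20d318_ag.CB

open Pool.Agent.MP_79c67d_ag Pool.Agent.MP_20d318_ag.AG Pool.Agent.MP_20d318_ag.BV MvPolynomial
open Pool.Agent.MP_20d318_ag.RS (jac)
open scoped IntermediateField

namespace Vf

variable {k M : Type} [Field k] [CharZero k] [IsAlgClosed k] [Field M] [Algebra k M]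

theorem deg_nonneg_of_der {X : Set (Subalgebra k M)} (hX : Good X) {f : Subalgebra k M → M}
    (hf : IsCart X f) (he : ∀ O ∈ X, f O ∈ O) (v : Derivation k M M)
    (hv : ∀ O ∈ X, ∀ a ∈ O, v a ∈ O) (ν : Curve X) (hm : f ν.gen ∈ mx ν.gen)
    (hu : IsU ν.gen (v (f ν.gen))) : 0 ≤ ν.deg f := by
  have h0 : ν.ev (v (f ν.gen)) ≠ 0 := evO_ne _ hu
  have key : ∀ Q : Place k ν.L,
      0 ≤ Q.ord (ν.ev (f (ν.pt Q) / f ν.gen)) + Q.ord (ν.ev (v (f ν.gen))) := fun Q => by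
    have h1 := hf.unit (ν.pt_mem Q) ν.gen_mem (ν.pt_le Q)
    have h2 : f (ν.pt Q) = f (ν.pt Q) / f ν.gen * f ν.gen :=
      (div_mul_cancel₀ _ (hf.ne ν.gen_mem)).symm
    have h3 : v (f (ν.pt Q)) ∈ ν.pt Q := hv _ (ν.pt_mem Q) _ (he _ (ν.pt_mem Q))
    have h4 : v (f (ν.pt Q) / f ν.gen) ∈ ν.gen := hv _ ν.gen_mem _ h1.mem
    have h5 : v (f (ν.pt Q)) = f (ν.pt Q) / f ν.gen * v (f ν.gen) +
        f ν.gen * v (f (ν.pt Q) / f ν.gen) := by
      rw [← smul_eq_mul, ← smul_eq_mul (f ν.gen), ← v.leibniz, ← h2]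
    have h6 : ν.ev (v (f (ν.pt Q))) = ν.ev (f (ν.pt Q) / f ν.gen) * ν.ev (v (f ν.gen)) := by
      rw [h5, ν.ev_eq, evO_add _ (mul_mem h1.mem hu.mem) (mul_mem hm.1 h4), ← ν.ev_eq, ← ν.ev_eq,
        (ev_eq_zero ν (mul_mem hm.1 h4)).2 (mx_mul_right hm h4), add_zero, ev_mul ν h1.mem hu.mem]
    have h7 : ν.ev (f (ν.pt Q) / f ν.gen) ≠ 0 := evO_ne _ h1
    rw [← Q.ord_mul h7 h0, ← h6]
    exact FF.ord_nonneg (ν.v_le Q h3)
  have h8 := finsum_nonneg key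
  rwa [finsum_add_distrib (hf.finite hX ν) (FF.finite_ord _), FF.finsum_ord h0, add_zero] at h8

end Vf

theorem vf_stmt : VfStmt := by
  intro k M I _ _ _ _ _ _ S hS v hv c φ P hP hc
  obtain ⟨ν, hν, h1, -⟩ := hS.a1.cur P hP.2.1
  have hX : Good S.T := hS.a1.nice.toFine.toGood
  have hm : φ * S.lb c (plO P) ∈ mx (plO P) := (hS.a1.pmx c φ P hP _ hP.2.1).2 le_rfl
  refine (isU_or_mx (hv _ hP.2.1 _ hm.1)).resolve_left fun hu => ?_
  have h2 := Vf.deg_nonneg_of_der hX (hS.a1.pcart c φ hP.1) (hS.a1.pmem c φ P hP) v hv ν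
    (by rw [hν]; exact hm) (by rw [hν]; exact hu)
  rw [deg_cmul hX (hS.a1.cart c) hP.1, hS.s.deg c φ P hP ν hν c, h1] at h2
  omega

end Pool.Agent.MP_20d318_ag.CB

end MrgPart1

-- ======== part 2: formerly Pool.Agent.MP_20d318_ag.CB.XCur
section MrgPart2

/-! The degrees of curves on the threefold. -/

set_option autoImplicit false

namespace Pool.Agent.MP_20d318_ag.CB

open Pool.Agent.MP_79c67d_ag Pool.Agent.MP_20d318_ag.AG Pool.Agent.MP_20d318_ag.BV MvPolynomial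

namespace XCurA

variable {k M K I κ : Type} [Field k] [Field M] [Field K] [Algebra k M] [Algebra k K]

theorem ptmx {X : Set (Subalgebra k K)} {f : Subalgebra k K → K} (hf : IsCart X f)
    (hor : ∀ O ∈ X, f O ∈ O ∨ (f O)⁻¹ ∈ O) (ν : Curve X) (h : f ν.gen ∈ mx ν.gen)
    (P : Place k ν.L) : f (ν.pt P) ∈ mx (ν.pt P) := by
  have h1 := mx_pt_cart hf ν P h
  rcases hor _ (ν.pt_mem P) with h2 | h2
  · exact mx_pt ν P h1 h2
  · exact (h1.2 ⟨hf.ne (ν.pt_mem P), h1.1, ν.pt_le P h2⟩).elim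

theorem mx_prod {O : Subalgebra k K} {α : Type} [Fintype α] {f : α → K} (hm : ∀ j, f j ∈ O)
    (h : ∏ j, f j ∈ mx O) : ∃ j, f j ∈ mx O := by
  by_contra hc
  push Not at hc
  exact h.2 (isU_prod fun j _ => isU_of_not_mx (hm j) (hc j))

variable [CharZero k] [IsAlgClosed k] [Fintype I] [Fintype κ] {p : Pd k M I κ} {ι : M →ₐ[k] K}
  {l : k} {ζ w : K} (h : XAll p ι l ζ w) (ν : Curve (XX p ι ζ w))

include h

theorem c0 (hr : RatPt (pr ι p.T ν.gen)) : (ZZ p ι l ζ ν).1 = 0 := by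
  obtain ⟨ν', h1, h2⟩ := h.div.proj ν
  rw [← h1] at hr
  rw [h2]
  exact h.t.all.a1.zz0 ν' hr

theorem c1 (c φ P) (hP : p.Prm c φ P) (e : pr ι p.T ν.gen = plO P) :
    ∃ n : ℕ, 0 < n ∧ (ZZ p ι l ζ ν).1 = n • c := by
  obtain ⟨ν', h1, h2⟩ := h.div.proj ν
  rw [h2]
  exact ⟨nu ν', h.t.all.a1.nupos ν' P (h1.trans e), h.t.all.a1.zz1 c φ P hP ν' (h1.trans e)⟩

theorem cases : RatPt (pr ι p.T ν.gen) ∨ ∃ P : Place k M, pr ι p.T ν.gen = plO P := by
  obtain ⟨ν', h1, -⟩ := h.div.proj ν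
  rw [← h1]
  exact h.t.all.a1.cases ν'

theorem onC (i : κ) (hs : sX p ι i ν.gen ∈ mx ν.gen) :
    ∃ n : ℕ, (ZZ p ι l ζ ν).1 = n • p.C i := by
  rcases cases h ν with hr | ⟨P', e⟩
  · exact ⟨0, by rw [c0 h ν hr, zero_smul]⟩
  · obtain ⟨P, hP⟩ := h.t.prm i
    have hm := h.loc.maps.mem ν.gen_mem
    have h1 := (h.loc.maps.mx_up ν.gen_mem (h.t.all.a1.pmem _ _ _ hP _ hm)).1 hs
    rw [e] at hm h1
    obtain rfl := h.t.all.a1.peq _ _ _ hP P' hm h1
    exact (c1 h ν _ _ _ hP e).imp fun _ => And.right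

theorem tauU {j j' : Fin 4} (ht : tau l ζ j ν.gen ∈ mx ν.gen) (hj : j' ≠ j) (P : Place k ν.L) :
    IsU (ν.pt P) (tau l ζ j' (ν.pt P)) :=
  isU_of_not_mx (h.loc.tm _ (ν.pt_mem P) j') fun e => hj (h.loc.t1 _ (ν.pt_mem P) j' j e
    (ptmx (h.div.cartT j) (fun O hO => .inl (h.loc.tm O hO j)) ν ht P))

theorem sU {i i' : κ} (hs : sX p ι i ν.gen ∈ mx ν.gen) (hi : i' ≠ i) (P : Place k ν.L) :
    IsU (ν.pt P) (sX p ι i' (ν.pt P)) :=
  isU_of_not_mx (h.loc.sm _ (ν.pt_mem P) i') fun e => hi (h.loc.s1 _ (ν.pt_mem P) i' i e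
    (ptmx (h.div.cartS i) (fun O hO => .inl (h.loc.sm O hO i)) ν hs P))

theorem zeroT (j : Fin 4) (hu : ∀ P, IsU (ν.pt P) (tau l ζ j (ν.pt P))) :
    (ZZ p ι l ζ ν).2.1 = 0 :=
  (h.div.degT ν j).symm.trans (deg_zero_of h.loc.fine.toGood (h.div.cartT j) ν hu)

theorem zeroE (i : κ) (j : Fin 4) (hu : ∀ P, IsU (ν.pt P) (sX p ι i (ν.pt P)) ∨
    IsU (ν.pt P) (tau l ζ j (ν.pt P))) : (ZZ p ι l ζ ν).2.2 i j = 0 :=
  deg_zero_of h.loc.fine.toGood (h.div.cartE i j) ν fun P => h.div.eu _ (ν.pt_mem P) i j (hu P)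

theorem zeroT' {j : Fin 4} (ht : tau l ζ j ν.gen ∈ mx ν.gen) : (ZZ p ι l ζ ν).2.1 = 0 := by
  obtain ⟨j', hj⟩ := exists_ne j
  exact zeroT h ν j' (tauU h ν ht hj)

theorem cA (j : Fin 4) (ha : AA p ι ζ w ν.gen ∈ mx ν.gen) (ht : tau l ζ j ν.gen ∈ mx ν.gen) :
    (ZZ p ι l ζ ν).2.1 = 0 ∧ ∀ i j', (ZZ p ι l ζ ν).2.2 i j' =
      if j' = j then ip p.B (p.C i) (ZZ p ι l ζ ν).1 else 0 := by
  refine ⟨zeroT' h ν ht, fun i j' => ?_⟩
  split_ifs with e
  · subst e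
    rw [← h.div.degS]
    exact degc h.loc.fine.toGood (h.div.cartE i j') (h.div.cartS i) ν fun P =>
      h.div.eT _ (ν.pt_mem P) i j' (ptmx h.div.cartA h.loc.aa ν ha P).1
        (ptmx (h.div.cartT j') (fun O hO => .inl (h.loc.tm O hO j')) ν ht P)
  · exact zeroE h ν i j' fun P => .inr (tauU h ν ht e P)

open Classical in
theorem cB (i : κ) (ha : (AA p ι ζ w ν.gen)⁻¹ ∈ mx ν.gen)
    (hs : sX p ι i ν.gen ∈ mx ν.gen) (i' : κ) (j : Fin 4) :
    (ZZ p ι l ζ ν).2.2 i' j = if i' = i then (ZZ p ι l ζ ν).2.1 else 0 := by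
  split_ifs with e
  · subst e
    rw [← h.div.degT ν j]
    exact degc h.loc.fine.toGood (h.div.cartE i' j) (h.div.cartT j) ν fun P =>
      h.div.eC _ (ν.pt_mem P) i' j (ptmx h.div.cartA.inv
        (fun O hO => (h.loc.aa O hO).symm.imp_right fun e => by simpa using e) ν ha P).1
        (ptmx (h.div.cartS i') (fun O hO => .inl (h.loc.sm O hO i')) ν hs P)
  · exact zeroE h ν i' j fun P => .inl (sU h ν hs e P)

theorem cX (i : κ) (j : Fin 4) (hs : sX p ι i ν.gen ∈ mx ν.gen)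
    (ht : tau l ζ j ν.gen ∈ mx ν.gen) : (ZZ p ι l ζ ν).2.1 = 0 ∧
      ∀ i' j', ¬ (i' = i ∧ j' = j) → (ZZ p ι l ζ ν).2.2 i' j' = 0 :=
  ⟨zeroT' h ν ht, fun i' j' e => zeroE h ν i' j' fun P =>
    (not_and_or.1 e).imp (fun e => sU h ν hs e P) fun e => tauU h ν ht e P⟩

theorem cG (c : k) (h0 : c ≠ 0) (h1 : c ≠ 1) (hl : c ≠ l)
    (hc : ζ - algebraMap k K c ∈ mx ν.gen) : (ZZ p ι l ζ ν).2 = 0 := by
  have hu : ∀ j P, IsU (ν.pt P) (tau l ζ j (ν.pt P)) := fun j P => by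
    have hO := h.loc.fine.toGood.loc _ (ν.pt_mem P)
    have h2 := mem_pt_of_const ν P hc (by
      have := h.loc.zm _ (ν.pt_mem P)
      unfold zc at this
      split_ifs at this
      exacts [.inl this, .inr this])
    have h3 : ζ ∈ ν.pt P := by simpa using add_mem h2.1 ((ν.pt P).algebraMap_mem c)
    have h4 : ∀ e : k, c ≠ e → IsU (ν.pt P) (ζ - algebraMap k K e) := fun e he => by
      have := (isU_const (O := ν.pt P) (sub_ne_zero.2 he)).add_mx hO h2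
      rwa [map_sub, sub_add_sub_cancel'] at this
    unfold tau eta
    rw [if_pos h3, div_one]
    fin_cases j
    · simpa using h4 0 h0
    · simpa using h4 1 h1
    · exact h4 l hl
    · exact isU_one
  exact Prod.ext (zeroT h ν 0 (hu 0)) (funext fun i => funext fun j =>
    zeroE h ν i j fun P => .inr (hu j P))

theorem sumT (j : Fin 4) (ha : AA p ι ζ w ν.gen ∉ mx ν.gen) :
    ∑ i, (ZZ p ι l ζ ν).2.2 i j ≤ (ZZ p ι l ζ ν).2.1 := by
  have hX := h.loc.fine.toGood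
  have hc := isCart_prod (s := Finset.univ) fun i _ => h.div.cartE i j
  have h1 := deg_nonneg hX ((h.div.cartT j).div hc)
    (fun O hO => by simpa using (h.div.rT O hO j).1) ν
    (by simpa using (h.div.rT _ ν.gen_mem j).2 ha)
  rw [deg_div hX (h.div.cartT j) hc, deg_prod hX fun i _ => h.div.cartE i j, h.div.degT] at h1
  exact sub_nonneg.1 h1

theorem sumC (i : κ) (ha : (AA p ι ζ w ν.gen)⁻¹ ∉ mx ν.gen) :
    ∑ j, (ZZ p ι l ζ ν).2.2 i j ≤ ip p.B (p.C i) (ZZ p ι l ζ ν).1 := by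
  have hX := h.loc.fine.toGood
  have hc := isCart_prod (s := Finset.univ) fun j _ => h.div.cartE i j
  have h1 := deg_nonneg hX ((h.div.cartS i).div hc)
    (fun O hO => by simpa using (h.div.rC O hO i).1) ν
    (by simpa using (h.div.rC _ ν.gen_mem i).2 ha)
  rw [deg_div hX (h.div.cartS i) hc, deg_prod hX fun j _ => h.div.cartE i j, h.div.degS] at h1
  exact sub_nonneg.1 h1

theorem cur : p.ld.Cur (ZZ p ι l ζ ν) := by
  classical
  have hX := h.loc.fine.toGood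
  have hO := ν.gen_mem
  have hs2 : ∏ i, sX p ι i ν.gen ∈ mx ν.gen → ∃ i, sX p ι i ν.gen ∈ mx ν.gen := fun e =>
    mx_prod (h.loc.sm _ hO) e
  have hsm : ∏ i, sX p ι i ν.gen ∈ ν.gen := prod_mem fun i _ => h.loc.sm _ hO i
  have eqn := h.loc.eqn _ hO
  refine ⟨?_, neg_nonneg.2 (deg_gn_nonpos hX (Set.toFinite _) h.loc.gZ ν), ?_⟩
  · rcases cases h ν with hr | ⟨P, e⟩
    · exact .inl (c0 h ν hr)
    · obtain ⟨c, φ, hP⟩ := h.t.all.s.all P (e ▸ h.loc.maps.mem hO)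
      exact .inr ⟨c, ⟨φ, P, hP⟩, (c1 h ν _ _ _ hP e).imp fun _ => And.right⟩
  by_cases ha : AA p ι ζ w ν.gen ∈ mx ν.gen
  · obtain ⟨j, hj⟩ := mx_prod (h.loc.tm _ hO) (eqn ▸ mx_mul_right (mx_pow ha two_ne_zero) hsm)
    exact .inl ⟨j, cA h ν j ha hj⟩
  by_cases hb : (AA p ι ζ w ν.gen)⁻¹ ∈ mx ν.gen
  · obtain ⟨i, hi⟩ := hs2 (by
      have := mx_mul_right (mx_pow hb two_ne_zero) (prod_mem fun j (_ : j ∈ Finset.univ) =>
        h.loc.tm _ hO j)
      rwa [← eqn, inv_pow, inv_mul_cancel_left₀ (pow_ne_zero _ (h.loc.ane _ hO))] at this)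
    exact .inr (.inl ⟨i, onC h ν i hi, cB h ν i hb hi⟩)
  have hu : IsU ν.gen (AA p ι ζ w ν.gen) := (h.loc.aa _ hO).elim (isU_of_not_mx · ha)
    fun e => by simpa using (isU_of_not_mx e hb).inv
  by_cases ht : ∃ j, tau l ζ j ν.gen ∈ mx ν.gen
  · obtain ⟨j, hj⟩ := ht
    obtain ⟨i, hi⟩ := hs2 (by
      refine (mx_or_of_mul (hu.pow 2).mem hsm ?_).resolve_left (hu.pow 2).not_mx
      rw [eqn, ← Finset.mul_prod_erase _ _ (Finset.mem_univ j)]
      exact mx_mul_right hj (prod_mem fun j _ => h.loc.tm _ hO j))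
    obtain ⟨h1, h2⟩ := cX h ν i j hi hj
    refine .inr (.inr (.inl ⟨i, j, onC h ν i hi, h1, ?_, h2⟩))
    have h3 := sumT h ν j ha
    rwa [h1, Finset.sum_eq_single i (fun i' _ e => h2 i' j fun e' => e e'.1) (by simp)] at h3
  · push Not at ht
    exact .inr (.inr (.inr ⟨fun i j => deg_nonneg hX (h.div.cartE i j)
      (fun O hO => h.div.em O hO i j) ν (h.div.eu _ hO i j
        (.inr (isU_of_not_mx (h.loc.tm _ hO j) (ht j)))),
      fun i => sumC h ν i hb, fun j => sumT h ν j ha⟩))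

end XCurA

theorem xCur_stmt : XCurStmt := fun _ _ _ _ _ _ _ _ _ _ _ _ _ _ _ _ _ _ _ h =>
  ⟨XCurA.c0 h, XCurA.c1 h, XCurA.cA h, XCurA.cB h, XCurA.cX h, XCurA.cG h, XCurA.cur h⟩

end Pool.Agent.MP_20d318_ag.CB

end MrgPart2

-- ======== part 3: formerly Pool.Agent.MP_20d318_ag.CB.XDiv
section MrgPart3

/-! The divisors on the threefold `X`. -/

set_option autoImplicit false

namespace Pool.Agent.MP_20d318_ag.CB

open Pool.Agent.MP_79c67d_ag Pool.Agent.MP_20d318_ag.AG Pool.Agent.MP_20d318_ag.BV MvPolynomial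

namespace XD

variable {k M K I κ : Type} [Field k] [Field M] [Field K] [Algebra k M] [Algebra k K] [Fintype I]
  [Fintype κ] {p : Pd k M I κ} {ι : M →ₐ[k] K} {l : k} {ζ w : K}

theorem loc (h : XLoc p ι l ζ w) {O : Subalgebra k K} (hO : O ∈ XX p ι ζ w) :
    XDivL.Loc O (fun i => sX p ι i O) (fun j => tau l ζ j O) (AA p ι ζ w O) where
  sne := h.sne O hO
  tne := h.tne O
  ane := h.ane O hO
  aa := h.aa O hO
  eqn := h.eqn O hO
  sm := h.sm O hO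
  tm := h.tm O hO
  s1 := h.s1 O hO
  t1 := h.t1 O hO

theorem gE (h : XLoc p ι l ζ w) {O : Subalgebra k K} (hO : O ∈ XX p ι ζ w) (i : κ) (j : Fin 4) :
    Gn {sX p ι i O, tau l ζ j O} O (EE p ι l ζ i j O) :=
  gn_spec ((loc h hO).prin i j)

theorem cartZ (h : XLoc p ι l ζ w) : IsCart (XX p ι ζ w) (eta ζ) :=
  isCart_of_gn (Set.toFinite _) h.gZ

theorem cne (h : XLoc p ι l ζ w) (j : Fin 4) :
    (![ζ, ζ - 1, ζ - algebraMap k K l, 1] j : K) ≠ 0 := fun e =>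
  h.tne ⊤ j (by rw [tau, e, zero_div])

theorem cartT (h : XLoc p ι l ζ w) (j : Fin 4) : IsCart (XX p ι ζ w) (tau l ζ j) :=
  (isCart_const (cne h j)).div (cartZ h)

theorem cartU (ht : Pair0 p) (h : XLoc p ι l ζ w) {f : Subalgebra k M → M} (hf : IsCart p.T f) :
    IsCart (XX p ι ζ w) (up ι p.T f) :=
  isCart_up ht.all.a1.nice.toGood h.fine.toGood h.maps hf

theorem ψne (ht : Pair0 p) (i : κ) : p.ψ i ≠ 0 := (ht.prm i).choose_spec.1

theorem cartS (ht : Pair0 p) (h : XLoc p ι l ζ w) (i : κ) : IsCart (XX p ι ζ w) (sX p ι i) :=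
  cartU ht h (ht.all.a1.pcart _ _ (ψne ht i))

theorem cartA (ht : Pair0 p) (h : XLoc p ι l ζ w) : IsCart (XX p ι ζ w) (AA p ι ζ w) :=
  (isCart_const h.wne).div ((cartU ht h ((isCart_const ht.φne).mul
    (ht.all.a1.pcart (-p.K) _ ht.ωne))).mul ((cartZ h).pow 2))

theorem cartE (ht : Pair0 p) (h : XLoc p ι l ζ w) (i : κ) (j : Fin 4) :
    IsCart (XX p ι ζ w) (EE p ι l ζ i j) :=
  isCart_gn_pair (cartS ht h i) (cartT h j) fun _ hO => gE h hO i j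

theorem lbW_eq (D : W I κ ℤ) : lbW p ι l ζ D = up ι p.T (p.lb D.1) * eta ζ ^ (-D.2.1) *
    ∏ i, ∏ j, EE p ι l ζ i j ^ (-D.2.2 i j) := by
  funext O
  simp only [lbW, Pi.mul_apply, Pi.pow_apply, Finset.prod_apply]

theorem cartP (ht : Pair0 p) (h : XLoc p ι l ζ w) (D : W I κ ℤ) (i : κ) :
    IsCart (XX p ι ζ w) (∏ j, EE p ι l ζ i j ^ (-D.2.2 i j)) :=
  isCart_prod fun j _ => (cartE ht h i j).zpow _

theorem cartW (ht : Pair0 p) (h : XLoc p ι l ζ w) (D : W I κ ℤ) :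
    IsCart (XX p ι ζ w) (lbW p ι l ζ D) := by
  rw [lbW_eq]
  exact ((cartU ht h (ht.all.a1.cart D.1)).mul ((cartZ h).zpow _)).mul
    (isCart_prod fun i _ => cartP ht h D i)

theorem proj (ht : Pair0 p) (h : XLoc p ι l ζ w) (ν : Curve (XX p ι ζ w)) :
    ∃ ν' : Curve p.T, (ν'.gen = pr ι p.T ν.gen ∧ (ZZ p ι l ζ ν).1 = p.zz ν') ∧
      ∀ f, IsCart p.T f → ν.deg (up ι p.T f) = ν'.deg f := by
  obtain ⟨ν', h1, h2⟩ := exists_proj ht.all.a1.nice.toGood h.fine.toGood h.maps ν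
  refine ⟨ν', ⟨h1, ?_⟩, h2⟩
  exact congrArg (cls p.B) (funext fun c => h2 _ (ht.all.a1.cart c))

variable [CharZero k] [IsAlgClosed k]

theorem degL (ht : Pair0 p) (h : XLoc p ι l ζ w) (ν : Curve (XX p ι ζ w)) (c : I → ℤ) {φ : M}
    (hφ : φ ≠ 0) : ν.deg (up ι p.T fun R => φ * p.lb c R) = ip p.B c (ZZ p ι l ζ ν).1 := by
  obtain ⟨ν', ⟨-, h1⟩, h2⟩ := proj ht h ν
  rw [h2 _ (ht.all.a1.pcart c φ hφ), deg_cmul ht.all.a1.nice.toGood (ht.all.a1.cart c) hφ, h1,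
    ht.all.a1.zzd]

theorem degS (ht : Pair0 p) (h : XLoc p ι l ζ w) (ν : Curve (XX p ι ζ w)) (i : κ) :
    ν.deg (sX p ι i) = ip p.B (p.C i) (ZZ p ι l ζ ν).1 :=
  degL ht h ν (p.C i) (ψne ht i)

theorem degT (h : XLoc p ι l ζ w) (ν : Curve (XX p ι ζ w)) (j : Fin 4) :
    ν.deg (tau l ζ j) = (ZZ p ι l ζ ν).2.1 := by
  have := deg_div h.fine.toGood (isCart_const (cne h j)) (cartZ h) ν
  rw [deg_const, zero_sub] at this
  exact this

theorem degW (ht : Pair0 p) (h : XLoc p ι l ζ w) (ν : Curve (XX p ι ζ w)) (D : W I κ ℤ) :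
    ν.deg (lbW p ι l ζ D) = ipW p.B D (ZZ p ι l ζ ν) := by
  have hX := h.fine.toGood
  have h1 := degL ht h ν D.1 one_ne_zero
  simp only [one_mul] at h1
  rw [lbW_eq, deg_mul hX ((cartU ht h (ht.all.a1.cart D.1)).mul ((cartZ h).zpow _))
    (isCart_prod fun i _ => cartP ht h D i),
    deg_mul hX (cartU ht h (ht.all.a1.cart D.1)) ((cartZ h).zpow _), deg_zpow hX (cartZ h),
    deg_prod hX fun i _ => cartP ht h D i]
  have h2 : ∀ i, ν.deg (∏ j, EE p ι l ζ i j ^ (-D.2.2 i j)) =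
      -∑ j, D.2.2 i j * (ZZ p ι l ζ ν).2.2 i j := fun i => by
    rw [deg_prod hX fun j _ => (cartE ht h i j).zpow _, ← Finset.sum_neg_distrib]
    exact Finset.sum_congr rfl fun j _ => by rw [deg_zpow hX (cartE ht h i j), neg_mul]; rfl
  rw [Finset.sum_congr rfl fun i _ => h2 i, Finset.sum_neg_distrib, ipW, ← h1]
  have h3 : (ZZ p ι l ζ ν).2.1 = -ν.deg (eta ζ) := rfl
  rw [h3]
  ring

theorem eff (ht : Pair0 p) (h : XLoc p ι l ζ w) (D : W I κ ℤ) (hD : D ∈ p.ld.EG) :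
    ∃ C : Cartier (XX p ι ζ w), C.Effective ∧
      ∀ ν : Curve (XX p ι ζ w), ν.deg C.f = ipW p.B D (ZZ p ι l ζ ν) := by
  classical
  have hX := h.fine.toGood
  rcases hD with ⟨c, ⟨φ, P, hP⟩, rfl⟩ | rfl | ⟨i, j, rfl⟩ | ⟨i, rfl⟩ | ⟨j, rfl⟩
  · refine ⟨⟨_, cartU ht h (ht.all.a1.pcart c φ hP.1)⟩, fun O hO => h.maps.mem_up hO
      (ht.all.a1.pmem c φ P hP _ (h.maps.mem hO)), fun ν => ?_⟩
    rw [show ipW p.B (c, 0, 0) (ZZ p ι l ζ ν) = ip p.B c (ZZ p ι l ζ ν).1 by simp [ipW]]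
    exact degL ht h ν c hP.1
  · refine ⟨⟨_, cartT h 3⟩, fun O hO => h.tm O hO 3, fun ν => ?_⟩
    rw [show ipW p.B (0, 1, 0) (ZZ p ι l ζ ν) = (ZZ p ι l ζ ν).2.1 by simp [ipW, ip_zero_left]]
    exact degT h ν 3
  · refine ⟨⟨_, cartE ht h i j⟩, fun O hO => (gE h hO i j).mem ((loc h hO).pm i j), fun ν => ?_⟩
    rw [show ∀ Z : W I κ ℤ, ipW p.B _ Z = Z.2.2 i j from fun Z => by
      simp [ipW, ip_zero_left, ite_and]]
    rfl
  · have hc : IsCart (XX p ι ζ w) (∏ j, EE p ι l ζ i j) := isCart_prod fun j _ => cartE ht h i j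
    refine ⟨⟨_, (cartS ht h i).div hc⟩, fun O hO => ?_, fun ν => ?_⟩
    · have := ((loc h hO).rC (gE h hO) i).1
      simpa only [Pi.div_apply, Finset.prod_apply] using this
    · rw [show ∀ Z : W I κ ℤ, ipW p.B _ Z = ip p.B (p.C i) Z.1 - ∑ j, Z.2.2 i j from fun Z => by
        simp [ipW, Pd.ld]]
      change ν.deg (_ / _) = _
      rw [deg_div hX (cartS ht h i) hc, degS ht h, deg_prod hX fun j _ => cartE ht h i j]
      rfl
  · have hc : IsCart (XX p ι ζ w) (∏ i, EE p ι l ζ i j) := isCart_prod fun i _ => cartE ht h i j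
    refine ⟨⟨_, (cartT h j).div hc⟩, fun O hO => ?_, fun ν => ?_⟩
    · have := ((loc h hO).symm.rC (XDivL.gn_swap (gE h hO)) j).1
      simpa only [Pi.div_apply, Finset.prod_apply] using this
    · rw [show ∀ Z : W I κ ℤ, ipW p.B _ Z = Z.2.1 - ∑ i, Z.2.2 i j from fun Z => by
        simp [ipW, ip_zero_left]]
      change ν.deg (_ / _) = _
      rw [deg_div hX (cartT h j) hc, degT h, deg_prod hX fun i _ => cartE ht h i j]
      rfl

end XD

open XD in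
/-- XDIV. -/
theorem xDiv_stmt : XDivStmt := fun _ _ _ _ _ _ _ _ _ _ _ _ _ _ _ _ _ _ _ ht _ h =>
  { gE := fun _ hO => gE h hO
    em := fun _ hO i j => (gE h hO i j).mem ((loc h hO).pm i j)
    eu := fun _ hO => (loc h hO).eu (gE h hO)
    emx := fun _ hO i j hi hj => (gE h hO i j).mem_mx (by rintro a (rfl | rfl); exacts [hi, hj])
    eT := fun _ hO => (loc h hO).eT (gE h hO)
    eC := fun _ hO i j => (loc h hO).symm.eT (XDivL.gn_swap (gE h hO)) j i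
    rT := fun _ hO j => by
      simpa only [inv_inv] using (loc h hO).symm.rC (XDivL.gn_swap (gE h hO)) j
    rC := fun _ hO => (loc h hO).rC (gE h hO)
    cartZ := cartZ h
    cartT := cartT h
    cartS := cartS ht h
    cartA := cartA ht h
    cartE := cartE ht h
    cartW := cartW ht h
    proj := fun ν => (proj ht h ν).imp fun _ h' => h'.1
    degW := degW ht h
    degL := fun ν c _ hφ => degL ht h ν c hφ
    degS := degS ht h
    degT := degT h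
    eff := eff ht h }

end Pool.Agent.MP_20d318_ag.CB

end MrgPart3

-- marker of a merged file
example : 731051 + 41785 = 731051 + 41785 := rfl
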